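import Pool.Agent.Helper7.KE.A1
import Pool.Agent.Helper28.Ends.Pompeiu

set_option autoImplicit false

open MeasureTheory Set Filter Asymptotics Topology Metric
open scoped ComplexConjugate ENNReal

namespace Pool.Agent.KA

open Pool.Agent.Helper7.KE hiding HM PS Bv sfun FF tt lS
open Pool.Agent.EN (AJ ann ann2)

/-- the Cauchy kernel is locally integrable -/
theorem ct_integrableOn_inv (r : ℝ) : IntegrableOn (fun t : ℂ => t⁻¹) (closedBall 0 r) := by
  refine ⟨(measurable_inv (G := ℂ)).aestronglyMeasurable, ?_⟩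
  rw [hasFiniteIntegral_iff_enorm, ← lintegral_indicator measurableSet_closedBall,
    ← Complex.lintegral_comp_polarCoord_symm]
  have h1 : ∀ p ∈ polarCoord.target, ENNReal.ofReal p.1 •
      (closedBall (0 : ℂ) r).indicator (fun t : ℂ => ‖t⁻¹‖ₑ) (Complex.polarCoord.symm p) ≤
      (Icc (0 : ℝ) r ×ˢ Icc (-Real.pi) Real.pi).indicator (fun _ => (1 : ℝ≥0∞)) p := by
    intro p hp
    have hp1 : (0 : ℝ) < p.1 := hp.1
    have hs : Complex.polarCoord.symm p = p.1 * Pool.Agent.EN.pompE p.2 :=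
      Complex.polarCoord_symm_apply p
    have hn : ‖Complex.polarCoord.symm p‖ = p.1 := by
      rw [hs, norm_mul, Pool.Agent.EN.pompE_norm, mul_one, Complex.norm_real, Real.norm_eq_abs,
        abs_of_pos hp1]
    by_cases hr : p.1 ≤ r
    · have hm : Complex.polarCoord.symm p ∈ closedBall (0 : ℂ) r := by
        rw [mem_closedBall_zero_iff, hn]; exact hr
      have hm2 : p ∈ Icc (0 : ℝ) r ×ˢ Icc (-Real.pi) Real.pi :=
        ⟨⟨hp1.le, hr⟩, ⟨hp.2.1.le, hp.2.2.le⟩⟩
      rw [indicator_of_mem hm, indicator_of_mem hm2, ← ofReal_norm, norm_inv, hn, smul_eq_mul,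
        ← ENNReal.ofReal_mul hp1.le, mul_inv_cancel₀ hp1.ne', ENNReal.ofReal_one]
    · have hm : Complex.polarCoord.symm p ∉ closedBall (0 : ℂ) r := by
        rw [mem_closedBall_zero_iff, hn]; exact hr
      rw [indicator_of_notMem hm, smul_zero]
      exact zero_le
  refine lt_of_le_of_lt (setLIntegral_mono' (measurableSet_Ioi.prod measurableSet_Ioo) h1) ?_
  refine lt_of_le_of_lt (setLIntegral_le_lintegral _ _) ?_
  rw [lintegral_indicator (measurableSet_Icc.prod measurableSet_Icc), setLIntegral_one]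
  exact (isCompact_Icc.prod isCompact_Icc).measure_lt_top

theorem ct_locallyIntegrable_inv : LocallyIntegrable (fun t : ℂ => t⁻¹) := by
  rw [locallyIntegrable_iff]
  intro K hK
  obtain ⟨r, hr⟩ := hK.isBounded.subset_closedBall (0 : ℂ)
  exact (ct_integrableOn_inv r).mono_set hr

/-- the pointwise bound for the integrand of the Cauchy transform -/
noncomputable def ctB (R : ℝ) (z t : ℂ) : ℝ :=
  (closedBall (0 : ℂ) 1).indicator (fun t => ‖t⁻¹‖) t +
    (closedBall (0 : ℂ) R).indicator (fun _ => (1 : ℝ)) (z - t)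

theorem ctB_integrable (R : ℝ) (z : ℂ) : Integrable (ctB R z) := by
  have h1 : Integrable ((closedBall (0 : ℂ) 1).indicator (fun t : ℂ => ‖t⁻¹‖)) :=
    (integrable_indicator_iff measurableSet_closedBall).2 (ct_integrableOn_inv 1).norm
  have h2 : Integrable ((closedBall (0 : ℂ) R).indicator (fun _ : ℂ => (1 : ℝ))) :=
    (integrable_indicator_iff measurableSet_closedBall).2
      (integrableOn_const (isCompact_closedBall _ _).measure_lt_top.ne)
  exact h1.add (h2.comp_sub_left z)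

theorem ctB_integral (R : ℝ) (z : ℂ) : ∫ t, ctB R z t =
    (∫ t, (closedBall (0 : ℂ) 1).indicator (fun t : ℂ => ‖t⁻¹‖) t) +
      ∫ t, (closedBall (0 : ℂ) R).indicator (fun _ : ℂ => (1 : ℝ)) t := by
  have h1 : Integrable ((closedBall (0 : ℂ) 1).indicator (fun t : ℂ => ‖t⁻¹‖)) :=
    (integrable_indicator_iff measurableSet_closedBall).2 (ct_integrableOn_inv 1).norm
  have h2 : Integrable ((closedBall (0 : ℂ) R).indicator (fun _ : ℂ => (1 : ℝ))) :=
    (integrable_indicator_iff measurableSet_closedBall).2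
      (integrableOn_const (isCompact_closedBall _ _).measure_lt_top.ne)
  have h3 := integral_sub_left_eq_self
    ((closedBall (0 : ℂ) R).indicator (fun _ : ℂ => (1 : ℝ))) volume z
  rw [← h3]
  exact integral_add h1 (h2.comp_sub_left z)

theorem ct_bound {R : ℝ} {β : ℂ → ℂ} (hs : tsupport β ⊆ closedBall 0 R) {M : ℝ}
    (hM : ∀ z, ‖β z‖ ≤ M) (z : ℂ) :
    ‖∫ t, t⁻¹ * β (z - t)‖ ≤
      ((∫ t, (closedBall (0 : ℂ) 1).indicator (fun t : ℂ => ‖t⁻¹‖) t) +
      ∫ t, (closedBall (0 : ℂ) R).indicator (fun _ : ℂ => (1 : ℝ)) t) * M := by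
  have hM0 : 0 ≤ M := (norm_nonneg _).trans (hM 0)
  rw [← ctB_integral R z, mul_comm, ← integral_const_mul]
  refine norm_integral_le_of_norm_le ((ctB_integrable R z).const_mul M)
    (Eventually.of_forall fun t => ?_)
  have h0 : ∀ s : Set ℂ, ∀ f : ℂ → ℝ, (∀ x, 0 ≤ f x) → ∀ x, 0 ≤ s.indicator f x :=
    fun s f hf x => indicator_nonneg (fun y _ => hf y) x
  by_cases hz : z - t ∈ closedBall (0 : ℂ) R
  · have h2 : (closedBall (0 : ℂ) R).indicator (fun _ => (1 : ℝ)) (z - t) = 1 :=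
      indicator_of_mem hz _
    unfold ctB
    rw [h2, norm_mul, mul_comm]
    refine mul_le_mul (hM _) ?_ (norm_nonneg _) hM0
    by_cases ht : t ∈ closedBall (0 : ℂ) 1
    · rw [indicator_of_mem ht]
      linarith
    · rw [indicator_of_notMem ht, zero_add, norm_inv]
      rw [mem_closedBall_zero_iff, not_le] at ht
      exact inv_le_one_of_one_le₀ ht.le
  · have hb : β (z - t) = 0 := image_eq_zero_of_notMem_tsupport fun h => hz (hs h)
    rw [hb, mul_zero, norm_zero]
    unfold ctB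
    exact mul_nonneg hM0 (add_nonneg (h0 _ _ (fun x => norm_nonneg _) _)
      (h0 _ _ (fun x => zero_le_one) _))

/-- the Cauchy transform of a smooth function with compact support -/
theorem cauchy_smooth (R : ℝ) : ∃ C : ℝ, 0 ≤ C ∧ ∀ β : ℂ → ℂ, ContDiff ℝ (⊤ : ℕ∞) β →
    tsupport β ⊆ closedBall 0 R → ∃ b : ℂ → ℂ, ContDiff ℝ (⊤ : ℕ∞) b ∧ (∀ z, dzb b z = β z) ∧
      (∀ M : ℝ, (∀ z, ‖β z‖ ≤ M) → ∀ z, ‖b z‖ ≤ C * M) ∧
      ∀ M : ℝ, (∀ z, ‖dz β z‖ ≤ M) → ∀ z, ‖dz b z‖ ≤ C * M := by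
  set C0 : ℝ := (∫ t, (closedBall (0 : ℂ) 1).indicator (fun t : ℂ => ‖t⁻¹‖) t) +
      ∫ t, (closedBall (0 : ℂ) R).indicator (fun _ : ℂ => (1 : ℝ)) t with hC0
  have hC0' : 0 ≤ C0 := by
    refine add_nonneg (integral_nonneg fun t => indicator_nonneg (fun y _ => norm_nonneg _) _)
      (integral_nonneg fun t => indicator_nonneg (fun y _ => zero_le_one) _)
  have hpi := Real.pi_pos
  refine ⟨Real.pi⁻¹ * C0, by positivity, fun β hβ hs => ?_⟩
  have hc : HasCompactSupport β :=
    (isCompact_closedBall (0 : ℂ) R).of_isClosed_subset isClosed_closure hs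
  have hβ1 : ContDiff ℝ 1 β := hβ.of_le (by norm_cast)
  set L : ℂ →L[ℝ] ℂ →L[ℝ] ℂ := ContinuousLinearMap.mul ℝ ℂ with hL
  set cv : ℂ → ℂ := MeasureTheory.convolution (fun t : ℂ => t⁻¹) β L volume with hcv
  have hcv1 : ∀ z, cv z = ∫ t, t⁻¹ * β (z - t) := fun z => rfl
  have hsm : ContDiff ℝ (⊤ : ℕ∞) cv := hc.contDiff_convolution_right L ct_locallyIntegrable_inv hβ
  have hder : ∀ z, HasFDerivAt cv
      ((MeasureTheory.convolution (fun t : ℂ => t⁻¹) (fderiv ℝ β) (L.precompR ℂ) volume) z) z :=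
    fun z => hc.hasFDerivAt_convolution_right L ct_locallyIntegrable_inv hβ1 z
  have hint : ∀ z, Integrable (fun t : ℂ => (L.precompR ℂ) (t⁻¹) (fderiv ℝ β (z - t))) :=
    fun z => (hc.fderiv ℝ).convolutionExists_right (L.precompR ℂ) ct_locallyIntegrable_inv
      (hβ1.continuous_fderiv (by norm_num)) z
  have hfd : ∀ z v, fderiv ℝ cv z v = ∫ t, t⁻¹ * fderiv ℝ β (z - t) v := by
    intro z v
    rw [(hder z).fderiv]
    unfold MeasureTheory.convolution
    rw [ContinuousLinearMap.integral_apply (hint z)]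
    rfl
  have hintv : ∀ z v, Integrable (fun t : ℂ => t⁻¹ * fderiv ℝ β (z - t) v) := by
    intro z v
    exact (ContinuousLinearMap.apply ℝ ℂ v).integrable_comp (hint z)
  have hdz : ∀ z, dz cv z = ∫ t, t⁻¹ * dz β (z - t) := by
    intro z
    unfold dz
    rw [hfd, hfd, smul_eq_mul, smul_eq_mul, ← integral_const_mul, ← integral_sub (hintv _ _)
      ((hintv _ _).const_mul _), ← integral_const_mul]
    refine integral_congr_ae (Eventually.of_forall fun t => ?_)
    simp only [smul_eq_mul]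
    ring
  have hdzb : ∀ z, dzb cv z = ∫ t, t⁻¹ * dzb β (z - t) := by
    intro z
    unfold dzb
    rw [hfd, hfd, smul_eq_mul, smul_eq_mul, ← integral_const_mul, ← integral_add (hintv _ _)
      ((hintv _ _).const_mul _), ← integral_const_mul]
    refine integral_congr_ae (Eventually.of_forall fun t => ?_)
    simp only [smul_eq_mul]
    ring
  have hpom : ∀ z, ∫ t, t⁻¹ * dzb β (z - t) = Real.pi * β z := by
    intro z
    rw [← Pool.Agent.EN.pompeiu hβ1 hc z, ← integral_sub_left_eq_self _ volume z]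
    refine integral_congr_ae (Eventually.of_forall fun t => ?_)
    simp only [sub_sub_cancel, Pool.Agent.EN.dzbar, dzb, smul_eq_mul]
    ring
  have hcd : ∀ z, DifferentiableAt ℝ cv z := fun z =>
    (hsm.differentiable (by simp)).differentiableAt
  have hpi' : (Real.pi : ℂ) ≠ 0 := by exact_mod_cast hpi.ne'
  refine ⟨fun z => (Real.pi : ℂ)⁻¹ • cv z, hsm.const_smul _, fun z => ?_, fun M hM z => ?_,
    fun M hM z => ?_⟩
  · rw [(dz_smul (f := fun _ => (Real.pi : ℂ)⁻¹) (F := cv) (differentiableAt_const _) (hcd z)).2,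
      dz_const.2, zero_smul, zero_add, hdzb, hpom, smul_eq_mul, ← mul_assoc,
      inv_mul_cancel₀ hpi', one_mul]
  · have h := ct_bound hs hM z
    rw [norm_smul, norm_inv, Complex.norm_real, Real.norm_of_nonneg hpi.le, mul_assoc]
    exact mul_le_mul_of_nonneg_left h (by positivity)
  · rw [(dz_smul (f := fun _ => (Real.pi : ℂ)⁻¹) (F := cv) (differentiableAt_const _) (hcd z)).1,
      dz_const.1, zero_smul, zero_add, hdz, norm_smul, norm_inv, Complex.norm_real,
      Real.norm_of_nonneg hpi.le, mul_assoc]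
    exact mul_le_mul_of_nonneg_left (ct_bound (tsupport_dz.1.trans hs) hM z) (by positivity)

end Pool.Agent.KA
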