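import Pool.Agent.Helper9.KA.A5a

/-!
# Calculus in the collar charts
-/

set_option autoImplicit false

open MeasureTheory Set Filter Asymptotics Topology Metric
open scoped ComplexConjugate ENNReal

namespace Pool.Agent.KA

open Pool.Agent.Helper7.KE hiding HM PS Bv sfun FF tt lS
open Pool.Agent.EN (AJ ann ann2)

section
variable {Y : Type*} [NormedAddCommGroup Y] [NormedSpace ℂ Y]

/-- the real determinant of the multiplication by a complex number -/
theorem KAdet (c : ℂ) :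
    ((ContinuousLinearMap.toSpanSingleton ℂ c).restrictScalars ℝ : ℂ →L[ℝ] ℂ).det
      = ‖c‖ ^ 2 := by
  have h1 : (((ContinuousLinearMap.toSpanSingleton ℂ c).restrictScalars ℝ : ℂ →L[ℝ] ℂ) :
      ℂ →ₗ[ℝ] ℂ) = LinearMap.mulLeft ℝ c := by
    ext x
    simp [mul_comm]
  rw [ContinuousLinearMap.det, h1]
  have h2 := Algebra.norm_apply ℝ c
  rw [Algebra.norm_complex_eq] at h2
  rw [← Complex.normSq_eq_norm_sq]
  exact h2.symm

/-- chain rule for the Wirtinger derivatives -/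
theorem dz_comp_hol {F : ℂ → Y} {κ : ℂ → ℂ} {z : ℂ} (hκ : DifferentiableAt ℂ κ z)
    (hF : DifferentiableAt ℝ F (κ z)) :
    dz (fun w => F (κ w)) z = deriv κ z • dz F (κ z) ∧
      dzb (fun w => F (κ w)) z = conj (deriv κ z) • dzb F (κ z) := by
  have h1 : HasFDerivAt κ
      ((ContinuousLinearMap.toSpanSingleton ℂ (deriv κ z)).restrictScalars ℝ) z :=
    hκ.hasDerivAt.hasFDerivAt.restrictScalars ℝ
  have h2 := hF.hasFDerivAt.comp z h1
  have h3 : fderiv ℝ (fun w => F (κ w)) z = _ := h2.fderiv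
  have key : ∀ v : ℂ, fderiv ℝ F (κ z) v =
      (v.re : ℂ) • fderiv ℝ F (κ z) 1 + (v.im : ℂ) • fderiv ℝ F (κ z) Complex.I := by
    intro v
    have hv : v = v.re • (1 : ℂ) + v.im • Complex.I := by
      rw [Complex.real_smul, Complex.real_smul, mul_one, Complex.re_add_im]
    conv_lhs => rw [hv]
    rw [map_add, map_smul, map_smul, Complex.coe_smul, Complex.coe_smul]
  have e1 : fderiv ℝ (fun w => F (κ w)) z 1 = fderiv ℝ F (κ z) (deriv κ z) := by
    rw [h3]; simp
  have e2 : fderiv ℝ (fun w => F (κ w)) z Complex.I =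
      fderiv ℝ F (κ z) (Complex.I * deriv κ z) := by
    rw [h3]; simp
  have e3 : (Complex.I * deriv κ z).re = -(deriv κ z).im := by simp
  have e4 : (Complex.I * deriv κ z).im = (deriv κ z).re := by simp
  unfold dz dzb
  rw [e1, e2, key (deriv κ z), key (Complex.I * deriv κ z), e3, e4]
  generalize fderiv ℝ F (κ z) 1 = A
  generalize fderiv ℝ F (κ z) Complex.I = B
  have hd : deriv κ z = (deriv κ z).re + (deriv κ z).im * Complex.I :=
    (Complex.re_add_im _).symm
  have hc : conj (deriv κ z) = (deriv κ z).re - (deriv κ z).im * Complex.I := by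
    apply Complex.ext <;> simp
  have hI : Complex.I * Complex.I = -1 := Complex.I_mul_I
  constructor
  · conv_rhs => rw [hd]
    generalize (deriv κ z).re = x
    generalize (deriv κ z).im = y
    simp only [smul_sub, smul_add, smul_smul, Complex.ofReal_neg]
    rw [show ((x : ℂ) + y * Complex.I) * (2⁻¹ * Complex.I) =
        2⁻¹ * (Complex.I * x) - 2⁻¹ * y by linear_combination (2⁻¹ * y : ℂ) * hI]
    module
  · rw [hc]
    generalize (deriv κ z).re = x
    generalize (deriv κ z).im = y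
    simp only [smul_add, smul_smul, Complex.ofReal_neg]
    rw [show ((x : ℂ) - y * Complex.I) * (2⁻¹ * Complex.I) =
        2⁻¹ * (Complex.I * x) + 2⁻¹ * y by linear_combination (-(2⁻¹ * y) : ℂ) * hI]
    module

/-- change of variables for injective holomorphic maps -/
theorem integral_hol_image {S : Set ℂ} (hS : MeasurableSet S) {κ : ℂ → ℂ}
    (hκ : ∀ z ∈ S, DifferentiableAt ℂ κ z) (hi : InjOn κ S) (F : ℂ → Y) :
    (∫ z in κ '' S, F z = ∫ z in S, ((‖deriv κ z‖ ^ 2 : ℝ) : ℂ) • F (κ z)) ∧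
      (IntegrableOn F (κ '' S) ↔
        IntegrableOn (fun z => ((‖deriv κ z‖ ^ 2 : ℝ) : ℂ) • F (κ z)) S) := by
  have hd : ∀ z ∈ S, HasFDerivWithinAt κ
      ((ContinuousLinearMap.toSpanSingleton ℂ (deriv κ z)).restrictScalars ℝ) S z :=
    fun z hz => ((hκ z hz).hasDerivAt.hasFDerivAt.restrictScalars ℝ).hasFDerivWithinAt
  have hdet := KAdet
  constructor
  · have h := integral_image_eq_integral_abs_det_fderiv_smul volume hS hd hi F
    rw [h]
    simp only [hdet, abs_pow, abs_norm, Complex.coe_smul]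
  · have h := integrableOn_image_iff_integrableOn_abs_det_fderiv_smul volume hS hd hi F
    rw [h]
    simp only [hdet, abs_pow, abs_norm, Complex.coe_smul]

end

section
variable {k : ℕ} (D : AJ k) {τ : ℝ}
variable {Y : Type*} [NormedAddCommGroup Y] [NormedSpace ℂ Y]

/-- the annulus `1 < |z| < 1 + 3τ` as a circle domain -/
noncomputable def AN (τ : ℝ) (hτ : 0 < τ) : CD 1 where
  R := 1 + 3 * τ
  a := fun _ => 0
  r := fun _ => 1
  Rpos := by linarith
  rpos := fun _ => one_pos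
  inside := fun _ => by simp; linarith
  disj := fun i j h => absurd (Subsingleton.elim i j) h

theorem AN_U (τ : ℝ) (hτ : 0 < τ) : (AN τ hτ).U = ann (1 + 3 * τ) := by
  ext z
  simp only [CD.U, AN, ann, mem_ofPred_eq, sub_zero]
  exact ⟨fun h => ⟨h.2 0, h.1⟩, fun h => ⟨h.2, fun _ => h.1⟩⟩

theorem AN_good (hτ : D.Good τ) : (AN τ hτ.pos).Good τ := by
  have h0 := hτ.pos
  have h1 := hτ.lt_half
  exact
    { pos := h0
      lt_r := fun _ => by show τ < 1; linarith
      lt_R := by show τ < 1 + 3 * τ; linarith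
      inside := fun _ => by
        show ‖(0 : ℂ)‖ + 1 + 2 * τ < 1 + 3 * τ
        rw [norm_zero]; linarith
      disj := fun i j h => absurd (Subsingleton.elim i j) h }

theorem ann_subset_ann2_rho (hτ : D.Good τ) : ann (1 + 3 * τ) ⊆ ann2 D.ρ :=
  (Pool.Agent.EN.ann_subset_ann2).trans (Pool.Agent.EN.ann2_mono hτ.lt_rho.le)

theorem kap_image_subset (hτ : D.Good τ) (l : Option (Fin k)) :
    D.kap l '' ann (1 + 3 * τ) ⊆ D.U := by
  rintro _ ⟨z, hz, rfl⟩
  exact (D.mem_iff l z (ann_subset_ann2_rho D hτ hz)).2 hz.1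

theorem kap_diff (hτ : D.Good τ) (l : Option (Fin k)) {z : ℂ} (hz : z ∈ ann (1 + 3 * τ)) :
    DifferentiableAt ℂ (D.kap l) z :=
  (D.holo l).differentiableAt
    ((Pool.Agent.EN.isOpen_ann2' _).mem_nhds (ann_subset_ann2_rho D hτ hz))

/-- the closed annulus is in the domain of the charts -/
theorem AN_cU (hτ : D.Good τ) : (AN τ hτ.pos).cU ⊆ ann2 D.ρ := by
  intro z hz
  have h1 : ‖z‖ ≤ 1 + 3 * τ := hz.1
  have h2 : 1 ≤ ‖z - 0‖ := hz.2 0
  rw [sub_zero] at h2
  exact ⟨(inv_lt_one_of_one_lt₀ D.one_lt).trans_le h2, h1.trans_lt hτ.lt_rho⟩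

theorem AN_circ (τ : ℝ) (hτ : 0 < τ) :
    (AN τ hτ).circ (some 0) = sphere 0 1 ∧ (AN τ hτ).circ none = sphere 0 (1 + 3 * τ) :=
  ⟨rfl, rfl⟩

/-- the cutoff functions correspond to each other -/
theorem AN_chi (hτ : D.Good τ) (l : Option (Fin k)) {z : ℂ} (hz : z ∈ ann2 D.ρ) (h1 : 1 ≤ ‖z‖) :
    D.chi τ l (D.kap l z) = (AN τ hτ.pos).chi τ (some 0) z := by
  rw [chi_kap D l hz, prof_eq hτ.pos h1]
  show _ = Real.smoothTransition (2 - 3 * (‖z - 0‖ - 1) / τ)
  rw [sub_zero]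

/-- an integral over the domain of a function supported in a collar, in the chart -/
theorem integral_collar (hτ : D.Good τ) (l : Option (Fin k)) {F : ℂ → Y}
    (hF : ∀ z ∈ D.U, z ∉ D.kap l '' ann (1 + 3 * τ) → F z = 0) :
    ∫ z in D.U, F z =
      ∫ z in (AN τ hτ.pos).U, ((‖deriv (D.kap l) z‖ ^ 2 : ℝ) : ℂ) • F (D.kap l z) := by
  rw [AN_U, ← (integral_hol_image (Pool.Agent.EN.isOpen_ann' _).measurableSet
    (fun z hz => kap_diff D hτ l hz)
    ((D.inj l).mono (ann_subset_ann2_rho D hτ)) F).1]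
  exact setIntegral_eq_of_subset_of_forall_sdiff_eq_zero D.U_open.measurableSet
    (kap_image_subset D hτ l) fun z hz => hF z hz.1 hz.2

/-- pull back of square integrable holomorphic functions to the annulus -/
theorem hol2_pull (hτ : D.Good τ) (l : Option (Fin k)) {g : ℂ → ℂ} (hg : D.Hol2 g) :
    (AN τ hτ.pos).Hol2 (fun z => g (D.kap l z) * deriv (D.kap l) z) ∧
      ∫ z in (AN τ hτ.pos).U, ‖g (D.kap l z) * deriv (D.kap l) z‖ ^ 2 ≤
        ∫ z in D.U, ‖g z‖ ^ 2 := by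
  have hopen := Pool.Agent.EN.isOpen_ann' (1 + 3 * τ)
  have hdiff : DifferentiableOn ℂ (fun z => g (D.kap l z) * deriv (D.kap l) z)
      (ann (1 + 3 * τ)) := by
    intro z hz
    have h1 : DifferentiableAt ℂ (D.kap l) z := kap_diff D hτ l hz
    have h2 : DifferentiableAt ℂ g (D.kap l z) :=
      hg.diff.differentiableAt (D.U_open.mem_nhds (kap_image_subset D hτ l ⟨z, hz, rfl⟩))
    have h3 : DifferentiableAt ℂ (deriv (D.kap l)) z :=
      ((D.holo l).deriv (Pool.Agent.EN.isOpen_ann2' _)).differentiableAt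
        ((Pool.Agent.EN.isOpen_ann2' _).mem_nhds (ann_subset_ann2_rho D hτ hz))
    exact ((h2.comp z h1).mul h3).differentiableWithinAt
  have hcov := integral_hol_image (Y := ℂ) hopen.measurableSet (fun z hz => kap_diff D hτ l hz)
    ((D.inj l).mono (ann_subset_ann2_rho D hτ)) (fun z => ((‖g z‖ ^ 2 : ℝ) : ℂ))
  have heq : ∀ z, ((‖deriv (D.kap l) z‖ ^ 2 : ℝ) : ℂ) • ((‖g (D.kap l z)‖ ^ 2 : ℝ) : ℂ) =
      ((‖g (D.kap l z) * deriv (D.kap l) z‖ ^ 2 : ℝ) : ℂ) := by
    intro z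
    rw [norm_mul, smul_eq_mul, ← Complex.ofReal_mul]
    congr 1; ring
  simp only [heq] at hcov
  have hgm : AEStronglyMeasurable g (volume.restrict D.U) := hg.memLp.1
  have hgi : IntegrableOn (fun z => ‖g z‖ ^ 2) D.U :=
    (memLp_two_iff_integrable_sq_norm hgm).1 hg.memLp
  have hgi2 : IntegrableOn (fun z => ((‖g z‖ ^ 2 : ℝ) : ℂ)) (D.kap l '' ann (1 + 3 * τ)) :=
    (hgi.mono_set (kap_image_subset D hτ l)).ofReal
  have hint : IntegrableOn (fun z => ((‖g (D.kap l z) * deriv (D.kap l) z‖ ^ 2 : ℝ) : ℂ))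
      (ann (1 + 3 * τ)) := hcov.2.1 hgi2
  have hint' : IntegrableOn (fun z => ‖g (D.kap l z) * deriv (D.kap l) z‖ ^ 2)
      (ann (1 + 3 * τ)) := by
    have h5 := hint.re
    refine h5.congr (Eventually.of_forall fun z => ?_)
    exact Complex.ofReal_re _
  rw [AN_U]
  constructor
  · refine ⟨by rw [AN_U]; exact hdiff, ?_⟩
    rw [AN_U]
    exact (memLp_two_iff_integrable_sq_norm
      (hdiff.continuousOn.aestronglyMeasurable hopen.measurableSet)).2 hint'
  · have h1 : ∫ z in ann (1 + 3 * τ), ‖g (D.kap l z) * deriv (D.kap l) z‖ ^ 2 =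
        ∫ z in D.kap l '' ann (1 + 3 * τ), ‖g z‖ ^ 2 := by
      have h2 := hcov.1
      have e1 : ∫ z in D.kap l '' ann (1 + 3 * τ), ((‖g z‖ ^ 2 : ℝ) : ℂ) =
          ((∫ z in D.kap l '' ann (1 + 3 * τ), ‖g z‖ ^ 2 : ℝ) : ℂ) :=
        integral_ofReal (𝕜 := ℂ) (f := fun z => ‖g z‖ ^ 2)
      have e2 : ∫ z in ann (1 + 3 * τ),
          ((‖g (D.kap l z) * deriv (D.kap l) z‖ ^ 2 : ℝ) : ℂ) =
          ((∫ z in ann (1 + 3 * τ), ‖g (D.kap l z) * deriv (D.kap l) z‖ ^ 2 : ℝ) : ℂ) :=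
        integral_ofReal (𝕜 := ℂ) (f := fun z => ‖g (D.kap l z) * deriv (D.kap l) z‖ ^ 2)
      rw [e1, e2] at h2
      exact (Complex.ofReal_injective h2).symm
    rw [h1]
    exact setIntegral_mono_set hgi (Eventually.of_forall fun z => by positivity)
      (kap_image_subset D hτ l).eventuallyLE

/-- `∫ g ∂_z̄ σ` in the chart, for `σ` supported in the collar -/
theorem integral_dzb_collar (hτ : D.Good τ) (l : Option (Fin k)) {g σ : ℂ → ℂ}
    (hσ : ∀ z ∈ D.U, DifferentiableAt ℝ σ z)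
    (h0 : ∀ z ∈ D.U, z ∉ D.kap l '' ann (1 + 3 * τ) → dzb σ z = 0) :
    ∫ z in D.U, g z * dzb σ z =
      ∫ z in (AN τ hτ.pos).U, (g (D.kap l z) * deriv (D.kap l) z) *
        dzb (fun w => σ (D.kap l w)) z := by
  rw [integral_collar D hτ l (F := fun z => g z * dzb σ z)
    (fun z hz hz2 => by rw [h0 z hz hz2, mul_zero])]
  refine setIntegral_congr_fun (AN τ hτ.pos).U_open.measurableSet fun z hz => ?_
  rw [AN_U] at hz
  have h1 := (dz_comp_hol (F := σ) (kap_diff D hτ l hz)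
    (hσ _ (kap_image_subset D hτ l ⟨z, hz, rfl⟩))).2
  show _ = (g (D.kap l z) * deriv (D.kap l) z) * dzb (fun w => σ (D.kap l w)) z
  rw [h1]
  simp only [smul_eq_mul]
  have h2 : ((‖deriv (D.kap l) z‖ ^ 2 : ℝ) : ℂ) = deriv (D.kap l) z * conj (deriv (D.kap l) z) := by
    rw [Complex.mul_conj, Complex.normSq_eq_norm_sq]
  rw [h2]
  ring

end

end Pool.Agent.KA
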