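import Pool.Agent.Helper7.KE.A2b
import Pool.Agent.Helper9.KA.A6

set_option autoImplicit false

open MeasureTheory Set Filter Asymptotics Topology Metric
open scoped ComplexConjugate ENNReal

namespace Pool.Agent.KA

open Pool.Agent.Helper7.KE hiding HM PS Bv sfun FF tt lS
open Pool.Agent.EN (AJ ann ann2)

section
variable {Y : Type*} [NormedAddCommGroup Y] [NormedSpace ℂ Y]

/-- the sum of the collar integrals: reduction of the integral over the domain to the collars -/
theorem green_split {k : ℕ} (D : AJ k) {τ : ℝ} (hτ : D.Good τ) {G : ℂ → Y}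
    (hG : ContDiff ℝ 1 G) :
    (∫ z in D.U, dz G z = ∑ l, ∫ z in D.U, dz (fun w => ((D.chi τ l w : ℝ) : ℂ) • G w) z) ∧
    (∫ z in D.U, dzb G z = ∑ l, ∫ z in D.U, dzb (fun w => ((D.chi τ l w : ℝ) : ℂ) • G w) z) := by
  have hchi : ∀ l, ContDiff ℝ 1 (fun w => ((D.chi τ l w : ℝ) : ℂ)) := fun l =>
    Complex.ofRealCLM.contDiff.comp ((chi_smooth D hτ l).of_le (by simp))
  have hcG : ∀ l, ContDiff ℝ 1 (fun w => ((D.chi τ l w : ℝ) : ℂ) • G w) := fun l =>
    (hchi l).smul hG
  have hsum : ContDiff ℝ 1 (fun w => ∑ l, ((D.chi τ l w : ℝ) : ℂ) • G w) :=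
    ContDiff.sum fun l _ => hcG l
  set H : ℂ → Y := fun w => G w - ∑ l, ((D.chi τ l w : ℝ) : ℂ) • G w with hH
  have hHs : ContDiff ℝ 1 H := hG.sub hsum
  -- `H` vanishes near the curves
  have hH0 : ∀ l, ∀ z ∈ D.circ l, ∀ᶠ w in 𝓝 z, H w = 0 := by
    intro l z hz
    have h1 := chi_near D hτ.pos l hz
    have h2 : ∀ l', l' ≠ l → ∀ᶠ w in 𝓝 z, D.chi τ l' w = 0 := fun l' hl' =>
      chi_zero_near D hτ hl'.symm hz
    have h3 : ∀ᶠ w in 𝓝 z, ∀ l', l' ≠ l → D.chi τ l' w = 0 := by
      rw [eventually_all]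
      intro l'
      by_cases hl' : l' = l
      · exact Eventually.of_forall fun w h => absurd hl' h
      · filter_upwards [h2 l' hl'] with w hw _
        exact hw
    filter_upwards [h1, h3] with w hw1 hw2
    rw [hH]
    dsimp only
    rw [Finset.sum_eq_single l]
    · rw [hw1, Complex.ofReal_one, one_smul, sub_self]
    · intro l' _ hl'
      rw [hw2 l' hl', Complex.ofReal_zero, zero_smul]
    · intro h
      exact absurd (Finset.mem_univ l) h
  set H1 : ℂ → Y := D.U.indicator H with hH1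
  have hnear : ∀ z ∉ D.U, H1 =ᶠ[𝓝 z] fun _ => (0 : Y) := by
    intro z hz
    by_cases hzc : z ∈ D.cU
    · rcases (D.mem_cU_iff' z).1 hzc with h | ⟨l, h⟩
      · exact absurd h hz
      · filter_upwards [hH0 l z h] with w hw
        rw [hH1]
        by_cases hwU : w ∈ D.U
        · rw [indicator_of_mem hwU, hw]
        · rw [indicator_of_notMem hwU]
    · have : D.cUᶜ ∈ 𝓝 z := D.cU_compact.isClosed.isOpen_compl.mem_nhds hzc
      filter_upwards [this] with w hw
      rw [hH1, indicator_of_notMem]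
      exact fun h => hw (D.U_subset_cU h)
  have hin : ∀ z ∈ D.U, H1 =ᶠ[𝓝 z] H := by
    intro z hz
    filter_upwards [D.U_open.mem_nhds hz] with w hw
    rw [hH1, indicator_of_mem hw]
  have hH1s : ContDiff ℝ 1 H1 := by
    rw [contDiff_iff_contDiffAt]
    intro z
    by_cases hz : z ∈ D.U
    · exact hHs.contDiffAt.congr_of_eventuallyEq (hin z hz)
    · exact (contDiffAt_const (c := (0 : Y))).congr_of_eventuallyEq (hnear z hz)
  have hH1c : HasCompactSupport H1 := by
    refine HasCompactSupport.intro D.cU_compact fun z hz => ?_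
    rw [hH1, indicator_of_notMem]
    exact fun h => hz (D.U_subset_cU h)
  have hint := integral_dz_test hH1s hH1c
  have hintG : IntegrableOn (dz G) D.U ∧ IntegrableOn (dzb G) D.U := by
    obtain ⟨h1, h2⟩ := dz_continuous hG
    exact ⟨(h1.continuousOn.integrableOn_compact D.cU_compact).mono_set D.U_subset_cU,
      (h2.continuousOn.integrableOn_compact D.cU_compact).mono_set D.U_subset_cU⟩
  have hintc : ∀ l, IntegrableOn (dz (fun w => ((D.chi τ l w : ℝ) : ℂ) • G w)) D.U ∧
      IntegrableOn (dzb (fun w => ((D.chi τ l w : ℝ) : ℂ) • G w)) D.U := by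
    intro l
    obtain ⟨h1, h2⟩ := dz_continuous (hcG l)
    exact ⟨(h1.continuousOn.integrableOn_compact D.cU_compact).mono_set D.U_subset_cU,
      (h2.continuousOn.integrableOn_compact D.cU_compact).mono_set D.U_subset_cU⟩
  have hderiv : ∀ z ∈ D.U, dz H1 z = dz G z -
        ∑ l, dz (fun w => ((D.chi τ l w : ℝ) : ℂ) • G w) z ∧
      dzb H1 z = dzb G z - ∑ l, dzb (fun w => ((D.chi τ l w : ℝ) : ℂ) • G w) z := by
    intro z hz
    have h1 := dz_congr (hin z hz)
    have hs := dz_sum (Finset.univ : Finset (Option (Fin k)))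
      (F := fun l w => ((D.chi τ l w : ℝ) : ℂ) • G w) (z := z)
      (fun l _ => ((hcG l).differentiable one_ne_zero).differentiableAt)
    have hn := dz_neg (F := fun w => ∑ l, ((D.chi τ l w : ℝ) : ℂ) • G w) (z := z)
    have ha := dz_add (F := G) (G := fun w => -∑ l, ((D.chi τ l w : ℝ) : ℂ) • G w) (z := z)
      (hG.differentiable one_ne_zero).differentiableAt
      (hsum.differentiable one_ne_zero).neg.differentiableAt
    rw [hn.1, hn.2, hs.1, hs.2] at ha
    have hHe : H = fun w => G w + -∑ l, ((D.chi τ l w : ℝ) : ℂ) • G w := by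
      funext w
      rw [hH]
      exact sub_eq_add_neg _ _
    rw [h1.1, h1.2, hHe, ha.1, ha.2]
    exact ⟨(sub_eq_add_neg _ _).symm, (sub_eq_add_neg _ _).symm⟩
  constructor
  · have e1 : ∫ z in D.U, dz H1 z = 0 := by
      rw [← hint.1]
      refine setIntegral_eq_integral_of_forall_compl_eq_zero fun z hz => ?_
      rw [(dz_congr (hnear z hz)).1, dz_const.1]
    have e2 : ∫ z in D.U, dz H1 z = ∫ z in D.U, (dz G z -
        ∑ l, dz (fun w => ((D.chi τ l w : ℝ) : ℂ) • G w) z) :=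
      setIntegral_congr_fun D.U_open.measurableSet fun z hz => (hderiv z hz).1
    rw [e1, integral_sub hintG.1 (integrable_finsetSum _ fun l _ => (hintc l).1),
      integral_finsetSum _ fun l _ => (hintc l).1] at e2
    exact (sub_eq_zero.1 e2.symm)
  · have e1 : ∫ z in D.U, dzb H1 z = 0 := by
      rw [← hint.2]
      refine setIntegral_eq_integral_of_forall_compl_eq_zero fun z hz => ?_
      rw [(dz_congr (hnear z hz)).2, dz_const.2]
    have e2 : ∫ z in D.U, dzb H1 z = ∫ z in D.U, (dzb G z -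
        ∑ l, dzb (fun w => ((D.chi τ l w : ℝ) : ℂ) • G w) z) :=
      setIntegral_congr_fun D.U_open.measurableSet fun z hz => (hderiv z hz).2
    rw [e1, integral_sub hintG.2 (integrable_finsetSum _ fun l _ => (hintc l).2),
      integral_finsetSum _ fun l _ => (hintc l).2] at e2
    exact (sub_eq_zero.1 e2.symm)

/-- the collar integrals: Green's formula in the annulus -/
theorem green_collar {k : ℕ} (D : AJ k) {τ : ℝ} (hτ : D.Good τ) {G : ℂ → Y}
    (hG : ContDiff ℝ 1 G) (l : Option (Fin k)) :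
    (∫ z in D.U, dz (fun w => ((D.chi τ l w : ℝ) : ℂ) • G w) z =
      -((1 / 2 : ℂ) • ∫ θ in (0 : ℝ)..2 * Real.pi,
        (Complex.exp (-(θ * Complex.I)) *
          conj (deriv (D.kap l) (Complex.exp (θ * Complex.I)))) •
            G (D.kap l (Complex.exp (θ * Complex.I))))) ∧
    (∫ z in D.U, dzb (fun w => ((D.chi τ l w : ℝ) : ℂ) • G w) z =
      -((1 / 2 : ℂ) • ∫ θ in (0 : ℝ)..2 * Real.pi,
        (Complex.exp (θ * Complex.I) * deriv (D.kap l) (Complex.exp (θ * Complex.I))) •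
            G (D.kap l (Complex.exp (θ * Complex.I))))) := by
  have hτ0 := hτ.pos
  have hchi : ContDiff ℝ 1 (fun w => ((D.chi τ l w : ℝ) : ℂ)) :=
    Complex.ofRealCLM.contDiff.comp ((chi_smooth D hτ l).of_le (by simp))
  set Q : ℂ → Y := fun w => ((D.chi τ l w : ℝ) : ℂ) • G w with hQ
  have hQs : ContDiff ℝ 1 Q := hchi.smul hG
  have hop : IsOpen (ann2 D.ρ) := EN.isOpen_ann2' _
  have hdk : DifferentiableOn ℂ (deriv (D.kap l)) (ann2 D.ρ) := (D.holo l).deriv hop
  have hkap : ContDiffOn ℝ 1 (D.kap l) (ann2 D.ρ) :=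
    (hol_contDiffOn hop (D.holo l)).of_le (by simp)
  have hkap' : ContDiffOn ℝ 1 (deriv (D.kap l)) (ann2 D.ρ) :=
    (hol_contDiffOn hop hdk).of_le (by simp)
  have hkap'' : ContDiffOn ℝ 1 (fun w => conj (deriv (D.kap l) w)) (ann2 D.ρ) :=
    Complex.conjCLE.contDiff.comp_contDiffOn hkap'
  have hPs : ContDiffOn ℝ 1 (fun w => Q (D.kap l w)) (ann2 D.ρ) := hQs.comp_contDiffOn hkap
  -- the two integrands in the chart
  have hzero : ∀ z ∈ D.U, z ∉ D.kap l '' ann (1 + 3 * τ) → z ∉ tsupport Q := by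
    intro z hz hz2 hzs
    have h1 : z ∈ tsupport (D.chi τ l) := by
      have h2 : tsupport Q ⊆ tsupport (fun w => ((D.chi τ l w : ℝ) : ℂ)) :=
        tsupport_smul_subset_left _ _
      have h3 : tsupport (fun w => ((D.chi τ l w : ℝ) : ℂ)) ⊆ tsupport (D.chi τ l) := by
        refine closure_mono fun w hw => ?_
        rw [Function.mem_support] at hw ⊢
        exact fun h => hw (by rw [h, Complex.ofReal_zero])
      exact h3 (h2 hzs)
    obtain ⟨w, hw, rfl⟩ := (chi_tsupport D hτ l).2.1 h1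
    have hw1 : 1 - 2 * τ / 3 ≤ ‖w‖ := hw.1
    have hw2 : ‖w‖ ≤ 1 + 2 * τ / 3 := hw.2
    have hrho := hτ.lt_rho
    have hhalf := hτ.lt_half
    have hwρ : w ∈ ann2 D.ρ := by
      refine ⟨?_, by linarith⟩
      have h5 : D.ρ⁻¹ < (1 + 3 * τ)⁻¹ := inv_strictAnti₀ (by linarith) hrho
      have h6 : (1 + 3 * τ)⁻¹ ≤ 1 - 2 * τ / 3 := by
        rw [inv_le_comm₀ (by linarith) (by linarith)]
        rw [inv_le_comm₀ (by linarith) (by linarith)]
        rw [inv_le_iff_one_le_mul₀ (by linarith)]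
        nlinarith
      linarith
    have hw3 := (D.mem_iff l w hwρ).1 hz
    exact hz2 ⟨w, ⟨hw3, by linarith⟩, rfl⟩
  have hU2 : (AN τ hτ0).U ⊆ ann2 D.ρ := (AN τ hτ0).U_subset_cU.trans (AN_cU D hτ)
  have hnorm : ∀ c : ℂ, ((‖c‖ ^ 2 : ℝ) : ℂ) = conj c * c := by
    intro c
    rw [← Complex.normSq_eq_norm_sq, Complex.normSq_eq_conj_mul_self]
  have houter : ∀ θ : ℝ, Q (D.kap l (((AN τ hτ0).R : ℂ) * Complex.exp (θ * Complex.I))) = 0 := by
    intro θ
    have hn : ‖((AN τ hτ0).R : ℂ) * Complex.exp (θ * Complex.I)‖ = 1 + 3 * τ := by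
      rw [norm_mul, Complex.norm_exp_ofReal_mul_I, mul_one, Complex.norm_real, Real.norm_eq_abs,
        abs_of_pos (AN τ hτ0).Rpos]
      rfl
    have hmem : ((AN τ hτ0).R : ℂ) * Complex.exp (θ * Complex.I) ∈ ann2 D.ρ := by
      refine ⟨?_, ?_⟩
      · rw [hn]
        have := inv_lt_one_of_one_lt₀ D.one_lt
        linarith
      · rw [hn]
        exact hτ.lt_rho
    rw [hQ]
    dsimp only
    rw [chi_kap D l hmem, hn, prof_eq hτ0 (by linarith)]
    have h7 : 2 - 3 * (1 + 3 * τ - 1) / τ = -7 := by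
      field_simp
      ring
    rw [h7, Real.smoothTransition.zero_of_nonpos (by norm_num), Complex.ofReal_zero, zero_smul]
  have hinner : ∀ θ : ℝ, Q (D.kap l (Complex.exp (θ * Complex.I))) =
      G (D.kap l (Complex.exp (θ * Complex.I))) := by
    intro θ
    have hn : ‖Complex.exp (θ * Complex.I)‖ = 1 := Complex.norm_exp_ofReal_mul_I θ
    have hmem : Complex.exp (θ * Complex.I) ∈ ann2 D.ρ := by
      refine ⟨?_, ?_⟩
      · rw [hn]
        exact inv_lt_one_of_one_lt₀ D.one_lt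
      · rw [hn]
        exact D.one_lt
    rw [hQ]
    dsimp only
    rw [chi_one D hτ l hmem (by rw [hn]; linarith) (by rw [hn]; linarith), Complex.ofReal_one,
      one_smul]
  have hAN : ∀ θ : ℝ, (((AN τ hτ0).a 0 : ℂ) + ((AN τ hτ0).r 0 : ℂ) *
      Complex.exp (θ * Complex.I)) = Complex.exp (θ * Complex.I) := by
    intro θ
    simp [AN]
  constructor
  · have e1 := integral_collar D hτ l (F := dz Q) (fun z hz hz2 =>
      (dz_of_notMem (hzero z hz hz2)).1)
    have e2 : ∫ z in (AN τ hτ0).U, ((‖deriv (D.kap l) z‖ ^ 2 : ℝ) : ℂ) • dz Q (D.kap l z) =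
        ∫ z in (AN τ hτ0).U, dz (fun w => conj (deriv (D.kap l) w) • Q (D.kap l w)) z := by
      refine setIntegral_congr_fun (AN τ hτ0).U_open.measurableSet fun z hz => ?_
      have hz2 := hU2 hz
      have hd1 : DifferentiableAt ℂ (D.kap l) z := (D.holo l).differentiableAt (hop.mem_nhds hz2)
      have hd2 : DifferentiableAt ℂ (deriv (D.kap l)) z := hdk.differentiableAt (hop.mem_nhds hz2)
      have hd3 : DifferentiableAt ℝ (fun w => conj (deriv (D.kap l) w)) z :=
        (hkap''.contDiffAt (hop.mem_nhds hz2)).differentiableAt one_ne_zero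
      have hd4 : DifferentiableAt ℝ (fun w => Q (D.kap l w)) z :=
        (hPs.contDiffAt (hop.mem_nhds hz2)).differentiableAt one_ne_zero
      rw [(dz_smul hd3 hd4).1, (dz_conj_hol hd2).1, zero_smul, zero_add,
        (dz_comp_hol hd1 (hQs.differentiable one_ne_zero).differentiableAt).1, smul_smul, hnorm]
    have hS : ContDiffOn ℝ 1 (fun w => conj (deriv (D.kap l) w) • Q (D.kap l w)) (ann2 D.ρ) :=
      hkap''.smul hPs
    have e3 := (green_CD (AN τ hτ0) hop (AN_cU D hτ) hS).1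
    rw [e1, e2, e3, Fin.sum_univ_one]
    have e4 : (∫ θ in (0 : ℝ)..2 * Real.pi, Complex.exp (-(θ * Complex.I)) •
        (conj (deriv (D.kap l) (((AN τ hτ0).R : ℂ) * Complex.exp (θ * Complex.I))) •
          Q (D.kap l (((AN τ hτ0).R : ℂ) * Complex.exp (θ * Complex.I))))) = 0 := by
      simp only [houter, smul_zero, intervalIntegral.integral_zero]
    rw [e4, smul_zero, zero_sub]
    congr 1
    simp only [hAN, hinner, smul_smul]
    rw [show (((AN τ hτ0).r 0 : ℝ) : ℂ) = 1 from by simp [AN]]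
  · have e1 := integral_collar D hτ l (F := dzb Q) (fun z hz hz2 =>
      (dz_of_notMem (hzero z hz hz2)).2)
    have e2 : ∫ z in (AN τ hτ0).U, ((‖deriv (D.kap l) z‖ ^ 2 : ℝ) : ℂ) • dzb Q (D.kap l z) =
        ∫ z in (AN τ hτ0).U, dzb (fun w => deriv (D.kap l) w • Q (D.kap l w)) z := by
      refine setIntegral_congr_fun (AN τ hτ0).U_open.measurableSet fun z hz => ?_
      have hz2 := hU2 hz
      have hd1 : DifferentiableAt ℂ (D.kap l) z := (D.holo l).differentiableAt (hop.mem_nhds hz2)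
      have hd2 : DifferentiableAt ℂ (deriv (D.kap l)) z := hdk.differentiableAt (hop.mem_nhds hz2)
      have hd3 : DifferentiableAt ℝ (deriv (D.kap l)) z := hd2.restrictScalars ℝ
      have hd4 : DifferentiableAt ℝ (fun w => Q (D.kap l w)) z :=
        (hPs.contDiffAt (hop.mem_nhds hz2)).differentiableAt one_ne_zero
      rw [(dz_smul hd3 hd4).2, (dz_hol hd2).2, zero_smul, zero_add,
        (dz_comp_hol hd1 (hQs.differentiable one_ne_zero).differentiableAt).2, smul_smul, hnorm,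
        mul_comm]
    have hS : ContDiffOn ℝ 1 (fun w => deriv (D.kap l) w • Q (D.kap l w)) (ann2 D.ρ) :=
      hkap'.smul hPs
    have e3 := (green_CD (AN τ hτ0) hop (AN_cU D hτ) hS).2
    rw [e1, e2, e3, Fin.sum_univ_one]
    have e4 : (∫ θ in (0 : ℝ)..2 * Real.pi, Complex.exp (θ * Complex.I) •
        (deriv (D.kap l) (((AN τ hτ0).R : ℂ) * Complex.exp (θ * Complex.I)) •
          Q (D.kap l (((AN τ hτ0).R : ℂ) * Complex.exp (θ * Complex.I))))) = 0 := by
      simp only [houter, smul_zero, intervalIntegral.integral_zero]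
    rw [e4, smul_zero, zero_sub]
    congr 1
    simp only [hAN, hinner, smul_smul]
    rw [show (((AN τ hτ0).r 0 : ℝ) : ℂ) = 1 from by simp [AN]]

variable [CompleteSpace Y]

/-- Green's formula: the boundary terms in the charts -/
theorem green_AJ {k : ℕ} (D : AJ k) {F : ℂ → Y} {V : Set ℂ} (hV : IsOpen V) (hcV : D.cU ⊆ V)
    (hF : ContDiffOn ℝ 1 F V) :
    (∫ z in D.U, dz F z = -∑ l, (1 / 2 : ℂ) • ∫ θ in (0 : ℝ)..2 * Real.pi,
        (Complex.exp (-(θ * Complex.I)) *
          conj (deriv (D.kap l) (Complex.exp (θ * Complex.I)))) •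
            F (D.kap l (Complex.exp (θ * Complex.I)))) ∧
    (∫ z in D.U, dzb F z = -∑ l, (1 / 2 : ℂ) • ∫ θ in (0 : ℝ)..2 * Real.pi,
        (Complex.exp (θ * Complex.I) * deriv (D.kap l) (Complex.exp (θ * Complex.I))) •
            F (D.kap l (Complex.exp (θ * Complex.I)))) := by
  obtain ⟨τ, hτ⟩ := exists_good D
  obtain ⟨G, hG, hGF⟩ := exists_ext D.cU_compact.isClosed hV hcV (n := 1) hF
  have hG1 : ContDiff ℝ 1 G := hG
  have hval : ∀ (l : Option (Fin k)) (θ : ℝ), G (D.kap l (Complex.exp (θ * Complex.I))) =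
      F (D.kap l (Complex.exp (θ * Complex.I))) := by
    intro l θ
    refine (hGF _ ?_).self_of_nhds
    rw [D.mem_cU_iff']
    refine Or.inr ⟨l, _, ?_, rfl⟩
    simp [Complex.norm_exp_ofReal_mul_I]
  have h1 : ∫ z in D.U, dz F z = ∫ z in D.U, dz G z :=
    setIntegral_congr_fun D.U_open.measurableSet fun z hz =>
      ((dz_congr (hGF z (D.U_subset_cU hz))).1).symm
  have h2 : ∫ z in D.U, dzb F z = ∫ z in D.U, dzb G z :=
    setIntegral_congr_fun D.U_open.measurableSet fun z hz =>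
      ((dz_congr (hGF z (D.U_subset_cU hz))).2).symm
  obtain ⟨s1, s2⟩ := green_split D hτ hG1
  rw [h1, h2, s1, s2, ← Finset.sum_neg_distrib, ← Finset.sum_neg_distrib]
  constructor
  · refine Finset.sum_congr rfl fun l _ => ?_
    rw [(green_collar D hτ hG1 l).1]
    simp only [hval]
  · refine Finset.sum_congr rfl fun l _ => ?_
    rw [(green_collar D hτ hG1 l).2]
    simp only [hval]

theorem green_zero {k : ℕ} (D : AJ k) {F : ℂ → Y} {V : Set ℂ} (hV : IsOpen V) (hcV : D.cU ⊆ V)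
    (hF : ContDiffOn ℝ 1 F V) (h0 : ∀ l, ∀ z ∈ D.circ l, F z = 0) :
    ∫ z in D.U, dz F z = 0 ∧ ∫ z in D.U, dzb F z = 0 := by
  have hk : ∀ (l : Option (Fin k)) (θ : ℝ), F (D.kap l (Complex.exp (θ * Complex.I))) = 0 := by
    intro l θ
    refine h0 l _ ⟨_, ?_, rfl⟩
    simp [Complex.norm_exp_ofReal_mul_I]
  obtain ⟨h1, h2⟩ := green_AJ D hV hcV hF
  rw [h1, h2]
  simp [hk]

end

end Pool.Agent.KA
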