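import Pool.Agent.Helper9.KA.A50

/-!
# The cutoff functions
-/

set_option autoImplicit false

open MeasureTheory Set Filter Asymptotics Topology Metric
open scoped ComplexConjugate ENNReal

namespace Pool.Agent.KA

open Pool.Agent.Helper7.KE hiding HM PS Bv sfun FF tt lS
open Pool.Agent.EN (AJ ann ann2)

section
variable {k : ℕ} (D : AJ k) {τ : ℝ}

/-- values in the chart -/
theorem chi_kap (l : Option (Fin k)) {z : ℂ} (hz : z ∈ ann2 D.ρ) :
    D.chi τ l (D.kap l z) = AJ.prof τ ‖z‖ := by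
  rw [AJ.chi, if_pos ⟨z, hz, rfl⟩, D.lam_kap hz]

theorem prof_eq {s : ℝ} (hτ : 0 < τ) (hs : 1 ≤ s) :
    AJ.prof τ s = Real.smoothTransition (2 - 3 * (s - 1) / τ) := by
  have h : 0 ≤ 3 * (s - 1) / τ := div_nonneg (by linarith) hτ.le
  rw [AJ.prof, Real.smoothTransition.one_of_one_le (x := 2 + 3 * (s - 1) / τ) (by linarith),
    mul_one]

theorem prof_one {s : ℝ} (hτ : 0 < τ) (h1 : 1 - τ / 3 ≤ s) (h2 : s ≤ 1 + τ / 3) :
    AJ.prof τ s = 1 := by
  have a1 : 3 * (s - 1) / τ ≤ 1 := by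
    rw [div_le_one hτ]; linarith
  have a2 : -1 ≤ 3 * (s - 1) / τ := by
    rw [le_div_iff₀ hτ]; linarith
  rw [AJ.prof, Real.smoothTransition.one_of_one_le (by linarith),
    Real.smoothTransition.one_of_one_le (by linarith), mul_one]

theorem prof_zero {s : ℝ} (hτ : 0 < τ) (h : s < 1 - 2 * τ / 3 ∨ 1 + 2 * τ / 3 < s) :
    AJ.prof τ s = 0 := by
  rw [AJ.prof]
  rcases h with h | h
  · have a1 : 3 * (s - 1) / τ ≤ -2 := by
      rw [div_le_iff₀ hτ]; linarith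
    rw [Real.smoothTransition.zero_of_nonpos (x := 2 + 3 * (s - 1) / τ) (by linarith), mul_zero]
  · have a1 : 2 ≤ 3 * (s - 1) / τ := by
      rw [le_div_iff₀ hτ]; linarith
    rw [Real.smoothTransition.zero_of_nonpos (x := 2 - 3 * (s - 1) / τ) (by linarith), zero_mul]

theorem prof_mem (s : ℝ) : 0 ≤ AJ.prof τ s ∧ AJ.prof τ s ≤ 1 := by
  rw [AJ.prof]
  exact ⟨mul_nonneg (Real.smoothTransition.nonneg _) (Real.smoothTransition.nonneg _),
    mul_le_one₀ (Real.smoothTransition.le_one _) (Real.smoothTransition.nonneg _)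
      (Real.smoothTransition.le_one _)⟩

theorem prof_smooth : ContDiff ℝ (⊤ : ℕ∞) (AJ.prof τ) := by
  unfold AJ.prof
  refine ContDiff.mul ?_ ?_
  · exact Real.smoothTransition.contDiff.comp (by fun_prop)
  · exact Real.smoothTransition.contDiff.comp (by fun_prop)

/-- the closed annulus carrying the cutoff functions -/
theorem isCompact_shell (τ : ℝ) :
    IsCompact {z : ℂ | 1 - 2 * τ / 3 ≤ ‖z‖ ∧ ‖z‖ ≤ 1 + 2 * τ / 3} := by
  refine (isCompact_closedBall (0 : ℂ) (1 + 2 * τ / 3)).of_isClosed_subset ?_ ?_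
  · exact (isClosed_le continuous_const continuous_norm).inter
      (isClosed_le continuous_norm continuous_const)
  · intro z hz
    simpa using hz.2

theorem shell_subset_one (hτ : D.Good τ) :
    {z : ℂ | 1 - 2 * τ / 3 ≤ ‖z‖ ∧ ‖z‖ ≤ 1 + 2 * τ / 3} ⊆ ann2 (min (1 + τ) D.ρ) := by
  have h0 := hτ.pos
  have h1 := hτ.lt_half
  have h2 := hτ.lt_rho
  rw [min_eq_left (by linarith)]
  intro z hz
  refine ⟨lt_of_lt_of_le ?_ hz.1, lt_of_le_of_lt hz.2 (by linarith)⟩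
  rw [inv_lt_iff_one_lt_mul₀ (by linarith)]
  nlinarith

theorem shell_subset (hτ : D.Good τ) :
    {z : ℂ | 1 - 2 * τ / 3 ≤ ‖z‖ ∧ ‖z‖ ≤ 1 + 2 * τ / 3} ⊆ ann2 D.ρ :=
  (shell_subset_one D hτ).trans (Pool.Agent.EN.ann2_mono (min_le_right _ _))

theorem shell_image_closed (hτ : D.Good τ) (l : Option (Fin k)) :
    IsCompact (D.kap l '' {z | 1 - 2 * τ / 3 ≤ ‖z‖ ∧ ‖z‖ ≤ 1 + 2 * τ / 3}) :=
  (isCompact_shell τ).image_of_continuousOn
    ((D.holo l).continuousOn.mono (shell_subset D hτ))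

theorem chi_zero_off (hτ : 0 < τ) (l : Option (Fin k)) {w : ℂ}
    (hw : w ∉ D.kap l '' {z | 1 - 2 * τ / 3 ≤ ‖z‖ ∧ ‖z‖ ≤ 1 + 2 * τ / 3}) :
    D.chi τ l w = 0 := by
  by_cases h : w ∈ D.kap l '' ann2 D.ρ
  · obtain ⟨u, hu, rfl⟩ := h
    rw [chi_kap D l hu]
    refine prof_zero hτ ?_
    by_contra hcon
    rw [not_or, not_lt, not_lt] at hcon
    exact hw ⟨u, hcon, rfl⟩
  · rw [AJ.chi, if_neg h]

theorem chi_smooth (hτ : D.Good τ) (l : Option (Fin k)) :
    ContDiff ℝ (⊤ : ℕ∞) (D.chi τ l) := by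
  rw [contDiff_iff_contDiffAt]
  intro z
  by_cases h : z ∈ D.kap l '' ann2 D.ρ
  · have hopen : IsOpen (D.kap l '' ann2 D.ρ) := D.isOpen_kap (Pool.Agent.EN.isOpen_ann2' _) le_rfl
    have h1 : D.chi τ l =ᶠ[𝓝 z] fun w => AJ.prof τ ‖D.lam l w‖ := by
      filter_upwards [hopen.mem_nhds h] with w hw
      rw [AJ.chi, if_pos hw]
    refine ContDiffAt.congr_of_eventuallyEq ?_ h1
    have h2 : ContDiffAt ℝ (⊤ : ℕ∞) (D.lam l) z :=
      (((lam_holo D l).contDiffOn hopen).contDiffAt (hopen.mem_nhds h)).restrict_scalars ℝ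
    have h3 : D.lam l z ≠ 0 := by
      obtain ⟨u, hu, rfl⟩ := h
      rw [D.lam_kap hu]
      intro h0
      have h4 := hu.1
      rw [h0, norm_zero] at h4
      exact absurd h4 (not_lt.2 (inv_nonneg.2 (zero_le_one.trans D.one_lt.le)))
    exact prof_smooth.contDiffAt.comp z (h2.norm ℝ h3)
  · have h1 : D.chi τ l =ᶠ[𝓝 z] fun _ => 0 := by
      have hK := (shell_image_closed D hτ l).isClosed
      have hz : z ∉ D.kap l '' {z | 1 - 2 * τ / 3 ≤ ‖z‖ ∧ ‖z‖ ≤ 1 + 2 * τ / 3} := fun hz =>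
        h (image_mono (shell_subset D hτ) hz)
      filter_upwards [hK.isOpen_compl.mem_nhds hz] with w hw
      exact chi_zero_off D hτ.pos l hw
    exact contDiffAt_const.congr_of_eventuallyEq h1

theorem chi_mem (l : Option (Fin k)) (z : ℂ) : 0 ≤ D.chi τ l z ∧ D.chi τ l z ≤ 1 := by
  rw [AJ.chi]
  split_ifs
  · exact prof_mem _
  · exact ⟨le_rfl, zero_le_one⟩

/-- `χ_l = 1` near the curve `l` -/
theorem chi_near (hτ : 0 < τ) (l : Option (Fin k)) {z : ℂ} (hz : z ∈ D.circ l) :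
    ∀ᶠ w in 𝓝 z, D.chi τ l w = 1 := by
  obtain ⟨u, hu, rfl⟩ := hz
  have hu1 : ‖u‖ = 1 := by simpa using hu
  have hu2 : u ∈ ann2 D.ρ := Pool.Agent.EN.sphere_subset_ann2 D.one_lt hu
  have hV : IsOpen (ann2 D.ρ ∩ {z : ℂ | 1 - τ / 3 < ‖z‖ ∧ ‖z‖ < 1 + τ / 3}) :=
    (Pool.Agent.EN.isOpen_ann2' _).inter
      ((isOpen_lt continuous_const continuous_norm).inter
        (isOpen_lt continuous_norm continuous_const))
  have hopen := D.isOpen_kap (l := l) hV inter_subset_left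
  have hmem : D.kap l u ∈ D.kap l '' (ann2 D.ρ ∩ {z : ℂ | 1 - τ / 3 < ‖z‖ ∧ ‖z‖ < 1 + τ / 3}) := by
    refine ⟨u, ⟨hu2, ?_, ?_⟩, rfl⟩
    · rw [hu1]; linarith
    · rw [hu1]; linarith
  filter_upwards [hopen.mem_nhds hmem] with w hw
  obtain ⟨v, hv, rfl⟩ := hw
  rw [chi_kap D l hv.1]
  exact prof_one hτ hv.2.1.le hv.2.2.le

/-- `χ_l = 1` in the collar of width `τ/3` -/
theorem chi_one (hτ : D.Good τ) (l : Option (Fin k)) {z : ℂ} (hz : z ∈ ann2 D.ρ)
    (h1 : 1 - τ / 3 ≤ ‖z‖) (h2 : ‖z‖ ≤ 1 + τ / 3) : D.chi τ l (D.kap l z) = 1 := by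
  rw [chi_kap D l hz]
  exact prof_one hτ.pos h1 h2

/-- supports -/
theorem chi_tsupport (hτ : D.Good τ) (l : Option (Fin k)) :
    HasCompactSupport (D.chi τ l) ∧
      tsupport (D.chi τ l) ⊆ D.kap l '' {z | 1 - 2 * τ / 3 ≤ ‖z‖ ∧ ‖z‖ ≤ 1 + 2 * τ / 3} ∧
      tsupport (D.chi τ l) ⊆ D.col τ l := by
  have hK := shell_image_closed D hτ l
  have h1 : Function.support (D.chi τ l) ⊆
      D.kap l '' {z | 1 - 2 * τ / 3 ≤ ‖z‖ ∧ ‖z‖ ≤ 1 + 2 * τ / 3} := by
    intro w hw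
    by_contra hcon
    exact hw (chi_zero_off D hτ.pos l hcon)
  have h2 : tsupport (D.chi τ l) ⊆
      D.kap l '' {z | 1 - 2 * τ / 3 ≤ ‖z‖ ∧ ‖z‖ ≤ 1 + 2 * τ / 3} :=
    closure_minimal h1 hK.isClosed
  exact ⟨HasCompactSupport.of_support_subset_isCompact hK h1, h2,
    h2.trans (image_mono (shell_subset_one D hτ))⟩

theorem chi_disj (hτ : D.Good τ) {l l' : Option (Fin k)} (h : l ≠ l') :
    Disjoint (tsupport (D.chi τ l)) (tsupport (D.chi τ l')) :=
  (col_disj D h).mono (chi_tsupport D hτ l).2.2 (chi_tsupport D hτ l').2.2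

theorem circ_subset_tsupport (hτ : 0 < τ) (l : Option (Fin k)) :
    D.circ l ⊆ tsupport (D.chi τ l) := by
  intro z hz
  refine subset_tsupport _ ?_
  have h := (chi_near D hτ l hz).self_of_nhds
  rw [Function.mem_support, h]
  exact one_ne_zero

/-- the other cutoff functions vanish near the curve `l` -/
theorem chi_zero_near (hτ : D.Good τ) {l l' : Option (Fin k)} (h : l ≠ l') {z : ℂ}
    (hz : z ∈ D.circ l) : ∀ᶠ w in 𝓝 z, D.chi τ l' w = 0 := by
  have h1 : z ∉ tsupport (D.chi τ l') :=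
    disjoint_left.1 (chi_disj D hτ h) (circ_subset_tsupport D hτ.pos l hz)
  exact notMem_tsupport_iff_eventuallyEq.1 h1

/-- `X_t` near the curves -/
theorem X_circ (hτ : D.Good τ) (t : Fin k → ℂ) :
    (∀ z ∈ D.circ none, ∀ᶠ w in 𝓝 z, D.X τ t w = 1) ∧
      ∀ j, ∀ z ∈ D.circ (some j), ∀ᶠ w in 𝓝 z, D.X τ t w = t j := by
  constructor
  · intro z hz
    have h : ∀ᶠ w in 𝓝 z, ∀ j, D.chi τ (some j) w = 0 :=
      eventually_all.2 fun j => chi_zero_near D hτ (by simp) hz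
    filter_upwards [h] with w hw
    rw [AJ.X, Finset.sum_eq_zero, add_zero]
    intro j _
    rw [hw j, Complex.ofReal_zero, mul_zero]
  · intro j z hz
    have h : ∀ᶠ w in 𝓝 z, ∀ i, i ≠ j → D.chi τ (some i) w = 0 :=
      eventually_all.2 fun i => by
        by_cases hij : i = j
        · exact Eventually.of_forall fun w h => absurd hij h
        · filter_upwards [chi_zero_near D hτ (l := some j) (l' := some i)
            (fun h => hij (Option.some.inj h).symm) hz] with w hw _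
          exact hw
    filter_upwards [h, chi_near D hτ.pos (some j) hz] with w hw hw1
    rw [AJ.X, Finset.sum_eq_single j, hw1]
    · push_cast; ring
    · intro i _ hij
      rw [hw i hij, Complex.ofReal_zero, mul_zero]
    · intro hj; exact absurd (Finset.mem_univ j) hj

end

end Pool.Agent.KA
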