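import Pool.Agent.Helper7.KE.A3
import Pool.Agent.Helper9.KA.A5a
import Pool.Agent.Helper9.KA.A6

set_option autoImplicit false

open MeasureTheory Set Filter Asymptotics Topology Metric
open scoped ComplexConjugate ENNReal

namespace Pool.Agent.KA

open Pool.Agent.Helper7.KE hiding HM PS Bv sfun FF tt lS
open Pool.Agent.EN (AJ ann ann2)

namespace OZA

variable {k : ℕ} (D : AJ k)

/-- functions which vanish near the curves -/
theorem orth_vanish {σ : ℂ → ℂ} {V : Set ℂ} (hV : IsOpen V) (hcV : D.cU ⊆ V)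
    (hσ : ContDiffOn ℝ 1 σ V) (h0 : ∀ l, ∀ z ∈ D.circ l, ∀ᶠ w in 𝓝 z, σ w = 0) {g : ℂ → ℂ}
    (hg : D.Hol2 g) : ∫ z in D.U, g z * dzb σ z = 0 := by
  set F : ℂ → ℂ := D.U.indicator (fun w => g w * σ w) with hF
  have hzero : ∀ z, z ∉ D.U → F =ᶠ[𝓝 z] fun _ => 0 := by
    intro z hz
    by_cases hzc : z ∈ D.cU
    · rcases (D.mem_cU_iff' z).1 hzc with h | ⟨l, h⟩
      · exact absurd h hz
      · filter_upwards [h0 l z h] with w hw
        by_cases hwU : w ∈ D.U
        · rw [hF, indicator_of_mem hwU, hw, mul_zero]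
        · rw [hF, indicator_of_notMem hwU]
    · filter_upwards [D.cU_compact.isClosed.isOpen_compl.mem_nhds hzc] with w hw
      rw [hF, indicator_of_notMem fun h => hw (D.U_subset_cU h)]
  have hin : ∀ z ∈ D.U, F =ᶠ[𝓝 z] fun w => g w * σ w := by
    intro z hz
    filter_upwards [D.U_open.mem_nhds hz] with w hw
    rw [hF, indicator_of_mem hw]
  have hσat : ∀ z ∈ D.U, ContDiffAt ℝ 1 σ z := fun z hz =>
    hσ.contDiffAt (hV.mem_nhds (hcV (D.U_subset_cU hz)))
  have hgat : ∀ z ∈ D.U, ContDiffAt ℝ 1 g z := fun z hz =>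
    ((hol_contDiffOn D.U_open hg.diff).contDiffAt (D.U_open.mem_nhds hz)).of_le
      (by norm_cast)
  have hFc : ContDiff ℝ 1 F := by
    rw [contDiff_iff_contDiffAt]
    intro z
    by_cases hz : z ∈ D.U
    · exact ((hgat z hz).mul (hσat z hz)).congr_of_eventuallyEq (hin z hz)
    · exact contDiffAt_const.congr_of_eventuallyEq (hzero z hz)
  have hFs : HasCompactSupport F := by
    refine HasCompactSupport.intro D.cU_compact fun z hz => ?_
    exact (hzero z fun h => hz (D.U_subset_cU h)).self_of_nhds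
  have h0 := (integral_dz_test hFc hFs).2
  rw [← h0, ← integral_indicator D.U_open.measurableSet]
  congr 1
  funext z
  by_cases hz : z ∈ D.U
  · rw [indicator_of_mem hz, (dz_congr (hin z hz)).2]
    have h1 : DifferentiableAt ℂ g z := hg.diff.differentiableAt (D.U_open.mem_nhds hz)
    have h2 := (dz_smul (Y := ℂ) (f := g) (F := σ) (z := z)
      (h1.restrictScalars ℝ) ((hσat z hz).differentiableAt (by simp))).2
    simp only [smul_eq_mul] at h2
    rw [h2, (dz_hol h1).2, zero_mul, zero_add]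
  · rw [indicator_of_notMem hz, (dz_congr (hzero z hz)).2, dz_const.2]

/-- integrability -/
theorem integrable_dzb {σ : ℂ → ℂ} {V : Set ℂ} (hV : IsOpen V) (hcV : D.cU ⊆ V)
    (hσ : ContDiffOn ℝ 1 σ V) {g : ℂ → ℂ} (hg : D.Hol2 g) :
    IntegrableOn (fun z => g z * dzb σ z) D.U := by
  have h1 : ContinuousOn (dzb σ) V := by
    have h1 : ContinuousOn (fderiv ℝ σ) V := hσ.continuousOn_fderiv_of_isOpen hV le_rfl
    have h2 : ContinuousOn (fun z => fderiv ℝ σ z 1) V := h1.clm_apply continuousOn_const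
    have h3 : ContinuousOn (fun z => fderiv ℝ σ z Complex.I) V := h1.clm_apply continuousOn_const
    exact (h2.add (h3.const_smul Complex.I)).const_smul (2⁻¹ : ℂ)
  obtain ⟨C, hC⟩ := D.cU_compact.exists_bound_of_continuousOn (h1.mono hcV)
  have hgi : IntegrableOn g D.U := hg.memLp.integrable (by norm_num)
  refine hgi.mul_bdd ((h1.mono (D.U_subset_cU.trans hcV)).aestronglyMeasurable
    D.U_open.measurableSet) (c := C) ?_
  filter_upwards [ae_restrict_mem D.U_open.measurableSet] with z hz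
  exact hC z (D.U_subset_cU hz)

/-- functions supported in a collar -/
theorem orth_collar {τ : ℝ} (hτ : D.Good τ) {σ : ℂ → ℂ} {V : Set ℂ} (hV : IsOpen V)
    (hcV : D.cU ⊆ V) (hσ : ContDiffOn ℝ 1 σ V) (l : Option (Fin k))
    (h0 : ∀ z ∈ D.circ l, σ z = 0) {g : ℂ → ℂ} (hg : D.Hol2 g) :
    ∫ z in D.U, g z * dzb (fun w => (D.chi τ l w : ℂ) * σ w) z = 0 := by
  have hχ : ContDiff ℝ 1 (fun w => (D.chi τ l w : ℂ)) :=
    (Complex.ofRealCLM.contDiff.comp (chi_smooth D hτ l)).of_le (by norm_cast)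
  have hσ' : ContDiffOn ℝ 1 (fun w => (D.chi τ l w : ℂ) * σ w) V := hχ.contDiffOn.mul hσ
  have hτ0 := hτ.pos
  have hτρ := hτ.lt_rho
  rw [integral_dzb_collar D hτ l (g := g) (σ := fun w => (D.chi τ l w : ℂ) * σ w)
    (fun z hz => (hσ'.contDiffAt (hV.mem_nhds (hcV (D.U_subset_cU hz)))).differentiableAt
      (by simp)) ?_]
  · -- the domain of the composite function
    set V' : Set ℂ := ann2 D.ρ ∩ D.kap l ⁻¹' V with hV'
    have hκc : ContinuousOn (D.kap l) (ann2 D.ρ) := (D.holo l).continuousOn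
    have hV'o : IsOpen V' := hκc.isOpen_inter_preimage (Pool.Agent.EN.isOpen_ann2' _) hV
    have hsub : (AN τ hτ.pos).cU ⊆ V' := by
      intro z hz
      have hz2 : z ∈ ann2 D.ρ := AN_cU D hτ hz
      refine ⟨hz2, hcV ?_⟩
      have h1 : 1 ≤ ‖z‖ := by
        have := hz.2 0
        simpa [AN] using this
      rw [D.mem_cU_iff']
      rcases h1.eq_or_lt with h | h
      · right
        exact ⟨l, z, by simpa using h.symm, rfl⟩
      · left
        exact (D.mem_iff l z hz2).2 h
    have hcomp : ContDiffOn ℝ 1 (fun w => (D.chi τ l (D.kap l w) : ℂ) * σ (D.kap l w)) V' := by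
      have h1 : ContDiffOn ℝ 1 (D.kap l) V' :=
        ((hol_contDiffOn (Pool.Agent.EN.isOpen_ann2' _) (D.holo l)).of_le (by norm_cast)).mono
          inter_subset_left
      exact hσ'.comp h1 (fun z hz => hz.2)
    refine Pool.Agent.Helper7.KE.orth_zero (AN τ hτ.pos) hV'o hsub hcomp ?_
      (hol2_pull D hτ l hg).1
    intro m z hz
    have hz2 : z ∈ ann2 D.ρ := by
      refine AN_cU D hτ ?_
      exact (Pool.Agent.Helper7.KE.mem_cU_iff _ z).2 (Or.inr ⟨m, hz⟩)
    cases m with
    | none =>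
      rw [(AN_circ τ hτ.pos).2] at hz
      have h1 : ‖z‖ = 1 + 3 * τ := by simpa using hz
      have h2 : D.chi τ l (D.kap l z) = 0 := by
        rw [chi_kap D l hz2, h1, AJ.prof, Real.smoothTransition.zero_of_nonpos, zero_mul]
        have : 3 * (1 + 3 * τ - 1) / τ = 9 := by field_simp; ring
        rw [this]
        norm_num
      rw [h2]
      simp
    | some j =>
      have hj : j = 0 := Subsingleton.elim _ _
      subst hj
      rw [(AN_circ τ hτ.pos).1] at hz
      rw [h0 _ ⟨z, hz, rfl⟩, mul_zero]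
  · intro z hz hzn
    have h1 : z ∉ tsupport (D.chi τ l) := by
      intro h
      obtain ⟨w, hw, rfl⟩ := (chi_tsupport D hτ l).2.1 h
      apply hzn
      have hw2 : w ∈ ann2 D.ρ := by
        refine ⟨?_, ?_⟩
        · have h3 : D.ρ⁻¹ < (1 + 3 * τ)⁻¹ := inv_strictAnti₀ (by positivity) hτρ
          refine h3.trans_le (le_trans ?_ hw.1)
          rw [inv_le_iff_one_le_mul₀ (by positivity)]
          have := hτ.lt_half
          nlinarith
        · have := hw.2
          linarith
      have h2 := (D.mem_iff l w hw2).1 hz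
      exact ⟨w, ⟨h2, by have := hw.2; linarith⟩, rfl⟩
    have h2 : (fun w => (D.chi τ l w : ℂ) * σ w) =ᶠ[𝓝 z] fun _ => 0 := by
      filter_upwards [(isClosed_tsupport (D.chi τ l)).isOpen_compl.mem_nhds h1] with w hw
      rw [image_eq_zero_of_notMem_tsupport hw]
      simp
    rw [(dz_congr h2).2, dz_const.2]

end OZA

open OZA in
theorem orth_zero {k : ℕ} (D : AJ k) {σ : ℂ → ℂ} {V : Set ℂ} (hV : IsOpen V) (hcV : D.cU ⊆ V)
    (hσ : ContDiffOn ℝ 1 σ V) (h0 : ∀ l, ∀ z ∈ D.circ l, σ z = 0) {g : ℂ → ℂ} (hg : D.Hol2 g) :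
    ∫ z in D.U, g z * dzb σ z = 0 := by
  obtain ⟨τ, hτ⟩ := exists_good D
  have hχ : ∀ l, ContDiff ℝ 1 (fun w => (D.chi τ l w : ℂ)) := fun l =>
    (Complex.ofRealCLM.contDiff.comp (chi_smooth D hτ l)).of_le (by norm_cast)
  have hσl : ∀ l, ContDiffOn ℝ 1 (fun w => (D.chi τ l w : ℂ) * σ w) V := fun l =>
    (hχ l).contDiffOn.mul hσ
  have hσ0 : ContDiffOn ℝ 1 (fun w => (1 - ∑ l, (D.chi τ l w : ℂ)) * σ w) V :=
    ((contDiff_const.sub (ContDiff.sum fun l _ => hχ l)).contDiffOn).mul hσ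
  have hsplit : ∀ z ∈ V, dzb σ z = dzb (fun w => (1 - ∑ l, (D.chi τ l w : ℂ)) * σ w) z +
      ∑ l, dzb (fun w => (D.chi τ l w : ℂ) * σ w) z := by
    intro z hz
    have hd : ∀ l, DifferentiableAt ℝ (fun w => (D.chi τ l w : ℂ) * σ w) z := fun l =>
      ((hσl l).contDiffAt (hV.mem_nhds hz)).differentiableAt (by simp)
    have h1 := (dz_sum Finset.univ (z := z) (fun l _ => hd l)).2
    have h2 := (dz_add (z := z) ((hσ0.contDiffAt (hV.mem_nhds hz)).differentiableAt (by simp))
      (DifferentiableAt.fun_sum (u := Finset.univ) fun l _ => hd l)).2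
    rw [← h1, ← h2]
    congr 1
    funext w
    rw [sub_mul, one_mul, Finset.sum_mul]
    ring
  have h1 : ∫ z in D.U, g z * dzb σ z =
      ∫ z in D.U, (g z * dzb (fun w => (1 - ∑ l, (D.chi τ l w : ℂ)) * σ w) z +
        ∑ l, g z * dzb (fun w => (D.chi τ l w : ℂ) * σ w) z) := by
    refine setIntegral_congr_fun D.U_open.measurableSet fun z hz => ?_
    rw [hsplit z (hcV (D.U_subset_cU hz)), mul_add, Finset.mul_sum]
  rw [h1, integral_add (integrable_dzb D hV hcV hσ0 hg)
    (integrable_finsetSum _ fun l _ => integrable_dzb D hV hcV (hσl l) hg),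
    integral_finsetSum _ fun l _ => integrable_dzb D hV hcV (hσl l) hg]
  rw [orth_vanish D hV hcV hσ0 ?_ hg, zero_add]
  · exact Finset.sum_eq_zero fun l _ => orth_collar D hτ hV hcV hσ l (h0 l) hg
  · intro l z hz
    have h2 : ∀ m, ∀ᶠ w in 𝓝 z, D.chi τ m w = if m = l then 1 else 0 := by
      intro m
      by_cases hm : m = l
      · subst hm
        simpa using chi_near D hτ.pos m hz
      · simpa [hm] using chi_zero_near D hτ (l := l) (l' := m) (Ne.symm hm) hz
    filter_upwards [eventually_all.2 h2] with w hw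
    have : ∑ m, (D.chi τ m w : ℂ) = 1 := by
      rw [Finset.sum_eq_single l]
      · rw [hw l, if_pos rfl, Complex.ofReal_one]
      · intro m _ hm
        rw [hw m, if_neg hm, Complex.ofReal_zero]
      · intro h
        exact absurd (Finset.mem_univ l) h
    rw [this, sub_self, zero_mul]

end Pool.Agent.KA
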