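import Pool.Agent.Helper7.KE.A4
import Pool.Agent.Helper9.KA.A2b

set_option autoImplicit false

open MeasureTheory Set Filter Asymptotics Topology Metric
open scoped ComplexConjugate ENNReal

namespace Pool.Agent.KA

open Pool.Agent.Helper7.KE hiding HM PS Bv sfun FF tt lS
open Pool.Agent.EN (AJ ann ann2)

theorem green_sing_aux {k : ℕ} (D : AJ k) {F : ℂ → ℂ} {V : Set ℂ} (hV : IsOpen V) (hcV : D.cU ⊆ V)
    {Z : Set ℂ} (hZ : Z.Finite) (hF : ContDiffOn ℝ 1 F (V \ Z))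
    (h0 : ∀ l, ∀ z ∈ D.circ l, z ∉ Z → F z = 0)
    (hb : ∀ p ∈ Z, ∃ C : ℝ, ∀ᶠ z in 𝓝 p, ‖F z‖ ≤ C * ‖z - p‖)
    (Dop : (ℂ → ℂ) → ℂ → ℂ)
    (_P1 : ∀ (F G : ℂ → ℂ) (z : ℂ), F =ᶠ[𝓝 z] G → Dop F z = Dop G z)
    (P2 : ∀ (f F : ℂ → ℂ) (z : ℂ), DifferentiableAt ℝ f z → DifferentiableAt ℝ F z →
      Dop (fun w => f w * F w) z = Dop f z * F z + f z * Dop F z)
    (P3 : ∀ (f : ℂ → ℂ) (z : ℂ), ‖Dop f z‖ ≤ ‖fderiv ℝ f z‖)
    (P4 : ∀ (G : ℂ → ℂ), ContDiffOn ℝ 1 G V → ContinuousOn (Dop G) V)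
    (P5 : ∀ (G : ℂ → ℂ), ContDiffOn ℝ 1 G V → (∀ l, ∀ z ∈ D.circ l, G z = 0) →
      ∫ z in D.U, Dop G z = 0)
    (hint : IntegrableOn (Dop F) D.U) : ∫ z in D.U, Dop F z = 0 := by
  classical
  obtain ⟨K, hKs, hK1, hK2, hKn, B, hB0, hB⟩ := exists_cut
  choose! C hC using hb
  have hZm : volume Z = 0 := hZ.measure_zero _
  have hVZ : IsOpen (V \ Z) := hV.sdiff hZ.isClosed
  -- the cutoffs
  let κ : ℝ → ℂ → ℂ → ℂ := fun ε p z => K ((ε : ℂ)⁻¹ * (z - p))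
  let η : ℝ → ℂ → ℂ := fun ε z => 1 - ∑ p ∈ hZ.toFinset, κ ε p z
  have hκs : ∀ ε p, ContDiff ℝ (⊤ : ℕ∞) (κ ε p) := fun ε p =>
    hKs.comp (contDiff_const.mul (contDiff_id.sub contDiff_const))
  have hηs : ∀ ε, ContDiff ℝ (⊤ : ℕ∞) (η ε) := fun ε =>
    contDiff_const.sub (ContDiff.sum fun p _ => hκs ε p)
  have hscale : ∀ {ε : ℝ}, 0 < ε → ∀ p z : ℂ, ‖(ε : ℂ)⁻¹ * (z - p)‖ = ‖z - p‖ / ε := by
    intro ε hε p z
    rw [norm_mul, norm_inv, Complex.norm_real, Real.norm_eq_abs, abs_of_pos hε]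
    field_simp
  have hκ1 : ∀ {ε : ℝ}, 0 < ε → ∀ p z : ℂ, ‖z - p‖ ≤ ε → κ ε p z = 1 := by
    intro ε hε p z h
    refine hK1 _ ?_
    rw [hscale hε, div_le_one hε]
    exact h
  have hκ2 : ∀ {ε : ℝ}, 0 < ε → ∀ p z : ℂ, 2 * ε ≤ ‖z - p‖ → κ ε p z = 0 := by
    intro ε hε p z h
    refine hK2 _ ?_
    rw [hscale hε, le_div_iff₀ hε]
    exact h
  have hηn : ∀ ε z, ‖η ε z‖ ≤ 1 + hZ.toFinset.card := by
    intro ε z
    calc ‖η ε z‖ ≤ ‖(1 : ℂ)‖ + ‖∑ p ∈ hZ.toFinset, κ ε p z‖ := norm_sub_le _ _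
      _ ≤ 1 + ∑ p ∈ hZ.toFinset, ‖κ ε p z‖ := by
        rw [norm_one]
        gcongr
        exact norm_sum_le _ _
      _ ≤ 1 + ∑ p ∈ hZ.toFinset, (1 : ℝ) := by
        gcongr with p hp
        exact hKn _
      _ = 1 + hZ.toFinset.card := by simp
  have hκd : ∀ {ε : ℝ}, 0 < ε → ∀ p z : ℂ, ‖fderiv ℝ (κ ε p) z‖ ≤ B / ε := by
    intro ε hε p z
    have h1 : HasFDerivAt (fun z : ℂ => (ε : ℂ)⁻¹ * (z - p))
        ((ε : ℂ)⁻¹ • (ContinuousLinearMap.id ℝ ℂ)) z :=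
      ((hasFDerivAt_id z).sub_const p).const_mul _
    have h2 : HasFDerivAt K (fderiv ℝ K ((ε : ℂ)⁻¹ * (z - p))) ((ε : ℂ)⁻¹ * (z - p)) :=
      (hKs.differentiable (by simp) _).hasFDerivAt
    have h3 := (h2.comp z h1).fderiv
    have h4 : fderiv ℝ (κ ε p) z = (fderiv ℝ K ((ε : ℂ)⁻¹ * (z - p))).comp
        ((ε : ℂ)⁻¹ • (ContinuousLinearMap.id ℝ ℂ)) := h3
    rw [h4]
    refine (ContinuousLinearMap.opNorm_comp_le _ _).trans ?_
    rw [norm_smul, norm_inv, Complex.norm_real, Real.norm_eq_abs, abs_of_pos hε]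
    have h5 : ‖ContinuousLinearMap.id ℝ ℂ‖ ≤ 1 := ContinuousLinearMap.norm_id_le
    have h6 := hB ((ε : ℂ)⁻¹ * (z - p))
    calc ‖fderiv ℝ K ((ε : ℂ)⁻¹ * (z - p))‖ * (ε⁻¹ * ‖ContinuousLinearMap.id ℝ ℂ‖)
        ≤ B * (ε⁻¹ * 1) := by gcongr
      _ = B / ε := by rw [mul_one, div_eq_mul_inv]
  have hκd0 : ∀ {ε : ℝ}, 0 < ε → ∀ p z : ℂ, 2 * ε < ‖z - p‖ → fderiv ℝ (κ ε p) z = 0 := by
    intro ε hε p z h
    have h1 : κ ε p =ᶠ[𝓝 z] fun _ => (0 : ℂ) := by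
      have h2 : ∀ᶠ w in 𝓝 z, 2 * ε < ‖w - p‖ := by
        have : Continuous fun w : ℂ => ‖w - p‖ := by fun_prop
        exact this.continuousAt.eventually (lt_mem_nhds h)
      filter_upwards [h2] with w hw
      exact hκ2 hε p w hw.le
    rw [h1.fderiv_eq]
    simp
  have hηd : ∀ ε z, fderiv ℝ (η ε) z = -∑ p ∈ hZ.toFinset, fderiv ℝ (κ ε p) z := by
    intro ε z
    have h1 : ∀ p ∈ hZ.toFinset, HasFDerivAt (κ ε p) (fderiv ℝ (κ ε p) z) z := fun p _ =>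
      ((hκs ε p).differentiable (by simp) _).hasFDerivAt
    exact ((HasFDerivAt.fun_sum h1).const_sub 1).fderiv
  -- good ε
  have hsep : ∀ᶠ ε in 𝓝[>] (0 : ℝ), ∀ p ∈ Z, ∀ q ∈ Z, p ≠ q → 3 * ε ≤ ‖p - q‖ := by
    rw [eventually_all_finite hZ]
    intro p hp
    rw [eventually_all_finite hZ]
    intro q hq
    by_cases hpq : p = q
    · filter_upwards with ε h
      exact absurd hpq h
    · have h1 : 0 < ‖p - q‖ := norm_pos_iff.2 (sub_ne_zero.2 hpq)
      have h2 : ∀ᶠ ε in 𝓝[>] (0 : ℝ), ε < ‖p - q‖ / 3 :=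
        mem_nhdsWithin_of_mem_nhds (Iio_mem_nhds (by positivity))
      filter_upwards [h2] with ε hε _
      linarith
  have hbd : ∀ᶠ ε in 𝓝[>] (0 : ℝ), ∀ p ∈ Z, ∀ z, ‖z - p‖ ≤ 2 * ε → ‖F z‖ ≤ C p * ‖z - p‖ := by
    rw [eventually_all_finite hZ]
    intro p hp
    obtain ⟨δ, hδ, h⟩ := Metric.eventually_nhds_iff.1 (hC p hp)
    have h2 : ∀ᶠ ε in 𝓝[>] (0 : ℝ), ε < δ / 2 :=
      mem_nhdsWithin_of_mem_nhds (Iio_mem_nhds (by positivity))
    filter_upwards [h2] with ε hε z hz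
    apply h
    rw [dist_eq_norm]
    linarith
  have hpos : ∀ᶠ ε in 𝓝[>] (0 : ℝ), 0 < ε := self_mem_nhdsWithin
  -- η ε vanishes near the points of Z
  have hη0 : ∀ {ε : ℝ}, 0 < ε → (∀ p ∈ Z, ∀ q ∈ Z, p ≠ q → 3 * ε ≤ ‖p - q‖) →
      ∀ p ∈ Z, ∀ z, ‖z - p‖ ≤ ε → η ε z = 0 := by
    intro ε hε hs p hp z hz
    have h1 : ∑ q ∈ hZ.toFinset, κ ε q z = κ ε p z := by
      refine Finset.sum_eq_single_of_mem p (hZ.mem_toFinset.2 hp) fun q hq hqp => ?_
      refine hκ2 hε q z ?_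
      have h2 := hs p hp q (hZ.mem_toFinset.1 hq) (Ne.symm hqp)
      have h3 : ‖p - q‖ ≤ ‖z - p‖ + ‖z - q‖ := by
        have : p - q = -(z - p) + (z - q) := by ring
        rw [this]
        refine (norm_add_le _ _).trans ?_
        rw [norm_neg]
      linarith
    change 1 - ∑ q ∈ hZ.toFinset, κ ε q z = 0
    rw [h1, hκ1 hε p z hz, sub_self]
  have hFat : ∀ z ∈ V \ Z, ContDiffAt ℝ 1 F z := fun z hz => (hF z hz).contDiffAt (hVZ.mem_nhds hz)
  -- the cut off function is C¹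
  have hG : ∀ {ε : ℝ}, 0 < ε → (∀ p ∈ Z, ∀ q ∈ Z, p ≠ q → 3 * ε ≤ ‖p - q‖) →
      ContDiffOn ℝ 1 (fun z => η ε z * F z) V := by
    intro ε hε hs z hz
    by_cases hzZ : z ∈ Z
    · have h1 : (fun z => η ε z * F z) =ᶠ[𝓝 z] fun _ => (0 : ℂ) := by
        filter_upwards [Metric.ball_mem_nhds z hε] with w hw
        rw [mem_ball, dist_eq_norm] at hw
        rw [hη0 hε hs z hzZ w hw.le, zero_mul]
      exact ((contDiffAt_const (c := (0 : ℂ))).congr_of_eventuallyEq h1).contDiffWithinAt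
    · have h1 : ContDiffAt ℝ 1 (η ε) z := ((hηs ε).of_le (by simp)).contDiffAt
      exact (h1.mul (hFat z ⟨hz, hzZ⟩)).contDiffWithinAt
  have hdF : ∀ z ∈ V \ Z, DifferentiableAt ℝ F z := fun z hz =>
    (hFat z hz).differentiableAt one_ne_zero
  have hdη : ∀ ε z, DifferentiableAt ℝ (η ε) z := fun ε z =>
    (hηs ε).differentiable (by simp) z
  have hae : ∀ᵐ z ∂(volume.restrict D.U), z ∈ V \ Z := by
    have h1 : ∀ᵐ z ∂(volume.restrict D.U), z ∈ D.U := ae_restrict_mem D.U_open.measurableSet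
    have h2 : ∀ᵐ z ∂(volume.restrict D.U), z ∉ Z :=
      ae_restrict_of_ae (measure_eq_zero_iff_ae_notMem.1 hZm)
    filter_upwards [h1, h2] with z hz1 hz2
    exact ⟨hcV (D.U_subset_cU hz1), hz2⟩
  have hprod : ∀ ε, ∀ z ∈ V \ Z,
      Dop (fun w => η ε w * F w) z = Dop (η ε) z * F z + η ε z * Dop F z := fun ε z hz =>
    P2 _ _ z (hdη ε z) (hdF z hz)
  have hGint : ∀ {ε : ℝ}, 0 < ε → (∀ p ∈ Z, ∀ q ∈ Z, p ≠ q → 3 * ε ≤ ‖p - q‖) →
      IntegrableOn (Dop (fun z => η ε z * F z)) D.U := by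
    intro ε hε hs
    exact (((P4 _ (hG hε hs)).mono hcV).integrableOn_compact D.cU_compact).mono_set D.U_subset_cU
  have hηint : ∀ ε, IntegrableOn (fun z => η ε z * Dop F z) D.U := by
    intro ε
    refine hint.bdd_mul (hηs ε).continuous.aestronglyMeasurable (c := 1 + hZ.toFinset.card) ?_
    filter_upwards with z
    exact hηn ε z
  -- first limit
  have lim1 : Tendsto (fun ε => ∫ z in D.U, η ε z * Dop F z) (𝓝[>] 0) (𝓝 (∫ z in D.U, Dop F z)) := by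
    refine tendsto_integral_filter_of_dominated_convergence
      (fun z => (1 + hZ.toFinset.card) * ‖Dop F z‖) ?_ ?_ (hint.norm.const_mul _) ?_
    · filter_upwards with ε
      exact (hηint ε).aestronglyMeasurable
    · filter_upwards with ε
      filter_upwards with z
      rw [norm_mul]
      gcongr
      exact hηn ε z
    · filter_upwards [hae] with z hz
      have h1 : ∀ᶠ ε in 𝓝[>] (0 : ℝ), ∀ p ∈ Z, 2 * ε < ‖z - p‖ := by
        rw [eventually_all_finite hZ]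
        intro p hp
        have h1 : 0 < ‖z - p‖ := norm_pos_iff.2 (sub_ne_zero.2 fun h => hz.2 (h ▸ hp))
        have h2 : ∀ᶠ ε in 𝓝[>] (0 : ℝ), ε < ‖z - p‖ / 2 :=
          mem_nhdsWithin_of_mem_nhds (Iio_mem_nhds (by positivity))
        filter_upwards [h2] with ε hε
        linarith
      have h2 : ∀ᶠ ε in 𝓝[>] (0 : ℝ), Dop F z = η ε z * Dop F z := by
        filter_upwards [h1, hpos] with ε hε hε0
        have h3 : ∑ p ∈ hZ.toFinset, κ ε p z = 0 :=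
          Finset.sum_eq_zero fun p hp => hκ2 hε0 p z (hε p (hZ.mem_toFinset.1 hp)).le
        change Dop F z = (1 - ∑ p ∈ hZ.toFinset, κ ε p z) * Dop F z
        rw [h3, sub_zero, one_mul]
      exact tendsto_const_nhds.congr' h2
  -- second limit
  have lim2 : Tendsto (fun ε => ∫ z in D.U, Dop (η ε) z * F z) (𝓝[>] 0) (𝓝 0) := by
    have h00 : (0 : ℂ) = ∫ z in D.U, (0 : ℂ) := by simp
    rw [h00]
    refine tendsto_integral_filter_of_dominated_convergence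
      (fun _ => ∑ p ∈ hZ.toFinset, 2 * B * |C p|) ?_ ?_ (integrable_const _) ?_
    · filter_upwards [hsep, hpos] with ε hs hε
      have h1 : AEStronglyMeasurable (fun z => Dop (fun z => η ε z * F z) z - η ε z * Dop F z)
          (volume.restrict D.U) :=
        (hGint hε hs).aestronglyMeasurable.sub (hηint ε).aestronglyMeasurable
      refine h1.congr ?_
      filter_upwards [hae] with z hz
      rw [hprod ε z hz]
      ring
    · filter_upwards [hbd, hpos] with ε hb hε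
      filter_upwards with z
      calc ‖Dop (η ε) z * F z‖ = ‖Dop (η ε) z‖ * ‖F z‖ := norm_mul _ _
        _ ≤ ‖fderiv ℝ (η ε) z‖ * ‖F z‖ := by gcongr; exact P3 _ _
        _ = ‖∑ p ∈ hZ.toFinset, fderiv ℝ (κ ε p) z‖ * ‖F z‖ := by rw [hηd, norm_neg]
        _ ≤ (∑ p ∈ hZ.toFinset, ‖fderiv ℝ (κ ε p) z‖) * ‖F z‖ := by
          gcongr; exact norm_sum_le _ _
        _ = ∑ p ∈ hZ.toFinset, ‖fderiv ℝ (κ ε p) z‖ * ‖F z‖ := by rw [Finset.sum_mul]
        _ ≤ ∑ p ∈ hZ.toFinset, 2 * B * |C p| := by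
          refine Finset.sum_le_sum fun p hp => ?_
          by_cases hz : 2 * ε < ‖z - p‖
          · rw [hκd0 hε p z hz, norm_zero, zero_mul]
            positivity
          · push Not at hz
            have h1 := hb p (hZ.mem_toFinset.1 hp) z hz
            have h2 : ‖F z‖ ≤ |C p| * (2 * ε) := by
              refine h1.trans ?_
              have h3 : C p ≤ |C p| := le_abs_self _
              have h4 : 0 ≤ ‖z - p‖ := norm_nonneg _
              have h5 : 0 ≤ |C p| := abs_nonneg _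
              calc C p * ‖z - p‖ ≤ |C p| * ‖z - p‖ := by gcongr
                _ ≤ |C p| * (2 * ε) := by gcongr
            calc ‖fderiv ℝ (κ ε p) z‖ * ‖F z‖ ≤ (B / ε) * (|C p| * (2 * ε)) := by
                  gcongr
                  exact hκd hε p z
              _ = 2 * B * |C p| := by field_simp
    · filter_upwards [hae] with z hz
      have h1 : ∀ᶠ ε in 𝓝[>] (0 : ℝ), ∀ p ∈ Z, 2 * ε < ‖z - p‖ := by
        rw [eventually_all_finite hZ]
        intro p hp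
        have h1 : 0 < ‖z - p‖ := norm_pos_iff.2 (sub_ne_zero.2 fun h => hz.2 (h ▸ hp))
        have h2 : ∀ᶠ ε in 𝓝[>] (0 : ℝ), ε < ‖z - p‖ / 2 :=
          mem_nhdsWithin_of_mem_nhds (Iio_mem_nhds (by positivity))
        filter_upwards [h2] with ε hε
        linarith
      have h2 : ∀ᶠ ε in 𝓝[>] (0 : ℝ), (0 : ℂ) = Dop (η ε) z * F z := by
        filter_upwards [h1, hpos] with ε hε hε0
        have h3 : fderiv ℝ (η ε) z = 0 := by
          rw [hηd, neg_eq_zero]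
          exact Finset.sum_eq_zero fun p hp => hκd0 hε0 p z (hε p (hZ.mem_toFinset.1 hp))
        have h4 : Dop (η ε) z = 0 := by
          have h5 := P3 (η ε) z
          rw [h3, norm_zero] at h5
          exact norm_le_zero_iff.1 h5
        rw [h4, zero_mul]
      exact tendsto_const_nhds.congr' h2
  -- conclusion
  have hsum : ∀ᶠ ε in 𝓝[>] (0 : ℝ),
      (∫ z in D.U, η ε z * Dop F z) + ∫ z in D.U, Dop (η ε) z * F z = 0 := by
    filter_upwards [hsep, hpos] with ε hs hε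
    have h1 : ∫ z in D.U, Dop (fun z => η ε z * F z) z = 0 := by
      refine P5 _ (hG hε hs) fun l z hz => ?_
      by_cases hzZ : z ∈ Z
      · rw [hη0 hε hs z hzZ z (by simp [hε.le]), zero_mul]
      · rw [h0 l z hz hzZ, mul_zero]
    have h2 : ∫ z in D.U, Dop (η ε) z * F z =
        ∫ z in D.U, (Dop (fun z => η ε z * F z) z - η ε z * Dop F z) := by
      refine integral_congr_ae ?_
      filter_upwards [hae] with z hz
      rw [hprod ε z hz]
      ring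
    rw [h2, integral_sub (hGint hε hs) (hηint ε), h1]
    ring
  have lim3 := (lim1.add lim2).congr' hsum
  rw [add_zero] at lim3
  exact (tendsto_nhds_unique lim3 tendsto_const_nhds)

/-- functions with mild point singularities -/
theorem green_sing {k : ℕ} (D : AJ k) {F : ℂ → ℂ} {V : Set ℂ} (hV : IsOpen V) (hcV : D.cU ⊆ V)
    {Z : Set ℂ} (hZ : Z.Finite) (hF : ContDiffOn ℝ 1 F (V \ Z))
    (h0 : ∀ l, ∀ z ∈ D.circ l, z ∉ Z → F z = 0)
    (hb : ∀ p ∈ Z, ∃ C : ℝ, ∀ᶠ z in 𝓝 p, ‖F z‖ ≤ C * ‖z - p‖) :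
    (IntegrableOn (dz F) D.U → ∫ z in D.U, dz F z = 0) ∧
      (IntegrableOn (dzb F) D.U → ∫ z in D.U, dzb F z = 0) := by
  have hn : ∀ (f : ℂ → ℂ) (z : ℂ), ‖fderiv ℝ f z 1‖ ≤ ‖fderiv ℝ f z‖ ∧
      ‖Complex.I • fderiv ℝ f z Complex.I‖ ≤ ‖fderiv ℝ f z‖ := by
    intro f z
    constructor
    · simpa using (fderiv ℝ f z).le_opNorm 1
    · rw [norm_smul, Complex.norm_I, one_mul]
      simpa using (fderiv ℝ f z).le_opNorm Complex.I
  have hcont : ∀ (G : ℂ → ℂ), ContDiffOn ℝ 1 G V → ContinuousOn (dz G) V ∧ ContinuousOn (dzb G) V := by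
    intro G hG
    have h1 : ContinuousOn (fderiv ℝ G) V := hG.continuousOn_fderiv_of_isOpen hV le_rfl
    have h2 : ContinuousOn (fun z => fderiv ℝ G z 1) V := h1.clm_apply continuousOn_const
    have h3 : ContinuousOn (fun z => fderiv ℝ G z Complex.I) V := h1.clm_apply continuousOn_const
    exact ⟨(h2.sub (h3.const_smul Complex.I)).const_smul (2⁻¹ : ℂ),
      (h2.add (h3.const_smul Complex.I)).const_smul (2⁻¹ : ℂ)⟩
  constructor
  · refine green_sing_aux D hV hcV hZ hF h0 hb dz (fun F G z h => (dz_congr h).1)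
      (fun f F z hf hF => by simpa using (dz_smul hf hF).1) ?_ (fun G hG => (hcont G hG).1)
      (fun G hG h => (green_zero D hV hcV hG h).1)
    intro f z
    rw [dz, norm_smul]
    have h1 := hn f z
    have h2 := norm_sub_le (fderiv ℝ f z 1) (Complex.I • fderiv ℝ f z Complex.I)
    have h3 : ‖(2⁻¹ : ℂ)‖ = 1 / 2 := by norm_num
    rw [h3]
    linarith [h1.1, h1.2]
  · refine green_sing_aux D hV hcV hZ hF h0 hb dzb (fun F G z h => (dz_congr h).2)
      (fun f F z hf hF => by simpa using (dz_smul hf hF).2) ?_ (fun G hG => (hcont G hG).2)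
      (fun G hG h => (green_zero D hV hcV hG h).2)
    intro f z
    rw [dzb, norm_smul]
    have h1 := hn f z
    have h2 := norm_add_le (fderiv ℝ f z 1) (Complex.I • fderiv ℝ f z Complex.I)
    have h3 : ‖(2⁻¹ : ℂ)‖ = 1 / 2 := by norm_num
    rw [h3]
    linarith [h1.1, h1.2]

end Pool.Agent.KA
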