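import Pool.Agent.Helper9.KA.Defs
import Pool.Agent.Helper7.KE.A1
import Pool.Agent.Helper7.KE.A5b

/-!
# Topology of the collars
-/

set_option autoImplicit false

open MeasureTheory Set Filter Asymptotics Topology Metric
open scoped ComplexConjugate ENNReal

namespace Pool.Agent.KA

open Pool.Agent.Helper7.KE hiding HM PS Bv sfun FF tt lS
open Pool.Agent.EN (AJ ann ann2)

section
variable {k : ℕ} (D : AJ k) {τ : ℝ}

/-- the inverse chart is holomorphic on the collar -/
theorem lam_holo (l : Option (Fin k)) :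
    DifferentiableOn ℂ (D.lam l) (D.kap l '' ann2 D.ρ) := by
  obtain ⟨-, -, g, hg, hgk⟩ :=
    Pool.Agent.EN.exists_inverse (Pool.Agent.EN.isOpen_ann2' D.ρ) (D.holo l) (D.inj l)
  refine hg.congr ?_
  rintro _ ⟨w, hw, rfl⟩
  rw [D.lam_kap hw, hgk w hw]

theorem kap_deriv_ne (l : Option (Fin k)) {z : ℂ} (hz : z ∈ ann2 D.ρ) :
    deriv (D.kap l) z ≠ 0 :=
  (Pool.Agent.EN.exists_inverse (Pool.Agent.EN.isOpen_ann2' D.ρ) (D.holo l) (D.inj l)).2.1 z hz

theorem lam_deriv_ne (l : Option (Fin k)) {z : ℂ} (hz : z ∈ D.kap l '' ann2 D.ρ) :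
    deriv (D.lam l) z ≠ 0 := by
  obtain ⟨w, hw, rfl⟩ := hz
  have hw' : ann2 D.ρ ∈ 𝓝 w := (Pool.Agent.EN.isOpen_ann2' D.ρ).mem_nhds hw
  have hk : HasDerivAt (D.kap l) (deriv (D.kap l) w) w :=
    ((D.holo l).differentiableAt hw').hasDerivAt
  have ho : IsOpen (D.kap l '' ann2 D.ρ) :=
    D.isOpen_kap (Pool.Agent.EN.isOpen_ann2' D.ρ) Subset.rfl
  have hl : HasDerivAt (D.lam l) (deriv (D.lam l) (D.kap l w)) (D.kap l w) :=
    ((lam_holo D l).differentiableAt (ho.mem_nhds (mem_image_of_mem _ hw))).hasDerivAt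
  have hc : HasDerivAt (D.lam l ∘ D.kap l)
      (deriv (D.lam l) (D.kap l w) * deriv (D.kap l) w) w := hl.comp w hk
  have hid : HasDerivAt (D.lam l ∘ D.kap l) 1 w := by
    refine (hasDerivAt_id w).congr_of_eventuallyEq ?_
    filter_upwards [hw'] with u hu
    exact D.lam_kap hu
  intro h0
  have h1 := hc.unique hid
  rw [h0, zero_mul] at h1
  exact zero_ne_one h1

theorem col_disj {δ δ' : ℝ} {l l' : Option (Fin k)} (h : l ≠ l') :
    Disjoint (D.col δ l) (D.col δ' l') :=
  (D.disj l l' h).mono (D.col_subset δ l) (D.col_subset δ' l')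

theorem Ue_bounded {δ : ℝ} (hδ : 1 + δ < D.ρ) : Bornology.IsBounded (D.Ue δ) := by
  set r : ℝ := max (1 + δ) 1 with hr
  have hr1 : 1 ≤ r := le_max_right _ _
  have hrδ : 1 + δ ≤ r := le_max_left _ _
  have hrρ : r < D.ρ := max_lt hδ D.one_lt
  have hr0 : 0 < r := zero_lt_one.trans_le hr1
  refine D.bounded.union ((Bornology.isBounded_iUnion).2 fun l => ?_)
  have hK : IsCompact (D.kap l '' (closedBall 0 r \ ball 0 r⁻¹)) := by
    refine IsCompact.image_of_continuousOn ((isCompact_closedBall _ _).diff isOpen_ball) ?_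
    refine ((D.holo l).continuousOn).mono ?_
    intro u hu
    have h1 : ‖u‖ ≤ r := by simpa using hu.1
    have h2 : r⁻¹ ≤ ‖u‖ := by simpa using hu.2
    exact ⟨((inv_lt_inv₀ (hr0.trans hrρ) hr0).2 hrρ).trans_le h2, h1.trans_lt hrρ⟩
  refine hK.isBounded.subset (image_mono ?_)
  intro u hu
  have hu2 : u ∈ ann2 r :=
    Pool.Agent.EN.ann2_mono ((min_le_left _ _).trans hrδ) hu
  refine ⟨?_, ?_⟩
  · simpa using hu2.2.le
  · simpa using hu2.1.le

/-- a function which is smooth near the closed domain and vanishes near the curves, cut off at the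
domain, is a test function -/
theorem isTest_indicator {Y : Type*} [NormedAddCommGroup Y] [NormedSpace ℂ Y] {F : ℂ → Y}
    {V : Set ℂ} (hV : IsOpen V) (hcV : D.cU ⊆ V) (hF : ContDiffOn ℝ (⊤ : ℕ∞) F V)
    (h0 : ∀ l, ∀ z ∈ D.circ l, ∀ᶠ w in 𝓝 z, F w = 0) : IsTest D.U (D.U.indicator F) := by
  have hcl : tsupport (D.U.indicator F) ⊆ D.cU := by
    apply closure_minimal _ D.cU_compact.isClosed
    exact Set.support_indicator_subset.trans D.U_subset_cU
  have hsub : ∀ l, ∀ z ∈ D.circ l, D.U.indicator F =ᶠ[𝓝 z] fun _ => 0 := by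
    intro l z hz
    filter_upwards [h0 l z hz] with w hw
    by_cases hwU : w ∈ D.U
    · rw [indicator_of_mem hwU, hw]
    · rw [indicator_of_notMem hwU]
  refine ⟨?_, D.cU_compact.of_isClosed_subset (isClosed_tsupport _) hcl, ?_⟩
  · rw [contDiff_iff_contDiffAt]
    intro z
    by_cases hz : z ∈ D.cU
    · rcases (D.mem_cU_iff' z).1 hz with hzU | ⟨l, hl⟩
      · have h1 : D.U.indicator F =ᶠ[𝓝 z] F := by
          filter_upwards [D.U_open.mem_nhds hzU] with w hw
          rw [indicator_of_mem hw]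
        exact ((hF z (hcV hz)).contDiffAt (hV.mem_nhds (hcV hz))).congr_of_eventuallyEq h1
      · exact contDiffAt_const.congr_of_eventuallyEq (hsub l z hl)
    · have h1 : D.U.indicator F =ᶠ[𝓝 z] fun _ => 0 := by
        filter_upwards [D.cU_compact.isClosed.isOpen_compl.mem_nhds hz] with w hw
        rw [indicator_of_notMem (fun h => hw (D.U_subset_cU h))]
      exact contDiffAt_const.congr_of_eventuallyEq h1
  · intro z hz
    rcases (D.mem_cU_iff' z).1 (hcl hz) with hzU | ⟨l, hl⟩
    · exact hzU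
    · exact absurd hz (notMem_tsupport_iff_eventuallyEq.2 (hsub l z hl))

/-- the closed domain is the domain together with the curves -/
theorem mem_cU_iff (z : ℂ) : z ∈ D.cU ↔ z ∈ D.U ∨ ∃ l, z ∈ D.circ l := D.mem_cU_iff' z

theorem circ_disj {l l' : Option (Fin k)} (h : l ≠ l') : Disjoint (D.circ l) (D.circ l') :=
  (D.disj l l' h).mono (image_mono (Pool.Agent.EN.sphere_subset_ann2 D.one_lt))
    (image_mono (Pool.Agent.EN.sphere_subset_ann2 D.one_lt))

/-- the curves do not meet the domain -/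
theorem circ_not_mem {l : Option (Fin k)} {z : ℂ} (hz : z ∈ D.circ l) : z ∉ D.U := by
  obtain ⟨w, hw, rfl⟩ := hz
  have h1 : ‖w‖ = 1 := by simpa using hw
  intro hU
  have h2 := (D.mem_iff l w (Pool.Agent.EN.sphere_subset_ann2 D.one_lt hw)).1 hU
  rw [h1] at h2
  exact lt_irrefl _ h2

theorem exists_good : ∃ τ, D.Good τ := by
  have h1 := D.one_lt
  refine ⟨min (1 / 4) ((D.ρ - 1) / 6), ?_, ?_, ?_⟩
  · exact lt_min (by norm_num) (by linarith)
  · exact (min_le_left _ _).trans_lt (by norm_num)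
  · have h2 : min (1 / 4) ((D.ρ - 1) / 6) ≤ (D.ρ - 1) / 6 := min_le_right _ _
    linarith

theorem U_nonempty : D.U.Nonempty := D.connected.nonempty

/-- the domain is connected -/
theorem U_preconnected : IsPreconnected D.U := D.connected.isPreconnected

/-- a collar is empty, or it is connected and meets the domain -/
theorem col_preconnected (δ : ℝ) (l : Option (Fin k)) :
    D.col δ l = ∅ ∨ (IsPreconnected (D.col δ l) ∧ (D.U ∩ D.col δ l).Nonempty) := by
  set r : ℝ := min (1 + δ) D.ρ with hr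
  rcases le_or_gt r 1 with h | h
  · left
    have hempty : ann2 r = ∅ := by
      rw [eq_empty_iff_forall_notMem]
      intro u hu
      have h1 := hu.1
      have h2 := hu.2
      have h0 : 0 < r := (norm_nonneg u).trans_lt h2
      have h3 : 1 ≤ r⁻¹ := (one_le_inv₀ h0).2 h
      linarith
    rw [AJ.col, ← hr, hempty, image_empty]
  · right
    have hrρ : r ≤ D.ρ := min_le_right _ _
    have hr0 : 0 < r := zero_lt_one.trans h
    have hann : ann2 r = ball 0 r \ closedBall 0 r⁻¹ := by
      ext u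
      constructor
      · intro hu
        exact ⟨by simpa using hu.2, by simpa using hu.1⟩
      · intro hu
        exact ⟨by simpa using hu.2, by simpa using hu.1⟩
    have hpre : IsPreconnected (ann2 r) := by
      rw [hann]
      exact annulus_preconnected 0 (inv_nonneg.2 hr0.le)
    have hsub : ann2 r ⊆ ann2 D.ρ := Pool.Agent.EN.ann2_mono hrρ
    refine ⟨hpre.image _ ((D.holo l).continuousOn.mono hsub), ?_⟩
    have hn : ‖(((1 + r) / 2 : ℝ) : ℂ)‖ = (1 + r) / 2 := by
      rw [Complex.norm_real, Real.norm_of_nonneg (by linarith)]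
    have hmem : (((1 + r) / 2 : ℝ) : ℂ) ∈ ann2 r := by
      refine ⟨?_, ?_⟩
      · rw [hn]
        have : r⁻¹ < 1 := inv_lt_one_of_one_lt₀ h
        linarith
      · rw [hn]; linarith
    refine ⟨D.kap l (((1 + r) / 2 : ℝ) : ℂ), ?_, mem_image_of_mem _ hmem⟩
    refine (D.mem_iff l _ (hsub hmem)).2 ?_
    rw [hn]; linarith

/-- the enlarged domain is connected -/
theorem Ue_preconnected (δ : ℝ) : IsPreconnected (D.Ue δ) := by
  have h1 : D.Ue δ = ⋃ l, (D.U ∪ D.col δ l) := by
    rw [AJ.Ue, union_iUnion]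
  rw [h1]
  refine isPreconnected_iUnion ?_ fun l => ?_
  · obtain ⟨x, hx⟩ := U_nonempty D
    exact ⟨x, mem_iInter.2 fun l => Or.inl hx⟩
  · rcases col_preconnected D δ l with h | ⟨h, ⟨x, hxU, hxc⟩⟩
    · rw [h, union_empty]; exact U_preconnected D
    · exact IsPreconnected.union x hxU hxc (U_preconnected D) h

/-- the points `a j` are outside small enlarged domains -/
theorem a_notMem_Ue : ∃ δ₀ > 0, ∀ j, D.a j ∉ D.Ue δ₀ := by
  have key : ∀ (j : Fin k) (l : Option (Fin k)), ∀ᶠ δ : ℝ in 𝓝[>] 0, D.a j ∉ D.col δ l := by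
    intro j l
    have h1 : ∃ δ₁ > 0, D.a j ∉ D.col δ₁ l := by
      by_cases hj : D.a j ∈ D.kap l '' ann2 D.ρ
      · obtain ⟨z, hz, hza⟩ := hj
        have hz1 : ‖z‖ < 1 := by
          rcases lt_trichotomy ‖z‖ 1 with h | h | h
          · exact h
          · exfalso
            apply D.a_mem j
            rw [← hza]
            exact D.circ_subset_closure l ⟨z, by simpa using h, rfl⟩
          · exfalso
            apply D.a_mem j
            rw [← hza]
            exact subset_closure ((D.mem_iff l z hz).2 h)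
        have hz0 : 0 < ‖z‖ := by
          have h2 := hz.1
          have h3 : 0 < D.ρ⁻¹ := inv_pos.2 (zero_lt_one.trans D.one_lt)
          linarith
        have hinv : 1 < ‖z‖⁻¹ := (one_lt_inv₀ hz0).2 hz1
        refine ⟨‖z‖⁻¹ - 1, by linarith, ?_⟩
        rintro ⟨u, hu, hua⟩
        have huz : u = z := by
          refine D.inj l (Pool.Agent.EN.ann2_mono (min_le_right _ _) hu) hz ?_
          rw [hua, hza]
        rw [huz] at hu
        have h4 : z ∈ ann2 ‖z‖⁻¹ := by
          refine Pool.Agent.EN.ann2_mono ?_ hu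
          refine (min_le_left _ _).trans ?_
          linarith
        have h5 := h4.1
        rw [inv_inv] at h5
        exact lt_irrefl _ h5
      · exact ⟨1, one_pos, fun h => hj (D.col_subset 1 l h)⟩
    obtain ⟨δ₁, hδ₁, h2⟩ := h1
    have h3 : ∀ᶠ δ : ℝ in 𝓝[>] 0, δ < δ₁ :=
      (eventually_lt_nhds hδ₁).filter_mono nhdsWithin_le_nhds
    filter_upwards [h3] with δ hδ h4
    exact h2 (D.col_mono hδ.le l h4)
  have h1 : ∀ᶠ δ : ℝ in 𝓝[>] 0, ∀ (j : Fin k) (l : Option (Fin k)), D.a j ∉ D.col δ l := by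
    rw [eventually_all]
    intro j
    rw [eventually_all]
    intro l
    exact key j l
  have h2 : ∀ᶠ δ : ℝ in 𝓝[>] 0, 0 < δ := self_mem_nhdsWithin
  obtain ⟨δ, h3, h4⟩ := (h1.and h2).exists
  refine ⟨δ, h4, fun j hj => ?_⟩
  rcases hj with hj | hj
  · exact D.a_mem j (subset_closure hj)
  · obtain ⟨l, hl⟩ := mem_iUnion.1 hj
    exact h3 j l hl

/-- the boundary curves are null sets -/
theorem circ_null (l : Option (Fin k)) : volume (D.circ l) = 0 := by
  refine addHaar_image_eq_zero_of_differentiableOn_of_addHaar_eq_zero volume ?_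
    (Measure.addHaar_sphere volume 0 1)
  exact ((D.holo l).mono (Pool.Agent.EN.sphere_subset_ann2 D.one_lt)).restrictScalars ℝ

end

end Pool.Agent.KA
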