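import Pool.Agent.Helper7.KE.A1
import Pool.Agent.Helper9.KA.A5a

set_option autoImplicit false

open MeasureTheory Set Filter Asymptotics Topology Metric
open scoped ComplexConjugate ENNReal

namespace Pool.Agent.KA

open Pool.Agent.Helper7.KE hiding HM PS Bv sfun FF tt lS
open Pool.Agent.EN (AJ ann ann2)

section
variable {k : ℕ} {D : AJ k} {τ δ : ℝ}

/-- `∂ρ_x/∂z = vv x`, `∂ρ_w/∂z̄ = vb w`, smoothness, and values on the circles -/
theorem rho_facts (h : HM D τ δ) (hτ : D.Good τ) (hδ : 0 < δ) (x : Fin k → ℝ) (w : Fin k → ℂ) :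
    ContDiffOn ℝ (⊤ : ℕ∞) (h.rho x) (D.Ue δ) ∧ ContDiffOn ℝ (⊤ : ℕ∞) (h.rhoC w) (D.Ue δ) ∧
    DifferentiableOn ℂ (h.vv x) (D.Ue δ) ∧
    (∀ z ∈ D.Ue δ, dz (fun u => (h.rho x u : ℂ)) z = h.vv x z) ∧
    (∀ z ∈ D.Ue δ, dzb (fun u => (h.rho x u : ℂ)) z = conj (h.vv x z)) ∧
    (∀ z ∈ D.Ue δ, dzb (h.rhoC w) z = h.vb w z) ∧
    (∀ z ∈ D.circ none, h.rho x z = 0 ∧ h.rhoC w z = 0) ∧
    ∀ j, ∀ z ∈ D.circ (some j), h.rho x z = x j ∧ h.rhoC w z = w j := by
  have hom : ∀ j, ContDiffOn ℝ (⊤ : ℕ∞) (fun z => (h.om j z : ℂ)) (D.Ue δ) := fun j =>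
    Complex.ofRealCLM.contDiff.comp_contDiffOn (h.smooth j)
  have homd : ∀ j, ∀ z ∈ D.Ue δ, DifferentiableAt ℝ (h.om j) z := fun j z hz =>
    ((h.smooth j).differentiableOn (by simp)).differentiableAt ((D.Ue_open δ).mem_nhds hz)
  have homC : ∀ j, ∀ z ∈ D.Ue δ, DifferentiableAt ℝ (fun z => (h.om j z : ℂ)) z := fun j z hz =>
    ((hom j).differentiableOn (by simp)).differentiableAt ((D.Ue_open δ).mem_nhds hz)
  have h1 : ContDiffOn ℝ (⊤ : ℕ∞) (h.rho x) (D.Ue δ) := by
    have : h.rho x = fun z => ∑ j, x j * h.om j z := rfl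
    rw [this]
    exact ContDiffOn.sum fun j _ => contDiffOn_const.mul (h.smooth j)
  have h2 : ContDiffOn ℝ (⊤ : ℕ∞) (h.rhoC w) (D.Ue δ) := by
    have : h.rhoC w = fun z => ∑ j, w j * (h.om j z : ℂ) := rfl
    rw [this]
    exact ContDiffOn.sum fun j _ => contDiffOn_const.mul (hom j)
  have hsum : ∀ (c : Fin k → ℂ), ∀ z ∈ D.Ue δ,
      dz (fun u => ∑ j, c j * (h.om j u : ℂ)) z = ∑ j, c j * h.v j z ∧
      dzb (fun u => ∑ j, c j * (h.om j u : ℂ)) z = ∑ j, c j * conj (h.v j z) := by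
    intro c z hz
    have e := dz_sum (Y := ℂ) Finset.univ (F := fun j u => c j * (h.om j u : ℂ)) (z := z)
      (fun j _ => (homC j z hz).const_mul (c j))
    have e2 : ∀ j, dz (fun u => c j * (h.om j u : ℂ)) z = c j * h.v j z ∧
        dzb (fun u => c j * (h.om j u : ℂ)) z = c j * conj (h.v j z) := by
      intro j
      have := dz_smul (Y := ℂ) (f := fun _ => c j) (F := fun u => (h.om j u : ℂ)) (z := z)
        (differentiableAt_const _) (homC j z hz)
      simp only [smul_eq_mul, (dz_const (Y := ℂ) (c := c j) (z := z)).1,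
        (dz_const (Y := ℂ) (c := c j) (z := z)).2, zero_mul, zero_add] at this
      rw [this.1, this.2, h.der j z hz, dzb_ofReal (homd j z hz), h.der j z hz]
      exact ⟨rfl, rfl⟩
    rw [e.1, e.2]
    exact ⟨Finset.sum_congr rfl fun j _ => (e2 j).1, Finset.sum_congr rfl fun j _ => (e2 j).2⟩
  have h4 : ∀ z ∈ D.Ue δ, dz (fun u => (h.rho x u : ℂ)) z = h.vv x z := by
    intro z hz
    have : (fun u => (h.rho x u : ℂ)) = fun u => ∑ j, (x j : ℂ) * (h.om j u : ℂ) := by
      funext u; simp [HM.rho]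
    rw [this, (hsum (fun j => (x j : ℂ)) z hz).1]
    rfl
  refine ⟨h1, h2, ?_, h4, ?_, ?_, ?_, ?_⟩
  · have : h.vv x = fun z => ∑ j, (x j : ℂ) * h.v j z := rfl
    rw [this]
    exact DifferentiableOn.fun_sum fun j _ => (h.hol j).const_mul _
  · intro z hz
    have hd : DifferentiableAt ℝ (h.rho x) z :=
      (h1.differentiableOn (by simp)).differentiableAt ((D.Ue_open δ).mem_nhds hz)
    rw [dzb_ofReal hd, h4 z hz]
  · intro z hz
    exact (hsum w z hz).2
  · intro z hz
    constructor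
    · simp [HM.rho, h.bd_none _ z hz]
    · simp [HM.rhoC, h.bd_none _ z hz]
  · intro j z hz
    constructor
    · simp [HM.rho, h.bd_some _ j z hz]
    · simp only [HM.rhoC, h.bd_some _ j z hz]
      rw [Finset.sum_eq_single j]
      · simp
      · intro b _ hb
        rw [if_neg (fun e => hb e.symm)]
        simp
      · intro hj
        exact absurd (Finset.mem_univ j) hj

end

section
variable {k : ℕ} (D : AJ k) {τ : ℝ}

theorem HM_mono {δ δ' : ℝ} (h : HM D τ δ) (hle : δ' ≤ δ) :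
    ∃ h' : HM D τ δ', h'.om = h.om ∧ h'.v = h.v ∧ h'.Rm = h.Rm := by
  have hsub : D.Ue δ' ⊆ D.Ue δ := D.Ue_mono hle
  exact ⟨{ om := h.om, v := h.v, Rm := h.Rm,
           smooth := fun j => (h.smooth j).mono hsub
           hol := fun j => (h.hol j).mono hsub
           der := fun j z hz => h.der j z (hsub hz)
           bd_none := h.bd_none
           bd_some := h.bd_some
           orth := h.orth
           res := h.res
           det_ne := h.det_ne
           gram := h.gram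
           chi_v := h.chi_v
           anot := fun j hj => h.anot j (hsub hj) }, rfl, rfl, rfl⟩

end

end Pool.Agent.KA
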