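import Pool.Agent.Helper9.KA.Defs
import Pool.Agent.Helper7.KE.C0a

set_option autoImplicit false

open MeasureTheory Set Filter Asymptotics Topology Metric
open scoped ComplexConjugate ENNReal

namespace Pool.Agent.KA

open Pool.Agent.Helper7.KE hiding HM PS Bv sfun FF tt lS
open Pool.Agent.EN (AJ)

theorem integral_rot (f : ℂ → ℂ) (r θ : ℝ) :
    ∫ w in ball (0 : ℂ) r, f (circleMap 0 1 θ * w) = ∫ w in ball (0 : ℂ) r, f w := by
  set c : Circle := Circle.exp θ with hc
  have hcm : circleMap 0 1 θ = (c : ℂ) := by simp [circleMap, c]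
  have h1 : MeasurePreserving (rotation c) (volume : Measure ℂ) volume :=
    (rotation c).measurePreserving
  have h2 := h1.setIntegral_preimage_emb (rotation c).toHomeomorph.measurableEmbedding f
    (ball (0 : ℂ) r)
  have h3 : (rotation c) ⁻¹' (ball (0 : ℂ) r) = ball (0 : ℂ) r := by
    rw [(rotation c).preimage_ball, map_zero]
  rw [h3] at h2
  simpa [rotation_apply, hcm] using h2

/-- mean value property over discs -/
theorem integral_ball_hol {g : ℂ → ℂ} {z : ℂ} {r : ℝ} {V : Set ℂ}
    (hV : IsOpen V) (hb : closedBall z r ⊆ V) (hg : DifferentiableOn ℂ g V) :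
    ∫ w in ball z r, g w = (volume (ball z r)).toReal * g z := by
  rcases le_or_gt r 0 with hr | hr
  · rw [ball_eq_empty.2 hr]; simp
  have hcont : ContinuousOn g V := hg.continuousOn
  -- translation
  have h1 : ∫ w in ball (0 : ℂ) r, g (z + w) = ∫ w in ball z r, g w := by
    have := (measurePreserving_add_left (volume : Measure ℂ) z).setIntegral_preimage_emb
      (measurableEmbedding_addLeft z) g (ball z r)
    rw [← this]
    congr 2
    ext w
    simp [dist_eq_norm]
  -- average over the circle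
  have h2 : ∀ w ∈ ball (0 : ℂ) r,
      ∫ θ in (0 : ℝ)..2 * Real.pi, g (z + circleMap 0 1 θ * w) = (2 * Real.pi : ℝ) * g z := by
    intro w hw
    have hw' : ‖w‖ < r := by simpa using hw
    have hV' : IsOpen {ζ : ℂ | z + ζ * w ∈ V} :=
      hV.preimage (by fun_prop : Continuous fun ζ : ℂ => z + ζ * w)
    have hd : DifferentiableOn ℂ (fun ζ => g (z + ζ * w)) {ζ : ℂ | z + ζ * w ∈ V} :=
      hg.comp (by fun_prop) fun ζ hζ => hζ
    have hsub : closedBall (0 : ℂ) 1 ⊆ {ζ : ℂ | z + ζ * w ∈ V} := by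
      intro ζ hζ
      apply hb
      have hζ' : ‖ζ‖ ≤ 1 := by simpa using hζ
      simp only [mem_closedBall, dist_eq_norm, add_sub_cancel_left, norm_mul]
      calc ‖ζ‖ * ‖w‖ ≤ 1 * ‖w‖ := by gcongr
        _ ≤ r := by linarith
    have hdc : DiffContOnCl ℂ (fun ζ => g (z + ζ * w)) (ball 0 |1|) := by
      rw [abs_one]
      apply DifferentiableOn.diffContOnCl
      rw [closure_ball _ one_ne_zero]
      exact hd.mono hsub
    have := hdc.circleAverage
    rw [Real.circleAverage_def] at this
    simp only [zero_mul, add_zero] at this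
    rw [← this, Complex.real_smul, ← mul_assoc]
    push_cast
    rw [mul_inv_cancel₀ (by simp [Real.pi_ne_zero]), one_mul]
  -- swap
  have hint : Integrable (Function.uncurry fun (θ : ℝ) (w : ℂ) => g (z + circleMap 0 1 θ * w))
      ((volume.restrict (Ioc 0 (2 * Real.pi))).prod (volume.restrict (ball (0 : ℂ) r))) := by
    rw [Measure.prod_restrict]
    have hc : ContinuousOn (Function.uncurry fun (θ : ℝ) (w : ℂ) => g (z + circleMap 0 1 θ * w))
        (Icc 0 (2 * Real.pi) ×ˢ closedBall (0 : ℂ) r) := by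
      apply hcont.comp (f := fun p : ℝ × ℂ => z + circleMap 0 1 p.1 * p.2)
      · exact (continuous_const.add
          (((continuous_circleMap 0 1).comp continuous_fst).mul continuous_snd)).continuousOn
      · intro p hp
        apply hb
        have : ‖p.2‖ ≤ r := by simpa using hp.2
        simpa [dist_eq_norm] using this
    have h3 : IntegrableOn _ (Icc 0 (2 * Real.pi) ×ˢ closedBall (0 : ℂ) r)
        ((volume : Measure ℝ).prod (volume : Measure ℂ)) :=
      hc.integrableOn_compact (isCompact_Icc.prod (isCompact_closedBall _ _))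
    exact h3.mono_set (prod_mono Ioc_subset_Icc_self ball_subset_closedBall)
  have h4 : ∫ θ in (0 : ℝ)..2 * Real.pi, ∫ w in ball (0 : ℂ) r, g (z + circleMap 0 1 θ * w)
      = ∫ w in ball (0 : ℂ) r, ∫ θ in (0 : ℝ)..2 * Real.pi, g (z + circleMap 0 1 θ * w) := by
    simp only [intervalIntegral.integral_of_le Real.two_pi_pos.le]
    exact integral_integral_swap hint
  have h5 : ∫ θ in (0 : ℝ)..2 * Real.pi, ∫ w in ball (0 : ℂ) r, g (z + circleMap 0 1 θ * w)
      = (2 * Real.pi : ℝ) * ∫ w in ball (0 : ℂ) r, g (z + w) := by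
    have : ∀ θ : ℝ, ∫ w in ball (0 : ℂ) r, g (z + circleMap 0 1 θ * w)
        = ∫ w in ball (0 : ℂ) r, g (z + w) := fun θ => integral_rot (fun w => g (z + w)) r θ
    simp only [this]
    rw [intervalIntegral.integral_const, sub_zero, Complex.real_smul]
  have h6 : ∫ w in ball (0 : ℂ) r, ∫ θ in (0 : ℝ)..2 * Real.pi, g (z + circleMap 0 1 θ * w)
      = (volume (ball z r)).toReal * ((2 * Real.pi : ℝ) * g z) := by
    rw [setIntegral_congr_fun measurableSet_ball h2, setIntegral_const, Complex.real_smul]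
    congr 2
    rw [measureReal_def, Measure.addHaar_ball_center volume z r]
  rw [← h1]
  have h7 : (2 * Real.pi : ℝ) * ∫ w in ball (0 : ℂ) r, g (z + w)
      = (2 * Real.pi : ℝ) * ((volume (ball z r)).toReal * g z) := by
    rw [← h5, h4, h6]; ring
  exact mul_left_cancel₀ (by simp [Real.pi_ne_zero]) h7


section
variable {k : ℕ} (D : AJ k)

theorem hol_unique {g g' : ℂ → ℂ} (hg : DifferentiableOn ℂ g D.U)
    (hg' : DifferentiableOn ℂ g' D.U) (h : g =ᵐ[volume.restrict D.U] g') :
    ∀ z ∈ D.U, g z = g' z :=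
  Measure.eqOn_open_of_ae_eq h D.U_open hg.continuousOn hg'.continuousOn

theorem berg_of_hol2 {g : ℂ → ℂ} (hg : D.Hol2 g) {f : D.L2} (hf : f =ᵐ[volume.restrict D.U] g) :
    f ∈ D.Berg :=
  Submodule.le_topologicalClosure _ ⟨g, hg.diff, hf⟩

/-- functions holomorphic near the closed domain are square integrable -/
theorem hol2_of_nhds {g : ℂ → ℂ} {V : Set ℂ} (hV : IsOpen V) (hcV : D.cU ⊆ V)
    (hg : DifferentiableOn ℂ g V) : D.Hol2 g where
  diff := hg.mono (D.U_subset_cU.trans hcV)
  memLp := by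
    have hc : ContinuousOn g D.cU := hg.continuousOn.mono hcV
    obtain ⟨C, hC⟩ := D.cU_compact.exists_bound_of_continuousOn hc
    have hm : AEStronglyMeasurable g (volume.restrict D.U) :=
      (hc.mono D.U_subset_cU).aestronglyMeasurable D.U_open.measurableSet
    refine MemLp.of_bound hm C ?_
    filter_upwards [ae_restrict_mem D.U_open.measurableSet] with z hz
    exact hC z (D.U_subset_cU hz)

/-- a radius function for the evaluation functionals -/
noncomputable def evr (z : ℂ) : ℝ := infDist z (D.U)ᶜ / 2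

theorem U_compl_nonempty : ((D.U)ᶜ).Nonempty := by
  obtain ⟨R, hR, hs⟩ := D.U_subset_ball
  refine ⟨(R : ℂ), fun h => ?_⟩
  have := hs h
  rw [mem_ball_zero_iff, Complex.norm_real, Real.norm_eq_abs, abs_of_pos hR] at this
  exact lt_irrefl _ this

theorem evr_pos {z : ℂ} (hz : z ∈ D.U) : 0 < evr D z := by
  have h := (D.U_open.isClosed_compl.notMem_iff_infDist_pos (U_compl_nonempty D)).1
    (fun h => h hz : z ∉ (D.U)ᶜ)
  unfold evr; linarith

theorem evr_ball (z : ℂ) : closedBall z (evr D z) ⊆ D.U ∨ evr D z ≤ 0 := by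
  rcases le_or_gt (evr D z) 0 with h | h
  · exact Or.inr h
  · left
    refine (closedBall_subset_ball (?_ : evr D z < infDist z (D.U)ᶜ)).trans
      ball_infDist_compl_subset
    unfold evr at h ⊢; linarith

theorem evr_continuous : Continuous (evr D) := (continuous_infDist_pt _).div_const 2

/-- the evaluation vector -/
noncomputable def evec (z : ℂ) : D.L2 :=
  indicatorConstLp 2 (μ := volume.restrict D.U) (measurableSet_ball (x := z) (ε := evr D z))
    (measure_ne_top _ _) (((volume (ball z (evr D z))).toReal⁻¹ : ℝ) : ℂ)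

/-- the evaluation functional on `L²` -/
noncomputable def evL (z : ℂ) : D.L2 →L[ℂ] ℂ := innerSL ℂ (evec D z)

theorem evL_apply (z : ℂ) (f : D.L2) :
    evL D z f = (((volume (ball z (evr D z))).toReal⁻¹ : ℝ) : ℂ) *
      ∫ w in ball z (evr D z), (f : ℂ → ℂ) w ∂(volume.restrict D.U) := by
  rw [evL, innerSL_apply_apply, evec, L2.inner_indicatorConstLp_eq_inner_setIntegral]
  rw [RCLike.inner_apply, Complex.conj_ofReal, mul_comm]

theorem evL_norm {z : ℂ} (hz : z ∈ D.U) : ‖evL D z‖ ≤ ((volume (ball z (evr D z))).toReal)⁻¹ *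
    (volume (ball z (evr D z))).toReal ^ (1 / 2 : ℝ) := by
  have h0 := evr_pos D hz
  have hsub : ball z (evr D z) ⊆ D.U := ball_subset_closedBall.trans
    ((evr_ball D z).resolve_right (by linarith))
  rw [evL, innerSL_apply_norm, evec, norm_indicatorConstLp (by norm_num) (by norm_num)]
  rw [Complex.norm_real, Real.norm_eq_abs, abs_of_nonneg (by positivity), measureReal_def,
    Measure.restrict_apply measurableSet_ball, inter_eq_left.2 hsub]
  norm_num

theorem evL_hol {z : ℂ} (hz : z ∈ D.U) {g : ℂ → ℂ} (hg : DifferentiableOn ℂ g D.U) {f : D.L2}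
    (hf : f =ᵐ[volume.restrict D.U] g) : evL D z f = g z := by
  have h0 := evr_pos D hz
  have hsub : closedBall z (evr D z) ⊆ D.U := (evr_ball D z).resolve_right (by linarith)
  have hsub' : ball z (evr D z) ⊆ D.U := ball_subset_closedBall.trans hsub
  have hr : (volume.restrict D.U).restrict (ball z (evr D z)) =
      volume.restrict (ball z (evr D z)) := by
    rw [Measure.restrict_restrict measurableSet_ball, inter_eq_left.2 hsub']
  have hpos : 0 < (volume (ball z (evr D z))).toReal :=
    ENNReal.toReal_pos (measure_ball_pos _ _ h0).ne' measure_ball_lt_top.ne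
  rw [evL_apply, integral_congr_ae (ae_restrict_of_ae hf), hr,
    integral_ball_hol D.U_open hsub hg, ← mul_assoc, ← Complex.ofReal_mul,
    inv_mul_cancel₀ hpos.ne', Complex.ofReal_one, one_mul]

/-- the norms of the evaluation functionals are locally bounded -/
theorem evL_bdd {K : Set ℂ} (hK : IsCompact K) (hKU : K ⊆ D.U) :
    ∃ C : ℝ, ∀ z ∈ K, ‖evL D z‖ ≤ C := by
  rcases K.eq_empty_or_nonempty with rfl | hne
  · exact ⟨0, by simp⟩
  obtain ⟨z₀, hz₀, hmin⟩ := hK.exists_isMinOn hne (evr_continuous D).continuousOn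
  have h0 : 0 < evr D z₀ := evr_pos D (hKU hz₀)
  set v : ℝ := (volume (ball (0 : ℂ) (evr D z₀))).toReal with hv
  have hvpos : 0 < v := ENNReal.toReal_pos (measure_ball_pos _ _ h0).ne' measure_ball_lt_top.ne
  refine ⟨(v ^ (1 / 2 : ℝ))⁻¹, fun z hz => ?_⟩
  have hle : evr D z₀ ≤ evr D z := hmin hz
  have h1 : v ≤ (volume (ball z (evr D z))).toReal := by
    rw [hv]
    refine ENNReal.toReal_mono measure_ball_lt_top.ne ?_
    rw [← Measure.addHaar_ball_center volume z]
    exact measure_mono (ball_subset_ball hle)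
  refine (evL_norm D (hKU hz)).trans ?_
  set t : ℝ := (volume (ball z (evr D z))).toReal with ht
  have htpos : 0 < t := hvpos.trans_le h1
  have h2 : t⁻¹ * t ^ (1 / 2 : ℝ) = (t ^ (1 / 2 : ℝ))⁻¹ := by
    have : t = t ^ (1 / 2 : ℝ) * t ^ (1 / 2 : ℝ) := by
      rw [← Real.rpow_add htpos]; norm_num
    apply eq_inv_of_mul_eq_one_left
    rw [mul_assoc, ← this, inv_mul_cancel₀ htpos.ne']
  rw [h2]
  exact inv_anti₀ (Real.rpow_pos_of_pos hvpos _) (Real.rpow_le_rpow hvpos.le h1 (by norm_num))

/-- elements of the Bergman space are represented by their evaluations -/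
theorem berg_main {f : D.L2} (hf : f ∈ D.Berg) :
    DifferentiableOn ℂ (fun z => evL D z f) D.U ∧
      f =ᵐ[volume.restrict D.U] fun z => evL D z f := by
  have hf' : f ∈ closure (D.BergPre : Set D.L2) := hf
  obtain ⟨u, hu, hlim⟩ := mem_closure_iff_seq_limit.1 hf'
  have hrep : ∀ n, DifferentiableOn ℂ (fun z => evL D z (u n)) D.U ∧
      u n =ᵐ[volume.restrict D.U] fun z => evL D z (u n) := by
    intro n
    obtain ⟨g, hg, he⟩ := hu n
    have heq : ∀ z ∈ D.U, evL D z (u n) = g z := fun z hz => evL_hol D hz hg he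
    refine ⟨hg.congr heq, ?_⟩
    filter_upwards [he, ae_restrict_mem D.U_open.measurableSet] with z hz hzU
    rw [hz, heq z hzU]
  have hunif : TendstoLocallyUniformlyOn (fun n z => evL D z (u n)) (fun z => evL D z f) atTop
      D.U := by
    rw [tendstoLocallyUniformlyOn_iff_forall_isCompact D.U_open]
    intro K hKU hK
    obtain ⟨C, hC⟩ := evL_bdd D hK hKU
    rw [Metric.tendstoUniformlyOn_iff]
    intro ε hε
    have hC' : 0 < max C 0 + 1 := by positivity
    have := (Metric.tendsto_atTop.1 hlim) (ε / (max C 0 + 1)) (by positivity)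
    obtain ⟨n₀, hn₀⟩ := this
    filter_upwards [eventually_ge_atTop n₀] with n hn z hz
    rw [dist_eq_norm, ← map_sub]
    calc ‖evL D z (f - u n)‖ ≤ ‖evL D z‖ * ‖f - u n‖ := (evL D z).le_opNorm _
      _ ≤ (max C 0 + 1) * ‖f - u n‖ := by
          gcongr
          exact (hC z hz).trans (by linarith [le_max_left C 0])
      _ < (max C 0 + 1) * (ε / (max C 0 + 1)) := by
          gcongr
          have := hn₀ n hn
          rwa [dist_comm, dist_eq_norm] at this
      _ = ε := by field_simp
  refine ⟨hunif.differentiableOn (Eventually.of_forall fun n => (hrep n).1) D.U_open, ?_⟩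
  have hmeas : TendstoInMeasure (volume.restrict D.U) (fun n => (u n : ℂ → ℂ)) atTop f :=
    tendstoInMeasure_of_tendsto_Lp hlim
  obtain ⟨ns, hns, hae⟩ := hmeas.exists_seq_tendsto_ae
  have hall : ∀ᵐ z ∂(volume.restrict D.U), ∀ n, (u n : ℂ → ℂ) z = evL D z (u n) :=
    ae_all_iff.2 fun n => (hrep n).2
  filter_upwards [hae, hall, ae_restrict_mem D.U_open.measurableSet] with z h1 h2 h3
  have h4 : Tendsto (fun n => evL D z (u (ns n))) atTop (𝓝 (evL D z f)) :=
    (((evL D z).continuous.tendsto f).comp hlim).comp hns.tendsto_atTop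
  refine tendsto_nhds_unique h1 ?_
  simpa only [h2] using h4

/-- every element of `Berg` has a holomorphic representative -/
theorem berg_rep {f : D.L2} (hf : f ∈ D.Berg) :
    ∃ g : ℂ → ℂ, D.Hol2 g ∧ f =ᵐ[volume.restrict D.U] g := by
  obtain ⟨h1, h2⟩ := berg_main D hf
  exact ⟨_, ⟨h1, (memLp_congr_ae h2).1 (Lp.memLp f)⟩, h2⟩

/-- evaluation functionals; they depend holomorphically on the point -/
theorem berg_ev : ∃ ev : ℂ → (D.Berg →L[ℂ] ℂ), DifferentiableOn ℂ ev D.U ∧
    ∀ g : D.Berg, ((g : D.L2) : ℂ → ℂ) =ᵐ[volume.restrict D.U] fun z => ev z g := by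
  refine ⟨fun z => (evL D z).comp D.Berg.subtypeL, weak_hol D.U_open fun x => ?_, fun g => ?_⟩
  · exact (berg_main D x.2).1
  · exact (berg_main D g.2).2

/-- inner products with elements of `Berg` -/
theorem P_eq_zero_iff (u : D.L2) :
    D.P u = 0 ↔ ∀ g : ℂ → ℂ, D.Hol2 g → ∫ z in D.U, (u : ℂ → ℂ) z * conj (g z) = 0 := by
  have hin : ∀ (f : D.L2) (g : ℂ → ℂ), f =ᵐ[volume.restrict D.U] g →
      inner ℂ f u = ∫ z in D.U, (u : ℂ → ℂ) z * conj (g z) := by
    intro f g hfg
    rw [L2.inner_def]
    refine integral_congr_ae ?_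
    filter_upwards [hfg] with z hz
    rw [RCLike.inner_apply, hz]
  show D.Berg.orthogonalProjectionOnto u = 0 ↔ _
  rw [Submodule.orthogonalProjectionOnto_eq_zero_iff, Submodule.mem_orthogonal]
  constructor
  · intro h g hg
    have hf := hg.memLp.coeFn_toLp
    rw [← hin _ g hf]
    exact h _ (berg_of_hol2 D hg hf)
  · intro h f hf
    obtain ⟨g, hg, he⟩ := berg_rep D hf
    rw [hin f g he]
    exact h g hg

end

end Pool.Agent.KA
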