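import Pool.Agent.Helper9.KA.D5a
import Pool.Agent.Helper9.KA.A5b
import Pool.Agent.Helper9.KA.C1

set_option autoImplicit false

open MeasureTheory Set Filter Asymptotics Topology Metric
open scoped ComplexConjugate ENNReal

namespace Pool.Agent.KA

open Pool.Agent.Helper7.KE hiding HM PS Bv sfun FF tt lS
open Pool.Agent.EN (AJ ann ann2)

section
variable {k : ℕ} {D : AJ k} {τ δ : ℝ}

theorem D5b_integrable {f : ℂ → ℂ} (hf : ContinuousOn f D.cU) : IntegrableOn f D.U :=
  (hf.integrableOn_compact D.cU_compact).mono_set D.U_subset_cU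

theorem D5b_v_cont (h : HM D τ δ) (hδ : 0 < δ) (j : Fin k) : ContinuousOn (h.v j) D.cU :=
  (h.hol j).continuousOn.mono (D.cU_subset_Ue hδ)

theorem D5b_vv_cont (h : HM D τ δ) (hδ : 0 < δ) (x : Fin k → ℝ) :
    ContinuousOn (h.vv x) D.cU :=
  continuousOn_finsetSum _ fun j _ => continuousOn_const.mul (D5b_v_cont h hδ j)

theorem D5b_dzb_chi_cont (hτ : D.Good τ) (l : Option (Fin k)) :
    Continuous (dzb (fun w => (D.chi τ l w : ℂ))) := by
  have h1 : ContDiff ℝ (⊤ : ℕ∞) (fun w => (D.chi τ l w : ℂ)) :=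
    Complex.ofRealCLM.contDiff.comp (chi_smooth D hτ l)
  have h2 : Continuous (fderiv ℝ (fun w => (D.chi τ l w : ℂ))) :=
    h1.continuous_fderiv (by simp)
  unfold dzb
  fun_prop

/-- complex combinations of the `v_j` are linearly independent -/
theorem v_indep (h : HM D τ δ) (hτ : D.Good τ) (hδ : 0 < δ) (c : Fin k → ℂ)
    (hc : ∀ z ∈ D.U, ∑ j, c j * h.v j z = 0) : c = 0 := by
  have key : ∀ l, ∑ j, (h.Rm l j : ℂ) * c j = 0 := by
    intro l
    have h1 : ∀ j, D.res τ l (h.v j) = -(1 / (Real.pi : ℂ)) *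
        ∫ z in D.U, h.v j z * dzb (fun w => (D.chi τ (some l) w : ℂ)) z := fun j => rfl
    have h2 : ∑ j, c j * ∫ z in D.U, h.v j z * dzb (fun w => (D.chi τ (some l) w : ℂ)) z = 0 := by
      have h3 : ∀ j, c j * ∫ z in D.U, h.v j z * dzb (fun w => (D.chi τ (some l) w : ℂ)) z
          = ∫ z in D.U, c j * (h.v j z * dzb (fun w => (D.chi τ (some l) w : ℂ)) z) := by
        intro j
        rw [integral_const_mul]
      simp_rw [h3]
      rw [← integral_finsetSum]
      · rw [← integral_zero]
        apply setIntegral_congr_fun D.U_open.measurableSet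
        intro z hz
        have := hc z hz
        simp only
        calc ∑ j, c j * (h.v j z * dzb (fun w => (D.chi τ (some l) w : ℂ)) z)
            = (∑ j, c j * h.v j z) * dzb (fun w => (D.chi τ (some l) w : ℂ)) z := by
              rw [Finset.sum_mul]; exact Finset.sum_congr rfl fun j _ => by ring
          _ = 0 := by rw [this, zero_mul]
      · intro j _
        exact (D5b_integrable ((D5b_v_cont h hδ j).mul
          (D5b_dzb_chi_cont hτ (some l)).continuousOn)).const_mul _
    have h4 : ∀ j, (h.Rm l j : ℂ) * c j = (-(1 / (Real.pi : ℂ))) *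
        (c j * ∫ z in D.U, h.v j z * dzb (fun w => (D.chi τ (some l) w : ℂ)) z) := by
      intro j
      rw [← h.res l j, h1]; ring
    simp_rw [h4]
    rw [← Finset.mul_sum, h2, mul_zero]
  have hdet : (h.Rm.map (fun x : ℝ => (x : ℂ))).det ≠ 0 := by
    have : (h.Rm.map (fun x : ℝ => (x : ℂ))).det = ((h.Rm.det : ℝ) : ℂ) := by
      exact (Complex.ofRealHom.map_det h.Rm).symm
    rw [this]
    exact Complex.ofReal_ne_zero.2 h.det_ne
  apply Matrix.eq_zero_of_mulVec_eq_zero hdet
  ext l
  simpa [Matrix.mulVec, dotProduct] using key l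

/-- `∂ρ_x/∂z` is not identically zero for `x ≠ 0`, and has finitely many zeros in the closed
domain -/
theorem vv_zeros (h : HM D τ δ) (hτ : D.Good τ) (hδ : 0 < δ) (hδτ : δ ≤ τ) {x : Fin k → ℝ}
    (hx : x ≠ 0) : {z | z ∈ D.cU ∧ h.vv x z = 0}.Finite ∧ (∃ z ∈ D.U, h.vv x z ≠ 0) := by
  have hex : ∃ z ∈ D.U, h.vv x z ≠ 0 := by
    by_contra hcon
    push Not at hcon
    apply hx
    have := v_indep h hτ hδ (fun j => (x j : ℂ)) hcon
    ext j
    have := congrFun this j
    simpa using this
  refine ⟨?_, hex⟩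
  by_contra hinf
  have hpre : IsPreconnected (D.Ue δ) := Ue_preconnected D δ
  have hcU := D.cU_subset_Ue hδ
  obtain ⟨-, -, hdiff, -⟩ := rho_facts h hτ hδ x 0
  have han : AnalyticOnNhd ℂ (h.vv x) (D.Ue δ) := hdiff.analyticOnNhd (D.Ue_open δ)
  obtain ⟨z₀, hz₀, hacc⟩ := Set.Infinite.exists_accPt_of_subset_isCompact
    (show {z | z ∈ D.cU ∧ h.vv x z = 0}.Infinite from hinf) D.cU_compact (fun z hz => hz.1)
  have hfreq : ∃ᶠ z in 𝓝[≠] z₀, h.vv x z = 0 := by
    rw [accPt_iff_frequently_nhdsNE] at hacc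
    exact hacc.mono fun z hz => hz.2
  have hz := han.eqOn_zero_of_preconnected_of_frequently_eq_zero hpre (hcU hz₀) hfreq
  obtain ⟨z, hzU, hne⟩ := hex
  exact hne (hz (hcU (D.U_subset_cU hzU)))

/-- the squared norm of `vv x` and the pairing with the boundary data -/
theorem vv_pairing (h : HM D τ δ) (hτ : D.Good τ) (hδ : 0 < δ) {e e' : Fin k → ℝ} (he : e ≠ 0) :
    ∑ j, ((e' j : ℂ) + Complex.I * e j) *
      ∫ z in D.U, h.vv e z * dzb (fun w => (D.chi τ (some j) w : ℂ)) z ≠ 0 := by
  obtain ⟨-, -, hdiff, -⟩ := rho_facts h hτ hδ e 0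
  have hcU := D.cU_subset_Ue hδ
  have hH : D.Hol2 (h.vv e) := hol2_of_nhds D (D.Ue_open δ) hcU hdiff
  have hex : ∃ z ∈ D.U, h.vv e z ≠ 0 := by
    by_contra hcon
    push Not at hcon
    apply he
    have := v_indep h hτ hδ (fun j => (e j : ℂ)) hcon
    ext j
    have := congrFun this j
    simpa using this
  simp_rw [← h.chi_v _ _ hH]
  -- the inner products are real
  have hint : ∀ i j, IntegrableOn (fun z => h.v i z * conj (h.v j z)) D.U := fun i j =>
    D5b_integrable ((D5b_v_cont h hδ i).mul (Complex.continuous_conj.comp_continuousOn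
      (D5b_v_cont h hδ j)))
  have hreal : ∀ j, ∃ y : ℝ, ∫ z in D.U, h.vv e z * conj (h.v j z) = y := by
    intro j
    choose y hy using fun i => h.gram i j
    refine ⟨∑ i, e i * y i, ?_⟩
    have h1 : ∫ z in D.U, h.vv e z * conj (h.v j z)
        = ∫ z in D.U, ∑ i, (e i : ℂ) * (h.v i z * conj (h.v j z)) := by
      apply setIntegral_congr_fun D.U_open.measurableSet
      intro z _
      simp only [HM.vv]
      rw [Finset.sum_mul]
      exact Finset.sum_congr rfl fun i _ => by ring
    rw [h1, integral_finsetSum]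
    · simp_rw [integral_const_mul, hy]
      push_cast
      rfl
    · intro i _
      exact (hint i j).const_mul _
  choose y hy using hreal
  have hsum : ((∑ j, e j * y j : ℝ) : ℂ) = ∫ z in D.U, ((‖h.vv e z‖ ^ 2 : ℝ) : ℂ) := by
    push_cast
    simp_rw [← hy, ← integral_const_mul]
    rw [← integral_finsetSum]
    · apply setIntegral_congr_fun D.U_open.measurableSet
      intro z _
      simp only
      have : ∑ j, (e j : ℂ) * (h.vv e z * conj (h.v j z)) = h.vv e z * conj (h.vv e z) := by
        rw [HM.vv, map_sum, Finset.mul_sum]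
        refine Finset.sum_congr rfl fun j _ => ?_
        rw [map_mul, Complex.conj_ofReal]
        ring
      rw [this, Complex.mul_conj, Complex.normSq_eq_norm_sq]
      push_cast
      rfl
    · intro j _
      exact (D5b_integrable ((D5b_vv_cont h hδ e).mul (Complex.continuous_conj.comp_continuousOn
        (D5b_v_cont h hδ j)))).const_mul _
  have hpos : (∑ j, e j * y j : ℝ) ≠ 0 := by
    intro h0
    rw [h0, integral_complex_ofReal] at hsum
    have h1 : ∫ z in D.U, ‖h.vv e z‖ ^ 2 = 0 := by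
      have := hsum.symm
      simpa using this
    have hcont : ContinuousOn (fun z => ‖h.vv e z‖ ^ 2) D.cU :=
      (D5b_vv_cont h hδ e).norm.pow 2
    have hi : IntegrableOn (fun z => ‖h.vv e z‖ ^ 2) D.U :=
      (hcont.integrableOn_compact D.cU_compact).mono_set D.U_subset_cU
    rw [integral_eq_zero_iff_of_nonneg_ae (Eventually.of_forall fun z => by positivity) hi] at h1
    obtain ⟨z, hzU, hne⟩ := hex
    have h2 := hol_unique D hH.diff (differentiableOn_const (0 : ℂ)) (by
      filter_upwards [h1] with z hz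
      have : ‖h.vv e z‖ ^ 2 = 0 := hz
      simpa using this) z hzU
    exact hne h2
  intro h0
  apply hpos
  simp_rw [hy] at h0
  have := congrArg Complex.im h0
  simpa [Complex.im_sum] using this

end

end Pool.Agent.KA
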