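import Pool.Agent.Helper7.KE.B3
import Pool.Agent.Helper7.KE.B5
import Pool.Agent.Helper7.KE.B4a
import Pool.Agent.Helper9.KA.A2b
import Pool.Agent.Helper9.KA.A5a
import Pool.Agent.Helper9.KA.D5a
import Pool.Agent.Helper9.KA.D5b

set_option autoImplicit false

open MeasureTheory Set Filter Asymptotics Topology Metric
open scoped ComplexConjugate ENNReal

namespace Pool.Agent.KA

open Pool.Agent.Helper7.KE hiding HM PS Bv sfun FF tt lS
open Pool.Agent.EN (AJ ann ann2)

namespace B4x

/-- the field `w ∂` is tangent to the boundary curve, in the chart -/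
lemma tangent {f κ : ℂ → ℂ} {θ : ℝ} {f' : ℂ}
    (hκ : DifferentiableAt ℂ κ (Complex.exp (θ * Complex.I)))
    (hκ' : deriv κ (Complex.exp (θ * Complex.I)) ≠ 0)
    (hf : HasDerivAt f f' (κ (Complex.exp (θ * Complex.I))))
    (h0 : ∀ᶠ φ : ℝ in 𝓝 θ, (f (κ (Complex.exp (φ * Complex.I)))).re = 0)
    {w : ℂ} (hw : f' * w = f (κ (Complex.exp (θ * Complex.I)))) (hf' : f' ≠ 0) :
    ((Complex.exp (-(θ * Complex.I)) * conj (deriv κ (Complex.exp (θ * Complex.I)))) * w).re
      = 0 := by
  set ζ := Complex.exp (θ * Complex.I) with hζ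
  set K := deriv κ ζ with hK
  have hγ : HasDerivAt (fun φ : ℝ => Complex.exp (φ * Complex.I)) (ζ * Complex.I) θ := by
    have h1 : HasDerivAt (fun φ : ℝ => (φ : ℂ) * Complex.I) (1 * Complex.I) θ :=
      (Complex.ofRealCLM.hasDerivAt (x := θ)).mul_const Complex.I
    have h2 := h1.cexp
    rw [one_mul] at h2
    exact h2
  have hκd : HasDerivAt (fun φ : ℝ => κ (Complex.exp (φ * Complex.I)))
      (K * (ζ * Complex.I)) θ := hκ.hasDerivAt.comp θ hγ
  have h1 : HasDerivAt (fun φ : ℝ => f (κ (Complex.exp (φ * Complex.I))))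
      (f' * (K * (ζ * Complex.I))) θ := hf.comp θ hκd
  have h2 : HasDerivAt (fun φ : ℝ => (f (κ (Complex.exp (φ * Complex.I)))).re)
      (f' * (K * (ζ * Complex.I))).re θ :=
    Complex.reCLM.hasFDerivAt.comp_hasDerivAt θ h1
  have h3 : HasDerivAt (fun φ : ℝ => (f (κ (Complex.exp (φ * Complex.I)))).re) 0 θ :=
    (hasDerivAt_const θ (0 : ℝ)).congr_of_eventuallyEq h0
  have h4 := h2.unique h3
  have hζ0 : ζ ≠ 0 := Complex.exp_ne_zero _
  set A := f' * K * ζ with hA
  have h5 : f' * (K * (ζ * Complex.I)) = A * Complex.I := by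
    rw [hA]; ring
  rw [h5, Complex.mul_I_re] at h4
  have hAim : A.im = 0 := by linarith
  have hAne : A ≠ 0 := mul_ne_zero (mul_ne_zero hf' hκ') hζ0
  have hAre : A.re ≠ 0 := by
    intro h6
    exact hAne (Complex.ext h6 hAim)
  have h7 : A * ((Complex.exp (-(θ * Complex.I)) * conj K) * w) =
      ((Complex.normSq K : ℝ) : ℂ) * f (κ ζ) := by
    rw [hA, ← hw, Complex.exp_neg, ← hζ, ← Complex.mul_conj]
    field_simp
  have h8 := congrArg Complex.re h7
  rw [Complex.mul_re, hAim, zero_mul, sub_zero, Complex.re_ofReal_mul, h0.self_of_nhds,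
    mul_zero] at h8
  rcases mul_eq_zero.1 h8 with h9 | h9
  · exact absurd h9 hAre
  · exact h9

lemma scalar_zero {θ : ℝ} {K w : ℂ}
    (h : ((Complex.exp (-(θ * Complex.I)) * conj K) * w).re = 0) :
    (Complex.exp (-(θ * Complex.I)) * conj K) * w +
      (Complex.exp (θ * Complex.I) * K) * conj w = 0 := by
  have h1 : (Complex.exp (θ * Complex.I) * K) * conj w =
      conj ((Complex.exp (-(θ * Complex.I)) * conj K) * w) := by
    rw [map_mul, map_mul, ← Complex.exp_conj, Complex.conj_conj, map_neg, map_mul,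
      Complex.conj_ofReal, Complex.conj_I]
    congr 3
    ring
  rw [h1, Complex.add_conj, h]
  simp

section
variable {k : ℕ} (D : AJ k)

lemma exp_mem (θ : ℝ) : Complex.exp (θ * Complex.I) ∈ ann2 D.ρ :=
  Pool.Agent.EN.sphere_subset_ann2 D.one_lt (by simp [Complex.norm_exp_ofReal_mul_I])

lemma continuous_kap (l : Option (Fin k)) :
    Continuous fun θ : ℝ => D.kap l (Complex.exp (θ * Complex.I)) :=
  (D.holo l).continuousOn.comp_continuous (by fun_prop) (exp_mem D)

lemma continuous_deriv_kap (l : Option (Fin k)) :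
    Continuous fun θ : ℝ => deriv (D.kap l) (Complex.exp (θ * Complex.I)) :=
  ((D.holo l).deriv (Pool.Agent.EN.isOpen_ann2' _)).continuousOn.comp_continuous (by fun_prop)
    (exp_mem D)

lemma circ_closed (l : Option (Fin k)) : IsClosed (D.circ l) :=
  ((isCompact_sphere (0 : ℂ) 1).image_of_continuousOn
    ((D.holo l).continuousOn.mono (Pool.Agent.EN.sphere_subset_ann2 D.one_lt))).isClosed

end

end B4x

open Pool.Agent.Helper7.KE.B4aux

/-- KE-B4a: local expansions near every point -/
theorem local_PS {k : ℕ} (D : AJ k) {τ δ : ℝ} (hτ : D.Good τ) (hδ : 0 < δ) (hδτ : δ ≤ τ)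
    (h : HM D τ δ) (x : Fin k → ℝ) (hx : x ≠ 0) {ι : Type} [Fintype ι] [DecidableEq ι]
    (ps : PS D (h.rho x) ι) {κ : ℝ} (hκ : 0 < κ) (hκ' : Irrational κ) (i : ι) (p : ℂ) (hp : p ∈ D.cU)
    (hpi : p ∈ tsupport (ps.chi i)) :
    ∃ ε > 0, ball p ε ⊆ D.Ue δ ∧ ∃ s : Finset (ℝ × ℕ), GoodScale κ s ∧
      ∀ (Y : Type) [NormedAddCommGroup Y] [NormedSpace ℂ Y] [CompleteSpace Y] (G : ℂ → Y),
        IsTest (ball p ε) G →
        HasExp s κ (fun N : ℝ => ∫ z in D.U,
          Complex.exp (Complex.I * (N * (h.rho x z - ps.c i) : ℝ)) • G z) := by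
  classical
  obtain ⟨hρs, _, hvd, hdz, _, _, _, _⟩ := rho_facts h hτ hδ x 0
  have hV := D.Ue_open δ
  have hpe : p ∈ D.Ue δ := D.cU_subset_Ue hδ hp
  have hne : ¬ ∀ᶠ z in 𝓝 p, h.vv x z = 0 := by
    intro hev
    obtain ⟨t, htsub, hto, hpt⟩ := _root_.eventually_nhds_iff.1 hev
    obtain ⟨z, hzt, hzU⟩ := mem_closure_iff.1 hp t hto hpt
    have h1 : (t ∩ D.U) ∈ 𝓝 z := (hto.inter D.U_open).mem_nhds ⟨hzt, hzU⟩
    have h2 := infinite_of_mem_nhds z h1
    exact h2 ((vv_zeros h hτ hδ hδτ hx).1.subset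
      (fun w hw => ⟨D.U_subset_cU hw.2, htsub w hw.1⟩))
  obtain ⟨m, ε0, f, u, u₁, hm, hε0, hb0, hu, hu₁, hune, hu₁ne, hfu, hfd, hfre⟩ :=
    exists_data hV hvd hρs hdz hpe hne
  -- common facts on smaller balls
  have hsm : ∀ ε : ℝ, ball p ε ⊆ ball p ε0 →
      ContDiffOn ℝ (⊤ : ℕ∞) (fun z => (((f z).re : ℝ) : ℂ)) (ball p ε) ∧
      ContDiffOn ℝ (⊤ : ℕ∞) (fun z => (z - p) * u z / u₁ z) (ball p ε) ∧
      ContDiffOn ℝ (⊤ : ℕ∞) (fun z => conj ((z - p) * u z / u₁ z)) (ball p ε) := by
    intro ε hε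
    have hf1 : ContDiffOn ℝ (⊤ : ℕ∞) f (ball p ε) := hol_contDiffOn isOpen_ball
      (fun z hz => (hfd z (hε hz)).differentiableAt.differentiableWithinAt)
    have hw1 : ContDiffOn ℝ (⊤ : ℕ∞) (fun z => (z - p) * u z / u₁ z) (ball p ε) := by
      refine hol_contDiffOn isOpen_ball ?_
      refine DifferentiableOn.div ?_ (hu₁.mono hε) (fun z hz => hu₁ne z (hε hz))
      exact ((differentiableOn_id).sub_const p).mul (hu.mono hε)
    refine ⟨?_, hw1, ?_⟩
    · exact (Complex.ofRealCLM.contDiff.comp Complex.reCLM.contDiff).comp_contDiffOn hf1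
    · exact (Complex.conjCLE.contDiff).comp_contDiffOn hw1
  rcases (mem_cU_iff D p).1 hp with hpU | ⟨l, hl⟩
  · obtain ⟨ε1, hε1, hb1⟩ := Metric.isOpen_iff.1 D.U_open p hpU
    by_cases hvp : h.vv x p = 0
    · -- critical point in the domain
      have hcp : h.rho x p = ps.c i := ps.val_crit i p ⟨hpi, hp⟩ (by rw [hdz p hpe]; exact hvp)
      obtain ⟨s, hs, hexp⟩ := local_expansion hm hκ hκ'
      have hε : 0 < min ε0 ε1 := lt_min hε0 hε1
      have hbb0 : ball p (min ε0 ε1) ⊆ ball p ε0 := ball_subset_ball (min_le_left _ _)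
      have hbU : ball p (min ε0 ε1) ⊆ D.U := (ball_subset_ball (min_le_right _ _)).trans hb1
      obtain ⟨hψ, hw, hwc⟩ := hsm _ hbb0
      refine ⟨min ε0 ε1, hε, hbb0.trans hb0, s, hs, fun Y _ _ _ G hG => ?_⟩
      have key := hexp Y D.U D.U_open.measurableSet p (min ε0 ε1) hε f u u₁ (hu.mono hbb0)
        (hu₁.mono hbb0) (fun z hz => hune z (hbb0 hz)) (fun z hz => hu₁ne z (hbb0 hz))
        (fun z hz => hfu z (hbb0 hz)) (fun z hz => hfd z (hbb0 hz))
        (fun G hG => (int_sub hbU (IsTest.smul isOpen_ball hψ hG)).1)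
        (fun G hG => (int_sub hbU (IsTest.smul isOpen_ball hψ hG)).2)
        (fun G hG => by
          have h1 := IsTest.smul isOpen_ball hw hG
          have h2 := IsTest.smul isOpen_ball hwc hG
          rw [integral_add (test_int h1.dz).integrableOn (test_int h2.dzb).integrableOn,
            (int_sub hbU h1).1, (int_sub hbU h2).2, add_zero]) G hG
      have h2 : (fun N : ℝ => ∫ z in D.U,
          Complex.exp (Complex.I * (N * (h.rho x z - ps.c i) : ℝ)) • G z) =
          (fun N : ℝ => ∫ z in D.U, Complex.exp (Complex.I * (N * (f z).re : ℝ)) • G z) := by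
        funext N
        exact phase_congr hG (fun z hz => by rw [hfre z (hbb0 hz), hcp]) N
      rw [h2]
      exact key
    · -- noncritical point in the domain
      have hcont : ContinuousAt (h.vv x) p := (hvd.continuousOn).continuousAt (hV.mem_nhds hpe)
      obtain ⟨ε2, hε2, hb2⟩ := Metric.eventually_nhds_iff_ball.1 (hcont.eventually_ne hvp)
      have hε : 0 < min ε0 (min ε1 ε2) := lt_min hε0 (lt_min hε1 hε2)
      have hbb0 : ball p (min ε0 (min ε1 ε2)) ⊆ ball p ε0 := ball_subset_ball (min_le_left _ _)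
      have hbU : ball p (min ε0 (min ε1 ε2)) ⊆ D.U :=
        (ball_subset_ball ((min_le_right _ _).trans (min_le_left _ _))).trans hb1
      have hb2' : ball p (min ε0 (min ε1 ε2)) ⊆ ball p ε2 :=
        ball_subset_ball ((min_le_right _ _).trans (min_le_right _ _))
      refine ⟨min ε0 (min ε1 ε2), hε, hbb0.trans hb0, ∅, fun q hq => by simp at hq,
        fun Y _ _ _ G hG => ?_⟩
      obtain ⟨K, hK⟩ := exists_nat_ge κ
      set ρ' : ℂ → ℝ := fun z => h.rho x z - ps.c i with hρ'
      have hρ's : ContDiffOn ℝ (⊤ : ℕ∞) ρ' (ball p (min ε0 (min ε1 ε2))) :=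
        (hρs.mono (hbb0.trans hb0)).sub contDiffOn_const
      have hdz' : ∀ z ∈ ball p (min ε0 (min ε1 ε2)), dz (fun w => (ρ' w : ℂ)) z ≠ 0 := by
        intro z hz
        have hzV : z ∈ D.Ue δ := hb0 (hbb0 hz)
        have h1 : DifferentiableAt ℝ (h.rho x) z :=
          (hρs.contDiffAt (hV.mem_nhds hzV)).differentiableAt (by simp)
        have h1' : DifferentiableAt ℝ (fun w => (h.rho x w : ℂ)) z :=
          Complex.ofRealCLM.differentiableAt.comp z h1
        have h3 : (fun w => (ρ' w : ℂ)) = fun w => (h.rho x w : ℂ) + (fun _ => (-(ps.c i : ℂ))) w := by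
          funext w; simp only [hρ']; push_cast; ring
        rw [h3, (dz_add h1' (differentiableAt_const _)).1, dz_const.1, add_zero, hdz z hzV]
        exact hb2 z (hb2' hz)
      obtain ⟨C, hC⟩ := nonstat isOpen_ball hρ's hdz' hG K
      refine HasExp.of_isBigO (Asymptotics.IsBigO.of_bound (max C 0) ?_)
      filter_upwards [Filter.eventually_ge_atTop 1] with N hN
      have hN0 : 0 < N := by linarith
      have h1 : ∫ z in D.U, Complex.exp (Complex.I * (N * (h.rho x z - ps.c i) : ℝ)) • G z =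
          ∫ z, Complex.exp (Complex.I * (N * ρ' z : ℝ)) • G z := by
        rw [setIntegral_eq_integral_of_forall_compl_eq_zero]
        intro z hz
        rw [test_zero hG (fun h => hz (hbU h)), smul_zero]
      rw [h1]
      refine (hC N hN).trans ?_
      rw [Real.norm_of_nonneg (Real.rpow_nonneg hN0.le _), div_eq_mul_inv]
      have h2 : (N ^ K)⁻¹ ≤ N ^ (-κ) := by
        rw [← Real.rpow_natCast, ← Real.rpow_neg hN0.le]
        exact Real.rpow_le_rpow_of_exponent_le hN (by linarith)
      have h3 : 0 ≤ (N ^ K)⁻¹ := inv_nonneg.2 (pow_nonneg hN0.le _)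
      exact mul_le_mul (le_max_left _ _) h2 h3 (le_max_right _ _)
  · -- point on a circle
    have hil : i = ps.bd l := ps.only_circ i l ⟨p, hpi, hl⟩
    have hcp : h.rho x p = ps.c i := by rw [hil]; exact ps.val_circ l p hl
    have hoth : ∀ᶠ z in 𝓝 p, ∀ l', l' ≠ l → z ∉ D.circ l' := by
      rw [eventually_all]
      intro l'
      by_cases hll : l' = l
      · exact Eventually.of_forall fun _ h => absurd hll h
      · have hcl : IsClosed (D.circ l') := B4x.circ_closed D l'
        have hnot : p ∉ D.circ l' := fun h => (Set.disjoint_left.1 (circ_disj D hll)) h hl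
        filter_upwards [hcl.isOpen_compl.mem_nhds hnot] with z hz _
        exact hz
    obtain ⟨ε1, hε1, hb1⟩ := Metric.eventually_nhds_iff_ball.1 hoth
    obtain ⟨s, hs, hexp⟩ := local_expansion hm hκ hκ'
    have hε : 0 < min ε0 ε1 := lt_min hε0 hε1
    have hbb0 : ball p (min ε0 ε1) ⊆ ball p ε0 := ball_subset_ball (min_le_left _ _)
    have hbb1 : ball p (min ε0 ε1) ⊆ ball p ε1 := ball_subset_ball (min_le_right _ _)
    obtain ⟨hψ, hw, hwc⟩ := hsm _ hbb0
    -- the phase vanishes on the circle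
    have hcirc : ∀ l', ∀ z ∈ D.circ l', z ∈ ball p (min ε0 ε1) → l' = l ∧ (f z).re = 0 := by
      intro l' z hz hzb
      have h1 : l' = l := by
        by_contra hne
        exact hb1 z (hbb1 hzb) l' hne hz
      refine ⟨h1, ?_⟩
      subst h1
      rw [hfre z (hbb0 hzb), hcp, hil, ps.val_circ l' z hz, sub_self]
    have hmemc : ∀ (l' : Option (Fin k)) (θ : ℝ),
        D.kap l' (Complex.exp (θ * Complex.I)) ∈ D.circ l' := fun l' θ =>
      ⟨_, by simp [Complex.norm_exp_ofReal_mul_I], rfl⟩
    have hscal : ∀ (l' : Option (Fin k)) (θ : ℝ) (z : ℂ),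
        z = D.kap l' (Complex.exp (θ * Complex.I)) → z ∈ ball p (min ε0 ε1) →
        (Complex.exp (-(θ * Complex.I)) * conj (deriv (D.kap l') (Complex.exp (θ * Complex.I)))) *
            ((z - p) * u z / u₁ z) +
          (Complex.exp (θ * Complex.I) * deriv (D.kap l') (Complex.exp (θ * Complex.I))) *
            conj ((z - p) * u z / u₁ z) = 0 := by
      intro l' θ z hz hzb
      apply B4x.scalar_zero
      by_cases hzp : z = p
      · rw [hzp]; simp
      · have hzp' : z - p ≠ 0 := sub_ne_zero.2 hzp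
        have hf' : (z - p) ^ (m - 1) * u₁ z ≠ 0 :=
          mul_ne_zero (pow_ne_zero _ hzp') (hu₁ne z (hbb0 hzb))
        have hmem : Complex.exp (θ * Complex.I) ∈ ann2 D.ρ :=
          B4x.exp_mem D θ
        refine B4x.tangent (f := f) (κ := D.kap l') (θ := θ)
          (f' := (z - p) ^ (m - 1) * u₁ z)
          ((D.holo l').differentiableAt ((Pool.Agent.EN.isOpen_ann2' _).mem_nhds hmem))
          (kap_deriv_ne D l' hmem) ?_ ?_ ?_ hf'
        · rw [← hz]; exact hfd z (hbb0 hzb)
        · have h1 : ∀ᶠ φ : ℝ in 𝓝 θ, D.kap l' (Complex.exp (φ * Complex.I)) ∈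
              ball p (min ε0 ε1) := by
            refine (B4x.continuous_kap D l').continuousAt.eventually_mem ?_
            rw [← hz]
            exact isOpen_ball.mem_nhds hzb
          filter_upwards [h1] with φ hφ
          exact (hcirc l' _ (hmemc l' φ) hφ).2
        · rw [← hz, hfu z (hbb0 hzb)]
          have h2 : (z - p) ^ m = (z - p) ^ (m - 1) * (z - p) := by
            rw [← pow_succ, Nat.sub_add_cancel hm]
          have h3 := hu₁ne z (hbb0 hzb)
          rw [h2]
          field_simp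
    refine ⟨min ε0 ε1, hε, hbb0.trans hb0, s, hs, fun Y _ _ _ G hG => ?_⟩
    have hgz : ∀ G : ℂ → Y, IsTest (ball p (min ε0 ε1)) G →
        ∫ z in D.U, dz (fun z => (((f z).re : ℝ) : ℂ) • G z) z = 0 ∧
        ∫ z in D.U, dzb (fun z => (((f z).re : ℝ) : ℂ) • G z) z = 0 := by
      intro G hG
      have h1 := IsTest.smul isOpen_ball hψ hG
      refine green_zero D isOpen_univ (subset_univ _)
        (h1.smooth.of_le (by norm_cast)).contDiffOn ?_
      intro l' z hz
      by_cases hzb : z ∈ ball p (min ε0 ε1)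
      · rw [(hcirc l' z hz hzb).2]; simp
      · rw [test_zero hG hzb, smul_zero]
    have hg3 : ∀ G : ℂ → Y, IsTest (ball p (min ε0 ε1)) G →
        ∫ z in D.U, (dz (fun z => ((z - p) * u z / u₁ z) • G z) z +
          dzb (fun z => conj ((z - p) * u z / u₁ z) • G z) z) = 0 := by
      intro G hG
      have h1 := IsTest.smul isOpen_ball hw hG
      have h2 := IsTest.smul isOpen_ball hwc hG
      rw [integral_add (test_int h1.dz).integrableOn (test_int h2.dzb).integrableOn,
        (green_AJ D isOpen_univ (subset_univ _)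
          (h1.smooth.of_le (by norm_cast)).contDiffOn).1,
        (green_AJ D isOpen_univ (subset_univ _)
          (h2.smooth.of_le (by norm_cast)).contDiffOn).2]
      set F₁ : ℂ → Y := fun z => ((z - p) * u z / u₁ z) • G z with hF₁
      set F₂ : ℂ → Y := fun z => conj ((z - p) * u z / u₁ z) • G z with hF₂
      have hc1 : Continuous F₁ := h1.smooth.continuous
      have hc2 : Continuous F₂ := h2.smooth.continuous
      have hpt : ∀ (l' : Option (Fin k)) (θ : ℝ) (z : ℂ),
          z = D.kap l' (Complex.exp (θ * Complex.I)) →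
          (Complex.exp (-(θ * Complex.I)) *
              conj (deriv (D.kap l') (Complex.exp (θ * Complex.I)))) • F₁ z +
            (Complex.exp (θ * Complex.I) *
              deriv (D.kap l') (Complex.exp (θ * Complex.I))) • F₂ z = 0 := by
        intro l' θ z hz
        by_cases hzb : z ∈ ball p (min ε0 ε1)
        · rw [hF₁, hF₂]
          simp only
          rw [smul_smul, smul_smul, ← add_smul, hscal l' θ z hz hzb, zero_smul]
        · rw [hF₁, hF₂]
          simp only
          rw [test_zero hG hzb, smul_zero, smul_zero, smul_zero, smul_zero, add_zero]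
      rw [← neg_add, ← Finset.sum_add_distrib, neg_eq_zero]
      refine Finset.sum_eq_zero fun l' _ => ?_
      have hk := B4x.continuous_kap D l'
      have hdk := B4x.continuous_deriv_kap D l'
      rw [← smul_add, ← intervalIntegral.integral_add]
      · have : ∀ θ : ℝ, (Complex.exp (-(θ * Complex.I)) *
              conj (deriv (D.kap l') (Complex.exp (θ * Complex.I)))) •
                F₁ (D.kap l' (Complex.exp (θ * Complex.I))) +
            (Complex.exp (θ * Complex.I) *
              deriv (D.kap l') (Complex.exp (θ * Complex.I))) •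
                F₂ (D.kap l' (Complex.exp (θ * Complex.I))) = 0 := fun θ => hpt l' θ _ rfl
        rw [intervalIntegral.integral_congr (g := fun _ => (0 : Y)) (fun θ _ => this θ)]
        simp
      · apply Continuous.intervalIntegrable
        have h5 : Continuous fun θ : ℝ =>
            conj (deriv (D.kap l') (Complex.exp (θ * Complex.I))) :=
          Complex.continuous_conj.comp hdk
        exact ((by fun_prop : Continuous fun θ : ℝ => Complex.exp (-(θ * Complex.I))).mul h5).smul
          (hc1.comp hk)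
      · apply Continuous.intervalIntegrable
        exact ((by fun_prop : Continuous fun θ : ℝ => Complex.exp (θ * Complex.I)).mul hdk).smul
          (hc2.comp hk)
    have key := hexp Y D.U D.U_open.measurableSet p (min ε0 ε1) hε f u u₁ (hu.mono hbb0)
      (hu₁.mono hbb0) (fun z hz => hune z (hbb0 hz)) (fun z hz => hu₁ne z (hbb0 hz))
      (fun z hz => hfu z (hbb0 hz)) (fun z hz => hfd z (hbb0 hz))
      (fun G hG => (hgz G hG).1) (fun G hG => (hgz G hG).2) hg3 G hG
    have h2 : (fun N : ℝ => ∫ z in D.U,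
        Complex.exp (Complex.I * (N * (h.rho x z - ps.c i) : ℝ)) • G z) =
        (fun N : ℝ => ∫ z in D.U, Complex.exp (Complex.I * (N * (f z).re : ℝ)) • G z) := by
      funext N
      exact phase_congr hG (fun z hz => by rw [hfre z (hbb0 hz), hcp]) N
    rw [h2]
    exact key

end Pool.Agent.KA
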