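import Pool.Agent.Helper9.KA.B4a

set_option autoImplicit false

open MeasureTheory Set Filter Asymptotics Topology Metric
open scoped ComplexConjugate ENNReal

namespace Pool.Agent.KA

open Pool.Agent.Helper7.KE hiding HM PS Bv sfun FF tt lS
open Pool.Agent.EN (AJ ann ann2)

theorem b4b_partition {K : Set ℂ} (hK : IsCompact K) (c : K → ℂ) (e : K → ℝ)
    (hc : ∀ p : K, (p : ℂ) ∈ ball (c p) (e p)) :
    ∃ (T : Finset K) (φ : K → ℂ → ℝ), (∀ p, ContDiff ℝ (⊤ : ℕ∞) (φ p)) ∧
      (∀ p ∈ T, tsupport (φ p) ⊆ ball (c p) (e p)) ∧ ∀ z ∈ K, ∑ p ∈ T, φ p z = 1 := by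
  classical
  obtain ⟨T, hT⟩ := hK.elim_finite_subcover (fun p : K => ball (c p) (e p))
    (fun _ => isOpen_ball) (fun z hz => mem_iUnion.2 ⟨⟨z, hz⟩, hc ⟨z, hz⟩⟩)
  obtain ⟨f, hf⟩ := SmoothPartitionOfUnity.exists_isSubordinate (modelWithCornersSelf ℝ ℂ) (M := ℂ) (ι := T)
    hK.isClosed (fun p : T => ball (c p) (e p)) (fun _ => isOpen_ball) (by
      intro z hz
      obtain ⟨p, hp, hz'⟩ := mem_iUnion₂.1 (hT hz)
      exact mem_iUnion.2 ⟨⟨p, hp⟩, hz'⟩)
  refine ⟨T, fun p => if h : p ∈ T then f ⟨p, h⟩ else 0, fun p => ?_, fun p hp => ?_, fun z hz => ?_⟩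
  · dsimp only
    split_ifs with h
    · exact contMDiff_iff_contDiff.1 (f ⟨p, h⟩).contMDiff
    · exact contDiff_const
  · dsimp only
    rw [dif_pos hp]
    exact hf ⟨p, hp⟩
  · have h1 := f.sum_eq_one hz
    rw [finsum_eq_sum_of_fintype] at h1
    rw [← h1, ← Finset.sum_coe_sort T]
    refine Finset.sum_congr rfl fun p _ => ?_
    dsimp only
    rw [dif_pos p.2]

theorem b4b_test {Y : Type*} [NormedAddCommGroup Y] [NormedSpace ℂ Y] {V : Set ℂ} (hV : IsOpen V)
    {p : ℂ} {ε : ℝ} (hb : ball p ε ⊆ V) {A : ℂ → Y} (hA : ContDiffOn ℝ (⊤ : ℕ∞) A V)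
    {φ χ : ℂ → ℝ} (hφ : ContDiff ℝ (⊤ : ℕ∞) φ) (hχ : ContDiff ℝ (⊤ : ℕ∞) χ)
    (hs : tsupport φ ⊆ ball p ε) :
    IsTest (ball p ε) (fun z => ((φ z * χ z : ℝ) : ℂ) • A z) := by
  have hts : tsupport (fun z => ((φ z * χ z : ℝ) : ℂ) • A z) ⊆ tsupport φ := by
    refine closure_mono fun z hz => ?_
    rw [Function.mem_support] at hz ⊢
    intro h0
    apply hz
    simp [h0]
  refine ⟨?_, ?_, hts.trans hs⟩
  · rw [contDiff_iff_contDiffAt]
    intro z
    by_cases hz : z ∈ ball p ε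
    · have h1 : ContDiffAt ℝ (⊤ : ℕ∞) A z := hA.contDiffAt (hV.mem_nhds (hb hz))
      have h2 : ContDiffAt ℝ (⊤ : ℕ∞) (fun z => ((φ z * χ z : ℝ) : ℂ)) z :=
        (Complex.ofRealCLM.contDiff.comp (hφ.mul hχ)).contDiffAt
      exact h2.smul h1
    · have h1 : z ∉ tsupport (fun z => ((φ z * χ z : ℝ) : ℂ) • A z) := fun h => hz (hs (hts h))
      rw [notMem_tsupport_iff_eventuallyEq] at h1
      exact contDiffAt_const.congr_of_eventuallyEq h1
  · exact ((isCompact_closedBall p ε).of_isClosed_subset (isClosed_tsupport _)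
      ((hts.trans hs).trans ball_subset_closedBall))

/-- KE-B4b: the global expansion (partition of unity) -/
theorem exp_PS {k : ℕ} (D : AJ k) {τ δ : ℝ} (hτ : D.Good τ) (hδ : 0 < δ) (hδτ : δ ≤ τ)
    (h : HM D τ δ) (x : Fin k → ℝ) (hx : x ≠ 0) {ι : Type} [Fintype ι] [DecidableEq ι]
    (ps : PS D (h.rho x) ι) {κ : ℝ} (hκ : 0 < κ) (hκ' : Irrational κ) : ∃ s : Finset (ℝ × ℕ), GoodScale κ s ∧
      ∀ (Y : Type) [NormedAddCommGroup Y] [NormedSpace ℂ Y] [CompleteSpace Y] (A : ℂ → Y),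
        ContDiffOn ℝ (⊤ : ℕ∞) A (D.Ue δ) → ∀ i : ι,
        HasExp s κ (fun N : ℝ => ∫ z in D.U, ((ps.chi i z : ℂ) *
          Complex.exp (Complex.I * (N * (h.rho x z - ps.c i) : ℝ))) • A z) := by
  classical
  have key : ∀ i : ι, ∃ s : Finset (ℝ × ℕ), GoodScale κ s ∧
      ∀ (Y : Type) [NormedAddCommGroup Y] [NormedSpace ℂ Y] [CompleteSpace Y] (A : ℂ → Y),
        ContDiffOn ℝ (⊤ : ℕ∞) A (D.Ue δ) →
        HasExp s κ (fun N : ℝ => ∫ z in D.U, ((ps.chi i z : ℂ) *
          Complex.exp (Complex.I * (N * (h.rho x z - ps.c i) : ℝ))) • A z) := by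
    intro i
    set K : Set ℂ := D.cU ∩ tsupport (ps.chi i) with hKdef
    have hK : IsCompact K := D.cU_compact.inter_right (isClosed_tsupport _)
    have hloc : ∀ p : K, ∃ ε > 0, ball (p : ℂ) ε ⊆ D.Ue δ ∧ ∃ s : Finset (ℝ × ℕ), GoodScale κ s ∧
      ∀ (Y : Type) [NormedAddCommGroup Y] [NormedSpace ℂ Y] [CompleteSpace Y] (G : ℂ → Y),
        IsTest (ball (p : ℂ) ε) G →
        HasExp s κ (fun N : ℝ => ∫ z in D.U,
          Complex.exp (Complex.I * (N * (h.rho x z - ps.c i) : ℝ)) • G z) := fun p =>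
      local_PS D hτ hδ hδτ h x hx ps hκ hκ' i p p.2.1 p.2.2
    choose e he hb s hs hexp using hloc
    obtain ⟨T, φ, hφ, hφs, hφ1⟩ := b4b_partition hK (fun p => (p : ℂ)) e
      (fun p => mem_ball_self (he p))
    refine ⟨T.biUnion s, fun q hq => ?_, fun Y _ _ _ A hA => ?_⟩
    · obtain ⟨p, _, hp⟩ := Finset.mem_biUnion.1 hq
      exact hs p q hp
    · have hG : ∀ p ∈ T, IsTest (ball (p : ℂ) (e p))
          (fun z => ((φ p z * ps.chi i z : ℝ) : ℂ) • A z) := fun p hp =>
        b4b_test (D.Ue_open δ) (hb p) hA (hφ p) (ps.smooth i) (hφs p hp)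
      have h1 : HasExp (T.biUnion s) κ (fun N : ℝ => ∑ p ∈ T, ∫ z in D.U,
          Complex.exp (Complex.I * (N * (h.rho x z - ps.c i) : ℝ)) •
            (((φ p z * ps.chi i z : ℝ) : ℂ) • A z)) := by
        refine HasExp.sum T fun p hp => ?_
        exact (hexp p Y _ (hG p hp)).mono (Finset.subset_biUnion_of_mem s hp)
      refine h1.congr (Eventually.of_forall fun N => ?_)
      have hrho : ContinuousOn (fun z => h.rho x z) D.cU := by
        have hsub := D.cU_subset_Ue hδ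
        unfold HM.rho
        refine continuousOn_finsetSum _ fun j _ => continuousOn_const.mul ?_
        exact (h.smooth j).continuousOn.mono hsub
      have hexpc : ContinuousOn (fun z => Complex.exp
          (Complex.I * (N * (h.rho x z - ps.c i) : ℝ))) D.cU := by
        refine Complex.continuous_exp.comp_continuousOn (continuousOn_const.mul ?_)
        exact Complex.continuous_ofReal.comp_continuousOn
          (continuousOn_const.mul (hrho.sub continuousOn_const))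
      dsimp only
      rw [← integral_finsetSum]
      · refine setIntegral_congr_fun D.U_open.measurableSet fun z hz => ?_
        simp only [smul_smul]
        rw [← Finset.sum_smul, ← Finset.mul_sum]
        by_cases hzK : z ∈ tsupport (ps.chi i)
        · have h2 : ∑ p ∈ T, ((φ p z * ps.chi i z : ℝ) : ℂ) = (ps.chi i z : ℂ) := by
            rw [← Complex.ofReal_sum, ← Finset.sum_mul, hφ1 z ⟨D.U_subset_cU hz, hzK⟩, one_mul]
          rw [h2, mul_comm]
        · have h2 : ps.chi i z = 0 := image_eq_zero_of_notMem_tsupport hzK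
          simp [h2]
      · intro p hp
        have h3 : ContinuousOn (fun z => Complex.exp
          (Complex.I * (N * (h.rho x z - ps.c i) : ℝ)) •
            (((φ p z * ps.chi i z : ℝ) : ℂ) • A z)) D.cU :=
          hexpc.smul (hG p hp).smooth.continuous.continuousOn
        exact (h3.integrableOn_compact D.cU_compact).mono_set D.U_subset_cU
  choose s hs hexp using key
  refine ⟨Finset.univ.biUnion s, fun q hq => ?_, fun Y _ _ _ A hA i => ?_⟩
  · obtain ⟨i, _, hi⟩ := Finset.mem_biUnion.1 hq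
    exact hs i q hi
  · exact (hexp i Y A hA).mono (Finset.subset_biUnion_of_mem s (Finset.mem_univ i))

end Pool.Agent.KA
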