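import Pool.Agent.Helper7.KE.A1
import Pool.Agent.Helper9.KA.C1

set_option autoImplicit false

open MeasureTheory Set Filter Asymptotics Topology Metric
open scoped ComplexConjugate ENNReal Convolution

namespace Pool.Agent.KA

open Pool.Agent.Helper7.KE hiding HM PS Bv sfun FF tt lS
open Pool.Agent.EN (AJ)

namespace Weyl

/-- cutoff profile -/
noncomputable def Hc (s : ℝ) : ℝ := Real.smoothTransition (4 * s - 1)

theorem Hc_contDiff : ContDiff ℝ (⊤ : ℕ∞) Hc :=
  Real.smoothTransition.contDiff.comp (by fun_prop)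

theorem Hc_zero {s : ℝ} (h : s ≤ 1 / 4) : Hc s = 0 :=
  Real.smoothTransition.zero_of_nonpos (by linarith)

theorem Hc_one {s : ℝ} (h : 1 / 2 ≤ s) : Hc s = 1 :=
  Real.smoothTransition.one_of_one_le (by linarith)

theorem Hc_mono : Monotone Hc := fun s t h =>
  Real.smoothTransition.monotone (by linarith)

theorem Hc_hasDerivAt (s : ℝ) : HasDerivAt Hc (deriv Hc s) s :=
  (Hc_contDiff.differentiable (by simp)).differentiableAt.hasDerivAt

theorem Hc_deriv_zero {s : ℝ} (h : s < 1 / 4 ∨ 1 / 2 < s) : deriv Hc s = 0 := by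
  rcases h with h | h
  · have : Hc =ᶠ[𝓝 s] fun _ => 0 := by
      filter_upwards [Iio_mem_nhds h] with t ht using Hc_zero (le_of_lt ht)
    rw [this.deriv_eq]; simp
  · have : Hc =ᶠ[𝓝 s] fun _ => 1 := by
      filter_upwards [Ioi_mem_nhds h] with t ht using Hc_one (le_of_lt ht)
    rw [this.deriv_eq]; simp

theorem Hc_deriv_continuous : Continuous (deriv Hc) :=
  Hc_contDiff.continuous_deriv (by simp)

/-- the kernel -/
noncomputable def kap (ε : ℝ) (w : ℂ) : ℝ := deriv Hc (‖w‖ ^ 2 / ε ^ 2) / ε ^ 2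

/-- its primitive -/
noncomputable def psi (ε : ℝ) (w : ℂ) : ℂ := (Hc (‖w‖ ^ 2 / ε ^ 2) : ℂ) • w⁻¹

theorem normsq_contDiff (ε : ℝ) : ContDiff ℝ (⊤ : ℕ∞) fun w : ℂ => ‖w‖ ^ 2 / ε ^ 2 :=
  (contDiff_norm_sq ℝ).div_const _

theorem near_zero {ε : ℝ} (hε : 0 < ε) : ∀ᶠ w : ℂ in 𝓝 0, ‖w‖ ^ 2 / ε ^ 2 < 1 / 4 := by
  have hc : Continuous fun w : ℂ => ‖w‖ ^ 2 / ε ^ 2 := (normsq_contDiff ε).continuous
  have := hc.tendsto (0 : ℂ)
  simp only [norm_zero, ne_eq, OfNat.ofNat_ne_zero, not_false_eq_true, zero_pow, zero_div] at this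
  exact this.eventually_lt_const (by norm_num)

theorem psi_contDiff {ε : ℝ} (hε : 0 < ε) : ContDiff ℝ (⊤ : ℕ∞) (psi ε) := by
  rw [contDiff_iff_contDiffAt]
  intro w
  rcases eq_or_ne w 0 with rfl | hw
  · have : psi ε =ᶠ[𝓝 0] fun _ => 0 := by
      filter_upwards [near_zero hε] with w hw
      rw [psi, Hc_zero hw.le]; simp
    exact contDiffAt_const.congr_of_eventuallyEq this
  · have h1 : ContDiffAt ℝ (⊤ : ℕ∞) (fun w : ℂ => (Hc (‖w‖ ^ 2 / ε ^ 2) : ℂ)) w :=
      (Complex.ofRealCLM.contDiff.comp (Hc_contDiff.comp (normsq_contDiff ε))).contDiffAt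
    exact h1.smul (contDiffAt_inv ℝ hw)

theorem psi_eq_inv {ε : ℝ} (hε : 0 < ε) {w : ℂ} (h : ε ≤ ‖w‖) : psi ε w = w⁻¹ := by
  have h1 : (1 : ℝ) / 2 ≤ ‖w‖ ^ 2 / ε ^ 2 := by
    rw [div_le_div_iff₀ (by norm_num) (by positivity)]
    nlinarith
  rw [psi, Hc_one h1]; simp

theorem dzb_normsq (ε : ℝ) (w : ℂ) :
    dzb (fun w : ℂ => ((‖w‖ ^ 2 / ε ^ 2 : ℝ) : ℂ)) w = w / (ε ^ 2 : ℝ) := by
  have h1 : (fun w : ℂ => ((‖w‖ ^ 2 / ε ^ 2 : ℝ) : ℂ)) =
      fun w : ℂ => (((ε ^ 2 : ℝ) : ℂ)⁻¹ * w) • conj w := by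
    funext w
    rw [smul_eq_mul, mul_assoc, Complex.mul_conj, Complex.normSq_eq_norm_sq]
    push_cast
    ring
  have h2 : DifferentiableAt ℂ (fun w : ℂ => ((ε ^ 2 : ℝ) : ℂ)⁻¹ * w) w := by fun_prop
  have h3 : DifferentiableAt ℂ (fun w : ℂ => w) w := differentiableAt_id
  have h4 : DifferentiableAt ℝ (fun w : ℂ => conj w) w :=
    (Complex.conjCLE : ℂ →L[ℝ] ℂ).differentiableAt
  rw [h1, (dz_smul (h2.restrictScalars ℝ) h4).2, (dz_hol h2).2, (dz_conj_hol h3).2]
  simp
  ring

theorem dzb_psi {ε : ℝ} (hε : 0 < ε) (w : ℂ) : dzb (psi ε) w = (kap ε w : ℂ) := by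
  rcases eq_or_ne w 0 with rfl | hw
  · have : psi ε =ᶠ[𝓝 0] fun _ => 0 := by
      filter_upwards [near_zero hε] with w hw
      rw [psi, Hc_zero hw.le]; simp
    rw [(dz_congr this).2, dz_const.2, kap, Hc_deriv_zero (Or.inl (by simp))]
    simp
  · have h1 : DifferentiableAt ℝ (fun w : ℂ => ‖w‖ ^ 2 / ε ^ 2) w :=
      ((normsq_contDiff ε).differentiable (by simp)).differentiableAt
    have h2 := (dz_comp_real h1 (Hc_hasDerivAt (‖w‖ ^ 2 / ε ^ 2))).2
    have h3 : DifferentiableAt ℝ (fun w : ℂ => (Hc (‖w‖ ^ 2 / ε ^ 2) : ℂ)) w :=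
      ((Complex.ofRealCLM.contDiff.comp (Hc_contDiff.comp (normsq_contDiff ε))).differentiable
        (by simp)).differentiableAt
    have h4 : DifferentiableAt ℂ (fun w : ℂ => w⁻¹) w := differentiableAt_inv hw
    have h5 : psi ε = fun w : ℂ => (Hc (‖w‖ ^ 2 / ε ^ 2) : ℂ) • w⁻¹ := rfl
    rw [h5, (dz_smul h3 (h4.restrictScalars ℝ)).2, (dz_hol h4).2, h2, dzb_normsq, kap]
    simp only [smul_eq_mul, mul_zero, add_zero]
    push_cast
    field_simp

theorem kap_contDiff (ε : ℝ) : ContDiff ℝ (⊤ : ℕ∞) (kap ε) :=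
  ((Hc_contDiff.deriv' : ContDiff ℝ (⊤ : ℕ∞) (deriv Hc)).comp (normsq_contDiff ε)).div_const _

theorem kap_zero {ε : ℝ} (hε : 0 < ε) {w : ℂ} (h : ε ≤ ‖w‖) : kap ε w = 0 := by
  have h1 : (1 : ℝ) / 2 < ‖w‖ ^ 2 / ε ^ 2 := by
    rw [div_lt_div_iff₀ (by norm_num) (by positivity)]
    nlinarith
  rw [kap, Hc_deriv_zero (Or.inr h1), zero_div]

theorem kap_compact {ε : ℝ} (hε : 0 < ε) : HasCompactSupport (kap ε) := by
  refine HasCompactSupport.intro (isCompact_closedBall (0 : ℂ) ε) fun w hw => kap_zero hε ?_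
  simp only [mem_closedBall, dist_zero_right, not_le] at hw
  exact hw.le

theorem dz_comp_sub {F : ℂ → ℂ} {z t : ℂ} (hF : DifferentiableAt ℝ F (z - t)) :
    dzb (fun t => F (z - t)) t = -dzb F (z - t) := by
  have h : HasFDerivAt (fun t => F (z - t)) ((fderiv ℝ F (z - t)).comp
      (-(ContinuousLinearMap.id ℝ ℂ))) t := by
    have h1 : HasFDerivAt (fun t : ℂ => z - t) (-(ContinuousLinearMap.id ℝ ℂ)) t :=
      (hasFDerivAt_id t).const_sub z
    exact hF.hasFDerivAt.comp t h1
  unfold dzb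
  rw [h.fderiv]
  simp only [ContinuousLinearMap.comp_apply, ContinuousLinearMap.neg_apply,
    ContinuousLinearMap.id_apply, map_neg]
  module

/-- the difference of two primitives is a test function near `z` -/
theorem test_psi {V : Set ℂ} {z : ℂ} {r ε δ : ℝ} (hε : 0 < ε) (hδ : 0 < δ) (hεr : ε ≤ r)
    (hδr : δ ≤ r) (hV : closedBall z r ⊆ V) :
    IsTest V (fun t => psi ε (z - t) - psi δ (z - t)) := by
  have hz : ∀ t, t ∉ closedBall z r → psi ε (z - t) - psi δ (z - t) = 0 := by
    intro t ht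
    simp only [mem_closedBall, dist_eq_norm, not_le] at ht
    rw [norm_sub_rev] at ht
    rw [psi_eq_inv hε (by linarith), psi_eq_inv hδ (by linarith), sub_self]
  have hsupp : tsupport (fun t => psi ε (z - t) - psi δ (z - t)) ⊆ closedBall z r := by
    refine closure_minimal (fun t ht => ?_) isClosed_closedBall
    by_contra h
    exact ht (hz t h)
  refine ⟨?_, ?_, hsupp.trans hV⟩
  · exact ((psi_contDiff hε).comp (contDiff_const.sub contDiff_id)).sub
      ((psi_contDiff hδ).comp (contDiff_const.sub contDiff_id))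
  · exact (isCompact_closedBall z r).of_isClosed_subset isClosed_closure hsupp

theorem dzb_test_psi {z : ℂ} {ε δ : ℝ} (hε : 0 < ε) (hδ : 0 < δ) (t : ℂ) :
    dzb (fun t => psi ε (z - t) - psi δ (z - t)) t
      = -((kap ε (z - t) : ℂ) - (kap δ (z - t) : ℂ)) := by
  have h1 : ∀ {η : ℝ}, 0 < η → DifferentiableAt ℝ (psi η) (z - t) := fun hη =>
    ((psi_contDiff hη).differentiable (by simp)).differentiableAt
  have h2 : ∀ {η : ℝ}, 0 < η → DifferentiableAt ℝ (fun t => psi η (z - t)) t := fun hη =>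
    (h1 hη).comp t ((differentiableAt_const z).sub differentiableAt_id)
  have h3 : (fun t => psi ε (z - t) - psi δ (z - t))
      = fun t => psi ε (z - t) + (-psi δ (z - t)) := by funext t; ring
  rw [h3, (dz_add (F := fun t => psi ε (z - t)) (G := fun t => -psi δ (z - t))
    (h2 hε) (h2 hδ).neg).2, dz_neg.2, dz_comp_sub (h1 hε), dz_comp_sub (h1 hδ),
    dzb_psi hε, dzb_psi hδ]
  ring

theorem kap_cont (ε : ℝ) : Continuous fun w : ℂ => (kap ε w : ℂ) :=
  Complex.continuous_ofReal.comp (kap_contDiff ε).continuous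

theorem kap_compact' {ε : ℝ} (hε : 0 < ε) : HasCompactSupport fun w : ℂ => (kap ε w : ℂ) :=
  (kap_compact hε).comp_left (g := fun x : ℝ => (x : ℂ)) (by simp)

theorem integral_kap_eq {ε δ : ℝ} (hε : 0 < ε) (hδ : 0 < δ) :
    ∫ w, (kap ε w : ℂ) = ∫ w, (kap δ w : ℂ) := by
  have ht := test_psi (V := univ) (z := 0) (r := max ε δ) hε hδ (le_max_left _ _)
    (le_max_right _ _) (subset_univ _)
  have h1 := (integral_dz_test (ht.smooth.of_le (by simp)) ht.compact).2
  simp only [dzb_test_psi hε hδ] at h1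
  rw [integral_neg, neg_eq_zero] at h1
  have i1 : ∀ {η : ℝ}, 0 < η → Integrable fun t : ℂ => (kap η (0 - t) : ℂ) := by
    intro η hη
    have := ((kap_cont η).integrable_of_hasCompactSupport (μ := volume) (kap_compact' hη))
    simpa using this.comp_sub_left (0 : ℂ)
  rw [integral_sub (i1 hε) (i1 hδ)] at h1
  have e1 : ∀ η : ℝ, ∫ t : ℂ, (kap η (0 - t) : ℂ) = ∫ w, (kap η w : ℂ) := fun η =>
    integral_sub_left_eq_self (fun w => (kap η w : ℂ)) volume 0
  rw [e1, e1] at h1
  exact sub_eq_zero.1 h1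

theorem kap_nonneg (ε : ℝ) (w : ℂ) : 0 ≤ kap ε w :=
  div_nonneg Hc_mono.deriv_nonneg (by positivity)

/-- the total mass of the kernel -/
noncomputable def cst : ℝ := ∫ w, kap 1 w

theorem cst_pos : 0 < cst := by
  have hne : ∃ w : ℂ, kap 1 w ≠ 0 := by
    by_contra hcon
    push Not at hcon
    have h0 : ∀ s : ℝ, deriv Hc s = 0 := by
      intro s
      rcases lt_or_ge s 0 with hs | hs
      · exact Hc_deriv_zero (Or.inl (by linarith))
      · have := hcon ((Real.sqrt s : ℝ) : ℂ)
        rw [kap, Complex.norm_real, Real.norm_eq_abs, sq_abs, Real.sq_sqrt hs] at this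
        simpa using this
    have h1 := is_const_of_deriv_eq_zero (Hc_contDiff.differentiable (by simp)) h0 0 1
    rw [Hc_zero (by norm_num), Hc_one (by norm_num)] at h1
    norm_num at h1
  obtain ⟨w, hw⟩ := hne
  exact (kap_contDiff 1).continuous.integral_pos_of_hasCompactSupport_nonneg_nonzero
    (kap_compact one_pos) (fun w => kap_nonneg 1 w) hw

theorem integral_kap {ε : ℝ} (hε : 0 < ε) : ∫ w, (kap ε w : ℂ) = cst := by
  rw [integral_kap_eq hε one_pos, cst]
  exact integral_ofReal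

/-- a bound of the kernel -/
theorem kap_bound : ∃ C : ℝ, 0 ≤ C ∧ ∀ ε : ℝ, 0 < ε → ∀ w : ℂ, ‖(kap ε w : ℂ)‖ ≤ C / ε ^ 2 := by
  have hc : Continuous (deriv Hc) := Hc_deriv_continuous
  have hs : HasCompactSupport (deriv Hc) := by
    refine HasCompactSupport.intro (isCompact_Icc (a := (0 : ℝ)) (b := 1)) fun s hs => ?_
    apply Hc_deriv_zero
    rw [mem_Icc, not_and_or, not_le, not_le] at hs
    rcases hs with h | h
    · left; linarith
    · right; linarith
  obtain ⟨C, hC⟩ := hc.bounded_above_of_compact_support hs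
  refine ⟨C, (norm_nonneg _).trans (hC 0), fun ε hε w => ?_⟩
  rw [kap, Complex.norm_real, norm_div, norm_pow, Real.norm_eq_abs ε, sq_abs]
  gcongr
  exact hC _

section
variable {k : ℕ} (D : AJ k)

/-- extension by zero -/
noncomputable def ext0 (u : D.L2) : ℂ → ℂ := D.U.indicator (u : ℂ → ℂ)

theorem L2_integrable (u : D.L2) : Integrable (u : ℂ → ℂ) (volume.restrict D.U) :=
  (Lp.memLp u).integrable (by norm_num)

theorem ext0_integrable (u : D.L2) : Integrable (ext0 D u) :=
  (integrable_indicator_iff D.U_open.measurableSet).2 (L2_integrable D u)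

/-- mollification -/
noncomputable def moll (u : D.L2) (ε : ℝ) (z : ℂ) : ℂ := ∫ t, ext0 D u t * (kap ε (z - t) : ℂ)

theorem moll_eq (u : D.L2) (ε : ℝ) (z : ℂ) :
    moll D u ε z = ∫ t in D.U, (u : ℂ → ℂ) t * (kap ε (z - t) : ℂ) := by
  rw [← integral_indicator D.U_open.measurableSet]
  refine integral_congr_ae (Eventually.of_forall fun t => ?_)
  simp only [ext0, indicator]
  split_ifs <;> simp

theorem int_mul {u : D.L2} {φ : ℂ → ℂ} (hφ : Continuous φ) (hc : HasCompactSupport φ) :
    Integrable (fun t => (u : ℂ → ℂ) t * φ t) (volume.restrict D.U) := by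
  obtain ⟨C, hC⟩ := hφ.bounded_above_of_compact_support hc
  exact (L2_integrable D u).mul_bdd (c := C) hφ.aestronglyMeasurable
    (Eventually.of_forall hC)

theorem int_ext0 {u : D.L2} {ε : ℝ} (hε : 0 < ε) (z : ℂ) :
    Integrable (fun t => ext0 D u t * (kap ε (z - t) : ℂ)) := by
  obtain ⟨C, hC⟩ := (kap_cont ε).bounded_above_of_compact_support (kap_compact' hε)
  exact (ext0_integrable D u).mul_bdd (c := C)
    ((kap_cont ε).comp (continuous_const.sub continuous_id)).aestronglyMeasurable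
    (Eventually.of_forall fun t => hC _)

variable {D} in
theorem weak_zero {u : D.L2} (h : D.WeakDbar u 0) {φ : ℂ → ℂ} (hφ : IsTest D.U φ) :
    ∫ z in D.U, (u : ℂ → ℂ) z * dzb φ z = 0 := by
  rw [h φ hφ, neg_eq_zero]
  have : (fun z => ((0 : D.L2) : ℂ → ℂ) z * φ z) =ᵐ[volume.restrict D.U] fun _ => 0 := by
    filter_upwards [Lp.coeFn_zero ℂ 2 (volume.restrict D.U)] with z hz
    rw [hz]; simp
  rw [integral_congr_ae this, integral_zero]

variable {D} in
/-- the mollifications agree -/
theorem moll_indep {u : D.L2} (h : D.WeakDbar u 0) {z : ℂ} {r ε δ : ℝ} (hε : 0 < ε) (hδ : 0 < δ)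
    (hεr : ε ≤ r) (hδr : δ ≤ r) (hV : closedBall z r ⊆ D.U) :
    moll D u ε z = moll D u δ z := by
  have hw := weak_zero h (test_psi hε hδ hεr hδr hV)
  have hi : ∀ {η : ℝ}, 0 < η →
      Integrable (fun t => (u : ℂ → ℂ) t * (kap η (z - t) : ℂ)) (volume.restrict D.U) := by
    intro η hη
    obtain ⟨C, hC⟩ := (kap_cont η).bounded_above_of_compact_support (kap_compact' hη)
    exact (L2_integrable D u).mul_bdd (c := C)
      ((kap_cont η).comp (continuous_const.sub continuous_id)).aestronglyMeasurable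
      (Eventually.of_forall fun t => hC _)
  rw [moll_eq, moll_eq, ← sub_eq_zero, ← integral_sub (hi hε) (hi hδ)]
  rw [← neg_eq_zero, ← integral_neg, ← hw]
  refine integral_congr_ae (Eventually.of_forall fun t => ?_)
  simp only [dzb_test_psi hε hδ]
  ring

theorem differentiableAt_of_dzb {F : ℂ → ℂ} {F' : ℂ →L[ℝ] ℂ} {z : ℂ} (h : HasFDerivAt F F' z)
    (h0 : F' 1 + Complex.I * F' Complex.I = 0) : DifferentiableAt ℂ F z := by
  have hI : F' Complex.I = Complex.I * F' 1 := by
    have : Complex.I * (F' 1 + Complex.I * F' Complex.I) = 0 := by rw [h0, mul_zero]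
    rw [mul_add, ← mul_assoc, Complex.I_mul_I] at this
    linear_combination -this
  refine (hasFDerivAt_of_restrictScalars ℝ (f' := (ContinuousLinearMap.toSpanSingleton ℂ (F' 1)))
    h ?_).differentiableAt
  ext w
  have hw : w = (w.re : ℝ) • (1 : ℂ) + (w.im : ℝ) • Complex.I := by
    simp [Complex.re_add_im]
  have h1 : F' w = (w.re : ℂ) * F' 1 + (w.im : ℂ) * (Complex.I * F' 1) := by
    conv_lhs => rw [hw]
    rw [map_add, map_smul, map_smul, hI, Complex.real_smul, Complex.real_smul]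
  have h2 : w * F' 1 = (w.re : ℂ) * F' 1 + (w.im : ℂ) * (Complex.I * F' 1) := by
    conv_lhs => rw [← Complex.re_add_im w]
    ring
  simp only [ContinuousLinearMap.coe_restrictScalars',
    ContinuousLinearMap.toSpanSingleton_apply, smul_eq_mul]
  rw [h1, h2]

variable {D} in
/-- the mollifications are holomorphic -/
theorem moll_hol {u : D.L2} (h : D.WeakDbar u 0) {z : ℂ} {ε : ℝ} (hε : 0 < ε)
    (hV : closedBall z ε ⊆ D.U) : DifferentiableAt ℂ (moll D u ε) z := by
  set g : ℂ → ℂ := fun w => (kap ε w : ℂ) with hg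
  have hgc : HasCompactSupport g := kap_compact' hε
  have hgs : ContDiff ℝ (⊤ : ℕ∞) g := Complex.ofRealCLM.contDiff.comp (kap_contDiff ε)
  have hloc : LocallyIntegrable (ext0 D u) volume := (ext0_integrable D u).locallyIntegrable
  have hconv : moll D u ε = (ext0 D u) ⋆[ContinuousLinearMap.mul ℝ ℂ, volume] g := by
    funext z
    rfl
  have hder := hgc.hasFDerivAt_convolution_right (ContinuousLinearMap.mul ℝ ℂ) hloc
    (hgs.of_le (by simp)) z
  rw [← hconv] at hder
  refine differentiableAt_of_dzb hder ?_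
  have hfc : Continuous (fderiv ℝ g) := hgs.continuous_fderiv (by simp)
  have hfs : HasCompactSupport (fderiv ℝ g) := hgc.fderiv ℝ
  have key : ∀ v : ℂ, ((ext0 D u) ⋆[(ContinuousLinearMap.mul ℝ ℂ).precompR ℂ, volume]
      fderiv ℝ g) z v = ∫ t in D.U, (u : ℂ → ℂ) t * fderiv ℝ g (z - t) v := by
    intro v
    rw [convolution_precompR_apply _ hloc hfs hfc, convolution_def,
      ← integral_indicator D.U_open.measurableSet]
    refine integral_congr_ae (Eventually.of_forall fun t => ?_)
    simp only [ext0, indicator, ContinuousLinearMap.mul_apply']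
    split_ifs <;> simp
  have hint : ∀ v : ℂ, Integrable (fun t => (u : ℂ → ℂ) t * fderiv ℝ g (z - t) v)
      (volume.restrict D.U) := by
    intro v
    have hcv : Continuous fun w => fderiv ℝ g w v := hfc.clm_apply continuous_const
    obtain ⟨C, hC⟩ := hfc.bounded_above_of_compact_support hfs
    refine (L2_integrable D u).mul_bdd (c := C * ‖v‖)
      (hcv.comp (continuous_const.sub continuous_id)).aestronglyMeasurable
      (Eventually.of_forall fun t => ?_)
    exact ((fderiv ℝ g (z - t)).le_opNorm v).trans (by gcongr; exact hC _)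
  -- the test function
  have htest : IsTest D.U (fun t => g (z - t)) := by
    have hz : ∀ t, t ∉ closedBall z ε → g (z - t) = 0 := by
      intro t ht
      simp only [mem_closedBall, dist_eq_norm, not_le] at ht
      rw [norm_sub_rev] at ht
      rw [hg]
      simp only [kap_zero hε ht.le, Complex.ofReal_zero]
    have hsupp : tsupport (fun t => g (z - t)) ⊆ closedBall z ε := by
      refine closure_minimal (fun t ht => ?_) isClosed_closedBall
      by_contra h
      exact ht (hz t h)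
    exact ⟨hgs.comp (contDiff_const.sub contDiff_id),
      (isCompact_closedBall z ε).of_isClosed_subset isClosed_closure hsupp, hsupp.trans hV⟩
  have hw := weak_zero h htest
  rw [key, key, ← integral_const_mul, ← integral_add (hint 1) ((hint Complex.I).const_mul _)]
  have h2 : ∀ t, (u : ℂ → ℂ) t * fderiv ℝ g (z - t) 1 +
      Complex.I * ((u : ℂ → ℂ) t * fderiv ℝ g (z - t) Complex.I)
      = (-2) * ((u : ℂ → ℂ) t * dzb (fun t => g (z - t)) t) := by
    intro t
    have hd : DifferentiableAt ℝ g (z - t) := (hgs.differentiable (by simp)).differentiableAt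
    rw [dz_comp_sub hd, dzb]
    simp only [smul_eq_mul]
    ring
  simp only [h2]
  rw [integral_const_mul, hw, mul_zero]

/-- convergence of the mollifications -/
theorem moll_tendsto (u : D.L2) : ∀ᵐ z ∂(volume : Measure ℂ),
    Tendsto (fun n : ℕ => moll D u (1 / ((n : ℝ) + 1)) z) atTop (𝓝 (cst * ext0 D u z)) := by
  obtain ⟨C, hC0, hC⟩ := kap_bound
  have hloc : LocallyIntegrable (ext0 D u) volume := (ext0_integrable D u).locallyIntegrable
  filter_upwards [IsUnifLocDoublingMeasure.ae_tendsto_average_norm_sub volume hloc 1] with z hz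
  have hδ : Tendsto (fun n : ℕ => 1 / ((n : ℝ) + 1)) atTop (𝓝[>] 0) := by
    rw [tendsto_nhdsWithin_iff]
    exact ⟨tendsto_one_div_add_atTop_nhds_zero_nat, Eventually.of_forall fun n => by
      show (0 : ℝ) < _; positivity⟩
  have h1 := hz (fun _ : ℕ => z) (fun n : ℕ => 1 / ((n : ℝ) + 1)) hδ
    (Eventually.of_forall fun n => mem_closedBall_self (by positivity))
  rw [tendsto_iff_norm_sub_tendsto_zero]
  have h1' := h1.const_mul (C * Real.pi)
  rw [mul_zero] at h1'
  refine squeeze_zero (fun n => norm_nonneg _) (fun n => ?_) h1'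
  set ε : ℝ := 1 / ((n : ℝ) + 1) with hε
  have hε0 : 0 < ε := by positivity
  have hcz : (cst : ℂ) * ext0 D u z = ∫ t, ext0 D u z * (kap ε (z - t) : ℂ) := by
    rw [integral_const_mul, integral_sub_left_eq_self (fun w => (kap ε w : ℂ)) volume z,
      integral_kap hε0, mul_comm]
  have i1 := int_ext0 D (u := u) hε0 z
  have i2 : Integrable (fun t => ext0 D u z * (kap ε (z - t) : ℂ)) :=
    (((kap_cont ε).integrable_of_hasCompactSupport (kap_compact' hε0)).comp_sub_left z).const_mul _
  have hsub : moll D u ε z - cst * ext0 D u z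
      = ∫ t, (ext0 D u t - ext0 D u z) * (kap ε (z - t) : ℂ) := by
    rw [hcz, moll, ← integral_sub i1 i2]
    congr 1; funext t; ring
  have hzero : ∀ t, t ∉ closedBall z ε → (ext0 D u t - ext0 D u z) * (kap ε (z - t) : ℂ) = 0 := by
    intro t ht
    simp only [mem_closedBall, dist_eq_norm, not_le] at ht
    rw [norm_sub_rev] at ht
    rw [kap_zero hε0 ht.le]; simp
  rw [hsub, ← setIntegral_eq_integral_of_forall_compl_eq_zero hzero]
  have hintn : IntegrableOn (fun t => ‖ext0 D u t - ext0 D u z‖) (closedBall z ε) volume :=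
    (((ext0_integrable D u).integrableOn).sub (integrableOn_const
      (measure_closedBall_lt_top.ne))).norm
  calc ‖∫ t in closedBall z ε, (ext0 D u t - ext0 D u z) * (kap ε (z - t) : ℂ)‖
      ≤ ∫ t in closedBall z ε, ‖ext0 D u t - ext0 D u z‖ * (C / ε ^ 2) := by
        refine norm_integral_le_of_norm_le (hintn.mul_const _)
          (Eventually.of_forall fun t => ?_)
        rw [norm_mul]
        gcongr
        exact hC ε hε0 _
    _ = (C / ε ^ 2) * ∫ t in closedBall z ε, ‖ext0 D u t - ext0 D u z‖ := by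
        rw [integral_mul_const, mul_comm]
    _ = C * Real.pi * ⨍ y in closedBall z ε, ‖ext0 D u y - ext0 D u z‖ := by
        rw [setAverage_eq, measureReal_def, Complex.volume_closedBall]
        simp only [ENNReal.toReal_mul, ENNReal.toReal_pow, ENNReal.toReal_ofReal hε0.le,
          ENNReal.coe_toReal, NNReal.coe_real_pi, smul_eq_mul]
        field_simp

end

end Weyl

open Weyl in
theorem weyl {k : ℕ} (D : AJ k) {u : D.L2} (h : D.WeakDbar u 0) : u ∈ D.Berg := by
  have hc : (cst : ℂ) ≠ 0 := by exact_mod_cast cst_pos.ne'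
  set G : ℂ → ℂ := fun z => (cst : ℂ)⁻¹ * moll D u (evr D z) z with hG
  have hball : ∀ {z}, z ∈ D.U → closedBall z (evr D z) ⊆ D.U := fun {z} hz =>
    (evr_ball D z).resolve_right (not_le.2 (evr_pos D hz))
  have hdiff : DifferentiableOn ℂ G D.U := by
    intro z hz
    have h0 := evr_pos D hz
    have hb := hball hz
    set r := evr D z / 2 with hr
    have hr0 : 0 < r := by linarith
    have heq : G =ᶠ[𝓝 z] fun w => (cst : ℂ)⁻¹ * moll D u r w := by
      filter_upwards [ball_mem_nhds z hr0] with w hw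
      have hw' : dist w z < r := hw
      have hsub : closedBall w r ⊆ D.U := by
        refine (closedBall_subset_closedBall' ?_).trans hb
        linarith
      have hwU : w ∈ D.U := hsub (mem_closedBall_self hr0.le)
      have hmax : closedBall w (max r (evr D w)) ⊆ D.U := by
        rcases max_cases r (evr D w) with ⟨h1, -⟩ | ⟨h1, -⟩
        · rw [h1]; exact hsub
        · rw [h1]; exact hball hwU
      rw [hG]
      simp only
      rw [moll_indep h (evr_pos D hwU) hr0 (le_max_right _ _) (le_max_left _ _) hmax]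
    have hd : DifferentiableAt ℂ (moll D u r) z :=
      moll_hol h hr0 ((closedBall_subset_closedBall (by linarith)).trans hb)
    exact ((hd.const_mul _).congr_of_eventuallyEq heq).differentiableWithinAt
  have hae : u =ᵐ[volume.restrict D.U] G := by
    filter_upwards [ae_restrict_of_ae (moll_tendsto D u),
      ae_restrict_mem D.U_open.measurableSet] with z hz hzU
    have h0 := evr_pos D hzU
    have hev : ∀ᶠ n : ℕ in atTop, moll D u (1 / ((n : ℝ) + 1)) z = moll D u (evr D z) z := by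
      have : ∀ᶠ n : ℕ in atTop, 1 / ((n : ℝ) + 1) < evr D z :=
        tendsto_one_div_add_atTop_nhds_zero_nat.eventually_lt_const h0
      filter_upwards [this] with n hn
      exact moll_indep h (by positivity) h0 hn.le le_rfl (hball hzU)
    have h1 : Tendsto (fun n : ℕ => moll D u (1 / ((n : ℝ) + 1)) z) atTop
        (𝓝 (moll D u (evr D z) z)) := tendsto_const_nhds.congr' (hev.mono fun n hn => hn.symm)
    have h2 := tendsto_nhds_unique hz h1
    rw [hG]
    simp only
    rw [← h2, ext0, indicator_of_mem hzU, ← mul_assoc, inv_mul_cancel₀ hc, one_mul]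
  exact Submodule.le_topologicalClosure _ ⟨G, hdiff, hae⟩

end Pool.Agent.KA
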