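import Pool.Agent.Helper9.KA.Defs
import Pool.Agent.Helper7.KE.A1

set_option autoImplicit false

open MeasureTheory Set Filter Asymptotics Topology Metric
open scoped ComplexConjugate ENNReal

namespace Pool.Agent.KA

open Pool.Agent.Helper7.KE hiding HM PS Bv sfun FF tt lS
open Pool.Agent.EN (AJ)

namespace C3aux

/-- kernels which are bounded and Lipschitz -/
structure Nice (K : ℂ → ℂ) : Prop where
  bdd : ∃ M, 0 ≤ M ∧ ∀ w, ‖K w‖ ≤ M
  lip : ∃ C, 0 ≤ C ∧ ∀ w w', ‖K w - K w'‖ ≤ C * ‖w - w'‖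

theorem Nice.continuous {K : ℂ → ℂ} (hK : Nice K) : Continuous K := by
  obtain ⟨C, hC0, hC⟩ := hK.lip
  refine (LipschitzWith.of_dist_le_mul (K := ⟨C, hC0⟩) fun x y => ?_).continuous
  rw [dist_eq_norm, dist_eq_norm]
  exact hC x y

theorem Nice.sub {K L : ℂ → ℂ} (hK : Nice K) (hL : Nice L) : Nice (fun w => K w - L w) := by
  obtain ⟨M, hM0, hM⟩ := hK.bdd
  obtain ⟨M', hM0', hM'⟩ := hL.bdd
  obtain ⟨C, hC0, hC⟩ := hK.lip
  obtain ⟨C', hC0', hC'⟩ := hL.lip
  refine ⟨⟨M + M', by positivity, fun w => (norm_sub_le _ _).trans (add_le_add (hM w) (hM' w))⟩,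
    ⟨C + C', by positivity, fun w w' => ?_⟩⟩
  have : K w - L w - (K w' - L w') = (K w - K w') - (L w - L w') := by ring
  rw [this, add_mul]
  exact (norm_sub_le _ _).trans (add_le_add (hC w w') (hC' w w'))

/-- an operator given by a square integrable vector valued kernel is compact -/
theorem compact_pairing {μ : Measure ℂ} {H : Type*} [NormedAddCommGroup H] [NormedSpace ℂ H]
    [CompleteSpace H] (κ : Lp H 2 μ) :
    IsCompactOperator
      (((ContinuousLinearMap.lsmul ℂ ℂ : ℂ →L[ℂ] H →L[ℂ] H).lpPairing μ 2 2).flip κ) := by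
  set B := ((ContinuousLinearMap.lsmul ℂ ℂ : ℂ →L[ℂ] H →L[ℂ] H).lpPairing μ 2 2).flip with hB
  induction κ using Lp.induction (by norm_num : (2 : ℝ≥0∞) ≠ ∞) with
  | indicatorConst c hs hμs =>
    rename_i s
    -- rank one
    let L : Lp ℂ 2 μ →L[ℂ] ℂ :=
      ((ContinuousLinearMap.lsmul ℂ ℂ : ℂ →L[ℂ] ℂ →L[ℂ] ℂ).lpPairing μ 2 2).flip
        (indicatorConstLp 2 hs hμs.ne (1 : ℂ))
    have h1 : (B (Lp.simpleFunc.indicatorConst 2 hs hμs.ne c : Lp.simpleFunc H 2 μ) :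
        Lp ℂ 2 μ → H) = (ContinuousLinearMap.toSpanSingleton ℂ c) ∘ L := by
      funext f
      simp only [hB, L, Function.comp, ContinuousLinearMap.flip_apply,
        ContinuousLinearMap.lpPairing_eq_integral, ContinuousLinearMap.lsmul_apply,
        ContinuousLinearMap.toSpanSingleton_apply]
      rw [← integral_smul_const]
      apply integral_congr_ae
      have e1 := indicatorConstLp_coeFn (p := 2) (hs := hs) (hμs := hμs.ne) (c := c)
      have e2 := indicatorConstLp_coeFn (p := 2) (hs := hs) (hμs := hμs.ne) (c := (1 : ℂ))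
      rw [Lp.simpleFunc.coe_indicatorConst]
      filter_upwards [e1, e2] with x hx1 hx2
      rw [hx1, hx2]
      by_cases hxs : x ∈ s
      · simp [hxs]
      · simp [hxs]
    rw [h1]
    exact (isCompactOperator_of_locallyCompactSpace_dom L).clm_comp _
  | add hf hg _ h1 h2 =>
    rw [map_add]
    exact h1.add h2
  | isClosed =>
    exact isClosed_setOfPred_isCompactOperator.preimage B.continuous

theorem exists_op {μ : Measure ℂ} [IsFiniteMeasure μ] {K : ℂ → ℂ} (hK : Nice K) :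
    ∃ T : Lp ℂ 2 μ →L[ℂ] Lp ℂ 2 μ, IsCompactOperator T ∧ ∀ f g : Lp ℂ 2 μ,
      inner ℂ g (T f) = ∫ ζ, (f : ℂ → ℂ) ζ * ∫ z, K (z - ζ) * conj ((g : ℂ → ℂ) z) ∂μ ∂μ := by
  obtain ⟨M, hM0, hM⟩ := hK.bdd
  obtain ⟨C, hC0, hC⟩ := hK.lip
  let F : ℂ → BoundedContinuousFunction ℂ ℂ := fun ζ =>
    BoundedContinuousFunction.ofNormedAddCommGroup (fun z => K (z - ζ))
      (hK.continuous.comp (by fun_prop)) M (fun z => hM _)
  have hF : Continuous F := by
    refine (LipschitzWith.of_dist_le_mul (K := ⟨C, hC0⟩) fun x y => ?_).continuous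
    rw [BoundedContinuousFunction.dist_le (by positivity)]
    intro z
    rw [dist_eq_norm, dist_eq_norm]
    refine (hC _ _).trans (le_of_eq ?_)
    show C * _ = C * _
    congr 1
    rw [show z - x - (z - y) = -(x - y) by ring, norm_neg]
  let κ₀ : ℂ → Lp ℂ 2 μ := fun ζ => BoundedContinuousFunction.toLp 2 μ ℂ (F ζ)
  have hκc : Continuous κ₀ := (ContinuousLinearMap.continuous _).comp hF
  have hκb : ∀ ζ, ‖κ₀ ζ‖ ≤ ‖(BoundedContinuousFunction.toLp 2 μ ℂ :
      BoundedContinuousFunction ℂ ℂ →L[ℂ] Lp ℂ 2 μ)‖ * M := fun ζ =>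
    (ContinuousLinearMap.le_opNorm _ _).trans (mul_le_mul_of_nonneg_left
      (BoundedContinuousFunction.norm_ofNormedAddCommGroup_le _ hM0 _) (norm_nonneg _))
  have hκm : MemLp κ₀ 2 μ := MemLp.of_bound hκc.aestronglyMeasurable _ (Eventually.of_forall hκb)
  refine ⟨((ContinuousLinearMap.lsmul ℂ ℂ : ℂ →L[ℂ] Lp ℂ 2 μ →L[ℂ] Lp ℂ 2 μ).lpPairing
    μ 2 2).flip (hκm.toLp κ₀), compact_pairing _, fun f g => ?_⟩
  have hint : Integrable (fun ζ => (f : ℂ → ℂ) ζ • κ₀ ζ) μ := by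
    have := MemLp.smul (r := 1) hκm (Lp.memLp f)
    exact memLp_one_iff_integrable.1 this
  have e1 : (((ContinuousLinearMap.lsmul ℂ ℂ : ℂ →L[ℂ] Lp ℂ 2 μ →L[ℂ] Lp ℂ 2 μ).lpPairing
      μ 2 2).flip (hκm.toLp κ₀)) f = ∫ ζ, (f : ℂ → ℂ) ζ • κ₀ ζ ∂μ := by
    rw [ContinuousLinearMap.flip_apply, ContinuousLinearMap.lpPairing_eq_integral]
    apply integral_congr_ae
    filter_upwards [hκm.coeFn_toLp] with ζ hζ
    rw [hζ, ContinuousLinearMap.lsmul_apply]
  rw [e1, ← integral_inner hint]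
  apply integral_congr_ae
  refine Eventually.of_forall fun ζ => ?_
  simp only
  rw [inner_smul_right, MeasureTheory.L2.inner_def]
  congr 1
  apply integral_congr_ae
  filter_upwards [BoundedContinuousFunction.coeFn_toLp 2 μ ℂ (F ζ)] with z hz
  show inner ℂ ((g : ℂ → ℂ) z) ((BoundedContinuousFunction.toLp 2 μ ℂ (F ζ) : Lp ℂ 2 μ) z) = _
  rw [hz]
  rw [RCLike.inner_apply]
  rfl

/-- the bilinear pairing property -/
def Rep (μ : Measure ℂ) (K : ℂ → ℂ) (T : Lp ℂ 2 μ →L[ℂ] Lp ℂ 2 μ) : Prop :=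
  ∀ f g : Lp ℂ 2 μ,
      inner ℂ g (T f) = ∫ ζ, (f : ℂ → ℂ) ζ * ∫ z, K (z - ζ) * conj ((g : ℂ → ℂ) z) ∂μ ∂μ

theorem int_f {μ : Measure ℂ} [IsFiniteMeasure μ] (f : Lp ℂ 2 μ) :
    Integrable (f : ℂ → ℂ) μ := (Lp.memLp f).integrable one_le_two

theorem int_sq {μ : Measure ℂ} (f : Lp ℂ 2 μ) :
    Integrable (fun z => ‖(f : ℂ → ℂ) z‖ ^ 2) μ :=
  (memLp_two_iff_integrable_sq_norm (Lp.memLp f).1).1 (Lp.memLp f)

theorem int_inner {μ : Measure ℂ} [IsFiniteMeasure μ] {K : ℂ → ℂ} (hK : Nice K) (g : Lp ℂ 2 μ)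
    (ζ : ℂ) : Integrable (fun z => K (z - ζ) * conj ((g : ℂ → ℂ) z)) μ := by
  obtain ⟨M, hM0, hM⟩ := hK.bdd
  have h1 : Integrable (fun z => conj ((g : ℂ → ℂ) z)) μ :=
    (int_f g).norm.mono' (Complex.continuous_conj.comp_aestronglyMeasurable (int_f g).1)
      (Eventually.of_forall fun z => by simp)
  exact h1.bdd_mul (c := M) (hK.continuous.comp (by fun_prop)).aestronglyMeasurable
    (Eventually.of_forall fun z => hM _)

theorem int_prod {μ : Measure ℂ} [IsFiniteMeasure μ] {K : ℂ → ℂ} (hK : Nice K) (f g : Lp ℂ 2 μ) :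
    Integrable (fun p : ℂ × ℂ => (f : ℂ → ℂ) p.1 * (K (p.2 - p.1) * conj ((g : ℂ → ℂ) p.2)))
      (μ.prod μ) := by
  obtain ⟨M, hM0, hM⟩ := hK.bdd
  have h1 : Integrable (fun z => conj ((g : ℂ → ℂ) z)) μ :=
    (int_f g).norm.mono' (Complex.continuous_conj.comp_aestronglyMeasurable (int_f g).1)
      (Eventually.of_forall fun z => by simp)
  have h2 : Integrable (fun p : ℂ × ℂ => (f : ℂ → ℂ) p.1 * conj ((g : ℂ → ℂ) p.2)) (μ.prod μ) :=
    (int_f f).mul_prod h1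
  have h3 := h2.bdd_mul (c := M) (f := fun p : ℂ × ℂ => K (p.2 - p.1))
    (hK.continuous.comp (by fun_prop)).aestronglyMeasurable
    (Eventually.of_forall fun z => hM _)
  refine h3.congr (Eventually.of_forall fun p => ?_)
  simp only
  ring

theorem int_outer {μ : Measure ℂ} [IsFiniteMeasure μ] {K : ℂ → ℂ} (hK : Nice K) (f g : Lp ℂ 2 μ) :
    Integrable (fun ζ => (f : ℂ → ℂ) ζ * ∫ z, K (z - ζ) * conj ((g : ℂ → ℂ) z) ∂μ) μ := by
  have := (int_prod hK f g).integral_prod_left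
  refine this.congr (Eventually.of_forall fun ζ => ?_)
  simp only
  rw [integral_const_mul]

theorem Rep.sub {μ : Measure ℂ} [IsFiniteMeasure μ] {K L : ℂ → ℂ} (hK : Nice K) (hL : Nice L)
    {S T : Lp ℂ 2 μ →L[ℂ] Lp ℂ 2 μ} (hS : Rep μ K S) (hT : Rep μ L T) :
    Rep μ (fun w => K w - L w) (S - T) := by
  intro f g
  rw [sub_apply, inner_sub_right, hS f g, hT f g,
    ← integral_sub (int_outer hK f g) (int_outer hL f g)]
  apply integral_congr_ae
  refine Eventually.of_forall fun ζ => ?_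
  simp only
  rw [← mul_sub, ← integral_sub (int_inner hK g ζ) (int_inner hL g ζ)]
  congr 1
  apply integral_congr_ae
  refine Eventually.of_forall fun z => ?_
  simp only
  ring

theorem norm_sq_eq {μ : Measure ℂ} (f : Lp ℂ 2 μ) : ‖f‖ ^ 2 = ∫ z, ‖(f : ℂ → ℂ) z‖ ^ 2 ∂μ := by
  have h1 := inner_self_eq_norm_sq_to_K (𝕜 := ℂ) f
  rw [MeasureTheory.L2.inner_def] at h1
  have h2 : ∫ z, inner ℂ ((f : ℂ → ℂ) z) ((f : ℂ → ℂ) z) ∂μ =
      ((∫ z, ‖(f : ℂ → ℂ) z‖ ^ 2 ∂μ : ℝ) : ℂ) := by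
    rw [← integral_complex_ofReal]
    apply integral_congr_ae
    refine Eventually.of_forall fun z => ?_
    simp only
    rw [inner_self_eq_norm_sq_to_K]
    simp
  rw [h2] at h1
  have h3 : ((∫ z, ‖(f : ℂ → ℂ) z‖ ^ 2 ∂μ : ℝ) : ℂ) = ((‖f‖ ^ 2 : ℝ) : ℂ) := by
    rw [h1]; simp
  exact (Complex.ofReal_injective h3).symm

/-- Young's inequality -/
theorem young {V : Set ℂ} {ρ : ℝ} (hV : V ⊆ ball 0 ρ) (hVm : MeasurableSet V)
    {μ : Measure ℂ} [IsFiniteMeasure μ] (hμ : μ = volume.restrict V)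
    {K : ℂ → ℂ} (hK : Nice K) {T : Lp ℂ 2 μ →L[ℂ] Lp ℂ 2 μ}
    (hT : Rep μ K T) : ‖T‖ ≤ ∫ w in ball (0 : ℂ) (2 * ρ), ‖K w‖ := by
  set I := ∫ w in ball (0 : ℂ) (2 * ρ), ‖K w‖ with hI
  have hI0 : 0 ≤ I := integral_nonneg fun _ => norm_nonneg _
  obtain ⟨M, hM0, hM⟩ := hK.bdd
  have hKint : ∀ s : Set ℂ, volume s ≠ ⊤ → IntegrableOn (fun w => ‖K w‖) s := fun s hs =>
    Measure.integrableOn_of_bounded (M := M) hs hK.continuous.norm.aestronglyMeasurable
      (Eventually.of_forall fun w => by simpa using hM w)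
  have hball : volume (ball (0 : ℂ) (2 * ρ)) ≠ ⊤ := measure_ball_lt_top.ne
  -- inner integrals
  have hV1 : ∀ ζ ∈ V, ∫ z, ‖K (z - ζ)‖ ∂μ ≤ I := by
    intro ζ hζ
    have e1 : ∫ z, ‖K (z - ζ)‖ ∂μ = ∫ z, V.indicator (fun z => ‖K (z - ζ)‖) z := by
      rw [hμ, integral_indicator hVm]
    have e2 : I = ∫ z, (ball (0 : ℂ) (2 * ρ)).indicator (fun z => ‖K z‖) (z - ζ) := by
      rw [integral_sub_right_eq_self (fun z => (ball (0 : ℂ) (2 * ρ)).indicator
        (fun z => ‖K z‖) z) ζ, integral_indicator measurableSet_ball]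
    rw [e1, e2]
    apply integral_mono_of_nonneg
    · exact Eventually.of_forall fun z => indicator_nonneg (fun _ _ => norm_nonneg _) _
    · have : Integrable ((ball (0 : ℂ) (2 * ρ)).indicator (fun z => ‖K z‖)) :=
        (hKint _ hball).integrable_indicator measurableSet_ball
      exact this.comp_sub_right ζ
    · refine Eventually.of_forall fun z => ?_
      simp only
      by_cases hz : z ∈ V
      · rw [indicator_of_mem hz, indicator_of_mem]
        rw [mem_ball_zero_iff]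
        have h1 := mem_ball_zero_iff.1 (hV hz)
        have h2 := mem_ball_zero_iff.1 (hV hζ)
        exact (norm_sub_le _ _).trans_lt (by linarith)
      · rw [indicator_of_notMem hz]
        exact indicator_nonneg (fun _ _ => norm_nonneg _) _
  have hV2 : ∀ z ∈ V, ∫ ζ, ‖K (z - ζ)‖ ∂μ ≤ I := by
    intro z hz
    have e1 : ∫ ζ, ‖K (z - ζ)‖ ∂μ = ∫ ζ, V.indicator (fun ζ => ‖K (z - ζ)‖) ζ := by
      rw [hμ, integral_indicator hVm]
    have e2 : I = ∫ ζ, (ball (0 : ℂ) (2 * ρ)).indicator (fun z => ‖K z‖) (z - ζ) := by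
      rw [integral_sub_left_eq_self (fun z => (ball (0 : ℂ) (2 * ρ)).indicator
        (fun z => ‖K z‖) z) volume z, integral_indicator measurableSet_ball]
    rw [e1, e2]
    apply integral_mono_of_nonneg
    · exact Eventually.of_forall fun z => indicator_nonneg (fun _ _ => norm_nonneg _) _
    · have : Integrable ((ball (0 : ℂ) (2 * ρ)).indicator (fun z => ‖K z‖)) :=
        (hKint _ hball).integrable_indicator measurableSet_ball
      exact this.comp_sub_left z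
    · refine Eventually.of_forall fun ζ => ?_
      simp only
      by_cases hζ : ζ ∈ V
      · rw [indicator_of_mem hζ, indicator_of_mem]
        rw [mem_ball_zero_iff]
        have h1 := mem_ball_zero_iff.1 (hV hz)
        have h2 := mem_ball_zero_iff.1 (hV hζ)
        exact (norm_sub_le _ _).trans_lt (by linarith)
      · rw [indicator_of_notMem hζ]
        exact indicator_nonneg (fun _ _ => norm_nonneg _) _
  have hmem : ∀ᵐ z ∂μ, z ∈ V := by rw [hμ]; exact ae_restrict_mem hVm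
  -- the AM-GM bound
  have key : ∀ f g : Lp ℂ 2 μ, ∀ t > 0,
      ‖(inner ℂ g (T f) : ℂ)‖ ≤ 2⁻¹ * I * (t * ‖f‖ ^ 2 + t⁻¹ * ‖g‖ ^ 2) := by
    intro f g t ht
    rw [hT f g]
    have hP1 : Integrable (fun p : ℂ × ℂ => ‖K (p.2 - p.1)‖ * ‖(f : ℂ → ℂ) p.1‖ ^ 2)
        (μ.prod μ) := by
      have h2 : Integrable (fun p : ℂ × ℂ => ‖(f : ℂ → ℂ) p.1‖ ^ 2 * (1 : ℝ)) (μ.prod μ) :=
        (int_sq f).mul_prod (integrable_const (1 : ℝ))
      have h3 := h2.bdd_mul (c := M) (f := fun p : ℂ × ℂ => ‖K (p.2 - p.1)‖)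
        (hK.continuous.norm.comp (by fun_prop)).aestronglyMeasurable
        (Eventually.of_forall fun z => by simpa using hM _)
      refine h3.congr (Eventually.of_forall fun p => ?_)
      simp
    have hP2 : Integrable (fun p : ℂ × ℂ => ‖K (p.2 - p.1)‖ * ‖(g : ℂ → ℂ) p.2‖ ^ 2)
        (μ.prod μ) := by
      have h2 : Integrable (fun p : ℂ × ℂ => (1 : ℝ) * ‖(g : ℂ → ℂ) p.2‖ ^ 2) (μ.prod μ) :=
        (integrable_const (1 : ℝ)).mul_prod (int_sq g)
      have h3 := h2.bdd_mul (c := M) (f := fun p : ℂ × ℂ => ‖K (p.2 - p.1)‖)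
        (hK.continuous.norm.comp (by fun_prop)).aestronglyMeasurable
        (Eventually.of_forall fun z => by simpa using hM _)
      refine h3.congr (Eventually.of_forall fun p => ?_)
      simp
    -- rewrite as a product integral
    have e1 : ∫ ζ, (f : ℂ → ℂ) ζ * ∫ z, K (z - ζ) * conj ((g : ℂ → ℂ) z) ∂μ ∂μ =
        ∫ p, (f : ℂ → ℂ) p.1 * (K (p.2 - p.1) * conj ((g : ℂ → ℂ) p.2)) ∂(μ.prod μ) := by
      rw [integral_prod _ (int_prod hK f g)]
      apply integral_congr_ae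
      refine Eventually.of_forall fun ζ => ?_
      simp only
      rw [integral_const_mul]
    rw [e1]
    refine (norm_integral_le_integral_norm _).trans ?_
    have e2 : ∫ p, ‖(f : ℂ → ℂ) p.1 * (K (p.2 - p.1) * conj ((g : ℂ → ℂ) p.2))‖ ∂(μ.prod μ) ≤
        ∫ p, (2⁻¹ * t * (‖K (p.2 - p.1)‖ * ‖(f : ℂ → ℂ) p.1‖ ^ 2) +
          2⁻¹ * t⁻¹ * (‖K (p.2 - p.1)‖ * ‖(g : ℂ → ℂ) p.2‖ ^ 2)) ∂(μ.prod μ) := by
      apply integral_mono (int_prod hK f g).norm
        ((hP1.const_mul (2⁻¹ * t)).add (hP2.const_mul (2⁻¹ * t⁻¹)))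
      intro p
      simp only [norm_mul, RCLike.norm_conj]
      have h1 : ‖(f : ℂ → ℂ) p.1‖ * ‖(g : ℂ → ℂ) p.2‖ ≤
          2⁻¹ * t * ‖(f : ℂ → ℂ) p.1‖ ^ 2 + 2⁻¹ * t⁻¹ * ‖(g : ℂ → ℂ) p.2‖ ^ 2 := by
        have h2 := sq_nonneg (t * ‖(f : ℂ → ℂ) p.1‖ - ‖(g : ℂ → ℂ) p.2‖)
        have h3 : 2⁻¹ * t * ‖(f : ℂ → ℂ) p.1‖ ^ 2 + 2⁻¹ * t⁻¹ * ‖(g : ℂ → ℂ) p.2‖ ^ 2 -
            ‖(f : ℂ → ℂ) p.1‖ * ‖(g : ℂ → ℂ) p.2‖ =
            2⁻¹ * t⁻¹ * (t * ‖(f : ℂ → ℂ) p.1‖ - ‖(g : ℂ → ℂ) p.2‖) ^ 2 := by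
          field_simp
          ring
        have h4 : 0 ≤ 2⁻¹ * t⁻¹ * (t * ‖(f : ℂ → ℂ) p.1‖ - ‖(g : ℂ → ℂ) p.2‖) ^ 2 := by
          positivity
        linarith
      calc ‖(f : ℂ → ℂ) p.1‖ * (‖K (p.2 - p.1)‖ * ‖(g : ℂ → ℂ) p.2‖)
          = ‖K (p.2 - p.1)‖ * (‖(f : ℂ → ℂ) p.1‖ * ‖(g : ℂ → ℂ) p.2‖) := by ring
        _ ≤ ‖K (p.2 - p.1)‖ * (2⁻¹ * t * ‖(f : ℂ → ℂ) p.1‖ ^ 2 +
            2⁻¹ * t⁻¹ * ‖(g : ℂ → ℂ) p.2‖ ^ 2) :=
            mul_le_mul_of_nonneg_left h1 (norm_nonneg _)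
        _ = _ := by simp only [Pi.add_apply]; ring
    refine e2.trans ?_
    rw [integral_add (hP1.const_mul _) (hP2.const_mul _), integral_const_mul, integral_const_mul]
    have b1 : ∫ p, ‖K (p.2 - p.1)‖ * ‖(f : ℂ → ℂ) p.1‖ ^ 2 ∂(μ.prod μ) ≤ I * ‖f‖ ^ 2 := by
      rw [integral_prod _ hP1, norm_sq_eq f, ← integral_const_mul]
      apply integral_mono_of_nonneg
      · exact Eventually.of_forall fun ζ => integral_nonneg fun z => by positivity
      · exact (int_sq f).const_mul _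
      · filter_upwards [hmem] with ζ hζ
        rw [integral_mul_const]
        exact mul_le_mul_of_nonneg_right (hV1 ζ hζ) (by positivity)
    have b2 : ∫ p, ‖K (p.2 - p.1)‖ * ‖(g : ℂ → ℂ) p.2‖ ^ 2 ∂(μ.prod μ) ≤ I * ‖g‖ ^ 2 := by
      rw [integral_prod_symm _ hP2, norm_sq_eq g, ← integral_const_mul]
      apply integral_mono_of_nonneg
      · exact Eventually.of_forall fun ζ => integral_nonneg fun z => by positivity
      · exact (int_sq g).const_mul _
      · filter_upwards [hmem] with z hz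
        rw [integral_mul_const]
        exact mul_le_mul_of_nonneg_right (hV2 z hz) (by positivity)
    have c1 := mul_le_mul_of_nonneg_left b1 (by positivity : (0 : ℝ) ≤ 2⁻¹ * t)
    have c2 := mul_le_mul_of_nonneg_left b2 (by positivity : (0 : ℝ) ≤ 2⁻¹ * t⁻¹)
    calc _ ≤ _ := add_le_add c1 c2
      _ = _ := by ring
  refine ContinuousLinearMap.opNorm_le_bound _ hI0 fun f => ?_
  by_cases hf : ‖f‖ = 0
  · have : f = 0 := norm_eq_zero.1 hf
    simp [this]
  by_cases hTf : ‖T f‖ = 0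
  · rw [hTf]; positivity
  have hf' : 0 < ‖f‖ := lt_of_le_of_ne (norm_nonneg _) (Ne.symm hf)
  have hTf' : 0 < ‖T f‖ := lt_of_le_of_ne (norm_nonneg _) (Ne.symm hTf)
  have h1 := key f (T f) (‖T f‖ / ‖f‖) (by positivity)
  rw [inner_self_eq_norm_sq_to_K, norm_pow, RCLike.norm_ofReal, abs_norm] at h1
  have h3 : ‖T f‖ ^ 2 ≤ 2⁻¹ * I * (‖T f‖ / ‖f‖ * ‖f‖ ^ 2 + (‖T f‖ / ‖f‖)⁻¹ * ‖T f‖ ^ 2) := h1
  have h4 : 2⁻¹ * I * (‖T f‖ / ‖f‖ * ‖f‖ ^ 2 + (‖T f‖ / ‖f‖)⁻¹ * ‖T f‖ ^ 2) =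
      I * ‖f‖ * ‖T f‖ := by
    field_simp
    ring
  rw [h4] at h3
  have h5 : ‖T f‖ * ‖T f‖ ≤ I * ‖f‖ * ‖T f‖ := by nlinarith
  exact le_of_mul_le_mul_right h5 hTf'

/-- regularised Cauchy kernel -/
noncomputable def ker (ε : ℝ) (w : ℂ) : ℂ := conj w * (((‖w‖ ^ 2 + ε ^ 2)⁻¹ : ℝ) : ℂ)

/-- regularised delta function -/
noncomputable def pk (ε : ℝ) (w : ℂ) : ℝ := ε ^ 2 * ((‖w‖ ^ 2 + ε ^ 2)⁻¹) ^ 2

theorem ker_norm_le (ε : ℝ) (w : ℂ) : ‖ker ε w‖ ≤ ‖w‖⁻¹ := by
  rw [ker, norm_mul, RCLike.norm_conj, Complex.norm_real, Real.norm_eq_abs,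
    abs_of_nonneg (by positivity)]
  by_cases hw : ‖w‖ = 0
  · rw [hw]; simp
  have hw' : 0 < ‖w‖ := lt_of_le_of_ne (norm_nonneg _) (Ne.symm hw)
  rw [← div_eq_mul_inv, div_le_iff₀ (by positivity)]
  have : ‖w‖⁻¹ * (‖w‖ ^ 2 + ε ^ 2) = ‖w‖ + ‖w‖⁻¹ * ε ^ 2 := by field_simp
  rw [this]
  have : 0 ≤ ‖w‖⁻¹ * ε ^ 2 := by positivity
  linarith

theorem ker_nice {ε : ℝ} (hε : 0 < ε) : Nice (ker ε) := by
  constructor
  · refine ⟨ε⁻¹, by positivity, fun w => ?_⟩
    rw [ker, norm_mul, RCLike.norm_conj, Complex.norm_real, Real.norm_eq_abs,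
      abs_of_nonneg (by positivity), ← div_eq_mul_inv, div_le_iff₀ (by positivity)]
    have h1 : ε⁻¹ * (‖w‖ ^ 2 + ε ^ 2) - ‖w‖ = ε⁻¹ * ((‖w‖ - ε / 2) ^ 2 + 3 / 4 * ε ^ 2) := by
      field_simp; ring
    have h2 : 0 ≤ ε⁻¹ * ((‖w‖ - ε / 2) ^ 2 + 3 / 4 * ε ^ 2) := by positivity
    linarith
  · refine ⟨3 / ε ^ 2, by positivity, fun w w' => ?_⟩
    set a := ‖w‖ ^ 2 + ε ^ 2 with ha
    set b := ‖w'‖ ^ 2 + ε ^ 2 with hb
    have ha0 : ε ^ 2 ≤ a := by rw [ha]; nlinarith [sq_nonneg ‖w‖]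
    have hb0 : ε ^ 2 ≤ b := by rw [hb]; nlinarith [sq_nonneg ‖w'‖]
    have hε2 : 0 < ε ^ 2 := by positivity
    have hap : 0 < a := by linarith
    have hbp : 0 < b := by linarith
    have e1 : ker ε w - ker ε w' =
        (conj (w - w') * (b : ℂ) + conj w' * ((b - a : ℝ) : ℂ)) * (((a * b)⁻¹ : ℝ) : ℂ) := by
      have ha' : (a : ℂ) ≠ 0 := by exact_mod_cast hap.ne'
      have hb' : (b : ℂ) ≠ 0 := by exact_mod_cast hbp.ne'
      rw [ker, ker, ← ha, ← hb]
      push_cast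
      rw [map_sub]
      field_simp
      ring
    rw [e1, norm_mul, Complex.norm_real, Real.norm_eq_abs, abs_of_nonneg (by positivity),
      ← div_eq_mul_inv, div_le_iff₀ (by positivity)]
    have h1 : ‖conj (w - w') * (b : ℂ) + conj w' * ((b - a : ℝ) : ℂ)‖ ≤
        ‖w - w'‖ * b + ‖w'‖ * |b - a| := by
      refine (norm_add_le _ _).trans (le_of_eq ?_)
      rw [norm_mul, norm_mul, RCLike.norm_conj, RCLike.norm_conj, Complex.norm_real,
        Complex.norm_real, Real.norm_eq_abs, Real.norm_eq_abs, abs_of_pos hbp]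
    have h2 : |b - a| ≤ ‖w - w'‖ * (‖w‖ + ‖w'‖) := by
      have : b - a = (‖w'‖ - ‖w‖) * (‖w‖ + ‖w'‖) := by rw [ha, hb]; ring
      rw [this, abs_mul, abs_of_nonneg (by positivity : (0:ℝ) ≤ ‖w‖ + ‖w'‖)]
      refine mul_le_mul_of_nonneg_right ?_ (by positivity)
      have := abs_norm_sub_norm_le w' w
      rwa [norm_sub_rev] at this
    have h3 : ‖w'‖ * |b - a| ≤ ‖w'‖ * (‖w - w'‖ * (‖w‖ + ‖w'‖)) :=
      mul_le_mul_of_nonneg_left h2 (norm_nonneg _)
    refine h1.trans ((add_le_add_right h3 _).trans ?_)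
    have h4 : b + ‖w'‖ ^ 2 + ‖w'‖ * ‖w‖ ≤ 3 / ε ^ 2 * (a * b) := by
      rw [div_mul_eq_mul_div, le_div_iff₀ hε2]
      have k1 : b * ε ^ 2 ≤ a * b := by nlinarith
      have k2 : a * ε ^ 2 ≤ a * b := by nlinarith
      have k3 : ‖w'‖ ^ 2 ≤ b := by rw [hb]; nlinarith
      have k4 : ‖w‖ ^ 2 ≤ a := by rw [ha]; nlinarith
      have k5 : ‖w'‖ * ‖w‖ ≤ (a + b) / 2 := by nlinarith [sq_nonneg (‖w'‖ - ‖w‖)]
      nlinarith
    have h5 := mul_le_mul_of_nonneg_left h4 (norm_nonneg (w - w'))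
    calc _ = ‖w - w'‖ * (b + ‖w'‖ ^ 2 + ‖w'‖ * ‖w‖) := by ring
      _ ≤ _ := h5
      _ = _ := by ring

theorem ker_contDiff {ε : ℝ} (hε : 0 < ε) : ContDiff ℝ (⊤ : ℕ∞) (ker ε) := by
  have h1 : ContDiff ℝ (⊤ : ℕ∞) (fun w : ℂ => conj w) := Complex.conjCLE.contDiff
  have h2 : ContDiff ℝ (⊤ : ℕ∞) (fun w : ℂ => (((‖w‖ ^ 2 + ε ^ 2)⁻¹ : ℝ) : ℂ)) := by
    refine Complex.ofRealCLM.contDiff.comp ?_
    refine ContDiff.inv ((contDiff_norm_sq ℝ).add contDiff_const) fun w => ?_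
    positivity
  exact h1.mul h2

theorem dzb_normSq (w : ℂ) : dzb (fun z : ℂ => ((‖z‖ ^ 2 : ℝ) : ℂ)) w = w := by
  have e : (fun z : ℂ => ((‖z‖ ^ 2 : ℝ) : ℂ)) = fun z => z • conj z := by
    funext z
    rw [smul_eq_mul, Complex.mul_conj, Complex.normSq_eq_norm_sq]
  rw [e, (dz_smul (f := fun z => z) (F := fun z => conj z) differentiableAt_id
    (Complex.conjCLE.differentiable w)).2,
    (dz_hol (F := fun z : ℂ => z) differentiableAt_id).2,
    (dz_conj_hol (f := fun z : ℂ => z) differentiableAt_id).2]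
  simp

theorem dzb_ker {ε : ℝ} (hε : 0 < ε) (w : ℂ) : dzb (ker ε) w = (pk ε w : ℂ) := by
  have hd : DifferentiableAt ℝ (fun z : ℂ => ‖z‖ ^ 2) w :=
    ((contDiff_norm_sq ℝ (n := 1)).differentiable (by norm_num)) w
  have hp : (‖w‖ ^ 2 + ε ^ 2) ≠ 0 := by positivity
  have hG : HasDerivAt (fun x : ℝ => (x + ε ^ 2)⁻¹) (-1 / (‖w‖ ^ 2 + ε ^ 2) ^ 2) (‖w‖ ^ 2) := by
    exact ((hasDerivAt_id (‖w‖ ^ 2)).add_const (ε ^ 2)).inv hp
  have h1 := (dz_comp_real (ρ := fun z : ℂ => ‖z‖ ^ 2) hd hG).2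
  rw [dzb_normSq] at h1
  have e : ker ε = fun z : ℂ => conj z • (((‖z‖ ^ 2 + ε ^ 2)⁻¹ : ℝ) : ℂ) := by
    funext z; rw [ker, smul_eq_mul]
  have hd2 : DifferentiableAt ℝ (fun z : ℂ => (((‖z‖ ^ 2 + ε ^ 2)⁻¹ : ℝ) : ℂ)) w := by
    have : DifferentiableAt ℝ (fun z : ℂ => (‖z‖ ^ 2 + ε ^ 2)⁻¹) w := by
      have h2 := hG.comp_hasFDerivAt w hd.hasFDerivAt
      exact h2.differentiableAt
    exact Complex.ofRealCLM.differentiableAt.comp w this
  rw [e, (dz_smul (f := fun z => conj z) (F := fun z : ℂ => (((‖z‖ ^ 2 + ε ^ 2)⁻¹ : ℝ) : ℂ))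
    (Complex.conjCLE.differentiable w) hd2).2, h1,
    (dz_conj_hol (f := fun z : ℂ => z) differentiableAt_id).2]
  have hpc : ((‖w‖ : ℂ) ^ 2 + (ε : ℂ) ^ 2) ≠ 0 := by exact_mod_cast hp
  have hww : conj w * w = (‖w‖ : ℂ) ^ 2 := by
    rw [mul_comm, Complex.mul_conj, Complex.normSq_eq_norm_sq]; push_cast; rfl
  simp only [smul_eq_mul, pk, deriv_id'', map_one, one_mul]
  push_cast
  field_simp
  linear_combination -hww

theorem pk_nonneg (ε : ℝ) (w : ℂ) : 0 ≤ pk ε w := by unfold pk; positivity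

theorem pk_integrable : Integrable (pk 1) := by
  have h1 : Integrable (fun w : ℂ => ((1 : ℝ) + ‖w‖ ^ 2) ^ (-(4 : ℝ) / 2)) := by
    apply integrable_rpow_neg_one_add_norm_sq
    rw [Complex.finrank_real_complex]; norm_num
  refine h1.congr (Eventually.of_forall fun w => ?_)
  simp only [pk]
  rw [show (-(4 : ℝ) / 2) = -(2 : ℕ) by norm_num, Real.rpow_neg (by positivity),
    Real.rpow_natCast, inv_pow, add_comm]
  ring

theorem pk_pos : 0 < ∫ w, pk 1 w := by
  rw [integral_pos_iff_support_of_nonneg (pk_nonneg 1) pk_integrable]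
  have : Function.support (pk 1) = univ := by
    rw [eq_univ_iff_forall]
    intro w
    rw [Function.mem_support]
    have : 0 < pk 1 w := by unfold pk; positivity
    exact this.ne'
  rw [this]
  simp

/-- approximate identity -/
theorem pk_tendsto {φ : ℂ → ℂ} (hφ : Continuous φ) {M : ℝ} (hM : ∀ z, ‖φ z‖ ≤ M) (ζ : ℂ) :
    Tendsto (fun ε : ℝ => ∫ w, (pk ε w : ℂ) * φ (ζ + w)) (𝓝[>] 0)
      (𝓝 ((∫ w, (pk 1 w : ℂ)) * φ ζ)) ∧
    ∀ ε : ℝ, 0 < ε → ‖∫ w, (pk ε w : ℂ) * φ (ζ + w)‖ ≤ (∫ w, pk 1 w) * M := by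
  have e1 : ∀ ε : ℝ, 0 < ε →
      ∫ w, (pk ε w : ℂ) * φ (ζ + w) = ∫ u, (pk 1 u : ℂ) * φ (ζ + ε • u) := by
    intro ε hε
    have h1 := Measure.integral_comp_smul (volume : Measure ℂ)
      (fun w => (pk ε w : ℂ) * φ (ζ + w)) ε
    rw [Complex.finrank_real_complex] at h1
    have h2 : ∀ u : ℂ, (pk ε (ε • u) : ℂ) * φ (ζ + ε • u) =
        ((ε ^ 2)⁻¹ : ℝ) • ((pk 1 u : ℂ) * φ (ζ + ε • u)) := by
      intro u
      have : pk ε (ε • u) = (ε ^ 2)⁻¹ * pk 1 u := by
        have hp : (‖u‖ ^ 2 + 1) ≠ 0 := by positivity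
        unfold pk
        rw [norm_smul, Real.norm_eq_abs, mul_pow, sq_abs]
        have : ε ^ 2 * ‖u‖ ^ 2 + ε ^ 2 = ε ^ 2 * (‖u‖ ^ 2 + 1) := by ring
        rw [this, one_pow, one_mul]
        field_simp
      rw [this]
      simp only [Complex.real_smul]
      push_cast
      ring
    simp only [h2] at h1
    rw [integral_smul, abs_of_pos (by positivity)] at h1
    exact (smul_right_injective ℂ (by positivity : ((ε ^ 2)⁻¹ : ℝ) ≠ 0) h1).symm
  have hmeas : ∀ ε : ℝ, AEStronglyMeasurable (fun u : ℂ => (pk 1 u : ℂ) * φ (ζ + ε • u)) := by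
    intro ε
    refine (Complex.continuous_ofReal.comp_aestronglyMeasurable pk_integrable.1).mul ?_
    exact (hφ.comp (by fun_prop)).aestronglyMeasurable
  have hbd : ∀ ε : ℝ, ∀ u : ℂ, ‖(pk 1 u : ℂ) * φ (ζ + ε • u)‖ ≤ pk 1 u * M := by
    intro ε u
    rw [norm_mul, Complex.norm_real, Real.norm_eq_abs, abs_of_nonneg (pk_nonneg 1 u)]
    exact mul_le_mul_of_nonneg_left (hM _) (pk_nonneg 1 u)
  constructor
  · have h1 : Tendsto (fun ε : ℝ => ∫ u, (pk 1 u : ℂ) * φ (ζ + ε • u)) (𝓝[>] 0)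
        (𝓝 (∫ w, (pk 1 w : ℂ) * φ ζ)) := by
      apply tendsto_integral_filter_of_dominated_convergence (fun u => pk 1 u * M)
      · exact Eventually.of_forall hmeas
      · exact Eventually.of_forall fun ε => Eventually.of_forall (hbd ε)
      · exact pk_integrable.mul_const M
      · refine Eventually.of_forall fun u => ?_
        refine Tendsto.const_mul _ ?_
        have : Tendsto (fun ε : ℝ => φ (ζ + ε • u)) (𝓝 0) (𝓝 (φ (ζ + (0 : ℝ) • u))) :=
          (hφ.comp (by fun_prop : Continuous fun ε : ℝ => ζ + ε • u)).tendsto 0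
        rw [zero_smul, add_zero] at this
        exact this.mono_left nhdsWithin_le_nhds
    rw [integral_mul_const] at h1
    refine h1.congr' ?_
    filter_upwards [self_mem_nhdsWithin] with ε hε
    exact (e1 ε hε).symm
  · intro ε hε
    rw [e1 ε hε]
    refine (norm_integral_le_integral_norm _).trans ?_
    rw [← integral_mul_const]
    apply integral_mono_of_nonneg (Eventually.of_forall fun _ => norm_nonneg _)
      (pk_integrable.mul_const M) (Eventually.of_forall (hbd ε))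

theorem dzb_translate {F : ℂ → ℂ} (hF : Differentiable ℝ F) (ζ z : ℂ) :
    dzb (fun w => F (w - ζ)) z = dzb F (z - ζ) := by
  unfold dzb
  have : fderiv ℝ (fun w => F (w - ζ)) z = fderiv ℝ F (z - ζ) := by
    have h1 := (hF (z - ζ)).hasFDerivAt
    have h2 : HasFDerivAt (fun w : ℂ => w - ζ) (ContinuousLinearMap.id ℝ ℂ) z :=
      (hasFDerivAt_id z).sub_const ζ
    have h3 := h1.comp z h2
    rw [ContinuousLinearMap.comp_id] at h3
    exact h3.fderiv
  rw [this]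

/-- integration by parts with the regularised kernel -/
theorem ker_parts {ε : ℝ} (hε : 0 < ε) {φ : ℂ → ℂ} (hφ : ContDiff ℝ (⊤ : ℕ∞) φ)
    (hc : HasCompactSupport φ) (ζ : ℂ) :
    ∫ z, ker ε (z - ζ) * dzb φ z = -∫ w, (pk ε w : ℂ) * φ (ζ + w) := by
  have hk : ContDiff ℝ (⊤ : ℕ∞) (fun z => ker ε (z - ζ)) :=
    (ker_contDiff hε).comp (contDiff_id.sub contDiff_const)
  have hkd : Differentiable ℝ (ker ε) := (ker_contDiff hε).differentiable (by simp)
  have hG : ContDiff ℝ 1 (fun z => ker ε (z - ζ) • φ z) :=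
    (hk.of_le (by exact_mod_cast le_top)).smul (hφ.of_le (by exact_mod_cast le_top))
  have hGc : HasCompactSupport (fun z => ker ε (z - ζ) • φ z) := by
    refine hc.mono fun z hz h0 => hz ?_
    show ker ε (z - ζ) • φ z = 0
    rw [show φ z = 0 from h0, smul_zero]
  have h1 := (integral_dz_test hG hGc).2
  have hφd : Differentiable ℝ φ := hφ.differentiable (by simp)
  have h2 : ∀ z, dzb (fun z => ker ε (z - ζ) • φ z) z =
      (pk ε (z - ζ) : ℂ) * φ z + ker ε (z - ζ) * dzb φ z := by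
    intro z
    rw [(dz_smul (f := fun z => ker ε (z - ζ)) (F := φ)
      ((hk.differentiable (by simp)) z) (hφd z)).2, dzb_translate hkd, dzb_ker hε]
    simp only [smul_eq_mul]
  simp only [h2] at h1
  have hpk : Continuous (pk ε) := by
    unfold pk
    refine continuous_const.mul (Continuous.pow (Continuous.inv₀ (by fun_prop) fun w => ?_) 2)
    positivity
  have i1 : Integrable (fun z => (pk ε (z - ζ) : ℂ) * φ z) := by
    refine Continuous.integrable_of_hasCompactSupport ?_ (hc.mono fun z hz h0 => hz ?_)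
    · exact (Complex.continuous_ofReal.comp (hpk.comp (by fun_prop))).mul hφ.continuous
    · show (pk ε (z - ζ) : ℂ) * φ z = 0
      rw [show φ z = 0 from h0, mul_zero]
  have htest : IsTest univ φ := ⟨hφ, hc, subset_univ _⟩
  have i2 : Integrable (fun z => ker ε (z - ζ) * dzb φ z) := by
    refine Continuous.integrable_of_hasCompactSupport ?_
      (htest.dzb.compact.mono fun z hz h0 => hz ?_)
    · exact (hk.continuous).mul htest.dzb.smooth.continuous
    · show ker ε (z - ζ) * dzb φ z = 0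
      rw [show dzb φ z = 0 from h0, mul_zero]
  rw [integral_add i1 i2] at h1
  have h3 : ∫ z, (pk ε (z - ζ) : ℂ) * φ z = ∫ w, (pk ε w : ℂ) * φ (ζ + w) := by
    rw [← integral_sub_right_eq_self (fun w => (pk ε w : ℂ) * φ (ζ + w)) ζ]
    simp
  rw [← h3]
  linear_combination h1

/-- the kernels converge in `L¹` on balls -/
theorem ker_l1 (ρ : ℝ) :
    Tendsto (fun ε : ℝ => ∫ w in ball (0 : ℂ) ρ, ‖ker ε w - ker 0 w‖) (𝓝 0) (𝓝 0) ∧
    ∀ ε : ℝ, IntegrableOn (ker ε) (ball (0 : ℂ) ρ) := by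
  have hm : ∀ ε : ℝ, Measurable (ker ε) := by
    intro ε
    unfold ker
    fun_prop
  have hloc : LocallyIntegrable (fun w : ℂ => (‖w‖⁻¹ : ℝ)) := by
    refine locallyIntegrable_of_norm_le_rpow (C := 1) (α := 1) ?_ ?_ ?_ ?_
    · rw [Complex.finrank_real_complex]; norm_num
    · rw [Complex.finrank_real_complex]; norm_num
    · refine Eventually.of_forall fun w => ?_
      rw [norm_inv, norm_norm, one_mul, Real.rpow_neg_one]
    · exact (measurable_norm.inv).aestronglyMeasurable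
  have hint : IntegrableOn (fun w : ℂ => (‖w‖⁻¹ : ℝ)) (ball (0 : ℂ) ρ) :=
    (hloc.integrableOn_isCompact (isCompact_closedBall 0 ρ)).mono_set ball_subset_closedBall
  constructor
  · have h0 : (0 : ℝ) = ∫ w in ball (0 : ℂ) ρ, (0 : ℝ) := by simp
    conv =>
      arg 3
      rw [h0]
    apply tendsto_integral_filter_of_dominated_convergence (fun w => ‖w‖⁻¹ + ‖w‖⁻¹)
    · exact Eventually.of_forall fun ε => ((hm ε).sub (hm 0)).norm.aestronglyMeasurable
    · refine Eventually.of_forall fun ε => Eventually.of_forall fun w => ?_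
      rw [norm_norm]
      exact (norm_sub_le _ _).trans (add_le_add (ker_norm_le _ _) (ker_norm_le _ _))
    · exact hint.add hint
    · refine Eventually.of_forall fun w => ?_
      by_cases hw : w = 0
      · subst hw
        simp [ker]
      have hc : ContinuousAt (fun ε : ℝ => ‖ker ε w - ker 0 w‖) 0 := by
        have hne : ‖w‖ ^ 2 + (0 : ℝ) ^ 2 ≠ 0 := by
          have : 0 < ‖w‖ := norm_pos_iff.2 hw
          positivity
        unfold ker
        refine ContinuousAt.norm (ContinuousAt.sub (ContinuousAt.mul continuousAt_const ?_)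
          continuousAt_const)
        refine Complex.continuous_ofReal.continuousAt.comp ?_
        exact ContinuousAt.inv₀ (by fun_prop) hne
      have := hc.tendsto
      simpa using this
  · intro ε
    exact hint.mono' (hm ε).aestronglyMeasurable (Eventually.of_forall fun w => ker_norm_le _ _)

end C3aux

open C3aux in
theorem cauchy_transform {k : ℕ} (D : AJ k) :
    ∃ T : D.L2 →L[ℂ] D.L2, IsCompactOperator T ∧ ∀ f, D.WeakDbar (T f) f := by
  set ε : ℕ → ℝ := fun n => 1 / ((n : ℝ) + 1) with hεdef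
  have hε : ∀ n, 0 < ε n := fun n => by rw [hεdef]; positivity
  have hε0 : Tendsto ε atTop (𝓝 0) := tendsto_one_div_add_atTop_nhds_zero_nat
  have hε1 : Tendsto ε atTop (𝓝[>] 0) :=
    tendsto_nhdsWithin_iff.2 ⟨hε0, Eventually.of_forall hε⟩
  choose T hTc hTr using fun n => exists_op (μ := volume.restrict D.U) (ker_nice (hε n))
  obtain ⟨R, hR0, hUb⟩ := D.U_subset_ball
  set I : ℕ → ℝ := fun n => ∫ w in ball (0 : ℂ) (2 * R), ‖ker (ε n) w - ker 0 w‖ with hI
  have hI0 : Tendsto I atTop (𝓝 0) := (ker_l1 (2 * R)).1.comp hε0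
  have hIn : ∀ n, 0 ≤ I n := fun n => integral_nonneg fun _ => norm_nonneg _
  have hC : ∀ n m, ‖T n - T m‖ ≤ I n + I m := by
    intro n m
    have h1 := young hUb D.U_open.measurableSet (μ := volume.restrict D.U) rfl
      ((ker_nice (hε n)).sub (ker_nice (hε m)))
      (Rep.sub (ker_nice (hε n)) (ker_nice (hε m)) (hTr n) (hTr m))
    refine h1.trans ?_
    have j : ∀ n, IntegrableOn (fun w => ‖ker (ε n) w - ker 0 w‖) (ball (0 : ℂ) (2 * R)) :=
      fun n => (((ker_l1 (2 * R)).2 (ε n)).sub ((ker_l1 (2 * R)).2 0)).norm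
    rw [hI, ← integral_add (j n) (j m)]
    apply integral_mono_of_nonneg (Eventually.of_forall fun _ => norm_nonneg _)
      ((j n).add (j m))
    refine Eventually.of_forall fun w => ?_
    have : ker (ε n) w - ker (ε m) w = (ker (ε n) w - ker 0 w) - (ker (ε m) w - ker 0 w) := by
      ring
    simp only [Pi.add_apply]
    rw [this]
    exact norm_sub_le _ _
  have hCau : CauchySeq T := by
    rw [Metric.cauchySeq_iff']
    intro e he
    obtain ⟨N, hN⟩ := (hI0.eventually (gt_mem_nhds (half_pos he))).exists_forall_of_atTop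
    refine ⟨N, fun n hn => ?_⟩
    rw [dist_eq_norm]
    have := hC n N
    have h1 := hN n hn
    have h2 := hN N le_rfl
    linarith
  obtain ⟨T0, hT0⟩ := cauchySeq_tendsto_of_complete hCau
  have hcomp : IsCompactOperator T0 := isCompactOperator_of_tendsto hT0 (Eventually.of_forall hTc)
  set c : ℝ := ∫ w, pk 1 w with hc
  have hcpos : 0 < c := pk_pos
  have hcc : (c : ℂ) ≠ 0 := by exact_mod_cast hcpos.ne'
  refine ⟨(c : ℂ)⁻¹ • T0, by rw [FunLike.coe_smul]; exact hcomp.smul _,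
    fun f φ hφ => ?_⟩
  have hψ := hφ.dzb
  have hgm : MemLp (fun z => conj (dzb φ z)) 2 (volume.restrict D.U) := by
    refine Continuous.memLp_of_hasCompactSupport ?_ ?_
    · exact Complex.continuous_conj.comp hψ.smooth.continuous
    · refine hψ.compact.mono fun z hz h0 => hz ?_
      show conj (dzb φ z) = 0
      rw [show dzb φ z = 0 from h0, map_zero]
  set g : D.L2 := hgm.toLp _ with hg
  have hgz : ∀ᵐ z ∂(volume.restrict D.U), (g : ℂ → ℂ) z = conj (dzb φ z) := hgm.coeFn_toLp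
  have hpair : ∀ u : D.L2, inner ℂ g u = ∫ z in D.U, (u : ℂ → ℂ) z * dzb φ z := by
    intro u
    rw [MeasureTheory.L2.inner_def]
    apply integral_congr_ae
    filter_upwards [hgz] with z hz
    rw [RCLike.inner_apply, hz, Complex.conj_conj]
  have hφb : ∃ M, ∀ z, ‖φ z‖ ≤ M := hφ.smooth.continuous.bounded_above_of_compact_support hφ.compact
  obtain ⟨M, hM⟩ := hφb
  have hval : ∀ n, inner ℂ g (T n f) =
      ∫ ζ in D.U, (f : ℂ → ℂ) ζ * -∫ w, (pk (ε n) w : ℂ) * φ (ζ + w) := by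
    intro n
    rw [hTr n f g]
    apply integral_congr_ae
    refine Eventually.of_forall fun ζ => ?_
    simp only
    congr 1
    rw [← ker_parts (hε n) hφ.smooth hφ.compact ζ]
    have e1 : ∫ z in D.U, ker (ε n) (z - ζ) * conj ((g : ℂ → ℂ) z) =
        ∫ z in D.U, ker (ε n) (z - ζ) * dzb φ z := by
      apply integral_congr_ae
      filter_upwards [hgz] with z hz
      rw [hz, Complex.conj_conj]
    rw [e1]
    apply setIntegral_eq_integral_of_forall_compl_eq_zero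
    intro z hz
    have : dzb φ z = 0 := by
      by_contra h0
      exact hz (hψ.supp (subset_tsupport _ h0))
    rw [this, mul_zero]
  have hlim1 : Tendsto (fun n => (inner ℂ g (T n f) : ℂ)) atTop (𝓝 (inner ℂ g (T0 f))) := by
    have h1 : Tendsto (fun n => T n f) atTop (𝓝 (T0 f)) :=
      ((ContinuousLinearMap.apply ℂ _ f).continuous.tendsto T0).comp hT0
    exact Tendsto.inner tendsto_const_nhds h1
  have hlim2 : Tendsto (fun n => (inner ℂ g (T n f) : ℂ)) atTop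
      (𝓝 (∫ ζ in D.U, (f : ℂ → ℂ) ζ * -((∫ w, (pk 1 w : ℂ)) * φ ζ))) := by
    simp only [hval]
    apply tendsto_integral_filter_of_dominated_convergence
      (fun ζ => ‖(f : ℂ → ℂ) ζ‖ * (c * M))
    · refine Eventually.of_forall fun n => ?_
      refine (int_f f).1.mul ?_
      have : Continuous fun ζ => ∫ w, (pk (ε n) w : ℂ) * φ (ζ + w) := by
        have e2 : ∀ ζ, ∫ w, (pk (ε n) w : ℂ) * φ (ζ + w) =
            -∫ z, ker (ε n) (z - ζ) * dzb φ z := fun ζ => by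
          rw [ker_parts (hε n) hφ.smooth hφ.compact ζ, neg_neg]
        simp only [e2]
        refine Continuous.neg ?_
        obtain ⟨M1, hM10, hM1⟩ := (ker_nice (hε n)).bdd
        refine continuous_of_dominated (bound := fun z => M1 * ‖dzb φ z‖) ?_ ?_ ?_ ?_
        · intro ζ
          exact (((ker_nice (hε n)).continuous.comp (by fun_prop)).mul
            hψ.smooth.continuous).aestronglyMeasurable
        · intro ζ
          refine Eventually.of_forall fun z => ?_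
          rw [norm_mul]
          exact mul_le_mul_of_nonneg_right (hM1 _) (norm_nonneg _)
        · exact (hψ.smooth.continuous.integrable_of_hasCompactSupport hψ.compact).norm.const_mul _
        · refine Eventually.of_forall fun z => ?_
          exact ((ker_nice (hε n)).continuous.comp (by fun_prop)).mul continuous_const
      exact this.neg.aestronglyMeasurable
    · refine Eventually.of_forall fun n => Eventually.of_forall fun ζ => ?_
      rw [norm_mul, norm_neg]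
      exact mul_le_mul_of_nonneg_left
        ((pk_tendsto hφ.smooth.continuous hM ζ).2 (ε n) (hε n)) (norm_nonneg _)
    · exact (int_f f).norm.mul_const _
    · refine Eventually.of_forall fun ζ => ?_
      exact (((pk_tendsto hφ.smooth.continuous hM ζ).1.comp hε1).neg).const_mul _
  have huniq := tendsto_nhds_unique hlim1 hlim2
  have hcint : (∫ w, (pk 1 w : ℂ)) = (c : ℂ) := by rw [hc, integral_complex_ofReal]
  rw [← hpair, smul_apply, inner_smul_right, huniq, hcint]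
  have e3 : ∫ ζ in D.U, (f : ℂ → ℂ) ζ * -((c : ℂ) * φ ζ) =
      -(c : ℂ) * ∫ ζ in D.U, (f : ℂ → ℂ) ζ * φ ζ := by
    rw [← integral_const_mul]
    apply integral_congr_ae
    refine Eventually.of_forall fun ζ => ?_
    simp only
    ring
  rw [e3]
  field_simp

end Pool.Agent.KA
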