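import Pool.Agent.Helper7.KE.A1
import Pool.Agent.Helper9.KA.C1

set_option autoImplicit false

open MeasureTheory Set Filter Asymptotics Topology Metric
open scoped ComplexConjugate ENNReal

namespace Pool.Agent.KA

open Pool.Agent.Helper7.KE hiding HM PS Bv sfun FF tt lS
open Pool.Agent.EN (AJ)

section
variable {k : ℕ} (D : AJ k)

theorem mul_mul {b b' : ℂ → ℂ} (hb : ContinuousOn b D.cU) (hb' : ContinuousOn b' D.cU)
    (f : D.L2) : D.Mul b (D.Mul b' f) = D.Mul (fun z => b z * b' z) f := by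
  refine Lp.ext ?_
  filter_upwards [D.Mul_coe hb (D.Mul b' f), D.Mul_coe hb' f, D.Mul_coe (hb.mul hb') f]
    with z h1 h2 h3
  have h3' : (D.Mul (fun z => b z * b' z) f : ℂ → ℂ) z = (b z * b' z) * (f : ℂ → ℂ) z := h3
  rw [h1, h2, h3']
  ring

theorem mul_congr {b b' : ℂ → ℂ} (hb : ContinuousOn b D.cU) (hb' : ContinuousOn b' D.cU)
    (h : ∀ z ∈ D.U, b z = b' z) : D.Mul b = D.Mul b' := by
  refine ContinuousLinearMap.ext fun f => Lp.ext ?_
  filter_upwards [D.Mul_coe hb f, D.Mul_coe hb' f, ae_restrict_mem D.U_open.measurableSet]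
    with z h1 h2 h3
  rw [h1, h2, h z h3]

theorem mul_add' {b b' : ℂ → ℂ} (hb : ContinuousOn b D.cU) (hb' : ContinuousOn b' D.cU) :
    D.Mul (fun z => b z + b' z) = D.Mul b + D.Mul b' := by
  refine ContinuousLinearMap.ext fun f => Lp.ext ?_
  filter_upwards [D.Mul_coe hb f, D.Mul_coe hb' f, D.Mul_coe (hb.add hb') f,
    Lp.coeFn_add (D.Mul b f) (D.Mul b' f)] with z h1 h2 h3 h4
  have h3' : (D.Mul (fun z => b z + b' z) f : ℂ → ℂ) z = (b z + b' z) * (f : ℂ → ℂ) z := h3
  rw [ContinuousLinearMap.add_apply, h4, Pi.add_apply, h1, h2, h3']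
  ring

theorem mul_smul' {b : ℂ → ℂ} (hb : ContinuousOn b D.cU) (c : ℂ) :
    D.Mul (fun z => c * b z) = c • D.Mul b := by
  refine ContinuousLinearMap.ext fun f => Lp.ext ?_
  filter_upwards [D.Mul_coe hb f, D.Mul_coe (continuousOn_const.mul hb) f,
    Lp.coeFn_smul c (D.Mul b f)] with z h1 h2 h3
  have h2' : (D.Mul (fun z => c * b z) f : ℂ → ℂ) z = (c * b z) * (f : ℂ → ℂ) z := h2
  rw [ContinuousLinearMap.smul_apply, h3, Pi.smul_apply, h1, h2', smul_eq_mul]
  ring

theorem mul_one' : D.Mul (fun _ => 1) = ContinuousLinearMap.id ℂ D.L2 := by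
  refine ContinuousLinearMap.ext fun f => Lp.ext ?_
  filter_upwards [D.Mul_coe (b := fun _ => 1) continuousOn_const f] with z h1
  rw [h1, one_mul, ContinuousLinearMap.id_apply]

/-- products of square integrable functions and continuous functions are integrable -/
theorem c4a_int (u : D.L2) {ψ : ℂ → ℂ} (hψ : ContinuousOn ψ D.cU) :
    Integrable (fun z => (u : ℂ → ℂ) z * ψ z) (volume.restrict D.U) := by
  have h1 := (D.mul_memLp hψ u).integrable (by norm_num)
  refine h1.congr (Eventually.of_forall fun z => ?_)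
  exact mul_comm _ _

/-- Leibniz rule for the weak derivative -/
theorem weak_mul {S : ℂ → ℂ} {V : Set ℂ} (hV : IsOpen V) (hcV : D.cU ⊆ V)
    (hS : ContDiffOn ℝ (⊤ : ℕ∞) S V) {u f : D.L2} (h : D.WeakDbar u f) :
    D.WeakDbar (D.Mul S u) (D.Mul S f + D.Mul (dzb S) u) := by
  intro φ hφ
  have hSc : ContinuousOn S D.cU := hS.continuousOn.mono hcV
  have hdS : ContinuousOn (dzb S) D.cU := (dz_contDiffOn hV hS).2.continuousOn.mono hcV
  have hφc : Continuous φ := hφ.smooth.continuous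
  have hdφc : Continuous (dzb φ) := hφ.dzb.smooth.continuous
  have hSU : ContDiffOn ℝ (⊤ : ℕ∞) S D.U := hS.mono (D.U_subset_cU.trans hcV)
  have hT : IsTest D.U (fun z => S z • φ z) := IsTest.smul D.U_open hSU hφ
  have key := h _ hT
  have hi1 : Integrable (fun z => (u : ℂ → ℂ) z * (dzb S z * φ z)) (volume.restrict D.U) :=
    c4a_int D u (hdS.mul hφc.continuousOn)
  have hi2 : Integrable (fun z => (u : ℂ → ℂ) z * (S z * dzb φ z)) (volume.restrict D.U) :=
    c4a_int D u (hSc.mul hdφc.continuousOn)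
  have hi3 : Integrable (fun z => (f : ℂ → ℂ) z * (S z * φ z)) (volume.restrict D.U) :=
    c4a_int D f (hSc.mul hφc.continuousOn)
  have e1 : ∫ z in D.U, (u : ℂ → ℂ) z * dzb (fun z => S z • φ z) z =
      (∫ z in D.U, (u : ℂ → ℂ) z * (dzb S z * φ z)) +
        ∫ z in D.U, (u : ℂ → ℂ) z * (S z * dzb φ z) := by
    rw [← integral_add hi1 hi2]
    refine setIntegral_congr_fun D.U_open.measurableSet fun z hz => ?_
    have hd1 : DifferentiableAt ℝ S z :=
      (hSU.contDiffAt (D.U_open.mem_nhds hz)).differentiableAt (by simp)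
    have hd2 : DifferentiableAt ℝ φ z := hφ.smooth.contDiffAt.differentiableAt (by simp)
    have h9 := (dz_smul hd1 hd2).2
    simp only [smul_eq_mul] at h9 ⊢
    rw [h9]
    ring
  have e2 : ∫ z in D.U, (D.Mul S u : ℂ → ℂ) z * dzb φ z =
      ∫ z in D.U, (u : ℂ → ℂ) z * (S z * dzb φ z) := by
    refine integral_congr_ae ?_
    filter_upwards [D.Mul_coe hSc u] with z h1
    rw [h1]; ring
  have e3 : ∫ z in D.U, ((D.Mul S f + D.Mul (dzb S) u : D.L2) : ℂ → ℂ) z * φ z =
      (∫ z in D.U, (f : ℂ → ℂ) z * (S z * φ z)) +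
        ∫ z in D.U, (u : ℂ → ℂ) z * (dzb S z * φ z) := by
    rw [← integral_add hi3 hi1]
    refine integral_congr_ae ?_
    filter_upwards [D.Mul_coe hSc f, D.Mul_coe hdS u,
      Lp.coeFn_add (D.Mul S f) (D.Mul (dzb S) u)] with z h1 h2 h3
    rw [h3, Pi.add_apply, h1, h2]; ring
  have e4 : ∫ z in D.U, (f : ℂ → ℂ) z * (S z • φ z) =
      ∫ z in D.U, (f : ℂ → ℂ) z * (S z * φ z) := rfl
  rw [e1, e4] at key
  rw [e2, e3]
  linear_combination key

theorem weak_add {u f u' f' : D.L2} (h : D.WeakDbar u f) (h' : D.WeakDbar u' f') :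
    D.WeakDbar (u + u') (f + f') := by
  intro φ hφ
  have hφc : Continuous φ := hφ.smooth.continuous
  have hdφc : Continuous (dzb φ) := hφ.dzb.smooth.continuous
  have e1 : ∫ z in D.U, ((u + u' : D.L2) : ℂ → ℂ) z * dzb φ z =
      (∫ z in D.U, (u : ℂ → ℂ) z * dzb φ z) + ∫ z in D.U, (u' : ℂ → ℂ) z * dzb φ z := by
    rw [← integral_add (c4a_int D u hdφc.continuousOn) (c4a_int D u' hdφc.continuousOn)]
    refine integral_congr_ae ?_
    filter_upwards [Lp.coeFn_add u u'] with z h1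
    rw [h1, Pi.add_apply]; ring
  have e2 : ∫ z in D.U, ((f + f' : D.L2) : ℂ → ℂ) z * φ z =
      (∫ z in D.U, (f : ℂ → ℂ) z * φ z) + ∫ z in D.U, (f' : ℂ → ℂ) z * φ z := by
    rw [← integral_add (c4a_int D f hφc.continuousOn) (c4a_int D f' hφc.continuousOn)]
    refine integral_congr_ae ?_
    filter_upwards [Lp.coeFn_add f f'] with z h1
    rw [h1, Pi.add_apply]; ring
  rw [e1, e2, h φ hφ, h' φ hφ]
  ring

theorem weak_smul {u f : D.L2} (c : ℂ) (h : D.WeakDbar u f) : D.WeakDbar (c • u) (c • f) := by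
  intro φ hφ
  have e1 : ∫ z in D.U, ((c • u : D.L2) : ℂ → ℂ) z * dzb φ z =
      c * ∫ z in D.U, (u : ℂ → ℂ) z * dzb φ z := by
    rw [← integral_const_mul]
    refine integral_congr_ae ?_
    filter_upwards [Lp.coeFn_smul c u] with z h1
    rw [h1, Pi.smul_apply, smul_eq_mul]; ring
  have e2 : ∫ z in D.U, ((c • f : D.L2) : ℂ → ℂ) z * φ z =
      c * ∫ z in D.U, (f : ℂ → ℂ) z * φ z := by
    rw [← integral_const_mul]
    refine integral_congr_ae ?_
    filter_upwards [Lp.coeFn_smul c f] with z h1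
    rw [h1, Pi.smul_apply, smul_eq_mul]; ring
  rw [e1, e2, h φ hφ]
  ring

/-- holomorphic functions solve the homogeneous equation -/
theorem weak_hol_zero {u : D.L2} (h : u ∈ D.Berg) : D.WeakDbar u 0 := by
  obtain ⟨g, hg, hug⟩ := berg_rep D h
  intro φ hφ
  have hgs : ContDiffOn ℝ (⊤ : ℕ∞) g D.U := hol_contDiffOn D.U_open hg.diff
  have hT : IsTest D.U (fun z => g z • φ z) := IsTest.smul D.U_open hgs hφ
  have e1 : ∫ z in D.U, (u : ℂ → ℂ) z * dzb φ z =
      ∫ z in D.U, dzb (fun z => g z • φ z) z := by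
    refine integral_congr_ae ?_
    filter_upwards [hug, ae_restrict_mem D.U_open.measurableSet] with z h1 hz
    have hd1 : DifferentiableAt ℂ g z := (hg.diff z hz).differentiableAt (D.U_open.mem_nhds hz)
    have hd2 : DifferentiableAt ℝ φ z := hφ.smooth.contDiffAt.differentiableAt (by simp)
    rw [(dz_smul (hd1.restrictScalars ℝ) hd2).2, (dz_hol hd1).2, h1]
    simp
  have e2 : ∫ z in D.U, dzb (fun z => g z • φ z) z = 0 := by
    rw [setIntegral_eq_integral_of_forall_compl_eq_zero]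
    · exact (integral_dz_test (hT.smooth.of_le (by simp)) hT.compact).2
    · intro z hz
      exact (dz_of_notMem fun h => hz (hT.supp h)).2
  have e3 : ∫ z in D.U, ((0 : D.L2) : ℂ → ℂ) z * φ z = 0 := by
    have : ∫ z in D.U, ((0 : D.L2) : ℂ → ℂ) z * φ z = ∫ z in D.U, (0 : ℂ) := by
      refine integral_congr_ae ?_
      filter_upwards [Lp.coeFn_zero ℂ 2 (volume.restrict D.U)] with z h1
      rw [h1, Pi.zero_apply, zero_mul]
    rw [this, integral_zero]
  rw [e1, e2, e3, neg_zero]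

end

end Pool.Agent.KA
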