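import Pool.Agent.Helper9.KA.C2
import Pool.Agent.Helper9.KA.C3
import Pool.Agent.Helper9.KA.C4a

set_option autoImplicit false

open MeasureTheory Set Filter Asymptotics Topology Metric
open scoped ComplexConjugate ENNReal

namespace Pool.Agent.KA

open Pool.Agent.Helper7.KE hiding HM PS Bv sfun FF tt lS
open Pool.Agent.EN (AJ)

section
variable {k : ℕ} (D : AJ k)

/-- the canonical solution is unique (from Weyl) -/
theorem kohn_unique {T : D.L2 →L[ℂ] D.L2} (hT : D.IsKohn T) {u f : D.L2} (h : D.WeakDbar u f)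
    (hP : D.P u = 0) : u = T f := by
  have h1 : D.WeakDbar (u + (-1 : ℂ) • T f) (f + (-1 : ℂ) • f) :=
    weak_add D h (weak_smul D (-1) (hT.weak f))
  have h2 : f + (-1 : ℂ) • f = 0 := by simp
  rw [h2] at h1
  have h3 : u + (-1 : ℂ) • T f ∈ D.Berg := weyl D h1
  have h4 : D.P (u + (-1 : ℂ) • T f) = 0 := by
    rw [map_add, map_smul, hP, hT.orth]; simp
  have h5 : D.P (((⟨_, h3⟩ : D.Berg) : D.L2)) = ⟨_, h3⟩ :=
    Submodule.orthogonalProjectionOnto_mem_subspace_eq_self (K := D.Berg) ⟨_, h3⟩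
  have h6 : (⟨u + (-1 : ℂ) • T f, h3⟩ : D.Berg) = 0 := by
    rw [← h5]; exact h4
  have h7 : u + (-1 : ℂ) • T f = 0 := congrArg Subtype.val h6
  rw [neg_smul, one_smul, ← sub_eq_add_neg] at h7
  exact sub_eq_zero.1 h7

/-- existence of the canonical solution operator (from the Cauchy transform) -/
theorem exists_kohn : ∃ T : D.L2 →L[ℂ] D.L2, D.IsKohn T := by
  obtain ⟨C, hC, hw⟩ := cauchy_transform D
  refine ⟨(ContinuousLinearMap.id ℂ D.L2 - D.Berg.subtypeL ∘L D.P) ∘L C, ?_, ?_, ?_⟩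
  · exact IsCompactOperator.clm_comp hC (ContinuousLinearMap.id ℂ D.L2 - D.Berg.subtypeL ∘L D.P)
  · intro f
    have h1 : D.WeakDbar (C f + (-1 : ℂ) • ((D.P (C f) : D.Berg) : D.L2)) (f + (-1 : ℂ) • 0) :=
      weak_add D (hw f) (weak_smul D (-1) (weak_hol_zero D (D.P (C f)).2))
    have h2 : f + (-1 : ℂ) • (0 : D.L2) = f := by simp
    rw [h2] at h1
    have h3 : ((ContinuousLinearMap.id ℂ D.L2 - D.Berg.subtypeL ∘L D.P) ∘L C) f =
        C f + (-1 : ℂ) • ((D.P (C f) : D.Berg) : D.L2) := by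
      simp [sub_eq_add_neg]
    rw [h3]
    exact h1
  · intro f
    have h3 : ((ContinuousLinearMap.id ℂ D.L2 - D.Berg.subtypeL ∘L D.P) ∘L C) f =
        C f - ((D.P (C f) : D.Berg) : D.L2) := by
      simp
    rw [h3, map_sub]
    have h5 : D.P ((D.P (C f) : D.Berg) : D.L2) = D.P (C f) :=
      Submodule.orthogonalProjectionOnto_mem_subspace_eq_self (K := D.Berg) _
    rw [h5, sub_self]

end

end Pool.Agent.KA
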