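import Pool.Agent.Helper7.KE.C5b
import Pool.Agent.Helper9.KA.A6
import Pool.Agent.Helper9.KA.A2b

set_option autoImplicit false

open MeasureTheory Set Filter Asymptotics Topology Metric
open scoped ComplexConjugate ENNReal

namespace Pool.Agent.KA

open Pool.Agent.Helper7.KE hiding HM PS Bv sfun FF tt lS
open Pool.Agent.EN (AJ ann ann2)

section
variable {k : ℕ} (D : AJ k) {τ : ℝ}

theorem chiC_diff (hτ : D.Good τ) (l : Option (Fin k)) (z : ℂ) :
    DifferentiableAt ℝ (fun w => (D.chi τ l w : ℂ)) z :=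
  Complex.ofRealCLM.differentiableAt.comp z
    (((chi_smooth D hτ l).differentiable (by simp)).differentiableAt)

/-- `∂_z̄ χ_l` vanishes in the domain outside the collar `l` -/
theorem dzb_chi_zero (hτ : D.Good τ) (l : Option (Fin k)) {z : ℂ} (hz : z ∈ D.U)
    (h : z ∉ D.kap l '' ann (1 + 3 * τ)) : dzb (fun w => (D.chi τ l w : ℂ)) z = 0 := by
  have hτ0 := hτ.pos
  have hτ1 := hτ.lt_half
  have hnot : z ∉ tsupport (fun w => (D.chi τ l w : ℂ)) := by
    intro hm
    have hsub : tsupport (fun w => (D.chi τ l w : ℂ)) ⊆ tsupport (D.chi τ l) := by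
      refine closure_mono ?_
      intro w hw
      rw [Function.mem_support] at hw ⊢
      intro h0
      apply hw
      show ((D.chi τ l w : ℝ) : ℂ) = 0
      rw [h0]; simp
    obtain ⟨u, hu, rfl⟩ := (chi_tsupport D hτ l).2.1 (hsub hm)
    have h1 := hu.1
    have h2 := hu.2
    have hρ := hτ.lt_rho
    have hinv : (D.ρ)⁻¹ < 1 - 2 * τ / 3 := by
      have h3 : (D.ρ)⁻¹ < (1 + 3 * τ)⁻¹ := inv_strictAnti₀ (by linarith) hρ
      have h4 : (1 + 3 * τ)⁻¹ ≤ 1 - 2 * τ / 3 := by
        rw [inv_le_iff_one_le_mul₀ (by linarith)]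
        nlinarith
      linarith
    have hu2 : u ∈ ann2 D.ρ := ⟨lt_of_lt_of_le hinv h1, by linarith⟩
    have hu1 : 1 < ‖u‖ := (D.mem_iff l u hu2).1 hz
    exact h ⟨u, ⟨hu1, by linarith⟩, rfl⟩
  exact (dz_of_notMem hnot).2

/-- the residue at `some j` in terms of the annulus -/
theorem res_eq_coef (hτ : D.Good τ) (l : Option (Fin k)) (g : ℂ → ℂ) :
    -(1 / (Real.pi : ℂ)) * ∫ z in D.U, g z * dzb (fun w => (D.chi τ l w : ℂ)) z =
      (AN τ hτ.pos).coef τ (some 0) 0 (fun z => g (D.kap l z) * deriv (D.kap l) z) := by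
  have h1 := integral_dzb_collar D hτ l (g := g) (σ := fun w => (D.chi τ l w : ℂ))
    (fun z _ => chiC_diff D hτ l z) (fun z hz h => dzb_chi_zero D hτ l hz h)
  rw [h1]
  have hU : (AN τ hτ.pos).U = ann (1 + 3 * τ) := AN_U τ hτ.pos
  have hpi : (Real.pi : ℂ) ≠ 0 := by exact_mod_cast Real.pi_ne_zero
  show _ = -(1 / (Real.pi * (1 : ℝ)) : ℂ) * ∫ z in (AN τ hτ.pos).U,
      (g (D.kap l z) * deriv (D.kap l) z) * ((z - 0) / ((1 : ℝ) : ℂ)) ^ 0 *
        dzb (fun w => ((AN τ hτ.pos).chi τ (some 0) w : ℂ)) z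
  have h2 : (∫ z in (AN τ hτ.pos).U,
      (g (D.kap l z) * deriv (D.kap l) z) * ((z - 0) / ((1 : ℝ) : ℂ)) ^ 0 *
        dzb (fun w => ((AN τ hτ.pos).chi τ (some 0) w : ℂ)) z) =
      ∫ z in (AN τ hτ.pos).U, (g (D.kap l z) * deriv (D.kap l) z) *
        dzb (fun w => ((D.chi τ l (D.kap l w) : ℝ) : ℂ)) z := by
    refine setIntegral_congr_fun (AN τ hτ.pos).U_open.measurableSet fun z hz => ?_
    have hev : (fun w => ((D.chi τ l (D.kap l w) : ℝ) : ℂ)) =ᶠ[𝓝 z]
        fun w => ((AN τ hτ.pos).chi τ (some 0) w : ℂ) := by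
      filter_upwards [(AN τ hτ.pos).U_open.mem_nhds hz] with w hw
      rw [hU] at hw
      have hw2 : w ∈ ann2 D.ρ :=
        EN.ann2_mono hτ.lt_rho.le (EN.ann_subset_ann2 hw)
      rw [AN_chi D hτ l hw2 hw.1.le]
    simp only [pow_zero, mul_one]
    rw [(dz_congr hev).2]
  rw [h2]
  simp

/-- residues of derivatives vanish -/
theorem res_deriv (hτ : D.Good τ) (i : Fin k) {F : ℂ → ℂ} (hF : DifferentiableOn ℂ F D.U) :
    D.res τ i (deriv F) = 0 := by
  unfold AJ.res
  rw [res_eq_coef D hτ (some i) (deriv F)]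
  set A := AN τ hτ.pos with hA
  have hgood : A.Good τ := AN_good D hτ
  have hτ0 := hτ.pos
  have hU : A.U = ann (1 + 3 * τ) := AN_U τ hτ.pos
  have hmem : ∀ z ∈ A.U, z ∈ ann2 D.ρ := by
    intro z hz
    rw [hU] at hz
    exact EN.ann2_mono hτ.lt_rho.le (EN.ann_subset_ann2 hz)
  have hkU : ∀ z ∈ A.U, D.kap (some i) z ∈ D.U := by
    intro z hz
    have h := hz
    rw [hU] at h
    exact (D.mem_iff (some i) z (hmem z hz)).2 h.1
  have hkd : ∀ z ∈ A.U, DifferentiableAt ℂ (D.kap (some i)) z := fun z hz =>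
    (D.holo (some i)).differentiableAt ((EN.isOpen_ann2' _).mem_nhds (hmem z hz))
  have hcd : DifferentiableOn ℂ (fun z => F (D.kap (some i) z)) A.U := fun z hz =>
    ((hF.differentiableAt (D.isOpen.mem_nhds (hkU z hz))).comp z (hkd z hz)).differentiableWithinAt
  have hder : ∀ z ∈ A.U, HasDerivAt (fun z => F (D.kap (some i) z))
      (deriv F (D.kap (some i) z) * deriv (D.kap (some i)) z) z := fun z hz =>
    (hF.differentiableAt (D.isOpen.mem_nhds (hkU z hz))).hasDerivAt.comp z (hkd z hz).hasDerivAt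
  have hg : DifferentiableOn ℂ
      (fun z => deriv F (D.kap (some i) z) * deriv (D.kap (some i)) z) A.U := by
    have h1 := hcd.deriv A.U_open
    refine h1.congr fun z hz => ?_
    exact ((hder z hz).deriv).symm
  obtain ⟨s, hs⟩ := exists_between (C5baux.lo_lt_hi A hgood (some 0))
  rw [C5baux.coef_circ A hgood (some 0) 0 (hg.mono (C5baux.ann_sub A hgood (some 0))) hs]
  have hs1 : (1 : ℝ) < s := hs.1
  have hs2 : s < 1 + τ := hs.2
  have h0 : (∮ z in C(A.cen (some 0), s), deriv F (D.kap (some i) z) *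
      deriv (D.kap (some i)) z * (C5baux.W A (some 0) 0 z * (A.rad (some 0) : ℂ)⁻¹)) = 0 := by
    refine circleIntegral.integral_eq_zero_of_hasDerivWithinAt' (f := fun z => F (D.kap (some i) z))
      fun z hz => ?_
    have hz' : z ∈ A.U := C5baux.ann_sub A hgood (some 0) (C5baux.sphere_sub A hs (by
      rw [abs_of_pos (by linarith : (0:ℝ) < s)] at hz
      exact hz))
    have hW : C5baux.W A (some 0) 0 z * (A.rad (some 0) : ℂ)⁻¹ = 1 := by
      show ((z - A.a 0) / A.r 0) ^ 0 * (((1 : ℝ) : ℂ))⁻¹ = 1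
      simp
    rw [hW, mul_one]
    exact (hder z hz').hasDerivWithinAt
  rw [h0, mul_zero]

theorem chiC_contDiff (hτ : D.Good τ) (l : Option (Fin k)) :
    ContDiff ℝ (⊤ : ℕ∞) (fun w => (D.chi τ l w : ℂ)) :=
  Complex.ofRealCLM.contDiff.comp (chi_smooth D hτ l)

/-- near each curve the cutoff functions are constant -/
theorem chi_const_near (hτ : D.Good τ) (l l' : Option (Fin k)) {z : ℂ} (hz : z ∈ D.circ l') :
    ∀ᶠ w in 𝓝 z, D.chi τ l w = if l = l' then 1 else 0 := by
  by_cases h : l = l'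
  · subst h
    rw [if_pos rfl]
    exact chi_near D hτ.pos l hz
  · rw [if_neg h]
    exact chi_zero_near D hτ (fun h' => h h'.symm) hz

theorem dzb_chi_near (hτ : D.Good τ) (l l' : Option (Fin k)) {z : ℂ} (hz : z ∈ D.circ l') :
    ∀ᶠ w in 𝓝 z, dzb (fun w => (D.chi τ l w : ℂ)) w = 0 := by
  filter_upwards [(chi_const_near D hτ l l' hz).eventually_nhds] with w hw
  have h : (fun w => (D.chi τ l w : ℂ)) =ᶠ[𝓝 w] fun _ => (((if l = l' then 1 else 0 : ℝ)) : ℂ) := by
    filter_upwards [hw] with u hu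
    rw [hu]
  rw [(dz_congr h).2]
  exact dz_const.2

theorem int_g_dzb (hτ : D.Good τ) (l : Option (Fin k)) {g : ℂ → ℂ}
    (hg : DifferentiableOn ℂ g D.U) :
    IntegrableOn (fun z => g z * dzb (fun w => (D.chi τ l w : ℂ)) z) D.U := by
  have h1 : IsTest D.U (D.U.indicator (dzb (fun w => (D.chi τ l w : ℂ)))) :=
    isTest_indicator D isOpen_univ (subset_univ _)
      (dz_contDiffOn isOpen_univ (chiC_contDiff D hτ l).contDiffOn).2
      (fun l' z hz => dzb_chi_near D hτ l l' hz)
  have h2 := IsTest.smul D.isOpen (hol_contDiffOn D.isOpen hg) h1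
  have h3 : Integrable (fun z => g z • D.U.indicator (dzb (fun w => (D.chi τ l w : ℂ))) z) :=
    h2.smooth.continuous.integrable_of_hasCompactSupport h2.compact
  refine h3.integrableOn.congr_fun (fun z hz => ?_) D.isOpen.measurableSet
  simp only [indicator_of_mem hz, smul_eq_mul]

/-- the sum of all residues vanishes -/
theorem res_sum (hτ : D.Good τ) {g : ℂ → ℂ} (hg : DifferentiableOn ℂ g D.U) :
    ∑ l : Option (Fin k), ∫ z in D.U, g z * dzb (fun w => (D.chi τ l w : ℂ)) z = 0 := by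
  rw [← integral_finsetSum _ fun l _ => int_g_dzb D hτ l hg]
  set ψ : ℂ → ℂ := fun z => (∑ l : Option (Fin k), (D.chi τ l z : ℂ)) - 1 with hψ
  have hψs : ContDiff ℝ (⊤ : ℕ∞) ψ :=
    (ContDiff.sum fun l _ => chiC_contDiff D hτ l).sub contDiff_const
  have h1 : IsTest D.U (D.U.indicator ψ) := by
    refine isTest_indicator D isOpen_univ (subset_univ _) hψs.contDiffOn fun l' z hz => ?_
    have : ∀ᶠ w in 𝓝 z, ∀ l, D.chi τ l w = if l = l' then 1 else 0 :=
      eventually_all.2 fun l => chi_const_near D hτ l l' hz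
    filter_upwards [this] with w hw
    have hs : (∑ l : Option (Fin k), (((if l = l' then 1 else 0 : ℝ)) : ℂ)) = 1 := by
      rw [Finset.sum_eq_single l']
      · rw [if_pos rfl]; simp
      · intro b _ hb
        rw [if_neg hb]; simp
      · intro h; exact absurd (Finset.mem_univ _) h
    simp only [hψ, hw]
    rw [hs, sub_self]
  have h2 := IsTest.smul D.isOpen (hol_contDiffOn D.isOpen hg) h1
  have h3 := (integral_dz_test (h2.smooth.of_le (by exact_mod_cast le_top)) h2.compact).2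
  have h4 : ∫ z in D.U, dzb (fun z => g z • D.U.indicator ψ z) z =
      ∫ z, dzb (fun z => g z • D.U.indicator ψ z) z := by
    refine setIntegral_eq_integral_of_forall_compl_eq_zero fun z hz => ?_
    exact (dz_of_notMem fun h => hz (h2.supp h)).2
  rw [h3] at h4
  rw [← h4]
  refine setIntegral_congr_fun D.isOpen.measurableSet fun z hz => ?_
  have hgz := hg.differentiableAt (D.isOpen.mem_nhds hz)
  have hev : D.U.indicator ψ =ᶠ[𝓝 z] ψ := by
    filter_upwards [D.isOpen.mem_nhds hz] with w hw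
    rw [indicator_of_mem hw]
  have h5 := (dz_smul (hgz.restrictScalars ℝ)
    ((h1.smooth.differentiable (by simp)).differentiableAt (x := z))).2
  have h6 : dzb ψ z = ∑ l : Option (Fin k), dzb (fun w => (D.chi τ l w : ℂ)) z := by
    have e : ψ = fun w => (∑ l : Option (Fin k), (D.chi τ l w : ℂ)) + (-1 : ℂ) := by
      funext w; simp [hψ, sub_eq_add_neg]
    have h7 := (dz_sum (Finset.univ : Finset (Option (Fin k))) (F := fun l w => (D.chi τ l w : ℂ))
      (z := z) fun l _ => chiC_diff D hτ l z)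
    have h8 := (dz_add (F := fun w => ∑ l : Option (Fin k), (D.chi τ l w : ℂ))
      (G := fun _ => (-1 : ℂ)) (z := z)
      ((ContDiff.sum fun l _ => chiC_contDiff D hτ l).differentiable (by simp)).differentiableAt
      (differentiableAt_const _)).2
    rw [e, h8, h7.2, dz_const.2, add_zero]
  show ∑ l : Option (Fin k), g z * dzb (fun w => (D.chi τ l w : ℂ)) z = _
  rw [h5, (dz_hol hgz).2, (dz_congr hev).2, h6, ← Finset.mul_sum]
  simp

/-- residues of the elementary functions -/
theorem res_inv (hτ : D.Good τ) (i j : Fin k) :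
    D.res τ i (fun z => (z - D.a j)⁻¹) = if i = j then 1 else 0 := by
  set V : Set ℂ := {D.a j}ᶜ with hV
  have hVo : IsOpen V := isOpen_compl_singleton
  have hcV : D.cU ⊆ V := by
    intro z hz h
    rw [mem_singleton_iff] at h
    exact D.a_mem j (h ▸ hz)
  have hinv : ∀ z ∈ V, DifferentiableAt ℂ (fun z => (z - D.a j)⁻¹) z := by
    intro z hz
    refine DifferentiableAt.inv (by fun_prop) ?_
    rw [sub_ne_zero]
    exact hz
  have hFs : ContDiffOn ℝ 1 (fun z => (z - D.a j)⁻¹ • (D.chi τ (some i) z : ℂ)) V := by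
    have h1 : ContDiffOn ℝ (⊤ : ℕ∞) (fun z => (z - D.a j)⁻¹) V :=
      hol_contDiffOn hVo fun z hz => (hinv z hz).differentiableWithinAt
    exact (h1.smul (chiC_contDiff D hτ (some i)).contDiffOn).of_le (by exact_mod_cast le_top)
  have hG := (green_AJ D hVo hcV hFs).2
  have hL : ∫ z in D.U, dzb (fun z => (z - D.a j)⁻¹ • (D.chi τ (some i) z : ℂ)) z =
      ∫ z in D.U, (z - D.a j)⁻¹ * dzb (fun w => (D.chi τ (some i) w : ℂ)) z := by
    refine setIntegral_congr_fun D.isOpen.measurableSet fun z hz => ?_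
    have hz' := hinv z (hcV (D.U_subset_cU hz))
    show dzb (fun z => (z - D.a j)⁻¹ • (D.chi τ (some i) z : ℂ)) z = _
    rw [(dz_smul (hz'.restrictScalars ℝ) (chiC_diff D hτ (some i) z)).2, (dz_hol hz').2]
    simp
  rw [hL] at hG
  have hcirc : ∀ (l : Option (Fin k)) (θ : ℝ),
      D.kap l (Complex.exp (θ * Complex.I)) ∈ D.circ l := by
    intro l θ
    refine ⟨_, ?_, rfl⟩
    simp [Complex.norm_exp_ofReal_mul_I]
  have hsum : (∑ l, (1 / 2 : ℂ) • ∫ θ in (0 : ℝ)..2 * Real.pi,
        (Complex.exp (θ * Complex.I) * deriv (D.kap l) (Complex.exp (θ * Complex.I))) •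
            ((D.kap l (Complex.exp (θ * Complex.I)) - D.a j)⁻¹ •
              (D.chi τ (some i) (D.kap l (Complex.exp (θ * Complex.I))) : ℂ))) =
      (1 / 2 : ℂ) • ∫ θ in (0 : ℝ)..2 * Real.pi,
        (Complex.exp (θ * Complex.I) * deriv (D.kap (some i)) (Complex.exp (θ * Complex.I))) *
            (D.kap (some i) (Complex.exp (θ * Complex.I)) - D.a j)⁻¹ := by
    rw [Finset.sum_eq_single (some i)]
    · congr 2
      funext θ
      have := (chi_const_near D hτ (some i) (some i) (hcirc (some i) θ)).self_of_nhds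
      rw [this]
      simp
    · intro l _ hl
      have h0 : ∀ θ : ℝ, D.chi τ (some i) (D.kap l (Complex.exp (θ * Complex.I))) = 0 := by
        intro θ
        have := (chi_const_near D hτ (some i) l (hcirc l θ)).self_of_nhds
        rw [this, if_neg (fun h => hl h.symm)]
      simp [h0]
    · simp
  rw [hsum] at hG
  have hc : (∮ z in C(0, 1), deriv (D.kap (some i)) z / (D.kap (some i) z - D.a j)) =
      Complex.I * ∫ θ in (0 : ℝ)..2 * Real.pi,
        (Complex.exp (θ * Complex.I) * deriv (D.kap (some i)) (Complex.exp (θ * Complex.I))) *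
            (D.kap (some i) (Complex.exp (θ * Complex.I)) - D.a j)⁻¹ := by
    rw [circleIntegral, ← intervalIntegral.integral_const_mul]
    congr 1
    funext θ
    simp only [deriv_circleMap, circleMap, Complex.ofReal_one, one_mul, zero_add, smul_eq_mul,
      div_eq_mul_inv]
    ring
  rw [D.wind i j] at hc
  unfold AJ.res
  rw [hG]
  have hpi : (Real.pi : ℂ) ≠ 0 := by exact_mod_cast Real.pi_ne_zero
  have hI : Complex.I ≠ 0 := Complex.I_ne_zero
  set J := ∫ θ in (0 : ℝ)..2 * Real.pi,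
        (Complex.exp (θ * Complex.I) * deriv (D.kap (some i)) (Complex.exp (θ * Complex.I))) *
            (D.kap (some i) (Complex.exp (θ * Complex.I)) - D.a j)⁻¹ with hJ
  by_cases hij : i = j
  · rw [if_pos hij] at hc ⊢
    have hJ2 : J = 2 * Real.pi := by
      have : Complex.I * J = Complex.I * (2 * Real.pi) := by rw [← hc]; ring
      exact mul_left_cancel₀ hI this
    rw [hJ2, smul_eq_mul]
    field_simp
  · rw [if_neg hij] at hc ⊢
    have hJ2 : J = 0 := by
      rcases mul_eq_zero.1 hc.symm with h | h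
      · exact absurd h hI
      · exact h
    rw [hJ2]
    simp

end

end Pool.Agent.KA
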