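import Pool.Agent.Helper7.KE.C5c
import Pool.Agent.Helper7.KE.A5b
import Pool.Agent.Helper9.KA.C5r
import Pool.Agent.Helper9.KA.CT

set_option autoImplicit false

open MeasureTheory Set Filter Asymptotics Topology Metric
open scoped ComplexConjugate ENNReal

namespace Pool.Agent.KA

open Pool.Agent.Helper7.KE hiding HM PS Bv sfun FF tt lS
open Pool.Agent.EN (AJ ann ann2)

namespace C5cAux

theorem differentiableAt_of_dzb' {F : ℂ → ℂ} {z : ℂ} (h : DifferentiableAt ℝ F z)
    (h0 : dzb F z = 0) : DifferentiableAt ℂ F z := by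
  obtain ⟨F', hF'⟩ := h
  have h1 : F' 1 + Complex.I * F' Complex.I = 0 := by
    unfold dzb at h0
    rw [hF'.fderiv, smul_eq_zero] at h0
    rcases h0 with h0 | h0
    · norm_num at h0
    · simpa using h0
  have hI : F' Complex.I = Complex.I * F' 1 := by
    have : Complex.I * (F' 1 + Complex.I * F' Complex.I) = 0 := by rw [h1, mul_zero]
    rw [mul_add, ← mul_assoc, Complex.I_mul_I] at this
    linear_combination -this
  refine (hasFDerivAt_of_restrictScalars ℝ (f' := (ContinuousLinearMap.toSpanSingleton ℂ (F' 1)))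
    hF' ?_).differentiableAt
  ext w
  have hw : w = (w.re : ℝ) • (1 : ℂ) + (w.im : ℝ) • Complex.I := by
    simp [Complex.re_add_im]
  have h1 : F' w = (w.re : ℂ) * F' 1 + (w.im : ℂ) * (Complex.I * F' 1) := by
    conv_lhs => rw [hw]
    rw [map_add, map_smul, map_smul, hI, Complex.real_smul, Complex.real_smul]
  have h2 : w * F' 1 = (w.re : ℂ) * F' 1 + (w.im : ℂ) * (Complex.I * F' 1) := by
    conv_lhs => rw [← Complex.re_add_im w]
    ring
  simp only [ContinuousLinearMap.coe_restrictScalars',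
    ContinuousLinearMap.toSpanSingleton_apply, smul_eq_mul]
  rw [h1, h2]

variable {k : ℕ} (D : AJ k) {τ : ℝ}

/-- the pull back of a differential to a chart -/
noncomputable def pull (l : Option (Fin k)) (v : ℂ → ℂ) (z : ℂ) : ℂ :=
  v (D.kap l z) * deriv (D.kap l) z

theorem pull_diff {S V : Set ℂ} (l : Option (Fin k)) (hS : S ⊆ ann2 D.ρ)
    (hm : MapsTo (D.kap l) S V) {v : ℂ → ℂ} (hv : DifferentiableOn ℂ v V) :
    DifferentiableOn ℂ (pull D l v) S :=
  (hv.comp ((D.holo l).mono hS) hm).mul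
    (((D.holo l).deriv (Pool.Agent.EN.isOpen_ann2' _)).mono hS)

theorem lam_hasDerivAt (l : Option (Fin k)) {w : ℂ} (hw : w ∈ ann2 D.ρ) :
    HasDerivAt (D.lam l) (deriv (D.kap l) w)⁻¹ (D.kap l w) := by
  have h1 : DifferentiableAt ℂ (D.lam l) (D.kap l w) :=
    (lam_holo D l).differentiableAt ((D.isOpen_kap (Pool.Agent.EN.isOpen_ann2' _)
      subset_rfl).mem_nhds (mem_image_of_mem _ hw))
  have h2 : HasDerivAt (D.kap l) (deriv (D.kap l) w) w :=
    ((D.holo l).differentiableAt ((Pool.Agent.EN.isOpen_ann2' _).mem_nhds hw)).hasDerivAt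
  have h3 := h1.hasDerivAt.comp w h2
  have h4 : (D.lam l ∘ D.kap l) =ᶠ[𝓝 w] id := by
    filter_upwards [(Pool.Agent.EN.isOpen_ann2' D.ρ).mem_nhds hw] with z hz
    exact D.lam_kap hz
  have h5 := h3.unique ((hasDerivAt_id w).congr_of_eventuallyEq h4)
  have h6 := kap_deriv_ne D l hw
  have h7 : deriv (D.lam l) (D.kap l w) = (deriv (D.kap l) w)⁻¹ := eq_inv_of_mul_eq_one_left h5
  rw [← h7]
  exact h1.hasDerivAt

/-- a primitive in the chart gives a primitive -/
theorem prim_chart {l : Option (Fin k)} {w : ℂ} (hw : w ∈ ann2 D.ρ) {v G : ℂ → ℂ}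
    (hG : HasDerivAt G (pull D l v w) w) :
    HasDerivAt (fun z => G (D.lam l z)) (v (D.kap l w)) (D.kap l w) := by
  have h1 := lam_hasDerivAt D l hw
  have h2 : HasDerivAt G (pull D l v w) (D.lam l (D.kap l w)) := by
    rw [D.lam_kap hw]; exact hG
  have h3 := h2.comp (D.kap l w) h1
  refine h3.congr_deriv ?_
  unfold pull
  rw [mul_assoc, mul_inv_cancel₀ (kap_deriv_ne D l hw), mul_one]

theorem ann_sub_ann2 (hτ : D.Good τ) : ann (1 + 3 * τ) ⊆ ann2 D.ρ :=
  Pool.Agent.EN.ann_subset_ann2.trans (Pool.Agent.EN.ann2_mono hτ.lt_rho.le)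

theorem V_open (hτ : D.Good τ) (l : Option (Fin k)) : IsOpen (D.kap l '' ann (1 + 3 * τ)) :=
  D.isOpen_kap (Pool.Agent.EN.isOpen_ann' _) (ann_sub_ann2 D hτ)

theorem V_sub_U (hτ : D.Good τ) (l : Option (Fin k)) : D.kap l '' ann (1 + 3 * τ) ⊆ D.U := by
  rintro _ ⟨w, hw, rfl⟩
  exact (D.mem_iff l w (ann_sub_ann2 D hτ hw)).2 hw.1

/-- the support of the cutoff function inside the domain -/
theorem tsupp_inter (hτ : D.Good τ) (l : Option (Fin k)) {z : ℂ} (hz : z ∈ tsupport (D.chi τ l))
    (hU : z ∈ D.U) : z ∈ D.kap l '' ann (1 + 3 * τ) := by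
  obtain ⟨w, ⟨h1, h2⟩, rfl⟩ := (chi_tsupport D hτ l).2.1 hz
  have hτ0 := hτ.pos
  have hτ1 := hτ.lt_half
  have hρ := hτ.lt_rho
  have h3 : D.ρ⁻¹ < 1 - 2 * τ / 3 := by
    rw [inv_lt_comm₀ (by linarith) (by linarith)]
    refine lt_trans ?_ hρ
    rw [inv_lt_comm₀ (by linarith) (by linarith)]
    rw [inv_lt_iff_one_lt_mul₀ (by linarith)]
    nlinarith
  have h4 : w ∈ ann2 D.ρ := ⟨h3.trans_le h1, by linarith⟩
  have h5 := (D.mem_iff l w h4).1 hU
  exact ⟨w, ⟨h5, by linarith⟩, rfl⟩

theorem tsupp_complex (l : Option (Fin k)) :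
    tsupport (fun w => (D.chi τ l w : ℂ)) ⊆ tsupport (D.chi τ l) := by
  refine closure_mono fun z hz => ?_
  intro h0
  apply hz
  show ((D.chi τ l z : ℝ) : ℂ) = 0
  rw [h0, Complex.ofReal_zero]

theorem chi_smoothC (hτ : D.Good τ) (l : Option (Fin k)) :
    ContDiff ℝ (⊤ : ℕ∞) (fun w => (D.chi τ l w : ℂ)) :=
  Complex.ofRealCLM.contDiff.comp (chi_smooth D hτ l)

/-- the derivative of the cutoff function, inside the domain -/
noncomputable def dchi (τ : ℝ) (l : Option (Fin k)) : ℂ → ℂ :=
  D.U.indicator (dzb (fun w => (D.chi τ l w : ℂ)))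

theorem dchi_test (hτ : D.Good τ) (l : Option (Fin k)) :
    IsTest (D.kap l '' ann (1 + 3 * τ)) (dchi D τ l) := by
  have h1 : IsTest D.U (dchi D τ l) := by
    refine isTest_indicator D isOpen_univ (subset_univ _)
      (dz_contDiffOn isOpen_univ (contDiffOn_univ.2 (chi_smoothC D hτ l))).2 ?_
    intro l' z hz
    by_cases h : l' = l
    · subst h
      filter_upwards [(chi_near D hτ.pos l' hz).eventually_nhds] with w hw
      have h2 : (fun w => (D.chi τ l' w : ℂ)) =ᶠ[𝓝 w] fun _ => (1 : ℂ) := by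
        filter_upwards [hw] with u hu
        rw [hu, Complex.ofReal_one]
      exact (dz_congr h2).2.trans dz_const.2
    · filter_upwards [(chi_zero_near D hτ h hz).eventually_nhds] with w hw
      have h2 : (fun w => (D.chi τ l w : ℂ)) =ᶠ[𝓝 w] fun _ => (0 : ℂ) := by
        filter_upwards [hw] with u hu
        rw [hu, Complex.ofReal_zero]
      exact (dz_congr h2).2.trans dz_const.2
  refine ⟨h1.smooth, h1.compact, fun z hz => ?_⟩
  refine tsupp_inter D hτ l ?_ (h1.supp hz)
  apply tsupp_complex D l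
  apply tsupport_dz.2
  refine closure_mono (fun w hw => ?_) hz
  intro h0
  apply hw
  simp only [dchi]
  by_cases hU : w ∈ D.U
  · rw [indicator_of_mem hU]; exact h0
  · rw [indicator_of_notMem hU]

/-- the residue of a differential without residues, in the chart -/
theorem coef_pull (hτ : D.Good τ) {v : ℂ → ℂ} (hv : DifferentiableOn ℂ v D.U)
    (h0 : ∀ j, D.res τ j v = 0) (l : Option (Fin k)) :
    (AN τ hτ.pos).coef τ (some 0) 0 (pull D l v) = 0 := by
  have hπ : (-(1 / (Real.pi : ℂ))) ≠ 0 := by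
    simp [Real.pi_ne_zero]
  have hint : ∀ l : Option (Fin k),
      ∫ z in D.U, v z * dzb (fun w => (D.chi τ l w : ℂ)) z = 0 := by
    have hj : ∀ j : Fin k, ∫ z in D.U, v z * dzb (fun w => (D.chi τ (some j) w : ℂ)) z = 0 := by
      intro j
      exact (mul_eq_zero.1 (h0 j)).resolve_left hπ
    intro l
    cases l with
    | some j => exact hj j
    | none =>
      have h1 := res_sum D hτ hv
      rw [Fintype.sum_option] at h1
      simpa [hj] using h1
  have h2 := res_eq_coef D hτ l v
  rw [hint l, mul_zero] at h2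
  exact h2.symm

/-- primitives in the charts -/
theorem exists_chart_prim (hτ : D.Good τ) {v : ℂ → ℂ} (hv : DifferentiableOn ℂ v D.U)
    (h0 : ∀ j, D.res τ j v = 0) (l : Option (Fin k)) :
    ∃ G : ℂ → ℂ, ∀ z ∈ ann (1 + 3 * τ), HasDerivAt G (pull D l v z) z := by
  have h1 : DifferentiableOn ℂ (pull D l v) (AN τ hτ.pos).U := by
    rw [AN_U]
    exact pull_diff D l (ann_sub_ann2 D hτ) (fun w hw => V_sub_U D hτ l ⟨w, hw, rfl⟩) hv
  obtain ⟨G, hG⟩ := Pool.Agent.Helper7.KE.exists_primitive_U (AN τ hτ.pos) (AN_good D hτ) h1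
    (fun j => by
      have : j = 0 := Subsingleton.elim _ _
      subst this
      exact coef_pull D hτ hv h0 l)
  rw [AN_U] at hG
  exact ⟨G, hG⟩

end C5cAux

open C5cAux

section
variable {k : ℕ} (D : AJ k) {τ : ℝ}

/-- a function which is holomorphic on the domain, without residues, has a primitive -/
theorem exists_primitive_U (hτ : D.Good τ) {v : ℂ → ℂ}
    (hv : DifferentiableOn ℂ v D.U) (h0 : ∀ j, D.res τ j v = 0) :
    ∃ F : ℂ → ℂ, ∀ z ∈ D.U, HasDerivAt F (v z) z := by
  choose G hG using exists_chart_prim D hτ hv h0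
  -- the primitives in the collars
  have hg : ∀ l, ∀ z ∈ D.kap l '' ann (1 + 3 * τ),
      HasDerivAt (fun w => G l (D.lam l w)) (v z) z := by
    rintro l _ ⟨w, hw, rfl⟩
    exact prim_chart D (ann_sub_ann2 D hτ hw) (hG l w hw)
  have hgd : ∀ l, DifferentiableOn ℂ (fun w => G l (D.lam l w)) (D.kap l '' ann (1 + 3 * τ)) :=
    fun l z hz => (hg l z hz).differentiableAt.differentiableWithinAt
  -- the right hand side
  have hβl : ∀ l, IsTest (D.kap l '' ann (1 + 3 * τ))
      (fun z => G l (D.lam l z) • dchi D τ l z) := fun l =>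
    IsTest.smul (V_open D hτ l) (hol_contDiffOn (V_open D hτ l) (hgd l)) (dchi_test D hτ l)
  have hβU : ∀ l, IsTest D.U (fun z => G l (D.lam l z) • dchi D τ l z) := fun l =>
    ⟨(hβl l).smooth, (hβl l).compact, (hβl l).supp.trans (V_sub_U D hτ l)⟩
  have hsum : ∀ s : Finset (Option (Fin k)),
      IsTest D.U (fun z => ∑ l ∈ s, G l (D.lam l z) • dchi D τ l z) := by
    classical
    intro s
    induction s using Finset.induction_on with
    | empty =>
      simp only [Finset.sum_empty]
      refine ⟨contDiff_const, HasCompactSupport.zero, ?_⟩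
      have : tsupport (fun _ : ℂ => (0 : ℂ)) = ∅ := by
        rw [tsupport_eq_empty_iff]; rfl
      rw [this]
      exact empty_subset _
    | insert a s ha ih =>
      have := (hβU a).add ih
      simp only [Finset.sum_insert ha]
      exact this
  set β : ℂ → ℂ := fun z => ∑ l, G l (D.lam l z) • dchi D τ l z with hβdef
  have hβ : IsTest D.U β := hsum Finset.univ
  obtain ⟨R, hR⟩ := hβ.compact.isCompact.isBounded.subset_closedBall (0 : ℂ)
  obtain ⟨C, -, hC⟩ := cauchy_smooth R
  obtain ⟨b, hb, hbβ, -, -⟩ := hC β hβ.smooth hR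
  have hbβ' : dzb b = β := funext hbβ
  have hbd : ∀ z, DifferentiableAt ℝ b z := fun z =>
    (hb.differentiable (by simp)).differentiableAt
  -- the glued function
  set Gt : ℂ → ℂ := fun z => ∑ l, (D.chi τ l z : ℂ) • G l (D.lam l z) with hGt
  have hχd : ∀ l z, DifferentiableAt ℝ (fun w => (D.chi τ l w : ℂ)) z := fun l z =>
    ((chi_smoothC D hτ l).differentiable (by simp)).differentiableAt
  have hterm : ∀ l, ∀ z ∈ D.U,
      DifferentiableAt ℝ (fun z => (D.chi τ l z : ℂ) • G l (D.lam l z)) z ∧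
      dzb (fun z => (D.chi τ l z : ℂ) • G l (D.lam l z)) z =
        G l (D.lam l z) • dchi D τ l z := by
    intro l z hz
    have hdc : dchi D τ l z = dzb (fun w => (D.chi τ l w : ℂ)) z := indicator_of_mem hz _
    by_cases hV : z ∈ D.kap l '' ann (1 + 3 * τ)
    · have h1 : DifferentiableAt ℂ (fun w => G l (D.lam l w)) z := (hg l z hV).differentiableAt
      have h2 := dz_smul (hχd l z) (h1.restrictScalars ℝ)
      refine ⟨(hχd l z).smul (h1.restrictScalars ℝ), ?_⟩
      rw [h2.2, (dz_hol h1).2, smul_zero, add_zero, hdc, smul_eq_mul, smul_eq_mul, mul_comm]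
    · have h1 : z ∉ tsupport (D.chi τ l) := fun h => hV (tsupp_inter D hτ l h hz)
      have h2 : (fun z => (D.chi τ l z : ℂ) • G l (D.lam l z)) =ᶠ[𝓝 z] fun _ => 0 := by
        filter_upwards [notMem_tsupport_iff_eventuallyEq.1 h1] with w hw
        rw [hw]
        simp
      have h3 : z ∉ tsupport (fun w => (D.chi τ l w : ℂ)) := fun h => h1 (tsupp_complex D l h)
      refine ⟨(differentiableAt_const (0 : ℂ)).congr_of_eventuallyEq h2, ?_⟩
      rw [(dz_congr h2).2, dz_const.2, hdc, (dz_of_notMem h3).2, smul_zero]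
  have hGtd : ∀ z ∈ D.U, DifferentiableAt ℝ Gt z ∧ dzb Gt z = β z := by
    intro z hz
    refine ⟨DifferentiableAt.fun_sum fun l _ => (hterm l z hz).1, ?_⟩
    rw [hGt, (dz_sum Finset.univ fun l _ => (hterm l z hz).1).2]
    exact Finset.sum_congr rfl fun l _ => (hterm l z hz).2
  set H : ℂ → ℂ := fun z => Gt z + -b z with hHdef
  have hH : ∀ z ∈ D.U, DifferentiableAt ℂ H z := by
    intro z hz
    refine differentiableAt_of_dzb' ((hGtd z hz).1.fun_add (hbd z).fun_neg) ?_
    rw [hHdef, (dz_add (hGtd z hz).1 (hbd z).fun_neg).2, (hGtd z hz).2, dz_neg.2, hbβ,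
      add_neg_cancel]
  have hHon : DifferentiableOn ℂ H D.U := fun z hz => (hH z hz).differentiableWithinAt
  -- the entire function
  classical
  set E : ℂ → ℂ := fun z => if z ∈ D.U then v z - deriv H z else dz b z with hE
  have hEU : ∀ z ∈ D.U, E z = v z - deriv H z := fun z hz => if_pos hz
  have hEd : Differentiable ℂ E := by
    intro z
    by_cases hz : z ∈ D.U
    · have h1 : E =ᶠ[𝓝 z] fun w => v w - deriv H w := by
        filter_upwards [D.isOpen.mem_nhds hz] with w hw
        exact hEU w hw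
      have h2 : DifferentiableAt ℂ (fun w => v w - deriv H w) z :=
        (hv.differentiableAt (D.isOpen.mem_nhds hz)).sub
          ((hHon.deriv D.isOpen).differentiableAt (D.isOpen.mem_nhds hz))
      exact h2.congr_of_eventuallyEq h1
    · -- outside the domain
      have hzβ : z ∉ tsupport β := fun h => hz (hβ.supp h)
      have h1 : E =ᶠ[𝓝 z] dz b := by
        have h2 : ∀ᶠ w in 𝓝 z, β w = 0 := notMem_tsupport_iff_eventuallyEq.1 hzβ
        by_cases hcU : z ∈ D.cU
        · obtain ⟨l, hl⟩ := ((mem_cU_iff D z).1 hcU).resolve_left hz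
          have h3 := (chi_near D hτ.pos l hl).eventually_nhds
          have h4 : ∀ᶠ w in 𝓝 z, ∀ m, m ≠ l → ∀ᶠ u in 𝓝 w, D.chi τ m u = 0 := by
            refine eventually_all.2 fun m => ?_
            by_cases hm : m = l
            · exact Eventually.of_forall fun w h => absurd hm h
            · filter_upwards [(chi_zero_near D hτ (Ne.symm hm) hl).eventually_nhds] with w hw _
              exact hw
          filter_upwards [h2, h3, h4] with w h2w h3w h4w
          by_cases hwU : w ∈ D.U
          · rw [hEU w hwU]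
            have hwV : w ∈ D.kap l '' ann (1 + 3 * τ) := by
              refine tsupp_inter D hτ l ?_ hwU
              apply subset_tsupport
              rw [Function.mem_support, h3w.self_of_nhds]
              exact one_ne_zero
            have h5 : Gt =ᶠ[𝓝 w] fun u => G l (D.lam l u) := by
              have h6 : ∀ᶠ u in 𝓝 w, ∀ m, m ≠ l → D.chi τ m u = 0 := by
                refine eventually_all.2 fun m => ?_
                by_cases hm : m = l
                · exact Eventually.of_forall fun w h => absurd hm h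
                · filter_upwards [h4w m hm] with u hu _
                  exact hu
              filter_upwards [h3w, h6] with u hu1 hu2
              simp only [hGt]
              rw [Finset.sum_eq_single l]
              · rw [hu1, Complex.ofReal_one, one_smul]
              · intro m _ hm
                rw [hu2 m hm, Complex.ofReal_zero, zero_smul]
              · intro h; exact absurd (Finset.mem_univ l) h
            have hbw : DifferentiableAt ℂ b w :=
              differentiableAt_of_dzb' (hbd w) (by rw [hbβ, h2w])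
            have h7 : HasDerivAt H (v w + -deriv b w) w := by
              refine ((hg l w hwV).fun_add hbw.hasDerivAt.fun_neg).congr_of_eventuallyEq ?_
              filter_upwards [h5] with u hu
              simp only [hHdef, hu]
            rw [h7.deriv, (dz_hol hbw).1]
            ring
          · exact if_neg hwU
        · filter_upwards [isClosed_closure.isOpen_compl.mem_nhds hcU] with w hw
          exact if_neg fun h => hw (subset_closure h)
      refine DifferentiableAt.congr_of_eventuallyEq ?_ h1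
      have h8 : ContDiff ℝ (⊤ : ℕ∞) (dz b) :=
        contDiffOn_univ.1 (dz_contDiffOn isOpen_univ (contDiffOn_univ.2 hb)).1
      refine differentiableAt_of_dzb' (h8.differentiable (by simp)).differentiableAt ?_
      rw [← dz_comm isOpen_univ (contDiffOn_univ.2 (by simpa using contDiff_infty.1 hb 2))
        (mem_univ z), hbβ']
      exact (dz_of_notMem hzβ).1
  obtain ⟨P, hP⟩ := hEd.isExactOn_univ
  refine ⟨fun z => H z + P z, fun z hz => ?_⟩
  refine ((hH z hz).hasDerivAt.fun_add (hP z (mem_univ z))).congr_deriv ?_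
  rw [hEU z hz]
  ring

/-- the two-sided annulus as a circle domain -/
noncomputable def C5cAux.AN2 (δ : ℝ) (hδ : 0 < δ) : CD 1 where
  R := 1 + δ
  a := fun _ => 0
  r := fun _ => (1 + δ)⁻¹
  Rpos := by linarith
  rpos := fun _ => inv_pos.2 (by linarith)
  inside := fun _ => by
    rw [norm_zero, zero_add]
    exact (inv_lt_one_of_one_lt₀ (by linarith)).trans (by linarith)
  disj := fun i j h => absurd (Subsingleton.elim i j) h

theorem C5cAux.AN2_U (δ : ℝ) (hδ : 0 < δ) : (C5cAux.AN2 δ hδ).U = ann2 (1 + δ) := by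
  ext z
  simp only [CD.U, C5cAux.AN2, ann2, mem_ofPred_eq, sub_zero, forall_const]
  tauto

theorem C5cAux.AN2_good (δ : ℝ) (hδ : 0 < δ) : ∃ σ, (C5cAux.AN2 δ hδ).Good σ ∧ σ < δ := by
  set D := C5cAux.AN2 δ hδ with hD
  have h1 : (1 + δ)⁻¹ < 1 := inv_lt_one_of_one_lt₀ (by linarith)
  have h2 : 0 < (1 + δ)⁻¹ := inv_pos.2 (by linarith)
  refine ⟨min ((1 + δ)⁻¹ / 2) (δ / 4), ⟨by positivity, fun j => ?_, ?_, fun j => ?_, ?_⟩, ?_⟩
  · show _ < (1 + δ)⁻¹
    exact (min_le_left _ _).trans_lt (by linarith)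
  · show _ < 1 + δ
    exact (min_le_right _ _).trans_lt (by linarith)
  · show ‖(0 : ℂ)‖ + (1 + δ)⁻¹ + 2 * _ < 1 + δ
    have := min_le_right ((1 + δ)⁻¹ / 2) (δ / 4)
    rw [norm_zero]
    linarith
  · intro i j h
    exact absurd (Subsingleton.elim i j) h
  · exact (min_le_right _ _).trans_lt (by linarith)

/-- a function which is holomorphic on the enlarged domain, without residues, has a primitive -/
theorem exists_primitive (hτ : D.Good τ) {δ : ℝ} (hδ : 0 < δ) (hδτ : δ ≤ τ) {v : ℂ → ℂ}
    (hv : DifferentiableOn ℂ v (D.Ue δ)) (h0 : ∀ j, D.res τ j v = 0) :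
    ∃ F : ℂ → ℂ, ∀ z ∈ D.Ue δ, HasDerivAt F (v z) z := by
  obtain ⟨F, hF⟩ := exists_primitive_U D hτ (hv.mono (D.U_subset_Ue δ)) h0
  have hδρ : 1 + δ < D.ρ := by linarith [hτ.lt_rho, hτ.pos]
  have hmin : min (1 + δ) D.ρ = 1 + δ := min_eq_left hδρ.le
  have hsub2 : ann2 (1 + δ) ⊆ ann2 D.ρ := Pool.Agent.EN.ann2_mono hδρ.le
  have hcol : ∀ l, D.col δ l = D.kap l '' ann2 (1 + δ) := fun l => by
    rw [AJ.col, hmin]
  have hcolU : ∀ l, D.kap l '' ann2 (1 + δ) ⊆ D.Ue δ := fun l => by
    rw [← hcol l]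
    exact (subset_iUnion _ l).trans subset_union_right
  have hpd : ∀ l, DifferentiableOn ℂ (pull D l v) (ann2 (1 + δ)) := fun l =>
    pull_diff D l hsub2 (fun w hw => hcolU l ⟨w, hw, rfl⟩) hv
  -- the primitive on the one sided annulus
  have hFl : ∀ l, ∀ w ∈ ann (1 + δ), HasDerivAt (fun u => F (D.kap l u)) (pull D l v w) w := by
    intro l w hw
    have hw2 := Pool.Agent.EN.ann_subset_ann2 hw
    have hwU : D.kap l w ∈ D.U := (D.mem_iff l w (hsub2 hw2)).2 hw.1
    have h2 : HasDerivAt (D.kap l) (deriv (D.kap l) w) w :=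
      ((D.holo l).differentiableAt
        ((Pool.Agent.EN.isOpen_ann2' _).mem_nhds (hsub2 hw2))).hasDerivAt
    exact (hF _ hwU).comp w h2
  -- primitives on the two sided annuli
  have hprim : ∀ l, ∃ G : ℂ → ℂ, ∀ w ∈ ann2 (1 + δ), HasDerivAt G (pull D l v w) w := by
    intro l
    obtain ⟨σ, hσ, hσδ⟩ := AN2_good δ hδ
    have h1 : DifferentiableOn ℂ (pull D l v) (AN2 δ hδ).U := by
      rw [AN2_U]; exact hpd l
    have hinv : (1 + δ)⁻¹ < 1 := inv_lt_one_of_one_lt₀ (by linarith)
    have hinv0 : 0 < (1 + δ)⁻¹ := inv_pos.2 (by linarith)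
    obtain ⟨G, hG⟩ := Pool.Agent.Helper7.KE.exists_primitive_U (AN2 δ hδ) hσ h1 (fun j => by
      have hj : j = 0 := Subsingleton.elim _ _
      subst hj
      obtain ⟨s, hs1, hs2⟩ := exists_between (C5baux.lo_lt_hi (AN2 δ hδ) hσ (some 0))
      rw [C5baux.coef_circ (AN2 δ hδ) hσ (some 0) 0
        (h1.mono (C5baux.ann_sub (AN2 δ hδ) hσ (some 0))) ⟨hs1, hs2⟩]
      have hs1' : (1 + δ)⁻¹ < s := hs1
      have hs2' : s < (1 + δ)⁻¹ + σ := hs2
      have hs0 : 0 < s := hinv0.trans hs1'
      have hsR : s < 1 + δ := by linarith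
      have e1 : (fun z => pull D l v z * (C5baux.W (AN2 δ hδ) (some 0) 0 z *
          ((AN2 δ hδ).rad (some 0) : ℂ)⁻¹)) =
          fun z => ((AN2 δ hδ).rad (some 0) : ℂ)⁻¹ * pull D l v z := by
        ext z
        simp [C5baux.W, mul_comm]
      have hcen : (AN2 δ hδ).cen (some 0) = 0 := rfl
      rw [e1, hcen, circleIntegral.integral_const_mul]
      have key : (∮ z in C(0, s), pull D l v z) = 0 := by
        obtain ⟨t, ht1, ht2⟩ := exists_between (show max 1 s < 1 + δ by
          rw [max_lt_iff]; exact ⟨by linarith, hsR⟩)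
        have ht1' : 1 < t := (le_max_left _ _).trans_lt ht1
        have hst : s < t := (le_max_right _ _).trans_lt ht1
        have hsub : closedBall (0 : ℂ) t \ ball 0 s ⊆ ann2 (1 + δ) := by
          intro z hz
          have h3 : ‖z‖ ≤ t := by simpa using hz.1
          have h4 : s ≤ ‖z‖ := by simpa using hz.2
          exact ⟨hs1'.trans_le h4, h3.trans_lt ht2⟩
        have h5 := Complex.circleIntegral_eq_of_differentiable_on_annulus_off_countable
          (c := 0) (f := pull D l v) hs0 hst.le countable_empty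
          ((hpd l).continuousOn.mono hsub) (fun z hz => by
            refine (hpd l).differentiableAt
              ((Pool.Agent.EN.isOpen_ann2' _).mem_nhds (hsub ?_))
            exact ⟨ball_subset_closedBall hz.1.1, fun h => hz.1.2 (ball_subset_closedBall h)⟩)
        rw [← h5]
        refine circleIntegral.integral_eq_zero_of_hasDerivWithinAt'
          (f := fun u => F (D.kap l u)) (fun z hz => ?_)
        rw [abs_of_pos (by linarith)] at hz
        have h6 : ‖z‖ = t := by simpa using hz
        exact (hFl l z ⟨by rw [h6]; exact ht1', by rw [h6]; exact ht2⟩).hasDerivWithinAt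
      rw [key]
      simp)
    rw [AN2_U] at hG
    exact ⟨G, hG⟩
  choose G hG using hprim
  -- the constants
  have hann : ∀ l, IsPreconnected (D.kap l '' ann (1 + δ)) := by
    intro l
    refine IsPreconnected.image ?_ _ ((D.holo l).continuousOn.mono
      (Pool.Agent.EN.ann_subset_ann2.trans hsub2))
    have h1 := annulus_preconnected (0 : ℂ) (r := 1) (R := 1 + δ) zero_le_one
    have h2 : ann (1 + δ) = ball 0 (1 + δ) \ closedBall 0 1 := by
      ext z
      simp [ann, and_comm]
    rw [h2]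
    exact h1
  have hanno : ∀ l, IsOpen (D.kap l '' ann (1 + δ)) := fun l =>
    D.isOpen_kap (Pool.Agent.EN.isOpen_ann' _) (Pool.Agent.EN.ann_subset_ann2.trans hsub2)
  have hconst : ∀ l, ∃ c : ℂ, ∀ w ∈ ann (1 + δ), F (D.kap l w) = G l w + c := by
    intro l
    have hd : ∀ z ∈ D.kap l '' ann (1 + δ),
        HasDerivAt (fun z => F z - G l (D.lam l z)) 0 z := by
      rintro _ ⟨w, hw, rfl⟩
      have hw2 := Pool.Agent.EN.ann_subset_ann2 hw
      have hwU : D.kap l w ∈ D.U := (D.mem_iff l w (hsub2 hw2)).2 hw.1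
      have h1 := (hF _ hwU).sub (prim_chart D (hsub2 hw2) (hG l w hw2))
      rw [sub_self] at h1
      exact h1
    have hdo : DifferentiableOn ℂ (fun z => F z - G l (D.lam l z)) (D.kap l '' ann (1 + δ)) :=
      fun z hz => (hd z hz).differentiableAt.differentiableWithinAt
    obtain ⟨c, hc⟩ := (hanno l).exists_is_const_of_deriv_eq_zero (hann l) hdo
      (fun z hz => (hd z hz).deriv)
    refine ⟨c, fun w hw => ?_⟩
    have h3 := hc _ ⟨w, hw, rfl⟩
    rw [D.lam_kap (hsub2 (Pool.Agent.EN.ann_subset_ann2 hw))] at h3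
    rw [← h3]
    ring
  choose c hc using hconst
  classical
  -- the glued primitive
  set Ft : ℂ → ℂ := fun z => if z ∈ D.U then F z else
    ∑ l, if z ∈ D.col δ l then G l (D.lam l z) + c l else 0 with hFt
  have hFtU : ∀ z ∈ D.U, Ft z = F z := fun z hz => if_pos hz
  have hFtc : ∀ l, ∀ z ∈ D.col δ l, Ft z = G l (D.lam l z) + c l := by
    intro l z hz
    by_cases hU : z ∈ D.U
    · rw [hFtU z hU]
      rw [hcol l] at hz
      obtain ⟨w, hw, rfl⟩ := hz
      have hw1 := (D.mem_iff l w (hsub2 hw)).1 hU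
      rw [D.lam_kap (hsub2 hw)]
      exact hc l w ⟨hw1, hw.2⟩
    · simp only [hFt]
      rw [if_neg hU, Finset.sum_eq_single l]
      · rw [if_pos hz]
      · intro m _ hm
        rw [if_neg]
        intro hm2
        exact (disjoint_left.1 (col_disj D (δ := δ) (δ' := δ) hm)) hm2 hz
      · intro h; exact absurd (Finset.mem_univ l) h
  refine ⟨Ft, fun z hz => ?_⟩
  rcases hz with hz | hz
  · refine (hF z hz).congr_of_eventuallyEq ?_
    filter_upwards [D.isOpen.mem_nhds hz] with w hw
    exact hFtU w hw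
  · obtain ⟨l, hl⟩ := mem_iUnion.1 hz
    have h1 : Ft =ᶠ[𝓝 z] fun w => G l (D.lam l w) + c l := by
      filter_upwards [(D.col_open δ l).mem_nhds hl] with w hw
      exact hFtc l w hw
    rw [hcol l] at hl
    obtain ⟨w, hw, rfl⟩ := hl
    exact ((prim_chart D (hsub2 hw) (hG l w hw)).add_const (c l)).congr_of_eventuallyEq h1

end

end Pool.Agent.KA
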