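import Pool.Agent.Helper9.KA.A3
import Pool.Agent.Helper9.KA.A5a
import Pool.Agent.Helper9.KA.C1

set_option autoImplicit false

open MeasureTheory Set Filter Asymptotics Topology Metric
open scoped ComplexConjugate ENNReal

namespace Pool.Agent.KA

open Pool.Agent.Helper7.KE hiding HM PS Bv sfun FF tt lS
open Pool.Agent.EN (AJ ann ann2)

section
variable {k : ℕ} (D : AJ k) {τ : ℝ}

/-! #### auxiliary facts -/

private theorem c7a_integrable {g : ℂ → ℂ} (hg : D.Hol2 g) {b : ℂ → ℂ} (hb : ContinuousOn b D.cU) :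
    IntegrableOn (fun z => g z * b z) D.U := by
  obtain ⟨C, hC⟩ := D.cU_compact.exists_bound_of_continuousOn hb
  have h1 : Integrable g (volume.restrict D.U) := hg.memLp.integrable one_le_two
  refine h1.mul_bdd (c := C) ((hb.mono D.U_subset_cU).aestronglyMeasurable D.U_open.measurableSet) ?_
  filter_upwards [ae_restrict_mem D.U_open.measurableSet] with z hz
  exact hC z (D.U_subset_cU hz)

private theorem c7a_dzb_cont {F : ℂ → ℂ} {V : Set ℂ} (hV : IsOpen V) (hcV : D.cU ⊆ V)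
    (hF : ContDiffOn ℝ (⊤ : ℕ∞) F V) : ContinuousOn (dzb F) D.cU :=
  ((dz_contDiffOn hV hF).2.continuousOn).mono hcV

private theorem chiC_smooth (hτ : D.Good τ) (l : Option (Fin k)) :
    ContDiff ℝ (⊤ : ℕ∞) (fun w => (D.chi τ l w : ℂ)) :=
  Complex.ofRealCLM.contDiff.comp (chi_smooth D hτ l)

/-- `L_t g (1)` -/
theorem Lt_one (hτ : D.Good τ) (t : Fin k → ℂ) {g : ℂ → ℂ} (hg : D.Hol2 g) :
    D.Lt τ t g (fun _ => 1) = sfun D τ t g := by
  rw [AJ.Lt, sfun]
  have h1 : ∀ z ∈ D.U, g z * dzb (fun w => D.X τ t w * conj (1 : ℂ)) z =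
      ∑ j, (t j - 1) * (g z * dzb (fun w => (D.chi τ (some j) w : ℂ)) z) := by
    intro z _
    have e : (fun w => D.X τ t w * conj (1 : ℂ)) = fun w => (1 : ℂ) +
        ∑ j, (t j - 1) • (D.chi τ (some j) w : ℂ) := by
      funext w
      rw [AJ.X, map_one, mul_one]
      rfl
    have hd : ∀ j, DifferentiableAt ℝ (fun w => (D.chi τ (some j) w : ℂ)) z := fun j =>
      (chiC_smooth D hτ (some j)).contDiffAt.differentiableAt (by simp)
    have hci : ∀ j ∈ (Finset.univ : Finset (Fin k)), DifferentiableAt ℝ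
        (fun w => (t j - 1) • (D.chi τ (some j) w : ℂ)) z := fun j _ =>
      (hd j).const_smul (t j - 1)
    rw [e, (dz_add (differentiableAt_const _) (DifferentiableAt.fun_sum hci)).2, dz_const.2,
      zero_add, (dz_sum _ hci).2, Finset.mul_sum]
    refine Finset.sum_congr rfl fun j _ => ?_
    rw [(dz_smul (f := fun _ => t j - 1) (differentiableAt_const _) (hd j)).2, dz_const.2,
      zero_smul, zero_add, smul_eq_mul]
    ring
  rw [setIntegral_congr_fun D.U_open.measurableSet h1]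
  have i2 : ∀ j ∈ (Finset.univ : Finset (Fin k)), Integrable (fun z => (t j - 1) *
      (g z * dzb (fun w => (D.chi τ (some j) w : ℂ)) z)) (volume.restrict D.U) :=
    fun j _ => (c7a_integrable D hg (c7a_dzb_cont D isOpen_univ (subset_univ _)
      (chiC_smooth D hτ (some j)).contDiffOn)).const_mul _
  rw [integral_finsetSum _ i2]
  exact Finset.sum_congr rfl fun j _ => by rw [integral_const_mul]

private theorem X_smooth (hτ : D.Good τ) (t : Fin k → ℂ) : ContDiff ℝ (⊤ : ℕ∞) (D.X τ t) := by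
  have : D.X τ t = fun z => 1 + ∑ j, (t j - 1) * (D.chi τ (some j) z : ℂ) := by
    funext z
    rfl
  rw [this]
  exact contDiff_const.add (ContDiff.sum fun j _ => contDiff_const.mul (chiC_smooth D hτ (some j)))

private theorem conj_smooth {V : Set ℂ} (hV : IsOpen V) {a : ℂ → ℂ} (ha : DifferentiableOn ℂ a V) :
    ContDiffOn ℝ (⊤ : ℕ∞) (fun w => conj (a w)) V :=
  Complex.conjCLE.contDiff.comp_contDiffOn (hol_contDiffOn hV ha)

/-- `L_t g` depends only on the boundary values of the multiplier -/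
theorem Lt_boundary (hτ : D.Good τ) (t : Fin k → ℂ) {g : ℂ → ℂ} (hg : D.Hol2 g) {V : Set ℂ}
    (hV : IsOpen V) (hcV : D.cU ⊆ V) {a : ℂ → ℂ} (ha : DifferentiableOn ℂ a V) {S : ℂ → ℂ}
    (hS : ContDiffOn ℝ (⊤ : ℕ∞) S V) (h0 : ∀ z ∈ D.circ none, S z = 1)
    (h1 : ∀ j, ∀ z ∈ D.circ (some j), S z = t j) :
    D.Lt τ t g a = ∫ z in D.U, g z * dzb (fun w => S w * conj (a w)) z := by
  have hca := conj_smooth hV ha
  have hF1 : ContDiffOn ℝ (⊤ : ℕ∞) (fun w => D.X τ t w * conj (a w)) V :=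
    (X_smooth D hτ t).contDiffOn.mul hca
  have hF2 : ContDiffOn ℝ (⊤ : ℕ∞) (fun w => S w * conj (a w)) V := hS.mul hca
  have h2 := orth_zero D hV hcV
    (σ := fun w => D.X τ t w * conj (a w) + -(S w * conj (a w)))
    ((hF1.add hF2.neg).of_le (by exact_mod_cast le_top)) (by
      intro l z hz
      cases l with
      | none =>
        have e1 : D.X τ t z = 1 := ((X_circ D hτ t).1 z hz).self_of_nhds
        simp only [e1, h0 z hz, add_neg_cancel]
      | some j =>
        have e1 : D.X τ t z = t j := ((X_circ D hτ t).2 j z hz).self_of_nhds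
        simp only [e1, h1 j z hz, add_neg_cancel]) hg
  have h3 : ∀ z ∈ D.U, g z * dzb (fun w => D.X τ t w * conj (a w) + -(S w * conj (a w))) z =
      g z * dzb (fun w => D.X τ t w * conj (a w)) z - g z * dzb (fun w => S w * conj (a w)) z := by
    intro z hz
    have hzV := hV.mem_nhds (hcV (D.U_subset_cU hz))
    have hd1 : DifferentiableAt ℝ (fun w => D.X τ t w * conj (a w)) z :=
      (hF1.contDiffAt hzV).differentiableAt (by simp)
    have hd2 : DifferentiableAt ℝ (fun w => -(S w * conj (a w))) z :=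
      ((hF2.contDiffAt hzV).differentiableAt (by simp)).neg
    rw [(dz_add hd1 hd2).2, dz_neg.2]
    ring
  rw [setIntegral_congr_fun D.U_open.measurableSet h3,
    integral_sub (c7a_integrable D hg (c7a_dzb_cont D hV hcV hF1))
      (c7a_integrable D hg (c7a_dzb_cont D hV hcV hF2))] at h2
  exact sub_eq_zero.mp h2

theorem Lt_linear (hτ : D.Good τ) (t : Fin k → ℂ) {g : ℂ → ℂ} (hg : D.Hol2 g) {V : Set ℂ}
    (hV : IsOpen V) (hcV : D.cU ⊆ V) {a b : ℂ → ℂ} (ha : DifferentiableOn ℂ a V)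
    (hb : DifferentiableOn ℂ b V) (c : ℂ) :
    D.Lt τ t g (fun z => a z + c * b z) = D.Lt τ t g a + conj c * D.Lt τ t g b := by
  have hF1 : ContDiffOn ℝ (⊤ : ℕ∞) (fun w => D.X τ t w * conj (a w)) V :=
    (X_smooth D hτ t).contDiffOn.mul (conj_smooth hV ha)
  have hF2 : ContDiffOn ℝ (⊤ : ℕ∞) (fun w => D.X τ t w * conj (b w)) V :=
    (X_smooth D hτ t).contDiffOn.mul (conj_smooth hV hb)
  rw [AJ.Lt, AJ.Lt, AJ.Lt]
  have h3 : ∀ z ∈ D.U, g z * dzb (fun w => D.X τ t w * conj (a w + c * b w)) z =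
      g z * dzb (fun w => D.X τ t w * conj (a w)) z +
        conj c * (g z * dzb (fun w => D.X τ t w * conj (b w)) z) := by
    intro z hz
    have hzV := hV.mem_nhds (hcV (D.U_subset_cU hz))
    have e : (fun w => D.X τ t w * conj (a w + c * b w)) = fun w => D.X τ t w * conj (a w) +
        (conj c) • (D.X τ t w * conj (b w)) := by
      funext w
      rw [map_add, map_mul, smul_eq_mul]
      ring
    have hd1 : DifferentiableAt ℝ (fun w => D.X τ t w * conj (a w)) z :=
      (hF1.contDiffAt hzV).differentiableAt (by simp)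
    have hd2 : DifferentiableAt ℝ (fun w => D.X τ t w * conj (b w)) z :=
      (hF2.contDiffAt hzV).differentiableAt (by simp)
    rw [e, (dz_add hd1 (hd2.fun_const_smul (conj c))).2,
      (dz_smul (f := fun _ => conj c) (differentiableAt_const _) hd2).2, dz_const.2, zero_smul,
      zero_add, smul_eq_mul]
    ring
  rw [setIntegral_congr_fun D.U_open.measurableSet h3,
    integral_add (c7a_integrable D hg (c7a_dzb_cont D hV hcV hF1))
      ((c7a_integrable D hg (c7a_dzb_cont D hV hcV hF2)).const_mul _), integral_const_mul]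

/-- `L_t g` is linear in `g` -/
theorem Lt_linear_left (hτ : D.Good τ) (t : Fin k → ℂ) {g g' : ℂ → ℂ} (hg : D.Hol2 g)
    (hg' : D.Hol2 g') {V : Set ℂ} (hV : IsOpen V) (hcV : D.cU ⊆ V) {a : ℂ → ℂ}
    (ha : DifferentiableOn ℂ a V) (c : ℂ) :
    D.Lt τ t (fun z => g z + c * g' z) a = D.Lt τ t g a + c * D.Lt τ t g' a := by
  have hF1 : ContDiffOn ℝ (⊤ : ℕ∞) (fun w => D.X τ t w * conj (a w)) V :=
    (X_smooth D hτ t).contDiffOn.mul (conj_smooth hV ha)
  rw [AJ.Lt, AJ.Lt, AJ.Lt]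
  have h3 : ∀ z ∈ D.U, (g z + c * g' z) * dzb (fun w => D.X τ t w * conj (a w)) z =
      g z * dzb (fun w => D.X τ t w * conj (a w)) z +
        c * (g' z * dzb (fun w => D.X τ t w * conj (a w)) z) := fun z _ => by ring
  rw [setIntegral_congr_fun D.U_open.measurableSet h3,
    integral_add (c7a_integrable D hg (c7a_dzb_cont D hV hcV hF1))
      ((c7a_integrable D hg' (c7a_dzb_cont D hV hcV hF1)).const_mul _), integral_const_mul]

theorem res_linear (hτ : D.Good τ) (j : Fin k) {g g' : ℂ → ℂ} (hg : D.Hol2 g)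
    (hg' : D.Hol2 g') (c : ℂ) :
    D.res τ j (fun z => g z + c * g' z) = D.res τ j g + c * D.res τ j g' := by
  have hc : ContinuousOn (dzb (fun w => (D.chi τ (some j) w : ℂ))) D.cU :=
    c7a_dzb_cont D isOpen_univ (subset_univ _) (chiC_smooth D hτ (some j)).contDiffOn
  rw [AJ.res, AJ.res, AJ.res]
  have h3 : ∀ z ∈ D.U, (g z + c * g' z) * dzb (fun w => (D.chi τ (some j) w : ℂ)) z =
      g z * dzb (fun w => (D.chi τ (some j) w : ℂ)) z +
        c * (g' z * dzb (fun w => (D.chi τ (some j) w : ℂ)) z) := fun z _ => by ring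
  rw [setIntegral_congr_fun D.U_open.measurableSet h3,
    integral_add (c7a_integrable D hg hc) ((c7a_integrable D hg' hc).const_mul _),
    integral_const_mul]
  ring

/-- Cauchy-Schwarz -/
private theorem c7a_cs {μ : Measure ℂ} {f g : ℂ → ℂ} (hf : MemLp f 2 μ) (hg : MemLp g 2 μ) :
    ‖∫ z, f z * g z ∂μ‖ ≤
      Real.sqrt (∫ z, ‖f z‖ ^ 2 ∂μ) * Real.sqrt (∫ z, ‖g z‖ ^ 2 ∂μ) := by
  have h := integral_mul_norm_le_Lp_mul_Lq (μ := μ) (f := f) (g := g) (p := 2) (q := 2)
    (Real.HolderConjugate.two_two) (by simpa using hf) (by simpa using hg)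
  have e : ∀ x : ℝ, x ^ (2 : ℝ) = x ^ 2 := fun x => Real.rpow_natCast x 2
  simp only [e] at h
  rw [← Real.sqrt_eq_rpow, ← Real.sqrt_eq_rpow] at h
  refine (norm_integral_le_integral_norm _).trans ?_
  simpa only [norm_mul] using h

theorem res_bound (hτ : D.Good τ) (j : Fin k) : ∃ C : ℝ, ∀ g : ℂ → ℂ, D.Hol2 g →
    ‖D.res τ j g‖ ≤ C * Real.sqrt (∫ z in D.U, ‖g z‖ ^ 2) := by
  have hc : ContinuousOn (dzb (fun w => (D.chi τ (some j) w : ℂ))) D.cU :=
    c7a_dzb_cont D isOpen_univ (subset_univ _) (chiC_smooth D hτ (some j)).contDiffOn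
  obtain ⟨C, hC⟩ := D.cU_compact.exists_bound_of_continuousOn hc
  have hL : MemLp (dzb (fun w => (D.chi τ (some j) w : ℂ))) 2 (volume.restrict D.U) := by
    refine MemLp.of_bound ((hc.mono D.U_subset_cU).aestronglyMeasurable
      D.U_open.measurableSet) C ?_
    filter_upwards [ae_restrict_mem D.U_open.measurableSet] with z hz
    exact hC z (D.U_subset_cU hz)
  refine ⟨‖-(1 / (Real.pi : ℂ))‖ *
    Real.sqrt (∫ z in D.U, ‖dzb (fun w => (D.chi τ (some j) w : ℂ)) z‖ ^ 2), fun g hg => ?_⟩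
  rw [AJ.res, norm_mul, mul_assoc]
  refine mul_le_mul_of_nonneg_left ?_ (norm_nonneg _)
  rw [mul_comm (Real.sqrt _)]
  exact c7a_cs hg.memLp hL

end

section
variable {k : ℕ} (D : AJ k) {τ : ℝ}

/-- elements of `VV_t` are annihilated by all functions holomorphic near the closed domain
which vanish at `z₀` -/
theorem VV_ann {z₀ : ℂ} (t : Fin k → ℂ) {g : ℂ → ℂ}
    (hg : D.VV τ z₀ t g) {δ : ℝ} (hδ : 0 < δ) {a : ℂ → ℂ} (ha : DifferentiableOn ℂ a (D.Ue δ))
    (h0 : a z₀ = 0) : D.Lt τ t g a = 0 := hg.ann a ⟨⟨δ, hδ, ha⟩, h0⟩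

end

end Pool.Agent.KA
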