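import Pool.Agent.Helper9.KA.A2b
import Pool.Agent.Helper9.KA.A3
import Pool.Agent.Helper9.KA.C1

set_option autoImplicit false

open MeasureTheory Set Filter Asymptotics Topology Metric
open scoped ComplexConjugate ENNReal

namespace Pool.Agent.KA

open Pool.Agent.Helper7.KE hiding HM PS Bv sfun FF tt lS
open Pool.Agent.EN (AJ ann ann2)

section
variable {k : ℕ} (D : AJ k) {τ : ℝ}

/-- Cauchy-Schwarz -/
private theorem d2_cs {μ : Measure ℂ} {f g : ℂ → ℂ} (hf : MemLp f 2 μ) (hg : MemLp g 2 μ) :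
    ‖∫ z, f z * g z ∂μ‖ ≤
      Real.sqrt (∫ z, ‖f z‖ ^ 2 ∂μ) * Real.sqrt (∫ z, ‖g z‖ ^ 2 ∂μ) := by
  have h := integral_mul_norm_le_Lp_mul_Lq (μ := μ) (f := f) (g := g) (p := 2) (q := 2)
    (Real.HolderConjugate.two_two) (by simpa using hf) (by simpa using hg)
  have e : ∀ x : ℝ, x ^ (2 : ℝ) = x ^ 2 := fun x => Real.rpow_natCast x 2
  simp only [e] at h
  rw [← Real.sqrt_eq_rpow, ← Real.sqrt_eq_rpow] at h
  refine (norm_integral_le_integral_norm _).trans ?_
  simpa only [norm_mul] using h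

/-- approximation lemma -/
private theorem d2_approx {μ : Measure ℂ} {v g : ℂ → ℂ} (hv : MemLp v 2 μ) (hg : MemLp g 2 μ)
    {S : Set ℂ} (hS : IsClosed S)
    (h : ∀ ε > 0, ∃ w : ℂ → ℂ, MemLp w 2 μ ∧ ∫ z, ‖v z - w z‖ ^ 2 ∂μ < ε ∧
      ∫ z, w z * g z ∂μ ∈ S) : ∫ z, v z * g z ∂μ ∈ S := by
  rw [← hS.closure_eq, Metric.mem_closure_iff]
  intro δ hδ
  set G := Real.sqrt (∫ z, ‖g z‖ ^ 2 ∂μ) with hG
  have hG0 : 0 ≤ G := Real.sqrt_nonneg _
  have hε : 0 < (δ / (G + 1)) ^ 2 := by positivity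
  obtain ⟨w, hw, h1, h2⟩ := h _ hε
  refine ⟨_, h2, ?_⟩
  have e1 : ∫ z, v z * g z ∂μ - ∫ z, w z * g z ∂μ = ∫ z, (v z - w z) * g z ∂μ := by
    have i1 : Integrable (fun z => v z * g z) μ := hv.integrable_mul hg
    have i2 : Integrable (fun z => w z * g z) μ := hw.integrable_mul hg
    rw [← integral_sub i1 i2]
    congr 1
    funext z
    ring
  rw [dist_eq_norm, e1]
  have h3 : Real.sqrt (∫ z, ‖v z - w z‖ ^ 2 ∂μ) ≤ δ / (G + 1) := by
    rw [Real.sqrt_le_left (by positivity)]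
    exact h1.le
  calc ‖∫ z, (v z - w z) * g z ∂μ‖ ≤ Real.sqrt (∫ z, ‖v z - w z‖ ^ 2 ∂μ) * G :=
        d2_cs (hv.sub hw) hg
    _ ≤ δ / (G + 1) * G := mul_le_mul_of_nonneg_right h3 hG0
    _ < δ := by
        rw [div_mul_eq_mul_div, div_lt_iff₀ (by positivity)]
        nlinarith

private theorem d2_memLp {f : ℂ → ℂ} (hf : ContinuousOn f D.cU) :
    MemLp f 2 (volume.restrict D.U) := by
  obtain ⟨C, hC⟩ := D.cU_compact.exists_bound_of_continuousOn hf
  refine MemLp.of_bound ((hf.mono D.U_subset_cU).aestronglyMeasurable D.U_open.measurableSet) C ?_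
  filter_upwards [ae_restrict_mem D.U_open.measurableSet] with z hz
  exact hC z (D.U_subset_cU hz)

private theorem d2_chi_smooth (hτ : D.Good τ) (j : Fin k) :
    ContDiff ℝ (⊤ : ℕ∞) (fun w => (D.chi τ (some j) w : ℂ)) :=
  Complex.ofRealCLM.contDiff.comp (chi_smooth D hτ (some j))

private theorem d2_dz_cont {F : ℂ → ℂ} (hF : ContDiff ℝ (⊤ : ℕ∞) F) :
    Continuous (dz F) ∧ Continuous (dzb F) := by
  have h := dz_contDiffOn isOpen_univ (contDiffOn_univ.2 hF)
  exact ⟨(contDiffOn_univ.1 h.1).continuous, (contDiffOn_univ.1 h.2).continuous⟩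

private theorem d2_psi_circ {ψ : ℂ → ℂ} (hψ : IsTest D.U ψ) (l : Option (Fin k)) {z : ℂ}
    (hz : z ∈ D.circ l) : ∀ᶠ w in 𝓝 z, ψ w = 0 := by
  apply notMem_tsupport_iff_eventuallyEq.1
  intro h
  exact circ_not_mem D hz (hψ.supp h)

/-- the real function `χ_j + ψ` -/
private theorem d2_G (hτ : D.Good τ) (j : Fin k) {ψ : ℂ → ℝ}
    (hψ : IsTest D.U (fun z => (ψ z : ℂ))) :
    ContDiff ℝ (⊤ : ℕ∞) (fun w => (D.chi τ (some j) w : ℂ) + (ψ w : ℂ)) ∧
    (∀ z, dz (fun w => (D.chi τ (some j) w : ℂ) + (ψ w : ℂ)) z =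
      dz (fun w => (D.chi τ (some j) w : ℂ)) z + dz (fun w => (ψ w : ℂ)) z) ∧
    (∀ z, dzb (fun w => (D.chi τ (some j) w : ℂ) + (ψ w : ℂ)) z =
      dzb (fun w => (D.chi τ (some j) w : ℂ)) z + dzb (fun w => (ψ w : ℂ)) z) ∧
    (∀ z, dzb (fun w => (D.chi τ (some j) w : ℂ) + (ψ w : ℂ)) z =
      conj (dz (fun w => (D.chi τ (some j) w : ℂ) + (ψ w : ℂ)) z)) := by
  have h1 := d2_chi_smooth D hτ j
  have h2 := hψ.smooth
  have d1 : ∀ z, DifferentiableAt ℝ (fun w => (D.chi τ (some j) w : ℂ)) z := fun z =>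
    (h1.differentiable (by simp)) z
  have d2 : ∀ z, DifferentiableAt ℝ (fun w => (ψ w : ℂ)) z := fun z =>
    (h2.differentiable (by simp)) z
  refine ⟨h1.add h2, fun z => (dz_add (d1 z) (d2 z)).1, fun z => (dz_add (d1 z) (d2 z)).2,
    fun z => ?_⟩
  have h3 := (dz_conj (f := fun w => (D.chi τ (some j) w : ℂ) + (ψ w : ℂ)) (z := z)
    ((d1 z).add (d2 z))).1
  simp only [map_add, Complex.conj_ofReal] at h3
  rw [h3, Complex.conj_conj]

private theorem d2_int_a (hτ : D.Good τ) (j : Fin k) {ψ : ℂ → ℝ}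
    (hψ : IsTest D.U (fun z => (ψ z : ℂ))) {a : ℂ → ℂ} {V : Set ℂ} (hV : IsOpen V)
    (hcV : D.cU ⊆ V) (ha : DifferentiableOn ℂ a V) :
    ∫ z in D.U, (dz (fun w => (D.chi τ (some j) w : ℂ)) z + dz (fun w => (ψ w : ℂ)) z) *
      conj (deriv a z) = 0 := by
  obtain ⟨hG, e1, -, -⟩ := d2_G D hτ j hψ
  set G : ℂ → ℂ := fun w => (D.chi τ (some j) w : ℂ) + (ψ w : ℂ) with hGdef
  have hda : DifferentiableOn ℂ (deriv a) V := ha.deriv hV
  have hda' : ContDiffOn ℝ (⊤ : ℕ∞) (deriv a) V := hol_contDiffOn hV hda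
  have hca : ContDiffOn ℝ (⊤ : ℕ∞) (fun z => conj (deriv a z)) V :=
    (Complex.conjCLE : ℂ →L[ℝ] ℂ).contDiff.comp_contDiffOn hda'
  have hF : ContDiffOn ℝ 1 (fun z => G z • conj (deriv a z)) V :=
    ((hG.contDiffOn.smul hca).of_le (by simp))
  have key := (green_AJ D hV hcV hF).1
  have hL : ∫ z in D.U, dz (fun z => G z • conj (deriv a z)) z =
      ∫ z in D.U, (dz (fun w => (D.chi τ (some j) w : ℂ)) z + dz (fun w => (ψ w : ℂ)) z) *
      conj (deriv a z) := by
    refine setIntegral_congr_fun D.U_open.measurableSet fun z hz => ?_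
    have hzV := hcV (D.U_subset_cU hz)
    have hd : DifferentiableAt ℝ (fun z => conj (deriv a z)) z :=
      (hca.contDiffAt (hV.mem_nhds hzV)).differentiableAt (by simp)
    have h0 : dz (fun z => conj (deriv a z)) z = 0 :=
      (dz_conj_hol (hda.differentiableAt (hV.mem_nhds hzV))).1
    rw [(dz_smul (hG.differentiable (by simp) z) hd).1, h0, smul_zero, add_zero, e1 z, smul_eq_mul]
  rw [← hL, key]
  have hcirc : ∀ (l : Option (Fin k)) (θ : ℝ),
      D.kap l (Complex.exp (θ * Complex.I)) ∈ D.circ l := by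
    intro l θ
    refine ⟨_, ?_, rfl⟩
    simp [Complex.norm_exp_ofReal_mul_I]
  have h2 : ∀ l, l ≠ some j → ∀ θ : ℝ, G (D.kap l (Complex.exp (θ * Complex.I))) = 0 := by
    intro l hl θ
    have h2 := (chi_zero_near D hτ (l := l) (l' := some j) hl (hcirc l θ)).self_of_nhds
    have h3 := (d2_psi_circ D hψ l (hcirc l θ)).self_of_nhds
    simp only [hGdef, h2, h3]
    simp
  have h3 : ∀ θ : ℝ, G (D.kap (some j) (Complex.exp (θ * Complex.I))) = 1 := by
    intro θ
    have h2 := (chi_near D hτ.pos (some j) (hcirc (some j) θ)).self_of_nhds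
    have h3 := (d2_psi_circ D hψ (some j) (hcirc (some j) θ)).self_of_nhds
    simp only [hGdef, h2, h3]
    simp
  have h4 : ∫ θ in (0 : ℝ)..2 * Real.pi, (Complex.exp (-(θ * Complex.I)) *
      conj (deriv (D.kap (some j)) (Complex.exp (θ * Complex.I)))) •
      (G (D.kap (some j) (Complex.exp (θ * Complex.I))) •
        conj (deriv a (D.kap (some j) (Complex.exp (θ * Complex.I))))) = 0 := by
    have hsph : ∀ z ∈ sphere (0 : ℂ) 1, z ∈ ann2 D.ρ := fun z hz =>
      Pool.Agent.EN.sphere_subset_ann2 D.one_lt hz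
    have hder : ∀ z ∈ sphere (0 : ℂ) 1, HasDerivAt (fun z => a (D.kap (some j) z))
        (deriv a (D.kap (some j) z) * deriv (D.kap (some j)) z) z := by
      intro z hz
      have hz2 := hsph z hz
      have hk : HasDerivAt (D.kap (some j)) (deriv (D.kap (some j)) z) z :=
        ((D.holo (some j)).differentiableAt
          ((Pool.Agent.EN.isOpen_ann2' _).mem_nhds hz2)).hasDerivAt
      have hzc : D.kap (some j) z ∈ D.cU := (mem_cU_iff D _).2 (Or.inr ⟨some j, z, hz, rfl⟩)
      have ha' : HasDerivAt a (deriv a (D.kap (some j) z)) (D.kap (some j) z) :=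
        (ha.differentiableAt (hV.mem_nhds (hcV hzc))).hasDerivAt
      exact ha'.comp z hk
    have h5 : (∮ z in C(0, 1), deriv a (D.kap (some j) z) * deriv (D.kap (some j)) z) = 0 := by
      apply circleIntegral.integral_eq_zero_of_hasDerivWithinAt
        (f := fun z => a (D.kap (some j) z)) zero_le_one
      intro z hz
      exact (hder z hz).hasDerivWithinAt
    have h6 : (∮ z in C(0, 1), deriv a (D.kap (some j) z) * deriv (D.kap (some j)) z) =
        Complex.I * ∫ θ in (0 : ℝ)..2 * Real.pi, Complex.exp (θ * Complex.I) *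
          (deriv a (D.kap (some j) (Complex.exp (θ * Complex.I))) *
            deriv (D.kap (some j)) (Complex.exp (θ * Complex.I))) := by
      rw [circleIntegral, ← intervalIntegral.integral_const_mul]
      congr 1
      funext θ
      rw [deriv_circleMap]
      simp only [circleMap, smul_eq_mul, zero_add, Complex.ofReal_one, one_mul]
      ring
    have h7 : (∫ θ in (0 : ℝ)..2 * Real.pi, Complex.exp (θ * Complex.I) *
          (deriv a (D.kap (some j) (Complex.exp (θ * Complex.I))) *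
            deriv (D.kap (some j)) (Complex.exp (θ * Complex.I)))) = 0 := by
      rw [h6] at h5
      rcases mul_eq_zero.1 h5 with h | h
      · exact absurd h Complex.I_ne_zero
      · exact h
    have h8 : (∫ θ in (0 : ℝ)..2 * Real.pi, (Complex.exp (-(θ * Complex.I)) *
      conj (deriv (D.kap (some j)) (Complex.exp (θ * Complex.I)))) •
      (G (D.kap (some j) (Complex.exp (θ * Complex.I))) •
        conj (deriv a (D.kap (some j) (Complex.exp (θ * Complex.I)))))) =
        conj (∫ θ in (0 : ℝ)..2 * Real.pi, Complex.exp (θ * Complex.I) *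
          (deriv a (D.kap (some j) (Complex.exp (θ * Complex.I))) *
            deriv (D.kap (some j)) (Complex.exp (θ * Complex.I)))) := by
      rw [intervalIntegral.integral_of_le (by positivity),
        intervalIntegral.integral_of_le (by positivity), ← integral_conj]
      congr 1
      funext θ
      rw [h3 θ, map_mul, map_mul, ← Complex.exp_conj]
      simp
      ring
    rw [h8, h7, map_zero]
  have h5 : ∑ l, (1 / 2 : ℂ) • ∫ θ in (0 : ℝ)..2 * Real.pi,
        (Complex.exp (-(θ * Complex.I)) *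
          conj (deriv (D.kap l) (Complex.exp (θ * Complex.I)))) •
        (G (D.kap l (Complex.exp (θ * Complex.I))) •
        conj (deriv a (D.kap l (Complex.exp (θ * Complex.I))))) = 0 := by
    apply Finset.sum_eq_zero
    intro l _
    by_cases hl : l = some j
    · subst hl
      rw [h4, smul_zero]
    · simp only [h2 l hl, zero_smul, smul_zero, intervalIntegral.integral_zero]
  rw [h5, neg_zero]

/-- such a `v` is orthogonal to derivatives and reproduces `∂_z̄ χ_j` -/
theorem grad_orth (hτ : D.Good τ) (j : Fin k) {v : ℂ → ℂ} (hv : D.Hol2 v)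
    (h : ∀ ε > 0, ∃ ψ : ℂ → ℝ, IsTest D.U (fun z => (ψ z : ℂ)) ∧
      ∫ z in D.U, ‖v z - dz (fun w => (D.chi τ (some j) w : ℂ)) z -
        dz (fun w => (ψ w : ℂ)) z‖ ^ 2 < ε) :
    (∀ a : ℂ → ℂ, (∃ V, IsOpen V ∧ D.cU ⊆ V ∧ DifferentiableOn ℂ a V) →
      ∫ z in D.U, v z * conj (deriv a z) = 0) ∧
    (∀ g : ℂ → ℂ, D.Hol2 g → ∫ z in D.U, g z * conj (v z) =
      ∫ z in D.U, g z * dzb (fun w => (D.chi τ (some j) w : ℂ)) z) ∧
    ∀ z₀ ∈ D.U, D.VV τ z₀ (fun _ => 1) v := by
  have part1 : ∀ a : ℂ → ℂ, (∃ V, IsOpen V ∧ D.cU ⊆ V ∧ DifferentiableOn ℂ a V) →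
      ∫ z in D.U, v z * conj (deriv a z) = 0 := by
    rintro a ⟨V, hV, hcV, ha⟩
    have hda : ContDiffOn ℝ (⊤ : ℕ∞) (deriv a) V := hol_contDiffOn hV (ha.deriv hV)
    have hca : ContinuousOn (fun z => conj (deriv a z)) D.cU :=
      Complex.continuous_conj.comp_continuousOn (hda.continuousOn.mono hcV)
    have := d2_approx hv.memLp (d2_memLp D hca) (S := {0}) isClosed_singleton ?_
    · simpa using this
    · intro ε hε
      obtain ⟨ψ, hψ, hψε⟩ := h ε hε
      refine ⟨fun z => dz (fun w => (D.chi τ (some j) w : ℂ)) z + dz (fun w => (ψ w : ℂ)) z,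
        d2_memLp D ((d2_dz_cont (d2_chi_smooth D hτ j)).1.add
          (d2_dz_cont hψ.smooth).1).continuousOn, ?_, ?_⟩
      · simpa only [sub_sub] using hψε
      · exact d2_int_a D hτ j hψ hV hcV ha
  refine ⟨part1, ?_, ?_⟩
  · intro g hg
    have hvc : MemLp (fun z => conj (v z)) 2 (volume.restrict D.U) := hv.memLp.star
    have := d2_approx hvc hg.memLp
      (S := {∫ z in D.U, dzb (fun w => (D.chi τ (some j) w : ℂ)) z * g z})
      isClosed_singleton ?_
    · rw [Set.mem_singleton_iff] at this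
      simp only [mul_comm (g _)]
      exact this
    · intro ε hε
      obtain ⟨ψ, hψ, hψε⟩ := h ε hε
      have hc1 := (d2_dz_cont (d2_chi_smooth D hτ j)).2
      have hc2 := (d2_dz_cont hψ.smooth).2
      refine ⟨fun z => dzb (fun w => (D.chi τ (some j) w : ℂ)) z + dzb (fun w => (ψ w : ℂ)) z,
        d2_memLp D (hc1.add hc2).continuousOn, ?_, ?_⟩
      · refine lt_of_eq_of_lt ?_ hψε
        congr 1
        funext z
        obtain ⟨-, e1, e2, e3⟩ := d2_G D hτ j hψ
        beta_reduce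
        rw [← e2 z, e3 z, e1 z, ← map_sub, Complex.norm_conj, sub_sub]
      · rw [Set.mem_singleton_iff]
        have i1 : Integrable (fun z => dzb (fun w => (D.chi τ (some j) w : ℂ)) z * g z)
            (volume.restrict D.U) := (d2_memLp D hc1.continuousOn).integrable_mul hg.memLp
        have i2 : Integrable (fun z => dzb (fun w => (ψ w : ℂ)) z * g z)
            (volume.restrict D.U) := (d2_memLp D hc2.continuousOn).integrable_mul hg.memLp
        simp only [add_mul]
        rw [integral_add i1 i2]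
        have := orth_zero D isOpen_univ (subset_univ _)
          ((hψ.smooth.contDiffOn (s := univ)).of_le (by simp))
          (fun l z hz => (d2_psi_circ D hψ l hz).self_of_nhds) hg
        simp only [mul_comm (g _)] at this
        rw [this, add_zero]
  · intro z₀ hz₀
    refine ⟨hv, fun a ha => ?_⟩
    obtain ⟨δ, hδ, hA⟩ := ha.ex
    have hV := D.Ue_open δ
    have hcV := D.cU_subset_Ue hδ
    have h1 := part1 a ⟨D.Ue δ, hV, hcV, hA⟩
    rw [AJ.Lt]
    rw [← h1]
    refine setIntegral_congr_fun D.U_open.measurableSet fun z hz => ?_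
    have hzV := hcV (D.U_subset_cU hz)
    congr 1
    have e : (fun w => D.X τ (fun _ => 1) w * conj (a w)) =
        fun w => conj (a w) := by
      funext w
      simp [AJ.X]
    rw [e]
    exact (dz_conj_hol (hA.differentiableAt (hV.mem_nhds hzV))).2

/-- integrals of the approximants against `∂_z̄ χ_l` are real -/
private theorem d2_real (hτ : D.Good τ) (j : Fin k) {ψ : ℂ → ℝ}
    (hψ : IsTest D.U (fun z => (ψ z : ℂ))) (l : Fin k) :
    (∫ z in D.U, (dz (fun w => (D.chi τ (some j) w : ℂ)) z + dz (fun w => (ψ w : ℂ)) z) *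
      dzb (fun w => (D.chi τ (some l) w : ℂ)) z).im = 0 := by
  obtain ⟨hG, e1, e2, e3⟩ := d2_G D hτ j hψ
  set G : ℂ → ℂ := fun w => (D.chi τ (some j) w : ℂ) + (ψ w : ℂ) with hGdef
  have hX := d2_chi_smooth D hτ l
  set X : ℂ → ℂ := fun w => (D.chi τ (some l) w : ℂ) with hXdef
  have hXz : ContDiff ℝ (⊤ : ℕ∞) (dz X) ∧ ContDiff ℝ (⊤ : ℕ∞) (dzb X) := by
    have h := dz_contDiffOn isOpen_univ (contDiffOn_univ.2 hX)
    exact ⟨contDiffOn_univ.1 h.1, contDiffOn_univ.1 h.2⟩
  have hGz := d2_dz_cont hG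
  -- derivatives of X vanish on the circles
  have hX0 : ∀ m, ∀ z ∈ D.circ m, dz X z = 0 ∧ dzb X z = 0 := by
    intro m z hz
    by_cases hm : m = some l
    · subst hm
      have : X =ᶠ[𝓝 z] fun _ => 1 := by
        filter_upwards [chi_near D hτ.pos (some l) hz] with w hw
        simp only [hXdef, hw]
        simp
      have h1 := dz_congr this
      have h2 := dz_const (c := (1 : ℂ)) (z := z)
      exact ⟨h1.1.trans h2.1, h1.2.trans h2.2⟩
    · have : X =ᶠ[𝓝 z] fun _ => 0 := by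
        filter_upwards [chi_zero_near D hτ hm hz] with w hw
        simp only [hXdef, hw]
        simp
      have h1 := dz_congr this
      have h2 := dz_const (c := (0 : ℂ)) (z := z)
      exact ⟨h1.1.trans h2.1, h1.2.trans h2.2⟩
  have hXr : ∀ z, dzb X z = conj (dz X z) := by
    intro z
    have h3 := (dz_conj (f := X) (z := z) (hX.differentiable (by simp) z)).1
    simp only [hXdef, Complex.conj_ofReal] at h3
    rw [h3, Complex.conj_conj]
  have g1 : ∫ z in D.U, dz (fun z => G z • dzb X z) z = 0 :=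
    (green_zero D isOpen_univ (subset_univ _)
      (((hG.smul hXz.2).contDiffOn).of_le (by simp))
      (fun m z hz => by
        show G z • dzb X z = 0
        rw [(hX0 m z hz).2, smul_zero])).1
  have g2 : ∫ z in D.U, dzb (fun z => G z • dz X z) z = 0 :=
    (green_zero D isOpen_univ (subset_univ _)
      (((hG.smul hXz.1).contDiffOn).of_le (by simp))
      (fun m z hz => by
        show G z • dz X z = 0
        rw [(hX0 m z hz).1, smul_zero])).2
  have p1 : ∀ z, dz (fun z => G z • dzb X z) z = dz G z * dzb X z + G z * dz (dzb X) z := by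
    intro z
    rw [(dz_smul (hG.differentiable (by simp) z) (hXz.2.differentiable (by simp) z)).1,
      smul_eq_mul, smul_eq_mul]
  have p2 : ∀ z, dzb (fun z => G z • dz X z) z = dzb G z * dz X z + G z * dzb (dz X) z := by
    intro z
    rw [(dz_smul (hG.differentiable (by simp) z) (hXz.1.differentiable (by simp) z)).2,
      smul_eq_mul, smul_eq_mul]
  have hle : (2 : WithTop ℕ∞) ≤ ((⊤ : ℕ∞) : WithTop ℕ∞) :=
    WithTop.coe_le_coe.2 (le_top : (2 : ℕ∞) ≤ ⊤)
  have hcomm : ∀ z, dz (dzb X) z = dzb (dz X) z := fun z =>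
    dz_comm isOpen_univ ((contDiffOn_univ.2 hX).of_le hle) (mem_univ z)
  have c1 : Continuous fun z => dz G z * dzb X z := hGz.1.mul hXz.2.continuous
  have c2 : Continuous fun z => dzb G z * dz X z := hGz.2.mul hXz.1.continuous
  have c3 : Continuous fun z => G z * dz (dzb X) z :=
    hG.continuous.mul (d2_dz_cont hXz.2).1
  have i1 : Integrable (fun z => dz G z * dzb X z) (volume.restrict D.U) :=
    (c1.continuousOn.integrableOn_compact D.cU_compact).mono_set D.U_subset_cU
  have i2 : Integrable (fun z => dzb G z * dz X z) (volume.restrict D.U) :=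
    (c2.continuousOn.integrableOn_compact D.cU_compact).mono_set D.U_subset_cU
  have i3 : Integrable (fun z => G z * dz (dzb X) z) (volume.restrict D.U) :=
    (c3.continuousOn.integrableOn_compact D.cU_compact).mono_set D.U_subset_cU
  simp only [p1] at g1
  simp only [p2, ← hcomm] at g2
  rw [integral_add i1 i3] at g1
  rw [integral_add i2 i3] at g2
  have g3 : ∫ z in D.U, dz G z * dzb X z = ∫ z in D.U, dzb G z * dz X z :=
    add_right_cancel (g1.trans g2.symm)
  have g4 : ∫ z in D.U, dzb G z * dz X z = conj (∫ z in D.U, dz G z * dzb X z) := by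
    rw [← integral_conj]
    congr 1
    funext z
    rw [map_mul, e3 z, hXr z, Complex.conj_conj]
  rw [g4] at g3
  have g5 := Complex.conj_eq_iff_im.1 g3.symm
  simpa only [e1] using g5

private theorem d2_real' (hτ : D.Good τ) (j : Fin k) {v : ℂ → ℂ} (hv : D.Hol2 v)
    (h : ∀ ε > 0, ∃ ψ : ℂ → ℝ, IsTest D.U (fun z => (ψ z : ℂ)) ∧
      ∫ z in D.U, ‖v z - dz (fun w => (D.chi τ (some j) w : ℂ)) z -
        dz (fun w => (ψ w : ℂ)) z‖ ^ 2 < ε) (l : Fin k) :
    (∫ z in D.U, v z * dzb (fun w => (D.chi τ (some l) w : ℂ)) z).im = 0 := by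
  have := d2_approx hv.memLp
    (d2_memLp D (d2_dz_cont (d2_chi_smooth D hτ l)).2.continuousOn) (S := {z | z.im = 0})
    (isClosed_eq Complex.continuous_im continuous_const) ?_
  · exact this
  · intro ε hε
    obtain ⟨ψ, hψ, hψε⟩ := h ε hε
    refine ⟨fun z => dz (fun w => (D.chi τ (some j) w : ℂ)) z + dz (fun w => (ψ w : ℂ)) z,
      d2_memLp D ((d2_dz_cont (d2_chi_smooth D hτ j)).1.add
        (d2_dz_cont hψ.smooth).1).continuousOn, ?_, d2_real D hτ j hψ l⟩
    simpa only [sub_sub] using hψε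

/-- the residues are real -/
theorem grad_res (hτ : D.Good τ) (j : Fin k) {v : ℂ → ℂ} (hv : D.Hol2 v)
    (h : ∀ ε > 0, ∃ ψ : ℂ → ℝ, IsTest D.U (fun z => (ψ z : ℂ)) ∧
      ∫ z in D.U, ‖v z - dz (fun w => (D.chi τ (some j) w : ℂ)) z -
        dz (fun w => (ψ w : ℂ)) z‖ ^ 2 < ε) (l : Fin k) :
    ∃ x : ℝ, D.res τ l v = x := by
  have h1 := d2_real' D hτ j hv h l
  set I := ∫ z in D.U, v z * dzb (fun w => (D.chi τ (some l) w : ℂ)) z with hI
  have h2 : I = ((I.re : ℝ) : ℂ) := by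
    apply Complex.ext
    · simp
    · simp [h1]
  refine ⟨-(1 / Real.pi) * I.re, ?_⟩
  rw [AJ.res, ← hI, h2]
  push_cast
  simp

/-- Gram matrix is real -/
theorem grad_gram (hτ : D.Good τ) (i j : Fin k) {v v' : ℂ → ℂ} (hv : D.Hol2 v) (hv' : D.Hol2 v')
    (h : ∀ ε > 0, ∃ ψ : ℂ → ℝ, IsTest D.U (fun z => (ψ z : ℂ)) ∧
      ∫ z in D.U, ‖v z - dz (fun w => (D.chi τ (some i) w : ℂ)) z -
        dz (fun w => (ψ w : ℂ)) z‖ ^ 2 < ε)
    (h' : ∀ ε > 0, ∃ ψ : ℂ → ℝ, IsTest D.U (fun z => (ψ z : ℂ)) ∧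
      ∫ z in D.U, ‖v' z - dz (fun w => (D.chi τ (some j) w : ℂ)) z -
        dz (fun w => (ψ w : ℂ)) z‖ ^ 2 < ε) :
    ∃ x : ℝ, ∫ z in D.U, v z * conj (v' z) = x := by
  rw [(grad_orth D hτ j hv' h').2.1 v hv]
  have h1 := d2_real' D hτ i hv h j
  refine ⟨(∫ z in D.U, v z * dzb (fun w => (D.chi τ (some j) w : ℂ)) z).re, ?_⟩
  apply Complex.ext
  · simp
  · simp [h1]

end

end Pool.Agent.KA
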