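import Pool.Agent.Helper9.KA.C5c
import Pool.Agent.Helper7.KE.A1

set_option autoImplicit false

open MeasureTheory Set Filter Asymptotics Topology Metric
open scoped ComplexConjugate ENNReal

namespace Pool.Agent.KA

open Pool.Agent.Helper7.KE hiding HM PS Bv sfun FF tt lS
open Pool.Agent.EN (AJ ann ann2)

namespace D3a

theorem dz_log {a z : ℂ} (hz : z - a ≠ 0) :
    DifferentiableAt ℝ (fun w : ℂ => ((Real.log ‖w - a‖ : ℝ) : ℂ)) z ∧
      dz (fun w : ℂ => ((Real.log ‖w - a‖ : ℝ) : ℂ)) z = 2⁻¹ * (z - a)⁻¹ := by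
  have key : ∃ s : ℂ, (s = 1 ∨ s = -1) ∧ s * (z - a) ∈ Complex.slitPlane := by
    by_cases h : z - a ∈ Complex.slitPlane
    · exact ⟨1, Or.inl rfl, by simpa using h⟩
    · refine ⟨-1, Or.inr rfl, ?_⟩
      rw [Complex.mem_slitPlane_iff, not_or, not_lt, not_not] at h
      rw [Complex.mem_slitPlane_iff]
      left
      have h1 : (z - a).re ≠ 0 := by
        intro h2
        exact hz (Complex.ext h2 h.2)
      have h2 : (-1 * (z - a)).re = -(z - a).re := by simp
      rw [h2]
      exact neg_pos.2 (lt_of_le_of_ne h.1 h1)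
  obtain ⟨s, hs, hsz⟩ := key
  have hs1 : ‖s‖ = 1 := by
    rcases hs with rfl | rfl <;> simp
  have hs0 : s ≠ 0 := by
    rintro rfl
    simp at hs1
  have h1 : (fun w : ℂ => ((Real.log ‖w - a‖ : ℝ) : ℂ)) =
      fun w : ℂ => ((Complex.log (s * (w - a))).re : ℂ) := by
    ext w
    rw [Complex.log_re, norm_mul, hs1, one_mul]
  have h2 : HasDerivAt (fun w : ℂ => Complex.log (s * (w - a))) ((s * 1) / (s * (z - a))) z :=
    (((hasDerivAt_id z).sub_const a).const_mul s).clog hsz
  rw [h1]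
  refine ⟨?_, ?_⟩
  · have h3 : DifferentiableAt ℝ (fun w : ℂ => Complex.log (s * (w - a))) z :=
      h2.differentiableAt.restrictScalars ℝ
    have h4 : DifferentiableAt ℝ (fun w : ℂ => (Complex.log (s * (w - a))).re) z :=
      Complex.reCLM.differentiableAt.comp z h3
    exact Complex.ofRealCLM.differentiableAt.comp z h4
  · rw [dz_re h2.differentiableAt, h2.deriv]
    field_simp


section
variable {k : ℕ} (D : AJ k) {τ : ℝ}

/-- the residue is linear on functions which are continuous on the closed domain -/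
theorem res_add_smul (hτ : D.Good τ) (j : Fin k) {g g' : ℂ → ℂ} (hg : ContinuousOn g D.cU)
    (hg' : ContinuousOn g' D.cU) (c : ℂ) :
    D.res τ j (fun z => g z + c * g' z) = D.res τ j g + c * D.res τ j g' := by
  have hchi : ContDiff ℝ (⊤ : ℕ∞) (fun w => (D.chi τ (some j) w : ℂ)) :=
    Complex.ofRealCLM.contDiff.comp (chi_smooth D hτ (some j))
  have hd : Continuous (dzb (fun w => (D.chi τ (some j) w : ℂ))) :=
    (contDiffOn_univ.1 (dz_contDiffOn isOpen_univ (contDiffOn_univ.2 hchi)).2).continuous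
  have hint : ∀ G : ℂ → ℂ, ContinuousOn G D.cU →
      IntegrableOn (fun z => G z * dzb (fun w => (D.chi τ (some j) w : ℂ)) z) D.U := by
    intro G hG
    exact ((hG.mul hd.continuousOn).integrableOn_compact D.cU_compact).mono_set D.U_subset_cU
  unfold AJ.res
  have h1 : ∀ z, (g z + c * g' z) * dzb (fun w => (D.chi τ (some j) w : ℂ)) z =
      g z * dzb (fun w => (D.chi τ (some j) w : ℂ)) z +
        c * (g' z * dzb (fun w => (D.chi τ (some j) w : ℂ)) z) := fun z => by ring
  simp only [h1]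
  rw [integral_add (hint g hg) ((hint g' hg').const_mul c), integral_const_mul]
  ring

end

end D3a

section
variable {k : ℕ} (D : AJ k) {τ : ℝ}

/-- a real potential of a holomorphic function with real residues -/
theorem exists_potential (hτ : D.Good τ) {δ : ℝ} (hδ : 0 < δ) (hδτ : δ ≤ τ)
    (ha : ∀ j, D.a j ∉ D.Ue δ) {v : ℂ → ℂ}
    (hv : DifferentiableOn ℂ v (D.Ue δ)) (hres : ∀ j, ∃ x : ℝ, D.res τ j v = x) :
    ∃ om : ℂ → ℝ, ContDiffOn ℝ (⊤ : ℕ∞) om (D.Ue δ) ∧
      ∀ z ∈ D.Ue δ, dz (fun w => (om w : ℂ)) z = v z := by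
  choose x hx using hres
  have hne : ∀ j, ∀ z ∈ D.Ue δ, z - D.a j ≠ 0 := by
    intro j z hz h0
    exact ha j (by rwa [← sub_eq_zero.1 h0])
  have hUe : D.cU ⊆ D.Ue δ := D.cU_subset_Ue hδ
  have hE : ∀ j, DifferentiableOn ℂ (fun z => (z - D.a j)⁻¹) (D.Ue δ) := by
    intro j z hz
    refine DifferentiableAt.differentiableWithinAt ?_
    exact DifferentiableAt.inv (by fun_prop) (hne j z hz)
  have hsum : ∀ s : Finset (Fin k), DifferentiableOn ℂ
      (fun z => v z + ∑ l ∈ s, (-(x l : ℂ)) * (z - D.a l)⁻¹) (D.Ue δ) := by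
    intro s
    refine hv.add ?_
    exact DifferentiableOn.fun_sum fun l _ => (hE l).const_mul _
  have hcoef : ∀ s : Finset (Fin k), ∀ j, D.res τ j
      (fun z => v z + ∑ l ∈ s, (-(x l : ℂ)) * (z - D.a l)⁻¹) =
        x j - if j ∈ s then (x j : ℂ) else 0 := by
    intro s
    induction s using Finset.induction_on with
    | empty =>
      intro j
      simp [hx]
    | insert l s hl ih =>
      intro j
      have h1 : (fun z => v z + ∑ i ∈ insert l s, (-(x i : ℂ)) * (z - D.a i)⁻¹) =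
          fun z => (v z + ∑ i ∈ s, (-(x i : ℂ)) * (z - D.a i)⁻¹) +
            (-(x l : ℂ)) * (z - D.a l)⁻¹ := by
        ext z
        rw [Finset.sum_insert hl]
        ring
      rw [h1, D3a.res_add_smul D hτ j ((hsum s).continuousOn.mono hUe)
        ((hE l).continuousOn.mono hUe), ih j, res_inv D hτ]
      by_cases hjl : j = l
      · subst hjl
        simp [hl]
      · simp [hjl]
  obtain ⟨F, hF⟩ := exists_primitive D hτ hδ hδτ (hsum Finset.univ) (fun j => by
    rw [hcoef Finset.univ j]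
    simp)
  have hUo := D.Ue_open δ
  refine ⟨fun z => 2 * (F z).re + ∑ l, 2 * x l * Real.log ‖z - D.a l‖, ?_, ?_⟩
  · have h1 : ContDiffOn ℝ (⊤ : ℕ∞) F (D.Ue δ) :=
      hol_contDiffOn hUo fun z hz => (hF z hz).differentiableAt.differentiableWithinAt
    have h2 : ContDiffOn ℝ (⊤ : ℕ∞) (fun z => (F z).re) (D.Ue δ) :=
      Complex.reCLM.contDiff.comp_contDiffOn h1
    refine (contDiffOn_const.mul h2).add (ContDiffOn.sum fun l _ => ?_)
    refine contDiffOn_const.mul ?_
    intro z hz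
    refine ContDiffAt.contDiffWithinAt ?_
    have h3 : ContDiffAt ℝ (⊤ : ℕ∞) (fun z : ℂ => ‖z - D.a l‖) z :=
      ContDiffAt.norm ℝ (by fun_prop) (hne l z hz)
    exact h3.log (norm_ne_zero_iff.2 (hne l z hz))
  · intro z hz
    have h1 : DifferentiableAt ℂ F z := (hF z hz).differentiableAt
    have h2 : DifferentiableAt ℝ (fun w => ((F w).re : ℂ)) z := by
      have h3 : DifferentiableAt ℝ F z := h1.restrictScalars ℝ
      have h4 : DifferentiableAt ℝ (fun w : ℂ => (F w).re) z :=
        Complex.reCLM.differentiableAt.comp z h3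
      exact Complex.ofRealCLM.differentiableAt.comp z h4
    have h3 : ∀ (c : ℂ) (G : ℂ → ℂ), DifferentiableAt ℝ G z →
        dz (fun w => c * G w) z = c * dz G z := by
      intro c G hG
      have := (dz_smul (f := fun _ => c) (F := G) (differentiableAt_const c) hG).1
      rw [dz_const.1] at this
      simpa using this
    have h4 : (fun w => ((2 * (F w).re + ∑ l, 2 * x l * Real.log ‖w - D.a l‖ : ℝ) : ℂ)) =
        fun w => (2 : ℂ) * ((F w).re : ℂ) + ∑ l, (2 * x l : ℂ) *
          ((Real.log ‖w - D.a l‖ : ℝ) : ℂ) := by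
      ext w
      push_cast
      rfl
    have h5 : ∀ l ∈ (Finset.univ : Finset (Fin k)), DifferentiableAt ℝ
        (fun w => (2 * x l : ℂ) * ((Real.log ‖w - D.a l‖ : ℝ) : ℂ)) z := fun l _ =>
      (differentiableAt_const _).mul (D3a.dz_log (hne l z hz)).1
    have h2' : DifferentiableAt ℝ (fun w => (2 : ℂ) * ((F w).re : ℂ)) z :=
      (differentiableAt_const _).mul h2
    have h5' : DifferentiableAt ℝ (fun w => ∑ l, (2 * x l : ℂ) *
        ((Real.log ‖w - D.a l‖ : ℝ) : ℂ)) z := DifferentiableAt.fun_sum h5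
    rw [h4, (dz_add h2' h5').1,
      (dz_sum _ h5).1, h3 _ _ h2, dz_re h1, (hF z hz).deriv]
    have h6 : ∀ l : Fin k, dz (fun w => (2 * x l : ℂ) *
        ((Real.log ‖w - D.a l‖ : ℝ) : ℂ)) z = (x l : ℂ) * (z - D.a l)⁻¹ := by
      intro l
      rw [h3 _ _ (D3a.dz_log (hne l z hz)).1, (D3a.dz_log (hne l z hz)).2]
      ring
    simp only [h6, neg_mul, Finset.sum_neg_distrib]
    ring

end

end Pool.Agent.KA
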