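import Pool.Agent.Helper9.KA.A2b
import Pool.Agent.Helper9.KA.C2
import Pool.Agent.Helper9.KA.A5b

set_option autoImplicit false

open MeasureTheory Set Filter Asymptotics Topology Metric
open scoped ComplexConjugate ENNReal

namespace Pool.Agent.KA

open Pool.Agent.Helper7.KE hiding HM PS Bv sfun FF tt lS
open Pool.Agent.EN (AJ ann ann2)

section
variable {k : ℕ} (D : AJ k) {τ : ℝ}

theorem D3b_memLp {f : ℂ → ℂ} (hf : ContinuousOn f D.cU) : MemLp f 2 (volume.restrict D.U) := by
  obtain ⟨C, hC⟩ := D.cU_compact.exists_bound_of_continuousOn hf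
  refine MemLp.of_bound ((hf.mono D.U_subset_cU).aestronglyMeasurable D.U_open.measurableSet) C ?_
  filter_upwards [ae_restrict_mem D.U_open.measurableSet] with z hz
  exact hC z (D.U_subset_cU hz)

open Classical in
/-- the element of `L²` of a function continuous on the closed domain -/
noncomputable def D3b_tl (f : ℂ → ℂ) : D.L2 :=
  if hf : MemLp f 2 (volume.restrict D.U) then hf.toLp f else 0

theorem D3b_coe {f : ℂ → ℂ} (hf : ContinuousOn f D.cU) :
    (D3b_tl D f : ℂ → ℂ) =ᵐ[volume.restrict D.U] f := by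
  rw [D3b_tl, dif_pos (D3b_memLp D hf)]
  exact MemLp.coeFn_toLp _

theorem D3b_norm {f : ℂ → ℂ} (hf : ContinuousOn f D.cU) :
    ‖D3b_tl D f‖ = (eLpNorm f 2 (volume.restrict D.U)).toReal := by
  rw [D3b_tl, dif_pos (D3b_memLp D hf), Lp.norm_toLp]

theorem D3b_sub {f g : ℂ → ℂ} (hf : ContinuousOn f D.cU) (hg : ContinuousOn g D.cU) :
    D3b_tl D (fun z => f z - g z) = D3b_tl D f - D3b_tl D g := by
  apply Lp.ext
  have h1 := D3b_coe D (hf.sub hg)
  filter_upwards [h1, D3b_coe D hf, D3b_coe D hg, Lp.coeFn_sub (D3b_tl D f) (D3b_tl D g)]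
    with z h1 h2 h3 h4
  rw [h4, Pi.sub_apply, h2, h3]
  exact h1

theorem D3b_inner {f : ℂ → ℂ} (hf : ContinuousOn f D.cU) (u : D.L2) :
    inner ℂ (D3b_tl D (fun z => conj (f z))) u = ∫ z in D.U, (u : ℂ → ℂ) z * f z := by
  rw [L2.inner_def]
  refine integral_congr_ae ?_
  have hf' : ContinuousOn (fun z => conj (f z)) D.cU := Complex.continuous_conj.comp_continuousOn hf
  filter_upwards [D3b_coe D hf'] with z hz
  rw [hz]
  simp

theorem D3b_norm_sq {f : ℂ → ℂ} (hf : ContinuousOn f D.cU) :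
    ‖D3b_tl D f‖ ^ 2 = ∫ z in D.U, ‖f z‖ ^ 2 := by
  have h1 : ((‖D3b_tl D f‖ ^ 2 : ℝ) : ℂ) = ((∫ z in D.U, ‖f z‖ ^ 2 : ℝ) : ℂ) := by
    calc ((‖D3b_tl D f‖ ^ 2 : ℝ) : ℂ) = inner ℂ (D3b_tl D f) (D3b_tl D f) := by
          rw [inner_self_eq_norm_sq_to_K]
          push_cast
          rfl
      _ = ∫ z in D.U, inner ℂ ((D3b_tl D f : ℂ → ℂ) z) ((D3b_tl D f : ℂ → ℂ) z) :=
          L2.inner_def _ _
      _ = ∫ z in D.U, ((‖f z‖ ^ 2 : ℝ) : ℂ) := by
          refine integral_congr_ae ?_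
          filter_upwards [D3b_coe D hf] with z hz
          rw [hz, inner_self_eq_norm_sq_to_K]
          push_cast
          rfl
      _ = ((∫ z in D.U, ‖f z‖ ^ 2 : ℝ) : ℂ) := integral_ofReal
  exact_mod_cast h1

theorem D3b_norm_congr {f g : ℂ → ℂ} (hf : ContinuousOn f D.cU) (hg : ContinuousOn g D.cU)
    (h : ∀ z ∈ D.U, ‖f z‖ = ‖g z‖) : ‖D3b_tl D f‖ = ‖D3b_tl D g‖ := by
  rw [D3b_norm D hf, D3b_norm D hg]
  congr 1
  refine eLpNorm_congr_norm_ae ?_
  filter_upwards [ae_restrict_mem D.U_open.measurableSet] with z hz using h z hz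

theorem D3b_fderiv {F : ℂ → ℂ} {z : ℂ} (v : ℂ) :
    fderiv ℝ F z v = v * dz F z + conj v * dzb F z := by
  have h1 : v = v.re • (1 : ℂ) + v.im • Complex.I := by
    simp [Complex.re_add_im]
  conv_lhs => rw [h1]
  rw [map_add, map_smul, map_smul]
  unfold dz dzb
  simp only [smul_eq_mul, Complex.real_smul]
  apply Complex.ext <;> simp <;> ring

theorem D3b_fderiv_norm {ψ : ℂ → ℝ} {z : ℂ} (h : DifferentiableAt ℝ ψ z) :
    ‖fderiv ℝ (fun w => (ψ w : ℂ)) z‖ ≤ 2 * ‖dz (fun w => (ψ w : ℂ)) z‖ := by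
  refine ContinuousLinearMap.opNorm_le_bound _ (by positivity) fun v => ?_
  rw [D3b_fderiv, dzb_ofReal h]
  refine (norm_add_le _ _).trans ?_
  rw [norm_mul, norm_mul, RCLike.norm_conj, RCLike.norm_conj]
  linarith

theorem D3b_real {ψ : ℂ → ℝ} {n : WithTop ℕ∞} (h : ContDiff ℝ n (fun z => (ψ z : ℂ))) :
    ContDiff ℝ n ψ := by
  have := (Complex.reCLM.contDiff (n := n)).comp h
  exact this

theorem D3b_poincare : ∃ C : ℝ, 0 ≤ C ∧ ∀ ψ : ℂ → ℝ, IsTest D.U (fun z => (ψ z : ℂ)) →
    ‖D3b_tl D (fun z => (ψ z : ℂ))‖ ≤ C * ‖D3b_tl D (dz (fun z => (ψ z : ℂ)))‖ := by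
  set μ : Measure ℂ := volume.restrict D.U with hμ
  set K : ℝ≥0∞ := ENNReal.ofNNReal (eLpNormLESNormFDerivOneConst (volume : Measure ℂ) (2 : NNReal))
    with hK
  set m : ℝ≥0∞ := μ univ ^ (1 / (1 : ℝ≥0∞).toReal - 1 / (2 : ℝ≥0∞).toReal) with hm
  have hm' : m ≠ ⊤ := by
    refine ENNReal.rpow_ne_top_of_nonneg (by norm_num) ?_
    rw [hμ, Measure.restrict_apply_univ]
    exact D.U_finite
  refine ⟨(K * (ENNReal.ofReal 2 * m)).toReal, ENNReal.toReal_nonneg, fun ψ hψ => ?_⟩
  set F : ℂ → ℂ := fun z => (ψ z : ℂ) with hF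
  have hFc : Continuous F := hψ.smooth.continuous
  have hFd : Continuous (dz F) := hψ.dz.smooth.continuous
  rw [D3b_norm D hFc.continuousOn, D3b_norm D hFd.continuousOn]
  have h1 : eLpNorm F 2 μ ≤ K * eLpNorm (fderiv ℝ F) 1 volume := by
    have hsm : ContDiff ℝ 1 F := hψ.smooth.of_le (by exact_mod_cast le_top)
    have hconj : NNReal.HolderConjugate (Module.finrank ℝ ℂ) 2 := by
      rw [Complex.finrank_real_complex]
      have : NNReal.HolderConjugate 2 2 := by
        rw [NNReal.holderConjugate_iff]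
        norm_num
      exact_mod_cast this
    have h2 := eLpNorm_le_eLpNorm_fderiv_one (volume : Measure ℂ) hsm hψ.compact hconj
    exact (eLpNorm_mono_measure F Measure.restrict_le_self).trans h2
  have h2 : eLpNorm (fderiv ℝ F) 1 volume = eLpNorm (fderiv ℝ F) 1 μ := by
    refine (eLpNorm_restrict_eq_of_support_subset ?_).symm
    exact (support_fderiv_subset ℝ).trans hψ.supp
  have h3 : eLpNorm (fderiv ℝ F) 1 μ ≤ eLpNorm (fderiv ℝ F) 2 μ * m := by
    refine eLpNorm_le_eLpNorm_mul_rpow_measure_univ (by norm_num) ?_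
    exact (hψ.smooth.continuous_fderiv (by simp)).aestronglyMeasurable
  have h4 : eLpNorm (fderiv ℝ F) 2 μ ≤ ENNReal.ofReal 2 * eLpNorm (dz F) 2 μ := by
    refine eLpNorm_le_mul_eLpNorm_of_ae_le_mul ?_ 2
    refine Eventually.of_forall fun z => D3b_fderiv_norm ?_
    exact (D3b_real hψ.smooth).differentiable (by simp) z
  have h5 : eLpNorm F 2 μ ≤ K * (ENNReal.ofReal 2 * m) * eLpNorm (dz F) 2 μ := by
    refine h1.trans ?_
    rw [h2, mul_assoc]
    gcongr
    refine h3.trans ?_
    calc eLpNorm (fderiv ℝ F) 2 μ * m ≤ ENNReal.ofReal 2 * eLpNorm (dz F) 2 μ * m := by gcongr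
      _ = ENNReal.ofReal 2 * m * eLpNorm (dz F) 2 μ := by ring
  rw [← ENNReal.toReal_mul]
  refine ENNReal.toReal_mono ?_ h5
  refine ENNReal.mul_ne_top (ENNReal.mul_ne_top ENNReal.coe_ne_top
    (ENNReal.mul_ne_top ENNReal.ofReal_ne_top hm')) ?_
  exact (D3b_memLp D hFd.continuousOn).2.ne

theorem D3b_int_test {F : ℂ → ℂ} (hF : IsTest D.U F) :
    ∫ z in D.U, dz F z = 0 ∧ ∫ z in D.U, dzb F z = 0 := by
  have h := integral_dz_test (hF.smooth.of_le (by exact_mod_cast le_top)) hF.compact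
  constructor
  · rw [setIntegral_eq_integral_of_forall_compl_eq_zero fun z hz => ?_]
    · exact h.1
    · exact (dz_of_notMem fun h' => hz (hF.supp h')).1
  · rw [setIntegral_eq_integral_of_forall_compl_eq_zero fun z hz => ?_]
    · exact h.2
    · exact (dz_of_notMem fun h' => hz (hF.supp h')).2

theorem D3b_integrable {f : ℂ → ℂ} (hf : ContinuousOn f D.cU) : IntegrableOn f D.U :=
  (hf.integrableOn_compact D.cU_compact).mono_set D.U_subset_cU

theorem D3b_step {s p G : ℂ → ℂ} {V : Set ℂ} (hV : IsOpen V) (hcV : D.cU ⊆ V)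
    (hs : ContDiffOn ℝ (⊤ : ℕ∞) s V) (hp : IsTest D.U p) (hG : ContDiffOn ℝ (⊤ : ℕ∞) G V) :
    ∫ z in D.U, dz (fun w => s w * G w) z =
      inner ℂ (D3b_tl D (fun z => conj (G z))) (D3b_tl D (dz s) - D3b_tl D (dz p)) +
        inner ℂ (D3b_tl D (fun z => conj (dz G z))) (D3b_tl D s - D3b_tl D p) ∧
    ∫ z in D.U, dzb (fun w => s w * G w) z =
      inner ℂ (D3b_tl D (fun z => conj (G z))) (D3b_tl D (dzb s) - D3b_tl D (dzb p)) +
        inner ℂ (D3b_tl D (fun z => conj (dzb G z))) (D3b_tl D s - D3b_tl D p) := by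
  have hds := dz_contDiffOn hV hs
  have hdG := dz_contDiffOn hV hG
  have cs : ContinuousOn s D.cU := hs.continuousOn.mono hcV
  have cds : ContinuousOn (dz s) D.cU := hds.1.continuousOn.mono hcV
  have cbs : ContinuousOn (dzb s) D.cU := hds.2.continuousOn.mono hcV
  have cG : ContinuousOn G D.cU := hG.continuousOn.mono hcV
  have cdG : ContinuousOn (dz G) D.cU := hdG.1.continuousOn.mono hcV
  have cbG : ContinuousOn (dzb G) D.cU := hdG.2.continuousOn.mono hcV
  have cp : ContinuousOn p D.cU := hp.smooth.continuous.continuousOn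
  have cdp : ContinuousOn (dz p) D.cU := hp.dz.smooth.continuous.continuousOn
  have cbp : ContinuousOn (dzb p) D.cU := hp.dzb.smooth.continuous.continuousOn
  have hUV : D.U ⊆ V := D.U_subset_cU.trans hcV
  have hpG : IsTest D.U (fun z => p z • G z) := hp.smul' D.U_open (hG.mono hUV)
  have hint := D3b_int_test D hpG
  have dG : ∀ z ∈ D.U, DifferentiableAt ℝ G z := fun z hz =>
    (hG.contDiffAt (hV.mem_nhds (hUV hz))).differentiableAt (by simp)
  have dss : ∀ z ∈ D.U, DifferentiableAt ℝ s z := fun z hz =>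
    (hs.contDiffAt (hV.mem_nhds (hUV hz))).differentiableAt (by simp)
  have dp : ∀ z, DifferentiableAt ℝ p z := fun z => hp.smooth.differentiable (by simp) z
  rw [← D3b_sub D cds cdp, ← D3b_sub D cs cp, ← D3b_sub D cbs cbp, D3b_inner D cG, D3b_inner D cdG,
    D3b_inner D cG, D3b_inner D cbG]
  constructor
  · have e1 : ∫ z in D.U, (D3b_tl D (fun z => dz s z - dz p z) : ℂ → ℂ) z * G z =
        ∫ z in D.U, (dz s z - dz p z) * G z := by
      refine integral_congr_ae ?_
      filter_upwards [D3b_coe D (cds.sub cdp)] with z hz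
      rw [show (fun z => dz s z - dz p z) = (fun z => dz s z) - (fun z => dz p z) from rfl]
      rw [hz]
      rfl
    have e2 : ∫ z in D.U, (D3b_tl D (fun z => s z - p z) : ℂ → ℂ) z * dz G z =
        ∫ z in D.U, (s z - p z) * dz G z := by
      refine integral_congr_ae ?_
      filter_upwards [D3b_coe D (cs.sub cp)] with z hz
      rw [show (fun z => s z - p z) = (fun z => s z) - (fun z => p z) from rfl]
      rw [hz]
      rfl
    have i1 : IntegrableOn (fun z => (dz s z - dz p z) * G z) D.U :=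
      D3b_integrable D ((cds.sub cdp).mul cG)
    have i2 : IntegrableOn (fun z => (s z - p z) * dz G z) D.U :=
      D3b_integrable D ((cs.sub cp).mul cdG)
    rw [e1, e2, ← integral_add i1 i2, ← sub_zero (∫ z in D.U, dz (fun w => s w * G w) z),
      ← hint.1, ← integral_sub]
    · refine setIntegral_congr_fun D.U_open.measurableSet fun z hz => ?_
      have h1 := (dz_smul (dss z hz) (dG z hz)).1
      have h2 := (dz_smul (dp z) (dG z hz)).1
      simp only [smul_eq_mul] at h1 h2 ⊢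
      rw [h1, h2]
      ring
    · refine D3b_integrable D ?_
      exact (dz_contDiffOn hV (hs.mul hG)).1.continuousOn.mono hcV
    · exact D3b_integrable D hpG.dz.smooth.continuous.continuousOn
  · have e1 : ∫ z in D.U, (D3b_tl D (fun z => dzb s z - dzb p z) : ℂ → ℂ) z * G z =
        ∫ z in D.U, (dzb s z - dzb p z) * G z := by
      refine integral_congr_ae ?_
      filter_upwards [D3b_coe D (cbs.sub cbp)] with z hz
      rw [show (fun z => dzb s z - dzb p z) = (fun z => dzb s z) - (fun z => dzb p z) from rfl]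
      rw [hz]
      rfl
    have e2 : ∫ z in D.U, (D3b_tl D (fun z => s z - p z) : ℂ → ℂ) z * dzb G z =
        ∫ z in D.U, (s z - p z) * dzb G z := by
      refine integral_congr_ae ?_
      filter_upwards [D3b_coe D (cs.sub cp)] with z hz
      rw [show (fun z => s z - p z) = (fun z => s z) - (fun z => p z) from rfl]
      rw [hz]
      rfl
    have i1 : IntegrableOn (fun z => (dzb s z - dzb p z) * G z) D.U :=
      D3b_integrable D ((cbs.sub cbp).mul cG)
    have i2 : IntegrableOn (fun z => (s z - p z) * dzb G z) D.U :=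
      D3b_integrable D ((cs.sub cp).mul cbG)
    rw [e1, e2, ← integral_add i1 i2, ← sub_zero (∫ z in D.U, dzb (fun w => s w * G w) z),
      ← hint.2, ← integral_sub]
    · refine setIntegral_congr_fun D.U_open.measurableSet fun z hz => ?_
      have h1 := (dz_smul (dss z hz) (dG z hz)).2
      have h2 := (dz_smul (dp z) (dG z hz)).2
      simp only [smul_eq_mul] at h1 h2 ⊢
      rw [h1, h2]
      ring
    · refine D3b_integrable D ?_
      exact (dz_contDiffOn hV (hs.mul hG)).2.continuousOn.mono hcV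
    · exact D3b_integrable D hpG.dzb.smooth.continuous.continuousOn

/-- a square integrable holomorphic function with vanishing weak `∂_z` is constant -/
theorem D3b_const {g : ℂ → ℂ} (hg : DifferentiableOn ℂ g D.U)
    (h : ∀ G : ℂ → ℂ, IsTest D.U G → ∫ z in D.U, g z * dz G z = 0) :
    ∃ c : ℂ, ∀ z ∈ D.U, g z = c := by
  have hgs : ContDiffOn ℝ (⊤ : ℕ∞) g D.U := hol_contDiffOn D.U_open hg
  have hd : DifferentiableOn ℂ (deriv g) D.U := hg.deriv D.U_open
  have h0 : ∀ᵐ z : ℂ, z ∈ D.U → deriv g z = 0 := by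
    refine D.U_open.ae_eq_zero_of_integral_contDiff_smul_eq_zero
      (hd.continuousOn.locallyIntegrableOn D.U_open.measurableSet) fun G hG hGc hGs => ?_
    have hGt : IsTest D.U (fun z => (G z : ℂ)) := by
      refine ⟨Complex.ofRealCLM.contDiff.comp hG, ?_, ?_⟩
      · exact hGc.comp_left (g := fun x : ℝ => (x : ℂ)) Complex.ofReal_zero
      · have : tsupport (fun z => (G z : ℂ)) = tsupport G := by
          unfold tsupport
          congr 1
          ext z
          simp
        rw [this]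
        exact hGs
    have h1 := h _ hGt
    have h2 : IsTest D.U (fun z => g z • (G z : ℂ)) := hGt.smul D.U_open hgs
    have h3 := (D3b_int_test D h2).1
    have h4 : ∀ z ∈ D.U, dz (fun z => g z • (G z : ℂ)) z = (deriv g z) * (G z : ℂ) +
        g z * dz (fun w => (G w : ℂ)) z := by
      intro z hz
      have hgz : DifferentiableAt ℂ g z := hg.differentiableAt (D.U_open.mem_nhds hz)
      have h5 := (dz_smul (hgz.restrictScalars ℝ) (hGt.smooth.differentiable (by simp) z)).1
      rw [(dz_hol hgz).1] at h5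
      exact h5
    rw [setIntegral_congr_fun D.U_open.measurableSet h4] at h3
    have i2 : IntegrableOn (fun z => g z * dz (fun w => (G w : ℂ)) z) D.U := by
      have h6 : IsTest D.U (fun z => g z • dz (fun w => (G w : ℂ)) z) :=
        (hGt.dz).smul D.U_open hgs
      exact (h6.smooth.continuous.integrable_of_hasCompactSupport h6.compact).integrableOn
    have i1 : IntegrableOn (fun z => deriv g z * (G z : ℂ)) D.U := by
      have h6 : IsTest D.U (fun z => deriv g z • (G z : ℂ)) :=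
        hGt.smul D.U_open (hol_contDiffOn D.U_open hd)
      exact (h6.smooth.continuous.integrable_of_hasCompactSupport h6.compact).integrableOn
    rw [integral_add i1 i2, h1, add_zero] at h3
    have h7 : ∫ z, G z • deriv g z = ∫ z in D.U, deriv g z * (G z : ℂ) := by
      have h8 : ∀ z, G z • deriv g z = deriv g z * (G z : ℂ) := fun z => by
        rw [Complex.real_smul, mul_comm]
      simp only [h8]
      refine (setIntegral_eq_integral_of_forall_compl_eq_zero fun z hz => ?_).symm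
      have : G z = 0 := image_eq_zero_of_notMem_tsupport fun h' => hz (hGs h')
      rw [this]
      simp
    rw [h7]
    exact h3
  have h1 : ∀ z ∈ D.U, deriv g z = 0 := by
    have hc : ContinuousOn (deriv g) D.U := hd.continuousOn
    have h2 : deriv g =ᵐ[volume.restrict D.U] fun _ => 0 := by
      rw [EventuallyEq, ae_restrict_iff' D.U_open.measurableSet]
      exact h0
    exact (Measure.eqOn_open_of_ae_eq h2 D.U_open hc continuousOn_const)
  exact D.U_open.exists_is_const_of_deriv_eq_zero (U_preconnected D) hg h1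

/-- the `L²` limit of the test functions, minus `σ`, is a constant -/
theorem D3b_limit {σ : ℂ → ℝ} {V : Set ℂ} (hV : IsOpen V) (hcV : D.cU ⊆ V)
    (hσ : ContDiffOn ℝ (⊤ : ℕ∞) σ V)
    (h : ∀ ε > 0, ∃ ψ : ℂ → ℝ, IsTest D.U (fun z => (ψ z : ℂ)) ∧
      ‖D3b_tl D (fun z => dz (fun w => (σ w : ℂ)) z - dz (fun w => (ψ w : ℂ)) z)‖ < ε) :
    ∃ c : ℂ, ∀ G : ℂ → ℂ, ContDiffOn ℝ (⊤ : ℕ∞) G V →
      ∫ z in D.U, dz (fun w => ((σ w : ℂ) - c) * G w) z = 0 := by
  have hσc : ContDiffOn ℝ (⊤ : ℕ∞) (fun z => (σ z : ℂ)) V :=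
    Complex.ofRealCLM.contDiff.comp_contDiffOn hσ
  have hdσ := dz_contDiffOn hV hσc
  have hσU : ContinuousOn (fun z => (σ z : ℂ)) D.cU := hσc.continuousOn.mono hcV
  have hdσU : ContinuousOn (dz fun z => (σ z : ℂ)) D.cU := hdσ.1.continuousOn.mono hcV
  have hbσU : ContinuousOn (dzb fun z => (σ z : ℂ)) D.cU := hdσ.2.continuousOn.mono hcV
  choose ψ hψ hψn using fun n : ℕ => h (1 / ((n : ℝ) + 1)) (by positivity)
  have hψc : ∀ n, ContinuousOn (fun z => (ψ n z : ℂ)) D.cU := fun n =>
    (hψ n).smooth.continuous.continuousOn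
  have hdψc : ∀ n, ContinuousOn (dz fun z => (ψ n z : ℂ)) D.cU := fun n =>
    (hψ n).dz.smooth.continuous.continuousOn
  have hbψc : ∀ n, ContinuousOn (dzb fun z => (ψ n z : ℂ)) D.cU := fun n =>
    (hψ n).dzb.smooth.continuous.continuousOn
  have hψr : ∀ n, ContDiff ℝ (⊤ : ℕ∞) (ψ n) := fun n => D3b_real (hψ n).smooth
  -- the distances
  have hd : ∀ n, ‖D3b_tl D (dz fun z => (σ z : ℂ)) - D3b_tl D (dz fun z => (ψ n z : ℂ))‖ <
      1 / ((n : ℝ) + 1) := by
    intro n
    rw [← D3b_sub D hdσU (hdψc n)]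
    exact hψn n
  have hdb : ∀ n, ‖D3b_tl D (dzb fun z => (σ z : ℂ)) - D3b_tl D (dzb fun z => (ψ n z : ℂ))‖ <
      1 / ((n : ℝ) + 1) := by
    intro n
    refine lt_of_eq_of_lt ?_ (hψn n)
    rw [← D3b_sub D hbσU (hbψc n)]
    refine D3b_norm_congr D (hbσU.sub (hbψc n)) (hdσU.sub (hdψc n)) fun z hz => ?_
    have h1 := dzb_ofReal ((hσ.contDiffAt (hV.mem_nhds (hcV (D.U_subset_cU hz)))).differentiableAt
      (by simp))
    have h2 := dzb_ofReal ((hψr n).differentiable (by simp) z)
    rw [h1, h2, ← map_sub, RCLike.norm_conj]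
  have hlim0 : Tendsto (fun n : ℕ => 1 / ((n : ℝ) + 1)) atTop (𝓝 0) :=
    tendsto_one_div_add_atTop_nhds_zero_nat
  have hdlim : Tendsto (fun n => D3b_tl D (dz fun z => (σ z : ℂ)) -
      D3b_tl D (dz fun z => (ψ n z : ℂ))) atTop (𝓝 0) :=
    squeeze_zero_norm (fun n => (hd n).le) hlim0
  have hblim : Tendsto (fun n => D3b_tl D (dzb fun z => (σ z : ℂ)) -
      D3b_tl D (dzb fun z => (ψ n z : ℂ))) atTop (𝓝 0) :=
    squeeze_zero_norm (fun n => (hdb n).le) hlim0
  -- the limit
  obtain ⟨C, hC0, hC⟩ := D3b_poincare D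
  have hcau : CauchySeq fun n => D3b_tl D (fun z => (ψ n z : ℂ)) := by
    have hb : Tendsto (fun n : ℕ => 2 * C * (1 / ((n : ℝ) + 1))) atTop (𝓝 0) := by
      simpa using hlim0.const_mul (2 * C)
    refine cauchySeq_of_le_tendsto_0 _ (fun n m N hn hm => ?_) hb
    have hnn : 1 / ((n : ℝ) + 1) ≤ 1 / ((N : ℝ) + 1) := by
      have : (N : ℝ) ≤ n := by exact_mod_cast hn
      gcongr
    have hmm : 1 / ((m : ℝ) + 1) ≤ 1 / ((N : ℝ) + 1) := by
      have : (N : ℝ) ≤ m := by exact_mod_cast hm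
      gcongr
    have e1 : IsTest D.U (fun z => ((ψ n z - ψ m z : ℝ) : ℂ)) := by
      have h1 : IsTest D.U (fun z => -(ψ m z : ℂ)) := by
        have := (hψ m)
        refine ⟨this.smooth.neg, ?_, ?_⟩
        · exact this.compact.neg
        · have h2 : tsupport (fun z => -(ψ m z : ℂ)) = tsupport (fun z => (ψ m z : ℂ)) := by
            unfold tsupport
            congr 1
            ext z
            simp
          rw [h2]
          exact this.supp
      have h2 := (hψ n).add h1
      refine (?_ : (fun z => ((ψ n z - ψ m z : ℝ) : ℂ)) = fun z => (ψ n z : ℂ) + -(ψ m z : ℂ)) ▸ h2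
      funext z
      push_cast
      ring
    have e2 := hC _ e1
    have e3 : (fun z => ((ψ n z - ψ m z : ℝ) : ℂ)) = fun z => (ψ n z : ℂ) - (ψ m z : ℂ) := by
      funext z
      push_cast
      ring
    have e4 : dz (fun z => ((ψ n z - ψ m z : ℝ) : ℂ)) =
        fun z => dz (fun w => (ψ n w : ℂ)) z - dz (fun w => (ψ m w : ℂ)) z := by
      funext z
      have hn' : DifferentiableAt ℝ (fun w => (ψ n w : ℂ)) z :=
        (hψ n).smooth.differentiable (by simp) z
      have hm' : DifferentiableAt ℝ (fun w => (ψ m w : ℂ)) z :=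
        (hψ m).smooth.differentiable (by simp) z
      rw [e3]
      have h1 := (dz_add hn' hm'.fun_neg).1
      rw [(dz_neg (F := fun w => (ψ m w : ℂ)) (z := z)).1] at h1
      simp only [sub_eq_add_neg]
      exact h1
    rw [e4, e3, D3b_sub D (hψc n) (hψc m), D3b_sub D (hdψc n) (hdψc m)] at e2
    rw [dist_eq_norm]
    refine e2.trans ?_
    have e5 : ‖D3b_tl D (dz fun w => (ψ n w : ℂ)) - D3b_tl D (dz fun w => (ψ m w : ℂ))‖ ≤
        1 / ((n : ℝ) + 1) + 1 / ((m : ℝ) + 1) := by
      have : D3b_tl D (dz fun w => (ψ n w : ℂ)) - D3b_tl D (dz fun w => (ψ m w : ℂ)) =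
        (D3b_tl D (dz fun z => (σ z : ℂ)) - D3b_tl D (dz fun z => (ψ m z : ℂ))) -
        (D3b_tl D (dz fun z => (σ z : ℂ)) - D3b_tl D (dz fun z => (ψ n z : ℂ))) := by abel
      rw [this]
      refine (norm_sub_le _ _).trans ?_
      linarith [(hd n).le, (hd m).le]
    calc C * ‖D3b_tl D (dz fun w => (ψ n w : ℂ)) - D3b_tl D (dz fun w => (ψ m w : ℂ))‖
        ≤ C * (1 / ((N : ℝ) + 1) + 1 / ((N : ℝ) + 1)) := by
          refine mul_le_mul_of_nonneg_left ?_ hC0
          linarith
      _ = _ := by ring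
  obtain ⟨Yl, hYl⟩ := cauchySeq_tendsto_of_complete hcau
  set u : D.L2 := D3b_tl D (fun z => (σ z : ℂ)) - Yl with hu
  have hulim : Tendsto (fun n => D3b_tl D (fun z => (σ z : ℂ)) - D3b_tl D (fun z => (ψ n z : ℂ)))
      atTop (𝓝 u) := tendsto_const_nhds.sub hYl
  -- the two identities
  have hident : ∀ G : ℂ → ℂ, ContDiffOn ℝ (⊤ : ℕ∞) G V →
      ∫ z in D.U, dz (fun w => (σ w : ℂ) * G w) z = ∫ z in D.U, (u : ℂ → ℂ) z * dz G z ∧
      ∫ z in D.U, dzb (fun w => (σ w : ℂ) * G w) z = ∫ z in D.U, (u : ℂ → ℂ) z * dzb G z := by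
    intro G hG
    have hdG := dz_contDiffOn hV hG
    have cdG : ContinuousOn (dz G) D.cU := hdG.1.continuousOn.mono hcV
    have cbG : ContinuousOn (dzb G) D.cU := hdG.2.continuousOn.mono hcV
    have hst := fun n => D3b_step D hV hcV hσc (hψ n) hG
    rw [← D3b_inner D cdG, ← D3b_inner D cbG]
    constructor
    · have l1 := (tendsto_const_nhds (x := D3b_tl D (fun z => conj (G z)))).inner (𝕜 := ℂ) hdlim
      have l2 := (tendsto_const_nhds (x := D3b_tl D (fun z => conj (dz G z)))).inner (𝕜 := ℂ) hulim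
      have l3 := l1.add l2
      rw [inner_zero_right, zero_add] at l3
      refine tendsto_nhds_unique (tendsto_const_nhds.congr fun n => (hst n).1) l3
    · have l1 := (tendsto_const_nhds (x := D3b_tl D (fun z => conj (G z)))).inner (𝕜 := ℂ) hblim
      have l2 := (tendsto_const_nhds (x := D3b_tl D (fun z => conj (dzb G z)))).inner (𝕜 := ℂ) hulim
      have l3 := l1.add l2
      rw [inner_zero_right, zero_add] at l3
      refine tendsto_nhds_unique (tendsto_const_nhds.congr fun n => (hst n).2) l3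
  have hweak : D.WeakDbar u 0 := by
    intro φ hφ
    have h1 := (hident φ hφ.smooth.contDiffOn).2
    have h2 : IsTest D.U (fun z => (σ z : ℂ) • φ z) :=
      hφ.smul D.U_open (hσc.mono (D.U_subset_cU.trans hcV))
    have h3 := (D3b_int_test D h2).2
    simp only [smul_eq_mul] at h3
    rw [← h1, h3]
    have h4 : ∫ z in D.U, ((0 : D.L2) : ℂ → ℂ) z * φ z = ∫ z in D.U, (0 : ℂ) := by
      refine integral_congr_ae ?_
      filter_upwards [Lp.coeFn_zero ℂ 2 (volume.restrict D.U)] with z hz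
      rw [hz]
      simp
    rw [h4]
    simp
  obtain ⟨g, hg, hug⟩ := berg_rep D (weyl D hweak)
  obtain ⟨c, hc⟩ := D3b_const D hg.diff fun G hG => by
    have h1 := (hident G hG.smooth.contDiffOn).1
    have h2 : IsTest D.U (fun z => (σ z : ℂ) • G z) :=
      hG.smul D.U_open (hσc.mono (D.U_subset_cU.trans hcV))
    have h3 := (D3b_int_test D h2).1
    simp only [smul_eq_mul] at h3
    rw [h3] at h1
    rw [h1]
    refine integral_congr_ae ?_
    filter_upwards [hug] with z hz
    rw [hz]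
  refine ⟨c, fun G hG => ?_⟩
  have h1 := (hident G hG).1
  have hdG := dz_contDiffOn hV hG
  have cdG : ContinuousOn (dz G) D.cU := hdG.1.continuousOn.mono hcV
  have h2 : ∫ z in D.U, (u : ℂ → ℂ) z * dz G z = ∫ z in D.U, c * dz G z := by
    refine integral_congr_ae ?_
    filter_upwards [hug, ae_restrict_mem D.U_open.measurableSet] with z hz hzU
    rw [hz, hc z hzU]
  rw [h2] at h1
  have hUV : D.U ⊆ V := D.U_subset_cU.trans hcV
  have h3 : ∀ z ∈ D.U, dz (fun w => ((σ w : ℂ) - c) * G w) z =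
      dz (fun w => (σ w : ℂ) * G w) z - c * dz G z := by
    intro z hz
    have dG : DifferentiableAt ℝ G z :=
      (hG.contDiffAt (hV.mem_nhds (hUV hz))).differentiableAt (by simp)
    have ds : DifferentiableAt ℝ (fun w => (σ w : ℂ)) z :=
      (hσc.contDiffAt (hV.mem_nhds (hUV hz))).differentiableAt (by simp)
    have e1 := (dz_smul ds dG).1
    have e2 := (dz_smul (ds.sub_const c) dG).1
    have e3 : dz (fun w => (σ w : ℂ) - c) z = dz (fun w => (σ w : ℂ)) z := by
      have := (dz_add ds (differentiableAt_const (-c))).1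
      rw [dz_const.1, add_zero] at this
      simpa [sub_eq_add_neg] using this
    simp only [smul_eq_mul] at e1 e2
    rw [e1, e2, e3]
    ring
  rw [setIntegral_congr_fun D.U_open.measurableSet h3, integral_sub, h1, sub_self]
  · exact D3b_integrable D ((dz_contDiffOn hV (hσc.mul hG)).1.continuousOn.mono hcV)
  · exact D3b_integrable D (continuousOn_const.mul cdG)

theorem D3b_circle {f : ℝ → ℝ} (hf : Continuous f) (h0 : ∀ x, 0 ≤ f x)
    (h : ∫ θ in (0 : ℝ)..2 * Real.pi, f θ = 0) : ∀ θ ∈ Icc 0 (2 * Real.pi), f θ = 0 := by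
  intro θ hθ
  by_contra hne
  have := intervalIntegral.integral_pos (f := f) Real.two_pi_pos hf.continuousOn
    (fun x _ => h0 x) ⟨θ, hθ, lt_of_le_of_ne (h0 θ) (Ne.symm hne)⟩
  linarith

theorem D3b_param (c : ℂ) {r : ℝ} (hr : 0 < r) {z : ℂ} (hz : z ∈ sphere c r) :
    ∃ θ ∈ Icc 0 (2 * Real.pi), z = c + r * Complex.exp (θ * Complex.I) := by
  have h1 : ‖z - c‖ = r := by rwa [mem_sphere, dist_eq_norm] at hz
  have h2 := Complex.norm_mul_exp_arg_mul_I (z - c)
  rw [h1] at h2
  have h3 := Complex.neg_pi_lt_arg (z - c)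
  have h4 := Complex.arg_le_pi (z - c)
  by_cases h5 : 0 ≤ (z - c).arg
  · refine ⟨(z - c).arg, ⟨h5, by linarith⟩, ?_⟩
    rw [h2]
    ring
  · refine ⟨(z - c).arg + 2 * Real.pi, ⟨by linarith, by linarith⟩, ?_⟩
    have h6 : Complex.exp (((z - c).arg + 2 * Real.pi : ℝ) * Complex.I) =
        Complex.exp ((z - c).arg * Complex.I) := by
      push_cast
      rw [add_mul, Complex.exp_add, Complex.exp_two_pi_mul_I, mul_one]
    rw [h6, h2]
    ring

/-- the boundary values -/
theorem grad_boundary (hτ : D.Good τ) (j : Fin k) {δ : ℝ} (hδ : 0 < δ) (hδτ : δ ≤ τ) {v : ℂ → ℂ}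
    (hv : DifferentiableOn ℂ v (D.Ue δ))
    (h : ∀ ε > 0, ∃ ψ : ℂ → ℝ, IsTest D.U (fun z => (ψ z : ℂ)) ∧
      ∫ z in D.U, ‖v z - dz (fun w => (D.chi τ (some j) w : ℂ)) z -
        dz (fun w => (ψ w : ℂ)) z‖ ^ 2 < ε) {om : ℂ → ℝ}
    (hom : ContDiffOn ℝ (⊤ : ℕ∞) om (D.Ue δ))
    (hd : ∀ z ∈ D.Ue δ, dz (fun w => (om w : ℂ)) z = v z) :
    ∃ c : ℝ, (∀ z ∈ D.circ none, om z = c) ∧
      ∀ l, ∀ z ∈ D.circ (some l), om z = c + if l = j then 1 else 0 := by
  set V := D.Ue δ with hVdef
  have hV : IsOpen V := D.Ue_open δ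
  have hcV : D.cU ⊆ V := D.cU_subset_Ue hδ
  have hUV : D.U ⊆ V := D.U_subset_cU.trans hcV
  have hχ : ∀ l, ContDiff ℝ (⊤ : ℕ∞) (D.chi τ l) := fun l => chi_smooth D hτ l
  set σ : ℂ → ℝ := fun z => om z - D.chi τ (some j) z with hσ
  have hσs : ContDiffOn ℝ (⊤ : ℕ∞) σ V := hom.sub (hχ _).contDiffOn
  have hσc : ContDiffOn ℝ (⊤ : ℕ∞) (fun z => (σ z : ℂ)) V :=
    Complex.ofRealCLM.contDiff.comp_contDiffOn hσs
  have hχc : ContDiff ℝ (⊤ : ℕ∞) (fun z => (D.chi τ (some j) z : ℂ)) :=
    Complex.ofRealCLM.contDiff.comp (hχ (some j))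
  have hdσ : ∀ z ∈ V, dz (fun w => (σ w : ℂ)) z =
      v z - dz (fun w => (D.chi τ (some j) w : ℂ)) z := by
    intro z hz
    have h1 : DifferentiableAt ℝ (fun w => (om w : ℂ)) z :=
      Complex.ofRealCLM.differentiableAt.comp z
        ((hom.contDiffAt (hV.mem_nhds hz)).differentiableAt (by simp))
    have h2 : DifferentiableAt ℝ (fun w => (D.chi τ (some j) w : ℂ)) z :=
      hχc.differentiable (by simp) z
    have h3 := (dz_add h1 h2.fun_neg).1
    rw [(dz_neg (F := fun w => (D.chi τ (some j) w : ℂ)) (z := z)).1, hd z hz] at h3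
    rw [sub_eq_add_neg, ← h3]
    refine (dz_congr (Eventually.of_forall fun w => ?_)).1
    simp [hσ, sub_eq_add_neg]
  obtain ⟨c, hc⟩ := D3b_limit D hV hcV hσs fun ε hε => by
    obtain ⟨ψ, hψ, hψε⟩ := h (ε ^ 2) (by positivity)
    refine ⟨ψ, hψ, ?_⟩
    have cc : ContinuousOn (fun z => dz (fun w => (σ w : ℂ)) z - dz (fun w => (ψ w : ℂ)) z) D.cU :=
      ((dz_contDiffOn hV hσc).1.continuousOn.mono hcV).sub hψ.dz.smooth.continuous.continuousOn
    have h1 := D3b_norm_sq D cc
    have h2 : ∫ z in D.U, ‖dz (fun w => (σ w : ℂ)) z - dz (fun w => (ψ w : ℂ)) z‖ ^ 2 < ε ^ 2 := by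
      refine lt_of_eq_of_lt ?_ hψε
      refine setIntegral_congr_fun D.U_open.measurableSet fun z hz => ?_
      rw [hdσ z (hUV hz)]
    rw [← h1] at h2
    exact lt_of_pow_lt_pow_left₀ 2 hε.le h2
  -- the values on the boundary curves
  have hsph : ∀ θ : ℝ, Complex.exp (θ * Complex.I) ∈ sphere (0 : ℂ) 1 := fun θ => by
    simp [Complex.norm_exp_ofReal_mul_I]
  have hann : ∀ θ : ℝ, Complex.exp (θ * Complex.I) ∈ ann2 D.ρ := fun θ =>
    Pool.Agent.EN.sphere_subset_ann2 D.one_lt (hsph θ)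
  have hcirc : ∀ (l : Option (Fin k)) (θ : ℝ),
      D.kap l (Complex.exp (θ * Complex.I)) ∈ D.circ l := fun l θ => ⟨_, hsph θ, rfl⟩
  have key : ∀ l, ∀ z ∈ D.circ l, (σ z : ℂ) = c := by
    intro l z hz
    set W : Set ℂ := D.kap l '' ann2 D.ρ with hWdef
    have hW : IsOpen W := D.isOpen_kap (Pool.Agent.EN.isOpen_ann2' _) Subset.rfl
    set m : ℂ → ℂ := fun z => D.lam l z * deriv (D.kap l) (D.lam l z) with hm
    have hmd : DifferentiableOn ℂ m W := by
      have h1 := lam_holo D l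
      have h2 : DifferentiableOn ℂ (deriv (D.kap l)) (ann2 D.ρ) :=
        (D.holo l).deriv (Pool.Agent.EN.isOpen_ann2' _)
      refine h1.mul (h2.comp h1 ?_)
      rintro _ ⟨w, hw, rfl⟩
      rw [AJ.lam_kap D hw]
      exact hw
    have hms : ContDiffOn ℝ (⊤ : ℕ∞) m W := hol_contDiffOn hW hmd
    set G : ℂ → ℂ := fun z => (D.chi τ l z : ℂ) * conj ((σ z : ℂ) - c) * m z with hG
    have hGs : ContDiffOn ℝ (⊤ : ℕ∞) G V := by
      intro z hz
      apply ContDiffAt.contDiffWithinAt
      by_cases hzW : z ∈ W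
      · have e1 : ContDiffAt ℝ (⊤ : ℕ∞) (fun z => (D.chi τ l z : ℂ)) z :=
          (Complex.ofRealCLM.contDiff.comp (hχ l)).contDiffAt
        have e2 : ContDiffAt ℝ (⊤ : ℕ∞) (fun z => conj ((σ z : ℂ) - c)) z :=
          Complex.conjCLE.contDiff.contDiffAt.comp z
            ((hσc.contDiffAt (hV.mem_nhds hz)).sub contDiffAt_const)
        exact (e1.mul e2).mul (hms.contDiffAt (hW.mem_nhds hzW))
      · have hzs : z ∉ tsupport (D.chi τ l) := fun h' =>
          hzW (AJ.col_subset D τ l ((chi_tsupport D hτ l).2.2 h'))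
        have h1 : G =ᶠ[𝓝 z] fun _ => 0 := by
          filter_upwards [notMem_tsupport_iff_eventuallyEq.mp hzs] with w hw
          simp only [hG, hw]
          simp
        exact contDiffAt_const.congr_of_eventuallyEq h1
    set F : ℂ → ℂ := fun w => ((σ w : ℂ) - c) * G w with hF
    have hFs : ContDiffOn ℝ (⊤ : ℕ∞) F V := (hσc.sub contDiffOn_const).mul hGs
    have h1 := hc G hGs
    have h2 := (green_AJ D hV hcV (hFs.of_le (by exact_mod_cast le_top))).1
    have hFother : ∀ l' z, l' ≠ l → z ∈ D.circ l' → F z = 0 := by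
      intro l' z hl hz
      have h3 := (chi_zero_near D hτ hl hz).self_of_nhds
      simp [hF, hG, h3]
    have hFl : ∀ θ : ℝ, (Complex.exp (-(θ * Complex.I)) *
        conj (deriv (D.kap l) (Complex.exp (θ * Complex.I)))) •
        F (D.kap l (Complex.exp (θ * Complex.I))) =
        ((‖deriv (D.kap l) (Complex.exp (θ * Complex.I))‖ ^ 2 *
          ‖(σ (D.kap l (Complex.exp (θ * Complex.I))) : ℂ) - c‖ ^ 2 : ℝ) : ℂ) := by
      intro θ
      have h3 := (chi_near D hτ.pos l (hcirc l θ)).self_of_nhds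
      simp only [hF, hG, hm, h3, AJ.lam_kap D (hann θ), smul_eq_mul]
      rw [Complex.exp_neg]
      have hexp : Complex.exp (θ * Complex.I) ≠ 0 := Complex.exp_ne_zero _
      have h4 : ∀ u : ℂ, u * conj u = ((‖u‖ ^ 2 : ℝ) : ℂ) := fun u => by
        rw [Complex.mul_conj, Complex.normSq_eq_norm_sq]
      rw [Complex.ofReal_mul, ← h4, ← h4]
      field_simp
      push_cast
      ring
    have hzero : ∫ θ in (0 : ℝ)..2 * Real.pi, (Complex.exp (-(θ * Complex.I)) *
        conj (deriv (D.kap l) (Complex.exp (θ * Complex.I)))) •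
        F (D.kap l (Complex.exp (θ * Complex.I))) = 0 := by
      rw [h1] at h2
      have h6 : ∀ l' ≠ l, (1 / 2 : ℂ) • ∫ θ in (0 : ℝ)..2 * Real.pi,
          (Complex.exp (-(θ * Complex.I)) *
            conj (deriv (D.kap l') (Complex.exp (θ * Complex.I)))) •
            F (D.kap l' (Complex.exp (θ * Complex.I))) = 0 := by
        intro l' hl'
        have : ∀ θ : ℝ, (Complex.exp (-(θ * Complex.I)) *
            conj (deriv (D.kap l') (Complex.exp (θ * Complex.I)))) •
            F (D.kap l' (Complex.exp (θ * Complex.I))) = 0 := fun θ => by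
          rw [hFother l' _ hl' (hcirc l' θ), smul_zero]
        simp only [this, intervalIntegral.integral_zero, smul_zero]
      rw [Finset.sum_eq_single l (fun b _ hb => h6 b hb) (fun h => absurd (Finset.mem_univ l) h)]
        at h2
      have h8 : (1 / 2 : ℂ) ≠ 0 := by norm_num
      exact (smul_eq_zero.1 (neg_eq_zero.1 h2.symm)).resolve_left h8
    simp only [hFl] at hzero
    rw [intervalIntegral.integral_ofReal] at hzero
    have hzero' : ∫ θ in (0 : ℝ)..2 * Real.pi,
        ‖deriv (D.kap l) (Complex.exp (θ * Complex.I))‖ ^ 2 *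
          ‖(σ (D.kap l (Complex.exp (θ * Complex.I))) : ℂ) - c‖ ^ 2 = 0 := by
      exact_mod_cast hzero
    have hcont : Continuous fun θ : ℝ =>
        ‖deriv (D.kap l) (Complex.exp (θ * Complex.I))‖ ^ 2 *
          ‖(σ (D.kap l (Complex.exp (θ * Complex.I))) : ℂ) - c‖ ^ 2 := by
      have hdk : DifferentiableOn ℂ (deriv (D.kap l)) (ann2 D.ρ) :=
        (D.holo l).deriv (Pool.Agent.EN.isOpen_ann2' _)
      have h7 : Continuous fun θ : ℝ => deriv (D.kap l) (Complex.exp (θ * Complex.I)) := by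
        refine continuous_iff_continuousAt.2 fun θ => ?_
        have h9 : ContinuousAt (deriv (D.kap l)) (Complex.exp (θ * Complex.I)) :=
          hdk.continuousOn.continuousAt ((Pool.Agent.EN.isOpen_ann2' _).mem_nhds (hann θ))
        exact h9.comp (f := fun θ : ℝ => Complex.exp (θ * Complex.I)) (by fun_prop)
      have h8 : Continuous fun θ : ℝ => (σ (D.kap l (Complex.exp (θ * Complex.I))) : ℂ) := by
        refine continuous_iff_continuousAt.2 fun θ => ?_
        have hmem : D.kap l (Complex.exp (θ * Complex.I)) ∈ V :=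
          hcV ((mem_cU_iff D _).2 (Or.inr ⟨l, hcirc l θ⟩))
        have h9 : ContinuousAt (fun z => (σ z : ℂ)) (D.kap l (Complex.exp (θ * Complex.I))) :=
          (hσc.continuousOn.continuousAt (hV.mem_nhds hmem))
        have h10 : ContinuousAt (D.kap l) (Complex.exp (θ * Complex.I)) :=
          (D.holo l).continuousOn.continuousAt
            ((Pool.Agent.EN.isOpen_ann2' _).mem_nhds (hann θ))
        have h11 : ContinuousAt (fun z => (σ (D.kap l z) : ℂ)) (Complex.exp (θ * Complex.I)) :=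
          ContinuousAt.comp (f := D.kap l) (g := fun z => (σ z : ℂ)) h9 h10
        exact h11.comp (f := fun θ : ℝ => Complex.exp (θ * Complex.I)) (by fun_prop)
      fun_prop
    have h9 := D3b_circle hcont (fun _ => by positivity) hzero'
    obtain ⟨w, hw, rfl⟩ := hz
    obtain ⟨θ, hθ, hzθ⟩ := D3b_param (0 : ℂ) one_pos hw
    have h10 := h9 θ hθ
    have h12 : w = Complex.exp (θ * Complex.I) := by simpa using hzθ
    rw [← h12] at h10
    have hw' : w ∈ ann2 D.ρ := Pool.Agent.EN.sphere_subset_ann2 D.one_lt hw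
    have h13 : ‖deriv (D.kap l) w‖ ^ 2 ≠ 0 := by
      have := norm_pos_iff.2 (kap_deriv_ne D l hw')
      positivity
    have h11 : ‖(σ (D.kap l w) : ℂ) - c‖ = 0 := by
      rcases mul_eq_zero.1 h10 with h | h
      · exact absurd h h13
      · simpa using h
    exact sub_eq_zero.1 (norm_eq_zero.1 h11)
  have hcre : ∀ l, ∀ z ∈ D.circ l, σ z = c.re := fun l z hz => by
    have := congrArg Complex.re (key l z hz)
    simpa using this
  refine ⟨c.re, fun z hz => ?_, fun l z hz => ?_⟩
  · have h1 := hcre none z hz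
    have h2 := (chi_zero_near D hτ (l := none) (l' := some j) (by simp) hz).self_of_nhds
    simp only [hσ, h2, sub_zero] at h1
    exact h1
  · have h1 := hcre (some l) z hz
    by_cases hl : l = j
    · subst hl
      have h2 := (chi_near D hτ.pos (some l) hz).self_of_nhds
      rw [if_pos rfl]
      simp only [hσ] at h1
      rw [h2] at h1
      linarith
    · have h2 := (chi_zero_near D hτ (l := some l) (l' := some j)
        (fun e => hl (Option.some.inj e)) hz).self_of_nhds
      rw [if_neg hl]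
      simp only [hσ, h2, sub_zero] at h1
      linarith

end

end Pool.Agent.KA
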