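import Pool.Agent.Helper9.KA.EV

set_option autoImplicit false

open MeasureTheory Set Filter Asymptotics Topology Metric
open scoped ComplexConjugate ENNReal

namespace Pool.Agent.KA

open Pool.Agent.Helper7.KE hiding HM PS Bv sfun FF tt lS
open Pool.Agent.EN (AJ ann ann2)

section
variable {k : ℕ} (D : AJ k) {τ : ℝ}

/-- `VV_t` only depends on the values in `D.U` -/
theorem EX_VV_congr {z₀ : ℂ} {t : Fin k → ℂ} {g g' : ℂ → ℂ} (hg : D.VV τ z₀ t g)
    (h : ∀ z ∈ D.U, g' z = g z) : D.VV τ z₀ t g' where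
  hol :=
    { diff := hg.hol.diff.congr h
      memLp := by
        refine (memLp_congr_ae ?_).1 hg.hol.memLp
        filter_upwards [ae_restrict_mem D.U_open.measurableSet] with z hz
        exact (h z hz).symm }
  ann := by
    intro a ha
    rw [← hg.ann a ha]
    unfold AJ.Lt
    refine setIntegral_congr_fun D.U_open.measurableSet ?_
    intro z hz
    simp only [h z hz]

/-- holomorphic families in `VV_t` extend across the boundary -/
theorem ext_family (hτ : D.Good τ) {z₀ : ℂ} (hz₀ : z₀ ∈ D.U) :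
    ∃ δ > 0, δ ≤ τ ∧ ∀ (W : Type) [NormedAddCommGroup W] [NormedSpace ℂ W] (O : Set W)
      (tt : W → Fin k → ℂ) (f : W → D.Berg), IsOpen O → DifferentiableOn ℂ tt O →
      (∀ w ∈ O, ∀ j, tt w j ≠ 0) → DifferentiableOn ℂ f O →
      (∀ w ∈ O, ∃ g : ℂ → ℂ, ((f w : D.L2) : ℂ → ℂ) =ᵐ[volume.restrict D.U] g ∧
        D.VV τ z₀ (tt w) g) →
      ∃ G : W → ℂ → ℂ,
        ContinuousOn (fun p : W × ℂ => G p.1 p.2) (O ×ˢ D.Ue δ) ∧
        (∀ w ∈ O, DifferentiableOn ℂ (G w) (D.Ue δ)) ∧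
        (∀ z ∈ D.Ue δ, DifferentiableOn ℂ (fun w => G w z) O) ∧
        (∀ w ∈ O, ((f w : D.L2) : ℂ → ℂ) =ᵐ[volume.restrict D.U] G w) ∧
        ∀ w ∈ O, D.VV τ z₀ (tt w) (G w) := by
  classical
  obtain ⟨δ, hδ, hδτ, Ev, hE1, hE2, hE3, hE4⟩ := exists_Ev D hτ hz₀
  obtain ⟨ev, hev1, hev2⟩ := berg_ev D
  refine ⟨δ, hδ, hδτ, ?_⟩
  intro W _ _ O tt f hO htt htne hf hg
  -- values on U
  have hval : ∀ w ∈ O, ∀ g : ℂ → ℂ, ((f w : D.L2) : ℂ → ℂ) =ᵐ[volume.restrict D.U] g →
      DifferentiableOn ℂ g D.U → ∀ z ∈ D.U, ev z (f w) = g z := by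
    intro w _ g hfg hgd
    refine hol_unique D ?_ hgd ((hev2 (f w)).symm.trans hfg)
    exact hev1.clm_apply (differentiableOn_const (f w))
  -- agreement on the overlap
  have hov : ∀ w ∈ O, ∀ l, ∀ z ∈ D.col δ l ∩ D.U, Ev l (tt w) z (f w) = ev z (f w) := by
    intro w hw l z hz
    obtain ⟨g, hfg, hVV⟩ := hg w hw
    rw [hE4 l (tt w) (htne w hw) (f w) g hfg hVV z hz, hval w hw g hfg hVV.hol.diff z hz.2]
  -- the collars are disjoint
  have hdisj : ∀ l m, ∀ z, z ∈ D.col δ l → z ∈ D.col δ m → l = m := by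
    intro l m z h1 h2
    by_contra hne
    exact Set.disjoint_left.1 (D.disj l m hne) (D.col_subset δ l h1) (D.col_subset δ m h2)
  let G : W → ℂ → ℂ := fun w z =>
    if z ∈ D.U then ev z (f w)
    else if h : ∃ l, z ∈ D.col δ l then Ev h.choose (tt w) z (f w) else 0
  have hGU : ∀ w, ∀ z ∈ D.U, G w z = ev z (f w) := by
    intro w z hz
    simp only [G, if_pos hz]
  have hGcol : ∀ w ∈ O, ∀ l, ∀ z ∈ D.col δ l, G w z = Ev l (tt w) z (f w) := by
    intro w hw l z hz
    by_cases hU : z ∈ D.U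
    · rw [hGU w z hU, hov w hw l z ⟨hz, hU⟩]
    · have hex : ∃ l, z ∈ D.col δ l := ⟨l, hz⟩
      have hl : hex.choose = l := hdisj _ _ z hex.choose_spec hz
      simp only [G, if_neg hU, dif_pos hex, hl]
  have hcover : ∀ z ∈ D.Ue δ, z ∈ D.U ∨ ∃ l, z ∈ D.col δ l := by
    intro z hz
    rcases hz with h | h
    · exact Or.inl h
    · exact Or.inr (mem_iUnion.1 h)
  have hVVG : ∀ w ∈ O, D.VV τ z₀ (tt w) (G w) := by
    intro w hw
    obtain ⟨g, hfg, hVV⟩ := hg w hw
    refine EX_VV_congr D hVV ?_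
    intro z hz
    rw [hGU w z hz, hval w hw g hfg hVV.hol.diff z hz]
  refine ⟨G, ?_, ?_, ?_, ?_, hVVG⟩
  · -- joint continuity
    rintro ⟨w, z⟩ ⟨hw, hz⟩
    refine ContinuousAt.continuousWithinAt ?_
    have hw' : w ∈ O := hw
    rcases hcover z hz with hU | ⟨l, hl⟩
    · have h1 : ContinuousOn (fun p : W × ℂ => ev p.2 (f p.1)) (O ×ˢ D.U) := by
        refine ContinuousOn.clm_apply ?_ ?_
        · exact hev1.continuousOn.comp continuousOn_snd fun p hp => hp.2
        · exact hf.continuousOn.comp continuousOn_fst fun p hp => hp.1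
      have hn : O ×ˢ D.U ∈ 𝓝 (w, z) := (hO.prod D.U_open).mem_nhds ⟨hw', hU⟩
      refine (h1.continuousAt hn).congr ?_
      filter_upwards [hn] with p hp
      exact (hGU p.1 p.2 hp.2).symm
    · have h1 : ContinuousOn (fun p : W × ℂ => Ev l (tt p.1) p.2 (f p.1)) (O ×ˢ D.col δ l) := by
        refine ContinuousOn.clm_apply ?_ ?_
        · have h2 : ContinuousOn (fun p : W × ℂ => (tt p.1, p.2)) (O ×ˢ D.col δ l) :=
            (htt.continuousOn.comp continuousOn_fst fun p hp => hp.1).prodMk continuousOn_snd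
          exact (hE1 l).comp h2 fun p hp => ⟨htne p.1 hp.1, hp.2⟩
        · exact hf.continuousOn.comp continuousOn_fst fun p hp => hp.1
      have hn : O ×ˢ D.col δ l ∈ 𝓝 (w, z) := (hO.prod (D.col_open δ l)).mem_nhds ⟨hw', hl⟩
      refine (h1.continuousAt hn).congr ?_
      filter_upwards [hn] with p hp
      exact (hGcol p.1 hp.1 l p.2 hp.2).symm
  · -- holomorphy in z
    intro w hw z hz
    refine DifferentiableAt.differentiableWithinAt ?_
    rcases hcover z hz with hU | ⟨l, hl⟩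
    · have h1 : DifferentiableOn ℂ (fun z => ev z (f w)) D.U :=
        hev1.clm_apply (differentiableOn_const (f w))
      have hn : D.U ∈ 𝓝 z := D.U_open.mem_nhds hU
      refine (h1.differentiableAt hn).congr_of_eventuallyEq ?_
      filter_upwards [hn] with p hp
      exact hGU w p hp
    · have h1 : DifferentiableOn ℂ (fun z => Ev l (tt w) z (f w)) (D.col δ l) :=
        (hE2 l (tt w) (htne w hw)).clm_apply (differentiableOn_const (f w))
      have hn : D.col δ l ∈ 𝓝 z := (D.col_open δ l).mem_nhds hl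
      refine (h1.differentiableAt hn).congr_of_eventuallyEq ?_
      filter_upwards [hn] with p hp
      exact hGcol w hw l p hp
  · -- holomorphy in w
    intro z hz
    rcases hcover z hz with hU | ⟨l, hl⟩
    · have h1 : DifferentiableOn ℂ (fun w => ev z (f w)) O :=
        (differentiableOn_const (ev z)).clm_apply hf
      exact h1.congr fun w _ => hGU w z hU
    · have h1 : DifferentiableOn ℂ (fun w => Ev l (tt w) z) O :=
        DifferentiableOn.comp (E := W) (F := Fin k → ℂ) (G := D.Berg →L[ℂ] ℂ)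
          (g := fun t => Ev l t z) (f := tt) (t := {t | ∀ j, t j ≠ 0})
          (hE3 l z hl) htt fun w hw => htne w hw
      have h2 : DifferentiableOn ℂ (fun w => Ev l (tt w) z (f w)) O := h1.clm_apply hf
      exact h2.congr fun w hw => hGcol w hw l z hl
  · -- representative
    intro w hw
    refine (hev2 (f w)).trans ?_
    filter_upwards [ae_restrict_mem D.U_open.measurableSet] with z hz
    exact (hGU w z hz).symm

/-- a single element of `VV_t` -/
theorem VV_ext (hτ : D.Good τ) {z₀ : ℂ} (hz₀ : z₀ ∈ D.U) :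
    ∃ δ > 0, δ ≤ τ ∧ ∀ (t : Fin k → ℂ), (∀ j, t j ≠ 0) → ∀ g : ℂ → ℂ, D.VV τ z₀ t g →
      ∃ G : ℂ → ℂ, DifferentiableOn ℂ G (D.Ue δ) ∧ ∀ z ∈ D.U, G z = g z := by
  obtain ⟨δ, hδ, hδτ, hfam⟩ := ext_family D hτ hz₀
  refine ⟨δ, hδ, hδτ, ?_⟩
  intro t ht g hg
  have hmem : hg.hol.memLp.toLp g ∈ D.Berg := berg_of_hol2 D hg.hol hg.hol.memLp.coeFn_toLp
  obtain ⟨G, _, hG2, _, hG4, _⟩ := hfam ℂ univ (fun _ => t) (fun _ => ⟨_, hmem⟩) isOpen_univ
    (differentiableOn_const t) (fun w _ => ht) (differentiableOn_const _)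
    (fun w _ => ⟨g, hg.hol.memLp.coeFn_toLp, hg⟩)
  refine ⟨G 0, hG2 0 (mem_univ _), ?_⟩
  have h1 : G 0 =ᵐ[volume.restrict D.U] g :=
    (hG4 0 (mem_univ _)).symm.trans hg.hol.memLp.coeFn_toLp
  exact hol_unique D ((hG2 0 (mem_univ _)).mono (D.U_subset_Ue δ)) hg.hol.diff h1

end

end Pool.Agent.KA
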