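import Pool.Agent.Helper9.KA.D1
import Pool.Agent.Helper9.KA.D2
import Pool.Agent.Helper9.KA.D3a
import Pool.Agent.Helper9.KA.D3b
import Pool.Agent.Helper9.KA.A5b
import Pool.Agent.Helper9.KA.EX
import Pool.Agent.Helper9.KA.C5c
import Pool.Agent.Helper9.KA.C7a

set_option autoImplicit false

open MeasureTheory Set Filter Asymptotics Topology Metric
open scoped ComplexConjugate ENNReal

namespace Pool.Agent.KA

open Pool.Agent.Helper7.KE hiding HM PS Bv sfun FF tt lS
open Pool.Agent.EN (AJ ann ann2)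

section
variable {k : ℕ} (D : AJ k) {τ : ℝ}

theorem D4_fderiv {F : ℂ → ℂ} {z : ℂ} (v : ℂ) :
    fderiv ℝ F z v = v * dz F z + conj v * dzb F z := by
  have h1 : v = v.re • (1 : ℂ) + v.im • Complex.I := by
    simp [Complex.re_add_im]
  conv_lhs => rw [h1]
  rw [map_add, map_smul, map_smul]
  unfold dz dzb
  simp only [smul_eq_mul, Complex.real_smul]
  apply Complex.ext <;> simp <;> ring

theorem D4_res_sum (hτ : D.Good τ) (l : Fin k) {V : Set ℂ} (hV : IsOpen V) (hcV : D.cU ⊆ V)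
    {ι : Type*} (s : Finset ι) (c : ι → ℂ)
    (g' : ι → ℂ → ℂ) (hg' : ∀ i, DifferentiableOn ℂ (g' i) V) :
    D.res τ l (fun z => ∑ i ∈ s, c i * g' i z) = ∑ i ∈ s, c i * D.res τ l (g' i) := by
  classical
  induction s using Finset.induction_on with
  | empty => simp [AJ.res]
  | insert i s hi ih =>
    have hd : DifferentiableOn ℂ (fun z => ∑ i ∈ s, c i * g' i z) V :=
      DifferentiableOn.fun_sum fun i _ => (hg' i).const_mul (c i)
    have := res_linear D hτ l (hol2_of_nhds D hV hcV hd) (hol2_of_nhds D hV hcV (hg' i)) (c i)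
    rw [Finset.sum_insert hi, ← ih, add_comm, ← this]
    congr 1
    ext z
    rw [Finset.sum_insert hi]; ring

theorem D4_circ_nonempty (l : Option (Fin k)) : (D.circ l).Nonempty := by
  refine ⟨D.kap l 1, 1, ?_, rfl⟩
  simp

theorem exists_HM (hτ : D.Good τ) : ∃ δ > 0, δ ≤ τ ∧ Nonempty (HM D τ δ) := by
  obtain ⟨z₀, hz₀⟩ := U_nonempty D
  obtain ⟨δ₁, hδ₁, hδ₁τ, hext⟩ := VV_ext D hτ hz₀
  obtain ⟨δ₀, hδ₀, ha0⟩ := a_notMem_Ue D
  obtain ⟨δ, hδ, hδδ₁, hδδ₀⟩ : ∃ δ > 0, δ ≤ δ₁ ∧ δ ≤ δ₀ :=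
    ⟨min δ₁ δ₀, lt_min hδ₁ hδ₀, min_le_left _ _, min_le_right _ _⟩
  have hδτ : δ ≤ τ := hδδ₁.trans hδ₁τ
  have ha : ∀ j, D.a j ∉ D.Ue δ := fun j hj => ha0 j (D.Ue_mono hδδ₀ hj)
  choose v0 hv0 hvψ0 using fun j => grad_proj D hτ j
  have hVV := fun j => (grad_orth D hτ j (hv0 j) (hvψ0 j)).2.2 z₀ hz₀
  choose v hv1 hveq using fun j =>
    hext (fun _ => 1) (fun _ => one_ne_zero) (v0 j) (hVV j)
  have hv : ∀ j, DifferentiableOn ℂ (v j) (D.Ue δ) := fun j => (hv1 j).mono (D.Ue_mono hδδ₁)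
  refine ⟨δ, hδ, hδτ, ?_⟩
  have hV : IsOpen (D.Ue δ) := D.Ue_open δ
  have hcV : D.cU ⊆ D.Ue δ := D.cU_subset_Ue hδ
  have hUV : D.U ⊆ D.Ue δ := D.U_subset_Ue δ
  have hvH : ∀ j, D.Hol2 (v j) := fun j => hol2_of_nhds D hV hcV (hv j)
  have hvψ : ∀ j, ∀ ε > 0, ∃ ψ : ℂ → ℝ, IsTest D.U (fun z => (ψ z : ℂ)) ∧
      ∫ z in D.U, ‖v j z - dz (fun w => (D.chi τ (some j) w : ℂ)) z -
        dz (fun w => (ψ w : ℂ)) z‖ ^ 2 < ε := by
    intro j η hη
    obtain ⟨ψ, hψ, hψη⟩ := hvψ0 j η hη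
    refine ⟨ψ, hψ, lt_of_eq_of_lt ?_ hψη⟩
    refine setIntegral_congr_fun D.U_open.measurableSet fun z hz => ?_
    simp only [hveq j z hz]
  -- residues
  choose res hres using fun j l => grad_res D hτ j (hvH j) (hvψ j) l
  -- potentials
  choose om hom hdom using fun j =>
    exists_potential D hτ hδ hδτ ha (hv j) fun l => ⟨res j l, hres j l⟩
  choose c hc0 hc1 using fun j => grad_boundary D hτ j hδ hδτ (hv j) (hvψ j) (hom j) (hdom j)
  set om' : Fin k → ℂ → ℝ := fun j z => om j z - c j with hom'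
  have hsm : ∀ j, ContDiffOn ℝ (⊤ : ℕ∞) (om' j) (D.Ue δ) := fun j => (hom j).sub contDiffOn_const
  have hder : ∀ j, ∀ z ∈ D.Ue δ, dz (fun w => (om' j w : ℂ)) z = v j z := by
    intro j z hz
    rw [← hdom j z hz]
    have h1 : DifferentiableAt ℝ (fun w => (om j w : ℂ)) z :=
      Complex.ofRealCLM.differentiableAt.comp z
        (((hom j).contDiffAt (hV.mem_nhds hz)).differentiableAt (by simp))
    have h2 := (dz_add h1 (differentiableAt_const (-(c j : ℂ)))).1
    rw [dz_const.1, add_zero] at h2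
    rw [← h2]
    refine (dz_congr (Eventually.of_forall fun w => ?_)).1
    simp [hom', sub_eq_add_neg]
  have hb0 : ∀ j, ∀ z ∈ D.circ none, om' j z = 0 := fun j z hz => by
    simp only [hom', hc0 j z hz, sub_self]
  have hb1 : ∀ j l, ∀ z ∈ D.circ (some l), om' j z = if l = j then 1 else 0 := fun j l z hz => by
    simp only [hom', hc1 j l z hz, add_sub_cancel_left]
  have horth := fun j => (grad_orth D hτ j (hvH j) (hvψ j)).1
  set Rm : Matrix (Fin k) (Fin k) ℝ := Matrix.of fun l j => res j l with hRm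
  refine ⟨⟨om', v, Rm, hsm, hv, hder, hb0, hb1, horth,
    fun l j => ?_, ?_, fun i j => grad_gram D hτ i j (hvH i) (hvH j) (hvψ i) (hvψ j),
    fun j => (grad_orth D hτ j (hvH j) (hvψ j)).2.1, ha⟩⟩
  · rw [hres, hRm, Matrix.of_apply]
  · intro hdet
    obtain ⟨x, hx, hRx⟩ := Matrix.exists_mulVec_eq_zero_iff.2 hdet
    apply hx
    have h1 : ∀ l, ∑ j, res j l * x j = 0 := by
      intro l
      have h2 := congrFun hRx l
      simpa only [Matrix.mulVec, dotProduct, hRm, Matrix.of_apply, Pi.zero_apply] using h2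
    set q : ℂ → ℂ := fun z => ∑ j, (x j : ℂ) * v j z with hq
    have hqd : DifferentiableOn ℂ q (D.Ue δ) :=
      DifferentiableOn.fun_sum fun j _ => (hv j).const_mul _
    have hqH : D.Hol2 q := hol2_of_nhds D hV hcV hqd
    have hqres : ∀ l, D.res τ l q = 0 := by
      intro l
      rw [hq, D4_res_sum D hτ l hV hcV Finset.univ (fun j => (x j : ℂ)) v hv]
      have e1 : ∀ j, (x j : ℂ) * D.res τ l (v j) = ((res j l * x j : ℝ) : ℂ) := by
        intro j
        rw [hres]
        push_cast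
        ring
      simp_rw [e1]
      rw [← Complex.ofReal_sum, h1 l, Complex.ofReal_zero]
    obtain ⟨a, haF⟩ := exists_primitive D hτ hδ hδτ hqd hqres
    have had : DifferentiableOn ℂ a (D.Ue δ) := fun z hz =>
      (haF z hz).differentiableAt.differentiableWithinAt
    have hader : ∀ z ∈ D.Ue δ, deriv a z = q z := fun z hz => (haF z hz).deriv
    -- orthogonality
    have hi : ∀ j, Integrable (fun z => v j z * conj (q z)) (volume.restrict D.U) := by
      intro j
      have e1 : MemLp (fun z => conj (q z)) 2 (volume.restrict D.U) := by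
        have := hqH.memLp
        exact this.star
      exact (hvH j).memLp.integrable_mul e1
    have h2 : ∫ z in D.U, q z * conj (q z) = 0 := by
      have e1 : ∀ z, q z * conj (q z) = ∑ j, (x j : ℂ) * (v j z * conj (q z)) := by
        intro z
        rw [hq]
        simp only
        rw [Finset.sum_mul]
        exact Finset.sum_congr rfl fun j _ => by ring
      simp_rw [e1]
      rw [integral_finsetSum _ fun j _ => (hi j).const_mul _]
      refine Finset.sum_eq_zero fun j _ => ?_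
      rw [integral_const_mul]
      have e2 : ∫ z in D.U, v j z * conj (q z) = ∫ z in D.U, v j z * conj (deriv a z) :=
        setIntegral_congr_fun D.U_open.measurableSet fun z hz => by
          simp only [hader z (hUV hz)]
      rw [e2, horth j a ⟨D.Ue δ, hV, hcV, had⟩, mul_zero]
    have h3 : ∫ z in D.U, ‖q z‖ ^ 2 = 0 := by
      have e1 : ∀ z, q z * conj (q z) = ((‖q z‖ ^ 2 : ℝ) : ℂ) := by
        intro z
        rw [Complex.mul_conj, Complex.normSq_eq_norm_sq]
      simp_rw [e1] at h2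
      rw [integral_complex_ofReal] at h2
      exact_mod_cast h2
    have h4 : ∀ z ∈ D.U, q z = 0 := by
      have h7 : Integrable (fun z => ‖q z‖ ^ 2) (volume.restrict D.U) :=
        hqH.memLp.integrable_norm_pow (by norm_num)
      have h8 := (integral_eq_zero_iff_of_nonneg (fun z => by positivity) h7).1 h3
      have h9 : q =ᵐ[volume.restrict D.U] (fun _ => (0 : ℂ)) := by
        filter_upwards [h8] with z hz
        have h10 : ‖q z‖ ^ 2 = 0 := hz
        exact norm_eq_zero.1 (pow_eq_zero_iff (two_ne_zero) |>.1 h10)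
      exact hol_unique D hqH.diff (differentiableOn_const 0) h9
    have hpre : IsPreconnected (D.Ue δ) := Ue_preconnected D δ
    have h5 : ∀ z ∈ D.Ue δ, q z = 0 := by
      have e1 : AnalyticOnNhd ℂ q (D.Ue δ) := hqd.analyticOnNhd hV
      have e2 : q =ᶠ[𝓝 z₀] (fun _ => (0 : ℂ)) := by
        filter_upwards [D.U_open.mem_nhds hz₀] with z hz
        exact h4 z hz
      have e3 := e1.eqOn_of_preconnected_of_eventuallyEq
        (analyticOnNhd_const (v := (0 : ℂ))) hpre (hUV hz₀) e2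
      exact fun z hz => e3 hz
    set ρ : ℂ → ℝ := fun z => ∑ j, x j * om' j z with hρ
    have hρs : ContDiffOn ℝ (⊤ : ℕ∞) ρ (D.Ue δ) :=
      ContDiffOn.sum fun j _ => contDiffOn_const.mul (hsm j)
    have hρd : ∀ z ∈ D.Ue δ, dz (fun w => (ρ w : ℂ)) z = 0 := by
      intro z hz
      have e0 : ∀ j, DifferentiableAt ℝ (fun w => (om' j w : ℂ)) z := fun j =>
        Complex.ofRealCLM.differentiableAt.comp z
          (((hsm j).contDiffAt (hV.mem_nhds hz)).differentiableAt (by simp))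
      have e1 : ∀ j ∈ Finset.univ, DifferentiableAt ℝ (fun w => (x j : ℂ) • (om' j w : ℂ)) z :=
        fun j _ => (e0 j).fun_const_smul (x j : ℂ)
      have e2 := (dz_sum Finset.univ e1).1
      have e3 : dz (fun w => (ρ w : ℂ)) z = dz (fun w => ∑ j, (x j : ℂ) • (om' j w : ℂ)) z := by
        refine (dz_congr (Eventually.of_forall fun w => ?_)).1
        simp [hρ]
      rw [e3, e2, ← h5 z hz, hq]
      refine Finset.sum_congr rfl fun j _ => ?_
      have e4 := (dz_smul (differentiableAt_const (x j : ℂ)) (e0 j)).1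
      rw [dz_const.1, zero_smul, zero_add, hder j z hz] at e4
      exact e4
    have hfd : ∀ z ∈ D.Ue δ, fderiv ℝ (fun w => (ρ w : ℂ)) z = 0 := by
      intro z hz
      ext1 w
      have e1 : DifferentiableAt ℝ ρ z := (hρs.contDiffAt (hV.mem_nhds hz)).differentiableAt (by simp)
      rw [D4_fderiv, dzb_ofReal e1, hρd z hz]
      simp
    have hdiff : DifferentiableOn ℝ (fun w => (ρ w : ℂ)) (D.Ue δ) := fun z hz =>
      ((Complex.ofRealCLM.differentiableAt.comp z
        ((hρs.contDiffAt (hV.mem_nhds hz)).differentiableAt (by simp))).differentiableWithinAt :)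
    have hconst : ∀ z ∈ D.Ue δ, ∀ w ∈ D.Ue δ, (ρ z : ℂ) = ρ w := fun z hz w hw =>
      hV.is_const_of_fderiv_eq_zero hpre hdiff (fun u hu => hfd u hu) hz hw
    -- points on the boundary curves
    have hpt : ∀ l, ∃ z ∈ D.circ l, z ∈ D.Ue δ := by
      intro l
      obtain ⟨z, hz⟩ := D4_circ_nonempty D l
      exact ⟨z, hz, hcV ((mem_cU_iff D z).2 (Or.inr ⟨l, hz⟩))⟩
    obtain ⟨z₁, hz₁, hz₁'⟩ := hpt none
    funext l
    obtain ⟨z₂, hz₂, hz₂'⟩ := hpt (some l)
    have h5 := hconst z₂ hz₂' z₁ hz₁'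
    have h6 : ρ z₂ = ρ z₁ := by exact_mod_cast h5
    simp only [hρ, hb0 _ z₁ hz₁, hb1 _ l z₂ hz₂, mul_zero, Finset.sum_const_zero, mul_ite, mul_one,
      Finset.sum_ite_eq, Finset.mem_univ, if_true] at h6
    exact h6

end

end Pool.Agent.KA
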