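import Mathlib
import Pool.Agent.Helper7.KE.Defs
import Pool.Agent.Helper9.Ends.Defs
import Pool.Agent.Helper6.Ends.Inverse

/-!
# Definitions for MP_f940ca_an on domains with analytic boundary curves (phase 2)

The same objects as in `Pool.Agent.Helper7.KE.Defs`, for a domain `D : AJ k` instead of a circle
domain.  `D.kap l` is the collar chart at the boundary curve `l` (`|z| > 1` is the side of the
domain), `D.lam l` its inverse.
-/

set_option autoImplicit false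

open MeasureTheory Set Filter Asymptotics Topology Metric
open scoped ComplexConjugate ENNReal

namespace Pool.Agent.EN

open Pool.Agent.Helper7.KE

theorem isOpen_ann2' (r : ℝ) : IsOpen (ann2 r) := by
  have : ann2 r = {z : ℂ | r⁻¹ < ‖z‖} ∩ {z : ℂ | ‖z‖ < r} := by ext z; simp [ann2]
  rw [this]
  exact (isOpen_lt continuous_const continuous_norm).inter
    (isOpen_lt continuous_norm continuous_const)

theorem isOpen_ann' (r : ℝ) : IsOpen (ann r) := by
  have : ann r = {z : ℂ | 1 < ‖z‖} ∩ {z : ℂ | ‖z‖ < r} := by ext z; simp [ann]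
  rw [this]
  exact (isOpen_lt continuous_const continuous_norm).inter
    (isOpen_lt continuous_norm continuous_const)

theorem ann2_mono {r s : ℝ} (h : r ≤ s) : ann2 r ⊆ ann2 s := by
  intro z hz
  have h1 := hz.1
  have h2 := hz.2
  refine ⟨lt_of_le_of_lt ?_ h1, h2.trans_le h⟩
  have hr : 0 < r := (norm_nonneg z).trans_lt h2
  exact inv_anti₀ hr h

theorem ann_subset_ann2 {r : ℝ} : ann r ⊆ ann2 r := by
  intro z hz
  have h1 := hz.1
  have h2 := hz.2
  exact ⟨(inv_lt_one_of_one_lt₀ (h1.trans h2)).trans h1, h2⟩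

theorem sphere_subset_ann2 {r : ℝ} (hr : 1 < r) : sphere (0 : ℂ) 1 ⊆ ann2 r := by
  intro z hz
  have h : ‖z‖ = 1 := by simpa using hz
  refine ⟨?_, ?_⟩
  · rw [h]; exact inv_lt_one_of_one_lt₀ hr
  · rw [h]; exact hr

namespace AJ

variable {k : ℕ} (D : AJ k)

/-- the inverse of the collar chart `l` -/
noncomputable def lam (l : Option (Fin k)) (z : ℂ) : ℂ := Function.invFunOn (D.kap l) (ann2 D.ρ) z

/-- the boundary curve `l` -/
def circ (l : Option (Fin k)) : Set ℂ := D.kap l '' sphere 0 1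

/-- the closed domain -/
def cU : Set ℂ := closure D.U

/-- the collar of width `δ` around the boundary curve `l` (both sides) -/
def col (δ : ℝ) (l : Option (Fin k)) : Set ℂ := D.kap l '' ann2 (min (1 + δ) D.ρ)

/-- the domain enlarged by collars -/
def Ue (δ : ℝ) : Set ℂ := D.U ∪ ⋃ l, D.col δ l

/-- `τ` is a good collar width -/
structure Good (τ : ℝ) : Prop where
  pos : 0 < τ
  lt_half : τ < 1 / 2
  lt_rho : 1 + 3 * τ < D.ρ

/-- the radial profile of the cutoff functions: `1` for `|s - 1| ≤ τ/3`, `0` for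
`|s - 1| ≥ 2τ/3` -/
noncomputable def prof (τ s : ℝ) : ℝ :=
  Real.smoothTransition (2 - 3 * (s - 1) / τ) * Real.smoothTransition (2 + 3 * (s - 1) / τ)

open Classical in
/-- cutoff functions near the boundary curves -/
noncomputable def chi (τ : ℝ) (l : Option (Fin k)) (z : ℂ) : ℝ :=
  if z ∈ D.kap l '' ann2 D.ρ then prof τ ‖D.lam l z‖ else 0

/-- the function `X_t = 1 + Σ (t_j - 1) χ_j`: equal to `t_j` near the curve `j`, `1` near the
outer curve -/
noncomputable def X (τ : ℝ) (t : Fin k → ℂ) (z : ℂ) : ℂ :=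
  1 + ∑ j, (t j - 1) * (D.chi τ (some j) z : ℂ)

/-- the residue of a holomorphic function around the hole `j` -/
noncomputable def res (τ : ℝ) (j : Fin k) (g : ℂ → ℂ) : ℂ :=
  -(1 / (Real.pi : ℂ)) * ∫ z in D.U, g z * dzb (fun w => (D.chi τ (some j) w : ℂ)) z

/-- the functional `L_t g (a) = ∫ g ∂_z̄ (X_t ā)` -/
noncomputable def Lt (τ : ℝ) (t : Fin k → ℂ) (g a : ℂ → ℂ) : ℂ :=
  ∫ z in D.U, g z * dzb (fun w => D.X τ t w * conj (a w)) z

/-- test functions: holomorphic on an enlarged domain, zero at `z₀` -/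
structure TF (z₀ : ℂ) (a : ℂ → ℂ) : Prop where
  ex : ∃ δ > 0, DifferentiableOn ℂ a (D.Ue δ)
  zero : a z₀ = 0

/-- square integrable holomorphic functions on the domain -/
structure Hol2 (g : ℂ → ℂ) : Prop where
  diff : DifferentiableOn ℂ g D.U
  memLp : MemLp g 2 (volume.restrict D.U)

/-- the space `VV_t`: square integrable holomorphic functions annihilated by `L_t` on all
test functions -/
structure VV (τ : ℝ) (z₀ : ℂ) (t : Fin k → ℂ) (g : ℂ → ℂ) : Prop where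
  hol : D.Hol2 g
  ann : ∀ a, D.TF z₀ a → D.Lt τ t g a = 0

/-- `L_t g` is bounded by `M` in the Dirichlet norm of the test function -/
def LtBd (τ : ℝ) (z₀ : ℂ) (t : Fin k → ℂ) (g : ℂ → ℂ) (M : ℝ) : Prop :=
  ∀ a, D.TF z₀ a → ‖D.Lt τ t g a‖ ≤ M * Real.sqrt (∫ z in D.U, ‖deriv a z‖ ^ 2)

/-! ### `L²` and the Bergman space -/

/-- the Hilbert space `L²(U)` -/
abbrev L2 : Type := Lp ℂ 2 (volume.restrict D.U)

/-- the square integrable holomorphic functions -/
noncomputable def BergPre : Submodule ℂ D.L2 where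
  carrier := {f | ∃ g : ℂ → ℂ, DifferentiableOn ℂ g D.U ∧ f =ᵐ[volume.restrict D.U] g}
  add_mem' := by
    rintro f f' ⟨g, hg, e⟩ ⟨g', hg', e'⟩
    refine ⟨g + g', hg.add hg', ?_⟩
    exact (Lp.coeFn_add f f').trans (e.add e')
  zero_mem' := ⟨0, differentiableOn_const 0, Lp.coeFn_zero _ _ _⟩
  smul_mem' := by
    rintro c f ⟨g, hg, e⟩
    refine ⟨c • g, hg.const_smul c, ?_⟩
    exact (Lp.coeFn_smul c f).trans (e.const_smul c)

/-- the Bergman space (defined as a closure, to have its closedness for free) -/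
noncomputable def Berg : Submodule ℂ D.L2 := D.BergPre.topologicalClosure

instance : CompleteSpace D.Berg :=
  (Submodule.isClosed_topologicalClosure _).completeSpace_coe

/-- the orthogonal projection onto the Bergman space -/
noncomputable def P : D.L2 →L[ℂ] D.Berg := D.Berg.orthogonalProjectionOnto

/-- `∂u/∂z̄ = f` in the sense of distributions -/
def WeakDbar (u f : D.L2) : Prop :=
  ∀ φ : ℂ → ℂ, IsTest D.U φ →
    ∫ z in D.U, (u : ℂ → ℂ) z * dzb φ z = -∫ z in D.U, (f : ℂ → ℂ) z * φ z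

theorem cU_compact : IsCompact D.cU := D.bounded.isCompact_closure

theorem U_subset_cU : D.U ⊆ D.cU := subset_closure

theorem U_open : IsOpen D.U := D.isOpen

theorem isOpen_kap {l : Option (Fin k)} {V : Set ℂ} (hV : IsOpen V) (h : V ⊆ ann2 D.ρ) :
    IsOpen (D.kap l '' V) :=
  (exists_inverse hV ((D.holo l).mono h) ((D.inj l).mono h)).1

theorem col_subset (δ : ℝ) (l : Option (Fin k)) : D.col δ l ⊆ D.kap l '' ann2 D.ρ :=
  image_mono (ann2_mono (min_le_right _ _))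

theorem col_open (δ : ℝ) (l : Option (Fin k)) : IsOpen (D.col δ l) :=
  D.isOpen_kap (isOpen_ann2' _) (ann2_mono (min_le_right _ _))

theorem Ue_open (δ : ℝ) : IsOpen (D.Ue δ) :=
  D.isOpen.union (isOpen_iUnion fun l => D.col_open δ l)

theorem circ_subset_col {δ : ℝ} (hδ : 0 < δ) (l : Option (Fin k)) : D.circ l ⊆ D.col δ l :=
  image_mono (sphere_subset_ann2 (lt_min (by linarith) D.one_lt))

theorem lam_kap {l : Option (Fin k)} {z : ℂ} (hz : z ∈ ann2 D.ρ) : D.lam l (D.kap l z) = z :=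
  (D.inj l).leftInvOn_invFunOn hz

theorem circ_subset_closure (l : Option (Fin k)) : D.circ l ⊆ closure D.U := by
  rintro _ ⟨z, hz, rfl⟩
  have h1 : ‖z‖ = 1 := by simpa using hz
  have hz2 : z ∈ ann2 D.ρ := sphere_subset_ann2 D.one_lt hz
  have hc : ContinuousAt (D.kap l) z :=
    ((D.holo l).differentiableAt ((isOpen_ann2' _).mem_nhds hz2)).continuousAt
  have ht : Tendsto (fun s : ℝ => (s : ℂ) * z) (𝓝[>] 1) (𝓝 z) := by
    have : Continuous fun s : ℝ => (s : ℂ) * z := by fun_prop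
    have h2 := this.tendsto 1
    simp only [Complex.ofReal_one, one_mul] at h2
    exact h2.mono_left nhdsWithin_le_nhds
  have ht2 : Tendsto (fun s : ℝ => D.kap l ((s : ℂ) * z)) (𝓝[>] 1) (𝓝 (D.kap l z)) :=
    hc.tendsto.comp ht
  refine mem_closure_of_tendsto ht2 ?_
  have h3 : ∀ᶠ s : ℝ in 𝓝[>] 1, s < D.ρ :=
    (eventually_lt_nhds D.one_lt).filter_mono nhdsWithin_le_nhds
  filter_upwards [self_mem_nhdsWithin, h3] with s hs hs2
  have hs1 : (1 : ℝ) < s := hs
  have hn : ‖(s : ℂ) * z‖ = s := by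
    rw [norm_mul, h1, mul_one, Complex.norm_real, Real.norm_of_nonneg (by linarith)]
  refine (D.mem_iff l _ (ann_subset_ann2 ⟨?_, ?_⟩)).2 ?_
  · rw [hn]; exact hs1
  · rw [hn]; exact hs2
  · rw [hn]; exact hs1

/-- the closed domain is the domain together with the boundary curves -/
theorem mem_cU_iff' (z : ℂ) : z ∈ D.cU ↔ z ∈ D.U ∨ ∃ l, z ∈ D.circ l := by
  constructor
  · intro hz
    by_cases hU : z ∈ D.U
    · exact Or.inl hU
    right
    obtain ⟨r, hr1, hr2⟩ := exists_between D.one_lt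
    have hcl : IsClosed (D.U \ ⋃ l, D.kap l '' ann r) := (D.compact r hr1 hr2.le).isClosed
    have hsub : D.U ⊆ (D.U \ ⋃ l, D.kap l '' ann r) ∪
        ⋃ l, D.kap l '' (closedBall 0 r \ ball 0 1) := by
      intro w hw
      by_cases h : w ∈ ⋃ l, D.kap l '' ann r
      · right
        obtain ⟨l, u, hu, rfl⟩ := mem_iUnion.1 h
        refine mem_iUnion.2 ⟨l, u, ⟨?_, ?_⟩, rfl⟩
        · simpa using hu.2.le
        · simpa using hu.1.le
      · exact Or.inl ⟨hw, h⟩
    have hK : ∀ l, IsClosed (D.kap l '' (closedBall 0 r \ ball 0 1)) := by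
      intro l
      refine (IsCompact.image_of_continuousOn
        ((isCompact_closedBall _ _).diff isOpen_ball) ?_).isClosed
      refine ((D.holo l).continuousOn).mono ?_
      intro u hu
      have h1 : ‖u‖ ≤ r := by simpa using hu.1
      have h2 : 1 ≤ ‖u‖ := by simpa using hu.2
      exact ⟨(inv_lt_one_of_one_lt₀ D.one_lt).trans_le h2, h1.trans_lt hr2⟩
    have hcl2 := hcl.union (isClosed_iUnion_of_finite hK)
    have hz2 := closure_minimal hsub hcl2 hz
    rcases hz2 with h | h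
    · exact absurd h.1 hU
    · obtain ⟨l, u, hu, rfl⟩ := mem_iUnion.1 h
      have h1 : ‖u‖ ≤ r := by simpa using hu.1
      have h2 : 1 ≤ ‖u‖ := by simpa using hu.2
      have hu2 : u ∈ ann2 D.ρ := ⟨(inv_lt_one_of_one_lt₀ D.one_lt).trans_le h2, h1.trans_lt hr2⟩
      refine ⟨l, u, ?_, rfl⟩
      rcases h2.eq_or_lt with h3 | h3
      · simpa using h3.symm
      · exact absurd ((D.mem_iff l u hu2).2 h3) hU
  · rintro (h | ⟨l, h⟩)
    · exact subset_closure h
    · exact D.circ_subset_closure l h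

theorem cU_subset_Ue {δ : ℝ} (hδ : 0 < δ) : D.cU ⊆ D.Ue δ := by
  intro z hz
  rcases (D.mem_cU_iff' z).1 hz with h | ⟨l, h⟩
  · exact Or.inl h
  · exact Or.inr (mem_iUnion.2 ⟨l, D.circ_subset_col hδ l h⟩)

theorem U_subset_Ue (δ : ℝ) : D.U ⊆ D.Ue δ := subset_union_left

theorem col_mono {δ δ' : ℝ} (h : δ ≤ δ') (l : Option (Fin k)) : D.col δ l ⊆ D.col δ' l :=
  image_mono (ann2_mono (min_le_min_right _ (by linarith)))

theorem Ue_mono {δ δ' : ℝ} (h : δ ≤ δ') : D.Ue δ ⊆ D.Ue δ' :=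
  union_subset_union_right _ (iUnion_mono fun l => D.col_mono h l)

theorem U_subset_ball : ∃ R : ℝ, 0 < R ∧ D.U ⊆ ball 0 R := by
  obtain ⟨R, hR⟩ := D.bounded.subset_ball (0 : ℂ)
  refine ⟨max R 1, by positivity, hR.trans (ball_subset_ball (le_max_left _ _))⟩

theorem U_finite : volume D.U ≠ ⊤ := by
  refine ((measure_mono D.U_subset_cU).trans_lt D.cU_compact.measure_lt_top).ne

instance : IsFiniteMeasure (volume.restrict D.U) :=
  ⟨by rw [Measure.restrict_apply_univ]; exact D.U_finite.lt_top⟩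

theorem mul_memLp {b : ℂ → ℂ} (hb : ContinuousOn b D.cU) (f : D.L2) :
    MemLp (fun z => b z * (f : ℂ → ℂ) z) 2 (volume.restrict D.U) := by
  obtain ⟨C, hC⟩ := D.cU_compact.exists_bound_of_continuousOn hb
  have h1 : AEStronglyMeasurable b (volume.restrict D.U) :=
    (hb.mono D.U_subset_cU).aestronglyMeasurable D.U_open.measurableSet
  refine MemLp.of_le_mul (c := C) (Lp.memLp f) (h1.mul (Lp.memLp f).1) ?_
  filter_upwards [ae_restrict_mem D.U_open.measurableSet] with z hz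
  rw [norm_mul]
  exact mul_le_mul_of_nonneg_right (hC z (D.U_subset_cU hz)) (norm_nonneg _)

/-- the operator of multiplication by a function continuous on the closed domain -/
noncomputable def mulAux (b : ℂ → ℂ) (hb : ContinuousOn b D.cU) : D.L2 →ₗ[ℂ] D.L2 where
  toFun f := (D.mul_memLp hb f).toLp _
  map_add' f g := by
    rw [← MemLp.toLp_add]
    apply MemLp.toLp_congr
    filter_upwards [Lp.coeFn_add f g] with z hz
    simp only [hz, Pi.add_apply, mul_add]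
  map_smul' c f := by
    rw [RingHom.id_apply, ← MemLp.toLp_const_smul]
    apply MemLp.toLp_congr
    filter_upwards [Lp.coeFn_smul c f] with z hz
    simp only [hz, Pi.smul_apply, smul_eq_mul]
    ring

theorem mulAux_norm_le {b : ℂ → ℂ} (hb : ContinuousOn b D.cU) {C : ℝ}
    (hC : ∀ z ∈ D.U, ‖b z‖ ≤ C) (hC0 : 0 ≤ C) (f : D.L2) : ‖D.mulAux b hb f‖ ≤ C * ‖f‖ := by
  apply Lp.norm_le_mul_norm_of_ae_le_mul
  have h1 : (D.mulAux b hb f : ℂ → ℂ) =ᵐ[volume.restrict D.U] _ :=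
    MemLp.coeFn_toLp (D.mul_memLp hb f)
  filter_upwards [h1, ae_restrict_mem D.U_open.measurableSet] with z hz hzU
  rw [hz, norm_mul]
  exact mul_le_mul_of_nonneg_right (hC z hzU) (norm_nonneg _)

open Classical in
/-- multiplication by `b` as an operator on `L²(U)` (zero if `b` is not continuous on the closed
domain) -/
noncomputable def Mul (b : ℂ → ℂ) : D.L2 →L[ℂ] D.L2 :=
  if hb : ContinuousOn b D.cU then
    (D.mulAux b hb).mkContinuousOfExistsBound (by
      obtain ⟨C, hC⟩ := D.cU_compact.exists_bound_of_continuousOn hb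
      exact ⟨max C 0, D.mulAux_norm_le hb
        (fun z hz => (hC z (D.U_subset_cU hz)).trans (le_max_left _ _)) (le_max_right _ _)⟩)
  else 0

theorem Mul_coe {b : ℂ → ℂ} (hb : ContinuousOn b D.cU) (f : D.L2) :
    (D.Mul b f : ℂ → ℂ) =ᵐ[volume.restrict D.U] fun z => b z * (f : ℂ → ℂ) z := by
  rw [Mul, dif_pos hb]
  exact MemLp.coeFn_toLp (D.mul_memLp hb f)

theorem Mul_norm_le {b : ℂ → ℂ} (hb : ContinuousOn b D.cU) {C : ℝ}
    (hC : ∀ z ∈ D.U, ‖b z‖ ≤ C) (hC0 : 0 ≤ C) : ‖D.Mul b‖ ≤ C := by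
  refine ContinuousLinearMap.opNorm_le_bound _ hC0 fun f => ?_
  rw [Mul, dif_pos hb]
  exact D.mulAux_norm_le hb hC hC0 f

/-- the Toeplitz operator `g ↦ P (S g)` on the Bergman space -/
noncomputable def Toe (S : ℂ → ℂ) : D.Berg →L[ℂ] D.Berg :=
  D.P ∘L D.Mul S ∘L D.Berg.subtypeL

/-- `T` is the canonical solution operator of `∂/∂z̄` -/
structure IsKohn (T : D.L2 →L[ℂ] D.L2) : Prop where
  compact : IsCompactOperator T
  weak : ∀ f, D.WeakDbar (T f) f
  orth : ∀ f, D.P (T f) = 0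

end AJ

end Pool.Agent.EN

namespace Pool.Agent.KA

open Pool.Agent.Helper7.KE hiding HM PS Bv sfun FF tt lS
open Pool.Agent.EN (AJ)

/-! ### Harmonic data and phase systems -/

/-- The harmonic measures of the domain, extended across the boundary. -/
structure HM {k : ℕ} (D : AJ k) (τ δ : ℝ) where
  om : Fin k → ℂ → ℝ
  v : Fin k → ℂ → ℂ
  Rm : Matrix (Fin k) (Fin k) ℝ
  smooth : ∀ j, ContDiffOn ℝ (⊤ : ℕ∞) (om j) (D.Ue δ)
  hol : ∀ j, DifferentiableOn ℂ (v j) (D.Ue δ)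
  der : ∀ j, ∀ z ∈ D.Ue δ, dz (fun w => (om j w : ℂ)) z = v j z
  bd_none : ∀ j, ∀ z ∈ D.circ none, om j z = 0
  bd_some : ∀ j l, ∀ z ∈ D.circ (some l), om j z = if l = j then 1 else 0
  orth : ∀ j, ∀ a : ℂ → ℂ, (∃ V, IsOpen V ∧ D.cU ⊆ V ∧ DifferentiableOn ℂ a V) →
    ∫ z in D.U, v j z * conj (deriv a z) = 0
  res : ∀ l j, D.res τ l (v j) = Rm l j
  det_ne : Rm.det ≠ 0
  gram : ∀ i j, ∃ x : ℝ, ∫ z in D.U, v i z * conj (v j z) = x
  chi_v : ∀ j, ∀ g : ℂ → ℂ, D.Hol2 g →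
    ∫ z in D.U, g z * conj (v j z) =
      ∫ z in D.U, g z * dzb (fun w => (D.chi τ (some j) w : ℂ)) z
  anot : ∀ j, D.a j ∉ D.Ue δ

namespace HM

variable {k : ℕ} {D : AJ k} {τ δ : ℝ} (h : HM D τ δ)

/-- the real harmonic function with boundary values `x_j` -/
noncomputable def rho (x : Fin k → ℝ) (z : ℂ) : ℝ := ∑ j, x j * h.om j z

/-- the complex harmonic function with boundary values `w_j` -/
noncomputable def rhoC (w : Fin k → ℂ) (z : ℂ) : ℂ := ∑ j, w j * (h.om j z : ℂ)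

/-- `∂ρ_x/∂z` -/
noncomputable def vv (x : Fin k → ℝ) (z : ℂ) : ℂ := ∑ j, (x j : ℂ) * h.v j z

/-- `∂ρ_w/∂z̄` for complex `w` -/
noncomputable def vb (w : Fin k → ℂ) (z : ℂ) : ℂ := ∑ j, w j * conj (h.v j z)

end HM

/-- A phase system: cutoff functions near the boundary curves and the critical points of `ρ`,
with the values of `ρ` there. -/
structure PS {k : ℕ} (D : AJ k) (ρ : ℂ → ℝ) (ι : Type) [Fintype ι] [DecidableEq ι] where
  chi : ι → ℂ → ℝ
  c : ι → ℝ
  bd : Option (Fin k) → ι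
  bd_inj : Function.Injective bd
  smooth : ∀ i, ContDiff ℝ (⊤ : ℕ∞) (chi i)
  nonneg : ∀ i z, 0 ≤ chi i z
  le_one : ∀ i z, chi i z ≤ 1
  disj : ∀ i j, i ≠ j → Disjoint (tsupport (chi i)) (tsupport (chi j))
  bd_near : ∀ l, ∀ z ∈ D.circ l, ∀ᶠ w in 𝓝 z, chi (bd l) w = 1
  crit_near : ∀ z ∈ D.cU, dz (fun w => (ρ w : ℂ)) z = 0 → ∃ i, ∀ᶠ w in 𝓝 z, chi i w = 1
  val_circ : ∀ l, ∀ z ∈ D.circ l, ρ z = c (bd l)
  val_crit : ∀ i, ∀ z ∈ tsupport (chi i) ∩ D.cU, dz (fun w => (ρ w : ℂ)) z = 0 → ρ z = c i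
  only_circ : ∀ i l, (tsupport (chi i) ∩ D.circ l).Nonempty → i = bd l

section virtual

variable {k : ℕ} {D : AJ k} {τ δ : ℝ} {ι : Type} [Fintype ι] [DecidableEq ι]

/-- The virtual form `Σ_i e^{iφ_i} ∫ χ_i e^{iN(ρ - c_i)} e^{ρ_w} g q̄`, the phases `φ` being
decoupled from `N`. -/
noncomputable def Bv (h : HM D τ δ) {ρ : ℂ → ℝ} (ps : PS D ρ ι) (N : ℝ) (φ : ι → ℝ)
    (w : Fin k → ℂ) (g q : ℂ → ℂ) : ℂ :=
  ∑ i, Complex.exp (Complex.I * φ i) * ∫ z in D.U, (ps.chi i z : ℂ) *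
    Complex.exp (Complex.I * (N * (ρ z - ps.c i) : ℝ)) * Complex.exp (h.rhoC w z) * g z *
      conj (q z)

/-- the functional `s(t,g) = Σ (t_j - 1) ∫ g ∂_z̄ χ_j = L_t g (1)` -/
noncomputable def sfun (D : AJ k) (τ : ℝ) (t : Fin k → ℂ) (g : ℂ → ℂ) : ℂ :=
  ∑ j, (t j - 1) * ∫ z in D.U, g z * dzb (fun w => (D.chi τ (some j) w : ℂ)) z

/-- the boundary multipliers `exp(iφ_j + x_j + μ ω_j)` -/
noncomputable def tt {k : ℕ} {D : AJ k} {ι : Type} [Fintype ι] [DecidableEq ι] {ρ : ℂ → ℝ}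
    (ps : PS D ρ ι) (om : Fin k → ℂ) (v : (Fin k → ℝ) × (ι → ℝ)) (μ : ℂ) (j : Fin k) : ℂ :=
  Complex.exp (Complex.I * v.2 (ps.bd (some j)) + v.1 j + μ * om j)

/-- the bordered determinant of the virtual forms of a frame `g` against the tests `q` -/
noncomputable def FF {n : ℕ} {D : AJ (n + 1)} {τ δ : ℝ} {ι : Type} [Fintype ι] [DecidableEq ι]
    (h : HM D τ δ) {ρ : ℂ → ℝ} (ps : PS D ρ ι) (om : Fin (n + 1) → ℂ)
    (g : Fin (n + 1) → (Fin (n + 1) → ℂ) → ℂ → ℂ) (q : Fin n → ℂ → ℂ) (N : ℝ)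
    (v : (Fin (n + 1) → ℝ) × (ι → ℝ)) (μ : ℂ) : ℂ :=
  Fdet (fun b l => Bv h ps N v.2 (fun j => v.1 j + μ * om j) (g b (tt ps om v μ)) (q l))
    (fun b => sfun D τ (tt ps om v μ) (g b (tt ps om v μ)))

/-- The actual exponent `i N ρ + i Σ y_i χ_i + ρ_w` -/
noncomputable def lS (h : HM D τ δ) {ρ : ℂ → ℝ} (ps : PS D ρ ι) (N : ℝ) (y : ι → ℝ)
    (w : Fin k → ℂ) (z : ℂ) : ℂ :=
  Complex.I * (N * ρ z : ℝ) + Complex.I * (∑ i, y i * ps.chi i z : ℝ) + h.rhoC w z

end virtual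

end Pool.Agent.KA
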