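import Pool.Agent.Helper7.KF.Fred
import Pool.Agent.Helper9.KA.Defs

set_option autoImplicit false

open MeasureTheory Set Filter Asymptotics Topology Metric
open scoped ComplexConjugate ENNReal

namespace Pool.Agent.KA

open Pool.Agent.Helper7.KE hiding HM PS Bv sfun FF tt lS
open Pool.Agent.EN (AJ ann ann2)

/-- analytic Fredholm theorem for compact families -/
theorem fredholm_family {H : Type*} [NormedAddCommGroup H] [InnerProductSpace ℂ H]
    [CompleteSpace H] {K : ℂ → (H →L[ℂ] H)} (hK : Differentiable ℂ K)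
    (hc : ∀ z, IsCompactOperator (K z)) (h0 : K 0 = 0) {T : ℝ} (hT : 0 < T) :
    ∃ (d : ℂ → ℂ) (Rop : ℂ → (H →L[ℂ] H)), DifferentiableOn ℂ d (ball 0 T) ∧
      DifferentiableOn ℂ Rop (ball 0 T) ∧ d 0 ≠ 0 ∧
      ∀ z ∈ ball (0 : ℂ) T, (1 + K z) * Rop z = d z • 1 := by
  obtain ⟨d, N, h1, h2, h3, h4⟩ := Pool.Agent.Helper7.KF.fredholm_disc hT (lt_add_one T)
    hK.differentiableOn (fun z _ => hc z) (by rw [h0, add_zero]; exact isUnit_one)
  exact ⟨d, N, h1, h3, h2, h4⟩

end Pool.Agent.KA
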