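import Pool.Agent.Helper9.KA.C4b
import Pool.Agent.Helper7.KF.Cpt

set_option autoImplicit false

open MeasureTheory Set Filter Asymptotics Topology Metric
open scoped ComplexConjugate ENNReal

namespace Pool.Agent.KA

open Pool.Agent.Helper7.KE hiding HM PS Bv sfun FF tt lS
open Pool.Agent.EN (AJ ann ann2)

namespace HKaux

theorem ker_compact {H : Type*} [NormedAddCommGroup H] [NormedSpace ℂ H] {U : Set ℂ}
    (hU : IsOpen U) [IsFiniteMeasure (volume.restrict U)] {ev : ℂ → (H →L[ℂ] ℂ)}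
    (hev : DifferentiableOn ℂ ev U) {β : ℂ → ℂ} (hβ : ContinuousOn β U) {C : ℝ}
    (hC : ∀ z ∈ U, ‖β z‖ ≤ C) {L : Set ℂ} (hL : IsCompact L) (hLU : L ⊆ U)
    (h0 : ∀ z ∈ U, z ∉ L → β z = 0) :
    ∃ T : H →L[ℂ] Lp ℂ 2 (volume.restrict U), IsCompactOperator T ∧
      ∀ g, T g =ᵐ[volume.restrict U] fun z => β z * ev z g := by
  obtain ⟨C', hC'⟩ := hL.exists_bound_of_continuousOn (hev.continuousOn.mono hLU)
  set κ0 : ℂ → (H →L[ℂ] ℂ) := fun z => β z • ev z with hκ0
  have hmeas : AEStronglyMeasurable κ0 (volume.restrict U) :=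
    (hβ.smul hev.continuousOn).aestronglyMeasurable hU.measurableSet
  have hmem : MemLp κ0 2 (volume.restrict U) := by
    refine MemLp.of_bound hmeas (|C| * |C'|) ?_
    filter_upwards [ae_restrict_mem hU.measurableSet] with z hz
    by_cases hzL : z ∈ L
    · rw [hκ0]
      simp only
      rw [norm_smul]
      exact mul_le_mul ((hC z hz).trans (le_abs_self _))
        ((hC' z hzL).trans (le_abs_self _)) (norm_nonneg _) (abs_nonneg _)
    · rw [hκ0]
      simp only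
      rw [norm_smul, h0 z hz hzL, norm_zero, zero_mul]
      positivity
  refine ⟨Pool.Agent.Helper7.KF.kerOp (hmem.toLp κ0), Pool.Agent.Helper7.KF.kerOp_compact _,
    fun g => ?_⟩
  filter_upwards [Pool.Agent.Helper7.KF.kerOp_coe (hmem.toLp κ0) g, hmem.coeFn_toLp] with z e2 e3
  rw [e2, e3, hκ0]
  simp

end HKaux

section
variable {k : ℕ} (D : AJ k)

/-- Hankel operators with smooth symbols are compact -/
theorem hankel_compact {S : ℂ → ℂ} {V : Set ℂ} (hV : IsOpen V) (hcV : D.cU ⊆ V)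
    (hS : ContDiffOn ℝ (⊤ : ℕ∞) S V) :
    IsCompactOperator (fun f : D.Berg => D.Mul S (f : D.L2) - (D.P (D.Mul S (f : D.L2)) : D.L2)) := by
  obtain ⟨T, hT⟩ := exists_kohn D
  have key : (fun f : D.Berg => D.Mul S (f : D.L2) - (D.P (D.Mul S (f : D.L2)) : D.L2)) =
      T ∘ (D.Mul (dzb S) ∘L D.Berg.subtypeL) := by
    funext f
    have h1 := weak_mul D hV hcV hS (weak_hol_zero D f.2)
    have h2 := weak_add D h1
      (weak_smul D (-1) (weak_hol_zero D (D.P (D.Mul S (f : D.L2))).2))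
    have h3 : D.Mul S 0 + D.Mul (dzb S) (f : D.L2) + (-1 : ℂ) • (0 : D.L2) =
        D.Mul (dzb S) (f : D.L2) := by simp
    have h4 : D.Mul S (f : D.L2) + (-1 : ℂ) • (D.P (D.Mul S (f : D.L2)) : D.L2) =
        D.Mul S (f : D.L2) - (D.P (D.Mul S (f : D.L2)) : D.L2) := by
      rw [neg_smul, one_smul, sub_eq_add_neg]
    rw [h3, h4] at h2
    have h5 : D.P (D.Mul S (f : D.L2) - (D.P (D.Mul S (f : D.L2)) : D.L2)) = 0 := by
      rw [map_sub]
      have h6 : D.P ((D.P (D.Mul S (f : D.L2)) : D.Berg) : D.L2) = D.P (D.Mul S (f : D.L2)) :=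
        Submodule.orthogonalProjectionOnto_mem_subspace_eq_self (K := D.Berg) _
      rw [h6, sub_self]
    exact kohn_unique D hT h2 h5
  rw [key]
  exact hT.compact.comp_clm (D.Mul (dzb S) ∘L D.Berg.subtypeL)

/-- products of Toeplitz operators are Toeplitz operators up to compact operators -/
theorem toe_mul_compact {S S' : ℂ → ℂ} {V : Set ℂ} (hV : IsOpen V) (hcV : D.cU ⊆ V)
    (hS : ContDiffOn ℝ (⊤ : ℕ∞) S V) (hS' : ContDiffOn ℝ (⊤ : ℕ∞) S' V) :
    IsCompactOperator (D.Toe S ∘L D.Toe S' - D.Toe (fun z => S z * S' z)) := by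
  have hSc : ContinuousOn S D.cU := hS.continuousOn.mono hcV
  have hSc' : ContinuousOn S' D.cU := hS'.continuousOn.mono hcV
  have h1 := (hankel_compact D hV hcV hS').clm_comp (-(D.P ∘L D.Mul S))
  suffices h2 : ⇑(D.Toe S ∘L D.Toe S' - D.Toe (fun z => S z * S' z)) =
      ⇑(-(D.P ∘L D.Mul S)) ∘
        fun f : D.Berg => D.Mul S' (f : D.L2) - (D.P (D.Mul S' (f : D.L2)) : D.L2) by
    rw [h2]
    exact h1
  funext f
  have e1 : (D.Toe S ∘L D.Toe S' - D.Toe (fun z => S z * S' z)) f =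
      D.P (D.Mul S (D.P (D.Mul S' (f : D.L2)) : D.L2)) -
        D.P (D.Mul (fun z => S z * S' z) (f : D.L2)) := rfl
  have e2 : (⇑(-(D.P ∘L D.Mul S)) ∘
      fun f : D.Berg => D.Mul S' (f : D.L2) - (D.P (D.Mul S' (f : D.L2)) : D.L2)) f =
      -(D.P (D.Mul S (D.Mul S' (f : D.L2) - (D.P (D.Mul S' (f : D.L2)) : D.L2)))) := rfl
  rw [e1, e2, map_sub, map_sub, mul_mul D hSc hSc']
  abel

/-- multiplication by a function with compact support in the domain is compact on the Bergman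
space (Montel) -/
theorem mul_compact {β : ℂ → ℂ} (hβ : ContinuousOn β D.cU) {L : Set ℂ} (hL : IsCompact L)
    (hLU : L ⊆ D.U) (h0 : ∀ z ∈ D.U, z ∉ L → β z = 0) :
    IsCompactOperator (D.Mul β ∘L D.Berg.subtypeL) := by
  obtain ⟨ev, hev, hrep⟩ := berg_ev D
  obtain ⟨C, hC⟩ := D.cU_compact.exists_bound_of_continuousOn hβ
  obtain ⟨T, hT, hTg⟩ := HKaux.ker_compact (H := D.Berg) D.U_open hev (hβ.mono D.U_subset_cU)
    (fun z hz => hC z (D.U_subset_cU hz)) hL hLU h0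
  have h1 : D.Mul β ∘L D.Berg.subtypeL = T := by
    refine ContinuousLinearMap.ext fun g => Lp.ext ?_
    filter_upwards [D.Mul_coe hβ (g : D.L2), hTg g, hrep g] with z e1 e2 e4
    have e5 : (((D.Mul β ∘L D.Berg.subtypeL) g : D.L2) : ℂ → ℂ) z = β z * ((g : D.L2) : ℂ → ℂ) z :=
      e1
    rw [e5, e2, e4]
  rw [h1]
  exact hT

end

end Pool.Agent.KA
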