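import Pool.Agent.Helper9.KA.TA
import Pool.Agent.Helper9.KA.HK

set_option autoImplicit false

open MeasureTheory Set Filter Asymptotics Topology Metric
open scoped ComplexConjugate ENNReal

namespace Pool.Agent.KA

open Pool.Agent.Helper7.KE hiding HM PS Bv sfun FF tt lS
open Pool.Agent.EN (AJ ann ann2)

/-- an operator which is compact on a dense part and has a finite dimensional remainder -/
theorem compact_split {H G : Type*} [NormedAddCommGroup H] [InnerProductSpace ℂ H]
    [CompleteSpace H] [NormedAddCommGroup G] [InnerProductSpace ℂ G] [CompleteSpace G]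
    (X X₀ : Submodule ℂ H) [CompleteSpace X] (hX : (X : Set H) = closure X₀)
    (hfin : FiniteDimensional ℂ Xᗮ) (J : X →L[ℂ] G) (N : H →L[ℂ] G) (hN : IsCompactOperator N)
    (E : H →L[ℂ] H)
    (h : ∀ (x : X), (x : H) ∈ X₀ → ∀ f, inner ℂ (x : H) (E f) = inner ℂ (J x) (N f)) :
    IsCompactOperator E := by
  obtain ⟨J', hJ'⟩ := exists_adj J
  let C : H →L[ℂ] X := J' ∘L N
  have hC : IsCompactOperator C := hN.clm_comp J'
  have key : ∀ (x : X) (f : H), inner ℂ (x : H) (E f) = inner ℂ (x : H) ((C f : X) : H) := by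
    intro x f
    have hcl : IsClosed {x : X | inner ℂ (x : H) (E f) = inner ℂ (x : H) ((C f : X) : H)} :=
      isClosed_eq (continuous_subtype_val.inner continuous_const)
        (continuous_subtype_val.inner continuous_const)
    have hsub : {x : X | (x : H) ∈ X₀} ⊆
        {x : X | inner ℂ (x : H) (E f) = inner ℂ (x : H) ((C f : X) : H)} := by
      intro x hx
      change inner ℂ (x : H) (E f) = _
      rw [h x hx f, ← hJ' x (N f)]
      rfl
    have hx : x ∈ closure {x : X | (x : H) ∈ X₀} := by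
      have hx2 : (x : H) ∈ closure (X₀ : Set H) := by rw [← hX]; exact x.2
      rw [Metric.mem_closure_iff] at hx2 ⊢
      intro ε hε
      obtain ⟨b, hb, hd⟩ := hx2 ε hε
      have hbX : b ∈ X := by
        have : b ∈ (X : Set H) := by rw [hX]; exact subset_closure hb
        exact this
      exact ⟨⟨b, hbX⟩, hb, hd⟩
    exact closure_minimal hsub hcl hx
  let F : H →L[ℂ] H := E - X.subtypeL ∘L C
  have hF : ∀ f, F f ∈ Xᗮ := by
    intro f
    rw [Submodule.mem_orthogonal]
    intro u hu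
    have h1 : F f = E f - ((C f : X) : H) := rfl
    rw [h1, inner_sub_right, sub_eq_zero]
    exact key ⟨u, hu⟩ f
  let F' : H →L[ℂ] Xᗮ := F.codRestrict Xᗮ hF
  have hF' : IsCompactOperator F' := by
    have : ProperSpace Xᗮ := FiniteDimensional.proper_rclike ℂ Xᗮ
    exact isCompactOperator_of_locallyCompactSpace_dom F'
  have hE : (E : H → H) = (X.subtypeL ∘L C) + (Xᗮ.subtypeL ∘L F') := by
    funext f
    change E f = ((C f : X) : H) + (E f - ((C f : X) : H))
    abel
  rw [hE]
  exact (hC.clm_comp X.subtypeL).add (hF'.clm_comp Xᗮ.subtypeL)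

section
variable {k : ℕ} (D : AJ k) {τ : ℝ}

theorem Mul_comb {b c d : ℂ → ℂ} (hb : ContinuousOn b D.cU) (hc : ContinuousOn c D.cU)
    (hd : ContinuousOn d D.cU) (h : ℂ) :
    D.Mul b - D.Mul c - h • D.Mul d = D.Mul (fun z => b z - c z - h * d z) := by
  have hbcd : ContinuousOn (fun z => b z - c z - h * d z) D.cU :=
    (hb.sub hc).sub (continuousOn_const.mul hd)
  ext1 f
  apply Lp.ext
  have e1 : (D.Mul b - D.Mul c - h • D.Mul d) f = D.Mul b f - D.Mul c f - h • D.Mul d f := rfl
  rw [e1]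
  filter_upwards [Lp.coeFn_sub (D.Mul b f - D.Mul c f) (h • D.Mul d f),
    Lp.coeFn_sub (D.Mul b f) (D.Mul c f), Lp.coeFn_smul h (D.Mul d f), D.Mul_coe hb f,
    D.Mul_coe hc f, D.Mul_coe hd f, D.Mul_coe hbcd f] with z a1 a2 a3 a4 a5 a6 a7
  rw [a1, a7, Pi.sub_apply, a2, Pi.sub_apply, a3, Pi.smul_apply, a4, a5, a6, smul_eq_mul]
  ring

/-- exponential families of multiplication operators are holomorphic -/
theorem Mul_exp_diff {φ : ℂ → ℂ} (hφ : ContinuousOn φ D.cU) :
    Differentiable ℂ (fun s : ℂ => D.Mul (fun z => Complex.exp (s * φ z))) := by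
  intro s
  obtain ⟨M₀, hM₀⟩ := D.cU_compact.exists_bound_of_continuousOn hφ
  set M : ℝ := max M₀ 0 + 1 with hM
  have hM1 : 0 < M := by positivity
  have hMb : ∀ z ∈ D.cU, ‖φ z‖ ≤ M := fun z hz =>
    (hM₀ z hz).trans ((le_max_left _ _).trans (by linarith))
  have hc : ∀ s : ℂ, ContinuousOn (fun z => Complex.exp (s * φ z)) D.cU := fun s =>
    Complex.continuous_exp.comp_continuousOn (continuousOn_const.mul hφ)
  have hd : ContinuousOn (fun z => φ z * Complex.exp (s * φ z)) D.cU := hφ.mul (hc s)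
  have hder : HasDerivAt (fun s : ℂ => D.Mul (fun z => Complex.exp (s * φ z)))
      (D.Mul (fun z => φ z * Complex.exp (s * φ z))) s := by
    rw [hasDerivAt_iff_isLittleO_nhds_zero]
    have hbig : (fun h : ℂ => D.Mul (fun z => Complex.exp ((s + h) * φ z)) -
        D.Mul (fun z => Complex.exp (s * φ z)) -
        h • D.Mul (fun z => φ z * Complex.exp (s * φ z))) =O[𝓝 0] fun h : ℂ => ‖h‖ ^ 2 := by
      refine IsBigO.of_bound (Real.exp (‖s‖ * M) * M ^ 2) ?_
      have hev : ∀ᶠ h : ℂ in 𝓝 0, ‖h‖ * M < 1 := by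
        have : Continuous fun h : ℂ => ‖h‖ * M := by fun_prop
        have h2 := this.tendsto 0
        simp only [norm_zero, zero_mul] at h2
        exact h2.eventually_lt_const one_pos
      filter_upwards [hev] with h hh
      rw [Mul_comb D (hc (s + h)) (hc s) hd h]
      have hcc : ContinuousOn (fun z => Complex.exp ((s + h) * φ z) - Complex.exp (s * φ z) -
          h * (φ z * Complex.exp (s * φ z))) D.cU :=
        ((hc (s + h)).sub (hc s)).sub (continuousOn_const.mul hd)
      rw [Real.norm_of_nonneg (by positivity)]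
      refine D.Mul_norm_le hcc (fun z hz => ?_) (by positivity)
      have hzc := hMb z (D.U_subset_cU hz)
      have e1 : Complex.exp ((s + h) * φ z) - Complex.exp (s * φ z) -
          h * (φ z * Complex.exp (s * φ z)) =
          Complex.exp (s * φ z) * (Complex.exp (h * φ z) - 1 - h * φ z) := by
        rw [add_mul, Complex.exp_add]
        ring
      have e2 : ‖h * φ z‖ ≤ ‖h‖ * M := by
        rw [norm_mul]
        gcongr
      have e3 : ‖Complex.exp (s * φ z)‖ ≤ Real.exp (‖s‖ * M) := by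
        rw [Complex.norm_exp]
        refine Real.exp_le_exp.2 ((Complex.re_le_norm _).trans ?_)
        rw [norm_mul]
        gcongr
      rw [e1, norm_mul]
      calc ‖Complex.exp (s * φ z)‖ * ‖Complex.exp (h * φ z) - 1 - h * φ z‖
          ≤ Real.exp (‖s‖ * M) * ‖h * φ z‖ ^ 2 := by
            gcongr
            exact Complex.norm_exp_sub_one_sub_id_le (e2.trans hh.le)
        _ ≤ Real.exp (‖s‖ * M) * (‖h‖ * M) ^ 2 := by gcongr
        _ = Real.exp (‖s‖ * M) * M ^ 2 * ‖h‖ ^ 2 := by ring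
    refine hbig.trans_isLittleO ?_
    have h1 : (fun h : ℂ => ‖h‖ ^ 2) =o[𝓝 0] fun h : ℂ => ‖h‖ ^ 1 :=
      isLittleO_norm_pow_norm_pow one_lt_two
    simp only [pow_one] at h1
    exact h1.trans_isBigO (isBigO_refl _ _).norm_left
  exact hder.differentiableAt

theorem Toe_one : D.Toe (fun _ => 1) = 1 := by
  ext1 f
  have h1 : D.Mul (fun _ => 1) (f : D.L2) = (f : D.L2) := by
    apply Lp.ext
    filter_upwards [D.Mul_coe (b := fun _ => 1) continuousOn_const (f : D.L2)] with z hz
    rw [hz, one_mul]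
  have h2 : D.Toe (fun _ => 1) f = D.P (D.Mul (fun _ => 1) (f : D.L2)) := rfl
  rw [h2, h1]
  exact Submodule.orthogonalProjectionOnto_mem_subspace_eq_self (K := D.Berg) f

theorem comp_diff {H G : Type*} [NormedAddCommGroup H] [NormedSpace ℂ H]
    [NormedAddCommGroup G] [NormedSpace ℂ G] {M : ℂ → (G →L[ℂ] G)} (hM : Differentiable ℂ M)
    (P : G →L[ℂ] H) (i : H →L[ℂ] G) : Differentiable ℂ fun s => P ∘L M s ∘L i :=
  (differentiable_const P).clm_comp (hM.clm_comp (differentiable_const i))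

theorem mulsub_diff {n : ℕ} {H : Type*} [NormedAddCommGroup H] [NormedSpace ℂ H]
    {Tau : (Fin n → ℂ) → (H →L[ℂ] H)} (h1 : Differentiable ℂ Tau) (om : Fin n → ℂ)
    {B : ℂ → (H →L[ℂ] H)} (hB : Differentiable ℂ B) :
    Differentiable ℂ fun s => Tau (fun j => Complex.exp (s * om j)) * B s - 1 := by
  have h5 : Differentiable ℂ fun s : ℂ => (fun j => Complex.exp (s * om j) : Fin n → ℂ) :=
    differentiable_pi.2 fun j => (differentiable_id.mul_const (om j)).cexp
  exact ((h1.comp h5).clm_comp hB).sub_const 1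

/-- exponential families of Toeplitz operators are holomorphic -/
theorem Toe_exp_diff {φ : ℂ → ℂ} (hφ : ContinuousOn φ D.cU) :
    Differentiable ℂ (fun s : ℂ => D.Toe (fun z => Complex.exp (s * φ z))) :=
  comp_diff (H := D.Berg) (G := D.L2) (Mul_exp_diff D hφ) D.P D.Berg.subtypeL

/-- the compact set carrying the derivatives of the cutoff function `l` -/
def chiL (τ : ℝ) (l : Option (Fin k)) : Set ℂ :=
  D.kap l '' {z | 1 + τ / 3 ≤ ‖z‖ ∧ ‖z‖ ≤ 1 + 2 * τ / 3}

theorem chiL_sub (hτ : D.Good τ) {z : ℂ} (hz : 1 - 2 * τ / 3 ≤ ‖z‖ ∧ ‖z‖ ≤ 1 + 2 * τ / 3) :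
    z ∈ ann2 D.ρ := by
  have hτ0 := hτ.pos
  have hτρ := hτ.lt_rho
  refine ⟨?_, by linarith [hz.2]⟩
  have h3 : D.ρ⁻¹ < (1 + 3 * τ)⁻¹ := inv_strictAnti₀ (by positivity) hτρ
  refine h3.trans_le (le_trans ?_ hz.1)
  rw [inv_le_iff_one_le_mul₀ (by positivity)]
  have := hτ.lt_half
  nlinarith

theorem chiL_compact (hτ : D.Good τ) (l : Option (Fin k)) :
    IsCompact (chiL D τ l) ∧ chiL D τ l ⊆ D.U := by
  have hτ0 := hτ.pos
  constructor
  · refine IsCompact.image_of_continuousOn ?_ ((D.holo l).continuousOn.mono fun z hz =>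
      chiL_sub D hτ ⟨by linarith [hz.1], hz.2⟩)
    refine (isCompact_closedBall (0 : ℂ) (1 + 2 * τ / 3)).of_isClosed_subset ?_ ?_
    · exact (isClosed_le continuous_const continuous_norm).inter
        (isClosed_le continuous_norm continuous_const)
    · intro z hz
      simpa using hz.2
  · rintro _ ⟨z, hz, rfl⟩
    exact (D.mem_iff l z (chiL_sub D hτ ⟨by linarith [hz.1], hz.2⟩)).2 (by linarith [hz.1])

/-- the cutoff function is locally constant elsewhere in the domain -/
theorem chi_loc_const (hτ : D.Good τ) (l : Option (Fin k)) {z : ℂ} (hz : z ∈ D.U)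
    (hzL : z ∉ chiL D τ l) : ∃ c : ℝ, ∀ᶠ w in 𝓝 z, D.chi τ l w = c := by
  have hτ0 := hτ.pos
  by_cases h : z ∈ tsupport (D.chi τ l)
  · obtain ⟨w, hw, rfl⟩ := (chi_tsupport D hτ l).2.1 h
    have hw2 := chiL_sub D hτ hw
    have h1 : 1 < ‖w‖ := (D.mem_iff l w hw2).1 hz
    have h2 : ‖w‖ < 1 + τ / 3 := by
      by_contra h2
      push Not at h2
      exact hzL ⟨w, ⟨h2, hw.2⟩, rfl⟩
    refine ⟨1, ?_⟩
    have hop : IsOpen (D.kap l '' (ann2 D.ρ ∩ {u : ℂ | 1 - τ / 3 < ‖u‖ ∧ ‖u‖ < 1 + τ / 3})) := by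
      refine D.isOpen_kap ((Pool.Agent.EN.isOpen_ann2' _).inter ?_) inter_subset_left
      exact (isOpen_lt continuous_const continuous_norm).inter
        (isOpen_lt continuous_norm continuous_const)
    filter_upwards [hop.mem_nhds ⟨w, ⟨hw2, by linarith, h2⟩, rfl⟩] with u hu
    obtain ⟨v, hv, rfl⟩ := hu
    exact chi_one D hτ l hv.1 hv.2.1.le hv.2.2.le
  · refine ⟨0, ?_⟩
    filter_upwards [(isClosed_tsupport (D.chi τ l)).isOpen_compl.mem_nhds h] with w hw
    exact image_eq_zero_of_notMem_tsupport hw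

/-- along complex lines, `Tau` is invertible up to compact operators -/
theorem tau_line (hτ : D.Good τ) {z₀ : ℂ} (hz₀ : z₀ ∈ D.U)
    {Tau : (Fin k → ℂ) → (D.Berg →L[ℂ] D.Berg)} (h1 : Differentiable ℂ Tau)
    (h2 : Tau (fun _ => 1) = 1) (h3 : ∀ t f, Tau t f - f ∈ X0 D z₀)
    (hfin : FiniteDimensional ℂ (X0 D z₀)ᗮ)
    (h4 : ∀ (t : Fin k → ℂ) (f : D.Berg) (g : ℂ → ℂ), D.Hol2 g →
        ((f : D.L2) : ℂ → ℂ) =ᵐ[volume.restrict D.U] g → ∀ a, D.TF z₀ a → ∀ a' : D.Berg,
        ((a' : D.L2) : ℂ → ℂ) =ᵐ[volume.restrict D.U] deriv a →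
        inner ℂ a' (Tau t f) = D.Lt τ t g a) (om : Fin k → ℂ) :
    ∃ (B K : ℂ → (D.Berg →L[ℂ] D.Berg)), Differentiable ℂ B ∧ Differentiable ℂ K ∧
      K 0 = 0 ∧ B 0 = 1 ∧ (∀ s, IsCompactOperator (K s)) ∧
      ∀ s, Tau (fun j => Complex.exp (s * om j)) * B s = 1 + K s := by
  set φ : ℂ → ℂ := fun z => ∑ j, om j * (D.chi τ (some j) z : ℂ) with hφ
  have hχ : ∀ l, ContDiff ℝ (⊤ : ℕ∞) (fun w => (D.chi τ l w : ℂ)) := fun l =>
    Complex.ofRealCLM.contDiff.comp (chi_smooth D hτ l)
  have hφs : ContDiff ℝ (⊤ : ℕ∞) φ := ContDiff.sum fun j _ => contDiff_const.mul (hχ (some j))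
  have hSs : ∀ s : ℂ, ContDiff ℝ (⊤ : ℕ∞) (fun z => Complex.exp (s * φ z)) := fun s =>
    (contDiff_const.mul hφs).cexp
  have hone : D.Toe (fun _ => 1) = 1 := Toe_one D
  have hcomp : ∀ s : ℂ, IsCompactOperator (Tau (fun j => Complex.exp (s * om j)) -
      D.Toe (fun z => Complex.exp (s * φ z)) : D.Berg →L[ℂ] D.Berg) := by
    intro s
    obtain ⟨J, hJ⟩ := exists_J D hz₀
    set S : ℂ → ℂ := fun z => Complex.exp (s * φ z) with hS
    have hβc : ContinuousOn (dzb S) D.cU :=
      ((dz_contDiffOn isOpen_univ (hSs s).contDiffOn).2.continuousOn).mono (subset_univ _)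
    have hN : IsCompactOperator (D.Mul (dzb S) ∘L D.Berg.subtypeL) := by
      refine mul_compact D hβc (L := ⋃ j, chiL D τ (some j))
        (isCompact_iUnion fun j => (chiL_compact D hτ (some j)).1)
        (iUnion_subset fun j => (chiL_compact D hτ (some j)).2) ?_
      intro z hz hzL
      rw [mem_iUnion, not_exists] at hzL
      choose c hc using fun j => chi_loc_const D hτ (some j) hz (hzL j)
      have h5 : S =ᶠ[𝓝 z] fun _ => Complex.exp (s * ∑ j, om j * (c j : ℂ)) := by
        filter_upwards [eventually_all.2 hc] with w hw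
        simp only [hS, hφ, hw]
      rw [(dz_congr h5).2, dz_const.2]
    refine compact_split (H := D.Berg) (G := D.L2) (X0 D z₀) (X0pre D z₀) rfl hfin
      (D.Berg.subtypeL ∘L J) (D.Mul (dzb S) ∘L D.Berg.subtypeL) hN _ ?_
    rintro x ⟨a, ha, hx⟩ f
    obtain ⟨g, hg, hfg⟩ := berg_rep D f.2
    have hSc : ContinuousOn S D.cU := (hSs s).continuous.continuousOn
    have e1 : inner ℂ (x : D.Berg) (Tau (fun j => Complex.exp (s * om j)) f) =
        ∫ z in D.U, g z * dzb (fun w => S w * conj (a w)) z := by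
      rw [h4 _ f g hg hfg a ha x hx]
      obtain ⟨δ, hδ, hd⟩ := ha.ex
      refine Lt_boundary D hτ _ hg (D.Ue_open δ) (D.cU_subset_Ue hδ) hd (hSs s).contDiffOn ?_ ?_
      · intro z hz
        have h6 : ∀ j : Fin k, D.chi τ (some j) z = 0 := fun j =>
          (chi_zero_near D hτ (l := none) (l' := some j) (by simp) hz).self_of_nhds
        simp [hS, hφ, h6]
      · intro j z hz
        have h6 : ∀ i : Fin k, D.chi τ (some i) z = if i = j then 1 else 0 := by
          intro i
          by_cases hij : i = j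
          · subst hij
            simpa using (chi_near D hτ.pos (some i) hz).self_of_nhds
          · have h7 : some j ≠ some i := fun h => hij (Option.some.inj h).symm
            simpa [hij] using (chi_zero_near D hτ h7 hz).self_of_nhds
        have h7 : φ z = om j := by
          simp only [hφ]
          rw [Finset.sum_eq_single j]
          · rw [h6 j, if_pos rfl, Complex.ofReal_one, mul_one]
          · intro i _ hij
            rw [h6 i, if_neg hij, Complex.ofReal_zero, mul_zero]
          · intro hn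
            exact absurd (Finset.mem_univ j) hn
        simp only [hS, h7]
    have e2 : inner ℂ (x : D.Berg) (D.Toe S f) = ∫ z in D.U, S z * g z * conj (deriv a z) :=
      toe_pair D hSc (x : D.Berg) f hx hfg
    have e3 : inner ℂ (J x : D.L2) (D.Mul (dzb S) (f : D.L2)) =
        ∫ z in D.U, dzb S z * g z * conj (a z) := by
      refine L2_inner D _ _ (hJ a ha x hx) ?_
      filter_upwards [D.Mul_coe hβc (f : D.L2), hfg] with z a1 a2
      rw [a1, a2]
    have e4 : inner ℂ (x : D.Berg) ((Tau (fun j => Complex.exp (s * om j)) - D.Toe S) f) =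
        inner ℂ (x : D.Berg) (Tau (fun j => Complex.exp (s * om j)) f) -
          inner ℂ (x : D.Berg) (D.Toe S f) := inner_sub_right _ _ _
    have e5 : inner ℂ ((D.Berg.subtypeL ∘L J) x) ((D.Mul (dzb S) ∘L D.Berg.subtypeL) f) =
        inner ℂ (J x : D.L2) (D.Mul (dzb S) (f : D.L2)) := rfl
    rw [e4, e5, e1, e2, e3, ← integral_sub
      (ta_integrable D isOpen_univ (subset_univ _) (hSs s).contDiffOn hg ha)]
    · refine setIntegral_congr_fun D.U_open.measurableSet fun z hz => ?_
      have h8 : DifferentiableAt ℝ S z := (hSs s).contDiffAt.differentiableAt (by simp)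
      have h10 := dzb_mul_conj h8 (tf_diffAt D ha z hz)
      change g z * dzb (fun w => S w * conj (a w)) z - S z * g z * conj (deriv a z) =
        dzb S z * g z * conj (a z)
      rw [h10]
      ring
    · have h9 := cont_mul_integrable D hSc hg.memLp (memLp_conj D (tf_hol2 D ha).2.memLp)
      refine h9.congr (ae_of_all _ fun z => ?_)
      ring
  have hBd : Differentiable ℂ fun s : ℂ => D.Toe (fun z => Complex.exp (s * (-φ z))) :=
    Toe_exp_diff D (φ := fun z => -φ z) hφs.continuous.neg.continuousOn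
  have hBK : Differentiable ℂ fun s : ℂ => Tau (fun j => Complex.exp (s * om j)) *
      D.Toe (fun z => Complex.exp (s * (-φ z))) - 1 :=
    mulsub_diff (H := D.Berg) h1 om hBd
  refine ⟨fun s => D.Toe (fun z => Complex.exp (s * (-φ z))),
    fun s => Tau (fun j => Complex.exp (s * om j)) * D.Toe (fun z => Complex.exp (s * (-φ z))) - 1,
    hBd, hBK, ?_, ?_, ?_, fun s => ?_⟩
  · simp only [zero_mul, Complex.exp_zero, hone, h2]
    rw [mul_one, sub_self]
  · simp only [zero_mul, Complex.exp_zero, hone]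
  · intro s
    set S : ℂ → ℂ := fun z => Complex.exp (s * φ z) with hS
    set S' : ℂ → ℂ := fun z => Complex.exp (s * (-φ z)) with hS'
    have hS's : ContDiff ℝ (⊤ : ℕ∞) S' := (contDiff_const.mul hφs.neg).cexp
    have h5 := toe_mul_compact D isOpen_univ (subset_univ _) (hSs s).contDiffOn hS's.contDiffOn
    have h6 : (fun z => S z * S' z) = fun _ => 1 := by
      funext z
      simp only [hS, hS']
      rw [← Complex.exp_add, mul_neg, add_neg_cancel, Complex.exp_zero]
    have h7 : IsCompactOperator (D.Toe S ∘L D.Toe S' - 1 : D.Berg →L[ℂ] D.Berg) := by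
      have h8 : D.Toe (fun z => S z * S' z) = 1 := by rw [h6, hone]
      rw [← h8]
      exact h5
    have h8 := ((hcomp s).comp_clm (D.Toe S')).add h7
    have h9 : ⇑(Tau (fun j => Complex.exp (s * om j)) * D.Toe S' - 1 : D.Berg →L[ℂ] D.Berg) =
        (⇑(Tau (fun j => Complex.exp (s * om j)) - D.Toe S : D.Berg →L[ℂ] D.Berg) ∘ ⇑(D.Toe S')) +
          ⇑(D.Toe S ∘L D.Toe S' - 1 : D.Berg →L[ℂ] D.Berg) := by
      funext f
      change Tau (fun j => Complex.exp (s * om j)) (D.Toe S' f) - f =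
        (Tau (fun j => Complex.exp (s * om j)) (D.Toe S' f) - D.Toe S (D.Toe S' f)) +
          (D.Toe S (D.Toe S' f) - f)
      abel
    rw [h9]
    exact h8
  · exact (add_sub_cancel _ _).symm

end

end Pool.Agent.KA
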