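import Pool.Agent.Helper9.KA.VS
import Pool.Agent.Helper9.KA.D4
import Pool.Agent.Helper9.KA.TC
import Pool.Agent.Helper9.KA.FR

set_option autoImplicit false

open MeasureTheory Set Filter Asymptotics Topology Metric
open scoped ComplexConjugate ENNReal

namespace Pool.Agent.KA

open Pool.Agent.Helper7.KE hiding HM PS Bv sfun FF tt lS
open Pool.Agent.EN (AJ ann ann2)

section LFaux

theorem LF_det_diff {n : Type*} [Fintype n] [DecidableEq n] {A : ℂ → Matrix n n ℂ} {S : Set ℂ}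
    (hA : ∀ i j, DifferentiableOn ℂ (fun s => A s i j) S) :
    DifferentiableOn ℂ (fun s => (A s).det) S := by
  simp_rw [Matrix.det_apply]
  refine DifferentiableOn.fun_sum fun σ _ => ?_
  refine DifferentiableOn.const_smul ?_ _
  exact DifferentiableOn.fun_finsetProd fun i _ => hA _ _

theorem LF_adj_diff {n : Type*} [Fintype n] [DecidableEq n] {A : ℂ → Matrix n n ℂ} {S : Set ℂ}
    (hA : ∀ i j, DifferentiableOn ℂ (fun s => A s i j) S) (i j : n) :
    DifferentiableOn ℂ (fun s => (A s).adjugate i j) S := by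
  simp_rw [Matrix.adjugate_apply]
  refine LF_det_diff fun i' j' => ?_
  simp_rw [Matrix.updateRow_apply]
  by_cases h : i' = j
  · simp_rw [if_pos h]
    exact differentiableOn_const _
  · simp_rw [if_neg h]
    exact hA i' j'

end LFaux

section
variable {k : ℕ} (D : AJ k) {τ : ℝ}

/-- representatives of finite linear combinations in the Bergman space -/
theorem LF_sum_rep {ι : Type*} (s : Finset ι) (c : ι → ℂ) (f : ι → D.Berg) (G : ι → ℂ → ℂ)
    (h : ∀ i ∈ s, ((f i : D.L2) : ℂ → ℂ) =ᵐ[volume.restrict D.U] G i) :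
    (((∑ i ∈ s, c i • f i : D.Berg) : D.L2) : ℂ → ℂ) =ᵐ[volume.restrict D.U]
      fun z => ∑ i ∈ s, c i * G i z := by
  classical
  induction s using Finset.induction_on with
  | empty =>
    simp only [Finset.sum_empty, Submodule.coe_zero]
    exact Lp.coeFn_zero _ _ _
  | insert a s ha ih =>
    rw [Finset.sum_insert ha, Submodule.coe_add, Submodule.coe_smul]
    have h1 := Lp.coeFn_add (c a • (f a : D.L2)) ((∑ i ∈ s, c i • f i : D.Berg) : D.L2)
    have h2 := Lp.coeFn_smul (c a) (f a : D.L2)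
    filter_upwards [h1, h2, ih fun i hi => h i (Finset.mem_insert_of_mem hi),
      h a (Finset.mem_insert_self a s)] with z e1 e2 e3 e4
    rw [e1, Pi.add_apply, e2, Pi.smul_apply, e3, e4, Finset.sum_insert ha, smul_eq_mul]

/-- frames along complex lines -/
theorem line_frames (hτ : D.Good τ) {z₀ : ℂ} (hz₀ : z₀ ∈ D.U) :
    ∃ δ > 0, δ ≤ τ ∧
    ∀ (om : Fin k → ℂ) (T : ℝ), 0 < T → ∃ (d : ℂ → ℂ) (g : Fin k → ℂ → ℂ → ℂ),
      DifferentiableOn ℂ d (ball 0 T) ∧ d 0 ≠ 0 ∧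
      (∀ b, ContinuousOn (fun p : ℂ × ℂ => g b p.1 p.2) (ball 0 T ×ˢ D.Ue δ)) ∧
      (∀ b, ∀ s ∈ ball (0 : ℂ) T, DifferentiableOn ℂ (g b s) (D.Ue δ)) ∧
      (∀ b, ∀ z ∈ D.Ue δ, DifferentiableOn ℂ (fun s => g b s z) (ball 0 T)) ∧
      (∀ b, ∀ s ∈ ball (0 : ℂ) T, D.VV τ z₀ (fun j => Complex.exp (s * om j)) (g b s)) ∧
      (∀ b j, ∀ s ∈ ball (0 : ℂ) T,
        D.res τ j (g b s) = if j = b then d s else 0) := by
  obtain ⟨δ1, hδ1, hδ1τ, ⟨h⟩⟩ := exists_HM D hτ
  obtain ⟨hfin, u, hu, hur, -⟩ := orth_findim D hτ hδ1 hδ1τ h hz₀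
  choose Λ hΛ using fun j => res_functional D hτ j
  obtain ⟨δ, hδ, hδτ, hext⟩ := ext_family D hτ hz₀
  obtain ⟨Tau, hTd, hT1, hTX, hT⟩ := exists_Tau D hτ hz₀
  refine ⟨δ, hδ, hδτ, fun om T hT0 => ?_⟩
  obtain ⟨B, K, hB, hK, hK0, hB0, hKc, hBK⟩ := tau_line D hτ hz₀ hTd hT1 hTX hfin hT om
  obtain ⟨d₁, R, hd₁, hR, hd0, hKR⟩ := fredholm_family hK hKc hK0 hT0
  have hUV : D.U ⊆ D.Ue δ := D.U_subset_Ue δ
  -- the family of elements of the Bergman space
  set f : Fin k → ℂ → D.Berg := fun b s => B s (R s (u b)) with hf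
  have hfd : ∀ b, DifferentiableOn ℂ (f b) (ball 0 T) := fun b =>
    hB.differentiableOn.clm_apply (hR.clm_apply (differentiableOn_const _))
  have hTf : ∀ b, ∀ s ∈ ball (0 : ℂ) T,
      Tau (fun j => Complex.exp (s * om j)) (f b s) = d₁ s • u b := by
    intro b s hs
    have e1 : Tau (fun j => Complex.exp (s * om j)) (f b s) =
        (Tau (fun j => Complex.exp (s * om j)) * B s) (R s (u b)) := rfl
    have e2 : (1 + K s) (R s (u b)) = ((1 + K s) * R s) (u b) := rfl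
    rw [e1, hBK, e2, hKR s hs]
    simp
  have hVV : ∀ (s : ℂ) (F : D.Berg) (g : ℂ → ℂ), D.Hol2 g →
      ((F : D.L2) : ℂ → ℂ) =ᵐ[volume.restrict D.U] g →
      Tau (fun j => Complex.exp (s * om j)) F ∈ (X0 D z₀)ᗮ →
      D.VV τ z₀ (fun j => Complex.exp (s * om j)) g := by
    intro s F g hg hFg hmem
    exact ((VV_iff_Tau D (fun f g hg hfg a ha a' ha' => hT _ f g hg hfg a ha a' ha') F hg
      hFg).1).2 hmem
  have hfmem : ∀ b, ∀ s ∈ ball (0 : ℂ) T,
      Tau (fun j => Complex.exp (s * om j)) (f b s) ∈ (X0 D z₀)ᗮ := by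
    intro b s hs
    rw [hTf b s hs]
    exact Submodule.smul_mem _ _ (hu b)
  choose G hG1 hG2 hG3 hG4 hG5 using fun b =>
    hext ℂ (ball (0 : ℂ) T) (fun s j => Complex.exp (s * om j)) (f b) isOpen_ball
      (by
        refine differentiableOn_pi.2 fun j => ?_
        exact (Complex.differentiable_exp.comp (differentiable_id.mul_const _)).differentiableOn)
      (fun s _ j => Complex.exp_ne_zero _) (hfd b)
      (fun s hs => by
        obtain ⟨g, hg, hgr⟩ := berg_rep D (f b s).2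
        exact ⟨g, hgr, hVV s (f b s) g hg hgr (hfmem b s hs)⟩)
  -- the residue matrix
  set M : ℂ → Matrix (Fin k) (Fin k) ℂ := fun s => Matrix.of fun j b => Λ j (f b s) with hM
  have hMd : ∀ j b, DifferentiableOn ℂ (fun s => M s j b) (ball 0 T) := fun j b =>
    (Λ j).differentiable.comp_differentiableOn (hfd b)
  have had : ∀ i j, DifferentiableOn ℂ (fun s => (M s).adjugate i j) (ball 0 T) := fun i j =>
    LF_adj_diff hMd i j
  set g : Fin k → ℂ → ℂ → ℂ := fun b s z => ∑ b', (M s).adjugate b' b * G b' s z with hg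
  set F : Fin k → ℂ → D.Berg := fun b s => ∑ b', (M s).adjugate b' b • f b' s with hF
  have hFg : ∀ b, ∀ s ∈ ball (0 : ℂ) T,
      ((F b s : D.L2) : ℂ → ℂ) =ᵐ[volume.restrict D.U] g b s := fun b s hs =>
    LF_sum_rep D Finset.univ (fun b' => (M s).adjugate b' b) (fun b' => f b' s)
      (fun b' => G b' s) fun b' _ => hG4 b' s hs
  have hgd : ∀ b, ∀ s ∈ ball (0 : ℂ) T, DifferentiableOn ℂ (g b s) (D.Ue δ) := fun b s hs =>
    DifferentiableOn.fun_sum fun b' _ => (hG2 b' s hs).const_mul _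
  have hgH : ∀ b, ∀ s ∈ ball (0 : ℂ) T, D.Hol2 (g b s) := fun b s hs =>
    ⟨(hgd b s hs).mono hUV, (memLp_congr_ae (hFg b s hs)).1 (Lp.memLp _)⟩
  refine ⟨fun s => (M s).det, g, LF_det_diff hMd, ?_, fun b => ?_, hgd, fun b z hz => ?_,
    fun b s hs => ?_, fun b j s hs => ?_⟩
  · -- the determinant at `0`
    have h0 : (0 : ℂ) ∈ ball (0 : ℂ) T := mem_ball_self hT0
    have hR0 : R 0 = d₁ 0 • (1 : D.Berg →L[ℂ] D.Berg) := by
      have := hKR 0 h0
      rwa [hK0, add_zero, one_mul] at this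
    have hM0 : M 0 = d₁ 0 • (Matrix.of fun j b => ((h.Rm j b : ℝ) : ℂ)) := by
      ext j b
      have hv : D.Hol2 (h.v b) :=
        hol2_of_nhds D (D.Ue_open δ1) (D.cU_subset_Ue hδ1) (h.hol b)
      have e1 : Λ j (u b) = (h.Rm j b : ℂ) := by
        rw [hΛ j (u b) (h.v b) hv (hur b), h.res]
      show Λ j (B 0 (R 0 (u b))) = _
      rw [hB0, hR0]
      simp [e1]
    show (M 0).det ≠ 0
    rw [hM0, Matrix.det_smul]
    refine mul_ne_zero (pow_ne_zero _ hd0) ?_
    have e2 : (Matrix.of fun j b => ((h.Rm j b : ℝ) : ℂ)) = Complex.ofRealHom.mapMatrix h.Rm := by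
      ext j b
      simp
    rw [e2, ← RingHom.map_det]
    simpa using h.det_ne
  · refine continuousOn_finsetSum _ fun b' _ => ContinuousOn.mul ?_ (hG1 b')
    exact (had b' b).continuousOn.comp continuousOn_fst fun p hp => hp.1
  · exact DifferentiableOn.fun_sum fun b' _ => (had b' b).mul (hG3 b' z hz)
  · refine hVV s (F b s) (g b s) (hgH b s hs) (hFg b s hs) ?_
    simp only [hF, map_sum, map_smul]
    exact Submodule.sum_mem _ fun b' _ => Submodule.smul_mem _ _ (hfmem b' s hs)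
  · rw [← hΛ j (F b s) (g b s) (hgH b s hs) (hFg b s hs)]
    simp only [hF, map_sum, map_smul, smul_eq_mul]
    have e1 : ∑ b', (M s).adjugate b' b * Λ j (f b' s) = (M s * (M s).adjugate) j b := by
      rw [Matrix.mul_apply]
      exact Finset.sum_congr rfl fun b' _ => mul_comm _ _
    rw [e1, Matrix.mul_adjugate]
    simp [Matrix.one_apply]

end

end Pool.Agent.KA
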