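import Pool.Agent.Helper9.KA.NF
import Pool.Agent.Helper9.KA.LF

set_option autoImplicit false

open MeasureTheory Set Filter Asymptotics Topology Metric
open scoped ComplexConjugate ENNReal

namespace Pool.Agent.KA

open Pool.Agent.Helper7.KE hiding HM PS Bv sfun FF tt lS
open Pool.Agent.EN (AJ ann ann2)

section
variable {k : ℕ} (D : AJ k) {τ : ℝ}

/-- frames near `t = 1` and along complex lines -/
theorem frames (hτ : D.Good τ) {z₀ : ℂ} (hz₀ : z₀ ∈ D.U) :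
    ∃ δ > 0, δ ≤ τ ∧
    (∃ ε > 0, ε < 1 ∧ ∃ C : ℝ, ∃ g : Fin k → (Fin k → ℂ) → ℂ → ℂ,
      (∀ b, ContinuousOn (fun p : (Fin k → ℂ) × ℂ => g b p.1 p.2)
        ({t | ∀ j, ‖t j - 1‖ < ε} ×ˢ D.Ue δ)) ∧
      (∀ b, ∀ t ∈ {t : Fin k → ℂ | ∀ j, ‖t j - 1‖ < ε}, DifferentiableOn ℂ (g b t) (D.Ue δ)) ∧
      (∀ b, ∀ z ∈ D.Ue δ, DifferentiableOn ℂ (fun t => g b t z) {t | ∀ j, ‖t j - 1‖ < ε}) ∧
      (∀ b, ∀ t ∈ {t : Fin k → ℂ | ∀ j, ‖t j - 1‖ < ε}, D.VV τ z₀ t (g b t)) ∧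
      (∀ b j, ∀ t ∈ {t : Fin k → ℂ | ∀ j, ‖t j - 1‖ < ε},
        D.res τ j (g b t) = if j = b then 1 else 0) ∧
      (∀ t ∈ {t : Fin k → ℂ | ∀ j, ‖t j - 1‖ < ε}, ∀ f : ℂ → ℂ, D.Hol2 f → ∀ M : ℝ, 0 ≤ M →
        D.LtBd τ z₀ t f M →
        Real.sqrt (∫ z in D.U, ‖f z - ∑ b, D.res τ b f * g b t z‖ ^ 2) ≤ C * M)) ∧
    (∀ (om : Fin k → ℂ) (T : ℝ), 0 < T → ∃ (d : ℂ → ℂ) (g : Fin k → ℂ → ℂ → ℂ),
      DifferentiableOn ℂ d (ball 0 T) ∧ d 0 ≠ 0 ∧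
      (∀ b, ContinuousOn (fun p : ℂ × ℂ => g b p.1 p.2) (ball 0 T ×ˢ D.Ue δ)) ∧
      (∀ b, ∀ s ∈ ball (0 : ℂ) T, DifferentiableOn ℂ (g b s) (D.Ue δ)) ∧
      (∀ b, ∀ z ∈ D.Ue δ, DifferentiableOn ℂ (fun s => g b s z) (ball 0 T)) ∧
      (∀ b, ∀ s ∈ ball (0 : ℂ) T, D.VV τ z₀ (fun j => Complex.exp (s * om j)) (g b s)) ∧
      (∀ b j, ∀ s ∈ ball (0 : ℂ) T,
        D.res τ j (g b s) = if j = b then d s else 0)) := by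
  obtain ⟨δ₁, hδ₁, h₁, ε, hε, hε1, C, g, a1, a2, a3, a4, a5, a6⟩ := near_frames D hτ hz₀
  obtain ⟨δ₂, hδ₂, h₂, H⟩ := line_frames D hτ hz₀
  have s1 : D.Ue (min δ₁ δ₂) ⊆ D.Ue δ₁ := D.Ue_mono (min_le_left _ _)
  have s2 : D.Ue (min δ₁ δ₂) ⊆ D.Ue δ₂ := D.Ue_mono (min_le_right _ _)
  refine ⟨min δ₁ δ₂, lt_min hδ₁ hδ₂, (min_le_left _ _).trans h₁,
    ⟨ε, hε, hε1, C, g, ?_, ?_, ?_, a4, a5, a6⟩, ?_⟩
  · exact fun b => (a1 b).mono (prod_mono_right s1)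
  · exact fun b t ht => (a2 b t ht).mono s1
  · exact fun b z hz => a3 b z (s1 hz)
  · intro om T hT
    obtain ⟨d, g', b1, b2, b3, b4, b5, b6, b7⟩ := H om T hT
    refine ⟨d, g', b1, b2, ?_, ?_, ?_, b6, b7⟩
    · exact fun b => (b3 b).mono (prod_mono_right s2)
    · exact fun b s hs => (b4 b s hs).mono s2
    · exact fun b z hz => b5 b z (s2 hz)

end

end Pool.Agent.KA
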