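import Pool.Agent.Helper9.KA.C2
import Pool.Agent.Helper9.KA.A5a

set_option autoImplicit false

open MeasureTheory Set Filter Asymptotics Topology Metric
open scoped ComplexConjugate ENNReal

namespace Pool.Agent.KA

open Pool.Agent.Helper7.KE hiding HM PS Bv sfun FF tt lS
open Pool.Agent.EN (AJ)

namespace GradProj

theorem diff_real {F : ℂ → ℝ} (hF : ContDiff ℝ (⊤ : ℕ∞) F) (z : ℂ) :
    DifferentiableAt ℝ F z := hF.differentiable (by simp) z

theorem smoothC {F : ℂ → ℝ} (hF : ContDiff ℝ (⊤ : ℕ∞) F) :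
    ContDiff ℝ (⊤ : ℕ∞) (fun z => (F z : ℂ)) := Complex.ofRealCLM.contDiff.comp hF

theorem smooth_of_test {V : Set ℂ} {ψ : ℂ → ℝ} (hψ : IsTest V (fun z => (ψ z : ℂ))) :
    ContDiff ℝ (⊤ : ℕ∞) ψ := by
  have := Complex.reCLM.contDiff.comp hψ.smooth
  simpa [Function.comp_def] using this

theorem smooth_dz {F : ℂ → ℂ} (hF : ContDiff ℝ (⊤ : ℕ∞) F) :
    ContDiff ℝ (⊤ : ℕ∞) (dz F) ∧ ContDiff ℝ (⊤ : ℕ∞) (dzb F) := by
  have := dz_contDiffOn isOpen_univ hF.contDiffOn
  exact ⟨contDiffOn_univ.1 this.1, contDiffOn_univ.1 this.2⟩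

/-- the mixed second derivative of a real function is real -/
theorem lap_real {ψ : ℂ → ℝ} (hψ : ContDiff ℝ (⊤ : ℕ∞) ψ) (z : ℂ) :
    conj (dz (dzb (fun w => (ψ w : ℂ))) z) = dz (dzb (fun w => (ψ w : ℂ))) z := by
  have h1 := smoothC hψ
  have h2 := (smooth_dz h1).2
  have h3 : (fun w => conj (dzb (fun w => (ψ w : ℂ)) w)) = dz (fun w => (ψ w : ℂ)) := by
    funext w
    rw [dzb_ofReal (diff_real hψ w), Complex.conj_conj]
  rw [← (dz_conj (h2.differentiable (by simp) z)).2, h3,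
    dz_comm isOpen_univ ((h1.of_le (WithTop.coe_le_coe.2 le_top)).contDiffOn) (mem_univ z)]

/-- `∫ ∂F ∂̄ψ` is real for real `F` and real test functions `ψ` -/
theorem cross_real {U : Set ℂ} {F ψ : ℂ → ℝ} (hF : ContDiff ℝ (⊤ : ℕ∞) F)
    (hψ : IsTest U (fun z => (ψ z : ℂ))) :
    (∫ z in U, dz (fun w => (F w : ℂ)) z * dzb (fun w => (ψ w : ℂ)) z).im = 0 := by
  have sψ := smooth_of_test hψ
  have sF := smoothC hF
  have tψ : IsTest U (dzb (fun w => (ψ w : ℂ))) := hψ.dzb
  have e0 : ∫ z in U, dz (fun w => (F w : ℂ)) z * dzb (fun w => (ψ w : ℂ)) z =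
      ∫ z, dz (fun w => (F w : ℂ)) z * dzb (fun w => (ψ w : ℂ)) z := by
    apply setIntegral_eq_integral_of_forall_compl_eq_zero
    intro z hz
    rw [image_eq_zero_of_notMem_tsupport (fun h => hz (tψ.supp h)), mul_zero]
  have e1 := (integral_dz_test (F := fun z => (F z : ℂ) * dzb (fun w => (ψ w : ℂ)) z)
    ((sF.mul tψ.smooth).of_le (by exact_mod_cast le_top)) tψ.compact.mul_left).1
  have e2 : ∀ z, dz (fun z => (F z : ℂ) * dzb (fun w => (ψ w : ℂ)) z) z =
      dz (fun w => (F w : ℂ)) z * dzb (fun w => (ψ w : ℂ)) z +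
        (F z : ℂ) * dz (dzb (fun w => (ψ w : ℂ))) z := fun z =>
    (dz_smul (sF.differentiable (by simp) z) (tψ.smooth.differentiable (by simp) z)).1
  have i1 : Integrable (fun z => dz (fun w => (F w : ℂ)) z * dzb (fun w => (ψ w : ℂ)) z) :=
    (((smooth_dz sF).1.mul tψ.smooth).continuous).integrable_of_hasCompactSupport
      tψ.compact.mul_left
  have i2 : Integrable (fun z => (F z : ℂ) * dz (dzb (fun w => (ψ w : ℂ))) z) :=
    ((sF.mul tψ.dz.smooth).continuous).integrable_of_hasCompactSupport tψ.dz.compact.mul_left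
  simp only [e2] at e1
  rw [integral_add i1 i2] at e1
  have e3 : ∫ z in U, dz (fun w => (F w : ℂ)) z * dzb (fun w => (ψ w : ℂ)) z =
      -∫ z, (F z : ℂ) * dz (dzb (fun w => (ψ w : ℂ))) z := by
    rw [e0]; linear_combination e1
  have e4 : ∀ z, (F z : ℂ) * dz (dzb (fun w => (ψ w : ℂ))) z =
      ((F z * (dz (dzb (fun w => (ψ w : ℂ))) z).re : ℝ) : ℂ) := by
    intro z
    have := Complex.conj_eq_iff_re.1 (lap_real sψ z)
    push_cast
    rw [this]
  rw [e3]
  simp only [e4]
  rw [integral_complex_ofReal]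
  simp

end GradProj

section
variable {k : ℕ} (D : AJ k) {τ : ℝ}

theorem GradProj.norm_sq_L2 (f : D.L2) : ‖f‖ ^ 2 = ∫ z in D.U, ‖(f : ℂ → ℂ) z‖ ^ 2 := by
  have h1 : ((‖f‖ ^ 2 : ℝ) : ℂ) = inner ℂ f f := by
    rw [inner_self_eq_norm_sq_to_K]
    norm_cast
  rw [L2.inner_def] at h1
  have h2 : ∀ z, inner ℂ ((f : ℂ → ℂ) z) ((f : ℂ → ℂ) z) = ((‖(f : ℂ → ℂ) z‖ ^ 2 : ℝ) : ℂ) := by
    intro z
    rw [inner_self_eq_norm_sq_to_K]
    norm_cast
  simp only [h2] at h1
  rw [integral_complex_ofReal] at h1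
  exact_mod_cast h1


/-- the class of a function continuous on the closed domain -/
theorem GradProj.memLp_cont {F : ℂ → ℂ} (hF : Continuous F) : MemLp F 2 (volume.restrict D.U) := by
  obtain ⟨C, hC⟩ := D.cU_compact.exists_bound_of_continuousOn hF.continuousOn
  refine MemLp.of_bound hF.aestronglyMeasurable C ?_
  filter_upwards [ae_restrict_mem D.U_open.measurableSet] with z hz
  exact hC z (D.U_subset_cU hz)

/-- real gradients of test functions in `L²` -/
noncomputable def GradProj.gradS : Submodule ℝ D.L2 where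
  carrier := {f | ∃ ψ : ℂ → ℝ, IsTest D.U (fun z => (ψ z : ℂ)) ∧
    f =ᵐ[volume.restrict D.U] dz (fun w => (ψ w : ℂ))}
  add_mem' := by
    rintro f f' ⟨ψ, hψ, e⟩ ⟨ψ', hψ', e'⟩
    have h1 : (fun z => ((ψ z + ψ' z : ℝ) : ℂ)) = fun z => (ψ z : ℂ) + (ψ' z : ℂ) := by
      funext z; push_cast; rfl
    refine ⟨fun z => ψ z + ψ' z, ?_, ?_⟩
    · rw [h1]; exact hψ.add hψ'
    · filter_upwards [Lp.coeFn_add f f', e, e'] with z h h' h''
      rw [h, Pi.add_apply, h', h'', h1]
      exact (dz_add (hψ.smooth.differentiable (by simp) z)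
        (hψ'.smooth.differentiable (by simp) z)).1.symm
  zero_mem' := by
    refine ⟨fun _ => 0, ⟨?_, ?_, ?_⟩, ?_⟩
    · simpa using contDiff_const
    · have : (fun z : ℂ => ((0 : ℝ) : ℂ)) = (0 : ℂ → ℂ) := by funext z; simp
      rw [this]
      exact HasCompactSupport.zero
    · have : (fun z : ℂ => ((0 : ℝ) : ℂ)) = (0 : ℂ → ℂ) := by funext z; simp
      rw [this, tsupport_zero]
      exact empty_subset _
    · filter_upwards [Lp.coeFn_zero ℂ 2 (volume.restrict D.U)] with z h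
      rw [h]
      exact dz_const.1.symm
  smul_mem' := by
    rintro c f ⟨ψ, hψ, e⟩
    have h1 : (fun z => ((c * ψ z : ℝ) : ℂ)) = fun z => (c : ℂ) • (ψ z : ℂ) := by
      funext z; push_cast; rfl
    refine ⟨fun z => c * ψ z, ?_, ?_⟩
    · rw [h1]
      exact hψ.smul (V := D.U) D.U_open contDiffOn_const
    · filter_upwards [Lp.coeFn_smul c f, e] with z h h'
      rw [h, Pi.smul_apply, h', h1]
      rw [(dz_smul (f := fun _ => (c : ℂ)) (differentiableAt_const _)
        (hψ.smooth.differentiable (by simp) z)).1, dz_const.1, zero_smul, zero_add]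
      simp

theorem GradProj.inner_real (f g : D.L2) : inner ℝ f g = (∫ z in D.U, (g : ℂ → ℂ) z *
    conj ((f : ℂ → ℂ) z)).re := by
  rw [L2.inner_def]
  have hi : Integrable (fun z => (g : ℂ → ℂ) z * conj ((f : ℂ → ℂ) z))
      (volume.restrict D.U) := by
    have := L2.integrable_inner (𝕜 := ℂ) f g
    refine this.congr (Eventually.of_forall fun z => ?_)
    simp only [RCLike.inner_apply]
  have := integral_re hi
  simp only [RCLike.re_eq_complex_re] at this
  rw [← this]
  refine integral_congr_ae (Eventually.of_forall fun z => ?_)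
  simp only [Complex.inner]

/-- `∂_z χ_j` plus a limit of real gradients `∂_z ψ` of test functions is holomorphic -/
theorem grad_proj (hτ : D.Good τ) (j : Fin k) : ∃ v : ℂ → ℂ, D.Hol2 v ∧
    ∀ ε > 0, ∃ ψ : ℂ → ℝ, IsTest D.U (fun z => (ψ z : ℂ)) ∧
      ∫ z in D.U, ‖v z - dz (fun w => (D.chi τ (some j) w : ℂ)) z -
        dz (fun w => (ψ w : ℂ)) z‖ ^ 2 < ε := by
  have sχ := chi_smooth D hτ (some j)
  have sdχ := (GradProj.smooth_dz (GradProj.smoothC sχ)).1
  -- the class of `∂χ`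
  set f : D.L2 := (GradProj.memLp_cont D sdχ.continuous).toLp _ with hfdef
  have hf : f =ᵐ[volume.restrict D.U] dz (fun w => (D.chi τ (some j) w : ℂ)) :=
    MemLp.coeFn_toLp _
  set G : Submodule ℝ D.L2 := (GradProj.gradS D).topologicalClosure with hG
  have : CompleteSpace G := (Submodule.isClosed_topologicalClosure _).completeSpace_coe
  obtain ⟨y, hy, hyo⟩ : ∃ y ∈ G, f - y ∈ Gᗮ :=
    ⟨G.starProjection f, G.starProjection_apply_mem f, G.sub_starProjection_mem_orthogonal f⟩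
  set v : D.L2 := f - y with hv
  -- `v` is orthogonal to the gradients
  have o1 : ∀ g ∈ GradProj.gradS D, inner ℝ g v = 0 := fun g hg =>
    hyo g (Submodule.le_topologicalClosure _ hg)
  -- `v` is orthogonal to `i` times the gradients
  have o2' : ∀ g ∈ GradProj.gradS D, ∀ F : ℂ → ℝ, ContDiff ℝ (⊤ : ℕ∞) F → ∀ u : D.L2,
      u =ᵐ[volume.restrict D.U] dz (fun w => (F w : ℂ)) → inner ℝ (Complex.I • g) u = 0 := by
    rintro g ⟨ψ, hψ, e⟩ F hF u hu
    rw [GradProj.inner_real]
    have h1 : ∫ z in D.U, (u : ℂ → ℂ) z * conj (((Complex.I • g : D.L2) : ℂ → ℂ) z) =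
        ∫ z in D.U, -Complex.I * (dz (fun w => (F w : ℂ)) z * dzb (fun w => (ψ w : ℂ)) z) := by
      refine integral_congr_ae ?_
      filter_upwards [Lp.coeFn_smul Complex.I g, e, hu] with z h1 h2 h3
      rw [h1, Pi.smul_apply, h2, h3, dzb_ofReal (GradProj.diff_real
        (GradProj.smooth_of_test hψ) z), smul_eq_mul, map_mul, Complex.conj_I]
      ring
    rw [h1, integral_const_mul]
    have h2 := GradProj.cross_real hF hψ
    simp [h2]
  have o2 : ∀ g ∈ GradProj.gradS D, inner ℝ (Complex.I • g) v = 0 := by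
    intro g hg
    rw [hv, inner_sub_right, o2' g hg _ sχ f hf, zero_sub, neg_eq_zero]
    have hcl : IsClosed {y : D.L2 | inner ℝ (Complex.I • g) y = 0} :=
      isClosed_eq (continuous_const.inner continuous_id) continuous_const
    have hsub : (GradProj.gradS D : Set D.L2) ⊆ {y : D.L2 | inner ℝ (Complex.I • g) y = 0} := by
      rintro y ⟨ψ, hψ, e⟩
      exact o2' g hg ψ (GradProj.smooth_of_test hψ) y e
    exact closure_minimal hsub hcl hy
  -- weak holomorphy
  have key : ∀ ψ : ℂ → ℝ, IsTest D.U (fun z => (ψ z : ℂ)) →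
      ∫ z in D.U, (v : ℂ → ℂ) z * dzb (fun w => (ψ w : ℂ)) z = 0 := by
    intro ψ hψ
    set g : D.L2 := (GradProj.memLp_cont D hψ.dz.smooth.continuous).toLp _ with hg
    have hg' : g =ᵐ[volume.restrict D.U] dz (fun w => (ψ w : ℂ)) := MemLp.coeFn_toLp _
    have hgS : g ∈ GradProj.gradS D := ⟨ψ, hψ, hg'⟩
    have a1 := o1 g hgS
    have a2 := o2 g hgS
    rw [GradProj.inner_real] at a1 a2
    have e1 : ∫ z in D.U, (v : ℂ → ℂ) z * conj ((g : ℂ → ℂ) z) =
        ∫ z in D.U, (v : ℂ → ℂ) z * dzb (fun w => (ψ w : ℂ)) z := by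
      refine integral_congr_ae ?_
      filter_upwards [hg'] with z h
      rw [h, dzb_ofReal (GradProj.diff_real (GradProj.smooth_of_test hψ) z)]
    have e2 : ∫ z in D.U, (v : ℂ → ℂ) z * conj (((Complex.I • g : D.L2) : ℂ → ℂ) z) =
        -Complex.I * ∫ z in D.U, (v : ℂ → ℂ) z * dzb (fun w => (ψ w : ℂ)) z := by
      rw [← integral_const_mul]
      refine integral_congr_ae ?_
      filter_upwards [Lp.coeFn_smul Complex.I g, hg'] with z h1 h
      rw [h1, Pi.smul_apply, h, dzb_ofReal (GradProj.diff_real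
        (GradProj.smooth_of_test hψ) z), smul_eq_mul, map_mul, Complex.conj_I]
      ring
    rw [e1] at a1
    rw [e2] at a2
    apply Complex.ext
    · simpa using a1
    · simpa using a2
  have hweak : D.WeakDbar v 0 := by
    intro φ hφ
    have hre : IsTest D.U (fun z => ((φ z).re : ℂ)) := by
      refine ⟨Complex.ofRealCLM.contDiff.comp (Complex.reCLM.contDiff.comp hφ.smooth), ?_, ?_⟩
      · exact hφ.compact.comp_left (g := fun w : ℂ => (w.re : ℂ)) (by simp)
      · exact (closure_mono (Function.support_comp_subset (g := fun w : ℂ => (w.re : ℂ))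
          (by simp) φ)).trans hφ.supp
    have him : IsTest D.U (fun z => ((φ z).im : ℂ)) := by
      refine ⟨Complex.ofRealCLM.contDiff.comp (Complex.imCLM.contDiff.comp hφ.smooth), ?_, ?_⟩
      · exact hφ.compact.comp_left (g := fun w : ℂ => (w.im : ℂ)) (by simp)
      · exact (closure_mono (Function.support_comp_subset (g := fun w : ℂ => (w.im : ℂ))
          (by simp) φ)).trans hφ.supp
    have e1 : ∀ z, dzb φ z = dzb (fun z => ((φ z).re : ℂ)) z +
        Complex.I * dzb (fun z => ((φ z).im : ℂ)) z := by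
      intro z
      have d1 : DifferentiableAt ℝ (fun z => ((φ z).re : ℂ)) z :=
        hre.smooth.differentiable (by simp) z
      have d2 : DifferentiableAt ℝ (fun z => ((φ z).im : ℂ)) z :=
        him.smooth.differentiable (by simp) z
      have e2 : φ = fun z => ((φ z).re : ℂ) + Complex.I • ((φ z).im : ℂ) := by
        funext z
        rw [smul_eq_mul, mul_comm]
        exact (Complex.re_add_im (φ z)).symm
      have m1 := (dz_smul (f := fun _ => Complex.I) (F := fun z => ((φ z).im : ℂ))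
        (differentiableAt_const _) d2).2
      rw [dz_const.2, zero_smul, zero_add] at m1
      conv_lhs => rw [e2]
      rw [(dz_add (F := fun z => ((φ z).re : ℂ)) (G := fun z => Complex.I • ((φ z).im : ℂ)) d1
        (d2.const_smul Complex.I)).2, m1, smul_eq_mul]
    have i0 : ∀ φ : ℂ → ℂ, IsTest D.U φ →
        Integrable (fun z => (v : ℂ → ℂ) z * dzb φ z) (volume.restrict D.U) := by
      intro φ hφ
      exact (MemLp.integrable_mul (Lp.memLp v) (GradProj.memLp_cont D hφ.dzb.smooth.continuous))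
    have e3 : ∫ z in D.U, (v : ℂ → ℂ) z * dzb φ z = 0 := by
      have e4 : ∀ z, (v : ℂ → ℂ) z * dzb φ z = (v : ℂ → ℂ) z * dzb (fun z => ((φ z).re : ℂ)) z +
          Complex.I * ((v : ℂ → ℂ) z * dzb (fun z => ((φ z).im : ℂ)) z) := by
        intro z; rw [e1 z]; ring
      simp only [e4]
      rw [integral_add (i0 _ hre) ((i0 _ him).const_mul _), integral_const_mul, key _ hre,
        key _ him, mul_zero, add_zero]
    rw [e3]
    have e5 : ∫ z in D.U, ((0 : D.L2) : ℂ → ℂ) z * φ z = 0 := by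
      rw [integral_congr_ae (g := fun _ => 0)]
      · simp
      · filter_upwards [Lp.coeFn_zero ℂ 2 (volume.restrict D.U)] with z h
        rw [h]; simp
    rw [e5, neg_zero]
  obtain ⟨w, hw, hvw⟩ := berg_rep D (weyl D hweak)
  refine ⟨w, hw, fun ε hε => ?_⟩
  have hny : -y ∈ closure (GradProj.gradS D : Set D.L2) := G.neg_mem hy
  obtain ⟨s, ⟨ψ, hψ, e⟩, hs⟩ := Metric.mem_closure_iff.1 hny (Real.sqrt ε) (Real.sqrt_pos.2 hε)
  refine ⟨ψ, hψ, ?_⟩
  have h1 : ∫ z in D.U, ‖w z - dz (fun w => (D.chi τ (some j) w : ℂ)) z -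
        dz (fun w => (ψ w : ℂ)) z‖ ^ 2 = ‖v - f - s‖ ^ 2 := by
    rw [GradProj.norm_sq_L2]
    refine integral_congr_ae ?_
    filter_upwards [Lp.coeFn_sub (v - f) s, Lp.coeFn_sub v f, e, hf, hvw] with z h1 h2 h3 h4 h5
    rw [h1, Pi.sub_apply, h2, Pi.sub_apply, h3, h4, h5]
  rw [h1]
  have h2 : v - f - s = -y - s := by rw [hv]; abel
  rw [h2, ← dist_eq_norm]
  have h3 := Real.sq_sqrt hε.le
  have h4 : 0 ≤ dist (-y) s := dist_nonneg
  nlinarith [Real.sqrt_nonneg ε]

end

end Pool.Agent.KA
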