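import Pool.Agent.Helper9.KA.C5c
import Pool.Agent.Helper9.KA.C7a
import Pool.Agent.Helper9.KA.D5a
import Pool.Agent.Helper9.KA.A5b

set_option autoImplicit false

open MeasureTheory Set Filter Asymptotics Topology Metric
open scoped ComplexConjugate ENNReal

namespace Pool.Agent.KA

open Pool.Agent.Helper7.KE hiding HM PS Bv sfun FF tt lS
open Pool.Agent.EN (AJ ann ann2)

section
variable {k : ℕ} {D : AJ k} {τ δ : ℝ}

theorem D6_inv_diff (D : AJ k) {V : Set ℂ} (hV : ∀ z ∈ V, ∀ j, z ≠ D.a j)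
    (j : Fin k) : DifferentiableOn ℂ (fun z => (z - D.a j)⁻¹) V := by
  intro z hz
  have : z - D.a j ≠ 0 := sub_ne_zero.2 (hV z hz j)
  have h2 : DifferentiableAt ℂ (fun z => z - D.a j) z := by fun_prop
  exact (h2.inv this).differentiableWithinAt

theorem D6_res_sum (hτ : D.Good τ) (l : Fin k) {V : Set ℂ} (hV : IsOpen V) (hcV : D.cU ⊆ V)
    {g : ℂ → ℂ} (hg : DifferentiableOn ℂ g V) {ι : Type*} (s : Finset ι) (c : ι → ℂ)
    (g' : ι → ℂ → ℂ) (hg' : ∀ i, DifferentiableOn ℂ (g' i) V) :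
    D.res τ l (fun z => g z + ∑ i ∈ s, c i * g' i z) =
      D.res τ l g + ∑ i ∈ s, c i * D.res τ l (g' i) := by
  classical
  induction s using Finset.induction_on with
  | empty => simp
  | insert i s hi ih =>
    have hd : DifferentiableOn ℂ (fun z => g z + ∑ i ∈ s, c i * g' i z) V :=
      hg.add (DifferentiableOn.fun_sum fun i _ => (hg' i).const_mul (c i))
    have := res_linear D hτ l (hol2_of_nhds D hV hcV hd) (hol2_of_nhds D hV hcV (hg' i)) (c i)
    rw [Finset.sum_insert hi, ← add_assoc, add_right_comm, ← ih, ← this]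
    congr 1
    ext z
    rw [Finset.sum_insert hi]; ring

theorem D6_fderiv_zero {u : ℂ → ℝ} {z : ℂ} (hu : DifferentiableAt ℝ u z)
    (h : dz (fun w => (u w : ℂ)) z = 0) : fderiv ℝ u z = 0 := by
  have h1 : ∀ v, fderiv ℝ (fun w => (u w : ℂ)) z v = (fderiv ℝ u z v : ℝ) := by
    intro v
    have := (Complex.ofRealCLM.hasFDerivAt.comp z hu.hasFDerivAt).fderiv
    have h2 : fderiv ℝ (fun w => (u w : ℂ)) z = Complex.ofRealCLM.comp (fderiv ℝ u z) := this
    rw [h2]; rfl
  unfold dz at h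
  rw [h1, h1, smul_eq_mul, smul_eq_mul, mul_eq_zero] at h
  have h3 := h.resolve_left (by norm_num)
  have h4 : fderiv ℝ u z 1 = 0 := by
    have := congrArg Complex.re h3
    simpa using this
  have h5 : fderiv ℝ u z Complex.I = 0 := by
    have := congrArg Complex.im h3
    simpa using this
  ext v
  have : v = v.re • (1 : ℂ) + v.im • Complex.I := by
    simp [Complex.re_add_im]
  rw [this, map_add, map_smul, map_smul, h4, h5]
  simp

theorem D6_dz_log {a z : ℂ} (hz : z ≠ a) :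
    DifferentiableAt ℝ (fun w => Real.log (‖w - a‖ ^ 2)) z ∧
    dz (fun w => (Real.log (‖w - a‖ ^ 2) : ℂ)) z = 1 / (z - a) := by
  have hne : z - a ≠ 0 := sub_ne_zero.2 hz
  have hd0 : DifferentiableAt ℝ (fun w : ℂ => ‖w - a‖ ^ 2) z := by
    have : DifferentiableAt ℝ (fun w : ℂ => w - a) z := by fun_prop
    exact this.norm_sq ℝ
  have hne2 : ‖z - a‖ ^ 2 ≠ 0 := pow_ne_zero _ (norm_ne_zero_iff.2 hne)
  refine ⟨hd0.log hne2, ?_⟩
  have h1 := (dz_comp_real (ρ := fun w : ℂ => ‖w - a‖ ^ 2) (G := Real.log) hd0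
    (Real.hasDerivAt_log hne2)).1
  rw [h1]
  have hd1 : DifferentiableAt ℂ (fun w : ℂ => w - a) z := by fun_prop
  have h2 : (fun w : ℂ => ((‖w - a‖ ^ 2 : ℝ) : ℂ)) = fun w => (w - a) • conj (w - a) := by
    ext w
    rw [smul_eq_mul, Complex.mul_conj, Complex.normSq_eq_norm_sq]
  have h3 := (dz_smul (f := fun w : ℂ => w - a) (F := fun w => conj (w - a)) (z := z)
    (hd1.restrictScalars ℝ)
    ((Complex.conjCLE : ℂ →L[ℝ] ℂ).differentiableAt.comp z (hd1.restrictScalars ℝ))).1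
  rw [h2, h3, (dz_hol hd1).1, (dz_conj_hol hd1).1]
  have h4 : deriv (fun w : ℂ => w - a) z = 1 := by
    rw [deriv_sub_const]; exact deriv_id z
  have h5 : (‖z - a‖ ^ 2 : ℂ) = (z - a) * conj (z - a) := by
    rw [Complex.mul_conj, Complex.normSq_eq_norm_sq]; push_cast; rfl
  have h6 : conj (z - a) ≠ 0 := by rw [Ne, map_eq_zero]; exact hne
  rw [h4]
  simp only [smul_eq_mul, one_mul, mul_zero, add_zero]
  push_cast
  rw [h5]
  field_simp

theorem exists_phi (h : HM D τ δ) (hτ : D.Good τ) (hδ : 0 < δ) (hδτ : δ ≤ τ) {x : Fin k → ℝ}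
    (hx : ∀ l, ∃ n : ℤ, h.Rm.mulVec x l = n) :
    ∃ φ : ℂ → ℂ, DifferentiableOn ℂ φ (D.Ue δ) ∧ (∀ z ∈ D.Ue δ, φ z ≠ 0) ∧
      ∀ z ∈ D.Ue δ, ‖φ z‖ ^ 2 = Real.exp (h.rho x z) := by
  choose n hn using hx
  have hcU := D.cU_subset_Ue hδ
  have hUV : D.U ⊆ D.Ue δ := D.U_subset_cU.trans hcU
  have hVo := D.Ue_open δ
  have ha : ∀ z ∈ D.Ue δ, ∀ j, z ≠ D.a j := by
    intro z hz j he
    exact h.anot j (he ▸ hz)
  have hpre : IsPreconnected (D.Ue δ) := Ue_preconnected D δ
  obtain ⟨hrs, -, hvv, hdz, -, -, -⟩ := rho_facts h hτ hδ x 0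
  -- the reduced function
  set v' : ℂ → ℂ := fun z => h.vv x z + ∑ l, (-(n l : ℂ)) * (z - D.a l)⁻¹ with hv'
  have hv'd : DifferentiableOn ℂ v' (D.Ue δ) :=
    hvv.add (DifferentiableOn.fun_sum fun l _ => (D6_inv_diff D ha l).const_mul _)
  have hresvv : ∀ l, D.res τ l (h.vv x) = (n l : ℂ) := by
    intro l
    have h1 : h.vv x = fun z => (fun _ => (0 : ℂ)) z + ∑ j ∈ Finset.univ, (x j : ℂ) * h.v j z := by
      ext z; simp [HM.vv]
    have h2 : D.res τ l (fun _ => (0 : ℂ)) = 0 := by simp [AJ.res]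
    rw [h1, D6_res_sum hτ _ hVo hcU (differentiableOn_const 0) _ _ _
      (fun j => h.hol j), h2, zero_add]
    have h3 := congrArg (fun r : ℝ => (r : ℂ)) (hn l)
    simp only [Matrix.mulVec, dotProduct] at h3
    push_cast at h3
    rw [← h3]
    refine Finset.sum_congr rfl fun j _ => ?_
    rw [← h.res l j]; ring
  have h0 : ∀ j, D.res τ j v' = 0 := by
    intro j
    rw [hv', D6_res_sum hτ _ hVo hcU hvv _ _ _
      (fun l => D6_inv_diff D ha l), hresvv]
    simp_rw [res_inv D hτ]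
    simp only [mul_ite, mul_one, mul_zero]
    rw [Finset.sum_ite_eq Finset.univ j]
    simp only [Finset.mem_univ, if_true]
    ring
  obtain ⟨F, hF⟩ := exists_primitive D hτ hδ hδτ hv'd h0
  -- the constant
  set u : ℂ → ℝ := fun z => h.rho x z - (2 * (F z).re + ∑ l, (n l : ℝ) * Real.log (‖z - D.a l‖ ^ 2))
    with hu
  have hrd : ∀ z ∈ D.Ue δ, DifferentiableAt ℝ (h.rho x) z := fun z hz =>
    (hrs.differentiableOn (by simp)).differentiableAt (hVo.mem_nhds hz)
  have hFre : ∀ z ∈ D.Ue δ, DifferentiableAt ℝ (fun w => (F w).re) z := fun z hz =>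
    Complex.reCLM.differentiableAt.comp z ((hF z hz).differentiableAt.restrictScalars ℝ)
  have hud : ∀ z ∈ D.Ue δ, DifferentiableAt ℝ u z := by
    intro z hz
    refine (hrd z hz).sub (((hFre z hz).const_mul 2).add ?_)
    exact DifferentiableAt.fun_sum fun l _ => ((D6_dz_log (ha z hz l)).1).const_mul _
  have hofR : ∀ {ρ : ℂ → ℝ} {z : ℂ}, DifferentiableAt ℝ ρ z →
      DifferentiableAt ℝ (fun w => (ρ w : ℂ)) z := fun hρ =>
    Complex.ofRealCLM.differentiableAt.comp _ hρ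
  have hudz : ∀ z ∈ D.Ue δ, dz (fun w => (u w : ℂ)) z = 0 := by
    intro z hz
    have e1 : (fun w => (u w : ℂ)) = fun w => (h.rho x w : ℂ) + (((-2 : ℂ) • ((F w).re : ℂ)) +
        ∑ l, (-(n l : ℂ)) • (Real.log (‖w - D.a l‖ ^ 2) : ℂ)) := by
      ext w
      simp only [hu, smul_eq_mul]
      push_cast
      simp only [neg_mul, Finset.sum_neg_distrib]
      ring
    have d1 : DifferentiableAt ℝ (fun w => ((-2 : ℂ) • ((F w).re : ℂ))) z :=
      (hofR (hFre z hz)).fun_const_smul _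
    have d2 : ∀ l, DifferentiableAt ℝ
        (fun w => (-(n l : ℂ)) • (Real.log (‖w - D.a l‖ ^ 2) : ℂ)) z := fun l =>
      (hofR (D6_dz_log (ha z hz l)).1).fun_const_smul _
    have c1 : ∀ (c : ℂ) {G : ℂ → ℂ}, DifferentiableAt ℝ G z →
        dz (fun w => c • G w) z = c • dz G z := by
      intro c G hG
      have := (dz_smul (f := fun _ => c) (F := G) (z := z) (differentiableAt_const c) hG).1
      rw [this, (dz_const).1, zero_smul, zero_add]
    rw [e1, (dz_add (hofR (hrd z hz)) (d1.fun_add (DifferentiableAt.fun_sum fun l _ => d2 l))).1,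
      (dz_add d1 (DifferentiableAt.fun_sum fun l _ => d2 l)).1, (dz_sum _ fun l _ => d2 l).1,
      c1 _ (hofR (hFre z hz)), dz_re (hF z hz).differentiableAt, (hF z hz).deriv, hdz z hz]
    have h2 : ∀ l, dz (fun w => (-(n l : ℂ)) • (Real.log (‖w - D.a l‖ ^ 2) : ℂ)) z
        = -(n l : ℂ) * (1 / (z - D.a l)) := by
      intro l
      rw [c1 _ (hofR (D6_dz_log (ha z hz l)).1), (D6_dz_log (ha z hz l)).2, smul_eq_mul]
    simp_rw [h2]
    have h3 : ∑ l, (-(n l : ℂ)) * (z - D.a l)⁻¹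
        = ∑ l, -(n l : ℂ) * (1 / (z - D.a l)) := by
      refine Finset.sum_congr rfl fun l _ => ?_
      rw [one_div]
    simp only [hv', smul_eq_mul]
    rw [h3]
    ring
  obtain ⟨z₁, hz₁⟩ := U_nonempty D
  have hz₁V := hUV hz₁
  have hconst : ∀ z ∈ D.Ue δ, u z = u z₁ := fun z hz =>
    hVo.is_const_of_fderiv_eq_zero hpre (fun w hw => (hud w hw).differentiableWithinAt)
      (fun w hw => D6_fderiv_zero (hud w hw) (hudz w hw)) hz hz₁V
  refine ⟨fun z => (Real.exp (u z₁ / 2) : ℂ) * Complex.exp (F z) * ∏ l, (z - D.a l) ^ (n l),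
    ?_, ?_, ?_⟩
  · intro z hz
    have h1 : DifferentiableAt ℂ (fun z => ∏ l, (z - D.a l) ^ (n l)) z := by
      apply DifferentiableAt.fun_finsetProd
      intro l _
      have h2 : DifferentiableAt ℂ (fun z => z - D.a l) z := by fun_prop
      exact h2.zpow (Or.inl (sub_ne_zero.2 (ha z hz l)))
    exact (((hF z hz).differentiableAt.cexp.const_mul _).mul h1).differentiableWithinAt
  · intro z hz
    refine mul_ne_zero (mul_ne_zero ?_ (Complex.exp_ne_zero _)) ?_
    · exact Complex.ofReal_ne_zero.2 (Real.exp_ne_zero _)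
    · exact Finset.prod_ne_zero_iff.2 fun l _ => zpow_ne_zero _ (sub_ne_zero.2 (ha z hz l))
  · intro z hz
    have h1 : h.rho x z = u z₁ + 2 * (F z).re + ∑ l, (n l : ℝ) * Real.log (‖z - D.a l‖ ^ 2) := by
      rw [← hconst z hz, hu]; ring
    rw [h1, Real.exp_add, Real.exp_add, Real.exp_sum, norm_mul, norm_mul, norm_prod, mul_pow,
      mul_pow, Complex.norm_real, Complex.norm_exp, ← Finset.prod_pow, Real.norm_eq_abs,
      abs_of_pos (Real.exp_pos _), ← Real.exp_nat_mul, ← Real.exp_nat_mul]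
    congr 1
    · congr 1
      congr 1
      push_cast; ring
    · refine Finset.prod_congr rfl fun l _ => ?_
      have h2 : 0 < ‖z - D.a l‖ := norm_pos_iff.2 (sub_ne_zero.2 (ha z hz l))
      rw [norm_zpow, ← zpow_natCast, ← zpow_mul, mul_comm (n l : ℤ), zpow_mul, zpow_natCast,
        mul_comm (n l : ℝ), Real.exp_mul, Real.exp_log (by positivity), Real.rpow_intCast]

end

end Pool.Agent.KA
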