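import Pool.Agent.Helper9.KA.D5b
import Pool.Agent.Helper9.KA.A5a

set_option autoImplicit false

open MeasureTheory Set Filter Asymptotics Topology Metric
open scoped ComplexConjugate ENNReal

namespace Pool.Agent.KA

open Pool.Agent.Helper7.KE hiding HM PS Bv sfun FF tt lS
open Pool.Agent.EN (AJ ann ann2)

/-- transport of a phase system along an equivalence of index types -/
noncomputable def PS.transport {k : ℕ} {D : AJ k} {ρ : ℂ → ℝ} {ι ι' : Type} [Fintype ι]
    [DecidableEq ι] [Fintype ι'] [DecidableEq ι'] (ps : PS D ρ ι) (e : ι ≃ ι') : PS D ρ ι' where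
  chi i := ps.chi (e.symm i)
  c i := ps.c (e.symm i)
  bd l := e (ps.bd l)
  bd_inj := e.injective.comp ps.bd_inj
  smooth i := ps.smooth _
  nonneg i := ps.nonneg _
  le_one i := ps.le_one _
  disj i j h := ps.disj _ _ (fun h' => h (e.symm.injective h'))
  bd_near l z hz := by simpa using ps.bd_near l z hz
  crit_near z hz h := by
    obtain ⟨i, hi⟩ := ps.crit_near z hz h
    exact ⟨e i, by simpa using hi⟩
  val_circ l z hz := by simpa using ps.val_circ l z hz
  val_crit i z hz h := ps.val_crit _ z hz h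
  only_circ i l h := by
    have := ps.only_circ _ l h
    rw [← this, e.apply_symm_apply]

section
variable {k : ℕ} {D : AJ k} {τ δ : ℝ}

theorem exists_thin (D : AJ k) (Z : Finset ℂ) (hZ : ∀ p ∈ Z, p ∈ D.U) :
    ∃ τ', D.Good τ' ∧ ∀ p ∈ Z, ∀ l, p ∉ tsupport (D.chi τ' l) := by
  have h1 : ∀ᶠ τ : ℝ in 𝓝[>] 0, D.Good τ := by
    obtain ⟨τ₀, h0⟩ := exists_good D
    filter_upwards [self_mem_nhdsWithin, mem_nhdsWithin_of_mem_nhds (Iio_mem_nhds h0.pos)]
      with τ hτ hτ'
    have hτ0 : 0 < τ := hτ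
    have hτ1 : τ < τ₀ := hτ'
    exact ⟨hτ0, hτ1.trans h0.lt_half, by have := h0.lt_rho; linarith⟩
  have h2 : ∀ᶠ τ : ℝ in 𝓝[>] 0, ∀ p ∈ Z, ∀ l, p ∈ D.kap l '' ann2 D.ρ →
      1 + τ < ‖D.lam l p‖ := by
    rw [Filter.eventually_all_finset]
    intro p hp
    rw [eventually_all]
    intro l
    by_cases hpl : p ∈ D.kap l '' ann2 D.ρ
    · obtain ⟨z, hz, hzp⟩ := hpl
      have hz1 : 1 < ‖z‖ := (D.mem_iff l z hz).1 (by rw [hzp]; exact hZ p hp)
      filter_upwards [mem_nhdsWithin_of_mem_nhds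
        (Iio_mem_nhds (show (0 : ℝ) < ‖z‖ - 1 by linarith))] with τ hτ _
      have hτ' : τ < ‖z‖ - 1 := hτ
      rw [← hzp, D.lam_kap hz]
      linarith
    · exact Eventually.of_forall fun _ h => absurd h hpl
  obtain ⟨τ', hg, hz⟩ := (h1.and h2).exists
  refine ⟨τ', hg, fun p hp l hmem => ?_⟩
  have hpos := hg.pos
  have hhalf := hg.lt_half
  have hrho := hg.lt_rho
  obtain ⟨z, ⟨hz1, hz2⟩, hzp⟩ := (chi_tsupport D hg l).2.1 hmem
  have hρ : 0 < D.ρ := by linarith
  have hzann : z ∈ ann2 D.ρ := by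
    refine ⟨?_, by linarith⟩
    refine lt_of_lt_of_le ?_ hz1
    rw [inv_lt_comm₀ hρ (by linarith), inv_lt_iff_one_lt_mul₀ (by linarith)]
    nlinarith
  have h3 := hz p hp l ⟨z, hzann, hzp⟩
  rw [← hzp, D.lam_kap hzann] at h3
  linarith

theorem exists_radius (D : AJ k) (Z : Finset ℂ) (K : Set ℂ) (hK : IsClosed K)
    (hZ : ∀ p ∈ Z, p ∈ D.U) (hZK : ∀ p ∈ Z, p ∉ K) :
    ∃ ε > 0, (∀ p ∈ Z, closedBall p ε ⊆ D.U) ∧ (∀ p ∈ Z, Disjoint (closedBall p ε) K) ∧
      ∀ p ∈ Z, ∀ q ∈ Z, p ≠ q → Disjoint (closedBall p ε) (closedBall q ε) := by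
  have h1 : ∀ᶠ ε : ℝ in 𝓝[>] 0, ∀ p ∈ Z, closedBall p ε ⊆ D.U ∩ Kᶜ := by
    rw [Filter.eventually_all_finset]
    intro p hp
    obtain ⟨ε, hε, hball⟩ := Metric.isOpen_iff.1 (D.U_open.inter hK.isOpen_compl) p
      ⟨hZ p hp, hZK p hp⟩
    filter_upwards [mem_nhdsWithin_of_mem_nhds (Iio_mem_nhds hε)] with ε' hε'
    exact (closedBall_subset_ball hε').trans hball
  have h2 : ∀ᶠ ε : ℝ in 𝓝[>] 0, ∀ p ∈ Z, ∀ q ∈ Z, p ≠ q → ε + ε < dist p q := by
    rw [Filter.eventually_all_finset]
    intro p hp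
    rw [Filter.eventually_all_finset]
    intro q hq
    by_cases hpq : p = q
    · exact Eventually.of_forall fun _ h => absurd hpq h
    · filter_upwards [mem_nhdsWithin_of_mem_nhds
        (Iio_mem_nhds (show (0 : ℝ) < dist p q / 2 by have := dist_pos.2 hpq; linarith))] with ε hε _
      have : ε < dist p q / 2 := hε
      linarith
  obtain ⟨ε, ⟨ha, hb⟩, hε⟩ := ((h1.and h2).and self_mem_nhdsWithin).exists
  refine ⟨ε, hε, fun p hp => (ha p hp).trans inter_subset_left, fun p hp => ?_,
    fun p hp q hq hpq => closedBall_disjoint_closedBall (hb p hp q hq hpq)⟩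
  exact Set.disjoint_left.2 fun z hz hzK => (ha p hp hz).2 hzK

theorem exists_PS (h : HM D τ δ) (hτ : D.Good τ) (hδ : 0 < δ) (hδτ : δ ≤ τ) {x : Fin k → ℝ}
    (hx : x ≠ 0) : ∃ n : ℕ, Nonempty (PS D (h.rho x) (Fin n)) := by
  classical
  obtain ⟨hfin, -⟩ := vv_zeros h hτ hδ hδτ hx
  obtain ⟨-, -, -, hdz, -, -, hn, hs⟩ := rho_facts h hτ hδ x 0
  have hcU := D.cU_subset_Ue hδ
  set Z : Finset ℂ := hfin.toFinset.filter fun z => z ∈ D.U with hZdef
  have hZ : ∀ p ∈ Z, p ∈ D.U := fun p hp => (Finset.mem_filter.1 hp).2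
  have hmemZ : ∀ z ∈ D.U, dz (fun w => (h.rho x w : ℂ)) z = 0 → z ∈ Z := by
    intro z hz h0
    rw [hdz z (hcU (D.U_subset_cU hz))] at h0
    exact Finset.mem_filter.2 ⟨hfin.mem_toFinset.2 ⟨D.U_subset_cU hz, h0⟩, hz⟩
  obtain ⟨τ', hg, hthin⟩ := exists_thin D Z hZ
  set K : Set ℂ := ⋃ l, tsupport (D.chi τ' l) with hKdef
  have hK : IsClosed K := isClosed_iUnion_of_finite fun l => isClosed_tsupport _
  have hZK : ∀ p ∈ Z, p ∉ K := by
    intro p hp hpK
    obtain ⟨l, hl⟩ := mem_iUnion.1 hpK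
    exact hthin p hp l hl
  obtain ⟨ε, hε, hεU, hεK, hεd⟩ := exists_radius D Z K hK hZ hZK
  let bump : (p : ℂ) → ContDiffBump p := fun p => ⟨ε / 2, ε, by linarith, by linarith⟩
  have hcirc_notU : ∀ l, ∀ z ∈ D.circ l, z ∉ D.U := fun l z hz => circ_not_mem D hz
  have hval : ∀ l : Option (Fin k), ∀ z ∈ D.circ l, h.rho x z = l.elim 0 x := by
    intro l z hz
    cases l with
    | none => exact (hn z hz).1
    | some j => exact (hs j z hz).1
  let ps : PS D (h.rho x) (Option (Fin k) ⊕ Z) :=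
    { chi := Sum.elim (fun l => D.chi τ' l) (fun p => (bump p.1 : ℂ → ℝ))
      c := Sum.elim (fun l => l.elim 0 x) (fun p => h.rho x p.1)
      bd := Sum.inl
      bd_inj := Sum.inl_injective
      smooth := by
        rintro (l | p)
        · exact chi_smooth D hg l
        · exact (bump p.1).contDiff
      nonneg := by
        rintro (l | p) z
        · exact (chi_mem D l z).1
        · exact (bump p.1).nonneg
      le_one := by
        rintro (l | p) z
        · exact (chi_mem D l z).2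
        · exact (bump p.1).le_one
      disj := by
        rintro (l | p) (l' | q) hne
        · exact chi_disj D hg fun e => hne (by rw [e])
        · simp only [Sum.elim_inl, Sum.elim_inr]
          rw [(bump q.1).tsupport_eq]
          exact (hεK q.1 q.2).symm.mono_left (subset_iUnion (fun l => tsupport (D.chi τ' l)) l)
        · simp only [Sum.elim_inl, Sum.elim_inr]
          rw [(bump p.1).tsupport_eq]
          exact (hεK p.1 p.2).mono_right (subset_iUnion (fun l => tsupport (D.chi τ' l)) l')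
        · simp only [Sum.elim_inr]
          rw [(bump p.1).tsupport_eq, (bump q.1).tsupport_eq]
          exact hεd p.1 p.2 q.1 q.2 fun e => hne (by rw [Subtype.ext e])
      bd_near := fun l z hz => chi_near D hg.pos l hz
      crit_near := by
        intro z hz h0
        rcases (mem_cU_iff D z).1 hz with hzU | ⟨l, hl⟩
        · refine ⟨Sum.inr ⟨z, hmemZ z hzU h0⟩, ?_⟩
          exact (bump z).eventuallyEq_one
        · exact ⟨Sum.inl l, chi_near D hg.pos l hl⟩
      val_circ := hval
      val_crit := by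
        rintro (l | p) z ⟨hz, hzc⟩ h0
        · rcases (mem_cU_iff D z).1 hzc with hzU | ⟨l', hl'⟩
          · exact absurd hz (hthin z (hmemZ z hzU h0) l)
          · have : l = l' := by
              by_contra hne
              exact Set.disjoint_left.1 (chi_disj D hg hne) hz
                (circ_subset_tsupport D hg.pos l' hl')
            rw [this]
            exact hval l' z hl'
        · simp only [Sum.elim_inr] at hz ⊢
          rw [(bump p.1).tsupport_eq] at hz
          have hzU : z ∈ D.U := hεU p.1 p.2 hz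
          have hzZ := hmemZ z hzU h0
          have : z = p.1 := by
            by_contra hne
            exact Set.disjoint_left.1 (hεd z hzZ p.1 p.2 hne)
              (mem_closedBall_self hε.le) hz
          rw [this]
      only_circ := by
        rintro (l | p) l' ⟨z, hz, hzl⟩
        · have : l = l' := by
            by_contra hne
            exact Set.disjoint_left.1 (chi_disj D hg hne) hz
              (circ_subset_tsupport D hg.pos l' hzl)
          rw [this]
        · simp only [Sum.elim_inr] at hz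
          rw [(bump p.1).tsupport_eq] at hz
          exact absurd (hεU p.1 p.2 hz) (hcirc_notU l' z hzl) }
  exact ⟨Fintype.card (Option (Fin k) ⊕ Z), ⟨ps.transport (Fintype.equivFin _)⟩⟩

end

end Pool.Agent.KA
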