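import Pool.Agent.Helper9.KA.B4b
import Pool.Agent.Helper7.KE.C0a
import Pool.Agent.Helper9.KA.D5a

set_option autoImplicit false

open MeasureTheory Set Filter Asymptotics Topology Metric
open scoped ComplexConjugate ENNReal

namespace Pool.Agent.KA

open Pool.Agent.Helper7.KE hiding HM PS Bv sfun FF tt lS
open Pool.Agent.EN (AJ ann ann2)

section
variable {k : ℕ} {D : AJ k} {τ δ : ℝ} {ι : Type} [Fintype ι] [DecidableEq ι]

theorem E1_exp_apply {K : Type} [TopologicalSpace K] [CompactSpace K] (x : C(K, ℂ)) (u : K) :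
    (NormedSpace.exp x) u = Complex.exp (x u) := by
  have h := NormedSpace.map_exp_of_mem_ball (𝕂 := ℂ) (ContinuousMap.evalAlgHom ℂ ℂ u)
    (ContinuousMap.evalCLM ℂ u).continuous x (by
      rw [NormedSpace.expSeries_radius_eq_top]
      simp)
  rw [Complex.exp_eq_exp_ℂ]
  exact h

theorem E1_exp_contDiff {K : Type} [TopologicalSpace K] [CompactSpace K] {n : WithTop ℕ∞} :
    ContDiff ℝ n (NormedSpace.exp : C(K, ℂ) → C(K, ℂ)) :=
  contDiff_iff_contDiffAt.2 fun x => (NormedSpace.exp_analytic (𝕂 := ℝ) x).contDiffAt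

theorem exp_param (hτ : D.Good τ) (hδ : 0 < δ) (hδτ : δ ≤ τ) (h : HM D τ δ) {x : Fin k → ℝ}
    (hx : x ≠ 0) (ps : PS D (h.rho x) ι) {κ : ℝ} (hκ : 0 < κ) (hκ' : Irrational κ) :
    ∃ s : Finset (ℝ × ℕ), GoodScale κ s ∧
      ∀ (K : Type) [TopologicalSpace K] [CompactSpace K] (ph : ι → C(K, ℝ)) (w : Fin k → C(K, ℂ))
        (g : K → ℂ → ℂ) (q : ℂ → ℂ),
        ContinuousOn (fun p : K × ℂ => g p.1 p.2) (univ ×ˢ D.Ue δ) →
        (∀ u, DifferentiableOn ℂ (g u) (D.Ue δ)) → DifferentiableOn ℂ q (D.Ue δ) →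
        ∃ F : ℝ → C(K, ℂ),
          (∀ N u, F N u = Bv h ps N (fun i => ph i u) (fun j => w j u) (g u) q) ∧
          HasExp s κ F := by
  obtain ⟨s, hs, hexp⟩ := exp_PS D hτ hδ hδτ h x hx ps hκ hκ'
  refine ⟨s, hs, fun K _ _ ph w g q hgc hgd hq => ?_⟩
  have hV : IsOpen (D.Ue δ) := D.Ue_open δ
  have hcV : D.cU ⊆ D.Ue δ := D.cU_subset_Ue hδ
  obtain ⟨G, hG, hGg⟩ := curry_hol hV hgc hgd
  have hGs : ContDiffOn ℝ (⊤ : ℕ∞) G (D.Ue δ) := hol_contDiffOn hV hG
  have hqs : ContDiffOn ℝ (⊤ : ℕ∞) (fun z => conj (q z)) (D.Ue δ) :=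
    Complex.conjCLE.contDiff.comp_contDiffOn (hol_contDiffOn hV hq)
  set B : ℂ → C(K, ℂ) := fun z => ∑ j, ((h.om j z : ℝ) : ℂ) • w j with hB
  have hBs : ContDiffOn ℝ (⊤ : ℕ∞) B (D.Ue δ) := by
    refine ContDiffOn.sum fun j _ => ?_
    have h1 : ContDiffOn ℝ (⊤ : ℕ∞) (fun z => ((h.om j z : ℝ) : ℂ)) (D.Ue δ) :=
      Complex.ofRealCLM.contDiff.comp_contDiffOn (h.smooth j)
    exact h1.smul contDiffOn_const
  set A : ℂ → C(K, ℂ) := fun z => conj (q z) • (NormedSpace.exp (B z) * G z) with hA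
  have hAs : ContDiffOn ℝ (⊤ : ℕ∞) A (D.Ue δ) :=
    hqs.smul ((E1_exp_contDiff.comp_contDiffOn hBs).mul hGs)
  have hAe : ∀ z ∈ D.U, ∀ u, A z u = Complex.exp (h.rhoC (fun j => w j u) z) * g u z *
      conj (q z) := by
    intro z hz u
    have h1 : B z u = h.rhoC (fun j => w j u) z := by
      simp only [hB, HM.rhoC]
      rw [ContinuousMap.coe_sum, Finset.sum_apply]
      refine Finset.sum_congr rfl fun j _ => ?_
      simp [mul_comm]
    simp only [hA, ContinuousMap.coe_smul, ContinuousMap.coe_mul, Pi.smul_apply, Pi.mul_apply,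
      smul_eq_mul]
    rw [E1_exp_apply, h1, hGg z (hcV (D.U_subset_cU hz))]
    ring
  set Ec : ι → C(K, ℂ) := fun i => ⟨fun u => Complex.exp (Complex.I * (ph i u : ℂ)), by fun_prop⟩
    with hEc
  set J : ι → ℝ → C(K, ℂ) := fun i N => ∫ z in D.U, ((ps.chi i z : ℂ) *
    Complex.exp (Complex.I * (N * (h.rho x z - ps.c i) : ℝ))) • A z with hJ
  refine ⟨fun N => ∑ i, Ec i * J i N, fun N u => ?_, ?_⟩
  · rw [ContinuousMap.coe_sum, Finset.sum_apply, Bv]
    refine Finset.sum_congr rfl fun i _ => ?_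
    rw [ContinuousMap.coe_mul, Pi.mul_apply]
    have h1 : (J i N) u = ∫ z in D.U, (((ps.chi i z : ℂ) *
        Complex.exp (Complex.I * (N * (h.rho x z - ps.c i) : ℝ))) • A z) u := by
      have h2 := (ContinuousMap.evalCLM ℂ u).integral_comp_comm (μ := volume.restrict D.U)
        (φ := fun z => ((ps.chi i z : ℂ) *
          Complex.exp (Complex.I * (N * (h.rho x z - ps.c i) : ℝ))) • A z) ?_
      · exact h2.symm
      · have hc : ContinuousOn (fun z => ((ps.chi i z : ℂ) *
            Complex.exp (Complex.I * (N * (h.rho x z - ps.c i) : ℝ))) • A z) D.cU := by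
          have h3 : ContinuousOn (h.rho x) D.cU :=
            ((rho_facts h hτ hδ x 0).1.continuousOn).mono hcV
          have h4 : ContinuousOn (fun z => Complex.exp (Complex.I *
              (N * (h.rho x z - ps.c i) : ℝ))) D.cU := by
            refine Complex.continuous_exp.comp_continuousOn (continuousOn_const.mul ?_)
            exact Complex.continuous_ofReal.comp_continuousOn
              (continuousOn_const.mul (h3.sub continuousOn_const))
          have h5 : ContinuousOn (fun z => (ps.chi i z : ℂ)) D.cU :=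
            (Complex.continuous_ofReal.comp (ps.smooth i).continuous).continuousOn
          exact (h5.mul h4).smul (hAs.continuousOn.mono hcV)
        exact (hc.integrableOn_compact D.cU_compact).mono_set D.U_subset_cU
    rw [h1]
    have h2 : (Ec i) u = Complex.exp (Complex.I * (ph i u : ℂ)) := rfl
    rw [h2]
    congr 1
    refine setIntegral_congr_fun D.U_open.measurableSet fun z hz => ?_
    simp only [ContinuousMap.coe_smul, Pi.smul_apply, smul_eq_mul]
    rw [hAe z hz u]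
    ring
  · refine HasExp.sum _ fun i _ => ?_
    have h1 := hexp C(K, ℂ) A hAs i
    exact h1.clm (ContinuousLinearMap.mul ℂ C(K, ℂ) (Ec i))

end

end Pool.Agent.KA
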