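import Pool.Agent.Helper9.KA.D5a

set_option autoImplicit false

open MeasureTheory Set Filter Asymptotics Topology Metric
open scoped ComplexConjugate ENNReal

namespace Pool.Agent.KA

open Pool.Agent.Helper7.KE hiding HM PS Bv sfun FF tt lS
open Pool.Agent.EN (AJ ann ann2)

section
variable {k : ℕ} {D : AJ k} {τ δ : ℝ} {ι : Type} [Fintype ι] [DecidableEq ι]

theorem Bv_equiv (h : HM D τ δ) (hδ : 0 < δ) {e e' x x₀ : Fin k → ℝ} (ps : PS D (h.rho e) ι)
    {f : ℂ → ℂ} (hf : ∀ z ∈ D.Ue δ, ‖f z‖ ^ 2 = Real.exp (h.rho x₀ z)) {t : ℝ} {φ : ι → ℝ}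
    {n : ι → ℤ} (h1 : ∀ j, t * e' j = x j + x₀ j)
    (h2 : ∀ i, t * ps.c i = φ i + 2 * Real.pi * n i) (N : ℝ) (μ : ℂ) (g q : ℂ → ℂ) :
    Bv h ps N 0 (fun j => (t + μ) * (e' j + Complex.I * e j)) g q =
      Bv h ps (N + t) φ (fun j => x j + μ * (e' j + Complex.I * e j))
        (fun z => f z * g z) (fun z => f z * q z) := by
  unfold Bv
  refine Finset.sum_congr rfl fun i _ => ?_
  rw [← integral_const_mul, ← integral_const_mul]
  apply setIntegral_congr_fun D.U_open.measurableSet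
  intro z hz
  have hzU : z ∈ D.Ue δ := D.cU_subset_Ue hδ (D.U_subset_cU hz)
  have hff : f z * conj (f z) = Complex.exp (h.rho x₀ z : ℝ) := by
    rw [Complex.mul_conj, Complex.normSq_eq_norm_sq, hf z hzU, Complex.ofReal_exp]
  have e1 : h.rhoC (fun j => (t + μ) * (e' j + Complex.I * e j)) z
      = (h.rho x z : ℝ) + (h.rho x₀ z : ℝ) + Complex.I * t * (h.rho e z : ℝ)
        + μ * ∑ j, ((e' j : ℂ) + Complex.I * e j) * (h.om j z : ℂ) := by
    have e3 : (h.rho x z : ℂ) + (h.rho x₀ z : ℝ) = ∑ j, (t : ℂ) * e' j * (h.om j z : ℂ) := by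
      simp only [HM.rho]
      push_cast
      rw [← Finset.sum_add_distrib]
      refine Finset.sum_congr rfl fun j _ => ?_
      have : ((t * e' j : ℝ) : ℂ) = ((x j + x₀ j : ℝ) : ℂ) := by rw [h1 j]
      push_cast at this
      rw [this]; ring
    have e4 : (h.rho e z : ℂ) = ∑ j, (e j : ℂ) * (h.om j z : ℂ) := by
      simp [HM.rho]
    rw [e3, e4, HM.rhoC, Finset.mul_sum, Finset.mul_sum, ← Finset.sum_add_distrib,
      ← Finset.sum_add_distrib]
    refine Finset.sum_congr rfl fun j _ => ?_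
    ring
  have e2 : h.rhoC (fun j => x j + μ * (e' j + Complex.I * e j)) z
      = (h.rho x z : ℝ) + μ * ∑ j, ((e' j : ℂ) + Complex.I * e j) * (h.om j z : ℂ) := by
    simp only [HM.rhoC, HM.rho]
    push_cast
    rw [Finset.mul_sum, ← Finset.sum_add_distrib]
    refine Finset.sum_congr rfl fun j _ => ?_
    ring
  simp only
  rw [map_mul, e1, e2]
  set S : ℂ := ∑ j, ((e' j : ℂ) + Complex.I * e j) * (h.om j z : ℂ) with hS
  have key : Complex.exp (Complex.I * ((0 : ι → ℝ) i : ℝ)) *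
      Complex.exp (Complex.I * ((N * (h.rho e z - ps.c i) : ℝ) : ℂ)) *
      Complex.exp ((h.rho x z : ℝ) + (h.rho x₀ z : ℝ) + Complex.I * t * (h.rho e z : ℝ) + μ * S)
      = Complex.exp (Complex.I * (φ i : ℝ)) *
        Complex.exp (Complex.I * (((N + t) * (h.rho e z - ps.c i) : ℝ) : ℂ)) *
        Complex.exp ((h.rho x z : ℝ) + μ * S) * Complex.exp (h.rho x₀ z : ℝ) := by
    rw [← Complex.exp_add, ← Complex.exp_add, ← Complex.exp_add, ← Complex.exp_add,
      ← Complex.exp_add, Complex.exp_eq_exp_iff_exists_int]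
    refine ⟨n i, ?_⟩
    have h3 : (t : ℂ) * ps.c i = φ i + 2 * Real.pi * n i := by
      have := congrArg (fun r : ℝ => (r : ℂ)) (h2 i)
      push_cast at this
      exact this
    push_cast
    simp only [Pi.zero_apply, Complex.ofReal_zero]
    linear_combination (Complex.I) * h3
  calc Complex.exp (Complex.I * ((0 : ι → ℝ) i : ℝ)) *
        ((ps.chi i z : ℂ) * Complex.exp (Complex.I * ((N * (h.rho e z - ps.c i) : ℝ) : ℂ)) *
        Complex.exp ((h.rho x z : ℝ) + (h.rho x₀ z : ℝ) + Complex.I * t * (h.rho e z : ℝ) + μ * S)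
          * g z * conj (q z))
      = (Complex.exp (Complex.I * ((0 : ι → ℝ) i : ℝ)) *
      Complex.exp (Complex.I * ((N * (h.rho e z - ps.c i) : ℝ) : ℂ)) *
      Complex.exp ((h.rho x z : ℝ) + (h.rho x₀ z : ℝ) + Complex.I * t * (h.rho e z : ℝ) + μ * S))
        * ((ps.chi i z : ℂ) * g z * conj (q z)) := by ring
    _ = _ := by
        rw [key, ← hff]; ring

end

end Pool.Agent.KA
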