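import Pool.Agent.Helper9.KA.C7a
import Pool.Agent.Helper9.KA.D5a

set_option autoImplicit false

open MeasureTheory Set Filter Asymptotics Topology Metric
open scoped ComplexConjugate ENNReal

namespace Pool.Agent.KA

open Pool.Agent.Helper7.KE hiding HM PS Bv sfun FF tt lS
open Pool.Agent.EN (AJ ann ann2)

section
variable {k : ℕ} {D : AJ k} {τ δ : ℝ}

theorem E2b_X_smooth (hτ : D.Good τ) (t : Fin k → ℂ) : ContDiff ℝ (⊤ : ℕ∞) (D.X τ t) := by
  unfold AJ.X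
  apply ContDiff.add contDiff_const
  apply ContDiff.sum
  intro j _
  exact contDiff_const.mul (Complex.ofRealCLM.contDiff.comp (chi_smooth D hτ (some j)))

/-- the core identity -/
theorem E2b_Lt (h : HM D τ δ) (hτ : D.Good τ) (hδ : 0 < δ)
    {x₀ : Fin k → ℝ} {f : ℂ → ℂ} {V : Set ℂ} (hVo : IsOpen V) (hcU : D.cU ⊆ V)
    (hVU : V ⊆ D.Ue δ) (hfd : DifferentiableOn ℂ f V)
    (hf0 : ∀ z ∈ V, f z ≠ 0)
    (hf : ∀ z ∈ V, ‖f z‖ ^ 2 = Real.exp (h.rho x₀ z)) {t t' : Fin k → ℂ}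
    (ht : ∀ j, t j = t' j * Real.exp (x₀ j)) {g : ℂ → ℂ} (hg : D.Hol2 g) {b : ℂ → ℂ}
    (hb : DifferentiableOn ℂ b V) :
    D.Lt τ t' (fun z => f z * g z) b = D.Lt τ t g (fun z => b z / f z) := by
  have hfR : ContDiffOn ℝ (⊤ : ℕ∞) f V := hol_contDiffOn hVo hfd
  have hbR : ContDiffOn ℝ (⊤ : ℕ∞) b V := hol_contDiffOn hVo hb
  have hX := E2b_X_smooth (D := D) hτ t'
  obtain ⟨-, -, -, -, -, -, hn, hs⟩ := rho_facts h hτ hδ x₀ 0
  have hconj : ∀ {F : ℂ → ℂ}, ContDiffOn ℝ (⊤ : ℕ∞) F V →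
      ContDiffOn ℝ (⊤ : ℕ∞) (fun z => conj (F z)) V := fun hF =>
    (Complex.conjCLE : ℂ →L[ℝ] ℂ).contDiff.comp_contDiffOn hF
  set S : ℂ → ℂ := fun z => D.X τ t' z * (f z * conj (f z)) with hSdef
  have hS : ContDiffOn ℝ (⊤ : ℕ∞) S V := hX.contDiffOn.mul (hfR.mul (hconj hfR))
  have hff : ∀ z ∈ V, f z * conj (f z) = ((Real.exp (h.rho x₀ z) : ℝ) : ℂ) := by
    intro z hz
    rw [Complex.mul_conj, Complex.normSq_eq_norm_sq, hf z hz]
  have hcirc : ∀ l, D.circ l ⊆ V := fun l z hz =>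
    hcU ((mem_cU_iff D z).2 (Or.inr ⟨l, hz⟩))
  have hab : DifferentiableOn ℂ (fun z => b z / f z) V := hb.div hfd hf0
  rw [Lt_boundary D hτ t hg hVo hcU hab hS]
  · unfold AJ.Lt
    apply setIntegral_congr_fun D.U_open.measurableSet
    intro z hz
    have hzV := hcU (D.U_subset_cU hz)
    have hzn : V ∈ 𝓝 z := hVo.mem_nhds hzV
    have hfz : DifferentiableAt ℂ f z := hfd.differentiableAt hzn
    have hF : DifferentiableAt ℝ (fun w => D.X τ t' w * conj (b w)) z := by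
      have h1 : DifferentiableAt ℝ (D.X τ t') z :=
        (hX.differentiable (by simp)) z
      have h2 : DifferentiableAt ℝ (fun w => conj (b w)) z :=
        ((hconj hbR).differentiableOn (by simp)).differentiableAt hzn
      exact h1.mul h2
    have h3 := (dz_smul (hfz.restrictScalars ℝ) hF).2
    rw [(dz_hol hfz).2, zero_smul, zero_add] at h3
    have h4 : (fun w => f w • (D.X τ t' w * conj (b w)))
        =ᶠ[𝓝 z] fun w => S w * conj (b w / f w) := by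
      filter_upwards [hzn] with w hw
      have h5 : conj (f w) ≠ 0 := by
        rw [Ne, map_eq_zero]; exact hf0 w hw
      simp only [hSdef, smul_eq_mul, map_div₀]
      field_simp
    have h6 := (dz_congr h4).2
    rw [h3] at h6
    simp only
    rw [← h6, smul_eq_mul]
    ring
  · intro z hz
    simp only [hSdef]
    rw [((X_circ D hτ t').1 z hz).self_of_nhds, hff z (hcirc none hz), (hn z hz).1]
    simp
  · intro j z hz
    simp only [hSdef]
    rw [((X_circ D hτ t').2 j z hz).self_of_nhds, hff z (hcirc (some j) hz), (hs j z hz).1, ht]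

theorem VV_equiv (h : HM D τ δ) (hτ : D.Good τ) (hδ : 0 < δ) (hδτ : δ ≤ τ) {z₀ : ℂ}
    (hz₀ : z₀ ∈ D.U) {x₀ : Fin k → ℝ} {f : ℂ → ℂ} (hfd : DifferentiableOn ℂ f (D.Ue δ))
    (hf0 : ∀ z ∈ D.Ue δ, f z ≠ 0)
    (hf : ∀ z ∈ D.Ue δ, ‖f z‖ ^ 2 = Real.exp (h.rho x₀ z)) {t t' : Fin k → ℂ}
    (ht : ∀ j, t j = t' j * Real.exp (x₀ j)) {g : ℂ → ℂ} (hg : D.VV τ z₀ t g) :
    D.VV τ z₀ t' (fun z => f z * g z) ∧
      sfun D τ t' (fun z => f z * g z) = (conj (f z₀))⁻¹ * sfun D τ t g := by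
  have hcU := D.cU_subset_Ue hδ
  have hVo := D.Ue_open δ
  have hz₀V : z₀ ∈ D.Ue δ := hcU (D.U_subset_cU hz₀)
  have hH : D.Hol2 (fun z => f z * g z) := by
    refine ⟨(hfd.mono ((D.U_subset_cU).trans hcU)).mul hg.hol.diff, ?_⟩
    have h1 := D.mul_memLp (hfd.continuousOn.mono hcU) hg.hol.memLp.toLp
    refine h1.ae_eq ?_
    filter_upwards [hg.hol.memLp.coeFn_toLp] with z hz
    rw [hz]
  have key : ∀ {b : ℂ → ℂ}, DifferentiableOn ℂ b (D.Ue δ) →
      D.Lt τ t' (fun z => f z * g z) b = D.Lt τ t g (fun z => b z / f z) := fun hb =>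
    E2b_Lt h hτ hδ hVo hcU le_rfl hfd hf0 hf ht hg.hol hb
  refine ⟨⟨hH, fun b hb => ?_⟩, ?_⟩
  · obtain ⟨δ', hδ', hbd⟩ := hb.ex
    have hm : 0 < min δ δ' := lt_min hδ hδ'
    have hs1 : D.Ue (min δ δ') ⊆ D.Ue δ := D.Ue_mono (min_le_left _ _)
    have hs2 : D.Ue (min δ δ') ⊆ D.Ue δ' := D.Ue_mono (min_le_right _ _)
    rw [E2b_Lt h hτ hδ (D.Ue_open _) (D.cU_subset_Ue hm) hs1 (hfd.mono hs1)
      (fun z hz => hf0 z (hs1 hz)) (fun z hz => hf z (hs1 hz)) ht hg.hol (hbd.mono hs2)]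
    exact VV_ann D t hg hm ((hbd.mono hs2).div (hfd.mono hs1) (fun z hz => hf0 z (hs1 hz)))
      (by simp [hb.zero])
  · rw [← Lt_one D hτ t' hH, key (differentiableOn_const (1 : ℂ))]
    have h1 : (fun z => (1 : ℂ) / f z) = fun z => (1 / f z - 1 / f z₀) + (1 / f z₀) * 1 := by
      ext z; ring
    have hd : DifferentiableOn ℂ (fun z => 1 / f z - 1 / f z₀) (D.Ue δ) :=
      ((differentiableOn_const (1 : ℂ)).div hfd hf0).sub (differentiableOn_const _)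
    rw [h1, Lt_linear D hτ t hg.hol hVo hcU hd (differentiableOn_const (1 : ℂ)),
      VV_ann D t hg hδ hd (by simp), zero_add, Lt_one D hτ t hg.hol]
    congr 1
    rw [one_div, map_inv₀]

end

end Pool.Agent.KA
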