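import Pool.Agent.Helper7.KE.A1
import Pool.Agent.Helper9.KA.A5a
import Pool.Agent.Helper9.KA.D5a

/-!
# Elementary facts on phase systems (used in E3a, E4, E5b)
-/

set_option autoImplicit false

open MeasureTheory Set Filter Asymptotics Topology Metric
open scoped ComplexConjugate ENNReal

namespace Pool.Agent.KA

open Pool.Agent.Helper7.KE hiding HM PS Bv sfun FF tt lS
open Pool.Agent.EN (AJ ann ann2)

section
variable {k : ℕ} {D : AJ k} {τ δ : ℝ} {ι : Type} [Fintype ι] [DecidableEq ι]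

/-- if one cutoff is `1` near `z`, the other ones vanish near `z` -/
theorem PS.eq_zero_near {ρ : ℂ → ℝ} (ps : PS D ρ ι) {i j : ι} (hij : i ≠ j) {z : ℂ}
    (hz : ∀ᶠ w in 𝓝 z, ps.chi i w = 1) : ∀ᶠ w in 𝓝 z, ps.chi j w = 0 := by
  have h1 : z ∈ tsupport (ps.chi i) := by
    refine subset_closure ?_
    rw [Function.mem_support, hz.self_of_nhds]
    exact one_ne_zero
  have h2 : z ∉ tsupport (ps.chi j) := fun h3 => Set.disjoint_left.mp (ps.disj i j hij) h1 h3
  exact notMem_tsupport_iff_eventuallyEq.mp h2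

/-- if one cutoff is `1` near `z`, then all cutoffs are constant near `z` -/
theorem PS.dz_zero_near {ρ : ℂ → ℝ} (ps : PS D ρ ι) {j : ι} {z : ℂ}
    (hz : ∀ᶠ w in 𝓝 z, ps.chi j w = 1) (i : ι) :
    ∀ᶠ w in 𝓝 z, dz (fun u => (ps.chi i u : ℂ)) w = 0 ∧ dzb (fun u => (ps.chi i u : ℂ)) w = 0 := by
  have h1 : ∃ c : ℝ, ∀ᶠ w in 𝓝 z, ps.chi i w = c := by
    by_cases hij : j = i
    · subst hij; exact ⟨1, hz⟩
    · exact ⟨0, ps.eq_zero_near hij hz⟩
  obtain ⟨c, hc⟩ := h1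
  filter_upwards [eventually_eventually_nhds.mpr hc] with w hw
  have h2 : (fun u => (ps.chi i u : ℂ)) =ᶠ[𝓝 w] fun _ => (c : ℂ) := by
    filter_upwards [hw] with u hu
    rw [hu]
  have h3 := dz_congr h2
  have h4 := dz_const (c := (c : ℂ)) (z := w)
  exact ⟨h3.1.trans h4.1, h3.2.trans h4.2⟩

theorem PS.dz_zero_circ {ρ : ℂ → ℝ} (ps : PS D ρ ι) (l : Option (Fin k)) {z : ℂ}
    (hz : z ∈ D.circ l) (i : ι) :
    ∀ᶠ w in 𝓝 z, dz (fun u => (ps.chi i u : ℂ)) w = 0 ∧ dzb (fun u => (ps.chi i u : ℂ)) w = 0 :=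
  ps.dz_zero_near (ps.bd_near l z hz) i

theorem PS.chi_circ {ρ : ℂ → ℝ} (ps : PS D ρ ι) (l : Option (Fin k)) {z : ℂ}
    (hz : z ∈ D.circ l) (i : ι) : ps.chi i z = if i = ps.bd l then 1 else 0 := by
  have h1 := ps.bd_near l z hz
  split_ifs with hi
  · rw [hi]; exact h1.self_of_nhds
  · exact (ps.eq_zero_near (Ne.symm hi) h1).self_of_nhds

/-- a smooth function vanishing near the circles and the critical points, cut off at the domain, is
a test function in the set of noncritical points -/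
theorem PS.isTest (hτ : D.Good τ) (hδ : 0 < δ) (h : HM D τ δ) {x : Fin k → ℝ} {B : ℂ → ℂ}
    (hB : ContDiffOn ℝ (⊤ : ℕ∞) B (D.Ue δ)) (h0 : ∀ l, ∀ z ∈ D.circ l, ∀ᶠ w in 𝓝 z, B w = 0)
    (h1 : ∀ z ∈ D.U, h.vv x z = 0 → ∀ᶠ w in 𝓝 z, B w = 0) :
    IsTest D.U (D.U.indicator B) ∧ (∀ z ∈ tsupport (D.U.indicator B), h.vv x z ≠ 0) ∧
      IsTest {z | z ∈ D.U ∧ h.vv x z ≠ 0} (D.U.indicator B) := by
  have h2 : IsTest D.U (D.U.indicator B) :=
    isTest_indicator D (D.Ue_open δ) (D.cU_subset_Ue hδ) hB h0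
  have h3 : ∀ z ∈ tsupport (D.U.indicator B), h.vv x z ≠ 0 := by
    intro z hz hvz
    have hzU : z ∈ D.U := h2.supp hz
    have h4 := h1 z hzU hvz
    refine (notMem_tsupport_iff_eventuallyEq.mpr ?_) hz
    filter_upwards [h4] with w hw
    by_cases hwU : w ∈ D.U
    · rw [indicator_of_mem hwU, hw]; rfl
    · rw [indicator_of_notMem hwU]; rfl
  exact ⟨h2, h3, ⟨h2.smooth, h2.compact, fun z hz => ⟨h2.supp hz, h3 z hz⟩⟩⟩

/-- the derivatives of the cutoffs, times a smooth function -/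
theorem PS.isTest_dz (hτ : D.Good τ) (hδ : 0 < δ) (h : HM D τ δ) {x : Fin k → ℝ}
    (ps : PS D (h.rho x) ι) (i : ι) {F : ℂ → ℂ} (hF : ContDiffOn ℝ (⊤ : ℕ∞) F (D.Ue δ)) :
    (IsTest D.U (D.U.indicator fun z => dz (fun u => (ps.chi i u : ℂ)) z * F z) ∧
      (∀ z ∈ tsupport (D.U.indicator fun z => dz (fun u => (ps.chi i u : ℂ)) z * F z),
        h.vv x z ≠ 0) ∧
      IsTest {z | z ∈ D.U ∧ h.vv x z ≠ 0}
        (D.U.indicator fun z => dz (fun u => (ps.chi i u : ℂ)) z * F z)) ∧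
    (IsTest D.U (D.U.indicator fun z => dzb (fun u => (ps.chi i u : ℂ)) z * F z) ∧
      (∀ z ∈ tsupport (D.U.indicator fun z => dzb (fun u => (ps.chi i u : ℂ)) z * F z),
        h.vv x z ≠ 0) ∧
      IsTest {z | z ∈ D.U ∧ h.vv x z ≠ 0}
        (D.U.indicator fun z => dzb (fun u => (ps.chi i u : ℂ)) z * F z)) := by
  have hc : ContDiff ℝ (⊤ : ℕ∞) (fun u => (ps.chi i u : ℂ)) :=
    Complex.ofRealCLM.contDiff.comp (ps.smooth i)
  have hd := dz_contDiffOn isOpen_univ hc.contDiffOn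
  have hcrit : ∀ z ∈ D.U, h.vv x z = 0 → ∀ᶠ w in 𝓝 z,
      dz (fun u => (ps.chi i u : ℂ)) w = 0 ∧ dzb (fun u => (ps.chi i u : ℂ)) w = 0 := by
    intro z hz hv
    have hzc : z ∈ D.cU := D.U_subset_cU hz
    have h1 := (rho_facts h hτ hδ x 0).2.2.2.1 z (D.cU_subset_Ue hδ hzc)
    obtain ⟨j, hj⟩ := ps.crit_near z hzc (h1.trans hv)
    exact ps.dz_zero_near hj i
  constructor
  · refine PS.isTest hτ hδ h ((hd.1.mono (subset_univ _)).mul hF) ?_ ?_
    · intro l z hz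
      filter_upwards [ps.dz_zero_circ l hz i] with w hw
      rw [hw.1, zero_mul]
    · intro z hz hv
      filter_upwards [hcrit z hz hv] with w hw
      rw [hw.1, zero_mul]
  · refine PS.isTest hτ hδ h ((hd.2.mono (subset_univ _)).mul hF) ?_ ?_
    · intro l z hz
      filter_upwards [ps.dz_zero_circ l hz i] with w hw
      rw [hw.2, zero_mul]
    · intro z hz hv
      filter_upwards [hcrit z hz hv] with w hw
      rw [hw.2, zero_mul]

/-- the set of noncritical points of the domain is open -/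
theorem noncrit_open (hδ : 0 < δ) (h : HM D τ δ) (x : Fin k → ℝ) :
    IsOpen {z | z ∈ D.U ∧ h.vv x z ≠ 0} := by
  have hv : ContinuousOn (h.vv x) D.U := by
    unfold HM.vv
    refine continuousOn_finsetSum _ fun j _ => continuousOn_const.mul ?_
    exact (h.hol j).continuousOn.mono (D.U_subset_cU.trans (D.cU_subset_Ue hδ))
  exact hv.isOpen_inter_preimage D.U_open (t := {0}ᶜ) isOpen_compl_singleton

/-- constant multiples -/
theorem dz_cmul {c : ℂ} {F : ℂ → ℂ} {z : ℂ} (hF : DifferentiableAt ℝ F z) :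
    dz (fun w => c * F w) z = c * dz F z ∧ dzb (fun w => c * F w) z = c * dzb F z := by
  have h1 := dz_smul (f := fun _ => c) (differentiableAt_const _) hF
  simp only [smul_eq_mul, dz_const.1, dz_const.2, zero_mul, zero_add] at h1
  exact h1

/-- the actual exponent `lS` is smooth near the closed domain -/
theorem lS_smooth (hτ : D.Good τ) (hδ : 0 < δ) (h : HM D τ δ) {x : Fin k → ℝ}
    (ps : PS D (h.rho x) ι) (N : ℝ) (y : ι → ℝ) (w : Fin k → ℂ) :
    ContDiffOn ℝ (⊤ : ℕ∞) (lS h ps N y w) (D.Ue δ) := by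
  obtain ⟨hρ, hρc, -⟩ := rho_facts h hτ hδ x w
  unfold lS
  refine ContDiffOn.add (ContDiffOn.add ?_ ?_) hρc
  · refine contDiffOn_const.mul ?_
    refine Complex.ofRealCLM.contDiff.comp_contDiffOn (f := fun z => N * h.rho x z) ?_
    exact contDiffOn_const.mul hρ
  · refine contDiffOn_const.mul ?_
    refine Complex.ofRealCLM.contDiff.comp_contDiffOn (f := fun z => ∑ i, y i * ps.chi i z) ?_
    exact (ContDiff.sum fun i _ => contDiff_const.mul (ps.smooth i)).contDiffOn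

/-- derivatives of the actual exponent -/
theorem lS_deriv (hτ : D.Good τ) (hδ : 0 < δ) (h : HM D τ δ) {x : Fin k → ℝ}
    (ps : PS D (h.rho x) ι) (N : ℝ) (y : ι → ℝ) (w : Fin k → ℂ) {z : ℂ} (hz : z ∈ D.Ue δ) :
    dz (lS h ps N y w) z = Complex.I * N * h.vv x z +
        Complex.I * ∑ i, y i * dz (fun u => (ps.chi i u : ℂ)) z + dz (h.rhoC w) z ∧
      dzb (lS h ps N y w) z = Complex.I * N * conj (h.vv x z) +
        Complex.I * ∑ i, y i * dzb (fun u => (ps.chi i u : ℂ)) z + h.vb w z := by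
  obtain ⟨hρ, hρc, -, hdz, hdzb, hvb, -⟩ := rho_facts h hτ hδ x w
  have hzn := (D.Ue_open δ).mem_nhds hz
  have hρ' : ContDiffOn ℝ (⊤ : ℕ∞) (fun z => (h.rho x z : ℂ)) (D.Ue δ) :=
    Complex.ofRealCLM.contDiff.comp_contDiffOn hρ
  have d1 : DifferentiableAt ℝ (fun z => (h.rho x z : ℂ)) z :=
    (hρ'.contDiffAt hzn).differentiableAt (by simp)
  have d2 : DifferentiableAt ℝ (h.rhoC w) z := (hρc.contDiffAt hzn).differentiableAt (by simp)
  have hc : ∀ i, ContDiff ℝ (⊤ : ℕ∞) (fun u => (ps.chi i u : ℂ)) := fun i =>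
    Complex.ofRealCLM.contDiff.comp (ps.smooth i)
  have d3 : ∀ i, DifferentiableAt ℝ (fun u => (ps.chi i u : ℂ)) z := fun i =>
    (hc i).contDiffAt.differentiableAt (by simp)
  have d4 : ∀ i ∈ (Finset.univ : Finset ι), DifferentiableAt ℝ
      (fun u => (y i : ℂ) * (ps.chi i u : ℂ)) z := fun i _ => (d3 i).const_mul _
  have d5 : DifferentiableAt ℝ (fun u => ∑ i, (y i : ℂ) * (ps.chi i u : ℂ)) z :=
    DifferentiableAt.fun_sum d4
  have d6 : DifferentiableAt ℝ (fun u => (Complex.I * N) * (h.rho x u : ℂ)) z := d1.const_mul _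
  have d7 : DifferentiableAt ℝ (fun u => Complex.I * ∑ i, (y i : ℂ) * (ps.chi i u : ℂ)) z :=
    d5.const_mul _
  have d8 : DifferentiableAt ℝ (fun u => (Complex.I * N) * (h.rho x u : ℂ) +
      Complex.I * ∑ i, (y i : ℂ) * (ps.chi i u : ℂ)) z := d6.add d7
  have e1 : lS h ps N y w = fun u => ((Complex.I * N) * (h.rho x u : ℂ) +
      Complex.I * ∑ i, (y i : ℂ) * (ps.chi i u : ℂ)) + h.rhoC w u := by
    funext u
    simp only [lS]
    push_cast
    ring
  rw [e1]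
  constructor
  · rw [(dz_add d8 d2).1, (dz_add d6 d7).1, (dz_cmul d1).1, (dz_cmul d5).1, (dz_sum _ d4).1,
      hdz z hz]
    congr 3
    exact Finset.sum_congr rfl fun i _ => (dz_cmul (d3 i)).1
  · rw [(dz_add d8 d2).2, (dz_add d6 d7).2, (dz_cmul d1).2, (dz_cmul d5).2, (dz_sum _ d4).2,
      hdzb z hz, hvb z hz]
    congr 3
    exact Finset.sum_congr rfl fun i _ => (dz_cmul (d3 i)).2

/-- values of the actual exponent on the circles -/
theorem lS_circ (hτ : D.Good τ) (hδ : 0 < δ) (h : HM D τ δ) {x : Fin k → ℝ}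
    (ps : PS D (h.rho x) ι) (N : ℝ) (y : ι → ℝ) (w : Fin k → ℂ) (l : Option (Fin k)) {z : ℂ}
    (hz : z ∈ D.circ l) : lS h ps N y w z =
      Complex.I * (N * ps.c (ps.bd l) + y (ps.bd l) : ℝ) + l.elim 0 w := by
  obtain ⟨-, -, -, -, -, -, hn, hs⟩ := rho_facts h hτ hδ x w
  have h1 : h.rho x z = ps.c (ps.bd l) := ps.val_circ l z hz
  have h2 : ∑ i, y i * ps.chi i z = y (ps.bd l) := by
    simp [ps.chi_circ l hz]
  have h3 : h.rhoC w z = l.elim 0 w := by
    cases l with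
    | none => exact (hn z hz).2
    | some j => exact (hs j z hz).2
  simp only [lS, h1, h2, h3]
  push_cast
  ring

end

end Pool.Agent.KA
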