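import Pool.Agent.Helper7.KE.B5
import Pool.Agent.Helper9.KA.A2b
import Pool.Agent.Helper9.KA.D5b
import Pool.Agent.Helper9.KA.PSaux

set_option autoImplicit false

open MeasureTheory Set Filter Asymptotics Topology Metric
open scoped ComplexConjugate ENNReal

namespace Pool.Agent.KA

open Pool.Agent.Helper7.KE hiding HM PS Bv sfun FF tt lS
open Pool.Agent.EN (AJ ann ann2)

section
variable {k : ℕ} {D : AJ k} {τ δ : ℝ} {ι : Type} [Fintype ι] [DecidableEq ι]

private theorem e3a_integrable {k : ℕ} (D : AJ k) {F : ℂ → ℂ} (hF : ContinuousOn F D.cU) :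
    Integrable F (volume.restrict D.U) :=
  (hF.integrableOn_compact D.cU_compact).mono_set D.U_subset_cU

private theorem e3a_int3 {k : ℕ} (D : AJ k) {A B C : ℂ → ℂ}
    (hA : Integrable A (volume.restrict D.U)) (hB : Integrable B (volume.restrict D.U))
    (hC : Integrable C (volume.restrict D.U)) :
    ∫ z in D.U, (A z - B z + C z) = (∫ z in D.U, A z) - (∫ z in D.U, B z) + ∫ z in D.U, C z := by
  have a1 : ∫ z in D.U, (A z - B z + C z) = (∫ z in D.U, (A z - B z)) + ∫ z in D.U, C z :=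
    integral_add (hA.sub hB) hC
  rw [a1, integral_sub hA hB]

/-- integration by parts for one cutoff -/
private theorem e3a_parts (hτ : D.Good τ) (hδ : 0 < δ) (h : HM D τ δ) {x : Fin k → ℝ}
    (ps : PS D (h.rho x) ι) {q : ℂ → ℂ} (hq : DifferentiableOn ℂ q (D.Ue δ)) (N : ℝ) (i : ι) :
    (Complex.I * N) * ∫ z in D.U, (ps.chi i z : ℂ) *
        Complex.exp (Complex.I * (N * (h.rho x z - ps.c i) : ℝ)) * h.vv x z * conj (q z) =
      -(∫ z in D.U, Complex.exp (Complex.I * (N * (h.rho x z - ps.c i) : ℝ)) *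
        (dz (fun u => (ps.chi i u : ℂ)) z * conj (q z))) +
      ∫ z in D.U, dz (fun u => (ps.chi i u : ℂ)) z * conj (q z) := by
  obtain ⟨hρ, -, hvv, hdz, -, -, hn, hs⟩ := rho_facts h hτ hδ x 0
  have hUe := D.Ue_open δ
  set W : ℂ → ℂ := fun z => Complex.exp (Complex.I * (N * (h.rho x z - ps.c i) : ℝ)) with hW
  have hc : ContDiff ℝ (⊤ : ℕ∞) (fun u => (ps.chi i u : ℂ)) :=
    Complex.ofRealCLM.contDiff.comp (ps.smooth i)
  have hq' : ContDiffOn ℝ (⊤ : ℕ∞) (fun z => conj (q z)) (D.Ue δ) :=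
    Complex.conjCLE.contDiff.comp_contDiffOn (hol_contDiffOn hUe hq)
  have hρc : ContDiffOn ℝ (⊤ : ℕ∞) (fun z => (h.rho x z : ℂ)) (D.Ue δ) :=
    Complex.ofRealCLM.contDiff.comp_contDiffOn hρ
  have hW' : ContDiffOn ℝ (⊤ : ℕ∞) W (D.Ue δ) := by
    refine ContDiffOn.cexp ?_
    refine contDiffOn_const.mul ?_
    refine Complex.ofRealCLM.contDiff.comp_contDiffOn (f := fun z => N * (h.rho x z - ps.c i)) ?_
    exact contDiffOn_const.mul (hρ.sub contDiffOn_const)
  -- derivative of the exponential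
  have hdW : ∀ z ∈ D.Ue δ, dz (fun w => W w - 1) z = W z * (Complex.I * N * h.vv x z) := by
    intro z hz
    have hzn := hUe.mem_nhds hz
    have hρd : DifferentiableAt ℝ (fun z => (h.rho x z : ℂ)) z :=
      (hρc.contDiffAt hzn).differentiableAt (by simp)
    have hWd : DifferentiableAt ℝ W z := (hW'.contDiffAt hzn).differentiableAt (by simp)
    have e1 : (fun w => W w - 1) = fun w => W w + (-1 : ℂ) := by
      funext w; ring
    rw [e1, (dz_add hWd (differentiableAt_const _)).1, dz_const.1, add_zero]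
    have e2 : W = fun w => Complex.exp ((Complex.I * N) • (h.rho x w : ℂ) +
        (-(Complex.I * N * ps.c i))) := by
      funext w
      simp only [hW, smul_eq_mul]
      congr 1
      push_cast
      ring
    have hlin : DifferentiableAt ℝ (fun w => (Complex.I * N) • (h.rho x w : ℂ)) z :=
      hρd.const_mul (Complex.I * N)
    have hadd : DifferentiableAt ℝ (fun w => (Complex.I * N) • (h.rho x w : ℂ) +
        (-(Complex.I * N * ps.c i))) z := hlin.add_const _
    rw [e2, (dz_cexp hadd).1]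
    rw [(dz_add hlin (differentiableAt_const _)).1, dz_const.1, add_zero]
    rw [(dz_smul (differentiableAt_const _) hρd).1, dz_const.1, hdz z hz]
    simp only [smul_eq_mul, zero_mul, zero_add]
  -- Green
  set F : ℂ → ℂ := fun z => ((ps.chi i z : ℂ) • conj (q z)) • (W z - 1) with hF
  have hF' : ContDiffOn ℝ 1 F (D.Ue δ) := by
    have h1 : ContDiffOn ℝ (⊤ : ℕ∞) F (D.Ue δ) :=
      ((hc.contDiffOn).smul hq').smul (hW'.sub contDiffOn_const)
    exact h1.of_le (by simp)
  have hF0 : ∀ l, ∀ z ∈ D.circ l, F z = 0 := by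
    intro l z hz
    simp only [hF, ps.chi_circ l hz i]
    by_cases hi : i = ps.bd l
    · have h2 : h.rho x z = ps.c i := by rw [hi]; exact ps.val_circ l z hz
      simp [hW, h2]
    · simp [hi]
  have hgreen := (green_zero D hUe (D.cU_subset_Ue hδ) hF' hF0).1
  have hdF : ∀ z ∈ D.U, dz F z = W z * (dz (fun u => (ps.chi i u : ℂ)) z * conj (q z)) -
      dz (fun u => (ps.chi i u : ℂ)) z * conj (q z) +
      (Complex.I * N) * ((ps.chi i z : ℂ) * W z * h.vv x z * conj (q z)) := by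
    intro z hz
    have hzU : z ∈ D.Ue δ := D.cU_subset_Ue hδ (D.U_subset_cU hz)
    have hzn := hUe.mem_nhds hzU
    have hcd : DifferentiableAt ℝ (fun u => (ps.chi i u : ℂ)) z :=
      hc.contDiffAt.differentiableAt (by simp)
    have hqd : DifferentiableAt ℝ (fun z => conj (q z)) z :=
      (hq'.contDiffAt hzn).differentiableAt (by simp)
    have hWd : DifferentiableAt ℝ (fun w => W w - 1) z :=
      ((hW'.contDiffAt hzn).differentiableAt (by simp)).sub_const 1
    have hqz : DifferentiableAt ℂ q z := hq.differentiableAt hzn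
    rw [hF, (dz_smul (f := fun z => (ps.chi i z : ℂ) • conj (q z)) (hcd.smul hqd) hWd).1,
      (dz_smul hcd hqd).1, (dz_conj_hol hqz).1, hdW z hzU]
    simp only [smul_eq_mul, mul_zero, add_zero]
    ring
  have hcW : ContinuousOn W D.cU := hW'.continuousOn.mono (D.cU_subset_Ue hδ)
  have hcq : ContinuousOn (fun z => conj (q z)) D.cU :=
    hq'.continuousOn.mono (D.cU_subset_Ue hδ)
  have hcd : ContinuousOn (dz (fun u => (ps.chi i u : ℂ))) D.cU :=
    ((dz_contDiffOn isOpen_univ hc.contDiffOn).1.continuousOn).mono (subset_univ _)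
  have hcv : ContinuousOn (h.vv x) D.cU := hvv.continuousOn.mono (D.cU_subset_Ue hδ)
  have i1 : Integrable (fun z => W z * (dz (fun u => (ps.chi i u : ℂ)) z * conj (q z)))
      (volume.restrict D.U) := e3a_integrable D (hcW.mul (hcd.mul hcq))
  have i2 : Integrable (fun z => dz (fun u => (ps.chi i u : ℂ)) z * conj (q z))
      (volume.restrict D.U) := e3a_integrable D (hcd.mul hcq)
  have i3 : Integrable (fun z => (Complex.I * N) *
      ((ps.chi i z : ℂ) * W z * h.vv x z * conj (q z))) (volume.restrict D.U) :=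
    (e3a_integrable D (((hc.continuous.continuousOn.mul hcW).mul hcv).mul hcq)).const_mul _
  rw [setIntegral_congr_fun D.U_open.measurableSet hdF] at hgreen
  rw [e3a_int3 D i1 i2 i3, integral_const_mul] at hgreen
  linear_combination hgreen

private theorem e3a_sum (hτ : D.Good τ) (hδ : 0 < δ) (h : HM D τ δ) {x : Fin k → ℝ}
    (ps : PS D (h.rho x) ι) {q : ℂ → ℂ} (hq : DifferentiableOn ℂ q (D.Ue δ)) :
    ∑ i, ∫ z in D.U, dz (fun u => (ps.chi i u : ℂ)) z * conj (q z) = 0 := by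
  have hUe := D.Ue_open δ
  have hc : ∀ i, ContDiff ℝ (⊤ : ℕ∞) (fun u => (ps.chi i u : ℂ)) := fun i =>
    Complex.ofRealCLM.contDiff.comp (ps.smooth i)
  have hq' : ContDiffOn ℝ (⊤ : ℕ∞) (fun z => conj (q z)) (D.Ue δ) :=
    Complex.conjCLE.contDiff.comp_contDiffOn (hol_contDiffOn hUe hq)
  have hcq : ContinuousOn (fun z => conj (q z)) D.cU :=
    hq'.continuousOn.mono (D.cU_subset_Ue hδ)
  have hcd : ∀ i, ContinuousOn (dz (fun u => (ps.chi i u : ℂ))) D.cU := fun i =>
    ((dz_contDiffOn isOpen_univ (hc i).contDiffOn).1.continuousOn).mono (subset_univ _)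
  have hint : ∀ i ∈ (Finset.univ : Finset ι), Integrable
      (fun z => dz (fun u => (ps.chi i u : ℂ)) z * conj (q z)) (volume.restrict D.U) :=
    fun i _ => e3a_integrable D ((hcd i).mul hcq)
  rw [← integral_finsetSum _ hint]
  set F : ℂ → ℂ := fun z => ((∑ i, (ps.chi i z : ℂ)) + (-1)) • conj (q z) with hF
  have hsum : ContDiff ℝ (⊤ : ℕ∞) (fun z => ∑ i, (ps.chi i z : ℂ)) :=
    ContDiff.sum fun i _ => hc i
  have hF' : ContDiffOn ℝ 1 F (D.Ue δ) := by
    have h1 : ContDiffOn ℝ (⊤ : ℕ∞) F (D.Ue δ) :=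
      ((hsum.contDiffOn).add contDiffOn_const).smul hq'
    exact h1.of_le (by simp)
  have hF0 : ∀ l, ∀ z ∈ D.circ l, F z = 0 := by
    intro l z hz
    have h2 : ∀ i, (ps.chi i z : ℂ) = if i = ps.bd l then 1 else 0 := fun i => by
      rw [ps.chi_circ l hz i]; split_ifs <;> simp
    simp only [hF, h2]
    simp
  rw [← (green_zero D hUe (D.cU_subset_Ue hδ) hF' hF0).1]
  refine setIntegral_congr_fun D.U_open.measurableSet fun z hz => ?_
  have hzU : z ∈ D.Ue δ := D.cU_subset_Ue hδ (D.U_subset_cU hz)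
  have hzn := hUe.mem_nhds hzU
  have hcd' : ∀ i, DifferentiableAt ℝ (fun u => (ps.chi i u : ℂ)) z := fun i =>
    (hc i).contDiffAt.differentiableAt (by simp)
  have hsd : DifferentiableAt ℝ (fun z => ∑ i, (ps.chi i z : ℂ)) z :=
    hsum.contDiffAt.differentiableAt (by simp)
  have hqd : DifferentiableAt ℝ (fun z => conj (q z)) z :=
    (hq'.contDiffAt hzn).differentiableAt (by simp)
  have hqz : DifferentiableAt ℂ q z := hq.differentiableAt hzn
  rw [hF]
  rw [(dz_smul (f := fun z => (∑ i, (ps.chi i z : ℂ)) + (-1)) (hsd.add_const _) hqd).1,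
    (dz_add hsd (differentiableAt_const _)).1, dz_const.1, add_zero,
    (dz_sum Finset.univ fun i _ => hcd' i).1, (dz_conj_hol hqz).1]
  simp only [smul_eq_mul, mul_zero, add_zero, Finset.sum_mul]

/-- the vector `u = ∂ρ/∂z` is in the kernel of the virtual forms up to `O(N^{-∞})` -/
theorem kernel_u (hτ : D.Good τ) (hδ : 0 < δ) (hδτ : δ ≤ τ) (h : HM D τ δ) {x : Fin k → ℝ}
    (hx : x ≠ 0) (ps : PS D (h.rho x) ι) {q : ℂ → ℂ} (hq : DifferentiableOn ℂ q (D.Ue δ))
    (K : ℕ) : ∃ C : ℝ, ∀ N : ℝ, 1 ≤ N → ‖Bv h ps N 0 0 (h.vv x) q‖ ≤ C / N ^ K := by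
  have hUe := D.Ue_open δ
  obtain ⟨hρ, -, hvv, hdz, -, -, hn, hs⟩ := rho_facts h hτ hδ x 0
  have hq' : ContDiffOn ℝ (⊤ : ℕ∞) (fun z => conj (q z)) (D.Ue δ) :=
    Complex.conjCLE.contDiff.comp_contDiffOn (hol_contDiffOn hUe hq)
  have hVUe : {z | z ∈ D.U ∧ h.vv x z ≠ 0} ⊆ D.Ue δ := fun z hz =>
    D.cU_subset_Ue hδ (D.U_subset_cU hz.1)
  have hns : ∀ i, ∃ C : ℝ, ∀ N : ℝ, 1 ≤ N →
      ‖∫ z, Complex.exp (Complex.I * (N * h.rho x z : ℝ)) •
        D.U.indicator (fun z => dz (fun u => (ps.chi i u : ℂ)) z * conj (q z)) z‖ ≤ C / N ^ K :=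
    fun i => nonstat (noncrit_open hδ h x) (hρ.mono hVUe)
      (fun z hz => by rw [hdz z (hVUe hz)]; exact hz.2) (PS.isTest_dz hτ hδ h ps i hq').1.2.2 K
  choose C hC using hns
  refine ⟨∑ i, |C i|, fun N hN => ?_⟩
  have hNpos : 0 < N := by linarith
  have hJ : ∀ i, ‖∫ z in D.U, Complex.exp (Complex.I * (N * (h.rho x z - ps.c i) : ℝ)) *
      (dz (fun u => (ps.chi i u : ℂ)) z * conj (q z))‖ ≤ |C i| / N ^ K := by
    intro i
    have e1 : ∫ z in D.U, Complex.exp (Complex.I * (N * (h.rho x z - ps.c i) : ℝ)) *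
        (dz (fun u => (ps.chi i u : ℂ)) z * conj (q z)) =
        Complex.exp (Complex.I * (-(N * ps.c i) : ℝ)) *
        ∫ z, Complex.exp (Complex.I * (N * h.rho x z : ℝ)) •
          D.U.indicator (fun z => dz (fun u => (ps.chi i u : ℂ)) z * conj (q z)) z := by
      rw [← integral_const_mul, ← integral_indicator D.U_open.measurableSet]
      refine integral_congr_ae (ae_of_all _ fun z => ?_)
      simp only [indicator]
      split_ifs
      · have e2 : Complex.exp (Complex.I * (N * (h.rho x z - ps.c i) : ℝ)) =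
            Complex.exp (Complex.I * (-(N * ps.c i) : ℝ)) *
              Complex.exp (Complex.I * (N * h.rho x z : ℝ)) := by
          rw [← Complex.exp_add]
          congr 1
          push_cast
          ring
        rw [e2, smul_eq_mul]
        ring
      · simp
    rw [e1, norm_mul]
    have e2 : ‖Complex.exp (Complex.I * ((-(N * ps.c i) : ℝ) : ℂ))‖ = 1 := by
      rw [mul_comm]; exact Complex.norm_exp_ofReal_mul_I _
    rw [e2, one_mul]
    refine (hC i N hN).trans ?_
    gcongr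
    exact le_abs_self _
  have hB : (Complex.I * N) * Bv h ps N 0 0 (h.vv x) q =
      -∑ i, ∫ z in D.U, Complex.exp (Complex.I * (N * (h.rho x z - ps.c i) : ℝ)) *
        (dz (fun u => (ps.chi i u : ℂ)) z * conj (q z)) := by
    have hr : ∀ z, h.rhoC 0 z = 0 := fun z => by simp [HM.rhoC]
    have e3 : Bv h ps N 0 0 (h.vv x) q = ∑ i, ∫ z in D.U, (ps.chi i z : ℂ) *
        Complex.exp (Complex.I * (N * (h.rho x z - ps.c i) : ℝ)) * h.vv x z * conj (q z) := by
      simp only [Bv, hr, Complex.exp_zero, mul_one, Pi.zero_apply, Complex.ofReal_zero, mul_zero,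
        one_mul]
    rw [e3, Finset.mul_sum, Finset.sum_congr rfl fun i _ => e3a_parts hτ hδ h ps hq N i,
      Finset.sum_add_distrib, e3a_sum hτ hδ h ps hq, add_zero, Finset.sum_neg_distrib]
  have hnorm : N * ‖Bv h ps N 0 0 (h.vv x) q‖ ≤ (∑ i, |C i|) / N ^ K := by
    have e4 : N * ‖Bv h ps N 0 0 (h.vv x) q‖ = ‖(Complex.I * N) * Bv h ps N 0 0 (h.vv x) q‖ := by
      rw [norm_mul, norm_mul, Complex.norm_I, one_mul, Complex.norm_real,
        Real.norm_of_nonneg hNpos.le]
    rw [e4, hB, norm_neg, Finset.sum_div]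
    exact (norm_sum_le _ _).trans (Finset.sum_le_sum fun i _ => hJ i)
  calc ‖Bv h ps N 0 0 (h.vv x) q‖ = 1 * ‖Bv h ps N 0 0 (h.vv x) q‖ := (one_mul _).symm
    _ ≤ N * ‖Bv h ps N 0 0 (h.vv x) q‖ := by gcongr
    _ ≤ _ := hnorm

end

end Pool.Agent.KA
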