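import Pool.Agent.Helper9.KA.A4
import Pool.Agent.Helper7.KE.B5
import Pool.Agent.Helper9.KA.D5b

set_option autoImplicit false

open MeasureTheory Set Filter Asymptotics Topology Metric
open scoped ComplexConjugate ENNReal

namespace Pool.Agent.KA

open Pool.Agent.Helper7.KE hiding HM PS Bv sfun FF tt lS
open Pool.Agent.EN (AJ ann ann2)

namespace PosId

/-- local estimates near a zero of `u` -/
theorem loc_est {u g v : ℂ → ℂ} {p : ℂ} (hg : AnalyticAt ℂ g p) {n : ℕ}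
    (hv : AnalyticAt ℂ v p) (hvp : v p ≠ 0) (huv : ∀ᶠ w in 𝓝 p, u w = (w - p) ^ n • v w)
    (hn : 1 ≤ n) :
    ∃ C : ℝ, 0 ≤ C ∧ ∀ᶠ w in 𝓝 p, ‖g w‖ ≤ C ∧ ‖g w / u w‖ * ‖w - p‖ ^ n ≤ C ∧
      ‖deriv (fun w => g w / u w) w‖ * ‖w - p‖ ^ (n + 1) ≤ C := by
  have hk : AnalyticAt ℂ (fun w => g w / v w) p := hg.div hv hvp
  set kk : ℂ → ℂ := fun w => g w / v w with hkk
  have b1 : ∀ᶠ w in 𝓝 p, ‖g w‖ < ‖g p‖ + 1 :=
    hg.continuousAt.norm.eventually_lt continuousAt_const (by simp)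
  have b2 : ∀ᶠ w in 𝓝 p, ‖kk w‖ < ‖kk p‖ + 1 :=
    hk.continuousAt.norm.eventually_lt continuousAt_const (by simp)
  have b3 : ∀ᶠ w in 𝓝 p, ‖deriv kk w‖ < ‖deriv kk p‖ + 1 :=
    hk.deriv.continuousAt.norm.eventually_lt continuousAt_const (by simp)
  have b4 : ∀ᶠ w in 𝓝 p, ‖w - p‖ < 1 := by
    have : ContinuousAt (fun w : ℂ => ‖w - p‖) p := by fun_prop
    exact this.eventually_lt continuousAt_const (by simp)
  have b5 : ∀ᶠ w in 𝓝 p, ∀ᶠ w' in 𝓝 w, u w' = (w' - p) ^ n • v w' :=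
    eventually_eventually_nhds.2 huv
  have b6 : ∀ᶠ w in 𝓝 p, AnalyticAt ℂ kk w := hk.eventually_analyticAt
  refine ⟨(‖g p‖ + 1) + (‖kk p‖ + 1) + ((‖deriv kk p‖ + 1) + n * (‖kk p‖ + 1)),
    by positivity, ?_⟩
  have p1 : 0 ≤ ‖g p‖ := norm_nonneg _
  have p2 : 0 ≤ ‖kk p‖ := norm_nonneg _
  have p3 : 0 ≤ ‖deriv kk p‖ := norm_nonneg _
  have p4 : (0 : ℝ) ≤ n * (‖kk p‖ + 1) := by positivity
  filter_upwards [b1, b2, b3, b4, b5, b6] with w h1 h2 h3 h4 h5 h6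
  by_cases hw : w = p
  · subst hw
    refine ⟨by linarith, ?_, ?_⟩
    · rw [sub_self, norm_zero, zero_pow (by omega), mul_zero]
      positivity
    · rw [sub_self, norm_zero, zero_pow (by omega), mul_zero]
      positivity
  have ht : w - p ≠ 0 := sub_ne_zero.2 hw
  have ht' : 0 < ‖w - p‖ := norm_pos_iff.2 ht
  have e1 : ∀ w' : ℂ, u w' = (w' - p) ^ n • v w' → g w' / u w' = kk w' / (w' - p) ^ n := by
    intro w' hw'
    rw [hw', hkk, smul_eq_mul, mul_comm, div_div]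
  refine ⟨by linarith, ?_, ?_⟩
  · rw [e1 w h5.self_of_nhds, norm_div, norm_pow, div_mul_cancel₀ _ (by positivity)]
    linarith
  · have e2 : (fun w => g w / u w) =ᶠ[𝓝 w] fun w => kk w / (w - p) ^ n := by
      filter_upwards [h5] with w' hw' using e1 w' hw'
    rw [e2.deriv_eq]
    have d1 : HasDerivAt (fun w => (w - p) ^ n) ((n : ℂ) * (w - p) ^ (n - 1)) w := by
      simpa using ((hasDerivAt_id w).sub_const p).fun_pow n
    have d2 := (h6.differentiableAt.hasDerivAt.div d1 (pow_ne_zero n ht)).deriv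
    rw [show (fun w => kk w / (w - p) ^ n) = (kk / fun w => (w - p) ^ n) from rfl, d2]
    have e3 : ‖(deriv kk w * (w - p) ^ n - kk w * (↑n * (w - p) ^ (n - 1))) / ((w - p) ^ n) ^ 2‖ *
        ‖w - p‖ ^ (n + 1) = ‖deriv kk w * (w - p) - n * kk w‖ := by
      rw [← norm_pow, ← norm_mul]
      congr 1
      obtain ⟨m, rfl⟩ : ∃ m, n = m + 1 := ⟨n - 1, by omega⟩
      rw [Nat.add_sub_cancel]
      field_simp
      ring
    rw [e3]
    have e4 : ‖deriv kk w * (w - p) - n * kk w‖ ≤ ‖deriv kk w‖ * ‖w - p‖ + n * ‖kk w‖ := by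
      refine (norm_sub_le _ _).trans (le_of_eq ?_)
      rw [norm_mul, norm_mul, Complex.norm_natCast]
    have e5 : ‖deriv kk w‖ * ‖w - p‖ ≤ (‖deriv kk p‖ + 1) * 1 :=
      mul_le_mul h3.le h4.le (norm_nonneg _) (by positivity)
    have e6 : (n : ℝ) * ‖kk w‖ ≤ n * (‖kk p‖ + 1) :=
      mul_le_mul_of_nonneg_left h2.le (Nat.cast_nonneg n)
    linarith

theorem loc_rho {ρ : ℂ → ℝ} {u : ℂ → ℂ} {p : ℂ} {V : Set ℂ} (hV : IsOpen V) (hp : p ∈ V)
    (hρ : DifferentiableOn ℝ ρ V) (hu : ∀ z ∈ V, dz (fun w => (ρ w : ℂ)) z = u z) {C : ℝ}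
    (hC : 0 ≤ C) {n : ℕ}
    (huC : ∀ᶠ w in 𝓝 p, ‖u w‖ ≤ C * ‖w - p‖ ^ n) :
    ∀ᶠ w in 𝓝 p, |ρ w - ρ p| ≤ 4 * C * ‖w - p‖ ^ (n + 1) := by
  have h1 : ∀ᶠ w in 𝓝 p, w ∈ V ∧ ‖u w‖ ≤ C * ‖w - p‖ ^ n := (hV.eventually_mem hp).and huC
  obtain ⟨ε, hε, hb⟩ := Metric.eventually_nhds_iff_ball.1 h1
  filter_upwards [Metric.ball_mem_nhds p hε] with w hw
  have hw' : ‖w - p‖ < ε := by simpa [dist_eq_norm] using hw
  have hsub : closedBall p ‖w - p‖ ⊆ ball p ε := closedBall_subset_ball hw'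
  have key := (convex_closedBall p ‖w - p‖).norm_image_sub_le_of_norm_fderiv_le (𝕜 := ℝ) (f := ρ)
    (C := 4 * C * ‖w - p‖ ^ n) (x := p) (y := w)
    (fun z hz => (hρ z (hb z (hsub hz)).1).differentiableAt (hV.mem_nhds (hb z (hsub hz)).1))
    (fun z hz => ?_) (mem_closedBall_self (norm_nonneg _)) (by simp [dist_eq_norm])
  · rw [Real.norm_eq_abs] at key
    calc |ρ w - ρ p| ≤ 4 * C * ‖w - p‖ ^ n * ‖w - p‖ := key
      _ = _ := by ring
  · obtain ⟨hzV, hzu⟩ := hb z (hsub hz)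
    have hd : DifferentiableAt ℝ ρ z := (hρ z hzV).differentiableAt (hV.mem_nhds hzV)
    have hzp : ‖z - p‖ ≤ ‖w - p‖ := by simpa [dist_eq_norm] using hz
    have e0 : fderiv ℝ (fun w => (ρ w : ℂ)) z = Complex.ofRealCLM.comp (fderiv ℝ ρ z) := by
      exact (Complex.ofRealCLM.hasFDerivAt.comp z hd.hasFDerivAt).fderiv
    have e1 : u z = (2⁻¹ : ℂ) * ((fderiv ℝ ρ z 1 : ℝ) - Complex.I * (fderiv ℝ ρ z Complex.I : ℝ)) := by
      rw [← hu z hzV, dz, e0]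
      simp
    have e2 : |fderiv ℝ ρ z 1| ≤ 2 * ‖u z‖ := by
      have : (u z).re = fderiv ℝ ρ z 1 / 2 := by
        rw [e1]; simp; ring
      have h3 := Complex.abs_re_le_norm (u z)
      rw [this, abs_div] at h3
      norm_num at h3
      linarith
    have e3 : |fderiv ℝ ρ z Complex.I| ≤ 2 * ‖u z‖ := by
      have : (u z).im = -(fderiv ℝ ρ z Complex.I / 2) := by
        rw [e1]; simp; ring
      have h3 := Complex.abs_im_le_norm (u z)
      rw [this, abs_neg, abs_div] at h3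
      norm_num at h3
      linarith
    have e4 : ‖fderiv ℝ ρ z‖ ≤ 4 * ‖u z‖ := by
      refine ContinuousLinearMap.opNorm_le_bound _ (by positivity) fun q => ?_
      have hq : q = q.re • (1 : ℂ) + q.im • Complex.I := by
        apply Complex.ext <;> simp
      have : fderiv ℝ ρ z q = q.re * fderiv ℝ ρ z 1 + q.im * fderiv ℝ ρ z Complex.I := by
        conv_lhs => rw [hq]
        rw [map_add, map_smul, map_smul, smul_eq_mul, smul_eq_mul]
      rw [this, Real.norm_eq_abs]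
      have a1 : |q.re * fderiv ℝ ρ z 1| ≤ ‖q‖ * (2 * ‖u z‖) := by
        rw [abs_mul]
        exact mul_le_mul (Complex.abs_re_le_norm q) e2 (abs_nonneg _) (norm_nonneg _)
      have a2 : |q.im * fderiv ℝ ρ z Complex.I| ≤ ‖q‖ * (2 * ‖u z‖) := by
        rw [abs_mul]
        exact mul_le_mul (Complex.abs_im_le_norm q) e3 (abs_nonneg _) (norm_nonneg _)
      have a3 := abs_add_le (q.re * fderiv ℝ ρ z 1) (q.im * fderiv ℝ ρ z Complex.I)
      linarith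
    refine e4.trans ?_
    have e5 : ‖z - p‖ ^ n ≤ ‖w - p‖ ^ n := pow_le_pow_left₀ (norm_nonneg _) hzp n
    have e6 : C * ‖z - p‖ ^ n ≤ C * ‖w - p‖ ^ n := mul_le_mul_of_nonneg_left e5 hC
    linarith


/-- the analytic context -/
structure Ctx {k : ℕ} (D : AJ k) (V Z : Set ℂ) (u : ℂ → ℂ) (ρ : ℂ → ℝ) (g₁ g₂ : ℂ → ℂ) :
    Prop where
  hV : IsOpen V
  hcV : D.cU ⊆ V
  hZ : Z.Finite
  hZc : Z ⊆ D.cU
  uZ : ∀ z ∈ V, u z = 0 ↔ z ∈ Z
  hu : DifferentiableOn ℂ u V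
  hρ : ContDiffOn ℝ (⊤ : ℕ∞) ρ V
  dρ : ∀ z ∈ V, dz (fun w => (ρ w : ℂ)) z = u z
  dbρ : ∀ z ∈ V, dzb (fun w => (ρ w : ℂ)) z = conj (u z)
  hg₁ : DifferentiableOn ℂ g₁ V
  hg₂ : DifferentiableOn ℂ g₂ V

/-- cutoff functions at critical values -/
structure Cut {k : ℕ} (D : AJ k) (Z : Set ℂ) (ρ : ℂ → ℝ) (χ : ℂ → ℝ) (c : ℝ) : Prop where
  smooth : ContDiff ℝ (⊤ : ℕ∞) χ
  circ : ∀ l, ∀ z ∈ D.circ l,
    (∀ᶠ w in 𝓝 z, χ w = 0) ∨ (ρ z = c ∧ ∀ᶠ w in 𝓝 z, χ w = 1)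
  crit : ∀ p ∈ Z, (∀ᶠ w in 𝓝 p, χ w = 0) ∨ (ρ p = c ∧ ∀ᶠ w in 𝓝 p, χ w = 1)

section
variable {k : ℕ} {D : AJ k} {V Z : Set ℂ} {u : ℂ → ℂ} {ρ : ℂ → ℝ} {g₁ g₂ : ℂ → ℂ}

theorem Ctx.openW (h : Ctx D V Z u ρ g₁ g₂) : IsOpen (V \ Z) :=
  h.hV.sdiff h.hZ.isClosed

theorem Ctx.int_aux (h : Ctx D V Z u ρ g₁ g₂) {F : ℂ → ℂ} (hF : ContinuousOn F (V \ Z))
    (hb : ∀ p ∈ Z, ∃ C : ℝ, ∀ᶠ w in 𝓝 p, w ∉ Z → ‖F w‖ ≤ C) : IntegrableOn F D.U := by
  have h1 : ∃ C : ℝ, ∀ z ∈ D.cU, z ∉ Z → ‖F z‖ ≤ C := by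
    refine D.cU_compact.induction_on (p := fun s => ∃ C : ℝ, ∀ z ∈ s, z ∉ Z → ‖F z‖ ≤ C)
      ⟨0, by simp⟩ ?_ ?_ ?_
    · rintro s t hst ⟨C, hC⟩
      exact ⟨C, fun z hz => hC z (hst hz)⟩
    · rintro s t ⟨C, hC⟩ ⟨C', hC'⟩
      refine ⟨max C C', fun z hz hzZ => ?_⟩
      rcases hz with hz | hz
      · exact (hC z hz hzZ).trans (le_max_left _ _)
      · exact (hC' z hz hzZ).trans (le_max_right _ _)
    · intro z hz
      by_cases hzZ : z ∈ Z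
      · obtain ⟨C, hC⟩ := hb z hzZ
        exact ⟨_, mem_nhdsWithin_of_mem_nhds hC, C, fun w hw => hw⟩
      · have hc : ContinuousAt F z := hF.continuousAt (h.openW.mem_nhds ⟨h.hcV hz, hzZ⟩)
        have : ∀ᶠ w in 𝓝 z, ‖F w‖ < ‖F z‖ + 1 :=
          hc.norm.eventually_lt continuousAt_const (by simp)
        exact ⟨_, mem_nhdsWithin_of_mem_nhds this, ‖F z‖ + 1, fun w hw _ => le_of_lt hw⟩
  obtain ⟨C, hC⟩ := h1
  have hUZ : D.U \ Z ⊆ V \ Z := sdiff_subset_sdiff_left (D.U_subset_cU.trans h.hcV)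
  have hms : MeasurableSet (D.U \ Z) := D.U_open.measurableSet.diff h.hZ.measurableSet
  have hae : (D.U \ Z : Set ℂ) =ᵐ[volume] D.U := sdiff_null_ae_eq_self (h.hZ.measure_zero _)
  have h2 : IntegrableOn F (D.U \ Z) := by
    refine IntegrableOn.of_bound ?_ ((hF.mono hUZ).aestronglyMeasurable hms) C ?_
    · exact (measure_mono sdiff_subset).trans_lt D.U_finite.lt_top
    · filter_upwards [ae_restrict_mem hms] with z hz
      exact hC z (D.U_subset_cU hz.1) hz.2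
  exact h2.congr_set_ae hae.symm

theorem Ctx.setIntegral_congr (h : Ctx D V Z u ρ g₁ g₂) {F G : ℂ → ℂ}
    (hFG : ∀ z ∈ V \ Z, F z = G z) : ∫ z in D.U, F z = ∫ z in D.U, G z := by
  apply setIntegral_congr_ae D.U_open.measurableSet
  have : ∀ᵐ z : ℂ, z ∉ Z := by
    rw [ae_iff]
    simpa using h.hZ.measure_zero volume
  filter_upwards [this] with z hz hzU
  exact hFG z ⟨h.hcV (D.U_subset_cU hzU), hz⟩

/-- local factorization -/
theorem Ctx.loc (h : Ctx D V Z u ρ g₁ g₂) {p : ℂ} (hp : p ∈ Z) :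
    ∃ n : ℕ, ∃ C : ℝ, 0 ≤ C ∧ ∀ᶠ w in 𝓝 p, |ρ w - ρ p| ≤ C * ‖w - p‖ ^ (n + 1) ∧
      ‖g₁ w‖ ≤ C ∧ ‖g₂ w‖ ≤ C ∧
      ‖g₁ w / u w‖ * ‖w - p‖ ^ n ≤ C ∧ ‖g₂ w / u w‖ * ‖w - p‖ ^ n ≤ C ∧
      ‖deriv (fun w => g₁ w / u w) w‖ * ‖w - p‖ ^ (n + 1) ≤ C ∧
      ‖deriv (fun w => g₂ w / u w) w‖ * ‖w - p‖ ^ (n + 1) ≤ C := by
  have hpV : p ∈ V := h.hcV (h.hZc hp)
  have hua : AnalyticAt ℂ u p := h.hu.analyticAt (h.hV.mem_nhds hpV)
  have hne : ¬ ∀ᶠ w in 𝓝 p, u w = 0 := by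
    intro h0
    have : ∀ᶠ w in 𝓝 p, w ∈ Z := by
      filter_upwards [h0, h.hV.mem_nhds hpV] with w hw hwV using (h.uZ w hwV).1 hw
    exact (infinite_of_mem_nhds p this) h.hZ
  obtain ⟨n, v, hv, hvp, huv⟩ := hua.exists_eventuallyEq_pow_smul_nonzero_iff.2 hne
  have hn : 1 ≤ n := by
    by_contra hn
    have hn0 : n = 0 := by omega
    subst hn0
    have := huv.self_of_nhds
    rw [(h.uZ p hpV).2 hp, pow_zero, one_smul] at this
    exact hvp this.symm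
  obtain ⟨C₁, hC₁, e₁⟩ := loc_est (u := u) (h.hg₁.analyticAt (h.hV.mem_nhds hpV)) hv hvp huv hn
  obtain ⟨C₂, hC₂, e₂⟩ := loc_est (u := u) (h.hg₂.analyticAt (h.hV.mem_nhds hpV)) hv hvp huv hn
  have hu2 : ∀ᶠ w in 𝓝 p, ‖u w‖ ≤ (‖v p‖ + 1) * ‖w - p‖ ^ n := by
    have b1 : ∀ᶠ w in 𝓝 p, ‖v w‖ < ‖v p‖ + 1 :=
      hv.continuousAt.norm.eventually_lt continuousAt_const (by simp)
    filter_upwards [b1, huv] with w h1 h2
    rw [h2, norm_smul, norm_pow, mul_comm]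
    exact mul_le_mul_of_nonneg_right h1.le (by positivity)
  have e₃ := loc_rho h.hV hpV (h.hρ.differentiableOn (by simp)) h.dρ
    (by positivity : (0 : ℝ) ≤ ‖v p‖ + 1) hu2
  refine ⟨n, C₁ + C₂ + 4 * (‖v p‖ + 1), by positivity, ?_⟩
  have p1 : 0 ≤ ‖v p‖ := norm_nonneg _
  filter_upwards [e₁, e₂, e₃] with w h1 h2 h3
  refine ⟨h3.trans ?_, ?_, ?_, ?_, ?_, ?_, ?_⟩
  · apply mul_le_mul_of_nonneg_right _ (by positivity)
    linarith
  · linarith [h1.1]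
  · linarith [h2.1]
  · linarith [h1.2.1]
  · linarith [h2.2.1]
  · linarith [h1.2.2]
  · linarith [h2.2.2]


theorem Ctx.key_bd (h : Ctx D V Z u ρ g₁ g₂) {χ : ℂ → ℝ} {c : ℝ} (hc : Cut D Z ρ χ c) {p : ℂ}
    (hp : p ∈ Z) (N : ℝ) :
    ∃ n : ℕ, ∃ C : ℝ, 0 ≤ C ∧ ∀ᶠ w in 𝓝 p,
      ‖(χ w : ℂ) * (Real.sin (N * (ρ w - c)) : ℂ)‖ ≤ C * ‖w - p‖ ^ (n + 1) ∧
      ‖(χ w : ℂ) * ((1 - Real.cos (N * (ρ w - c)) : ℝ) : ℂ)‖ ≤ C * ‖w - p‖ ^ (2 * n + 2) ∧
      ‖g₁ w‖ ≤ C ∧ ‖g₂ w‖ ≤ C ∧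
      ‖g₁ w / u w‖ * ‖w - p‖ ^ n ≤ C ∧ ‖g₂ w / u w‖ * ‖w - p‖ ^ n ≤ C ∧
      ‖deriv (fun w => g₁ w / u w) w‖ * ‖w - p‖ ^ (n + 1) ≤ C ∧
      ‖deriv (fun w => g₂ w / u w) w‖ * ‖w - p‖ ^ (n + 1) ≤ C := by
  obtain ⟨n, C, hC, e⟩ := h.loc hp
  refine ⟨n, C + |N| * C + (|N| * C) ^ 2, by positivity, ?_⟩
  have p1 : 0 ≤ |N| * C := by positivity
  have p2 : 0 ≤ (|N| * C) ^ 2 := by positivity
  have e' : ∀ᶠ w in 𝓝 p, ‖(χ w : ℂ) * (Real.sin (N * (ρ w - c)) : ℂ)‖ ≤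
        (C + |N| * C + (|N| * C) ^ 2) * ‖w - p‖ ^ (n + 1) ∧
      ‖(χ w : ℂ) * ((1 - Real.cos (N * (ρ w - c)) : ℝ) : ℂ)‖ ≤
        (C + |N| * C + (|N| * C) ^ 2) * ‖w - p‖ ^ (2 * n + 2) := by
    rcases hc.crit p hp with h0 | ⟨hρ, h1⟩
    · filter_upwards [h0] with w hw
      rw [hw]
      simp only [Complex.ofReal_zero, zero_mul, norm_zero]
      constructor <;> positivity
    · filter_upwards [h1, e] with w hw he
      rw [hw, Complex.ofReal_one, one_mul, one_mul, Complex.norm_real, Complex.norm_real,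
        Real.norm_eq_abs, Real.norm_eq_abs]
      have a0 : |N * (ρ w - c)| ≤ |N| * C * ‖w - p‖ ^ (n + 1) := by
        rw [abs_mul, mul_assoc, ← hρ]
        exact mul_le_mul_of_nonneg_left he.1 (abs_nonneg _)
      constructor
      · refine Real.abs_sin_le_abs.trans (a0.trans ?_)
        apply mul_le_mul_of_nonneg_right _ (by positivity)
        linarith
      · rw [abs_of_nonneg (by linarith [Real.cos_le_one (N * (ρ w - c))])]
        have a1 := Real.one_sub_sq_div_two_le_cos (x := N * (ρ w - c))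
        have a2 : (N * (ρ w - c)) ^ 2 ≤ (|N| * C * ‖w - p‖ ^ (n + 1)) ^ 2 := by
          rw [← sq_abs (N * (ρ w - c))]
          exact pow_le_pow_left₀ (abs_nonneg _) a0 2
        have a3 : (|N| * C * ‖w - p‖ ^ (n + 1)) ^ 2 = (|N| * C) ^ 2 * ‖w - p‖ ^ (2 * n + 2) := by
          rw [mul_pow, ← pow_mul]
          congr 2
          ring
        have a4 : (|N| * C) ^ 2 * ‖w - p‖ ^ (2 * n + 2) ≤
            (C + |N| * C + (|N| * C) ^ 2) * ‖w - p‖ ^ (2 * n + 2) := by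
          apply mul_le_mul_of_nonneg_right _ (by positivity)
          linarith
        have a5 : 0 ≤ (N * (ρ w - c)) ^ 2 := sq_nonneg _
        linarith
  filter_upwards [e, e'] with w h1 h2
  obtain ⟨_, b1, b2, b3, b4, b5, b6⟩ := h1
  exact ⟨h2.1, h2.2, by linarith, by linarith, by linarith, by linarith, by linarith,
    by linarith⟩

end

section mulrules

theorem dz_mul {f g : ℂ → ℂ} {z : ℂ} (hf : DifferentiableAt ℝ f z)
    (hg : DifferentiableAt ℝ g z) :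
    dz (fun w => f w * g w) z = dz f z * g z + f z * dz g z ∧
      dzb (fun w => f w * g w) z = dzb f z * g z + f z * dzb g z := dz_smul hf hg

end mulrules

section
variable {k : ℕ} {D : AJ k} {V Z : Set ℂ} {u : ℂ → ℂ} {ρ : ℂ → ℝ} {g₁ g₂ : ℂ → ℂ}

theorem Ctx.diffR (h : Ctx D V Z u ρ g₁ g₂) {g : ℂ → ℂ} (hg : DifferentiableOn ℂ g V) :
    DifferentiableOn ℂ (fun w => g w / u w) (V \ Z) := by
  intro z hz
  have hzu : u z ≠ 0 := fun h0 => hz.2 ((h.uZ z hz.1).1 h0)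
  have h1 : DifferentiableAt ℂ g z := (hg z hz.1).differentiableAt (h.hV.mem_nhds hz.1)
  have h2 : DifferentiableAt ℂ u z := (h.hu z hz.1).differentiableAt (h.hV.mem_nhds hz.1)
  exact (h1.div h2 hzu).differentiableWithinAt

theorem Ctx.diffR' (h : Ctx D V Z u ρ g₁ g₂) {g : ℂ → ℂ} (hg : DifferentiableOn ℂ g V) :
    DifferentiableOn ℂ (deriv fun w => g w / u w) (V \ Z) :=
  (h.diffR hg).deriv h.openW

theorem Ctx.dz_sin (h : Ctx D V Z u ρ g₁ g₂) (N c : ℝ) {z : ℂ} (hz : z ∈ V) :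
    DifferentiableAt ℝ (fun w => (Real.sin (N * (ρ w - c)) : ℂ)) z ∧
    dz (fun w => (Real.sin (N * (ρ w - c)) : ℂ)) z =
      ((N * Real.cos (N * (ρ z - c)) : ℝ) : ℂ) * u z := by
  have h1 : DifferentiableAt ℝ ρ z :=
    (h.hρ.differentiableOn (by simp) z hz).differentiableAt (h.hV.mem_nhds hz)
  have h2 : HasDerivAt (fun t : ℝ => Real.sin (N * (t - c))) (N * Real.cos (N * (ρ z - c)))
      (ρ z) := by
    have := (((hasDerivAt_id (ρ z)).sub_const c).const_mul N).sin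
    simpa [mul_comm] using this
  refine ⟨?_, ?_⟩
  · have : DifferentiableAt ℝ (fun w => Real.sin (N * (ρ w - c))) z := by fun_prop
    exact Complex.ofRealCLM.differentiableAt.comp z this
  · rw [(dz_comp_real h1 h2).1, h.dρ z hz]

theorem Ctx.dzb_cos (h : Ctx D V Z u ρ g₁ g₂) (N c : ℝ) {z : ℂ} (hz : z ∈ V) :
    DifferentiableAt ℝ (fun w => ((1 - Real.cos (N * (ρ w - c)) : ℝ) : ℂ)) z ∧
    dzb (fun w => ((1 - Real.cos (N * (ρ w - c)) : ℝ) : ℂ)) z =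
      ((N * Real.sin (N * (ρ z - c)) : ℝ) : ℂ) * conj (u z) := by
  have h1 : DifferentiableAt ℝ ρ z :=
    (h.hρ.differentiableOn (by simp) z hz).differentiableAt (h.hV.mem_nhds hz)
  have h2 : HasDerivAt (fun t : ℝ => 1 - Real.cos (N * (t - c))) (N * Real.sin (N * (ρ z - c)))
      (ρ z) := by
    have := (((hasDerivAt_id (ρ z)).sub_const c).const_mul N).cos.const_sub 1
    simpa [mul_comm] using this
  refine ⟨?_, ?_⟩
  · have : DifferentiableAt ℝ (fun w => 1 - Real.cos (N * (ρ w - c))) z := by fun_prop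
    exact Complex.ofRealCLM.differentiableAt.comp z this
  · rw [(dz_comp_real (G := fun t : ℝ => 1 - Real.cos (N * (t - c))) h1 h2).2, h.dbρ z hz]


theorem Ctx.dz_F1 (h : Ctx D V Z u ρ g₁ g₂) {χ : ℂ → ℝ} {c : ℝ} (hc : Cut D Z ρ χ c) (N : ℝ)
    {z : ℂ} (hz : z ∈ V \ Z) :
    dz (fun w => ((χ w : ℂ) * (Real.sin (N * (ρ w - c)) : ℂ)) * (g₁ w / u w * conj (g₂ w))) z =
      dz (fun w => (χ w : ℂ)) z * (Real.sin (N * (ρ z - c)) : ℂ) * (g₁ z / u z * conj (g₂ z)) +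
      (N : ℂ) * ((χ z : ℂ) * (Real.cos (N * (ρ z - c)) : ℂ) * (g₁ z * conj (g₂ z))) +
      (χ z : ℂ) * (Real.sin (N * (ρ z - c)) : ℂ) *
        (deriv (fun w => g₁ w / u w) z * conj (g₂ z)) := by
  have hzu : u z ≠ 0 := fun h0 => hz.2 ((h.uZ z hz.1).1 h0)
  have d1 : DifferentiableAt ℝ (fun w => (χ w : ℂ)) z :=
    Complex.ofRealCLM.differentiableAt.comp z (hc.smooth.differentiable (by simp) z)
  obtain ⟨d2, s2⟩ := h.dz_sin N c hz.1
  have d3 : DifferentiableAt ℂ (fun w => g₁ w / u w) z :=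
    (h.diffR h.hg₁ z hz).differentiableAt (h.openW.mem_nhds hz)
  have d4 : DifferentiableAt ℂ g₂ z := (h.hg₂ z hz.1).differentiableAt (h.hV.mem_nhds hz.1)
  have d4' : DifferentiableAt ℝ (fun w => conj (g₂ w)) z :=
    Complex.conjCLE.differentiableAt.comp z (d4.restrictScalars ℝ)
  have m1 := (dz_mul d1 d2).1
  have m2 := (dz_mul (d3.restrictScalars ℝ) d4').1
  rw [(dz_mul (d1.fun_mul d2) ((d3.restrictScalars ℝ).fun_mul d4')).1, m1, m2, s2, (dz_hol d3).1,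
    (dz_conj_hol d4).1]
  push_cast
  field_simp
  ring

theorem Ctx.dzb_F2 (h : Ctx D V Z u ρ g₁ g₂) {χ : ℂ → ℝ} {c : ℝ} (hc : Cut D Z ρ χ c) (N : ℝ)
    {z : ℂ} (hz : z ∈ V \ Z) :
    dzb (fun w => ((χ w : ℂ) * ((1 - Real.cos (N * (ρ w - c)) : ℝ) : ℂ)) *
        (deriv (fun w => g₁ w / u w) w * conj (g₂ w / u w))) z =
      dzb (fun w => (χ w : ℂ)) z * ((1 - Real.cos (N * (ρ z - c)) : ℝ) : ℂ) *
        (deriv (fun w => g₁ w / u w) z * conj (g₂ z / u z)) +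
      (N : ℂ) * ((χ z : ℂ) * (Real.sin (N * (ρ z - c)) : ℂ) *
        (deriv (fun w => g₁ w / u w) z * conj (g₂ z))) +
      (χ z : ℂ) * ((1 - Real.cos (N * (ρ z - c)) : ℝ) : ℂ) *
        (deriv (fun w => g₁ w / u w) z * conj (deriv (fun w => g₂ w / u w) z)) := by
  have hzu : u z ≠ 0 := fun h0 => hz.2 ((h.uZ z hz.1).1 h0)
  have hzu' : conj (u z) ≠ 0 := by simpa using hzu
  have d1 : DifferentiableAt ℝ (fun w => (χ w : ℂ)) z :=
    Complex.ofRealCLM.differentiableAt.comp z (hc.smooth.differentiable (by simp) z)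
  obtain ⟨d2, s2⟩ := h.dzb_cos N c hz.1
  have d3 : DifferentiableAt ℂ (deriv fun w => g₁ w / u w) z :=
    (h.diffR' h.hg₁ z hz).differentiableAt (h.openW.mem_nhds hz)
  have d4 : DifferentiableAt ℂ (fun w => g₂ w / u w) z :=
    (h.diffR h.hg₂ z hz).differentiableAt (h.openW.mem_nhds hz)
  have d4' : DifferentiableAt ℝ (fun w => conj (g₂ w / u w)) z :=
    Complex.conjCLE.differentiableAt.comp z (d4.restrictScalars ℝ)
  have m1 := (dz_mul d1 d2).2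
  have m2 := (dz_mul (d3.restrictScalars ℝ) d4').2
  rw [(dz_mul (d1.fun_mul d2) ((d3.restrictScalars ℝ).fun_mul d4')).2, m1, m2, s2, (dz_hol d3).2,
    (dz_conj_hol d4).2]
  push_cast
  rw [map_div₀]
  field_simp
  ring


theorem Ctx.integrable_congr (h : Ctx D V Z u ρ g₁ g₂) {F G : ℂ → ℂ}
    (hFG : ∀ z ∈ V \ Z, F z = G z) (hG : IntegrableOn G D.U) : IntegrableOn F D.U := by
  refine hG.congr_fun_ae ?_
  have : ∀ᵐ z : ℂ, z ∉ Z := by
    rw [ae_iff]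
    simpa using h.hZ.measure_zero volume
  filter_upwards [ae_restrict_of_ae this, ae_restrict_mem D.U_open.measurableSet] with z hz hzU
  exact (hFG z ⟨h.hcV (D.U_subset_cU hzU), hz⟩).symm

theorem Cut.dz_crit {χ : ℂ → ℝ} {c : ℝ} (hc : Cut D Z ρ χ c) {p : ℂ} (hp : p ∈ Z) :
    ∀ᶠ w in 𝓝 p, dz (fun w => (χ w : ℂ)) w = 0 ∧ dzb (fun w => (χ w : ℂ)) w = 0 := by
  rcases hc.crit p hp with h0 | ⟨_, h0⟩
  · filter_upwards [eventually_eventually_nhds.2 h0] with w hw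
    have e : (fun w => (χ w : ℂ)) =ᶠ[𝓝 w] fun _ => (0 : ℂ) := by
      filter_upwards [hw] with w' hw'
      rw [hw']; simp
    rw [(dz_congr e).1, (dz_congr e).2]
    exact dz_const
  · filter_upwards [eventually_eventually_nhds.2 h0] with w hw
    have e : (fun w => (χ w : ℂ)) =ᶠ[𝓝 w] fun _ => (1 : ℂ) := by
      filter_upwards [hw] with w' hw'
      rw [hw']; simp
    rw [(dz_congr e).1, (dz_congr e).2]
    exact dz_const

theorem Cut.dz_circ {χ : ℂ → ℝ} {c : ℝ} (hc : Cut D Z ρ χ c) {l : Option (Fin k)} {p : ℂ}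
    (hp : p ∈ D.circ l) :
    ∀ᶠ w in 𝓝 p, dz (fun w => (χ w : ℂ)) w = 0 ∧ dzb (fun w => (χ w : ℂ)) w = 0 := by
  rcases hc.circ l p hp with h0 | ⟨_, h0⟩
  · filter_upwards [eventually_eventually_nhds.2 h0] with w hw
    have e : (fun w => (χ w : ℂ)) =ᶠ[𝓝 w] fun _ => (0 : ℂ) := by
      filter_upwards [hw] with w' hw'
      rw [hw']; simp
    rw [(dz_congr e).1, (dz_congr e).2]
    exact dz_const
  · filter_upwards [eventually_eventually_nhds.2 h0] with w hw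
    have e : (fun w => (χ w : ℂ)) =ᶠ[𝓝 w] fun _ => (1 : ℂ) := by
      filter_upwards [hw] with w' hw'
      rw [hw']; simp
    rw [(dz_congr e).1, (dz_congr e).2]
    exact dz_const

theorem Cut.smoothC {χ : ℂ → ℝ} {c : ℝ} (hc : Cut D Z ρ χ c) :
    ContDiff ℝ (⊤ : ℕ∞) (fun w => (χ w : ℂ)) :=
  Complex.ofRealCLM.contDiff.comp hc.smooth

theorem Cut.smooth_dz {χ : ℂ → ℝ} {c : ℝ} (hc : Cut D Z ρ χ c) :
    ContDiff ℝ (⊤ : ℕ∞) (dz (fun w => (χ w : ℂ))) ∧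
      ContDiff ℝ (⊤ : ℕ∞) (dzb (fun w => (χ w : ℂ))) := by
  have := dz_contDiffOn isOpen_univ hc.smoothC.contDiffOn
  exact ⟨contDiffOn_univ.1 this.1, contDiffOn_univ.1 this.2⟩

theorem Ctx.smooth_sin (h : Ctx D V Z u ρ g₁ g₂) (N c : ℝ) :
    ContDiffOn ℝ (⊤ : ℕ∞) (fun w => (Real.sin (N * (ρ w - c)) : ℂ)) V := by
  have h1 : ContDiffOn ℝ (⊤ : ℕ∞) (fun w => N * (ρ w - c)) V :=
    contDiffOn_const.mul (h.hρ.sub contDiffOn_const)
  exact Complex.ofRealCLM.contDiff.comp_contDiffOn (Real.contDiff_sin.comp_contDiffOn h1)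

theorem Ctx.smooth_cos (h : Ctx D V Z u ρ g₁ g₂) (N c : ℝ) :
    ContDiffOn ℝ (⊤ : ℕ∞) (fun w => (Real.cos (N * (ρ w - c)) : ℂ)) V := by
  have h1 : ContDiffOn ℝ (⊤ : ℕ∞) (fun w => N * (ρ w - c)) V :=
    contDiffOn_const.mul (h.hρ.sub contDiffOn_const)
  exact Complex.ofRealCLM.contDiff.comp_contDiffOn (Real.contDiff_cos.comp_contDiffOn h1)

theorem Ctx.smooth_one_sub_cos (h : Ctx D V Z u ρ g₁ g₂) (N c : ℝ) :
    ContDiffOn ℝ (⊤ : ℕ∞) (fun w => ((1 - Real.cos (N * (ρ w - c)) : ℝ) : ℂ)) V := by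
  have h1 : ContDiffOn ℝ (⊤ : ℕ∞) (fun w => N * (ρ w - c)) V :=
    contDiffOn_const.mul (h.hρ.sub contDiffOn_const)
  exact Complex.ofRealCLM.contDiff.comp_contDiffOn
    (contDiffOn_const.sub (Real.contDiff_cos.comp_contDiffOn h1))

theorem Ctx.smoothR (h : Ctx D V Z u ρ g₁ g₂) {g : ℂ → ℂ} (hg : DifferentiableOn ℂ g V) :
    ContDiffOn ℝ (⊤ : ℕ∞) (fun w => g w / u w) (V \ Z) :=
  hol_contDiffOn h.openW (h.diffR hg)

theorem Ctx.smoothR' (h : Ctx D V Z u ρ g₁ g₂) {g : ℂ → ℂ} (hg : DifferentiableOn ℂ g V) :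
    ContDiffOn ℝ (⊤ : ℕ∞) (deriv fun w => g w / u w) (V \ Z) :=
  hol_contDiffOn h.openW (h.diffR' hg)

theorem smooth_conj {F : ℂ → ℂ} {S : Set ℂ} (hF : ContDiffOn ℝ (⊤ : ℕ∞) F S) :
    ContDiffOn ℝ (⊤ : ℕ∞) (fun w => conj (F w)) S :=
  Complex.conjCLE.contDiff.comp_contDiffOn hF

theorem int3 {S : Set ℂ} {F G H : ℂ → ℂ} (N : ℂ) (hF : IntegrableOn F S) (hG : IntegrableOn G S)
    (hH : IntegrableOn H S) :
    ∫ z in S, (F z + N * G z + H z) = (∫ z in S, F z) + N * (∫ z in S, G z) + ∫ z in S, H z := by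
  have h1 : IntegrableOn (fun z => F z + N * G z) S := hF.add (hG.const_mul N)
  rw [integral_add h1 hH, integral_add hF (hG.const_mul N), integral_const_mul]

/-- first integration by parts -/
theorem Ctx.int1 (h : Ctx D V Z u ρ g₁ g₂) {χ : ℂ → ℝ} {c : ℝ} (hc : Cut D Z ρ χ c) (N : ℝ) :
    (∫ z in D.U, dz (fun w => (χ w : ℂ)) z * (Real.sin (N * (ρ z - c)) : ℂ) *
        (g₁ z / u z * conj (g₂ z))) +
      (N : ℂ) * (∫ z in D.U, (χ z : ℂ) * (Real.cos (N * (ρ z - c)) : ℂ) *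
        (g₁ z * conj (g₂ z))) +
      (∫ z in D.U, (χ z : ℂ) * (Real.sin (N * (ρ z - c)) : ℂ) *
        (deriv (fun w => g₁ w / u w) z * conj (g₂ z))) = 0 := by
  have hWV : V \ Z ⊆ V := sdiff_subset
  have sχ := hc.smoothC
  have sdχ := hc.smooth_dz
  have ss := (h.smooth_sin N c).mono hWV
  have scs := (h.smooth_cos N c).mono hWV
  have sR := h.smoothR h.hg₁
  have sR' := h.smoothR' h.hg₁
  have sg₁ : ContDiffOn ℝ (⊤ : ℕ∞) g₁ (V \ Z) := (hol_contDiffOn h.hV h.hg₁).mono hWV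
  have sg₂ : ContDiffOn ℝ (⊤ : ℕ∞) (fun w => conj (g₂ w)) (V \ Z) :=
    (smooth_conj (hol_contDiffOn h.hV h.hg₂)).mono hWV
  -- the three integrable pieces
  have i1 : IntegrableOn (fun z => dz (fun w => (χ w : ℂ)) z * (Real.sin (N * (ρ z - c)) : ℂ) *
        (g₁ z / u z * conj (g₂ z))) D.U := by
    refine h.int_aux (((sdχ.1.contDiffOn.mul ss).mul (sR.mul sg₂)).continuousOn) fun p hp => ?_
    refine ⟨0, ?_⟩
    filter_upwards [hc.dz_crit hp] with w hw _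
    rw [hw.1]; simp
  have i2 : IntegrableOn (fun z => (χ z : ℂ) * (Real.cos (N * (ρ z - c)) : ℂ) *
        (g₁ z * conj (g₂ z))) D.U := by
    refine h.int_aux (((sχ.contDiffOn.mul scs).mul (sg₁.mul sg₂)).continuousOn) fun p hp => ?_
    have hpV : p ∈ V := h.hcV (h.hZc hp)
    have hcont : ContinuousAt (fun z => (χ z : ℂ) * (Real.cos (N * (ρ z - c)) : ℂ) *
        (g₁ z * conj (g₂ z))) p := by
      have := ((sχ.contDiffOn.mul (h.smooth_cos N c)).mul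
        ((hol_contDiffOn h.hV h.hg₁).mul (smooth_conj (hol_contDiffOn h.hV h.hg₂)))).continuousOn
      exact this.continuousAt (h.hV.mem_nhds hpV)
    refine ⟨‖(χ p : ℂ) * (Real.cos (N * (ρ p - c)) : ℂ) * (g₁ p * conj (g₂ p))‖ + 1, ?_⟩
    have := hcont.norm.eventually_lt continuousAt_const (lt_add_one _)
    filter_upwards [this] with w hw _ using hw.le
  have i3 : IntegrableOn (fun z => (χ z : ℂ) * (Real.sin (N * (ρ z - c)) : ℂ) *
        (deriv (fun w => g₁ w / u w) z * conj (g₂ z))) D.U := by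
    refine h.int_aux (((sχ.contDiffOn.mul ss).mul (sR'.mul sg₂)).continuousOn) fun p hp => ?_
    obtain ⟨n, C, hC, e⟩ := h.key_bd hc hp N
    refine ⟨C * C * C, ?_⟩
    filter_upwards [e] with w hw _
    obtain ⟨b1, b2, b3, b4, b5, b6, b7, b8⟩ := hw
    rw [norm_mul _ (_ * _), norm_mul (deriv _ w), Complex.norm_conj]
    calc ‖(χ w : ℂ) * (Real.sin (N * (ρ w - c)) : ℂ)‖ *
          (‖deriv (fun w => g₁ w / u w) w‖ * ‖g₂ w‖)
        ≤ (C * ‖w - p‖ ^ (n + 1)) * (‖deriv (fun w => g₁ w / u w) w‖ * C) := by gcongr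
      _ = C * (‖deriv (fun w => g₁ w / u w) w‖ * ‖w - p‖ ^ (n + 1)) * C := by ring
      _ ≤ C * C * C := by gcongr
  have e1 : ∀ z ∈ V \ Z, _ := fun z hz => h.dz_F1 hc N hz
  have i4 := h.integrable_congr e1 ((i1.add (i2.const_mul (N : ℂ))).add i3)
  have key := (green_sing D (F := fun w => ((χ w : ℂ) * (Real.sin (N * (ρ w - c)) : ℂ)) *
    (g₁ w / u w * conj (g₂ w))) h.hV h.hcV h.hZ
    (((sχ.contDiffOn.mul ss).mul (sR.mul sg₂)).of_le (by simp)) ?_ ?_).1 i4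
  · rw [h.setIntegral_congr e1] at key
    rw [← key, int3 (N : ℂ) i1 i2 i3]
  · intro l z hz _
    rcases hc.circ l z hz with h0 | ⟨h1, _⟩
    · rw [h0.self_of_nhds]; simp
    · rw [h1]; simp
  · intro p hp
    obtain ⟨n, C, hC, e⟩ := h.key_bd hc hp N
    refine ⟨C * C * C, ?_⟩
    filter_upwards [e] with w hw
    obtain ⟨b1, b2, b3, b4, b5, b6, b7, b8⟩ := hw
    rw [norm_mul _ (_ * _), norm_mul (_ / _), Complex.norm_conj]
    calc ‖(χ w : ℂ) * (Real.sin (N * (ρ w - c)) : ℂ)‖ * (‖g₁ w / u w‖ * ‖g₂ w‖)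
        ≤ (C * ‖w - p‖ ^ (n + 1)) * (‖g₁ w / u w‖ * C) := by gcongr
      _ = C * (‖g₁ w / u w‖ * ‖w - p‖ ^ n) * C * ‖w - p‖ := by ring
      _ ≤ C * C * C * ‖w - p‖ := by gcongr


/-- second integration by parts -/
theorem Ctx.int2 (h : Ctx D V Z u ρ g₁ g₂) {χ : ℂ → ℝ} {c : ℝ} (hc : Cut D Z ρ χ c) (N : ℝ) :
    (∫ z in D.U, dzb (fun w => (χ w : ℂ)) z * ((1 - Real.cos (N * (ρ z - c)) : ℝ) : ℂ) *
        (deriv (fun w => g₁ w / u w) z * conj (g₂ z / u z))) +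
      (N : ℂ) * (∫ z in D.U, (χ z : ℂ) * (Real.sin (N * (ρ z - c)) : ℂ) *
        (deriv (fun w => g₁ w / u w) z * conj (g₂ z))) +
      (∫ z in D.U, (χ z : ℂ) * ((1 - Real.cos (N * (ρ z - c)) : ℝ) : ℂ) *
        (deriv (fun w => g₁ w / u w) z * conj (deriv (fun w => g₂ w / u w) z))) = 0 := by
  have hWV : V \ Z ⊆ V := sdiff_subset
  have sχ := hc.smoothC
  have sdχ := hc.smooth_dz
  have ss := (h.smooth_sin N c).mono hWV
  have scs := (h.smooth_one_sub_cos N c).mono hWV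
  have sR' := h.smoothR' h.hg₁
  have sR₂ := smooth_conj (h.smoothR h.hg₂)
  have sR₂' := smooth_conj (h.smoothR' h.hg₂)
  have sg₂ : ContDiffOn ℝ (⊤ : ℕ∞) (fun w => conj (g₂ w)) (V \ Z) :=
    (smooth_conj (hol_contDiffOn h.hV h.hg₂)).mono hWV
  -- the three integrable pieces
  have i1 : IntegrableOn (fun z => dzb (fun w => (χ w : ℂ)) z *
      ((1 - Real.cos (N * (ρ z - c)) : ℝ) : ℂ) *
        (deriv (fun w => g₁ w / u w) z * conj (g₂ z / u z))) D.U := by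
    refine h.int_aux (((sdχ.2.contDiffOn.mul scs).mul (sR'.mul sR₂)).continuousOn)
      fun p hp => ?_
    refine ⟨0, ?_⟩
    filter_upwards [hc.dz_crit hp] with w hw _
    rw [hw.2]; simp
  have i2 : IntegrableOn (fun z => (χ z : ℂ) * (Real.sin (N * (ρ z - c)) : ℂ) *
        (deriv (fun w => g₁ w / u w) z * conj (g₂ z))) D.U := by
    refine h.int_aux (((sχ.contDiffOn.mul ss).mul (sR'.mul sg₂)).continuousOn) fun p hp => ?_
    obtain ⟨n, C, hC, e⟩ := h.key_bd hc hp N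
    refine ⟨C * C * C, ?_⟩
    filter_upwards [e] with w hw _
    obtain ⟨b1, b2, b3, b4, b5, b6, b7, b8⟩ := hw
    rw [norm_mul _ (_ * _), norm_mul (deriv _ w), Complex.norm_conj]
    calc ‖(χ w : ℂ) * (Real.sin (N * (ρ w - c)) : ℂ)‖ *
          (‖deriv (fun w => g₁ w / u w) w‖ * ‖g₂ w‖)
        ≤ (C * ‖w - p‖ ^ (n + 1)) * (‖deriv (fun w => g₁ w / u w) w‖ * C) := by gcongr
      _ = C * (‖deriv (fun w => g₁ w / u w) w‖ * ‖w - p‖ ^ (n + 1)) * C := by ring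
      _ ≤ C * C * C := by gcongr
  have i3 : IntegrableOn (fun z => (χ z : ℂ) * ((1 - Real.cos (N * (ρ z - c)) : ℝ) : ℂ) *
        (deriv (fun w => g₁ w / u w) z * conj (deriv (fun w => g₂ w / u w) z))) D.U := by
    refine h.int_aux (((sχ.contDiffOn.mul scs).mul (sR'.mul sR₂')).continuousOn) fun p hp => ?_
    obtain ⟨n, C, hC, e⟩ := h.key_bd hc hp N
    refine ⟨C * C * C, ?_⟩
    filter_upwards [e] with w hw _
    obtain ⟨b1, b2, b3, b4, b5, b6, b7, b8⟩ := hw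
    rw [norm_mul _ (_ * _), norm_mul (deriv _ w), Complex.norm_conj]
    calc ‖(χ w : ℂ) * ((1 - Real.cos (N * (ρ w - c)) : ℝ) : ℂ)‖ *
          (‖deriv (fun w => g₁ w / u w) w‖ * ‖deriv (fun w => g₂ w / u w) w‖)
        ≤ (C * ‖w - p‖ ^ (2 * n + 2)) *
          (‖deriv (fun w => g₁ w / u w) w‖ * ‖deriv (fun w => g₂ w / u w) w‖) := by gcongr
      _ = C * (‖deriv (fun w => g₁ w / u w) w‖ * ‖w - p‖ ^ (n + 1)) *
          (‖deriv (fun w => g₂ w / u w) w‖ * ‖w - p‖ ^ (n + 1)) := by ring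
      _ ≤ C * C * C := by gcongr
  have e1 : ∀ z ∈ V \ Z, _ := fun z hz => h.dzb_F2 hc N hz
  have i4 := h.integrable_congr e1 ((i1.add (i2.const_mul (N : ℂ))).add i3)
  have key := (green_sing D (F := fun w => ((χ w : ℂ) *
    ((1 - Real.cos (N * (ρ w - c)) : ℝ) : ℂ)) *
    (deriv (fun w => g₁ w / u w) w * conj (g₂ w / u w))) h.hV h.hcV h.hZ
    (((sχ.contDiffOn.mul scs).mul (sR'.mul sR₂)).of_le (by simp)) ?_ ?_).2 i4
  · rw [h.setIntegral_congr e1] at key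
    rw [← key, int3 (N : ℂ) i1 i2 i3]
  · intro l z hz _
    rcases hc.circ l z hz with h0 | ⟨h1, _⟩
    · rw [h0.self_of_nhds]; simp
    · rw [h1]; simp
  · intro p hp
    obtain ⟨n, C, hC, e⟩ := h.key_bd hc hp N
    refine ⟨C * C * C, ?_⟩
    filter_upwards [e] with w hw
    obtain ⟨b1, b2, b3, b4, b5, b6, b7, b8⟩ := hw
    rw [norm_mul _ (_ * _), norm_mul (deriv _ w), Complex.norm_conj]
    calc ‖(χ w : ℂ) * ((1 - Real.cos (N * (ρ w - c)) : ℝ) : ℂ)‖ *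
          (‖deriv (fun w => g₁ w / u w) w‖ * ‖g₂ w / u w‖)
        ≤ (C * ‖w - p‖ ^ (2 * n + 2)) *
          (‖deriv (fun w => g₁ w / u w) w‖ * ‖g₂ w / u w‖) := by gcongr
      _ = C * (‖deriv (fun w => g₁ w / u w) w‖ * ‖w - p‖ ^ (n + 1)) *
          (‖g₂ w / u w‖ * ‖w - p‖ ^ n) * ‖w - p‖ := by ring
      _ ≤ C * C * C * ‖w - p‖ := by gcongr


theorem Ctx.smooth_cut (h : Ctx D V Z u ρ g₁ g₂) {κ H : ℂ → ℂ} (hκ : ContDiff ℝ (⊤ : ℕ∞) κ)
    (hκZ : ∀ p ∈ Z, ∀ᶠ w in 𝓝 p, κ w = 0) (hH : ContDiffOn ℝ (⊤ : ℕ∞) H (V \ Z)) :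
    ContDiffOn ℝ (⊤ : ℕ∞) (fun z => κ z * H z) V := by
  intro z hz
  by_cases hzZ : z ∈ Z
  · have e : (fun z => κ z * H z) =ᶠ[𝓝 z] fun _ => (0 : ℂ) := by
      filter_upwards [hκZ z hzZ] with w hw
      rw [hw, zero_mul]
    exact (contDiffAt_const.congr_of_eventuallyEq e).contDiffWithinAt
  · have h1 : ContDiffAt ℝ (⊤ : ℕ∞) H z := hH.contDiffAt (h.openW.mem_nhds ⟨hz, hzZ⟩)
    exact (hκ.contDiffAt.mul h1).contDiffWithinAt

theorem Ctx.isTest_cut (h : Ctx D V Z u ρ g₁ g₂) {κ H : ℂ → ℂ} (hκ : ContDiff ℝ (⊤ : ℕ∞) κ)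
    (hκZ : ∀ p ∈ Z, ∀ᶠ w in 𝓝 p, κ w = 0)
    (hκc : ∀ l, ∀ z ∈ D.circ l, ∀ᶠ w in 𝓝 z, κ w = 0)
    (hH : ContDiffOn ℝ (⊤ : ℕ∞) H (V \ Z)) :
    IsTest (D.U \ Z) (D.U.indicator fun z => κ z * H z) := by
  have h1 := isTest_indicator D h.hV h.hcV (h.smooth_cut hκ hκZ hH) (fun l z hz => by
    filter_upwards [hκc l z hz] with w hw
    rw [hw, zero_mul])
  refine ⟨h1.smooth, h1.compact, fun z hz => ⟨h1.supp hz, fun hzZ => ?_⟩⟩
  refine (notMem_tsupport_iff_eventuallyEq.2 ?_) hz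
  filter_upwards [hκZ z hzZ] with w hw
  rw [Pi.zero_apply, indicator_apply_eq_zero]
  intro _
  rw [hw, zero_mul]

theorem Ctx.osc_exp (h : Ctx D V Z u ρ g₁ g₂) {κ H : ℂ → ℂ} (hκ : ContDiff ℝ (⊤ : ℕ∞) κ)
    (hκZ : ∀ p ∈ Z, ∀ᶠ w in 𝓝 p, κ w = 0)
    (hκc : ∀ l, ∀ z ∈ D.circ l, ∀ᶠ w in 𝓝 z, κ w = 0)
    (hH : ContDiffOn ℝ (⊤ : ℕ∞) H (V \ Z)) (c : ℝ) (K : ℕ) :
    ∃ C : ℝ, ∀ N : ℝ, 1 ≤ N →
      ‖∫ z in D.U, Complex.exp (Complex.I * (N * (ρ z - c) : ℝ)) * (κ z * H z)‖ ≤ C / N ^ K ∧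
      ‖∫ z in D.U, Complex.exp (-(Complex.I * (N * (ρ z - c) : ℝ))) * (κ z * H z)‖ ≤
        C / N ^ K := by
  have hT := h.isTest_cut hκ hκZ hκc hH
  have hW' : IsOpen (D.U \ Z) := D.U_open.sdiff h.hZ.isClosed
  have hsub : D.U \ Z ⊆ V := sdiff_subset.trans (D.U_subset_cU.trans h.hcV)
  have hne : ∀ z ∈ D.U \ Z, dz (fun w => (ρ w : ℂ)) z ≠ 0 := by
    intro z hz h0
    rw [h.dρ z (hsub hz)] at h0
    exact hz.2 ((h.uZ z (hsub hz)).1 h0)
  obtain ⟨C₁, h1⟩ := nonstat hW' (h.hρ.mono hsub) hne hT K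
  obtain ⟨C₂, h2⟩ := nonstat (ρ := fun w => -ρ w) hW' (h.hρ.mono hsub).neg (by
    intro z hz
    have : (fun w => ((-ρ w : ℝ) : ℂ)) = fun w => -(ρ w : ℂ) := by
      funext w; push_cast; rfl
    rw [this, dz_neg.1]
    exact neg_ne_zero.2 (hne z hz)) hT K
  refine ⟨max C₁ C₂, fun N hN => ?_⟩
  have hNK : 0 < N ^ K := by positivity
  constructor
  · have e1 : (∫ z in D.U, Complex.exp (Complex.I * (N * (ρ z - c) : ℝ)) * (κ z * H z)) =
        Complex.exp (-(Complex.I * (N * c : ℝ))) *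
          ∫ z, Complex.exp (Complex.I * (N * ρ z : ℝ)) •
            (D.U.indicator fun z => κ z * H z) z := by
      rw [← integral_indicator D.U_open.measurableSet, ← integral_const_mul]
      congr 1
      funext z
      by_cases hz : z ∈ D.U
      · rw [indicator_of_mem hz, indicator_of_mem hz, smul_eq_mul,
          ← mul_assoc (Complex.exp _) (Complex.exp _), ← Complex.exp_add]
        congr 2
        push_cast
        ring
      · rw [indicator_of_notMem hz, indicator_of_notMem hz, smul_zero, mul_zero]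
    rw [e1, norm_mul]
    have e2 : ‖Complex.exp (-(Complex.I * (N * c : ℝ)))‖ = 1 := by
      rw [Complex.norm_exp]; simp
    rw [e2, one_mul]
    exact (h1 N hN).trans (div_le_div_of_nonneg_right (le_max_left _ _) hNK.le)
  · have e1 : (∫ z in D.U, Complex.exp (-(Complex.I * (N * (ρ z - c) : ℝ))) * (κ z * H z)) =
        Complex.exp (Complex.I * (N * c : ℝ)) *
          ∫ z, Complex.exp (Complex.I * (N * -ρ z : ℝ)) •
            (D.U.indicator fun z => κ z * H z) z := by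
      rw [← integral_indicator D.U_open.measurableSet, ← integral_const_mul]
      congr 1
      funext z
      by_cases hz : z ∈ D.U
      · rw [indicator_of_mem hz, indicator_of_mem hz, smul_eq_mul,
          ← mul_assoc (Complex.exp _) (Complex.exp _), ← Complex.exp_add]
        congr 2
        push_cast
        ring
      · rw [indicator_of_notMem hz, indicator_of_notMem hz, smul_zero, mul_zero]
    rw [e1, norm_mul]
    have e2 : ‖Complex.exp (Complex.I * (N * c : ℝ))‖ = 1 := by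
      rw [Complex.norm_exp]; simp
    rw [e2, one_mul]
    exact (h2 N hN).trans (div_le_div_of_nonneg_right (le_max_right _ _) hNK.le)

theorem Ctx.osc (h : Ctx D V Z u ρ g₁ g₂) {κ H : ℂ → ℂ} (hκ : ContDiff ℝ (⊤ : ℕ∞) κ)
    (hκZ : ∀ p ∈ Z, ∀ᶠ w in 𝓝 p, κ w = 0)
    (hκc : ∀ l, ∀ z ∈ D.circ l, ∀ᶠ w in 𝓝 z, κ w = 0)
    (hH : ContDiffOn ℝ (⊤ : ℕ∞) H (V \ Z)) (c : ℝ) (K : ℕ) :
    ∃ C : ℝ, ∀ N : ℝ, 1 ≤ N →
      ‖∫ z in D.U, κ z * (Real.cos (N * (ρ z - c)) : ℂ) * H z‖ ≤ C / N ^ K ∧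
      ‖∫ z in D.U, κ z * (Real.sin (N * (ρ z - c)) : ℂ) * H z‖ ≤ C / N ^ K := by
  obtain ⟨C, hC⟩ := h.osc_exp hκ hκZ hκc hH c K
  refine ⟨C, fun N hN => ?_⟩
  obtain ⟨b1, b2⟩ := hC N hN
  have hVU : D.cU ⊆ V := h.hcV
  have sF := (h.smooth_cut hκ hκZ hH).continuousOn.mono h.hcV
  have sρ := h.hρ.continuousOn.mono h.hcV
  have i1 : IntegrableOn (fun z => Complex.exp (Complex.I * (N * (ρ z - c) : ℝ)) *
      (κ z * H z)) D.U := by
    refine (ContinuousOn.integrableOn_compact D.cU_compact ?_).mono_set D.U_subset_cU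
    refine ContinuousOn.mul ?_ sF
    fun_prop
  have i2 : IntegrableOn (fun z => Complex.exp (-(Complex.I * (N * (ρ z - c) : ℝ))) *
      (κ z * H z)) D.U := by
    refine (ContinuousOn.integrableOn_compact D.cU_compact ?_).mono_set D.U_subset_cU
    refine ContinuousOn.mul ?_ sF
    fun_prop
  constructor
  · have e1 : (∫ z in D.U, κ z * (Real.cos (N * (ρ z - c)) : ℂ) * H z) =
        (1 / 2 : ℂ) * ((∫ z in D.U, Complex.exp (Complex.I * (N * (ρ z - c) : ℝ)) *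
          (κ z * H z)) + ∫ z in D.U, Complex.exp (-(Complex.I * (N * (ρ z - c) : ℝ))) *
          (κ z * H z)) := by
      rw [← integral_add i1 i2, ← integral_const_mul]
      congr 1
      funext z
      rw [Complex.ofReal_cos, Complex.cos]
      rw [show ((N * (ρ z - c) : ℝ) : ℂ) * Complex.I = Complex.I * ((N * (ρ z - c) : ℝ) : ℂ) from
        mul_comm _ _, show -((N * (ρ z - c) : ℝ) : ℂ) * Complex.I =
          -(Complex.I * ((N * (ρ z - c) : ℝ) : ℂ)) by ring]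
      ring
    rw [e1, norm_mul]
    have e2 : ‖(1 / 2 : ℂ)‖ = 1 / 2 := by simp
    rw [e2]
    have e3 := norm_add_le (∫ z in D.U, Complex.exp (Complex.I * (N * (ρ z - c) : ℝ)) *
          (κ z * H z)) (∫ z in D.U, Complex.exp (-(Complex.I * (N * (ρ z - c) : ℝ))) *
          (κ z * H z))
    linarith
  · have e1 : (∫ z in D.U, κ z * (Real.sin (N * (ρ z - c)) : ℂ) * H z) =
        (Complex.I / 2 : ℂ) * ((∫ z in D.U, Complex.exp (-(Complex.I * (N * (ρ z - c) : ℝ))) *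
          (κ z * H z)) - ∫ z in D.U, Complex.exp (Complex.I * (N * (ρ z - c) : ℝ)) *
          (κ z * H z)) := by
      rw [← integral_sub i2 i1, ← integral_const_mul]
      congr 1
      funext z
      rw [Complex.ofReal_sin, Complex.sin]
      rw [show ((N * (ρ z - c) : ℝ) : ℂ) * Complex.I = Complex.I * ((N * (ρ z - c) : ℝ) : ℂ) from
        mul_comm _ _, show -((N * (ρ z - c) : ℝ) : ℂ) * Complex.I =
          -(Complex.I * ((N * (ρ z - c) : ℝ) : ℂ)) by ring]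
      ring
    rw [e1, norm_mul]
    have e2 : ‖(Complex.I / 2 : ℂ)‖ = 1 / 2 := by simp
    rw [e2]
    have e3 := norm_sub_le (∫ z in D.U, Complex.exp (-(Complex.I * (N * (ρ z - c) : ℝ))) *
          (κ z * H z)) (∫ z in D.U, Complex.exp (Complex.I * (N * (ρ z - c) : ℝ)) *
          (κ z * H z))
    linarith

/-- the exact identity for one cutoff function -/
theorem Ctx.cut_id (h : Ctx D V Z u ρ g₁ g₂) {χ : ℂ → ℝ} {c : ℝ} (hc : Cut D Z ρ χ c) (N : ℝ) :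
    (N : ℂ) ^ 2 * (∫ z in D.U, (χ z : ℂ) * (Real.cos (N * (ρ z - c)) : ℂ) *
        (g₁ z * conj (g₂ z))) =
      (∫ z in D.U, (χ z : ℂ) * ((1 - Real.cos (N * (ρ z - c)) : ℝ) : ℂ) *
        (deriv (fun w => g₁ w / u w) z * conj (deriv (fun w => g₂ w / u w) z))) +
      (∫ z in D.U, dzb (fun w => (χ w : ℂ)) z *
        (deriv (fun w => g₁ w / u w) z * conj (g₂ z / u z))) -
      (∫ z in D.U, dzb (fun w => (χ w : ℂ)) z * (Real.cos (N * (ρ z - c)) : ℂ) *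
        (deriv (fun w => g₁ w / u w) z * conj (g₂ z / u z))) -
      (N : ℂ) * (∫ z in D.U, dz (fun w => (χ w : ℂ)) z * (Real.sin (N * (ρ z - c)) : ℂ) *
        (g₁ z / u z * conj (g₂ z))) := by
  have h1 := h.int1 hc N
  have h2 := h.int2 hc N
  have hWV : V \ Z ⊆ V := sdiff_subset
  have sdχ := hc.smooth_dz
  have scs := (h.smooth_cos N c).mono hWV
  have sR' := h.smoothR' h.hg₁
  have sR₂ := smooth_conj (h.smoothR h.hg₂)
  have i1 : IntegrableOn (fun z => dzb (fun w => (χ w : ℂ)) z *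
      (deriv (fun w => g₁ w / u w) z * conj (g₂ z / u z))) D.U := by
    refine h.int_aux ((sdχ.2.contDiffOn.mul (sR'.mul sR₂)).continuousOn)
      fun p hp => ?_
    refine ⟨0, ?_⟩
    filter_upwards [hc.dz_crit hp] with w hw _
    rw [hw.2]; simp
  have i2 : IntegrableOn (fun z => dzb (fun w => (χ w : ℂ)) z *
      (Real.cos (N * (ρ z - c)) : ℂ) *
      (deriv (fun w => g₁ w / u w) z * conj (g₂ z / u z))) D.U := by
    refine h.int_aux (((sdχ.2.contDiffOn.mul scs).mul (sR'.mul sR₂)).continuousOn)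
      fun p hp => ?_
    refine ⟨0, ?_⟩
    filter_upwards [hc.dz_crit hp] with w hw _
    rw [hw.2]; simp
  have e : (∫ z in D.U, dzb (fun w => (χ w : ℂ)) z * ((1 - Real.cos (N * (ρ z - c)) : ℝ) : ℂ) *
        (deriv (fun w => g₁ w / u w) z * conj (g₂ z / u z))) =
      (∫ z in D.U, dzb (fun w => (χ w : ℂ)) z *
        (deriv (fun w => g₁ w / u w) z * conj (g₂ z / u z))) -
      (∫ z in D.U, dzb (fun w => (χ w : ℂ)) z * (Real.cos (N * (ρ z - c)) : ℂ) *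
        (deriv (fun w => g₁ w / u w) z * conj (g₂ z / u z))) := by
    rw [← integral_sub i1 i2]
    congr 1
    funext z
    push_cast
    ring
  rw [e] at h2
  linear_combination (N : ℂ) * h1 - h2


theorem Ctx.nonosc (h : Ctx D V Z u ρ g₁ g₂) {ι : Type} [Fintype ι] {χ : ι → ℂ → ℝ} {c : ι → ℝ}
    (hc : ∀ i, Cut D Z ρ (χ i) (c i))
    (hκZ : ∀ p ∈ Z, ∀ᶠ w in 𝓝 p, (1 - ∑ i, (χ i w : ℂ)) = 0)
    (hκc : ∀ l, ∀ z ∈ D.circ l, ∀ᶠ w in 𝓝 z, (1 - ∑ i, (χ i w : ℂ)) = 0) :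
    ∑ i, (∫ z in D.U, dzb (fun w => (χ i w : ℂ)) z *
        (deriv (fun w => g₁ w / u w) z * conj (g₂ z / u z))) =
      ∫ z in D.U, (1 - ∑ i, (χ i z : ℂ)) *
        (deriv (fun w => g₁ w / u w) z * conj (deriv (fun w => g₂ w / u w) z)) := by
  have hWV : V \ Z ⊆ V := sdiff_subset
  have sR' := h.smoothR' h.hg₁
  have sR₂ := smooth_conj (h.smoothR h.hg₂)
  have sR₂' := smooth_conj (h.smoothR' h.hg₂)
  have sκ : ContDiff ℝ (⊤ : ℕ∞) (fun w => 1 - ∑ i, (χ i w : ℂ)) :=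
    contDiff_const.sub (ContDiff.sum fun i _ => (hc i).smoothC)
  have sF := h.smooth_cut sκ hκZ (sR'.mul sR₂)
  have key := (green_zero D h.hV h.hcV (sF.of_le (by simp)) (fun l z hz => by
    simp only [(hκc l z hz).self_of_nhds, zero_mul])).2
  have i1 : ∀ i, IntegrableOn (fun z => dzb (fun w => (χ i w : ℂ)) z *
      (deriv (fun w => g₁ w / u w) z * conj (g₂ z / u z))) D.U := by
    intro i
    refine h.int_aux (((hc i).smooth_dz.2.contDiffOn.mul (sR'.mul sR₂)).continuousOn)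
      fun p hp => ?_
    refine ⟨0, ?_⟩
    filter_upwards [(hc i).dz_crit hp] with w hw _
    rw [hw.2]; simp
  have i2 : IntegrableOn (fun z => (1 - ∑ i, (χ i z : ℂ)) *
      (deriv (fun w => g₁ w / u w) z * conj (deriv (fun w => g₂ w / u w) z))) D.U := by
    refine h.int_aux ((sκ.contDiffOn.mul (sR'.mul sR₂')).continuousOn) fun p hp => ?_
    refine ⟨0, ?_⟩
    filter_upwards [hκZ p hp] with w hw _
    rw [hw]; simp
  have e1 : ∀ z ∈ V \ Z, dzb (fun z => (1 - ∑ i, (χ i z : ℂ)) *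
      (deriv (fun w => g₁ w / u w) z * conj (g₂ z / u z))) z =
      (1 - ∑ i, (χ i z : ℂ)) *
        (deriv (fun w => g₁ w / u w) z * conj (deriv (fun w => g₂ w / u w) z)) -
      ∑ i, dzb (fun w => (χ i w : ℂ)) z *
        (deriv (fun w => g₁ w / u w) z * conj (g₂ z / u z)) := by
    intro z hz
    have d0 : ∀ i, DifferentiableAt ℝ (fun w => (χ i w : ℂ)) z := fun i =>
      (hc i).smoothC.differentiable (by simp) z
    have d1 : DifferentiableAt ℝ (fun w => 1 - ∑ i, (χ i w : ℂ)) z :=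
      sκ.differentiable (by simp) z
    have d3 : DifferentiableAt ℂ (deriv fun w => g₁ w / u w) z :=
      (h.diffR' h.hg₁ z hz).differentiableAt (h.openW.mem_nhds hz)
    have d4 : DifferentiableAt ℂ (fun w => g₂ w / u w) z :=
      (h.diffR h.hg₂ z hz).differentiableAt (h.openW.mem_nhds hz)
    have d4' : DifferentiableAt ℝ (fun w => conj (g₂ w / u w)) z :=
      Complex.conjCLE.differentiableAt.comp z (d4.restrictScalars ℝ)
    have m2 := (dz_mul (d3.restrictScalars ℝ) d4').2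
    have e2 : dzb (fun w => 1 - ∑ i, (χ i w : ℂ)) z = -∑ i, dzb (fun w => (χ i w : ℂ)) z := by
      have e3 : (fun w => 1 - ∑ i, (χ i w : ℂ)) = fun w => (1 : ℂ) + -(∑ i, (χ i w : ℂ)) := by
        funext w; ring
      have d5 : DifferentiableAt ℝ (fun w => ∑ i, (χ i w : ℂ)) z :=
        (ContDiff.sum fun i _ => (hc i).smoothC).differentiable (by simp) z
      rw [e3, (dz_add (differentiableAt_const _) d5.fun_neg).2, dz_const.2, dz_neg.2,
        (dz_sum Finset.univ (fun i _ => d0 i)).2, zero_add]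
    rw [(dz_mul d1 ((d3.restrictScalars ℝ).fun_mul d4')).2, m2, e2, (dz_hol d3).2,
      (dz_conj_hol d4).2, neg_mul, Finset.sum_mul]
    ring
  rw [h.setIntegral_congr e1, integral_sub i2 (integrable_finsetSum _ fun i _ => i1 i),
    integral_finsetSum _ fun i _ => i1 i] at key
  linear_combination -key

end

end PosId

section
variable {k : ℕ} {D : AJ k} {τ δ : ℝ} {ι : Type} [Fintype ι] [DecidableEq ι]

open PosId

/-- the exact identity -/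
theorem pos_identity (hτ : D.Good τ) (hδ : 0 < δ) (hδτ : δ ≤ τ) (h : HM D τ δ) {x : Fin k → ℝ}
    (hx : x ≠ 0) (ps : PS D (h.rho x) ι) {g₁ g₂ : ℂ → ℂ} (hg₁ : DifferentiableOn ℂ g₁ (D.Ue δ))
    (hg₂ : DifferentiableOn ℂ g₂ (D.Ue δ)) (K : ℕ) :
    ∃ C : ℝ, ∀ N : ℝ, 1 ≤ N →
      ‖(N : ℂ) ^ 2 * (∑ i, ∫ z in D.U, (ps.chi i z : ℂ) *
          (Real.cos (N * (h.rho x z - ps.c i)) : ℂ) * (g₁ z * conj (g₂ z))) -
        ((∑ i, ∫ z in D.U, (ps.chi i z : ℂ) *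
          ((1 - Real.cos (N * (h.rho x z - ps.c i)) : ℝ) : ℂ) *
            (deriv (fun w => g₁ w / h.vv x w) z * conj (deriv (fun w => g₂ w / h.vv x w) z))) +
          ∫ z in D.U, (1 - ∑ i, (ps.chi i z : ℂ)) *
            (deriv (fun w => g₁ w / h.vv x w) z * conj (deriv (fun w => g₂ w / h.vv x w) z)))‖
      ≤ C / N ^ K := by
  obtain ⟨hρ, _, hu, hdρ, hdbρ, _, _, _⟩ := rho_facts h hτ hδ x 0
  obtain ⟨hfin, z₁, hz₁, hz₁'⟩ := vv_zeros h hτ hδ hδτ hx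
  set Z : Set ℂ := {z | z ∈ D.cU ∧ h.vv x z = 0} with hZdef
  -- isolated zeros
  have hpre : IsPreconnected (D.Ue δ) := Ue_preconnected D δ
  have hUe := D.Ue_open δ
  have hcUe := D.cU_subset_Ue hδ
  have hana : AnalyticOnNhd ℂ (h.vv x) (D.Ue δ) := hu.analyticOnNhd hUe
  have hiso : ∀ p ∈ D.Ue δ, ∀ᶠ w in 𝓝[≠] p, h.vv x w ≠ 0 := by
    intro p hp
    rcases (hana p hp).eventually_eq_zero_or_eventually_ne_zero with h0 | h0
    · exfalso
      have := hana.eqOn_zero_of_preconnected_of_eventuallyEq_zero hpre hp h0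
      exact hz₁' (this (hcUe (D.U_subset_cU hz₁)))
    · exact h0
  set V : Set ℂ := {z | z ∈ D.Ue δ ∧ (h.vv x z ≠ 0 ∨ z ∈ Z)} with hVdef
  have hVUe : V ⊆ D.Ue δ := fun z hz => hz.1
  have hcV : D.cU ⊆ V := fun z hz => ⟨hcUe hz, by
    by_cases h0 : h.vv x z = 0
    · exact Or.inr ⟨hz, h0⟩
    · exact Or.inl h0⟩
  have hVo : IsOpen V := by
    rw [isOpen_iff_mem_nhds]
    intro z hz
    have h1 : ∀ᶠ w in 𝓝 z, w ∈ D.Ue δ := hUe.mem_nhds hz.1
    rcases hz.2 with h0 | h0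
    · have h2 : ∀ᶠ w in 𝓝 z, h.vv x w ≠ 0 :=
        (hana z hz.1).continuousAt.eventually_ne h0
      filter_upwards [h1, h2] with w hw hw'
      exact ⟨hw, Or.inl hw'⟩
    · have h2 := eventually_nhdsWithin_iff.1 (hiso z hz.1)
      filter_upwards [h1, h2] with w hw hw'
      by_cases hwz : w = z
      · exact ⟨hw, Or.inr (hwz ▸ h0)⟩
      · exact ⟨hw, Or.inl (hw' hwz)⟩
  have hctx : Ctx D V Z (h.vv x) (h.rho x) g₁ g₂ :=
    { hV := hVo
      hcV := hcV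
      hZ := hfin
      hZc := fun z hz => hz.1
      uZ := fun z hz => ⟨fun h0 => hz.2.resolve_left (fun h1 => h1 h0), fun h0 => h0.2⟩
      hu := hu.mono hVUe
      hρ := hρ.mono hVUe
      dρ := fun z hz => hdρ z hz.1
      dbρ := fun z hz => hdbρ z hz.1
      hg₁ := hg₁.mono hVUe
      hg₂ := hg₂.mono hVUe }
  -- the cutoff functions
  have hoff : ∀ i z, z ∉ tsupport (ps.chi i) → ∀ᶠ w in 𝓝 z, ps.chi i w = 0 := fun i z hz =>
    notMem_tsupport_iff_eventuallyEq.1 hz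
  have hon : ∀ i z, (∀ᶠ w in 𝓝 z, ps.chi i w = 1) → z ∈ tsupport (ps.chi i) := by
    intro i z hz
    apply subset_tsupport
    rw [Function.mem_support, hz.self_of_nhds]
    exact one_ne_zero
  have hdisj : ∀ i j z, i ≠ j → (∀ᶠ w in 𝓝 z, ps.chi i w = 1) →
      ∀ᶠ w in 𝓝 z, ps.chi j w = 0 := fun i j z hij hz =>
    hoff j z (Set.disjoint_left.1 (ps.disj i j hij) (hon i z hz))
  have hcrit : ∀ p ∈ Z, ∃ i, ∀ᶠ w in 𝓝 p, ps.chi i w = 1 := fun p hp =>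
    ps.crit_near p hp.1 (by rw [hdρ p (hcUe hp.1)]; exact hp.2)
  have hcut : ∀ i, Cut D Z (h.rho x) (ps.chi i) (ps.c i) := by
    intro i
    refine ⟨ps.smooth i, ?_, ?_⟩
    · intro l z hz
      by_cases hi : i = ps.bd l
      · subst hi
        exact Or.inr ⟨ps.val_circ l z hz, ps.bd_near l z hz⟩
      · refine Or.inl (hoff i z fun hz' => hi (ps.only_circ i l ⟨z, hz', hz⟩))
    · intro p hp
      obtain ⟨i₀, hi₀⟩ := hcrit p hp
      by_cases hi : i₀ = i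
      · subst hi
        refine Or.inr ⟨ps.val_crit i₀ p ⟨hon _ _ hi₀, hp.1⟩ ?_, hi₀⟩
        rw [hdρ p (hcUe hp.1)]
        exact hp.2
      · exact Or.inl (hdisj i₀ i p hi hi₀)
  have hsum : ∀ z, (∃ i, ∀ᶠ w in 𝓝 z, ps.chi i w = 1) →
      ∀ᶠ w in 𝓝 z, (1 - ∑ i, (ps.chi i w : ℂ)) = 0 := by
    rintro z ⟨i, hi⟩
    have h1 : ∀ᶠ w in 𝓝 z, ∀ j, i ≠ j → ps.chi j w = 0 := by
      rw [eventually_all]
      intro j
      by_cases hij : i = j
      · exact Eventually.of_forall fun w hw => absurd hij hw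
      · filter_upwards [hdisj i j z hij hi] with w hw _ using hw
    filter_upwards [hi, h1] with w hw hw'
    rw [Finset.sum_eq_single i (fun j _ hj => by rw [hw' j (Ne.symm hj)]; simp)
      (fun hi' => absurd (Finset.mem_univ i) hi'), hw]
    simp
  have hκZ : ∀ p ∈ Z, ∀ᶠ w in 𝓝 p, (1 - ∑ i, (ps.chi i w : ℂ)) = 0 := fun p hp =>
    hsum p (hcrit p hp)
  have hκc : ∀ l, ∀ z ∈ D.circ l, ∀ᶠ w in 𝓝 z, (1 - ∑ i, (ps.chi i w : ℂ)) = 0 :=
    fun l z hz => hsum z ⟨ps.bd l, ps.bd_near l z hz⟩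
  -- oscillating terms
  have hWV : V \ Z ⊆ V := sdiff_subset
  have sR := hctx.smoothR hctx.hg₁
  have sR' := hctx.smoothR' hctx.hg₁
  have sR₂ := smooth_conj (hctx.smoothR hctx.hg₂)
  have sg₂ : ContDiffOn ℝ (⊤ : ℕ∞) (fun w => conj (g₂ w)) (V \ Z) :=
    (smooth_conj (hol_contDiffOn hctx.hV hctx.hg₂)).mono hWV
  have o1 : ∀ i, ∃ C : ℝ, ∀ N : ℝ, 1 ≤ N →
      ‖∫ z in D.U, dzb (fun w => (ps.chi i w : ℂ)) z *
        (Real.cos (N * (h.rho x z - ps.c i)) : ℂ) *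
        (deriv (fun w => g₁ w / h.vv x w) z * conj (g₂ z / h.vv x z))‖ ≤ C / N ^ K := by
    intro i
    obtain ⟨C, hC⟩ := hctx.osc (hcut i).smooth_dz.2
      (fun p hp => ((hcut i).dz_crit hp).mono fun w hw => hw.2)
      (fun l z hz => ((hcut i).dz_circ hz).mono fun w hw => hw.2) (sR'.mul sR₂) (ps.c i) K
    exact ⟨C, fun N hN => (hC N hN).1⟩
  have o2 : ∀ i, ∃ C : ℝ, ∀ N : ℝ, 1 ≤ N →
      ‖∫ z in D.U, dz (fun w => (ps.chi i w : ℂ)) z *
        (Real.sin (N * (h.rho x z - ps.c i)) : ℂ) *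
        (g₁ z / h.vv x z * conj (g₂ z))‖ ≤ C / N ^ (K + 1) := by
    intro i
    obtain ⟨C, hC⟩ := hctx.osc (hcut i).smooth_dz.1
      (fun p hp => ((hcut i).dz_crit hp).mono fun w hw => hw.1)
      (fun l z hz => ((hcut i).dz_circ hz).mono fun w hw => hw.1) (sR.mul sg₂) (ps.c i) (K + 1)
    exact ⟨C, fun N hN => (hC N hN).2⟩
  choose C₁ hC₁ using o1
  choose C₂ hC₂ using o2
  refine ⟨∑ i, (C₁ i + C₂ i), fun N hN => ?_⟩
  have hN0 : (0 : ℝ) < N := by linarith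
  have hNK : 0 < N ^ K := by positivity
  have hid := hctx.nonosc hcut hκZ hκc
  rw [← hid, Finset.mul_sum]
  have e : ∀ i, (N : ℂ) ^ 2 * (∫ z in D.U, (ps.chi i z : ℂ) *
      (Real.cos (N * (h.rho x z - ps.c i)) : ℂ) * (g₁ z * conj (g₂ z))) = _ := fun i =>
    hctx.cut_id (hcut i) N
  rw [Finset.sum_congr rfl fun i _ => e i, Finset.sum_sub_distrib, Finset.sum_sub_distrib,
    Finset.sum_add_distrib]
  have e' : ∀ a b c' d' : ℂ, a + b - c' - d' - (a + b) = -(c' + d') := fun a b c' d' => by ring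
  rw [e', norm_neg, ← Finset.sum_add_distrib, Finset.sum_div]
  refine (norm_sum_le _ _).trans (Finset.sum_le_sum fun i _ => ?_)
  refine (norm_add_le _ _).trans ?_
  rw [norm_mul, add_div]
  have a1 := hC₁ i N hN
  have a2 := hC₂ i N hN
  have a3 : ‖(N : ℂ)‖ = N := by
    rw [Complex.norm_real, Real.norm_eq_abs, abs_of_pos hN0]
  rw [a3]
  have a4 : N * (C₂ i / N ^ (K + 1)) = C₂ i / N ^ K := by
    rw [pow_succ]
    field_simp
  have a5 := mul_le_mul_of_nonneg_left a2 hN0.le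
  rw [a4] at a5
  exact add_le_add a1 a5

end

end Pool.Agent.KA
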