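import Pool.Agent.Helper9.KA.E3b
import Pool.Agent.Helper9.KA.A5b

set_option autoImplicit false

open MeasureTheory Set Filter Asymptotics Topology Metric
open scoped ComplexConjugate ENNReal

namespace Pool.Agent.KA

open Pool.Agent.Helper7.KE hiding HM PS Bv sfun FF tt lS
open Pool.Agent.EN (AJ ann ann2)

section
variable {k : ℕ} {D : AJ k} {τ δ : ℝ} {ι : Type} [Fintype ι] [DecidableEq ι]

open PosId

/-- the analytic context of a phase system -/
theorem E3c_ctx (hτ : D.Good τ) (hδ : 0 < δ) (hδτ : δ ≤ τ) (h : HM D τ δ) {x : Fin k → ℝ}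
    (hx : x ≠ 0) (ps : PS D (h.rho x) ι) : ∃ V Z : Set ℂ, V ⊆ D.Ue δ ∧
      (∀ g₁ g₂ : ℂ → ℂ, DifferentiableOn ℂ g₁ (D.Ue δ) → DifferentiableOn ℂ g₂ (D.Ue δ) →
        Ctx D V Z (h.vv x) (h.rho x) g₁ g₂) ∧ (∀ i, Cut D Z (h.rho x) (ps.chi i) (ps.c i)) ∧
      (∀ p ∈ Z, ∀ᶠ w in 𝓝 p, (1 - ∑ i, (ps.chi i w : ℂ)) = 0) := by
  obtain ⟨hρ, _, hu, hdρ, hdbρ, _, _, _⟩ := rho_facts h hτ hδ x 0
  obtain ⟨hfin, z₁, hz₁, hz₁'⟩ := vv_zeros h hτ hδ hδτ hx
  set Z : Set ℂ := {z | z ∈ D.cU ∧ h.vv x z = 0} with hZdef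
  -- isolated zeros
  have hpre : IsPreconnected (D.Ue δ) := Ue_preconnected D δ
  have hUe := D.Ue_open δ
  have hcUe := D.cU_subset_Ue hδ
  have hana : AnalyticOnNhd ℂ (h.vv x) (D.Ue δ) := hu.analyticOnNhd hUe
  have hiso : ∀ p ∈ D.Ue δ, ∀ᶠ w in 𝓝[≠] p, h.vv x w ≠ 0 := by
    intro p hp
    rcases (hana p hp).eventually_eq_zero_or_eventually_ne_zero with h0 | h0
    · exfalso
      have := hana.eqOn_zero_of_preconnected_of_eventuallyEq_zero hpre hp h0
      exact hz₁' (this (hcUe (D.U_subset_cU hz₁)))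
    · exact h0
  set V : Set ℂ := {z | z ∈ D.Ue δ ∧ (h.vv x z ≠ 0 ∨ z ∈ Z)} with hVdef
  have hVUe : V ⊆ D.Ue δ := fun z hz => hz.1
  have hcV : D.cU ⊆ V := fun z hz => ⟨hcUe hz, by
    by_cases h0 : h.vv x z = 0
    · exact Or.inr ⟨hz, h0⟩
    · exact Or.inl h0⟩
  have hVo : IsOpen V := by
    rw [isOpen_iff_mem_nhds]
    intro z hz
    have h1 : ∀ᶠ w in 𝓝 z, w ∈ D.Ue δ := hUe.mem_nhds hz.1
    rcases hz.2 with h0 | h0
    · have h2 : ∀ᶠ w in 𝓝 z, h.vv x w ≠ 0 :=
        (hana z hz.1).continuousAt.eventually_ne h0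
      filter_upwards [h1, h2] with w hw hw'
      exact ⟨hw, Or.inl hw'⟩
    · have h2 := eventually_nhdsWithin_iff.1 (hiso z hz.1)
      filter_upwards [h1, h2] with w hw hw'
      by_cases hwz : w = z
      · exact ⟨hw, Or.inr (hwz ▸ h0)⟩
      · exact ⟨hw, Or.inl (hw' hwz)⟩
  have hctx : ∀ g₁ g₂ : ℂ → ℂ, DifferentiableOn ℂ g₁ (D.Ue δ) →
      DifferentiableOn ℂ g₂ (D.Ue δ) → Ctx D V Z (h.vv x) (h.rho x) g₁ g₂ := fun g₁ g₂ hg₁ hg₂ =>
    { hV := hVo
      hcV := hcV
      hZ := hfin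
      hZc := fun z hz => hz.1
      uZ := fun z hz => ⟨fun h0 => hz.2.resolve_left (fun h1 => h1 h0), fun h0 => h0.2⟩
      hu := hu.mono hVUe
      hρ := hρ.mono hVUe
      dρ := fun z hz => hdρ z hz.1
      dbρ := fun z hz => hdbρ z hz.1
      hg₁ := hg₁.mono hVUe
      hg₂ := hg₂.mono hVUe }
  -- the cutoff functions
  have hoff : ∀ i z, z ∉ tsupport (ps.chi i) → ∀ᶠ w in 𝓝 z, ps.chi i w = 0 := fun i z hz =>
    notMem_tsupport_iff_eventuallyEq.1 hz
  have hon : ∀ i z, (∀ᶠ w in 𝓝 z, ps.chi i w = 1) → z ∈ tsupport (ps.chi i) := by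
    intro i z hz
    apply subset_tsupport
    rw [Function.mem_support, hz.self_of_nhds]
    exact one_ne_zero
  have hdisj : ∀ i j z, i ≠ j → (∀ᶠ w in 𝓝 z, ps.chi i w = 1) →
      ∀ᶠ w in 𝓝 z, ps.chi j w = 0 := fun i j z hij hz =>
    hoff j z (Set.disjoint_left.1 (ps.disj i j hij) (hon i z hz))
  have hcrit : ∀ p ∈ Z, ∃ i, ∀ᶠ w in 𝓝 p, ps.chi i w = 1 := fun p hp =>
    ps.crit_near p hp.1 (by rw [hdρ p (hcUe hp.1)]; exact hp.2)
  have hcut : ∀ i, Cut D Z (h.rho x) (ps.chi i) (ps.c i) := by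
    intro i
    refine ⟨ps.smooth i, ?_, ?_⟩
    · intro l z hz
      by_cases hi : i = ps.bd l
      · subst hi
        exact Or.inr ⟨ps.val_circ l z hz, ps.bd_near l z hz⟩
      · refine Or.inl (hoff i z fun hz' => hi (ps.only_circ i l ⟨z, hz', hz⟩))
    · intro p hp
      obtain ⟨i₀, hi₀⟩ := hcrit p hp
      by_cases hi : i₀ = i
      · subst hi
        refine Or.inr ⟨ps.val_crit i₀ p ⟨hon _ _ hi₀, hp.1⟩ ?_, hi₀⟩
        rw [hdρ p (hcUe hp.1)]
        exact hp.2
      · exact Or.inl (hdisj i₀ i p hi hi₀)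
  have hsum : ∀ z, (∃ i, ∀ᶠ w in 𝓝 z, ps.chi i w = 1) →
      ∀ᶠ w in 𝓝 z, (1 - ∑ i, (ps.chi i w : ℂ)) = 0 := by
    rintro z ⟨i, hi⟩
    have h1 : ∀ᶠ w in 𝓝 z, ∀ j, i ≠ j → ps.chi j w = 0 := by
      rw [eventually_all]
      intro j
      by_cases hij : i = j
      · exact Eventually.of_forall fun w hw => absurd hij hw
      · filter_upwards [hdisj i j z hij hi] with w hw _ using hw
    filter_upwards [hi, h1] with w hw hw'
    rw [Finset.sum_eq_single i (fun j _ hj => by rw [hw' j (Ne.symm hj)]; simp)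
      (fun hi' => absurd (Finset.mem_univ i) hi'), hw]
    simp
  exact ⟨V, Z, hVUe, hctx, hcut, fun p hp => hsum p (hcrit p hp)⟩

theorem E3c_quad {m : ℕ} {S : Set ℂ} {ω : ℂ → ℝ} {f : Fin m → ℂ → ℂ}
    (hint : ∀ b b', IntegrableOn (fun z => (ω z : ℂ) * (f b z * conj (f b' z))) S)
    (β : Fin m → ℂ) :
    ∑ b, ∑ b', β b * conj (β b') * ∫ z in S, (ω z : ℂ) * (f b z * conj (f b' z)) =
      ((∫ z in S, ω z * ‖∑ b, β b * f b z‖ ^ 2 : ℝ) : ℂ) ∧
    IntegrableOn (fun z => ω z * ‖∑ b, β b * f b z‖ ^ 2) S := by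
  have hp : ∀ z, ((ω z * ‖∑ b, β b * f b z‖ ^ 2 : ℝ) : ℂ) =
      ∑ b, ∑ b', β b * conj (β b') * ((ω z : ℂ) * (f b z * conj (f b' z))) := by
    intro z
    have h1 : ((‖∑ b, β b * f b z‖ ^ 2 : ℝ) : ℂ) =
        (∑ b, β b * f b z) * conj (∑ b, β b * f b z) := by
      rw [Complex.mul_conj, Complex.normSq_eq_norm_sq]
    rw [Complex.ofReal_mul, h1, map_sum, Finset.sum_mul_sum, Finset.mul_sum]
    refine Finset.sum_congr rfl fun b _ => ?_
    rw [Finset.mul_sum]
    refine Finset.sum_congr rfl fun b' _ => ?_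
    rw [map_mul]
    ring
  have hi : IntegrableOn (fun z => ∑ b, ∑ b', β b * conj (β b') *
      ((ω z : ℂ) * (f b z * conj (f b' z)))) S :=
    integrable_finsetSum _ fun b _ => integrable_finsetSum _ fun b' _ => (hint b b').const_mul _
  have hi' : IntegrableOn (fun z => ((ω z * ‖∑ b, β b * f b z‖ ^ 2 : ℝ) : ℂ)) S := by
    simp only [hp]
    exact hi
  refine ⟨?_, ?_⟩
  · rw [← integral_complex_ofReal]
    simp only [hp]
    rw [integral_finsetSum _ fun b _ => integrable_finsetSum _ fun b' _ =>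
      (hint b b').const_mul _]
    refine Finset.sum_congr rfl fun b _ => ?_
    rw [integral_finsetSum _ fun b' _ => (hint b b').const_mul _]
    refine Finset.sum_congr rfl fun b' _ => ?_
    rw [integral_const_mul]
  · exact hi'.re.congr (ae_of_all _ fun z => Complex.ofReal_re _)

theorem E3c_swap {m : ℕ} (β : Fin m → ℂ) (f : ι → Fin m → Fin m → ℂ) :
    ∑ b, ∑ b', β b * conj (β b') * ∑ i, f i b b' =
      ∑ i, ∑ b, ∑ b', β b * conj (β b') * f i b b' := by
  simp only [Finset.mul_sum]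
  calc ∑ b, ∑ b', ∑ i, β b * conj (β b') * f i b b'
      = ∑ b, ∑ i, ∑ b', β b * conj (β b') * f i b b' :=
        Finset.sum_congr rfl fun b _ => Finset.sum_comm
    _ = _ := Finset.sum_comm

theorem E3c_kappa {h : HM D τ δ} {x : Fin k → ℝ} (ps : PS D (h.rho x) ι) (z : ℂ) :
    0 ≤ 1 - ∑ i, ps.chi i z := by
  by_cases hz : ∃ i, ps.chi i z ≠ 0
  · obtain ⟨i, hi⟩ := hz
    have h1 : ∀ j ≠ i, ps.chi j z = 0 := by
      intro j hj
      by_contra h0
      exact Set.disjoint_left.1 (ps.disj j i hj) (subset_tsupport _ h0) (subset_tsupport _ hi)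
    rw [Finset.sum_eq_single i (fun j _ hj => h1 j hj) (fun h' => absurd (Finset.mem_univ i) h')]
    linarith [ps.le_one i z]
  · push Not at hz
    simp [hz]

/-- the cutoff functions do not cover the domain -/
theorem E3c_gap {h : HM D τ δ} {x : Fin k → ℝ} (hx : x ≠ 0) (ps : PS D (h.rho x) ι) :
    ∃ z ∈ D.U, 0 < 1 - ∑ i, ps.chi i z := by
  obtain ⟨j, -⟩ := Function.ne_iff.1 hx
  by_contra hcon
  push Not at hcon
  have hone : ∀ z ∈ D.U, ∑ i, ps.chi i z = 1 := fun z hz =>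
    le_antisymm (by linarith [E3c_kappa ps z]) (by linarith [hcon z hz])
  set i₀ := ps.bd none with hi₀
  set F : Set ℂ := tsupport (ps.chi i₀) with hF
  set G : Set ℂ := ⋃ i ∈ {i | i ≠ i₀}, tsupport (ps.chi i) with hG
  have hGc : IsClosed G := (Set.toFinite _).isClosed_biUnion fun i _ => isClosed_tsupport _
  have hcov : D.U ⊆ F ∪ G := by
    intro z hz
    have h1 : ∃ i, ps.chi i z ≠ 0 := by
      by_contra h0
      push Not at h0
      have := hone z hz
      simp [h0] at this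
    obtain ⟨i, hi⟩ := h1
    by_cases hii : i = i₀
    · subst hii
      exact Or.inl (subset_tsupport _ hi)
    · exact Or.inr (mem_biUnion (show i ∈ {i | i ≠ i₀} from hii) (subset_tsupport _ hi))
  -- points of `U` near a circle
  have hpt : ∀ l, ∃ z ∈ D.U, ps.chi (ps.bd l) z = 1 := by
    intro l
    obtain ⟨p, hp⟩ : (D.circ l).Nonempty := ⟨D.kap l 1, 1, by simp, rfl⟩
    have h1 := ps.bd_near l p hp
    have h3 : ∃ᶠ z in 𝓝 p, z ∈ D.U :=
      mem_closure_iff_frequently.1 (D.circ_subset_closure l hp)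
    obtain ⟨z, hz1, hz2⟩ := (h3.and_eventually h1).exists
    exact ⟨z, hz1, hz2⟩
  obtain ⟨z₁, hz₁, hz₁'⟩ := hpt none
  obtain ⟨z₂, hz₂, hz₂'⟩ := hpt (some j)
  have hne : ps.bd (some j) ≠ i₀ := fun e => by
    have := ps.bd_inj e
    simp at this
  have hF1 : (D.U ∩ F).Nonempty := ⟨z₁, hz₁, subset_tsupport _ (by
    rw [Function.mem_support, hi₀, hz₁']
    exact one_ne_zero)⟩
  have hG1 : (D.U ∩ G).Nonempty := ⟨z₂, hz₂, mem_biUnion (show ps.bd (some j) ∈ {i | i ≠ i₀} from hne)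
    (subset_tsupport _ (by
      rw [Function.mem_support, hz₂']
      exact one_ne_zero))⟩
  obtain ⟨z, -, hzF, hzG⟩ := isPreconnected_closed_iff.1 (U_preconnected D) F G
    (isClosed_tsupport _) hGc hcov hF1 hG1
  obtain ⟨i, hi, hzi⟩ := mem_iUnion₂.1 hzG
  exact Set.disjoint_left.1 (ps.disj i i₀ hi) hzi hzF

/-- lower bound on a finite-dimensional space transversal to `u` (from `pos_identity`) -/
theorem pos_lower (hτ : D.Good τ) (hδ : 0 < δ) (hδτ : δ ≤ τ) (h : HM D τ δ) {x : Fin k → ℝ}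
    (hx : x ≠ 0) (ps : PS D (h.rho x) ι) {m : ℕ} {g : Fin m → ℂ → ℂ}
    (hg : ∀ b, DifferentiableOn ℂ (g b) (D.Ue δ))
    (hind : ∀ β : Fin m → ℂ, (∃ c : ℂ, ∀ z ∈ D.U, ∑ b, β b * g b z = c * h.vv x z) → β = 0) :
    ∃ c > 0, ∃ N₀ : ℝ, ∀ N : ℝ, N₀ ≤ N → ∀ β : Fin m → ℂ,
      c / N ^ 2 * ∑ b, ‖β b‖ ^ 2 ≤
        (∑ b, ∑ b', β b * conj (β b') * Bv h ps N 0 0 (g b) (g b')).re := by
  obtain ⟨V, Z, hVUe, hctx, hcut, hκZ⟩ := E3c_ctx hτ hδ hδτ h hx ps
  have hcUe := D.cU_subset_Ue hδ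
  have hUUe : D.U ⊆ D.Ue δ := D.U_subset_cU.trans hcUe
  have hρ := (rho_facts h hτ hδ x 0).1
  have hctx0 := hctx (fun _ => 0) (fun _ => 0) (differentiableOn_const _) (differentiableOn_const _)
  have hWV : V \ Z ⊆ V := sdiff_subset
  set R' : Fin m → ℂ → ℂ := fun b => deriv (fun w => g b w / h.vv x w) with hR'
  set κ : ℂ → ℝ := fun z => 1 - ∑ i, ps.chi i z with hκ
  have hκc : ∀ z, (κ z : ℂ) = 1 - ∑ i, (ps.chi i z : ℂ) := fun z => by
    simp [hκ]
  -- integrability
  have intA : ∀ (N : ℝ) i b b', IntegrableOn (fun z => (ps.chi i z : ℂ) *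
      ((1 - Real.cos (N * (h.rho x z - ps.c i)) : ℝ) : ℂ) * (R' b z * conj (R' b' z))) D.U := by
    intro N i b b'
    have hc := hctx (g b) (g b') (hg b) (hg b')
    have sχ := (hcut i).smoothC
    have scs := (hc.smooth_one_sub_cos N (ps.c i)).mono hWV
    have sR' := hc.smoothR' hc.hg₁
    have sR₂' := smooth_conj (hc.smoothR' hc.hg₂)
    refine hc.int_aux (((sχ.contDiffOn.mul scs).mul (sR'.mul sR₂')).continuousOn) fun p hp => ?_
    obtain ⟨n, C, hC, e⟩ := hc.key_bd (hcut i) hp N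
    refine ⟨C * C * C, ?_⟩
    filter_upwards [e] with w hw _
    obtain ⟨b1, b2, b3, b4, b5, b6, b7, b8⟩ := hw
    rw [norm_mul _ (_ * _), norm_mul (deriv _ w), Complex.norm_conj]
    calc ‖(ps.chi i w : ℂ) * ((1 - Real.cos (N * (h.rho x w - ps.c i)) : ℝ) : ℂ)‖ *
          (‖deriv (fun w => g b w / h.vv x w) w‖ * ‖deriv (fun w => g b' w / h.vv x w) w‖)
        ≤ (C * ‖w - p‖ ^ (2 * n + 2)) *
          (‖deriv (fun w => g b w / h.vv x w) w‖ * ‖deriv (fun w => g b' w / h.vv x w) w‖) := by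
          gcongr
      _ = C * (‖deriv (fun w => g b w / h.vv x w) w‖ * ‖w - p‖ ^ (n + 1)) *
          (‖deriv (fun w => g b' w / h.vv x w) w‖ * ‖w - p‖ ^ (n + 1)) := by ring
      _ ≤ C * C * C := by gcongr
  have intB : ∀ b b', IntegrableOn (fun z => (κ z : ℂ) * (R' b z * conj (R' b' z))) D.U := by
    intro b b'
    have hc := hctx (g b) (g b') (hg b) (hg b')
    have sκ : ContDiff ℝ (⊤ : ℕ∞) (fun w => 1 - ∑ i, (ps.chi i w : ℂ)) :=
      contDiff_const.sub (ContDiff.sum fun i _ => (hcut i).smoothC)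
    have sR' := hc.smoothR' hc.hg₁
    have sR₂' := smooth_conj (hc.smoothR' hc.hg₂)
    simp only [hκc]
    refine hc.int_aux ((sκ.contDiffOn.mul (sR'.mul sR₂')).continuousOn) fun p hp => ?_
    refine ⟨0, ?_⟩
    filter_upwards [hκZ p hp] with w hw _
    rw [hw]; simp
  have contG : ∀ b b', ContinuousOn (fun z => g b z * conj (g b' z)) D.cU := fun b b' =>
    ((hg b).continuousOn.mono hcUe).mul
      (Complex.continuous_conj.comp_continuousOn ((hg b').continuousOn.mono hcUe))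
  have contρ : ContinuousOn (h.rho x) D.cU := hρ.continuousOn.mono hcUe
  have contχ : ∀ i, ContinuousOn (ps.chi i) D.cU := fun i => (ps.smooth i).continuous.continuousOn
  have intC : ∀ (ω : ℂ → ℝ), ContinuousOn ω D.cU → ∀ b b',
      IntegrableOn (fun z => (ω z : ℂ) * (g b z * conj (g b' z))) D.U := by
    intro ω hω b b'
    exact (((Complex.continuous_ofReal.comp_continuousOn hω).mul (contG b b')).integrableOn_compact
      D.cU_compact).mono_set D.U_subset_cU
  -- the quadratic form of the limit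
  set Q : (Fin m → ℂ) → ℝ := fun β => ∫ z in D.U, κ z * ‖∑ b, β b * R' b z‖ ^ 2 with hQ
  have hQnn : ∀ (β : Fin m → ℂ) (z : ℂ), 0 ≤ κ z * ‖∑ b, β b * R' b z‖ ^ 2 := fun β z =>
    mul_nonneg (E3c_kappa ps z) (by positivity)
  have hQpos : ∀ β, β ≠ 0 → 0 < Q β := by
    intro β hβ
    by_contra hcon
    have hQ0 : Q β = 0 :=
      le_antisymm (not_lt.1 hcon) (integral_nonneg fun z => hQnn β z)
    apply hβ
    apply hind β
    have hae := (setIntegral_eq_zero_iff_of_nonneg_ae (ae_of_all _ fun z => hQnn β z)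
      (E3c_quad intB β).2).1 hQ0
    obtain ⟨z₁, hz₁, hκ₁⟩ := E3c_gap hx ps
    have hz₁Z : z₁ ∉ Z := by
      intro hz
      have := (hκZ z₁ hz).self_of_nhds
      rw [← hκc] at this
      have h0 : κ z₁ = 0 := by exact_mod_cast this
      simp only [hκ] at h0
      linarith
    set O : Set ℂ := {z | z ∈ D.U \ Z ∧ 0 < κ z} with hO
    have hκcont : Continuous κ :=
      continuous_const.sub (continuous_finsetSum _ fun i _ => (ps.smooth i).continuous)
    have hOo : IsOpen O := by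
      have e1 : IsOpen (D.U \ Z) := D.U_open.sdiff hctx0.hZ.isClosed
      exact e1.inter (isOpen_lt continuous_const hκcont)
    have hOU : O ⊆ D.U := fun z hz => hz.1.1
    have hOW : O ⊆ V \ Z := fun z hz => ⟨hctx0.hcV (D.U_subset_cU hz.1.1), hz.1.2⟩
    have hdR : ∀ b, ∀ z ∈ O, DifferentiableAt ℂ (fun w => g b w / h.vv x w) z := fun b z hz => by
      have hc := hctx (g b) (g b) (hg b) (hg b)
      exact (hc.diffR hc.hg₁ z (hOW hz)).differentiableAt (hc.openW.mem_nhds (hOW hz))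
    have hcR : ContinuousOn (fun z => ∑ b, β b * R' b z) O := by
      refine continuousOn_finsetSum _ fun b _ => continuousOn_const.mul ?_
      have hc := hctx (g b) (g b) (hg b) (hg b)
      exact (hc.smoothR' hc.hg₁).continuousOn.mono hOW
    have hz0 : ∀ z ∈ O, ∑ b, β b * R' b z = 0 := by
      have h2 : (fun z => ∑ b, β b * R' b z) =ᵐ[volume.restrict O] fun _ => 0 := by
        have h3 := ae_restrict_of_ae_restrict_of_subset hOU hae
        filter_upwards [h3, ae_restrict_mem hOo.measurableSet] with z hz hzO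
        have h4 : κ z * ‖∑ b, β b * R' b z‖ ^ 2 = 0 := hz
        have h5 := (mul_eq_zero.1 h4).resolve_left hzO.2.ne'
        exact norm_eq_zero.1 ((pow_eq_zero_iff two_ne_zero).1 h5)
      exact Measure.eqOn_open_of_ae_eq h2 hOo hcR continuousOn_const
    have hz₁O : z₁ ∈ O := ⟨⟨hz₁, hz₁Z⟩, hκ₁⟩
    obtain ⟨r, hr, hrO⟩ := Metric.isOpen_iff.1 hOo z₁ hz₁O
    have hconst : ∃ c : ℂ, ∀ z ∈ ball z₁ r, ∑ b, β b * (g b z / h.vv x z) = c := by
      refine isOpen_ball.exists_is_const_of_deriv_eq_zero (convex_ball z₁ r).isPreconnected ?_ ?_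
      · intro z hz
        exact (DifferentiableAt.fun_sum fun b _ =>
          (hdR b z (hrO hz)).const_mul _).differentiableWithinAt
      · intro z hz
        have h3 : HasDerivAt (fun z => ∑ b, β b * (g b z / h.vv x z)) (∑ b, β b * R' b z) z :=
          HasDerivAt.fun_sum fun b _ => (hdR b z (hrO hz)).hasDerivAt.const_mul _
        rw [h3.deriv, hz0 z (hrO hz)]
        rfl
    obtain ⟨c, hc⟩ := hconst
    refine ⟨c, fun z hz => ?_⟩
    have hu : DifferentiableOn ℂ (h.vv x) (D.Ue δ) := (rho_facts h hτ hδ x 0).2.2.1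
    have hd : DifferentiableOn ℂ (fun z => ∑ b, β b * g b z - c * h.vv x z) D.U := by
      refine DifferentiableOn.sub (DifferentiableOn.fun_sum fun b _ =>
        ((hg b).mono hUUe).const_mul _) ((hu.mono hUUe).const_mul _)
    have hev : (fun z => ∑ b, β b * g b z - c * h.vv x z) =ᶠ[𝓝 z₁] 0 := by
      filter_upwards [isOpen_ball.mem_nhds (mem_ball_self hr)] with w hw
      have hwO := hrO hw
      have hne : h.vv x w ≠ 0 := fun h0 =>
        hwO.1.2 ((hctx0.uZ w (hOW hwO).1).1 h0)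
      have h4 := hc w hw
      show ∑ b, β b * g b w - c * h.vv x w = 0
      rw [← h4, Finset.sum_mul, ← Finset.sum_sub_distrib]
      refine Finset.sum_eq_zero fun b _ => ?_
      field_simp
      ring
    have h5 := (hd.analyticOnNhd D.U_open).eqOn_zero_of_preconnected_of_eventuallyEq_zero
      (U_preconnected D) hz₁ hev hz
    exact sub_eq_zero.1 h5
  obtain ⟨c, hc, hQc⟩ : ∃ c > 0, ∀ β, 2 * c * ∑ b, ‖β b‖ ^ 2 ≤ Q β := by
    rcases Nat.eq_zero_or_pos m with hm | hm
    · subst hm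
      refine ⟨1, one_pos, fun β => ?_⟩
      simp only [Finset.univ_eq_empty, Finset.sum_empty, mul_zero]
      exact integral_nonneg fun z => hQnn β z
    · have : Nonempty (Fin m) := ⟨⟨0, hm⟩⟩
      have hQcont : Continuous Q := by
        have e1 : Q = fun β => (∑ b, ∑ b', β b * conj (β b') *
            ∫ z in D.U, (κ z : ℂ) * (R' b z * conj (R' b' z))).re := by
          funext β
          rw [(E3c_quad intB β).1, Complex.ofReal_re]
        rw [e1]
        refine Complex.continuous_re.comp (continuous_finsetSum _ fun b _ =>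
          continuous_finsetSum _ fun b' _ => ?_)
        exact ((continuous_apply b).mul (Complex.continuous_conj.comp (continuous_apply b'))).mul
          continuous_const
      have hne : (sphere (0 : Fin m → ℂ) 1).Nonempty :=
        NormedSpace.sphere_nonempty.2 zero_le_one
      obtain ⟨β₀, hβ₀, hmin⟩ := (isCompact_sphere (0 : Fin m → ℂ) 1).exists_isMinOn hne
        hQcont.continuousOn
      have hβ₀' : β₀ ≠ 0 := by
        rintro rfl
        simp at hβ₀
      have hc₀ := hQpos β₀ hβ₀'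
      have hm' : (0 : ℝ) < m := by exact_mod_cast hm
      refine ⟨Q β₀ / (2 * m), by positivity, fun β => ?_⟩
      by_cases hβ : β = 0
      · subst hβ
        simp only [Pi.zero_apply, norm_zero, ne_eq, OfNat.ofNat_ne_zero, not_false_eq_true,
          zero_pow, Finset.sum_const_zero, mul_zero]
        exact integral_nonneg fun z => hQnn 0 z
      · have ht : 0 < ‖β‖ := norm_pos_iff.2 hβ
        set β' : Fin m → ℂ := fun b => (‖β‖ : ℂ)⁻¹ * β b with hβ'
        have h1 : Q β = ‖β‖ ^ 2 * Q β' := by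
          simp only [hQ]
          rw [← integral_const_mul]
          congr 1
          funext z
          have e1 : ∑ b, β b * R' b z = (‖β‖ : ℂ) * ∑ b, β' b * R' b z := by
            rw [Finset.mul_sum]
            refine Finset.sum_congr rfl fun b _ => ?_
            have : (‖β‖ : ℂ) ≠ 0 := by exact_mod_cast ht.ne'
            simp only [hβ']
            field_simp
          rw [e1, norm_mul, Complex.norm_real, norm_norm]
          ring
        have h2 : β' ∈ sphere (0 : Fin m → ℂ) 1 := by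
          rw [mem_sphere_zero_iff_norm]
          have e1 : β' = (‖β‖ : ℂ)⁻¹ • β := by
            funext b
            simp [hβ']
          rw [e1, norm_smul, norm_inv, Complex.norm_real, norm_norm, inv_mul_cancel₀ ht.ne']
        have h3 : Q β₀ ≤ Q β' := hmin h2
        have h4 : ∑ b, ‖β b‖ ^ 2 ≤ m * ‖β‖ ^ 2 := by
          calc ∑ b, ‖β b‖ ^ 2 ≤ ∑ _b : Fin m, ‖β‖ ^ 2 :=
                Finset.sum_le_sum fun b _ =>
                  pow_le_pow_left₀ (norm_nonneg _) (norm_le_pi_norm β b) 2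
            _ = m * ‖β‖ ^ 2 := by simp
        rw [h1]
        calc 2 * (Q β₀ / (2 * m)) * ∑ b, ‖β b‖ ^ 2
            ≤ 2 * (Q β₀ / (2 * m)) * (m * ‖β‖ ^ 2) := by gcongr
          _ = ‖β‖ ^ 2 * Q β₀ := by field_simp
          _ ≤ ‖β‖ ^ 2 * Q β' := by gcongr
  -- the error
  choose C hC using fun b b' => pos_identity hτ hδ hδτ h hx ps (hg b) (hg b') 1
  set E : ℝ := ∑ b, ∑ b', |C b b'| with hE
  refine ⟨c, hc, max 1 (E / c), fun N hN β => ?_⟩
  have hN1 : 1 ≤ N := (le_max_left _ _).trans hN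
  have hN0 : 0 < N := by linarith
  have hNE : E ≤ c * N := by
    have := (le_max_right _ _).trans hN
    rw [div_le_iff₀ hc] at this
    linarith
  set T : ℝ := ∑ b, ‖β b‖ ^ 2 with hT
  have hT0 : 0 ≤ T := Finset.sum_nonneg fun b _ => by positivity
  set θ : ι → ℂ → ℝ := fun i z => N * (h.rho x z - ps.c i) with hθ
  have contθ : ∀ i, ContinuousOn (θ i) D.cU := fun i =>
    continuousOn_const.mul (contρ.sub continuousOn_const)
  set H : Fin m → Fin m → ℂ := fun b b' => ∑ i, ∫ z in D.U,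
    ((ps.chi i z * Real.cos (θ i z) : ℝ) : ℂ) * (g b z * conj (g b' z)) with hH
  set Sn : Fin m → Fin m → ℂ := fun b b' => ∑ i, ∫ z in D.U,
    ((ps.chi i z * Real.sin (θ i z) : ℝ) : ℂ) * (g b z * conj (g b' z)) with hSn
  have contc : ∀ i, ContinuousOn (fun z => ps.chi i z * Real.cos (θ i z)) D.cU := fun i =>
    (contχ i).mul (Real.continuous_cos.comp_continuousOn (contθ i))
  have conts : ∀ i, ContinuousOn (fun z => ps.chi i z * Real.sin (θ i z)) D.cU := fun i =>
    (contχ i).mul (Real.continuous_sin.comp_continuousOn (contθ i))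
  have hBv : ∀ b b', Bv h ps N 0 0 (g b) (g b') = H b b' + Complex.I * Sn b b' := by
    intro b b'
    rw [Bv, hH, hSn, Finset.mul_sum, ← Finset.sum_add_distrib]
    refine Finset.sum_congr rfl fun i _ => ?_
    have e0 : (∫ z in D.U, ((ps.chi i z * Real.cos (θ i z) : ℝ) : ℂ) * (g b z * conj (g b' z))) +
        Complex.I * (∫ z in D.U, ((ps.chi i z * Real.sin (θ i z) : ℝ) : ℂ) *
          (g b z * conj (g b' z))) =
        ∫ z in D.U, (((ps.chi i z * Real.cos (θ i z) : ℝ) : ℂ) * (g b z * conj (g b' z)) +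
          Complex.I * (((ps.chi i z * Real.sin (θ i z) : ℝ) : ℂ) * (g b z * conj (g b' z)))) := by
      rw [integral_add (intC _ (contc i) b b') ((intC _ (conts i) b b').const_mul _),
        integral_const_mul]
    rw [e0]
    simp only [Pi.zero_apply, Complex.ofReal_zero, mul_zero, Complex.exp_zero, one_mul]
    refine setIntegral_congr_fun D.U_open.measurableSet fun z _ => ?_
    have e1 : Complex.exp (h.rhoC 0 z) = 1 := by
      simp [HM.rhoC]
    have e2 : Complex.exp (Complex.I * (N * (h.rho x z - ps.c i) : ℝ)) =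
        Real.cos (θ i z) + Complex.I * Real.sin (θ i z) := by
      rw [mul_comm, Complex.exp_mul_I, ← Complex.ofReal_cos, ← Complex.ofReal_sin]
      ring
    simp only [e1, e2]
    push_cast
    ring
  set X : ℝ := ∑ i, ∫ z in D.U, (ps.chi i z * Real.cos (θ i z)) * ‖∑ b, β b * g b z‖ ^ 2 with hX
  have hHX : ∑ b, ∑ b', β b * conj (β b') * H b b' = (X : ℂ) := by
    simp only [hH]
    rw [E3c_swap, hX, Complex.ofReal_sum]
    exact Finset.sum_congr rfl fun i _ => (E3c_quad (intC _ (contc i)) β).1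
  set Y : ℝ := ∑ i, ∫ z in D.U, (ps.chi i z * Real.sin (θ i z)) * ‖∑ b, β b * g b z‖ ^ 2 with hY
  have hSY : ∑ b, ∑ b', β b * conj (β b') * Sn b b' = (Y : ℂ) := by
    simp only [hSn]
    rw [E3c_swap, hY, Complex.ofReal_sum]
    exact Finset.sum_congr rfl fun i _ => (E3c_quad (intC _ (conts i)) β).1
  have hre : (∑ b, ∑ b', β b * conj (β b') * Bv h ps N 0 0 (g b) (g b')).re = X := by
    have e1 : ∑ b, ∑ b', β b * conj (β b') * Bv h ps N 0 0 (g b) (g b') =
        (X : ℂ) + Complex.I * (Y : ℂ) := by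
      rw [← hHX, ← hSY, Finset.mul_sum, ← Finset.sum_add_distrib]
      refine Finset.sum_congr rfl fun b _ => ?_
      rw [Finset.mul_sum, ← Finset.sum_add_distrib]
      refine Finset.sum_congr rfl fun b' _ => ?_
      rw [hBv]
      ring
    rw [e1]
    simp
  rw [hre]
  -- the right side of the identity
  set S : Fin m → Fin m → ℂ := fun b b' => (∑ i, ∫ z in D.U,
      ((ps.chi i z * (1 - Real.cos (θ i z)) : ℝ) : ℂ) * (R' b z * conj (R' b' z))) +
    ∫ z in D.U, (κ z : ℂ) * (R' b z * conj (R' b' z)) with hS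
  have intA' : ∀ i b b', IntegrableOn (fun z => ((ps.chi i z * (1 - Real.cos (θ i z)) : ℝ) : ℂ) *
      (R' b z * conj (R' b' z))) D.U := fun i b b' => by
    have := intA N i b b'
    simp only [Complex.ofReal_mul]
    exact this
  set P : ℝ := ∑ i, ∫ z in D.U, (ps.chi i z * (1 - Real.cos (θ i z))) *
    ‖∑ b, β b * R' b z‖ ^ 2 with hP
  have hP0 : 0 ≤ P := Finset.sum_nonneg fun i _ => integral_nonneg fun z =>
    mul_nonneg (mul_nonneg (ps.nonneg i z) (by linarith [Real.cos_le_one (θ i z)])) (by positivity)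
  have hSQ : ∑ b, ∑ b', β b * conj (β b') * S b b' = ((P + Q β : ℝ) : ℂ) := by
    simp only [hS, mul_add, Finset.sum_add_distrib]
    rw [E3c_swap, (E3c_quad intB β).1, hP]
    push_cast
    congr 1
    refine Finset.sum_congr rfl fun i _ => ?_
    have := (E3c_quad (intA' i) β).1
    push_cast at this
    exact this
  have herr : ∀ b b', ‖(N : ℂ) ^ 2 * H b b' - S b b'‖ ≤ |C b b'| / N := by
    intro b b'
    have h1 := hC b b' N hN1
    rw [pow_one] at h1
    have h2 : C b b' / N ≤ |C b b'| / N := by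
      gcongr
      exact le_abs_self _
    refine le_trans (le_of_eq ?_) (h1.trans h2)
    simp only [hH, hS, hκc, Complex.ofReal_mul, hθ, hR']
  have hdiff : ‖((N ^ 2 * X - (P + Q β) : ℝ) : ℂ)‖ ≤ E * T / N := by
    have e1 : ((N ^ 2 * X - (P + Q β) : ℝ) : ℂ) =
        ∑ b, ∑ b', β b * conj (β b') * ((N : ℂ) ^ 2 * H b b' - S b b') := by
      rw [Complex.ofReal_sub, ← hSQ, Complex.ofReal_mul, ← hHX, Finset.mul_sum,
        ← Finset.sum_sub_distrib]
      refine Finset.sum_congr rfl fun b _ => ?_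
      rw [Finset.mul_sum, ← Finset.sum_sub_distrib]
      refine Finset.sum_congr rfl fun b' _ => ?_
      push_cast
      ring
    rw [e1]
    refine (norm_sum_le _ _).trans ?_
    have e2 : E * T / N = ∑ b, ∑ b', T * (|C b b'| / N) := by
      simp only [← Finset.mul_sum, ← Finset.sum_div]
      rw [hE]
      ring
    rw [e2]
    refine Finset.sum_le_sum fun b _ => (norm_sum_le _ _).trans (Finset.sum_le_sum fun b' _ => ?_)
    rw [norm_mul, norm_mul, RCLike.norm_conj]
    have e3 : ‖β b‖ * ‖β b'‖ ≤ T := by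
      have f1 : ‖β b‖ ^ 2 ≤ T :=
        Finset.single_le_sum (f := fun b => ‖β b‖ ^ 2) (fun b _ => by positivity) (Finset.mem_univ b)
      have f2 : ‖β b'‖ ^ 2 ≤ T :=
        Finset.single_le_sum (f := fun b => ‖β b‖ ^ 2) (fun b _ => by positivity) (Finset.mem_univ b')
      nlinarith [sq_nonneg (‖β b‖ - ‖β b'‖)]
    exact mul_le_mul e3 (herr b b') (norm_nonneg _) hT0
  rw [Complex.norm_real, Real.norm_eq_abs] at hdiff
  have h1 := (abs_le.1 hdiff).1
  have h2 := hQc β
  have h3 : E * T / N ≤ c * T := by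
    rw [div_le_iff₀ hN0]
    nlinarith
  have h4 : c * T ≤ N ^ 2 * X := by linarith
  rw [div_mul_eq_mul_div, div_le_iff₀ (by positivity)]
  linarith

end

end Pool.Agent.KA
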