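import Pool.Agent.Helper9.KA.E3a
import Pool.Agent.Helper9.KA.E3c
import Pool.Agent.Helper7.KE.E3d
import Pool.Agent.Helper9.KA.D5b
import Pool.Agent.Helper9.KA.C7a

set_option autoImplicit false

open MeasureTheory Set Filter Asymptotics Topology Metric
open scoped ComplexConjugate ENNReal

namespace Pool.Agent.KA

open Pool.Agent.Helper7.KE hiding HM PS Bv sfun FF tt lS
open Pool.Agent.EN (AJ ann ann2)

/-- derivative of a product, one factor vanishing, the other only continuous -/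
private theorem e3e_mul_cont {f G : ℂ → ℂ} {f' : ℂ} (hf : HasDerivAt f f' 0) (hf0 : f 0 = 0)
    (hG : ContinuousAt G 0) : HasDerivAt (fun μ => f μ * G μ) (f' * G 0) 0 := by
  rw [hasDerivAt_iff_tendsto_slope] at hf ⊢
  have h1 : Tendsto (fun μ => slope f 0 μ * G μ) (𝓝[≠] 0) (𝓝 (f' * G 0)) :=
    hf.mul (hG.tendsto.mono_left nhdsWithin_le_nhds)
  refine h1.congr fun μ => ?_
  simp only [slope_def_field, hf0, zero_mul, sub_zero]
  ring

private theorem e3e_Fdet {n : ℕ} (B : Fin (n + 1) → Fin n → ℂ) (s : Fin (n + 1) → ℂ) :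
    Fdet B s = ∑ i : Fin (n + 1), s i * ((-1) ^ ((i : ℕ) + n) *
      Matrix.det (Matrix.of fun b l => B (i.succAbove b) l)) := by
  rw [Fdet, Matrix.det_succ_column _ (Fin.last n)]
  refine Finset.sum_congr rfl fun i _ => ?_
  have h1 : (Matrix.of fun b l => Fin.snoc (α := fun _ => ℂ) (B b) (s b) l : Matrix (Fin (n+1)) (Fin (n+1)) ℂ) i (Fin.last n) = s i := by
    simp
  have h2 : (Matrix.of fun b l => Fin.snoc (α := fun _ => ℂ) (B b) (s b) l : Matrix (Fin (n+1)) (Fin (n+1)) ℂ).submatrix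
      i.succAbove (Fin.last n).succAbove = Matrix.of fun b l => B (i.succAbove b) l := by
    ext b l
    simp
  rw [h1, h2, Fin.val_last]
  ring

private theorem e3e_Fdet_deriv {n : ℕ} (B : ℂ → Fin (n + 1) → Fin n → ℂ)
    (s : ℂ → Fin (n + 1) → ℂ) (s' : Fin (n + 1) → ℂ)
    (hB : ∀ b l, ContinuousAt (fun μ => B μ b l) 0)
    (hs : ∀ b, HasDerivAt (fun μ => s μ b) (s' b) 0) (hs0 : ∀ b, s 0 b = 0) :
    HasDerivAt (fun μ => Fdet (B μ) (s μ)) (Fdet (B 0) s') 0 := by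
  simp only [e3e_Fdet]
  refine HasDerivAt.fun_sum fun i _ => ?_
  refine e3e_mul_cont (hs i) (hs0 i) ?_
  refine continuousAt_const.mul ?_
  simp only [Matrix.det_apply]
  refine tendsto_finsetSum _ fun σ _ => ?_
  refine Tendsto.const_smul ?_ _
  refine tendsto_finsetProd _ fun j _ => ?_
  exact hB _ _

/-- continuity of parameter integrals over the domain -/
private theorem e3e_cont_int {k : ℕ} (D : AJ k) {F : ℂ → ℂ → ℂ} {r : ℝ} (hr : 0 < r)
    (hF : ContinuousOn (fun p : ℂ × ℂ => F p.1 p.2) (closedBall 0 r ×ˢ D.cU)) :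
    ContinuousAt (fun μ => ∫ z in D.U, F μ z) 0 := by
  obtain ⟨C, hC⟩ := ((isCompact_closedBall (0 : ℂ) r).prod D.cU_compact).exists_bound_of_continuousOn hF
  have hnb : closedBall (0 : ℂ) r ∈ 𝓝 (0 : ℂ) := closedBall_mem_nhds _ hr
  refine continuousAt_of_dominated (bound := fun _ => C) ?_ ?_ ?_ ?_
  · filter_upwards [hnb] with μ hμ
    refine ContinuousOn.aestronglyMeasurable ?_ D.U_open.measurableSet
    exact hF.comp (by fun_prop : Continuous fun z : ℂ => (μ, z)).continuousOn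
      (fun z hz => ⟨hμ, D.U_subset_cU hz⟩)
  · filter_upwards [hnb] with μ hμ
    filter_upwards [ae_restrict_mem D.U_open.measurableSet] with z hz
    exact hC (μ, z) ⟨hμ, D.U_subset_cU hz⟩
  · exact integrable_const _
  · filter_upwards [ae_restrict_mem D.U_open.measurableSet] with z hz
    have h1 : ContinuousOn (fun μ => F μ z) (closedBall 0 r) :=
      hF.comp (by fun_prop : Continuous fun μ : ℂ => (μ, z)).continuousOn
        (fun μ hμ => ⟨hμ, D.U_subset_cU hz⟩)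
    exact h1.continuousAt hnb


private theorem e3e_integrable {k : ℕ} (D : AJ k) {F : ℂ → ℂ} (hF : ContinuousOn F D.cU) :
    Integrable F (volume.restrict D.U) :=
  (hF.integrableOn_compact D.cU_compact).mono_set D.U_subset_cU

private theorem e3e_lin {k : ℕ} (D : AJ k) {K Q : ℂ → ℂ} (hK : ContinuousOn K D.cU)
    (hQ : ContinuousOn Q D.cU) {m : Type*} [Fintype m] {f : m → ℂ → ℂ}
    (hf : ∀ j, ContinuousOn (f j) D.cU) (c : m → ℂ) {F : ℂ → ℂ}
    (hF : ∀ z ∈ D.U, F z = ∑ j, c j * f j z) :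
    ∫ z in D.U, K z * F z * Q z = ∑ j, c j * ∫ z in D.U, K z * f j z * Q z := by
  have h1 : ∫ z in D.U, K z * F z * Q z = ∫ z in D.U, ∑ j, c j * (K z * f j z * Q z) := by
    refine setIntegral_congr_fun D.U_open.measurableSet fun z hz => ?_
    simp only [hF z hz, Finset.mul_sum, Finset.sum_mul]
    exact Finset.sum_congr rfl fun j _ => by ring
  rw [h1, integral_finsetSum]
  · exact Finset.sum_congr rfl fun j _ => integral_const_mul _ _
  · intro j _
    exact (e3e_integrable D ((hK.mul (hf j)).mul hQ)).const_mul _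

section
variable {k : ℕ} {D : AJ k} {τ δ : ℝ} {ι : Type} [Fintype ι] [DecidableEq ι]

private theorem e3e_Bv_lin (h : HM D τ δ) {ρ : ℂ → ℝ} (hρ : ContinuousOn ρ D.cU) (ps : PS D ρ ι)
    (N : ℝ) {q : ℂ → ℂ} (hq : ContinuousOn q D.cU) {m : Type*} [Fintype m] {f : m → ℂ → ℂ}
    (hf : ∀ j, ContinuousOn (f j) D.cU) (c : m → ℂ) {F : ℂ → ℂ}
    (hF : ∀ z ∈ D.U, F z = ∑ j, c j * f j z) :
    Bv h ps N 0 0 F q = ∑ j, c j * Bv h ps N 0 0 (f j) q := by
  have hr : ∀ z, h.rhoC 0 z = 0 := fun z => by simp [HM.rhoC]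
  simp only [Bv, Finset.mul_sum]
  rw [Finset.sum_comm]
  refine Finset.sum_congr rfl fun i _ => ?_
  have hK : ContinuousOn (fun z => (ps.chi i z : ℂ) *
      Complex.exp (Complex.I * (N * (ρ z - ps.c i) : ℝ)) * Complex.exp (h.rhoC 0 z)) D.cU := by
    simp only [hr]
    refine ContinuousOn.mul (ContinuousOn.mul ?_ ?_) continuousOn_const
    · exact (Complex.continuous_ofReal.comp (ps.smooth i).continuous).continuousOn
    · refine Complex.continuous_exp.comp_continuousOn ?_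
      refine continuousOn_const.mul ?_
      refine Complex.continuous_ofReal.comp_continuousOn ?_
      exact continuousOn_const.mul (hρ.sub continuousOn_const)
  have hQ : ContinuousOn (fun z => conj (q z)) D.cU := Complex.continuous_conj.comp_continuousOn hq
  rw [e3e_lin D hK hQ hf c hF, Finset.mul_sum]
  exact Finset.sum_congr rfl fun j _ => by ring

private theorem e3e_dzb_chi (hτ : D.Good τ) (j : Fin k) :
    Continuous (fun z => dzb (fun w => (D.chi τ (some j) w : ℂ)) z) := by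
  have h1 : ContDiff ℝ (⊤ : ℕ∞) (fun w => (D.chi τ (some j) w : ℂ)) :=
    Complex.ofRealCLM.contDiff.comp (chi_smooth D hτ (some j))
  have h2 := (dz_contDiffOn isOpen_univ h1.contDiffOn).2
  exact continuousOn_univ.mp h2.continuousOn

private theorem e3e_S_lin (hτ : D.Good τ) (ω : Fin k → ℂ) {m : Type*} [Fintype m]
    {f : m → ℂ → ℂ} (hf : ∀ j, ContinuousOn (f j) D.cU) (c : m → ℂ) {F : ℂ → ℂ}
    (hF : ∀ z ∈ D.U, F z = ∑ j, c j * f j z) :
    ∑ j, ω j * ∫ z in D.U, F z * dzb (fun w => (D.chi τ (some j) w : ℂ)) z =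
      ∑ i, c i * ∑ j, ω j * ∫ z in D.U, f i z * dzb (fun w => (D.chi τ (some j) w : ℂ)) z := by
  simp only [Finset.mul_sum]
  rw [Finset.sum_comm]
  refine Finset.sum_congr rfl fun j _ => ?_
  have h1 := e3e_lin D (K := fun _ => 1) continuousOn_const
    (e3e_dzb_chi hτ j).continuousOn hf c hF
  simp only [one_mul] at h1
  rw [h1, Finset.mul_sum]
  exact Finset.sum_congr rfl fun i _ => by ring

private theorem e3e_Bv_bound (h : HM D τ δ) {ρ : ℂ → ℝ} (ps : PS D ρ ι) {f q : ℂ → ℂ}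
    (hf : ContinuousOn f D.cU) (hq : ContinuousOn q D.cU) :
    ∃ C : ℝ, ∀ N : ℝ, ‖Bv h ps N 0 0 f q‖ ≤ C := by
  have hr : ∀ z, h.rhoC 0 z = 0 := fun z => by simp [HM.rhoC]
  refine ⟨∑ _i : ι, ∫ z in D.U, ‖f z‖ * ‖q z‖, fun N => ?_⟩
  refine (norm_sum_le _ _).trans (Finset.sum_le_sum fun i _ => ?_)
  have h1 : ‖Complex.exp (Complex.I * ((0 : ι → ℝ) i : ℂ))‖ = 1 := by simp
  rw [norm_mul, h1, one_mul]
  refine (norm_integral_le_integral_norm _).trans ?_
  refine integral_mono_of_nonneg (ae_of_all _ fun z => norm_nonneg _)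
    ?_ (ae_of_all _ fun z => ?_)
  · have h2 : ContinuousOn (fun z => f z * q z) D.cU := hf.mul hq
    have h3 := (e3e_integrable D h2).norm
    simpa [norm_mul] using h3
  · simp only [norm_mul, hr, Complex.exp_zero, mul_one, RCLike.norm_conj,
      Complex.norm_real]
    have h4 : ‖Complex.exp (Complex.I * ((N * (ρ z - ps.c i) : ℝ) : ℂ))‖ = 1 := by
      rw [mul_comm]; exact Complex.norm_exp_ofReal_mul_I _
    rw [h4, mul_one]
    have h5 : ‖ps.chi i z‖ ≤ 1 := by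
      rw [Real.norm_of_nonneg (ps.nonneg i z)]; exact ps.le_one i z
    calc ‖ps.chi i z‖ * ‖f z‖ * ‖q z‖ ≤ 1 * ‖f z‖ * ‖q z‖ := by gcongr
      _ = ‖f z‖ * ‖q z‖ := by ring

/-- continuity of the virtual forms in the parameter -/
private theorem e3e_cont_Bv (h : HM D τ δ) (hδ : 0 < δ) {ρ : ℂ → ℝ} (hρ : ContinuousOn ρ D.cU)
    (ps : PS D ρ ι) (N : ℝ) (φ : ι → ℝ) (ω : Fin k → ℂ) {r : ℝ} (hr : 0 < r) {γ : ℂ → ℂ → ℂ}
    (hγ : ContinuousOn (fun p : ℂ × ℂ => γ p.1 p.2) (closedBall 0 r ×ˢ D.cU)) {q : ℂ → ℂ}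
    (hq : ContinuousOn q D.cU) :
    ContinuousAt (fun μ => Bv h ps N φ (fun j => μ * ω j) (γ μ) q) 0 := by
  unfold Bv
  refine tendsto_finsetSum _ fun i _ => ?_
  refine Tendsto.const_mul _ ?_
  refine e3e_cont_int D hr ?_
  have hs : MapsTo (fun p : ℂ × ℂ => p.2) (closedBall (0 : ℂ) r ×ˢ D.cU) D.cU := fun p hp => hp.2
  have hs2 : ContinuousOn (fun p : ℂ × ℂ => p.2) (closedBall (0 : ℂ) r ×ˢ D.cU) :=
    continuous_snd.continuousOn
  refine ContinuousOn.mul (ContinuousOn.mul (ContinuousOn.mul (ContinuousOn.mul ?_ ?_) ?_) hγ) ?_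
  · exact ((Complex.continuous_ofReal.comp (ps.smooth i).continuous).comp
      continuous_snd).continuousOn
  · refine Complex.continuous_exp.comp_continuousOn ?_
    refine continuousOn_const.mul ?_
    refine Complex.continuous_ofReal.comp_continuousOn ?_
    exact continuousOn_const.mul ((hρ.comp hs2 hs).sub continuousOn_const)
  · refine Complex.continuous_exp.comp_continuousOn ?_
    unfold HM.rhoC
    refine continuousOn_finsetSum _ fun j _ => ?_
    refine ContinuousOn.mul (by fun_prop) ?_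
    refine Complex.continuous_ofReal.comp_continuousOn ?_
    have h1 : ContinuousOn (h.om j) D.cU := (h.smooth j).continuousOn.mono (D.cU_subset_Ue hδ)
    exact h1.comp hs2 hs
  · refine Complex.continuous_conj.comp_continuousOn ?_
    exact hq.comp hs2 hs

private theorem e3e_deriv_s (hτ : D.Good τ) (ω : Fin k → ℂ) {r : ℝ} (hr : 0 < r)
    {γ : ℂ → ℂ → ℂ}
    (hγ : ContinuousOn (fun p : ℂ × ℂ => γ p.1 p.2) (closedBall 0 r ×ˢ D.cU)) :
    HasDerivAt (fun μ => sfun D τ (fun j => Complex.exp (μ * ω j)) (γ μ))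
      (∑ j, ω j * ∫ z in D.U, γ 0 z * dzb (fun w => (D.chi τ (some j) w : ℂ)) z) 0 := by
  unfold sfun
  refine HasDerivAt.fun_sum fun j _ => ?_
  have h1 : HasDerivAt (fun μ : ℂ => Complex.exp (μ * ω j) - 1) (ω j) 0 := by
    have h2 : HasDerivAt (fun μ : ℂ => μ * ω j) (1 * ω j) 0 := (hasDerivAt_id 0).mul_const _
    have h3 := h2.cexp.sub_const 1
    simpa using h3
  refine e3e_mul_cont h1 (by simp) ?_
  refine e3e_cont_int D hr ?_
  refine hγ.mul ?_
  exact ((e3e_dzb_chi hτ j).comp continuous_snd).continuousOn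

end


/-- the functions `v_j` are in the span of the frame at `t = 1` -/
private theorem e3e_span {n : ℕ} {D : AJ (n + 1)} {τ δ : ℝ}
    (hδ : 0 < δ) (h : HM D τ δ) {z₀ : ℂ} {C₀ : ℝ} {G : Fin (n + 1) → ℂ → ℂ}
    (hG : ∀ b, DifferentiableOn ℂ (G b) (D.Ue δ))
    (h6 : ∀ f : ℂ → ℂ, D.Hol2 f → ∀ M : ℝ, 0 ≤ M →
        D.LtBd τ z₀ (fun _ => 1) f M →
        Real.sqrt (∫ z in D.U, ‖f z - ∑ b, D.res τ b f * G b z‖ ^ 2) ≤ C₀ * M)
    (j : Fin (n + 1)) :
    ∀ z ∈ D.U, h.v j z = ∑ b, D.res τ b (h.v j) * G b z := by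
  have hv2 : D.Hol2 (h.v j) := hol2_of_nhds D (D.Ue_open δ) (D.cU_subset_Ue hδ) (h.hol j)
  have hUe : D.U ⊆ D.Ue δ := D.U_subset_cU.trans (D.cU_subset_Ue hδ)
  have hL : ∀ a, D.TF z₀ a → D.Lt τ (fun _ => 1) (h.v j) a = 0 := by
    intro a ha
    obtain ⟨δ', hδ', had⟩ := ha.ex
    have hV : IsOpen (D.Ue δ') := D.Ue_open δ'
    have h1 := h.orth j a ⟨D.Ue δ', hV, D.cU_subset_Ue hδ', had⟩
    rw [← h1, AJ.Lt]
    refine setIntegral_congr_fun D.U_open.measurableSet fun z hz => ?_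
    have h2 : (fun w => D.X τ (fun _ => 1) w * conj (a w)) =
        fun w => conj (a w) := by
      funext w; simp [AJ.X]
    have h3 : DifferentiableAt ℂ a z :=
      had.differentiableAt (hV.mem_nhds (D.cU_subset_Ue hδ' (D.U_subset_cU hz)))
    simp only [h2, (dz_conj_hol h3).2]
  have h7 := h6 (h.v j) hv2 0 le_rfl (fun a ha => by rw [hL a ha]; simp)
  rw [mul_zero] at h7
  set E : ℂ → ℂ := fun z => ∑ b, D.res τ b (h.v j) * G b z with hE
  have hEd : DifferentiableOn ℂ E (D.Ue δ) := by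
    rw [hE]
    exact DifferentiableOn.fun_sum fun b _ => (hG b).const_mul _
  have hsq : ∫ z in D.U, ‖h.v j z - E z‖ ^ 2 = 0 := by
    have h8 : Real.sqrt (∫ z in D.U, ‖h.v j z - E z‖ ^ 2) = 0 :=
      le_antisymm h7 (Real.sqrt_nonneg _)
    have h9 : 0 ≤ ∫ z in D.U, ‖h.v j z - E z‖ ^ 2 := integral_nonneg fun z => by positivity
    exact (Real.sqrt_eq_zero h9).mp h8
  have hcont : ContinuousOn (fun z => ‖h.v j z - E z‖ ^ 2) D.cU :=
    ((((h.hol j).continuousOn.sub hEd.continuousOn).mono (D.cU_subset_Ue hδ)).norm).pow 2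
  have hint : Integrable (fun z => ‖h.v j z - E z‖ ^ 2) (volume.restrict D.U) :=
    (hcont.integrableOn_compact D.cU_compact).mono_set D.U_subset_cU
  have h10 := (integral_eq_zero_iff_of_nonneg (fun z => by positivity) hint).mp hsq
  have h11 : h.v j =ᵐ[volume.restrict D.U] E := by
    filter_upwards [h10] with z hz
    have h12 : ‖h.v j z - E z‖ ^ 2 = 0 := hz
    have h13 : ‖h.v j z - E z‖ = 0 := by simpa using h12
    exact sub_eq_zero.mp (norm_eq_zero.mp h13)
  exact hol_unique D hv2.diff (hEd.mono hUe) h11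


/-- lower bound for a bordered determinant with small last row -/
private theorem e3e_bordered {n : ℕ} (M : ℝ → Matrix (Fin (n + 1)) (Fin (n + 1)) ℂ) {C₁ C₂ c : ℝ}
    {S : ℂ} {N₀ : ℝ} (hC₁ : ∀ N b l, ‖M N b l‖ ≤ C₁)
    (hlast : ∀ N : ℝ, 1 ≤ N → ∀ l : Fin n,
      ‖M N (Fin.last n) l.castSucc‖ ≤ C₂ / N ^ (2 * n + 1))
    (hS : ∀ N, M N (Fin.last n) (Fin.last n) = S) (hS0 : S ≠ 0) (hc : 0 < c)
    (hT : ∀ N : ℝ, N₀ ≤ N → c / N ^ (2 * n) ≤
      ‖((M N).submatrix Fin.castSucc Fin.castSucc).det‖) :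
    ∃ c' > 0, ∃ N₁ : ℝ, ∀ N : ℝ, N₁ ≤ N → c' / N ^ (2 * n) ≤ ‖(M N).det‖ := by
  have hC₁0 : 0 ≤ C₁ := (norm_nonneg _).trans (hC₁ 0 0 0)
  have hSn : 0 < ‖S‖ := norm_pos_iff.mpr hS0
  set F : ℝ := (Nat.factorial n : ℝ) * C₁ ^ n with hF
  have hF0 : 0 ≤ F := by positivity
  set C₃ : ℝ := n * (|C₂| * F) with hC₃
  have hC₃0 : 0 ≤ C₃ := by positivity
  refine ⟨‖S‖ * c / 2, by positivity, max (max 1 N₀) (2 * C₃ / (‖S‖ * c)), fun N hN => ?_⟩
  have hN1 : 1 ≤ N := (le_max_left _ _).trans ((le_max_left _ _).trans hN)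
  have hN0 : N₀ ≤ N := (le_max_right _ _).trans ((le_max_left _ _).trans hN)
  have hN3 : 2 * C₃ / (‖S‖ * c) ≤ N := (le_max_right _ _).trans hN
  have hNpos : 0 < N := by linarith
  have hexp := Matrix.det_succ_row (M N) (Fin.last n)
  rw [Fin.sum_univ_castSucc] at hexp
  have hmain : (-1 : ℂ) ^ ((Fin.last n : ℕ) + (Fin.last n : ℕ)) * M N (Fin.last n) (Fin.last n) *
      ((M N).submatrix (Fin.last n).succAbove (Fin.last n).succAbove).det =
      S * ((M N).submatrix Fin.castSucc Fin.castSucc).det := by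
    have h1 : (M N).submatrix (Fin.last n).succAbove (Fin.last n).succAbove =
        (M N).submatrix Fin.castSucc Fin.castSucc := by
      ext b l
      simp
    rw [h1, hS N, ← two_mul, pow_mul]
    simp
  rw [hmain] at hexp
  have hrest : ‖∑ l : Fin n, (-1 : ℂ) ^ ((Fin.last n : ℕ) + (l.castSucc : ℕ)) *
      M N (Fin.last n) l.castSucc *
      ((M N).submatrix (Fin.last n).succAbove l.castSucc.succAbove).det‖ ≤
      C₃ / N ^ (2 * n + 1) := by
    refine (norm_sum_le _ _).trans ?_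
    have h2 : ∀ l ∈ (Finset.univ : Finset (Fin n)),
        ‖(-1 : ℂ) ^ ((Fin.last n : ℕ) + (l.castSucc : ℕ)) * M N (Fin.last n) l.castSucc *
          ((M N).submatrix (Fin.last n).succAbove l.castSucc.succAbove).det‖ ≤
        |C₂| * F / N ^ (2 * n + 1) := by
      intro l _
      rw [norm_mul, norm_mul, norm_pow, norm_neg, norm_one, one_pow, one_mul]
      have h3 : ‖((M N).submatrix (Fin.last n).succAbove l.castSucc.succAbove).det‖ ≤ F := by
        have h4 : ‖((M N).submatrix (Fin.last n).succAbove l.castSucc.succAbove).det‖ ≤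
            (Nat.factorial (Fintype.card (Fin n))) • C₁ ^ Fintype.card (Fin n) :=
          Matrix.det_le (A := (M N).submatrix (Fin.last n).succAbove
            l.castSucc.succAbove) (abv := NormedField.toAbsoluteValue ℂ) (x := C₁)
            (fun i j => hC₁ N _ _)
        simpa [hF] using h4
      have h5 : ‖M N (Fin.last n) l.castSucc‖ ≤ |C₂| / N ^ (2 * n + 1) :=
        (hlast N hN1 l).trans (by gcongr; exact le_abs_self _)
      calc ‖M N (Fin.last n) l.castSucc‖ *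
            ‖((M N).submatrix (Fin.last n).succAbove l.castSucc.succAbove).det‖
          ≤ |C₂| / N ^ (2 * n + 1) * F := by gcongr
        _ = |C₂| * F / N ^ (2 * n + 1) := by ring
    refine (Finset.sum_le_sum h2).trans ?_
    rw [Finset.sum_const, Finset.card_univ, Fintype.card_fin, nsmul_eq_mul, hC₃]
    apply le_of_eq
    ring
  have hlow : ‖S‖ * (c / N ^ (2 * n)) ≤
      ‖S * ((M N).submatrix Fin.castSucc Fin.castSucc).det‖ := by
    rw [norm_mul]
    exact mul_le_mul_of_nonneg_left (hT N hN0) (norm_nonneg _)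
  have htri : ‖S * ((M N).submatrix Fin.castSucc Fin.castSucc).det‖ ≤ ‖(M N).det‖ +
      C₃ / N ^ (2 * n + 1) := by
    have h6 : S * ((M N).submatrix Fin.castSucc Fin.castSucc).det = (M N).det -
        ∑ l : Fin n, (-1 : ℂ) ^ ((Fin.last n : ℕ) + (l.castSucc : ℕ)) *
          M N (Fin.last n) l.castSucc *
          ((M N).submatrix (Fin.last n).succAbove l.castSucc.succAbove).det := by
      rw [hexp]; ring
    rw [h6]
    exact (norm_sub_le _ _).trans (add_le_add_right hrest _)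
  have hsmall : C₃ / N ^ (2 * n + 1) ≤ ‖S‖ * c / 2 / N ^ (2 * n) := by
    rw [pow_succ, div_le_div_iff₀ (by positivity) (by positivity)]
    rw [div_le_iff₀ (by positivity)] at hN3
    have h7 : C₃ ≤ ‖S‖ * c / 2 * N := by linarith
    calc C₃ * N ^ (2 * n) ≤ (‖S‖ * c / 2 * N) * N ^ (2 * n) := by gcongr
      _ = ‖S‖ * c / 2 * (N ^ (2 * n) * N) := by ring
  have h8 : ‖S‖ * (c / N ^ (2 * n)) = ‖S‖ * c / 2 / N ^ (2 * n) + ‖S‖ * c / 2 / N ^ (2 * n) := by
    ring
  linarith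


theorem nondeg {n : ℕ} {D : AJ (n + 1)} {τ δ : ℝ} {ι : Type} [Fintype ι] [DecidableEq ι]
    (hτ : D.Good τ) (hδ : 0 < δ) (hδτ : δ ≤ τ) (h : HM D τ δ) {e e' : Fin (n + 1) → ℝ}
    (he : e ≠ 0) (ps : PS D (h.rho e) ι) {z₀ : ℂ} (hz₀ : z₀ ∈ D.U) {ε : ℝ} (hε : 0 < ε)
    (hε1 : ε < 1) {C₀ : ℝ} {g : Fin (n + 1) → (Fin (n + 1) → ℂ) → ℂ → ℂ}
    (h1 : ∀ b, ContinuousOn (fun p : (Fin (n + 1) → ℂ) × ℂ => g b p.1 p.2)
        ({t | ∀ j, ‖t j - 1‖ < ε} ×ˢ D.Ue δ))
    (h2 : ∀ b, ∀ t ∈ {t : Fin (n + 1) → ℂ | ∀ j, ‖t j - 1‖ < ε},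
      DifferentiableOn ℂ (g b t) (D.Ue δ))
    (h3 : ∀ b, ∀ z ∈ D.Ue δ, DifferentiableOn ℂ (fun t => g b t z) {t | ∀ j, ‖t j - 1‖ < ε})
    (h4 : ∀ b, ∀ t ∈ {t : Fin (n + 1) → ℂ | ∀ j, ‖t j - 1‖ < ε}, D.VV τ z₀ t (g b t))
    (h5 : ∀ b j, ∀ t ∈ {t : Fin (n + 1) → ℂ | ∀ j, ‖t j - 1‖ < ε},
        D.res τ j (g b t) = if j = b then 1 else 0)
    (h6 : ∀ t ∈ {t : Fin (n + 1) → ℂ | ∀ j, ‖t j - 1‖ < ε}, ∀ f : ℂ → ℂ, D.Hol2 f →
        ∀ M : ℝ, 0 ≤ M →
        D.LtBd τ z₀ t f M →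
        Real.sqrt (∫ z in D.U, ‖f z - ∑ b, D.res τ b f * g b t z‖ ^ 2) ≤ C₀ * M) :
    ∃ q : Fin n → ℂ → ℂ, (∀ l, DifferentiableOn ℂ (q l) (D.Ue δ)) ∧ ∃ c > 0, ∃ N₀ : ℝ,
      ∀ N : ℝ, N₀ ≤ N →
      c / N ^ (2 * n) ≤ ‖deriv (fun μ => FF h ps (fun j => e' j + Complex.I * e j) g q N 0 μ) 0‖ := by
  classical
  set ω : Fin (n + 1) → ℂ := fun j => e' j + Complex.I * e j with hω
  have hρ : ContinuousOn (h.rho e) D.cU :=
    (rho_facts h hτ hδ e 0).1.continuousOn.mono (D.cU_subset_Ue hδ)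
  have hvv : DifferentiableOn ℂ (h.vv e) (D.Ue δ) := (rho_facts h hτ hδ e 0).2.2.1
  have hcont : ∀ {f : ℂ → ℂ}, DifferentiableOn ℂ f (D.Ue δ) → ContinuousOn f D.cU :=
    fun hf => hf.continuousOn.mono (D.cU_subset_Ue hδ)
  -- the special index
  obtain ⟨j₀, hj₀⟩ : ∃ j, e j ≠ 0 := by
    by_contra hcon
    push Not at hcon
    exact he (funext hcon)
  set σ : Fin n → Fin (n + 1) := j₀.succAbove with hσ
  set q : Fin n → ℂ → ℂ := fun l => h.v (σ l) with hq
  have hqd : ∀ l, DifferentiableOn ℂ (q l) (D.Ue δ) := fun l => h.hol _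
  refine ⟨q, hqd, ?_⟩
  -- the functionals
  set S : (ℂ → ℂ) → ℂ := fun f =>
    ∑ j, ω j * ∫ z in D.U, f z * dzb (fun w => (D.chi τ (some j) w : ℂ)) z with hS
  set row : ℝ → (ℂ → ℂ) → Fin (n + 1) → ℂ := fun N f =>
    Fin.snoc (α := fun _ => ℂ) (fun l => Bv h ps N 0 0 f (q l)) (S f) with hrow
  have hrow_lin : ∀ (N : ℝ) {m : Type} [Fintype m] (f : m → ℂ → ℂ)
      (_ : ∀ j, ContinuousOn (f j) D.cU) (c : m → ℂ) (F : ℂ → ℂ)
      (_ : ∀ z ∈ D.U, F z = ∑ j, c j * f j z) (l : Fin (n + 1)),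
      row N F l = ∑ j, c j * row N (f j) l := by
    intro N m _ f hf c F hF l
    refine Fin.lastCases ?_ (fun l => ?_) l
    · simp only [hrow, Fin.snoc_last]
      exact e3e_S_lin hτ ω hf c hF
    · simp only [hrow, Fin.snoc_castSucc]
      exact e3e_Bv_lin h hρ ps N (hcont (hqd l)) hf c hF
  -- the frame at `t = 1`
  set G : Fin (n + 1) → ℂ → ℂ := fun b => g b (fun _ => 1) with hG
  have ht1 : (fun _ => 1 : Fin (n + 1) → ℂ) ∈ {t : Fin (n + 1) → ℂ | ∀ j, ‖t j - 1‖ < ε} := by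
    intro j; simpa using hε
  have hGd : ∀ b, DifferentiableOn ℂ (G b) (D.Ue δ) := fun b => h2 b _ ht1
  have hspan := e3e_span hδ h hGd (h6 _ ht1)
  -- matrices
  set MG : ℝ → Matrix (Fin (n + 1)) (Fin (n + 1)) ℂ := fun N => Matrix.of fun b => row N (G b)
    with hMG
  set Mv : ℝ → Matrix (Fin (n + 1)) (Fin (n + 1)) ℂ := fun N => Matrix.of fun b => row N (h.v b)
    with hMv
  set m : Matrix (Fin (n + 1)) (Fin (n + 1)) ℂ :=
    Matrix.of fun j b => D.res τ b (h.v j) with hm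
  set u : Fin (n + 1) → ℂ → ℂ :=
    Fin.snoc (α := fun _ => ℂ → ℂ) (fun b => h.v (σ b)) (h.vv e) with hu
  set Mu : ℝ → Matrix (Fin (n + 1)) (Fin (n + 1)) ℂ := fun N => Matrix.of fun b => row N (u b)
    with hMu
  set P : Matrix (Fin (n + 1)) (Fin (n + 1)) ℂ :=
    Matrix.of (Fin.snoc (α := fun _ => Fin (n + 1) → ℂ)
      (fun b j => if j = σ b then 1 else 0) (fun j => (e j : ℂ))) with hP
  have hmulv : ∀ N, Mv N = m * MG N := by
    intro N
    ext j l
    rw [Matrix.mul_apply]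
    exact hrow_lin N G (fun b => hcont (hGd b)) (fun b => D.res τ b (h.v j)) (h.v j)
      (hspan j) l
  have hmulu : ∀ N, Mu N = P * Mv N := by
    intro N
    ext b l
    rw [Matrix.mul_apply]
    refine hrow_lin N h.v (fun b => hcont (h.hol b)) (P b) (u b) ?_ l
    intro z _
    refine Fin.lastCases ?_ (fun b => ?_) b
    · simp [hu, hP, HM.vv]
    · simp [hu, hP]
  have hdet : ∀ N, (Mu N).det = P.det * m.det * (MG N).det := by
    intro N
    rw [hmulu, hmulv, Matrix.det_mul, Matrix.det_mul]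
    ring
  -- the derivative
  have hderiv : ∀ N, HasDerivAt (fun μ => FF h ps ω g q N 0 μ) ((MG N).det) 0 := by
    intro N
    obtain ⟨r, hr, hrε⟩ : ∃ r > 0, ∀ μ ∈ closedBall (0 : ℂ) r, ∀ j,
        ‖Complex.exp (μ * ω j) - 1‖ < ε := by
      have hc : Tendsto (fun μ : ℂ => (fun j => Complex.exp (μ * ω j) - 1)) (𝓝 0)
          (𝓝 (fun j => Complex.exp (0 * ω j) - 1)) := by
        have : Continuous (fun μ : ℂ => (fun j => Complex.exp (μ * ω j) - 1)) := by fun_prop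
        exact this.tendsto 0
      have h7 : ∀ᶠ μ : ℂ in 𝓝 0, ∀ j, ‖Complex.exp (μ * ω j) - 1‖ < ε := by
        rw [eventually_all]
        intro j
        have h8 := (tendsto_pi_nhds.mp hc j).norm
        simp only [zero_mul, Complex.exp_zero, sub_self, norm_zero] at h8
        exact h8.eventually_lt_const hε
      obtain ⟨r, hr, hrs⟩ := Metric.eventually_nhds_iff_ball.mp h7
      exact ⟨r / 2, by positivity, fun μ hμ => hrs μ (by
        rw [mem_ball]; rw [mem_closedBall] at hμ; linarith)⟩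
    have htt : ∀ μ, tt ps ω (0 : (Fin (n + 1) → ℝ) × (ι → ℝ)) μ =
        fun j => Complex.exp (μ * ω j) := by
      intro μ; funext j; simp [tt]
    have hγ : ∀ b, ContinuousOn (fun p : ℂ × ℂ => g b (fun j => Complex.exp (p.1 * ω j)) p.2)
        (closedBall 0 r ×ˢ D.cU) := by
      intro b
      have h9 : Continuous (fun p : ℂ × ℂ => ((fun j => Complex.exp (p.1 * ω j) :
          Fin (n + 1) → ℂ), p.2)) := by fun_prop
      refine (h1 b).comp h9.continuousOn ?_
      rintro p ⟨hp1, hp2⟩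
      exact ⟨fun j => hrε _ hp1 j, D.cU_subset_Ue hδ hp2⟩
    have h10 := e3e_Fdet_deriv
      (fun μ b l => Bv h ps N 0 (fun j => μ * ω j) (g b (fun j => Complex.exp (μ * ω j))) (q l))
      (fun μ b => sfun D τ (fun j => Complex.exp (μ * ω j)) (g b (fun j => Complex.exp (μ * ω j))))
      (fun b => ∑ j, ω j * ∫ z in D.U, g b (fun j => Complex.exp (0 * ω j)) z *
        dzb (fun w => (D.chi τ (some j) w : ℂ)) z)
      (fun b l => e3e_cont_Bv h hδ hρ ps N 0 ω hr (hγ b) (hcont (hqd l)))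
      (fun b => e3e_deriv_s hτ ω hr (hγ b))
      (fun b => by simp [sfun])
    have h11 : (fun μ => FF h ps ω g q N 0 μ) = fun μ => Fdet
        (fun b l => Bv h ps N 0 (fun j => μ * ω j) (g b (fun j => Complex.exp (μ * ω j))) (q l))
        (fun b => sfun D τ (fun j => Complex.exp (μ * ω j))
          (g b (fun j => Complex.exp (μ * ω j)))) := by
      funext μ
      simp [FF, htt]
    rw [h11]
    refine h10.congr_deriv ?_
    have h12 : (fun j => 0 * ω j : Fin (n + 1) → ℂ) = 0 := by funext j; simp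
    have h13 : (fun j => Complex.exp (0 * ω j) : Fin (n + 1) → ℂ) = fun _ => 1 := by
      funext j; simp
    simp only [h12, h13]
    rfl
  -- the lower bound for the matrix of the `u_b`
  have hud : ∀ b, DifferentiableOn ℂ (u b) (D.Ue δ) := by
    intro b
    refine Fin.lastCases ?_ (fun b => ?_) b
    · simpa [hu] using hvv
    · simpa [hu] using h.hol (σ b)
  have hbound : ∃ C₁ : ℝ, ∀ N b l, ‖Mu N b l‖ ≤ C₁ := by
    have h7 : ∀ b l, ∃ C, ∀ N, ‖Mu N b l‖ ≤ C := by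
      intro b l
      refine Fin.lastCases ?_ (fun l => ?_) l
      · exact ⟨‖S (u b)‖, fun N => by simp [hMu, hrow]⟩
      · obtain ⟨C, hC⟩ := e3e_Bv_bound h ps (hcont (hud b)) (hcont (hqd l))
        exact ⟨C, fun N => by simpa [hMu, hrow] using hC N⟩
    choose C hC using h7
    refine ⟨∑ b, ∑ l, |C b l|, fun N b l => ?_⟩
    calc ‖Mu N b l‖ ≤ C b l := hC b l N
      _ ≤ |C b l| := le_abs_self _
      _ ≤ ∑ l, |C b l| := Finset.single_le_sum (f := fun l => |C b l|)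
          (fun _ _ => abs_nonneg _) (Finset.mem_univ l)
      _ ≤ ∑ b, ∑ l, |C b l| := Finset.single_le_sum (f := fun b => ∑ l, |C b l|)
          (fun _ _ => Finset.sum_nonneg fun _ _ => abs_nonneg _) (Finset.mem_univ b)
  obtain ⟨C₁, hC₁⟩ := hbound
  have hlast : ∃ C₂ : ℝ, ∀ N : ℝ, 1 ≤ N → ∀ l : Fin n,
      ‖Mu N (Fin.last n) l.castSucc‖ ≤ C₂ / N ^ (2 * n + 1) := by
    have h7 : ∀ l : Fin n, ∃ C : ℝ, ∀ N : ℝ, 1 ≤ N →
        ‖Bv h ps N 0 0 (h.vv e) (q l)‖ ≤ C / N ^ (2 * n + 1) := fun l =>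
      kernel_u hτ hδ hδτ h he ps (hqd l) (2 * n + 1)
    choose C hC using h7
    refine ⟨∑ l, |C l|, fun N hN l => ?_⟩
    have h8 : ‖Mu N (Fin.last n) l.castSucc‖ ≤ C l / N ^ (2 * n + 1) := by
      simpa [hMu, hrow, hu] using hC l N hN
    refine h8.trans ?_
    gcongr
    exact (le_abs_self _).trans (Finset.single_le_sum (f := fun l => |C l|)
      (fun _ _ => abs_nonneg _) (Finset.mem_univ l))
  obtain ⟨C₂, hC₂⟩ := hlast
  have hS1 : ∀ N, Mu N (Fin.last n) (Fin.last n) = S (h.vv e) := by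
    intro N
    simp [hMu, hrow, hu]
  have hS0 : S (h.vv e) ≠ 0 := vv_pairing h hτ hδ he
  -- independence
  have hind : ∀ β : Fin n → ℂ, (∃ c : ℂ, ∀ z ∈ D.U, ∑ b, β b * q b z = c * h.vv e z) →
      β = 0 := by
    rintro β ⟨c, hc⟩
    have h7 := v_indep h hτ hδ (fun j => (∑ b, if j = σ b then β b else 0) - c * e j) (by
      intro z hz
      simp only [sub_mul, Finset.sum_sub_distrib]
      have h8 : ∑ j, (∑ b, if j = σ b then β b else 0) * h.v j z = ∑ b, β b * q b z := by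
        simp only [Finset.sum_mul]
        rw [Finset.sum_comm]
        refine Finset.sum_congr rfl fun b _ => ?_
        simp [hq]
      rw [h8, hc z hz, HM.vv, Finset.mul_sum, sub_eq_zero]
      exact Finset.sum_congr rfl fun j _ => by ring)
    have h9 : ∀ j, (∑ b, if j = σ b then β b else 0) - c * e j = 0 := fun j => congrFun h7 j
    have h10 : c = 0 := by
      have h11 := h9 j₀
      have h12 : (∑ b, if j₀ = σ b then β b else 0) = 0 :=
        Finset.sum_eq_zero fun b _ => if_neg (Fin.succAbove_ne j₀ b).symm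
      rw [h12, zero_sub, neg_eq_zero, mul_eq_zero] at h11
      rcases h11 with h11 | h11
      · exact h11
      · exact absurd (Complex.ofReal_eq_zero.mp h11) hj₀
    funext b
    have h13 := h9 (σ b)
    rw [h10, zero_mul, sub_zero] at h13
    have h14 : (∑ b', if σ b = σ b' then β b' else 0) = β b := by
      rw [Finset.sum_eq_single b]
      · simp
      · intro b' _ hb'
        refine if_neg fun h15 => hb' ?_
        exact (Fin.succAbove_right_injective h15).symm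
      · intro h15; exact absurd (Finset.mem_univ _) h15
    rw [h14] at h13
    exact h13
  obtain ⟨c, hc, N₀, hN₀⟩ := pos_lower hτ hδ hδτ h he ps hqd hind
  have hT : ∀ N : ℝ, max 1 N₀ ≤ N → c ^ n / N ^ (2 * n) ≤
      ‖((Mu N).submatrix Fin.castSucc Fin.castSucc).det‖ := by
    intro N hN
    have hN1 : 1 ≤ N := (le_max_left _ _).trans hN
    have hN2 : N₀ ≤ N := (le_max_right _ _).trans hN
    have h7 := det_lower ((Mu N).submatrix Fin.castSucc Fin.castSucc) (c := c / N ^ 2)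
      (by positivity) (fun β => by
        have h8 := hN₀ N hN2 β
        have h9 : ∀ b b', ((Mu N).submatrix Fin.castSucc Fin.castSucc) b b' =
            Bv h ps N 0 0 (q b) (q b') := by
          intro b b'
          simp [hMu, hrow, hu, hq]
        simp only [h9]
        exact h8)
    rw [div_pow, ← pow_mul] at h7
    exact h7
  obtain ⟨c', hc', N₁, hN₁⟩ := e3e_bordered Mu hC₁ hC₂ hS1 hS0 (pow_pos hc n) hT
  refine ⟨c' / (‖P.det * m.det‖ + 1), by positivity, max 1 N₁, fun N hN => ?_⟩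
  have hN1 : 1 ≤ N := (le_max_left _ _).trans hN
  have hN2 : N₁ ≤ N := (le_max_right _ _).trans hN
  rw [(hderiv N).deriv]
  have h7 := hN₁ N hN2
  rw [hdet N, norm_mul] at h7
  rw [div_div, mul_comm (‖P.det * m.det‖ + 1), ← div_div, div_le_iff₀ (by positivity)]
  calc c' / N ^ (2 * n) ≤ ‖P.det * m.det‖ * ‖(MG N).det‖ := h7
    _ ≤ ‖(MG N).det‖ * (‖P.det * m.det‖ + 1) := by
        nlinarith [norm_nonneg ((MG N).det)]

end Pool.Agent.KA
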