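import Pool.Agent.Helper9.KA.C1

/-!
# Pairings of Toeplitz operators with holomorphic functions (used in E4, E5b)
-/

set_option autoImplicit false

open MeasureTheory Set Filter Asymptotics Topology Metric
open scoped ComplexConjugate ENNReal

namespace Pool.Agent.KA

open Pool.Agent.Helper7.KE hiding HM PS Bv sfun FF tt lS
open Pool.Agent.EN (AJ ann ann2)

section
variable {k : ℕ} (D : AJ k)

theorem cont_integrable {F : ℂ → ℂ} (hF : ContinuousOn F D.cU) :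
    Integrable F (volume.restrict D.U) :=
  (hF.integrableOn_compact D.cU_compact).mono_set D.U_subset_cU

theorem memLp_conj {f : ℂ → ℂ} (hf : MemLp f 2 (volume.restrict D.U)) :
    MemLp (fun z => conj (f z)) 2 (volume.restrict D.U) := hf.star

/-- products of a bounded continuous function with two square integrable functions -/
theorem cont_mul_integrable {a f g : ℂ → ℂ} (ha : ContinuousOn a D.cU)
    (hf : MemLp f 2 (volume.restrict D.U)) (hg : MemLp g 2 (volume.restrict D.U)) :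
    Integrable (fun z => a z * (f z * g z)) (volume.restrict D.U) := by
  obtain ⟨C, hC⟩ := D.cU_compact.exists_bound_of_continuousOn ha
  have h1 : Integrable (fun z => f z * g z) (volume.restrict D.U) :=
    MemLp.integrable_mul hf hg
  refine h1.bdd_mul (c := C) ?_ ?_
  · exact (ha.mono D.U_subset_cU).aestronglyMeasurable D.U_open.measurableSet
  · filter_upwards [ae_restrict_mem D.U_open.measurableSet] with z hz
    exact hC z (D.U_subset_cU hz)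

theorem cont_memLp {a : ℂ → ℂ} (ha : ContinuousOn a D.cU) :
    MemLp a 2 (volume.restrict D.U) := by
  obtain ⟨C, hC⟩ := D.cU_compact.exists_bound_of_continuousOn ha
  refine MemLp.of_bound ((ha.mono D.U_subset_cU).aestronglyMeasurable
    D.U_open.measurableSet) C ?_
  filter_upwards [ae_restrict_mem D.U_open.measurableSet] with z hz
  exact hC z (D.U_subset_cU hz)

/-- inner products in `L²` -/
theorem L2_inner (u v : D.L2) {f g : ℂ → ℂ} (hu : (u : ℂ → ℂ) =ᵐ[volume.restrict D.U] f)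
    (hv : (v : ℂ → ℂ) =ᵐ[volume.restrict D.U] g) :
    inner ℂ u v = ∫ z in D.U, g z * conj (f z) := by
  rw [L2.inner_def]
  refine integral_congr_ae ?_
  filter_upwards [hu, hv] with z h1 h2
  rw [h1, h2, RCLike.inner_apply]

theorem L2_norm_sq (u : D.L2) {f : ℂ → ℂ} (hu : (u : ℂ → ℂ) =ᵐ[volume.restrict D.U] f) :
    ‖u‖ ^ 2 = ∫ z in D.U, ‖f z‖ ^ 2 := by
  have h1 := L2_inner D u u hu hu
  have h2 : (inner ℂ u u : ℂ) = ((‖u‖ ^ 2 : ℝ) : ℂ) := by
    rw [inner_self_eq_norm_sq_to_K]; push_cast; rfl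
  have h3 : (∫ z in D.U, f z * conj (f z)) = ((∫ z in D.U, ‖f z‖ ^ 2 : ℝ) : ℂ) := by
    rw [← integral_complex_ofReal]
    refine integral_congr_ae (ae_of_all _ fun z => ?_)
    simp only [Complex.mul_conj, Complex.normSq_eq_norm_sq]
  rw [h2, h3] at h1
  exact_mod_cast h1

theorem L2_norm (u : D.L2) {f : ℂ → ℂ} (hu : (u : ℂ → ℂ) =ᵐ[volume.restrict D.U] f) :
    ‖u‖ = Real.sqrt (∫ z in D.U, ‖f z‖ ^ 2) := by
  rw [← L2_norm_sq D u hu, Real.sqrt_sq (norm_nonneg _)]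

/-- Cauchy-Schwarz -/
theorem cauchy_schwarz {f g : ℂ → ℂ} (hf : MemLp f 2 (volume.restrict D.U))
    (hg : MemLp g 2 (volume.restrict D.U)) :
    ‖∫ z in D.U, g z * conj (f z)‖ ≤ Real.sqrt (∫ z in D.U, ‖g z‖ ^ 2) *
      Real.sqrt (∫ z in D.U, ‖f z‖ ^ 2) := by
  rw [← L2_inner D (hf.toLp f) (hg.toLp g) hf.coeFn_toLp hg.coeFn_toLp,
    ← L2_norm D (hf.toLp f) hf.coeFn_toLp, ← L2_norm D (hg.toLp g) hg.coeFn_toLp, mul_comm]
  exact norm_inner_le_norm _ _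

theorem toe_pair {S : ℂ → ℂ} (hS : ContinuousOn S D.cU) (u f : D.Berg) {g f₁ : ℂ → ℂ}
    (hu : ((u : D.L2) : ℂ → ℂ) =ᵐ[volume.restrict D.U] g)
    (hf : ((f : D.L2) : ℂ → ℂ) =ᵐ[volume.restrict D.U] f₁) :
    inner ℂ (u : D.L2) ((D.Toe S f : D.Berg) : D.L2) = ∫ z in D.U, S z * f₁ z * conj (g z) := by
  have h1 : inner ℂ (u : D.L2) ((D.Toe S f : D.Berg) : D.L2) =
      inner ℂ (u : D.L2) (D.Mul S (f : D.L2)) :=
    Submodule.inner_orthogonalProjectionOnto_eq_of_mem_left u _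
  rw [h1]
  have h2 : (D.Mul S (f : D.L2) : ℂ → ℂ) =ᵐ[volume.restrict D.U] fun z => S z * f₁ z := by
    filter_upwards [D.Mul_coe hS (f : D.L2), hf] with z h3 h4
    rw [h3, h4]
  exact L2_inner D _ _ hu h2

/-- upper bound for the norm by duality -/
theorem toe_norm_le {S : ℂ → ℂ} (hS : ContinuousOn S D.cU) (f : D.Berg) {f₁ : ℂ → ℂ}
    (hf : ((f : D.L2) : ℂ → ℂ) =ᵐ[volume.restrict D.U] f₁) {M : ℝ} (hM : 0 ≤ M)
    (h : ∀ g : ℂ → ℂ, D.Hol2 g → ‖∫ z in D.U, S z * f₁ z * conj (g z)‖ ≤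
      M * Real.sqrt (∫ z in D.U, ‖g z‖ ^ 2)) : ‖D.Toe S f‖ ≤ M := by
  set u : D.Berg := D.Toe S f with hu
  obtain ⟨g, hg, hug⟩ := berg_rep D u.2
  have h1 := toe_pair D hS u f hug hf
  rw [← hu] at h1
  have h2 : ‖(inner ℂ (u : D.L2) (u : D.L2) : ℂ)‖ = ‖u‖ ^ 2 := by
    rw [inner_self_eq_norm_sq_to_K]; simp
  have h3 : ‖u‖ ^ 2 ≤ M * ‖u‖ := by
    rw [← h2, h1]
    refine (h g hg).trans ?_
    have h4 : ‖u‖ = Real.sqrt (∫ z in D.U, ‖g z‖ ^ 2) := L2_norm D (u : D.L2) hug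
    rw [h4]
  by_cases h0 : ‖u‖ = 0
  · rw [h0]; exact hM
  · have h5 : 0 < ‖u‖ := lt_of_le_of_ne (norm_nonneg _) (Ne.symm h0)
    rw [pow_two] at h3
    exact le_of_mul_le_mul_right h3 h5

/-- the pairing is controlled by the norm -/
theorem toe_pair_le {S : ℂ → ℂ} (hS : ContinuousOn S D.cU) (f : D.Berg) {f₁ : ℂ → ℂ}
    (hf : ((f : D.L2) : ℂ → ℂ) =ᵐ[volume.restrict D.U] f₁) {q : ℂ → ℂ} (hq : D.Hol2 q) :
    ‖∫ z in D.U, S z * f₁ z * conj (q z)‖ ≤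
      ‖D.Toe S f‖ * Real.sqrt (∫ z in D.U, ‖q z‖ ^ 2) := by
  set v : D.Berg := ⟨hq.memLp.toLp q, berg_of_hol2 D hq hq.memLp.coeFn_toLp⟩ with hv
  have hvq : ((v : D.L2) : ℂ → ℂ) =ᵐ[volume.restrict D.U] q := hq.memLp.coeFn_toLp
  rw [← toe_pair D hS v f hvq hf]
  refine (norm_inner_le_norm (𝕜 := ℂ) (v : D.L2) ((D.Toe S f : D.Berg) : D.L2)).trans ?_
  have h4 : ‖(v : D.L2)‖ = Real.sqrt (∫ z in D.U, ‖q z‖ ^ 2) := L2_norm D (v : D.L2) hvq
  rw [h4, mul_comm]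
  rfl

/-- triangle inequality for the `L²` norm -/
theorem sqrt_int_add {f g : ℂ → ℂ} (hf : MemLp f 2 (volume.restrict D.U))
    (hg : MemLp g 2 (volume.restrict D.U)) :
    Real.sqrt (∫ z in D.U, ‖f z + g z‖ ^ 2) ≤
      Real.sqrt (∫ z in D.U, ‖f z‖ ^ 2) + Real.sqrt (∫ z in D.U, ‖g z‖ ^ 2) := by
  rw [← L2_norm D (hf.toLp f) hf.coeFn_toLp, ← L2_norm D (hg.toLp g) hg.coeFn_toLp,
    ← L2_norm D (hf.toLp f + hg.toLp g) (f := fun z => f z + g z)
      ((Lp.coeFn_add _ _).trans (hf.coeFn_toLp.add hg.coeFn_toLp))]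
  exact norm_add_le _ _

/-- multiplication by a bounded function -/
theorem sqrt_int_mul_le {b f : ℂ → ℂ} (hf : MemLp f 2 (volume.restrict D.U)) {C : ℝ}
    (hC : ∀ z ∈ D.U, ‖b z‖ ≤ C) (hC0 : 0 ≤ C) :
    Real.sqrt (∫ z in D.U, ‖b z * f z‖ ^ 2) ≤ C * Real.sqrt (∫ z in D.U, ‖f z‖ ^ 2) := by
  rw [← Real.sqrt_sq hC0, ← Real.sqrt_mul (sq_nonneg C)]
  refine Real.sqrt_le_sqrt ?_
  rw [← integral_const_mul]
  refine integral_mono_of_nonneg (ae_of_all _ fun z => by positivity) ?_ ?_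
  · exact (hf.integrable_norm_pow two_ne_zero).const_mul _
  · filter_upwards [ae_restrict_mem D.U_open.measurableSet] with z hz
    rw [norm_mul, mul_pow]
    gcongr
    exact hC z hz

end

end Pool.Agent.KA
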