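import Pool.Agent.Helper9.KA.E5a
import Pool.Agent.Helper9.KA.A3
import Pool.Agent.Helper9.KA.PSaux
import Pool.Agent.Helper9.KA.ToeAux

set_option autoImplicit false

open MeasureTheory Set Filter Asymptotics Topology Metric
open scoped ComplexConjugate ENNReal

namespace Pool.Agent.KA

open Pool.Agent.Helper7.KE hiding HM PS Bv sfun FF tt lS
open Pool.Agent.EN (AJ ann ann2)

section
variable {k : ℕ} {D : AJ k} {τ δ : ℝ} {ι : Type} [Fintype ι] [DecidableEq ι]

private theorem e4_key (hτ : D.Good τ) (hδ : 0 < δ) (h : HM D τ δ) {x : Fin k → ℝ}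
    (ps : PS D (h.rho x) ι) (N : ℝ) (y : ι → ℝ)
    (hc : ∀ l, Complex.exp (Complex.I * (N * ps.c (ps.bd l) + y (ps.bd l) : ℝ)) = 1)
    {g : ℂ → ℂ} (hg : D.Hol2 g) :
    (Complex.I * N) * ∫ z in D.U, Complex.exp (lS h ps N y 0 z) * h.vv x z * conj (g z) =
      -∑ i, (Complex.I * y i) * ∫ z in D.U, Complex.exp (lS h ps N y 0 z) *
        D.U.indicator (fun z => dz (fun u => (ps.chi i u : ℂ)) z * 1) z * 1 * conj (g z) := by
  have hUe := D.Ue_open δ
  obtain ⟨-, -, hvv, -⟩ := rho_facts h hτ hδ x 0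
  have hlS := lS_smooth hτ hδ h ps N y 0
  have hS : ContDiffOn ℝ (⊤ : ℕ∞) (fun z => Complex.exp (lS h ps N y 0 z)) (D.Ue δ) := hlS.cexp
  have hScU : ContinuousOn (fun z => Complex.exp (lS h ps N y 0 z)) D.cU :=
    hS.continuousOn.mono (D.cU_subset_Ue hδ)
  have hchi : ∀ i, ContDiff ℝ (⊤ : ℕ∞) (fun u => (ps.chi i u : ℂ)) := fun i =>
    Complex.ofRealCLM.contDiff.comp (ps.smooth i)
  have hd : ∀ i, ContinuousOn (dz (fun u => (ps.chi i u : ℂ))) D.cU := fun i =>
    ((dz_contDiffOn isOpen_univ (hchi i).contDiffOn).1.continuousOn).mono (subset_univ _)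
  -- orthogonality
  have h1 : ContDiffOn ℝ 1 (fun z => conj (Complex.exp (lS h ps N y 0 z) - 1)) (D.Ue δ) := by
    have h2 : ContDiffOn ℝ (⊤ : ℕ∞) (fun z => conj (Complex.exp (lS h ps N y 0 z) - 1))
        (D.Ue δ) := Complex.conjCLE.contDiff.comp_contDiffOn (hS.sub contDiffOn_const)
    exact h2.of_le (by simp)
  have h0 : ∀ l, ∀ z ∈ D.circ l, conj (Complex.exp (lS h ps N y 0 z) - 1) = 0 := by
    intro l z hz
    rw [lS_circ hτ hδ h ps N y 0 l hz]
    have h3 : l.elim 0 (0 : Fin k → ℂ) = 0 := by cases l <;> rfl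
    rw [h3, add_zero, hc l, sub_self, map_zero]
  have horth := orth_zero D hUe (D.cU_subset_Ue hδ) h1 h0 hg
  have h4 : ∀ z ∈ D.U, g z * dzb (fun z => conj (Complex.exp (lS h ps N y 0 z) - 1)) z =
      conj ((Complex.I * N) * (Complex.exp (lS h ps N y 0 z) * h.vv x z * conj (g z)) +
        ∑ i, (Complex.I * y i) * (Complex.exp (lS h ps N y 0 z) *
          D.U.indicator (fun z => dz (fun u => (ps.chi i u : ℂ)) z * 1) z * 1 * conj (g z))) := by
    intro z hz
    have hzU : z ∈ D.Ue δ := D.cU_subset_Ue hδ (D.U_subset_cU hz)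
    have hzn := hUe.mem_nhds hzU
    have d1 : DifferentiableAt ℝ (lS h ps N y 0) z :=
      (hlS.contDiffAt hzn).differentiableAt (by simp)
    have d2 : DifferentiableAt ℝ (fun z => Complex.exp (lS h ps N y 0 z)) z :=
      (hS.contDiffAt hzn).differentiableAt (by simp)
    have d3 : DifferentiableAt ℝ (fun z => Complex.exp (lS h ps N y 0 z) - 1) z := d2.sub_const _
    have e1 : dz (fun z => Complex.exp (lS h ps N y 0 z) - 1) z =
        Complex.exp (lS h ps N y 0 z) * dz (lS h ps N y 0) z := by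
      have e2 : (fun z => Complex.exp (lS h ps N y 0 z) - 1) =
          fun z => Complex.exp (lS h ps N y 0 z) + (-1 : ℂ) := by
        funext z; ring
      rw [e2, (dz_add d2 (differentiableAt_const _)).1, dz_const.1, add_zero, (dz_cexp d1).1]
    have e3 : dz (h.rhoC 0) z = 0 := by
      have e4 : h.rhoC 0 = fun _ => (0 : ℂ) := by funext u; simp [HM.rhoC]
      rw [e4]; exact dz_const.1
    rw [(dz_conj d3).2, e1, (lS_deriv hτ hδ h ps N y 0 hzU).1, e3, add_zero]
    have e5 : g z = conj (conj (g z)) := (Complex.conj_conj _).symm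
    nth_rewrite 1 [e5]
    rw [← map_mul]
    congr 1
    simp only [indicator_of_mem hz, mul_one]
    rw [mul_add, mul_add, Finset.mul_sum, Finset.mul_sum, Finset.mul_sum]
    congr 1
    · ring
    · exact Finset.sum_congr rfl fun i _ => by ring
  rw [setIntegral_congr_fun D.U_open.measurableSet h4, integral_conj] at horth
  have h5 := (map_eq_zero (starRingEnd ℂ)).mp horth
  have hgc := memLp_conj D hg.memLp
  have i1 : Integrable (fun z => (Complex.I * N) *
      (Complex.exp (lS h ps N y 0 z) * h.vv x z * conj (g z))) (volume.restrict D.U) := by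
    refine Integrable.const_mul ?_ _
    refine (cont_mul_integrable D hScU (cont_memLp D (hvv.continuousOn.mono
      (D.cU_subset_Ue hδ))) hgc).congr (ae_of_all _ fun z => ?_)
    simp only []
    ring
  have i2 : ∀ i ∈ (Finset.univ : Finset ι), Integrable (fun z => (Complex.I * y i) *
      (Complex.exp (lS h ps N y 0 z) *
          D.U.indicator (fun z => dz (fun u => (ps.chi i u : ℂ)) z * 1) z * 1 * conj (g z)))
      (volume.restrict D.U) := by
    intro i _
    refine Integrable.const_mul ?_ _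
    refine (cont_mul_integrable D hScU (cont_memLp D (hd i)) hgc).congr ?_
    filter_upwards [ae_restrict_mem D.U_open.measurableSet] with z hz
    rw [indicator_of_mem hz]
    ring
  have h6 : ∫ z in D.U, ((Complex.I * N) * (Complex.exp (lS h ps N y 0 z) * h.vv x z *
        conj (g z)) + ∑ i, (Complex.I * y i) * (Complex.exp (lS h ps N y 0 z) *
          D.U.indicator (fun z => dz (fun u => (ps.chi i u : ℂ)) z * 1) z * 1 * conj (g z))) =
      (∫ z in D.U, (Complex.I * N) * (Complex.exp (lS h ps N y 0 z) * h.vv x z * conj (g z))) +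
      ∑ i, ∫ z in D.U, (Complex.I * y i) * (Complex.exp (lS h ps N y 0 z) *
          D.U.indicator (fun z => dz (fun u => (ps.chi i u : ℂ)) z * 1) z * 1 * conj (g z)) := by
    rw [← integral_finsetSum _ i2]
    exact integral_add i1 (integrable_finsetSum _ i2)
  rw [h6] at h5
  simp only [integral_const_mul] at h5
  exact eq_neg_of_add_eq_zero_left h5

theorem near_kernel (hτ : D.Good τ) (hδ : 0 < δ) (hδτ : δ ≤ τ) (h : HM D τ δ) {x : Fin k → ℝ}
    (hx : x ≠ 0) (ps : PS D (h.rho x) ι) (Λ : ℝ) (K : ℕ) :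
    ∃ C : ℝ, ∀ N : ℝ, 1 ≤ N → ∀ y : ι → ℝ, (∀ i, |y i| ≤ Λ) →
      (∀ l, Complex.exp (Complex.I * (N * ps.c (ps.bd l) + y (ps.bd l) : ℝ)) = 1) →
      ∀ f : D.Berg, ((f : D.L2) : ℂ → ℂ) =ᵐ[volume.restrict D.U] h.vv x →
      ‖D.Toe (fun z => Complex.exp (lS h ps N y 0 z)) f‖ ≤ C / N ^ K := by
  have hone : D.Hol2 (fun _ => 1) :=
    hol2_of_nhds D isOpen_univ (subset_univ _) (differentiableOn_const 1)
  have hns : ∀ i, ∃ C : ℝ, ∀ N : ℝ, 1 ≤ N → ∀ (y : ι → ℝ) (w : Fin k → ℂ),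
      (∀ i, |y i| ≤ max Λ 0) → (∀ j, ‖w j‖ ≤ max Λ 0) → ∀ f g : ℂ → ℂ, D.Hol2 f → D.Hol2 g →
      ‖∫ z in D.U, Complex.exp (lS h ps N y w z) *
        D.U.indicator (fun z => dz (fun u => (ps.chi i u : ℂ)) z * 1) z * f z * conj (g z)‖ ≤
        C / N ^ K * Real.sqrt (∫ z in D.U, ‖f z‖ ^ 2) * Real.sqrt (∫ z in D.U, ‖g z‖ ^ 2) :=
    fun i => nonstat_op hτ hδ hδτ h hx ps
      (PS.isTest_dz hτ hδ h ps i (F := fun _ => 1) contDiffOn_const).1.1
      (PS.isTest_dz hτ hδ h ps i (F := fun _ => 1) contDiffOn_const).1.2.1 (max Λ 0) K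
  choose C hC using hns
  set v : ℝ := Real.sqrt (∫ z in D.U, ‖(fun _ => 1 : ℂ → ℂ) z‖ ^ 2) with hv
  have hv0 : 0 ≤ v := Real.sqrt_nonneg _
  have hΛ0 : 0 ≤ max Λ 0 := le_max_right _ _
  refine ⟨∑ i, max Λ 0 * (|C i| * v), fun N hN y hy hc f hf => ?_⟩
  have hNpos : 0 < N := by linarith
  have hScU : ContinuousOn (fun z => Complex.exp (lS h ps N y 0 z)) D.cU :=
    (lS_smooth hτ hδ h ps N y 0).cexp.continuousOn.mono (D.cU_subset_Ue hδ)
  refine toe_norm_le D hScU f hf (by positivity) fun g hg => ?_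
  have hkey := e4_key hτ hδ h ps N y hc hg
  set G : ℝ := Real.sqrt (∫ z in D.U, ‖g z‖ ^ 2) with hG
  have hG0 : 0 ≤ G := Real.sqrt_nonneg _
  set J : ℂ := ∫ z in D.U, Complex.exp (lS h ps N y 0 z) * h.vv x z * conj (g z) with hJ
  have h1 : N * ‖J‖ ≤ (∑ i, max Λ 0 * (|C i| * v)) / N ^ K * G := by
    have h2 : N * ‖J‖ = ‖(Complex.I * N) * J‖ := by
      rw [norm_mul, norm_mul, Complex.norm_I, one_mul, Complex.norm_real,
        Real.norm_of_nonneg hNpos.le]
    rw [h2, hkey, norm_neg, Finset.sum_div, Finset.sum_mul]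
    refine (norm_sum_le _ _).trans (Finset.sum_le_sum fun i _ => ?_)
    rw [norm_mul, norm_mul, Complex.norm_I, one_mul, Complex.norm_real]
    have h3 := hC i N hN y 0 (fun i => (hy i).trans (le_max_left _ _))
      (fun j => by simp) (fun _ => 1) g hone hg
    have h4 : |y i| ≤ max Λ 0 := (hy i).trans (le_max_left _ _)
    calc ‖y i‖ * _ ≤ max Λ 0 * (C i / N ^ K * v * G) := by
          refine mul_le_mul h4 h3 (norm_nonneg _) hΛ0
      _ ≤ max Λ 0 * (|C i| / N ^ K * v * G) := by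
          gcongr
          exact le_abs_self _
      _ = max Λ 0 * (|C i| * v) / N ^ K * G := by ring
  calc ‖J‖ = 1 * ‖J‖ := (one_mul _).symm
    _ ≤ N * ‖J‖ := by gcongr
    _ ≤ _ := h1

end

end Pool.Agent.KA
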