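import Pool.Agent.Helper7.KE.B5
import Pool.Agent.Helper7.KE.C0a
import Pool.Agent.Helper9.KA.D5b

/-!
# Nonstationary phase, uniformly in compact families of parameters

Auxiliary file for KE-E5a and KE-E5c.
-/

set_option autoImplicit false

open MeasureTheory Set Filter Asymptotics Topology Metric
open scoped ComplexConjugate ENNReal

namespace Pool.Agent.KA

open Pool.Agent.Helper7.KE hiding HM PS Bv sfun FF tt lS
open Pool.Agent.EN (AJ ann ann2)

/-- smooth cutoff functions -/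
theorem exists_cutoff {L V : Set ℂ} (hL : IsCompact L) (hV : IsOpen V) (hLV : L ⊆ V) :
    ∃ β : ℂ → ℂ, IsTest V β ∧ ∀ z ∈ L, β z = 1 := by
  obtain ⟨T, hT, hLT, hTV⟩ := exists_compact_between hL hV hLV
  obtain ⟨f, hf1, hf0, -⟩ := exists_contMDiffMap_one_nhds_of_subset_interior
    (n := (⊤ : ℕ∞)) (modelWithCornersSelf ℝ ℂ) hL.isClosed hLT
  have hfs : ContDiff ℝ (⊤ : ℕ∞) f := f.contMDiff.contDiff
  have hts : tsupport (fun z => (f z : ℂ)) ⊆ T := by
    apply closure_minimal _ hT.isClosed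
    intro z hz
    by_contra h
    apply hz
    show ((f z : ℝ) : ℂ) = 0
    rw [hf0 z h, Complex.ofReal_zero]
  refine ⟨fun z => (f z : ℂ), ⟨Complex.ofRealCLM.contDiff.comp hfs,
    hT.of_isClosed_subset isClosed_closure hts, hts.trans hTV⟩, fun z hz => ?_⟩
  show ((f z : ℝ) : ℂ) = 1
  rw [hf1.self_of_nhdsSet z hz, Complex.ofReal_one]

/-- continuous functions on the closed domain are integrable on the domain -/
theorem integrableOn_U {k : ℕ} (D : AJ k) {Y : Type*} [NormedAddCommGroup Y] {f : ℂ → Y}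
    (hf : ContinuousOn f D.cU) : IntegrableOn f D.U :=
  (hf.integrableOn_compact D.cU_compact).mono_set D.U_subset_cU

section expC

variable {X : Type*} [TopologicalSpace X] [CompactSpace X]

theorem cexp_apply (a : C(X, ℂ)) (p : X) : (NormedSpace.exp a) p = Complex.exp (a p) := by
  have h1 := (NormedSpace.exp_series_hasSum_exp' (𝕂 := ℂ) a).map
    (ContinuousMap.evalCLM ℂ p) (ContinuousMap.evalCLM ℂ p).continuous
  have h2 := NormedSpace.exp_series_hasSum_exp' (𝕂 := ℂ) (a p)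
  rw [Complex.exp_eq_exp_ℂ]
  refine h1.unique ?_
  have h3 : (⇑(ContinuousMap.evalCLM ℂ p) ∘ fun n : ℕ => ((n.factorial : ℂ)⁻¹) • a ^ n) =
      fun n : ℕ => ((n.factorial : ℂ)⁻¹) • (a p) ^ n := by
    funext n
    simp
  rw [h3]
  exact h2

theorem cexp_contDiff : ContDiff ℝ (⊤ : ℕ∞) (NormedSpace.exp : C(X, ℂ) → C(X, ℂ)) := by
  rw [contDiff_iff_contDiffAt]
  intro a
  exact (NormedSpace.exp_analytic (𝕂 := ℝ) a).contDiffAt

end expC

section
variable {k : ℕ} {D : AJ k} {τ δ : ℝ} {ι : Type} [Fintype ι] [DecidableEq ι]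

/-- the compact parameter set -/
def PPar (ι : Type) (k : ℕ) (Λ : ℝ) : Set ((ι → ℝ) × (Fin k → ℂ)) :=
  (Set.pi univ fun _ => Icc (-Λ) Λ) ×ˢ (Set.pi univ fun _ => closedBall 0 Λ)

instance (Λ : ℝ) : CompactSpace (PPar ι k Λ) := by
  rw [← isCompact_iff_compactSpace]
  exact (isCompact_univ_pi fun _ => isCompact_Icc).prod
    (isCompact_univ_pi fun _ => isCompact_closedBall _ _)

theorem nonstat_unif (hτ : D.Good τ) (hδ : 0 < δ) (h : HM D τ δ) {x : Fin k → ℝ}
    (ps : PS D (h.rho x) ι) {V : Set ℂ} (hV : IsOpen V) (hVU : V ⊆ D.Ue δ)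
    (hVc : ∀ z ∈ V, h.vv x z ≠ 0) (Λ : ℝ) (m : ℕ)
    {K : Type*} [TopologicalSpace K] [CompactSpace K] {g : K → ℂ → ℂ}
    (hg : ContinuousOn (fun p : K × ℂ => g p.1 p.2) (univ ×ˢ V))
    (hg' : ∀ u, DifferentiableOn ℂ (g u) V) {q : ℂ → ℂ}
    (hq : DifferentiableOn ℂ q V) {β : ℂ → ℂ} (hβ : IsTest V β) :
    ∃ C : ℝ, ∀ N : ℝ, 1 ≤ N → ∀ (y : ι → ℝ) (w : Fin k → ℂ), (∀ i, |y i| ≤ Λ) →
      (∀ j, ‖w j‖ ≤ Λ) → ∀ u : K,
      ‖∫ z, Complex.exp (lS h ps N y w z) * (β z * g u z * conj (q z))‖ ≤ C / N ^ m := by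
  obtain ⟨hρ, -, -, hdρ, -⟩ := rho_facts h hτ hδ x (fun _ => 0)
  -- the family as a Banach valued holomorphic function
  obtain ⟨F, hF, hFv⟩ := curry_hol (K := K × PPar ι k Λ) hV (G := fun p z => g p.1 z)
    (by
      refine hg.comp (f := fun p : (K × PPar ι k Λ) × ℂ => (p.1.1, p.2)) (by fun_prop) ?_
      intro p hp
      exact ⟨mem_univ _, hp.2⟩)
    (fun p => hg' p.1)
  set Yc : ι → C(K × PPar ι k Λ, ℂ) := fun i =>
    ⟨fun p => ((p.2 : (ι → ℝ) × (Fin k → ℂ)).1 i : ℂ), by fun_prop⟩ with hYc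
  set Wc : Fin k → C(K × PPar ι k Λ, ℂ) := fun j =>
    ⟨fun p => (p.2 : (ι → ℝ) × (Fin k → ℂ)).2 j, by fun_prop⟩ with hWc
  set A : ℂ → C(K × PPar ι k Λ, ℂ) := fun z =>
    (∑ i, (Complex.I * (ps.chi i z : ℂ)) • Yc i) + ∑ j, (h.om j z : ℂ) • Wc j with hA
  have hA1 : ContDiffOn ℝ (⊤ : ℕ∞) A V := by
    refine ContDiffOn.add ?_ ?_
    · refine ContDiffOn.sum fun i _ => ?_
      have h1 : ContDiffOn ℝ (⊤ : ℕ∞) (fun z => Complex.I * (ps.chi i z : ℂ)) V :=
        contDiffOn_const.mul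
          (Complex.ofRealCLM.contDiff.comp_contDiffOn (ps.smooth i).contDiffOn)
      exact h1.smul (contDiffOn_const (c := Yc i))
    · refine ContDiffOn.sum fun j _ => ?_
      have h1 : ContDiffOn ℝ (⊤ : ℕ∞) (fun z => (h.om j z : ℂ)) V :=
        Complex.ofRealCLM.contDiff.comp_contDiffOn ((h.smooth j).mono hVU)
      exact h1.smul (contDiffOn_const (c := Wc j))
  have hE : ContDiffOn ℝ (⊤ : ℕ∞) (fun z => NormedSpace.exp (A z)) V :=
    cexp_contDiff.comp_contDiffOn hA1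
  have hF1 : ContDiffOn ℝ (⊤ : ℕ∞) F V := hol_contDiffOn hV hF
  have hq1 : ContDiffOn ℝ (⊤ : ℕ∞) (fun z => conj (q z)) V :=
    (Complex.conjCLE : ℂ →L[ℝ] ℂ).contDiff.comp_contDiffOn (hol_contDiffOn hV hq)
  have hT : IsTest V (fun z => β z • (conj (q z) • (NormedSpace.exp (A z) * F z))) :=
    hβ.smul' hV (hq1.smul (hE.mul hF1))
  obtain ⟨C, hC⟩ := nonstat hV (hρ.mono hVU)
    (fun z hz => by rw [hdρ z (hVU hz)]; exact hVc z hz) hT m
  refine ⟨C, fun N hN y w hy hw u => ?_⟩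
  have hmem : (y, w) ∈ PPar ι k Λ := by
    refine ⟨fun i _ => ?_, fun j _ => ?_⟩
    · exact abs_le.1 (hy i)
    · rw [mem_closedBall_zero_iff]; exact hw j
  set p : K × PPar ι k Λ := (u, ⟨(y, w), hmem⟩) with hp
  have hT2 : IsTest V (fun z => Complex.exp (Complex.I * (N * h.rho x z : ℝ)) •
      (β z • (conj (q z) • (NormedSpace.exp (A z) * F z)))) :=
    hT.smul hV (nonstat_phase_smooth (hρ.mono hVU) N)
  have hint : Integrable (fun z => Complex.exp (Complex.I * (N * h.rho x z : ℝ)) •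
      (β z • (conj (q z) • (NormedSpace.exp (A z) * F z)))) :=
    hT2.smooth.continuous.integrable_of_hasCompactSupport hT2.compact
  have e1 : ∫ z, Complex.exp (lS h ps N y w z) * (β z * g u z * conj (q z)) =
      ContinuousMap.evalCLM ℂ p (∫ z, Complex.exp (Complex.I * (N * h.rho x z : ℝ)) •
      (β z • (conj (q z) • (NormedSpace.exp (A z) * F z)))) := by
    rw [← ContinuousLinearMap.integral_comp_comm _ hint]
    congr 1
    funext z
    by_cases hz : z ∈ V
    · have e2 : ContinuousMap.evalCLM ℂ p (Complex.exp (Complex.I * (N * h.rho x z : ℝ)) •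
          (β z • (conj (q z) • (NormedSpace.exp (A z) * F z)))) =
          Complex.exp (Complex.I * (N * h.rho x z : ℝ)) *
          (β z * (conj (q z) * (Complex.exp (A z p) * g u z))) := by
        rw [map_smul, map_smul, map_smul]
        simp only [smul_eq_mul]
        congr 3
        show (NormedSpace.exp (A z) * F z) p = _
        rw [ContinuousMap.mul_apply, cexp_apply, hFv z hz]
      rw [e2]
      have e3 : A z p = Complex.I * (∑ i, y i * ps.chi i z : ℝ) + h.rhoC w z := by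
        rw [hA]
        simp only [ContinuousMap.add_apply, ContinuousMap.sum_apply, ContinuousMap.smul_apply,
          hYc, hWc, smul_eq_mul, ContinuousMap.coe_mk, hp, HM.rhoC]
        push_cast
        rw [Finset.mul_sum]
        congr 1
        · exact Finset.sum_congr rfl fun i _ => by ring
        · exact Finset.sum_congr rfl fun i _ => by ring
      rw [e3, lS, add_assoc, Complex.exp_add (Complex.I * (N * h.rho x z : ℝ))]
      ring
    · have hz2 : β z = 0 := by
        by_contra h0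
        exact hz (hβ.supp (subset_tsupport _ h0))
      rw [hz2]
      simp
  rw [e1]
  refine le_trans ?_ (hC N hN)
  exact ContinuousMap.norm_coe_le_norm _ p

end

end Pool.Agent.KA
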