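import Pool.Agent.Helper7.KE.B5
import Pool.Agent.Helper9.KA.C1
import Pool.Agent.Helper9.KA.D5b
import Pool.Agent.Helper9.KA.E5aux

set_option autoImplicit false

open MeasureTheory Set Filter Asymptotics Topology Metric
open scoped ComplexConjugate ENNReal

namespace Pool.Agent.KA

open Pool.Agent.Helper7.KE hiding HM PS Bv sfun FF tt lS
open Pool.Agent.EN (AJ ann ann2)

section
variable {k : ℕ} {D : AJ k} {τ δ : ℝ} {ι : Type} [Fintype ι] [DecidableEq ι]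

/-- inner products of the Toeplitz operator -/
theorem inner_Toe {S : ℂ → ℂ} (hS : ContinuousOn S D.cU) (f g : D.Berg) {f' g' : ℂ → ℂ}
    (hf : ((f : D.L2) : ℂ → ℂ) =ᵐ[volume.restrict D.U] f')
    (hg : ((g : D.L2) : ℂ → ℂ) =ᵐ[volume.restrict D.U] g') :
    inner ℂ g (D.Toe S f) = ∫ z in D.U, S z * f' z * conj (g' z) := by
  have h1 : inner ℂ g (D.Toe S f) = inner ℂ (g : D.L2) (D.Mul S (f : D.L2)) := by
    show inner ℂ g (D.P (D.Mul S (f : D.L2))) = _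
    exact Submodule.inner_orthogonalProjectionOnto_eq_of_mem_left g _
  rw [h1, L2.inner_def]
  apply integral_congr_ae
  filter_upwards [hf, hg, D.Mul_coe hS (f : D.L2)] with z h2 h3 h4
  rw [h3, h4, h2]
  rfl

/-- norm in `L²` -/
theorem norm_eq_sqrt (f : D.L2) {f' : ℂ → ℂ} (hf : (f : ℂ → ℂ) =ᵐ[volume.restrict D.U] f') :
    ‖f‖ = Real.sqrt (∫ z in D.U, ‖f' z‖ ^ 2) := by
  have h1 : ‖f‖ ^ 2 = ∫ z in D.U, ‖f' z‖ ^ 2 := by
    have h2 : (inner ℂ f f : ℂ) = ((∫ z in D.U, ‖f' z‖ ^ 2 : ℝ) : ℂ) := by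
      rw [L2.inner_def]
      refine Eq.trans ?_ (integral_ofReal (f := fun z => ‖f' z‖ ^ 2))
      apply integral_congr_ae
      filter_upwards [hf] with z hz
      rw [hz, inner_self_eq_norm_sq_to_K]
      norm_cast
    have h3 := inner_self_eq_norm_sq_to_K (𝕜 := ℂ) f
    rw [h2] at h3
    have h4 : ((∫ z in D.U, ‖f' z‖ ^ 2 : ℝ) : ℂ) = ((‖f‖ ^ 2 : ℝ) : ℂ) := by
      rw [h3]; norm_cast
    exact (Complex.ofReal_injective h4).symm
  rw [← h1, Real.sqrt_sq (norm_nonneg _)]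

/-- nonstationary terms, operator valued, uniformly in the parameters -/
theorem nonstat_op (hτ : D.Good τ) (hδ : 0 < δ) (hδτ : δ ≤ τ) (h : HM D τ δ) {x : Fin k → ℝ}
    (hx : x ≠ 0) (ps : PS D (h.rho x) ι) {β : ℂ → ℂ} (hβ : IsTest D.U β)
    (hβc : ∀ z ∈ tsupport β, h.vv x z ≠ 0) (Λ : ℝ) (K : ℕ) :
    ∃ C : ℝ, ∀ N : ℝ, 1 ≤ N → ∀ (y : ι → ℝ) (w : Fin k → ℂ), (∀ i, |y i| ≤ Λ) →
      (∀ j, ‖w j‖ ≤ Λ) → ∀ f g : ℂ → ℂ, D.Hol2 f → D.Hol2 g →
      ‖∫ z in D.U, Complex.exp (lS h ps N y w z) * β z * f z * conj (g z)‖ ≤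
        C / N ^ K * Real.sqrt (∫ z in D.U, ‖f z‖ ^ 2) * Real.sqrt (∫ z in D.U, ‖g z‖ ^ 2) := by
  obtain ⟨hρ, -, hvv, hdρ, -⟩ := rho_facts h hτ hδ x (fun _ => 0)
  set V : Set ℂ := D.U ∩ {z | h.vv x z ≠ 0} with hVdef
  have hUUe : D.U ⊆ D.Ue δ := D.U_subset_cU.trans (D.cU_subset_Ue hδ)
  have hVopen : IsOpen V :=
    (hvv.continuousOn.mono hUUe).isOpen_inter_preimage D.U_open isOpen_compl_singleton
  have hVU : V ⊆ D.Ue δ := inter_subset_left.trans hUUe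
  have hβV : IsTest V β := ⟨hβ.smooth, hβ.compact, fun z hz => ⟨hβ.supp hz, hβc z hz⟩⟩
  -- the index set
  set A : Set (ℝ × (ι → ℝ) × (Fin k → ℂ)) :=
    {a | 1 ≤ a.1 ∧ (∀ i, |a.2.1 i| ≤ Λ) ∧ ∀ j, ‖a.2.2 j‖ ≤ Λ} with hAdef
  set S : (ℝ × (ι → ℝ) × (Fin k → ℂ)) → ℂ → ℂ := fun a z =>
    Complex.exp (lS h ps a.1 a.2.1 a.2.2 z) * β z with hSdef
  have hSc : ∀ a, ContinuousOn (S a) D.cU := by
    intro a
    have hom : ContinuousOn (h.rhoC a.2.2) (D.Ue δ) :=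
      (rho_facts h hτ hδ x a.2.2).2.1.continuousOn
    have hlS : ContinuousOn (fun z => Complex.exp (lS h ps a.1 a.2.1 a.2.2 z)) D.cU := by
      refine Complex.continuous_exp.comp_continuousOn ?_
      refine ContinuousOn.add (ContinuousOn.add ?_ ?_) (hom.mono (D.cU_subset_Ue hδ))
      · exact continuousOn_const.mul (Complex.continuous_ofReal.comp_continuousOn
          (continuousOn_const.mul (hρ.continuousOn.mono (D.cU_subset_Ue hδ))))
      · refine continuousOn_const.mul (Complex.continuous_ofReal.comp_continuousOn ?_)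
        exact continuousOn_finsetSum _ fun i _ =>
          continuousOn_const.mul (ps.smooth i).continuous.continuousOn
    exact hlS.mul hβ.smooth.continuous.continuousOn
  set T : A → (D.Berg →L[ℂ] D.Berg) := fun a => ((a.1.1 : ℂ) ^ K) • D.Toe (S a.1) with hTdef
  have hNpos : ∀ a : A, (0 : ℝ) < a.1.1 := fun a => lt_of_lt_of_le one_pos a.2.1
  have hinner : ∀ (a : A) (f g : D.Berg) (f' g' : ℂ → ℂ),
      ((f : D.L2) : ℂ → ℂ) =ᵐ[volume.restrict D.U] f' →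
      ((g : D.L2) : ℂ → ℂ) =ᵐ[volume.restrict D.U] g' →
      inner ℂ g (T a f) = (a.1.1 : ℂ) ^ K * ∫ z in D.U, S a.1 z * f' z * conj (g' z) := by
    intro a f g f' g' hf hg
    show inner ℂ g (((a.1.1 : ℂ) ^ K) • D.Toe (S a.1) f) = _
    refine (inner_smul_right (𝕜 := ℂ) g (D.Toe (S a.1) f) ((a.1.1 : ℂ) ^ K)).trans ?_
    rw [inner_Toe (hSc a.1) f g hf hg]
  -- pointwise boundedness
  have hpt : ∀ f g : D.Berg, ∃ C : ℝ, ∀ a : A, ‖inner ℂ g (T a f)‖ ≤ C := by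
    intro f g
    obtain ⟨f', hf', ef⟩ := berg_rep D f.2
    obtain ⟨g', hg', eg⟩ := berg_rep D g.2
    have hcont : ContinuousOn (fun p : Unit × ℂ => (fun _ : Unit => f') p.1 p.2)
        (univ ×ˢ V) := by
      have h1 : ContinuousOn f' V := hf'.diff.continuousOn.mono inter_subset_left
      exact h1.comp (f := fun p : Unit × ℂ => p.2) (by fun_prop) (fun p hp => hp.2)
    have hfV : ∀ u : Unit, DifferentiableOn ℂ ((fun _ : Unit => f') u) V :=
      fun _ => hf'.diff.mono inter_subset_left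
    have hgV : DifferentiableOn ℂ g' V := hg'.diff.mono inter_subset_left
    obtain ⟨C, hC⟩ := nonstat_unif hτ hδ h ps hVopen hVU (fun z hz => hz.2) Λ K hcont hfV hgV hβV
    refine ⟨C, fun a => ?_⟩
    rw [hinner a f g f' g' ef eg]
    have h1 := hC a.1.1 a.2.1 a.1.2.1 a.1.2.2 a.2.2.1 a.2.2.2 ()
    have h2 : ∫ z in D.U, S a.1 z * f' z * conj (g' z) =
        ∫ z, Complex.exp (lS h ps a.1.1 a.1.2.1 a.1.2.2 z) * (β z * f' z * conj (g' z)) := by
      rw [setIntegral_eq_integral_of_forall_compl_eq_zero]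
      · congr 1
        funext z
        rw [hSdef]
        ring
      · intro z hz
        have : β z = 0 := by
          by_contra h0
          exact hz (hβ.supp (subset_tsupport _ h0))
        rw [hSdef]
        simp [this]
    rw [h2, norm_mul, norm_pow, Complex.norm_real, Real.norm_of_nonneg (hNpos a).le]
    have h3 : (0 : ℝ) < a.1.1 ^ K := pow_pos (hNpos a) K
    rw [le_div_iff₀ h3] at h1
    linarith
  have hpt2 : ∀ f : D.Berg, ∃ C : ℝ, ∀ a : A, ‖T a f‖ ≤ C := by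
    intro f
    obtain ⟨C, hC⟩ := banach_steinhaus (g := fun a : A => innerSL ℂ (T a f)) (by
      intro g
      obtain ⟨C, hC⟩ := hpt f g
      refine ⟨C, fun a => ?_⟩
      rw [innerSL_apply_apply, ← inner_conj_symm, RCLike.norm_conj]
      exact hC a)
    refine ⟨C, fun a => ?_⟩
    have := hC a
    rwa [innerSL_apply_norm] at this
  obtain ⟨C, hC⟩ := banach_steinhaus hpt2
  refine ⟨C, fun N hN y w hy hw f g hf hg => ?_⟩
  set a : A := ⟨(N, y, w), hN, hy, hw⟩ with ha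
  have hN0 : (0 : ℝ) < N := by linarith
  have hfb : (hf.memLp.toLp f : D.L2) ∈ D.Berg := berg_of_hol2 D hf (MemLp.coeFn_toLp _)
  have hgb : (hg.memLp.toLp g : D.L2) ∈ D.Berg := berg_of_hol2 D hg (MemLp.coeFn_toLp _)
  obtain ⟨F, hF⟩ : ∃ F : D.Berg, (F : D.L2) = hf.memLp.toLp f := ⟨⟨_, hfb⟩, rfl⟩
  obtain ⟨G, hG⟩ : ∃ G : D.Berg, (G : D.L2) = hg.memLp.toLp g := ⟨⟨_, hgb⟩, rfl⟩
  have hFa : ((F : D.L2) : ℂ → ℂ) =ᵐ[volume.restrict D.U] f := by
    rw [hF]; exact MemLp.coeFn_toLp _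
  have hGa : ((G : D.L2) : ℂ → ℂ) =ᵐ[volume.restrict D.U] g := by
    rw [hG]; exact MemLp.coeFn_toLp _
  have e1 := hinner a F G f g hFa hGa
  have e2 : ‖inner ℂ G (T a F)‖ ≤ C * ‖F‖ * ‖G‖ := by
    refine (norm_inner_le_norm (𝕜 := ℂ) G (T a F)).trans ?_
    rw [mul_comm]
    refine mul_le_mul_of_nonneg_right ?_ (norm_nonneg _)
    exact ((T a).le_opNorm _).trans (mul_le_mul_of_nonneg_right (hC a) (norm_nonneg _))
  have e3 : ‖F‖ = Real.sqrt (∫ z in D.U, ‖f z‖ ^ 2) := norm_eq_sqrt _ hFa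
  have e4 : ‖G‖ = Real.sqrt (∫ z in D.U, ‖g z‖ ^ 2) := norm_eq_sqrt _ hGa
  rw [e1, e3, e4, norm_mul, norm_pow] at e2
  have e5 : ‖((a.1.1 : ℝ) : ℂ)‖ = N := by
    rw [Complex.norm_real, ha, Real.norm_of_nonneg hN0.le]
  rw [e5] at e2
  have h3 : (0 : ℝ) < N ^ K := pow_pos hN0 K
  rw [div_mul_eq_mul_div, div_mul_eq_mul_div, le_div_iff₀ h3]
  calc _ = N ^ K * ‖∫ z in D.U, S a.1 z * f z * conj (g z)‖ := by rw [mul_comm]
    _ ≤ _ := e2

end

end Pool.Agent.KA
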