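import Pool.Agent.Helper9.KA.A6
import Pool.Agent.Helper9.KA.C1

set_option autoImplicit false

open MeasureTheory Set Filter Asymptotics Topology Metric
open scoped ComplexConjugate ENNReal

namespace Pool.Agent.KA

open Pool.Agent.Helper7.KE hiding HM PS Bv sfun FF tt lS
open Pool.Agent.EN (AJ ann ann2)

/-- change of variables for injective holomorphic maps -/
theorem PO_lintegral_hol_image {S : Set ℂ} (hS : MeasurableSet S) {κ : ℂ → ℂ}
    (hκ : ∀ z ∈ S, DifferentiableAt ℂ κ z) (hi : InjOn κ S) (F : ℂ → ℝ≥0∞) :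
    ∫⁻ z in κ '' S, F z = ∫⁻ z in S, ‖deriv κ z‖ₑ ^ 2 * F (κ z) := by
  have h1 : ∀ z ∈ S, HasFDerivWithinAt κ
      ((ContinuousLinearMap.toSpanSingleton ℂ (deriv κ z)).restrictScalars ℝ) S z := fun z hz =>
    ((hκ z hz).hasDerivAt.hasFDerivAt.restrictScalars ℝ).hasFDerivWithinAt
  rw [lintegral_image_eq_lintegral_abs_det_fderiv_mul volume hS h1 hi]
  refine setLIntegral_congr_fun hS fun z _ => ?_
  simp only [KAdet]
  rw [abs_of_nonneg (by positivity), ENNReal.ofReal_pow (norm_nonneg _), ofReal_norm]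

/-- Cauchy-Schwarz on an interval -/
theorem PO_sq_integral_le {L1 L2 : ℝ} (h : L1 < L2) {g : ℝ → ℝ} (hg : ContinuousOn g (Icc L1 L2)) :
    (∫ s in L1..L2, g s) ^ 2 ≤ (L2 - L1) * ∫ s in L1..L2, g s ^ 2 := by
  have hL : 0 < L2 - L1 := sub_pos.2 h
  set I := ∫ s in L1..L2, g s with hI
  set m := I / (L2 - L1) with hm
  have hgu : ContinuousOn g (uIcc L1 L2) := by rwa [uIcc_of_le h.le]
  have hi1 : IntervalIntegrable g volume L1 L2 := hgu.intervalIntegrable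
  have hi2 : IntervalIntegrable (fun s => g s ^ 2) volume L1 L2 := (hgu.pow 2).intervalIntegrable
  have h0 : 0 ≤ ∫ s in L1..L2, (g s - m) ^ 2 :=
    intervalIntegral.integral_nonneg h.le fun s _ => sq_nonneg _
  have h1 : ∫ s in L1..L2, (g s - m) ^ 2 =
      (∫ s in L1..L2, g s ^ 2) - 2 * m * I + m ^ 2 * (L2 - L1) := by
    have : ∀ s, (g s - m) ^ 2 = (g s ^ 2 - 2 * m * g s) + m ^ 2 := fun s => by ring
    simp_rw [this]
    rw [intervalIntegral.integral_add (hi2.sub (hi1.const_mul _)) (by simp),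
      intervalIntegral.integral_sub hi2 (hi1.const_mul _), intervalIntegral.integral_const_mul,
      intervalIntegral.integral_const, smul_eq_mul, ← hI]
    ring
  have h2 : m * (L2 - L1) = I := by rw [hm]; field_simp
  have h3 : 0 ≤ (∫ s in L1..L2, g s ^ 2) - m * I := by
    have : m ^ 2 * (L2 - L1) = m * I := by rw [pow_two, mul_assoc, h2]
    rw [this] at h1
    linarith
  have h4 : I ^ 2 = (L2 - L1) * (m * I) := by rw [← h2]; ring
  rw [h4]
  exact mul_le_mul_of_nonneg_left (by linarith) hL.le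

/-- polar coordinates on an annulus -/
theorem PO_lintegral_ann {s : ℝ} (F : ℂ → ℝ≥0∞) :
    ∫⁻ z in ann s, F z = ∫⁻ p in Ioo 1 s ×ˢ Ioo (-Real.pi) Real.pi,
      ENNReal.ofReal p.1 * F (p.1 * Complex.exp (p.2 * Complex.I)) := by
  rw [← lintegral_indicator (Pool.Agent.EN.isOpen_ann' s).measurableSet,
    ← Complex.lintegral_comp_polarCoord_symm,
    ← lintegral_indicator polarCoord.open_target.measurableSet,
    ← lintegral_indicator (measurableSet_Ioo.prod measurableSet_Ioo)]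
  congr 1
  funext p
  have hs : Complex.polarCoord.symm p = p.1 * Complex.exp (p.2 * Complex.I) := by
    rw [Complex.polarCoord_symm_apply, Complex.exp_mul_I]
    push_cast
    ring
  by_cases hp : p ∈ polarCoord.target
  · have hp1 : (0 : ℝ) < p.1 := hp.1
    have hp2 : p.2 ∈ Ioo (-Real.pi) Real.pi := hp.2
    have hn : ‖(p.1 : ℂ) * Complex.exp (p.2 * Complex.I)‖ = p.1 := by
      rw [norm_mul, Complex.norm_exp_ofReal_mul_I, mul_one, Complex.norm_real, Real.norm_eq_abs,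
        abs_of_pos hp1]
    rw [indicator_of_mem hp, hs]
    by_cases h1 : p.1 ∈ Ioo 1 s
    · rw [indicator_of_mem (show p ∈ Ioo 1 s ×ˢ Ioo (-Real.pi) Real.pi from ⟨h1, hp2⟩),
        indicator_of_mem (show (p.1 : ℂ) * Complex.exp (p.2 * Complex.I) ∈ ann s by
          refine ⟨?_, ?_⟩
          · rw [hn]; exact h1.1
          · rw [hn]; exact h1.2), smul_eq_mul]
    · rw [indicator_of_notMem (show p ∉ Ioo 1 s ×ˢ Ioo (-Real.pi) Real.pi from fun h => h1 h.1),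
        indicator_of_notMem (show (p.1 : ℂ) * Complex.exp (p.2 * Complex.I) ∉ ann s by
          intro h
          have h2 := h.1
          have h3 := h.2
          rw [hn] at h2 h3
          exact h1 ⟨h2, h3⟩), smul_zero]
  · rw [indicator_of_notMem hp, indicator_of_notMem]
    intro h
    exact hp ⟨lt_trans one_pos h.1.1, h.2⟩

/-- the collar estimate -/
theorem PO_collar {s : ℝ} (hs : 1 < s) {V : Set ℂ} (hV : IsOpen V)
    (hVs : ∀ z : ℂ, 1 ≤ ‖z‖ → ‖z‖ ≤ s → z ∈ V) {A : ℂ → ℂ} (hA : DifferentiableOn ℂ A V)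
    {c : ℝ} (_hc : 0 ≤ c) (hcA : ∀ z, ‖z‖ = s → ‖A z‖ ≤ c) :
    ∫⁻ z in ann s, ‖A z‖ₑ ^ 2 ≤
      ENNReal.ofReal (s * ((s - 1) * (2 * Real.pi)) * (2 * c ^ 2)) +
        ENNReal.ofReal (s * (s - 1) * (2 * (s - 1))) * ∫⁻ z in ann s, ‖deriv A z‖ₑ ^ 2 := by
  have hs0 : 0 < s - 1 := by linarith
  set E : ℝ → ℂ := fun θ => Complex.exp (θ * Complex.I) with hE
  have hEn : ∀ θ, ‖E θ‖ = 1 := fun θ => Complex.norm_exp_ofReal_mul_I θ
  have hEc : Continuous E := by fun_prop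
  have hdA : ContinuousOn (deriv A) V := (hA.deriv hV).continuousOn
  have hmemV : ∀ θ : ℝ, ∀ t ∈ Icc 1 s, (t : ℂ) * E θ ∈ V := by
    intro θ t ht
    have hn : ‖(t : ℂ) * E θ‖ = t := by
      rw [norm_mul, hEn, mul_one, Complex.norm_real, Real.norm_eq_abs, abs_of_nonneg (by linarith [ht.1])]
    exact hVs _ (by rw [hn]; exact ht.1) (by rw [hn]; exact ht.2)
  have hcont : ∀ θ : ℝ, ContinuousOn (fun t : ℝ => deriv A (t * E θ)) (Icc 1 s) := by
    intro θ
    refine hdA.comp (by fun_prop : Continuous fun t : ℝ => (t : ℂ) * E θ).continuousOn ?_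
    exact hmemV θ
  -- pointwise bound
  have hpt : ∀ θ : ℝ, ∀ r ∈ Ioo 1 s, ‖A (r * E θ)‖ₑ ^ 2 ≤ ENNReal.ofReal (2 * c ^ 2) +
      ENNReal.ofReal (2 * (s - 1)) * ∫⁻ t in Ioo 1 s, ‖deriv A (t * E θ)‖ₑ ^ 2 := by
    intro θ r hr
    have hder : ∀ t ∈ uIcc r s, HasDerivAt (fun t : ℝ => A (t * E θ)) (deriv A (t * E θ) * E θ) t := by
      intro t ht
      rw [uIcc_of_le hr.2.le] at ht
      have hm := hmemV θ t ⟨hr.1.le.trans ht.1, ht.2⟩
      have h1 := (hA.differentiableAt (hV.mem_nhds hm)).hasDerivAt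
      have h2 : HasDerivAt (fun t : ℝ => (t : ℂ) * E θ) (E θ) t := by
        simpa using (Complex.ofRealCLM.hasDerivAt (x := t)).mul_const (E θ)
      exact h1.comp t h2
    have hint : IntervalIntegrable (fun t : ℝ => deriv A (t * E θ) * E θ) volume r s := by
      refine ContinuousOn.intervalIntegrable ?_
      rw [uIcc_of_le hr.2.le]
      exact ((hcont θ).mono (Icc_subset_Icc_left hr.1.le)).mul continuousOn_const
    have hftc := intervalIntegral.integral_eq_sub_of_hasDerivAt hder hint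
    have hns : ‖(s : ℂ) * E θ‖ = s := by
      rw [norm_mul, hEn, mul_one, Complex.norm_real, Real.norm_eq_abs, abs_of_nonneg (by linarith)]
    have hcn : ContinuousOn (fun t : ℝ => ‖deriv A (t * E θ)‖) (Icc 1 s) := (hcont θ).norm
    have h3 : ‖∫ t in r..s, deriv A (t * E θ) * E θ‖ ≤ ∫ t in (1 : ℝ)..s, ‖deriv A (t * E θ)‖ := by
      refine (intervalIntegral.norm_integral_le_integral_norm hr.2.le).trans ?_
      have h4 : ∀ t : ℝ, ‖deriv A (t * E θ) * E θ‖ = ‖deriv A (t * E θ)‖ := fun t => by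
        rw [norm_mul, hEn, mul_one]
      simp only [h4]
      refine intervalIntegral.integral_mono_interval hr.1.le hr.2.le le_rfl ?_ ?_
      · exact Eventually.of_forall fun t => norm_nonneg _
      · refine ContinuousOn.intervalIntegrable ?_
        rwa [uIcc_of_le hs.le]
    set I := ∫ t in (1 : ℝ)..s, ‖deriv A (t * E θ)‖ with hI
    have hA1 : ‖A (r * E θ)‖ ≤ c + I := by
      have e : A (r * E θ) = A (s * E θ) - ∫ t in r..s, deriv A (t * E θ) * E θ := by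
        rw [hftc]; ring
      rw [e]
      exact (norm_sub_le _ _).trans (add_le_add (hcA _ hns) h3)
    have hI0 : 0 ≤ I := intervalIntegral.integral_nonneg hs.le fun t _ => norm_nonneg _
    have hcs := PO_sq_integral_le hs hcn
    rw [← hI] at hcs
    have hA2 : ‖A (r * E θ)‖ ^ 2 ≤ 2 * c ^ 2 + 2 * (s - 1) * ∫ t in (1 : ℝ)..s, ‖deriv A (t * E θ)‖ ^ 2 := by
      have h5 : ‖A (r * E θ)‖ ^ 2 ≤ (c + I) ^ 2 := by gcongr
      nlinarith [sq_nonneg (c - I)]
    have hJ0 : 0 ≤ ∫ t in (1 : ℝ)..s, ‖deriv A (t * E θ)‖ ^ 2 :=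
      intervalIntegral.integral_nonneg hs.le fun t _ => sq_nonneg _
    have hJ : ENNReal.ofReal (∫ t in (1 : ℝ)..s, ‖deriv A (t * E θ)‖ ^ 2) =
        ∫⁻ t in Ioo 1 s, ‖deriv A (t * E θ)‖ₑ ^ 2 := by
      rw [intervalIntegral.integral_of_le hs.le, integral_Ioc_eq_integral_Ioo,
        ofReal_integral_eq_lintegral_ofReal]
      · refine lintegral_congr fun t => ?_
        rw [ENNReal.ofReal_pow (norm_nonneg _), ofReal_norm]
      · exact ((hcn.pow 2).integrableOn_Icc).mono_set Ioo_subset_Icc_self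
      · exact Eventually.of_forall fun t => sq_nonneg _
    calc ‖A (r * E θ)‖ₑ ^ 2 = ENNReal.ofReal (‖A (r * E θ)‖ ^ 2) := by
          rw [ENNReal.ofReal_pow (norm_nonneg _), ofReal_norm]
      _ ≤ ENNReal.ofReal (2 * c ^ 2 + 2 * (s - 1) * ∫ t in (1 : ℝ)..s, ‖deriv A (t * E θ)‖ ^ 2) :=
          ENNReal.ofReal_le_ofReal hA2
      _ = _ := by
          rw [ENNReal.ofReal_add (by positivity) (by positivity),
            ENNReal.ofReal_mul (p := 2 * (s - 1)) (by positivity), hJ]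
  -- integrate
  have hmeas : Measurable fun p : ℝ × ℝ => ‖deriv A (p.1 * E p.2)‖ₑ ^ 2 := by
    have h1 : Measurable fun p : ℝ × ℝ => (p.1 : ℂ) * E p.2 := by fun_prop
    exact ((measurable_deriv A).comp h1).enorm.pow_const 2
  have hG : Measurable fun θ : ℝ => ∫⁻ t in Ioo 1 s, ‖deriv A (t * E θ)‖ₑ ^ 2 :=
    hmeas.lintegral_prod_left'
  set G : ℝ → ℝ≥0∞ := fun θ => ∫⁻ t in Ioo 1 s, ‖deriv A (t * E θ)‖ₑ ^ 2 with hGdef
  have hGle : ∫⁻ θ in Ioo (-Real.pi) Real.pi, G θ ≤ ∫⁻ z in ann s, ‖deriv A z‖ₑ ^ 2 := by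
    rw [PO_lintegral_ann, Measure.volume_eq_prod, setLIntegral_prod_symm]
    · refine lintegral_mono fun θ => ?_
      refine setLIntegral_mono' measurableSet_Ioo fun t ht => ?_
      have h1 : (1 : ℝ≥0∞) ≤ ENNReal.ofReal t := by
        rw [← ENNReal.ofReal_one]; exact ENNReal.ofReal_le_ofReal ht.1.le
      calc ‖deriv A (t * E θ)‖ₑ ^ 2 = 1 * ‖deriv A (t * E θ)‖ₑ ^ 2 := (one_mul _).symm
        _ ≤ ENNReal.ofReal t * ‖deriv A (t * E θ)‖ₑ ^ 2 := by gcongr
    · exact ((measurable_fst.ennreal_ofReal).mul hmeas).aemeasurable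
  rw [PO_lintegral_ann]
  calc ∫⁻ p in Ioo 1 s ×ˢ Ioo (-Real.pi) Real.pi,
        ENNReal.ofReal p.1 * ‖A (p.1 * Complex.exp (p.2 * Complex.I))‖ₑ ^ 2
      ≤ ∫⁻ p in Ioo 1 s ×ˢ Ioo (-Real.pi) Real.pi, ENNReal.ofReal s *
          (ENNReal.ofReal (2 * c ^ 2) + ENNReal.ofReal (2 * (s - 1)) * G p.2) := by
        refine setLIntegral_mono' (measurableSet_Ioo.prod measurableSet_Ioo) fun p hp => ?_
        have h1 := hpt p.2 p.1 hp.1
        have h2 : ENNReal.ofReal p.1 ≤ ENNReal.ofReal s := ENNReal.ofReal_le_ofReal hp.1.2.le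
        exact mul_le_mul' h2 h1
    _ = ENNReal.ofReal (s * ((s - 1) * (2 * Real.pi)) * (2 * c ^ 2)) +
          ENNReal.ofReal (s * (s - 1) * (2 * (s - 1))) * ∫⁻ θ in Ioo (-Real.pi) Real.pi, G θ := by
        rw [Measure.volume_eq_prod, ← Measure.prod_restrict,
          lintegral_const_mul _ (by fun_prop), lintegral_add_left (by fun_prop),
          lintegral_const_mul _ (by fun_prop)]
        have h3 : ∫⁻ p : ℝ × ℝ, G p.2 ∂((volume.restrict (Ioo 1 s)).prod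
            (volume.restrict (Ioo (-Real.pi) Real.pi))) =
            ENNReal.ofReal (s - 1) * ∫⁻ θ in Ioo (-Real.pi) Real.pi, G θ := by
          have := lintegral_prod_mul (μ := volume.restrict (Ioo 1 s))
            (ν := volume.restrict (Ioo (-Real.pi) Real.pi)) (f := fun _ => 1) (g := G)
            aemeasurable_const hG.aemeasurable
          simpa using this
        rw [h3, lintegral_const, Measure.prod_restrict, Measure.restrict_apply_univ,
          Measure.prod_prod, Real.volume_Ioo, Real.volume_Ioo]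
        have hpi : Real.pi - -Real.pi = 2 * Real.pi := by ring
        rw [hpi, mul_add]
        congr 1
        · rw [← ENNReal.ofReal_mul hs0.le, ← ENNReal.ofReal_mul (by positivity),
            ← ENNReal.ofReal_mul (by linarith)]
          congr 1; ring
        · rw [← mul_assoc, ← mul_assoc, ← ENNReal.ofReal_mul (by linarith),
            ← ENNReal.ofReal_mul (by nlinarith)]
          congr 2; ring
    _ ≤ _ := by gcongr

section
variable {k : ℕ} (D : AJ k)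

theorem PO_L2_norm (u : D.L2) {f : ℂ → ℂ} (hu : (u : ℂ → ℂ) =ᵐ[volume.restrict D.U] f) :
    ‖u‖ = Real.sqrt (∫ z in D.U, ‖f z‖ ^ 2) := by
  have h1 : inner ℂ u u = ∫ z in D.U, f z * conj (f z) := by
    rw [L2.inner_def]
    refine integral_congr_ae ?_
    filter_upwards [hu] with z h1
    rw [h1, RCLike.inner_apply]
  have h2 : (inner ℂ u u : ℂ) = ((‖u‖ ^ 2 : ℝ) : ℂ) := by
    rw [inner_self_eq_norm_sq_to_K]; push_cast; rfl
  have h3 : (∫ z in D.U, f z * conj (f z)) = ((∫ z in D.U, ‖f z‖ ^ 2 : ℝ) : ℂ) := by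
    rw [← integral_complex_ofReal]
    refine integral_congr_ae (ae_of_all _ fun z => ?_)
    simp only [Complex.mul_conj, Complex.normSq_eq_norm_sq]
  rw [h2, h3] at h1
  have h4 : ‖u‖ ^ 2 = ∫ z in D.U, ‖f z‖ ^ 2 := by exact_mod_cast h1
  rw [← h4, Real.sqrt_sq (norm_nonneg _)]

/-- the Dirichlet norm -/
noncomputable def PO_M (a : ℂ → ℂ) : ℝ := Real.sqrt (∫ z in D.U, ‖deriv a z‖ ^ 2)

theorem PO_M_nonneg (a : ℂ → ℂ) : 0 ≤ PO_M D a := Real.sqrt_nonneg _

theorem PO_TF_hol2 {z₀ : ℂ} {a : ℂ → ℂ} (ha : D.TF z₀ a) : D.Hol2 (deriv a) := by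
  obtain ⟨δ, hδ, h⟩ := ha.ex
  exact hol2_of_nhds D (D.Ue_open δ) (D.cU_subset_Ue hδ) (h.deriv (D.Ue_open δ))

theorem PO_TF_hol2' {z₀ : ℂ} {a : ℂ → ℂ} (ha : D.TF z₀ a) : D.Hol2 a := by
  obtain ⟨δ, hδ, h⟩ := ha.ex
  exact hol2_of_nhds D (D.Ue_open δ) (D.cU_subset_Ue hδ) h

theorem PO_deriv_le {z₀ : ℂ} {a : ℂ → ℂ} (ha : D.TF z₀ a) {z : ℂ} (hz : z ∈ D.U) :
    ‖deriv a z‖ ≤ ‖evL D z‖ * PO_M D a := by
  have h := PO_TF_hol2 D ha
  have h1 := evL_hol D hz h.diff h.memLp.coeFn_toLp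
  have h2 := PO_L2_norm D _ h.memLp.coeFn_toLp
  rw [← h1, PO_M, ← h2]
  exact (evL D z).le_opNorm _

/-- local estimate -/
theorem PO_local {z₀ z : ℂ} (hz : z ∈ D.U) : ∃ r > 0, ball z r ⊆ D.U ∧ ∃ C : ℝ, 0 ≤ C ∧
    ∀ a, D.TF z₀ a → ∀ w ∈ ball z r, ‖a w - a z‖ ≤ C * PO_M D a := by
  obtain ⟨r, hr, hb⟩ := Metric.nhds_basis_closedBall.mem_iff.1 (D.U_open.mem_nhds hz)
  obtain ⟨C, hC⟩ := evL_bdd D (isCompact_closedBall z r) hb
  refine ⟨r, hr, ball_subset_closedBall.trans hb, max C 0 * r, by positivity, fun a ha w hw => ?_⟩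
  have hM := PO_M_nonneg D a
  have hd : ∀ x ∈ ball z r, DifferentiableAt ℂ a x := fun x hx =>
    (PO_TF_hol2' D ha).diff.differentiableAt (D.U_open.mem_nhds (hb (ball_subset_closedBall hx)))
  have hbd : ∀ x ∈ ball z r, ‖deriv a x‖ ≤ max C 0 * PO_M D a := fun x hx =>
    (PO_deriv_le D ha (hb (ball_subset_closedBall hx))).trans
      (mul_le_mul_of_nonneg_right ((hC x (ball_subset_closedBall hx)).trans (le_max_left _ _)) hM)
  have h1 := (convex_ball z r).norm_image_sub_le_of_norm_deriv_le hd hbd (mem_ball_self hr) hw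
  have h2 : ‖w - z‖ ≤ r := by
    have := mem_ball.1 hw
    rw [dist_eq_norm] at this
    exact this.le
  calc ‖a w - a z‖ ≤ max C 0 * PO_M D a * ‖w - z‖ := h1
    _ ≤ max C 0 * PO_M D a * r := by gcongr
    _ = _ := by ring

/-- two points -/
theorem PO_two {z₀ z w : ℂ} (hz : z ∈ D.U) (hw : w ∈ D.U) : ∃ C : ℝ, 0 ≤ C ∧
    ∀ a, D.TF z₀ a → ‖a w - a z‖ ≤ C * PO_M D a := by
  refine D.connected.isPreconnected.induction₂ (fun z w => ∃ C : ℝ, 0 ≤ C ∧
    ∀ a, D.TF z₀ a → ‖a w - a z‖ ≤ C * PO_M D a) ?_ ?_ ?_ hz hw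
  · intro x hx
    obtain ⟨r, hr, -, C, hC0, hC⟩ := PO_local D (z₀ := z₀) hx
    refine mem_nhdsWithin_of_mem_nhds (mem_of_superset (ball_mem_nhds x hr) fun y hy => ?_)
    exact ⟨C, hC0, fun a ha => hC a ha y hy⟩
  · rintro x y z - - - ⟨C, hC0, hC⟩ ⟨C', hC0', hC'⟩
    refine ⟨C + C', by positivity, fun a ha => ?_⟩
    calc ‖a z - a x‖ = ‖(a z - a y) + (a y - a x)‖ := by congr 1; ring
      _ ≤ ‖a z - a y‖ + ‖a y - a x‖ := norm_add_le _ _
      _ ≤ C' * PO_M D a + C * PO_M D a := add_le_add (hC' a ha) (hC a ha)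
      _ = _ := by ring
  · rintro x y - - ⟨C, hC0, hC⟩
    exact ⟨C, hC0, fun a ha => by rw [norm_sub_rev]; exact hC a ha⟩

/-- uniform bounds on compact sets -/
theorem PO_compact {z₀ : ℂ} (hz₀ : z₀ ∈ D.U) {K : Set ℂ} (hK : IsCompact K) (hKU : K ⊆ D.U) :
    ∃ C : ℝ, 0 ≤ C ∧ ∀ a, D.TF z₀ a → ∀ z ∈ K, ‖a z‖ ≤ C * PO_M D a := by
  refine hK.induction_on (p := fun K => ∃ C : ℝ, 0 ≤ C ∧ ∀ a, D.TF z₀ a → ∀ z ∈ K,
    ‖a z‖ ≤ C * PO_M D a) ?_ ?_ ?_ ?_
  · exact ⟨0, le_rfl, by simp⟩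
  · rintro s t hst ⟨C, hC0, hC⟩
    exact ⟨C, hC0, fun a ha z hz => hC a ha z (hst hz)⟩
  · rintro s t ⟨C, hC0, hC⟩ ⟨C', hC0', hC'⟩
    refine ⟨max C C', by positivity, fun a ha z hz => ?_⟩
    have hM := PO_M_nonneg D a
    rcases hz with hz | hz
    · exact (hC a ha z hz).trans (mul_le_mul_of_nonneg_right (le_max_left _ _) hM)
    · exact (hC' a ha z hz).trans (mul_le_mul_of_nonneg_right (le_max_right _ _) hM)
  · intro x hx
    obtain ⟨r, hr, -, C, hC0, hC⟩ := PO_local D (z₀ := z₀) (hKU hx)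
    obtain ⟨C', hC0', hC'⟩ := PO_two D (z₀ := z₀) hz₀ (hKU hx)
    refine ⟨ball x r, mem_nhdsWithin_of_mem_nhds (ball_mem_nhds x hr), C + C', by positivity,
      fun a ha z hz => ?_⟩
    have h0 := ha.zero
    calc ‖a z‖ = ‖(a z - a x) + (a x - a z₀)‖ := by rw [h0]; congr 1; ring
      _ ≤ ‖a z - a x‖ + ‖a x - a z₀‖ := norm_add_le _ _
      _ ≤ C * PO_M D a + C' * PO_M D a := add_le_add (hC a ha z hz) (hC' a ha)
      _ = _ := by ring

/-- the Dirichlet norm as a lower integral -/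
theorem PO_M_sq {z₀ : ℂ} {a : ℂ → ℂ} (ha : D.TF z₀ a) :
    ∫⁻ z in D.U, ‖deriv a z‖ₑ ^ 2 = ENNReal.ofReal (PO_M D a ^ 2) := by
  have h := PO_TF_hol2 D ha
  have hi : IntegrableOn (fun z => ‖deriv a z‖ ^ 2) D.U :=
    (memLp_two_iff_integrable_sq_norm h.memLp.1).1 h.memLp
  rw [PO_M, Real.sq_sqrt (integral_nonneg fun z => sq_nonneg _),
    ofReal_integral_eq_lintegral_ofReal hi (Eventually.of_forall fun z => sq_nonneg _)]
  refine lintegral_congr fun z => ?_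
  rw [ENNReal.ofReal_pow (norm_nonneg _), ofReal_norm]

/-- the estimate in one collar -/
theorem PO_one {z₀ : ℂ} (hz₀ : z₀ ∈ D.U) {s : ℝ} (hs : 1 < s) (hsρ : s < D.ρ)
    (l : Option (Fin k)) : ∃ C : ℝ, 0 ≤ C ∧ ∀ a, D.TF z₀ a →
      ∫⁻ z in D.kap l '' ann s, ‖a z‖ₑ ^ 2 ≤ ENNReal.ofReal (C * PO_M D a ^ 2) := by
  have hs0 : 0 < s - 1 := by linarith
  have hann : ann s ⊆ ann2 D.ρ :=
    (Pool.Agent.EN.ann_subset_ann2).trans (Pool.Agent.EN.ann2_mono hsρ.le)
  have hsub : D.kap l '' ann s ⊆ D.U := by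
    rintro _ ⟨z, hz, rfl⟩
    exact (D.mem_iff l z (hann hz)).2 hz.1
  have hopen := Pool.Agent.EN.isOpen_ann' s
  have hoρ := Pool.Agent.EN.isOpen_ann2' D.ρ
  -- the circle of radius s
  have hcirc : sphere (0 : ℂ) s ⊆ ann2 D.ρ := by
    intro z hz
    have hn : ‖z‖ = s := by simpa using hz
    refine ⟨?_, ?_⟩
    · rw [hn]; exact (inv_lt_one_of_one_lt₀ D.one_lt).trans hs
    · rw [hn]; exact hsρ
  obtain ⟨C, hC0, hC⟩ := PO_compact D hz₀ (K := D.kap l '' sphere 0 s)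
    ((isCompact_sphere _ _).image_of_continuousOn ((D.holo l).continuousOn.mono hcirc)) (by
      rintro _ ⟨z, hz, rfl⟩
      have hn : ‖z‖ = s := by simpa using hz
      exact (D.mem_iff l z (hcirc hz)).2 (by rw [hn]; exact hs))
  -- bound for the derivative of the chart
  have hcl : closedBall (0 : ℂ) s \ ball 0 1 ⊆ ann2 D.ρ := by
    intro u hu
    have h1 : ‖u‖ ≤ s := by simpa using hu.1
    have h2 : 1 ≤ ‖u‖ := by simpa using hu.2
    exact ⟨(inv_lt_one_of_one_lt₀ D.one_lt).trans_le h2, h1.trans_lt hsρ⟩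
  obtain ⟨B, hB⟩ := ((isCompact_closedBall (0 : ℂ) s).diff isOpen_ball).exists_bound_of_continuousOn
    (((D.holo l).deriv hoρ).continuousOn.mono hcl)
  set B' := max B 0 with hB'
  have hBann : ∀ z ∈ ann s, ‖deriv (D.kap l) z‖ ≤ B' := fun z hz =>
    (hB z ⟨by simpa using hz.2.le, by simpa using hz.1.le⟩).trans (le_max_left _ _)
  refine ⟨B' ^ 2 * (s * ((s - 1) * (2 * Real.pi)) * (2 * C ^ 2) + s * (s - 1) * (2 * (s - 1))),
    by positivity, fun a ha => ?_⟩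
  obtain ⟨δ, hδ, hδa⟩ := ha.ex
  -- the domain of a ∘ kap
  set V : Set ℂ := ann2 D.ρ ∩ D.kap l ⁻¹' D.Ue δ with hV
  have hVo : IsOpen V := (D.holo l).continuousOn.isOpen_inter_preimage hoρ (D.Ue_open δ)
  have hVs : ∀ z : ℂ, 1 ≤ ‖z‖ → ‖z‖ ≤ s → z ∈ V := by
    intro z h1 h2
    have hz : z ∈ ann2 D.ρ := hcl ⟨by simpa using h2, by simpa using h1⟩
    refine ⟨hz, D.cU_subset_Ue hδ ((D.mem_cU_iff' _).2 ?_)⟩
    rcases h1.eq_or_lt with h3 | h3
    · exact Or.inr ⟨l, z, by simpa using h3.symm, rfl⟩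
    · exact Or.inl ((D.mem_iff l z hz).2 h3)
  set A : ℂ → ℂ := fun z => a (D.kap l z) with hA
  have hκd : ∀ z ∈ ann2 D.ρ, DifferentiableAt ℂ (D.kap l) z := fun z hz =>
    (D.holo l).differentiableAt (hoρ.mem_nhds hz)
  have had : ∀ z ∈ V, DifferentiableAt ℂ a (D.kap l z) := fun z hz =>
    hδa.differentiableAt ((D.Ue_open δ).mem_nhds hz.2)
  have hAd : DifferentiableOn ℂ A V := fun z hz =>
    ((had z hz).comp z (hκd z hz.1)).differentiableWithinAt
  have hder : ∀ z ∈ V, deriv A z = deriv a (D.kap l z) * deriv (D.kap l) z := fun z hz =>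
    deriv_comp z (had z hz) (hκd z hz.1)
  have hM := PO_M_nonneg D a
  have hcol := PO_collar hs hVo hVs hAd (c := C * PO_M D a) (by positivity) (fun z hz =>
    hC a ha _ ⟨z, by simpa using hz, rfl⟩)
  have hannV : ann s ⊆ V := fun z hz => hVs z hz.1.le hz.2.le
  have hinj : InjOn (D.kap l) (ann s) := (D.inj l).mono hann
  have hcv := PO_lintegral_hol_image hopen.measurableSet (fun z hz => hκd z (hann hz)) hinj
    (fun z => ‖a z‖ₑ ^ 2)
  have hcv2 := PO_lintegral_hol_image hopen.measurableSet (fun z hz => hκd z (hann hz)) hinj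
    (fun z => ‖deriv a z‖ₑ ^ 2)
  have hD : ∫⁻ z in ann s, ‖deriv A z‖ₑ ^ 2 ≤ ENNReal.ofReal (PO_M D a ^ 2) := by
    rw [← PO_M_sq D ha]
    calc ∫⁻ z in ann s, ‖deriv A z‖ₑ ^ 2 =
        ∫⁻ z in ann s, ‖deriv (D.kap l) z‖ₑ ^ 2 * ‖deriv a (D.kap l z)‖ₑ ^ 2 := by
          refine setLIntegral_congr_fun hopen.measurableSet fun z hz => ?_
          rw [hder z (hannV hz), enorm_mul, mul_pow, mul_comm]
      _ = ∫⁻ z in D.kap l '' ann s, ‖deriv a z‖ₑ ^ 2 := hcv2.symm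
      _ ≤ ∫⁻ z in D.U, ‖deriv a z‖ₑ ^ 2 := lintegral_mono_set hsub
  rw [hcv]
  calc ∫⁻ z in ann s, ‖deriv (D.kap l) z‖ₑ ^ 2 * ‖a (D.kap l z)‖ₑ ^ 2
      ≤ ∫⁻ z in ann s, ENNReal.ofReal (B' ^ 2) * ‖A z‖ₑ ^ 2 := by
        refine setLIntegral_mono' hopen.measurableSet fun z hz => ?_
        have h1 : ‖deriv (D.kap l) z‖ₑ ^ 2 ≤ ENNReal.ofReal (B' ^ 2) := by
          rw [← ofReal_norm, ← ENNReal.ofReal_pow (norm_nonneg _)]
          refine ENNReal.ofReal_le_ofReal ?_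
          have := hBann z hz
          gcongr
        gcongr
    _ = ENNReal.ofReal (B' ^ 2) * ∫⁻ z in ann s, ‖A z‖ₑ ^ 2 := by
        rw [lintegral_const_mul' _ _ ENNReal.ofReal_ne_top]
    _ ≤ ENNReal.ofReal (B' ^ 2) *
        (ENNReal.ofReal (s * ((s - 1) * (2 * Real.pi)) * (2 * (C * PO_M D a) ^ 2)) +
        ENNReal.ofReal (s * (s - 1) * (2 * (s - 1))) * ENNReal.ofReal (PO_M D a ^ 2)) := by
        gcongr
        exact hcol.trans (by gcongr)
    _ = _ := by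
        rw [← ENNReal.ofReal_mul (by positivity), ← ENNReal.ofReal_add (by positivity)
          (by positivity), ← ENNReal.ofReal_mul (by positivity)]
        congr 1; ring

/-- Poincaré inequality for holomorphic functions -/
theorem poincare {z₀ : ℂ} (hz₀ : z₀ ∈ D.U) : ∃ C : ℝ, 0 ≤ C ∧ ∀ a : ℂ → ℂ, D.TF z₀ a →
    Real.sqrt (∫ z in D.U, ‖a z‖ ^ 2) ≤ C * Real.sqrt (∫ z in D.U, ‖deriv a z‖ ^ 2) := by
  obtain ⟨s, hs, hsρ⟩ := exists_between D.one_lt
  choose Cl hCl0 hCl using fun l => PO_one D hz₀ hs hsρ l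
  have hK : IsCompact (D.U \ ⋃ l, D.kap l '' ann s) := D.compact s hs hsρ.le
  obtain ⟨C, hC0, hC⟩ := PO_compact D hz₀ hK sdiff_subset
  set v : ℝ := (volume D.U).toReal with hv
  have hv0 : 0 ≤ v := ENNReal.toReal_nonneg
  have hvv : volume D.U = ENNReal.ofReal v := (ENNReal.ofReal_toReal D.U_finite).symm
  have hS0 : 0 ≤ ∑ l, Cl l := Finset.sum_nonneg fun l _ => hCl0 l
  refine ⟨Real.sqrt (C ^ 2 * v + ∑ l, Cl l), Real.sqrt_nonneg _, fun a ha => ?_⟩
  have hM := PO_M_nonneg D a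
  have h2 := PO_TF_hol2' D ha
  have hi : IntegrableOn (fun z => ‖a z‖ ^ 2) D.U :=
    (memLp_two_iff_integrable_sq_norm h2.memLp.1).1 h2.memLp
  have hlin : ENNReal.ofReal (∫ z in D.U, ‖a z‖ ^ 2) = ∫⁻ z in D.U, ‖a z‖ₑ ^ 2 := by
    rw [ofReal_integral_eq_lintegral_ofReal hi (Eventually.of_forall fun z => sq_nonneg _)]
    refine lintegral_congr fun z => ?_
    rw [ENNReal.ofReal_pow (norm_nonneg _), ofReal_norm]
  have hbd : ∫⁻ z in D.U, ‖a z‖ₑ ^ 2 ≤
      ENNReal.ofReal ((C ^ 2 * v + ∑ l, Cl l) * PO_M D a ^ 2) := by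
    have hcov : D.U ⊆ (D.U \ ⋃ l, D.kap l '' ann s) ∪ ⋃ l, D.kap l '' ann s := by
      intro z hz
      by_cases h : z ∈ ⋃ l, D.kap l '' ann s
      · exact Or.inr h
      · exact Or.inl ⟨hz, h⟩
    calc ∫⁻ z in D.U, ‖a z‖ₑ ^ 2
        ≤ ∫⁻ z in (D.U \ ⋃ l, D.kap l '' ann s) ∪ ⋃ l, D.kap l '' ann s, ‖a z‖ₑ ^ 2 :=
          lintegral_mono_set hcov
      _ ≤ (∫⁻ z in D.U \ ⋃ l, D.kap l '' ann s, ‖a z‖ₑ ^ 2) +
          ∫⁻ z in ⋃ l, D.kap l '' ann s, ‖a z‖ₑ ^ 2 := lintegral_union_le _ _ _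
      _ ≤ ENNReal.ofReal (C ^ 2 * v * PO_M D a ^ 2) +
          ∑ l, ENNReal.ofReal (Cl l * PO_M D a ^ 2) := by
          gcongr
          · calc ∫⁻ z in D.U \ ⋃ l, D.kap l '' ann s, ‖a z‖ₑ ^ 2
                ≤ ∫⁻ z in D.U \ ⋃ l, D.kap l '' ann s, ENNReal.ofReal ((C * PO_M D a) ^ 2) := by
                  refine setLIntegral_mono' hK.isClosed.measurableSet fun z hz => ?_
                  rw [← ofReal_norm, ← ENNReal.ofReal_pow (norm_nonneg _)]
                  refine ENNReal.ofReal_le_ofReal ?_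
                  have := hC a ha z hz
                  gcongr
              _ = ENNReal.ofReal ((C * PO_M D a) ^ 2) *
                  volume (D.U \ ⋃ l, D.kap l '' ann s) := by
                  rw [setLIntegral_const]
              _ ≤ ENNReal.ofReal ((C * PO_M D a) ^ 2) * volume D.U := by
                  gcongr
                  exact sdiff_subset
              _ = _ := by
                  rw [hvv, ← ENNReal.ofReal_mul (by positivity)]
                  congr 1; ring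
          · refine (lintegral_iUnion_le _ _).trans ?_
            rw [tsum_fintype]
            exact Finset.sum_le_sum fun l _ => hCl l a ha
      _ = _ := by
          rw [← ENNReal.ofReal_sum_of_nonneg fun l _ => mul_nonneg (hCl0 l) (sq_nonneg _),
            ← ENNReal.ofReal_add (by positivity)
              (Finset.sum_nonneg fun l _ => mul_nonneg (hCl0 l) (sq_nonneg _)),
            ← Finset.sum_mul]
          congr 1; ring
  have hreal : ∫ z in D.U, ‖a z‖ ^ 2 ≤ (C ^ 2 * v + ∑ l, Cl l) * PO_M D a ^ 2 := by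
    rw [← hlin] at hbd
    exact (ENNReal.ofReal_le_ofReal_iff (by positivity)).1 hbd
  calc Real.sqrt (∫ z in D.U, ‖a z‖ ^ 2)
      ≤ Real.sqrt ((C ^ 2 * v + ∑ l, Cl l) * PO_M D a ^ 2) := Real.sqrt_le_sqrt hreal
    _ = Real.sqrt (C ^ 2 * v + ∑ l, Cl l) * PO_M D a := by
        rw [Real.sqrt_mul (by positivity), Real.sqrt_sq hM]

end

end Pool.Agent.KA
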