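import Pool.Agent.Helper9.KA.E5a
import Pool.Agent.Helper9.KA.C7a
import Pool.Agent.Helper9.KA.PSaux
import Pool.Agent.Helper9.KA.ToeAux
import Pool.Agent.Helper9.KA.PO

set_option autoImplicit false

open MeasureTheory Set Filter Asymptotics Topology Metric
open scoped ComplexConjugate ENNReal

namespace Pool.Agent.KA

open Pool.Agent.Helper7.KE hiding HM PS Bv sfun FF tt lS
open Pool.Agent.EN (AJ ann ann2)

section
variable {k : ℕ} {D : AJ k} {τ δ : ℝ} {ι : Type} [Fintype ι] [DecidableEq ι]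

/-- the formula for `L_t g (a)` in terms of the Toeplitz operator -/
private theorem e5b_formula (hτ : D.Good τ) (hδ : 0 < δ) (h : HM D τ δ) {x : Fin k → ℝ}
    (ps : PS D (h.rho x) ι) (N : ℝ) (y : ι → ℝ) (w : Fin k → ℂ)
    (hnone : Complex.exp (Complex.I * (N * ps.c (ps.bd none) + y (ps.bd none) : ℝ)) = 1)
    {t : Fin k → ℂ} (ht : ∀ j, t j = Complex.exp (Complex.I *
        (N * ps.c (ps.bd (some j)) + y (ps.bd (some j)) : ℝ) + w j))
    {g a : ℂ → ℂ} (hg : D.Hol2 g) {V : Set ℂ} (hVo : IsOpen V) (hcV : D.cU ⊆ V)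
    (hVU : V ⊆ D.Ue δ) (ha : DifferentiableOn ℂ a V) :
    D.Lt τ t g a = (∫ z in D.U, Complex.exp (lS h ps N y w z) * g z *
        conj (deriv a z + (-(Complex.I * N * h.vv x z) + ∑ j, conj (w j) * h.v j z) * a z)) +
      ∑ i, (Complex.I * y i) * ∫ z in D.U, Complex.exp (lS h ps N y w z) *
        D.U.indicator (fun z => dzb (fun u => (ps.chi i u : ℂ)) z * 1) z * g z * conj (a z) := by
  have hUe := D.Ue_open δ
  have hcU := D.cU_subset_Ue hδ
  obtain ⟨-, -, hvv, -⟩ := rho_facts h hτ hδ x w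
  have hlS := lS_smooth hτ hδ h ps N y w
  have hS : ContDiffOn ℝ (⊤ : ℕ∞) (fun z => Complex.exp (lS h ps N y w z)) (D.Ue δ) := hlS.cexp
  have hScU : ContinuousOn (fun z => Complex.exp (lS h ps N y w z)) D.cU :=
    hS.continuousOn.mono hcU
  have hchi : ∀ i, ContDiff ℝ (⊤ : ℕ∞) (fun u => (ps.chi i u : ℂ)) := fun i =>
    Complex.ofRealCLM.contDiff.comp (ps.smooth i)
  have hd : ∀ i, ContinuousOn (dzb (fun u => (ps.chi i u : ℂ))) D.cU := fun i =>
    ((dz_contDiffOn isOpen_univ (hchi i).contDiffOn).2.continuousOn).mono (subset_univ _)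
  have ha' : DifferentiableOn ℂ (deriv a) V := ha.deriv hVo
  rw [Lt_boundary D hτ t hg hVo hcV ha (hS.mono hVU)]
  rotate_left
  · intro z hz
    rw [lS_circ hτ hδ h ps N y w none hz]
    simpa using hnone
  · intro j z hz
    rw [lS_circ hτ hδ h ps N y w (some j) hz, ht j]
    rfl
  set q : ℂ → ℂ := fun z => deriv a z +
    (-(Complex.I * N * h.vv x z) + ∑ j, conj (w j) * h.v j z) * a z with hq
  have hqc : ContinuousOn q D.cU := by
    have h1 : ContinuousOn q V := by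
      refine ha'.continuousOn.add (ContinuousOn.mul (ContinuousOn.add ?_ ?_) ha.continuousOn)
      · exact (continuousOn_const.mul (hvv.continuousOn.mono hVU)).neg
      · exact continuousOn_finsetSum _ fun j _ =>
          continuousOn_const.mul ((h.hol j).continuousOn.mono hVU)
    exact h1.mono hcV
  have h4 : ∀ z ∈ D.U, g z * dzb (fun u => Complex.exp (lS h ps N y w u) * conj (a u)) z =
      Complex.exp (lS h ps N y w z) * g z * conj (q z) +
        ∑ i, (Complex.I * y i) * (Complex.exp (lS h ps N y w z) *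
          D.U.indicator (fun z => dzb (fun u => (ps.chi i u : ℂ)) z * 1) z * g z *
            conj (a z)) := by
    intro z hz
    have hzU : z ∈ D.Ue δ := hcU (D.U_subset_cU hz)
    have hzn := hUe.mem_nhds hzU
    have d1 : DifferentiableAt ℝ (lS h ps N y w) z :=
      (hlS.contDiffAt hzn).differentiableAt (by simp)
    have d2 : DifferentiableAt ℝ (fun z => Complex.exp (lS h ps N y w z)) z :=
      (hS.contDiffAt hzn).differentiableAt (by simp)
    have hzn' := hVo.mem_nhds (hcV (D.U_subset_cU hz))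
    have d3 : DifferentiableAt ℂ a z := ha.differentiableAt hzn'
    have d4 : DifferentiableAt ℝ (fun z => conj (a z)) z :=
      ((Complex.conjCLE.contDiff.comp_contDiffOn (n := (⊤ : ℕ∞))
        (hol_contDiffOn hVo ha)).contDiffAt hzn').differentiableAt (by simp)
    have e1 := (dz_smul (f := fun z => Complex.exp (lS h ps N y w z)) d2 d4).2
    simp only [smul_eq_mul] at e1
    rw [e1, (dz_cexp d1).2, (dz_conj_hol d3).2, (lS_deriv hτ hδ h ps N y w hzU).2]
    have hq1 : conj (q z) = conj (deriv a z) +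
        (Complex.I * N * conj (h.vv x z) + h.vb w z) * conj (a z) := by
      simp only [hq, map_add, map_mul, map_neg, map_sum, Complex.conj_conj, Complex.conj_I,
        Complex.conj_ofReal, HM.vb]
      ring
    have hsum : ∑ i, (Complex.I * y i) * (Complex.exp (lS h ps N y w z) *
          D.U.indicator (fun z => dzb (fun u => (ps.chi i u : ℂ)) z * 1) z * g z *
            conj (a z)) = Complex.I * (∑ i, y i * dzb (fun u => (ps.chi i u : ℂ)) z) *
          (Complex.exp (lS h ps N y w z) * g z * conj (a z)) := by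
      simp only [indicator_of_mem hz, mul_one]
      rw [Finset.mul_sum, Finset.sum_mul]
      exact Finset.sum_congr rfl fun i _ => by ring
    rw [hq1, hsum]
    ring
  rw [setIntegral_congr_fun D.U_open.measurableSet h4]
  have hac := ha.continuousOn.mono hcV
  have hqc2 : ContinuousOn (fun z => conj (q z)) D.cU :=
    Complex.continuous_conj.comp_continuousOn hqc
  have hac2 : ContinuousOn (fun z => conj (a z)) D.cU :=
    Complex.continuous_conj.comp_continuousOn hac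
  have i1 : Integrable (fun z => Complex.exp (lS h ps N y w z) * g z * conj (q z))
      (volume.restrict D.U) := by
    refine (cont_mul_integrable D hScU hg.memLp (cont_memLp D hqc2)).congr
      (ae_of_all _ fun z => ?_)
    simp only []
    ring
  have i2 : ∀ i ∈ (Finset.univ : Finset ι), Integrable (fun z => (Complex.I * y i) *
      (Complex.exp (lS h ps N y w z) *
          D.U.indicator (fun z => dzb (fun u => (ps.chi i u : ℂ)) z * 1) z * g z * conj (a z)))
      (volume.restrict D.U) := by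
    intro i _
    refine Integrable.const_mul ?_ _
    refine (cont_mul_integrable D (hScU.mul (hd i)) hg.memLp (cont_memLp D hac2)).congr ?_
    filter_upwards [ae_restrict_mem D.U_open.measurableSet] with z hz
    rw [indicator_of_mem hz]
    simp only [Pi.mul_apply]
    ring
  have h6 : ∫ z in D.U, (Complex.exp (lS h ps N y w z) * g z * conj (q z) +
        ∑ i, (Complex.I * y i) * (Complex.exp (lS h ps N y w z) *
          D.U.indicator (fun z => dzb (fun u => (ps.chi i u : ℂ)) z * 1) z * g z *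
            conj (a z))) =
      (∫ z in D.U, Complex.exp (lS h ps N y w z) * g z * conj (q z)) +
      ∑ i, ∫ z in D.U, (Complex.I * y i) * (Complex.exp (lS h ps N y w z) *
          D.U.indicator (fun z => dzb (fun u => (ps.chi i u : ℂ)) z * 1) z * g z *
            conj (a z)) := by
    rw [← integral_finsetSum _ i2]
    exact integral_add i1 (integrable_finsetSum _ i2)
  rw [h6]
  simp only [integral_const_mul]
  rfl

theorem toe_test_bound (hτ : D.Good τ) (hδ : 0 < δ) (hδτ : δ ≤ τ) (h : HM D τ δ)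
    {x : Fin k → ℝ} (hx : x ≠ 0) (ps : PS D (h.rho x) ι) {z₀ : ℂ} (hz₀ : z₀ ∈ D.U) (Λ : ℝ)
    (K : ℕ) :
    ∃ C : ℝ, 0 ≤ C ∧ ∀ N : ℝ, 1 ≤ N → ∀ (y : ι → ℝ) (w : Fin k → ℂ), (∀ i, |y i| ≤ Λ) →
      (∀ j, ‖w j‖ ≤ Λ) →
      Complex.exp (Complex.I * (N * ps.c (ps.bd none) + y (ps.bd none) : ℝ)) = 1 →
      ∀ (f : D.Berg) (g : ℂ → ℂ), D.Hol2 g → ((f : D.L2) : ℂ → ℂ) =ᵐ[volume.restrict D.U] g →
      ∀ t : Fin k → ℂ, (∀ j, t j = Complex.exp (Complex.I *
        (N * ps.c (ps.bd (some j)) + y (ps.bd (some j)) : ℝ) + w j)) →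
      D.LtBd τ z₀ t g
        (C * (N * ‖D.Toe (fun z => Complex.exp (lS h ps N y w z)) f‖ + ‖f‖ / N ^ K)) ∧
      ‖sfun D τ t g‖ ≤
        C * (N * ‖D.Toe (fun z => Complex.exp (lS h ps N y w z)) f‖ + ‖f‖ / N ^ K) := by
  have hUe := D.Ue_open δ
  have hcU := D.cU_subset_Ue hδ
  obtain ⟨-, -, hvv, -⟩ := rho_facts h hτ hδ x 0
  have hns : ∀ i, ∃ C : ℝ, ∀ N : ℝ, 1 ≤ N → ∀ (y : ι → ℝ) (w : Fin k → ℂ),
      (∀ i, |y i| ≤ Λ) → (∀ j, ‖w j‖ ≤ Λ) → ∀ f g : ℂ → ℂ, D.Hol2 f → D.Hol2 g →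
      ‖∫ z in D.U, Complex.exp (lS h ps N y w z) *
        D.U.indicator (fun z => dzb (fun u => (ps.chi i u : ℂ)) z * 1) z * f z * conj (g z)‖ ≤
        C / N ^ K * Real.sqrt (∫ z in D.U, ‖f z‖ ^ 2) * Real.sqrt (∫ z in D.U, ‖g z‖ ^ 2) :=
    fun i => nonstat_op hτ hδ hδτ h hx ps
      (PS.isTest_dz hτ hδ h ps i (F := fun _ => 1) contDiffOn_const).2.1
      (PS.isTest_dz hτ hδ h ps i (F := fun _ => 1) contDiffOn_const).2.2.1 Λ K
  choose C hC using hns
  obtain ⟨C₁, hC₁0, hC₁⟩ := poincare D hz₀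
  -- bounds for the coefficients
  obtain ⟨V, hV⟩ := D.cU_compact.exists_bound_of_continuousOn (hvv.continuousOn.mono hcU)
  have hW : ∀ j, ∃ W, ∀ z ∈ D.cU, ‖h.v j z‖ ≤ W := fun j =>
    D.cU_compact.exists_bound_of_continuousOn ((h.hol j).continuousOn.mono hcU)
  choose W hW using hW
  set V' : ℝ := |V| + ∑ j, |Λ| * |W j| with hV'
  have hV'0 : 0 ≤ V' := by positivity
  set A : ℝ := ∑ i, |Λ| * |C i| with hA
  have hA0 : 0 ≤ A := by positivity
  -- the main estimate
  have core : ∀ N : ℝ, 1 ≤ N → ∀ (y : ι → ℝ) (w : Fin k → ℂ), (∀ i, |y i| ≤ Λ) →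
      (∀ j, ‖w j‖ ≤ Λ) →
      Complex.exp (Complex.I * (N * ps.c (ps.bd none) + y (ps.bd none) : ℝ)) = 1 →
      ∀ (f : D.Berg) (g : ℂ → ℂ), D.Hol2 g → ((f : D.L2) : ℂ → ℂ) =ᵐ[volume.restrict D.U] g →
      ∀ t : Fin k → ℂ, (∀ j, t j = Complex.exp (Complex.I *
        (N * ps.c (ps.bd (some j)) + y (ps.bd (some j)) : ℝ) + w j)) →
      ∀ V₁ : Set ℂ, IsOpen V₁ → D.cU ⊆ V₁ → V₁ ⊆ D.Ue δ →
      ∀ a : ℂ → ℂ, DifferentiableOn ℂ a V₁ → ∀ Q : ℝ,
      Real.sqrt (∫ z in D.U, ‖a z‖ ^ 2) ≤ Q → Real.sqrt (∫ z in D.U, ‖deriv a z‖ ^ 2) ≤ Q →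
      ‖D.Lt τ t g a‖ ≤ (1 + V' + A) * (N * ‖D.Toe (fun z => Complex.exp (lS h ps N y w z)) f‖ +
        ‖f‖ / N ^ K) * Q := by
    intro N hN y w hy hw hnone f g hg hfg t ht V₁ hVo hcV hVU a ha Q hQ hQ'
    have hNpos : 0 < N := by linarith
    have hQ0 : 0 ≤ Q := (Real.sqrt_nonneg _).trans hQ
    have hΛ : 0 ≤ Λ := (abs_nonneg _).trans (hy (ps.bd none))
    have hScU : ContinuousOn (fun z => Complex.exp (lS h ps N y w z)) D.cU :=
      (lS_smooth hτ hδ h ps N y w).cexp.continuousOn.mono hcU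
    have ha' : DifferentiableOn ℂ (deriv a) V₁ := ha.deriv hVo
    have ha2 : D.Hol2 a := hol2_of_nhds D hVo hcV ha
    have ha2' : D.Hol2 (deriv a) := hol2_of_nhds D hVo hcV ha'
    set b : ℂ → ℂ := fun z => -(Complex.I * N * h.vv x z) + ∑ j, conj (w j) * h.v j z with hb
    have hbd : DifferentiableOn ℂ b (D.Ue δ) := by
      refine ((hvv.const_mul (Complex.I * N)).neg).add ?_
      exact DifferentiableOn.fun_sum fun j _ => (h.hol j).const_mul _
    have hq2 : D.Hol2 (fun z => deriv a z + b z * a z) :=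
      hol2_of_nhds D hVo hcV (ha'.add ((hbd.mono hVU).mul ha))
    have hbN : ∀ z ∈ D.U, ‖b z‖ ≤ N * V' := by
      intro z hz
      have hzc := D.U_subset_cU hz
      have e1 : ‖∑ j, conj (w j) * h.v j z‖ ≤ ∑ j, |Λ| * |W j| := by
        refine (norm_sum_le _ _).trans (Finset.sum_le_sum fun j _ => ?_)
        rw [norm_mul, RCLike.norm_conj]
        exact mul_le_mul ((hw j).trans (le_abs_self _)) ((hW j z hzc).trans (le_abs_self _))
          (norm_nonneg _) (abs_nonneg _)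
      have e2 : ‖-(Complex.I * N * h.vv x z)‖ ≤ N * |V| := by
        rw [norm_neg, norm_mul, norm_mul, Complex.norm_I, one_mul, Complex.norm_real,
          Real.norm_of_nonneg hNpos.le]
        exact mul_le_mul_of_nonneg_left ((hV z hzc).trans (le_abs_self _)) hNpos.le
      have e3 : (0 : ℝ) ≤ ∑ j, |Λ| * |W j| := by positivity
      calc ‖b z‖ ≤ N * |V| + ∑ j, |Λ| * |W j| := (norm_add_le _ _).trans (add_le_add e2 e1)
        _ ≤ N * |V| + N * ∑ j, |Λ| * |W j| := by nlinarith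
        _ = N * V' := by rw [hV']; ring
    have hqn : Real.sqrt (∫ z in D.U, ‖deriv a z + b z * a z‖ ^ 2) ≤ N * (1 + V') * Q := by
      have e1 := sqrt_int_add D ha2'.memLp
        (cont_memLp D (((hbd.mono hVU).mul ha).continuousOn.mono hcV))
      have e2 := sqrt_int_mul_le D ha2.memLp hbN (by positivity)
      have e3 : N * V' * Real.sqrt (∫ z in D.U, ‖a z‖ ^ 2) ≤ N * V' * Q := by gcongr
      have e4 : Q ≤ N * Q := by nlinarith
      calc _ ≤ Real.sqrt (∫ z in D.U, ‖deriv a z‖ ^ 2) +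
            Real.sqrt (∫ z in D.U, ‖b z * a z‖ ^ 2) := e1
        _ ≤ N * Q + N * V' * Q := add_le_add (hQ'.trans e4) (e2.trans e3)
        _ = N * (1 + V') * Q := by ring
    rw [e5b_formula hτ hδ h ps N y w hnone ht hg hVo hcV hVU ha]
    have hfn : ‖f‖ = Real.sqrt (∫ z in D.U, ‖g z‖ ^ 2) := L2_norm D (f : D.L2) hfg
    set T : ℝ := ‖D.Toe (fun z => Complex.exp (lS h ps N y w z)) f‖ with hT
    have hT0 : 0 ≤ T := norm_nonneg _
    have hf0 : 0 ≤ ‖f‖ := norm_nonneg _
    have t1 : ‖∫ z in D.U, Complex.exp (lS h ps N y w z) * g z *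
        conj (deriv a z + b z * a z)‖ ≤ T * (N * (1 + V') * Q) :=
      (toe_pair_le D hScU f hfg hq2).trans (mul_le_mul_of_nonneg_left hqn hT0)
    have t2 : ‖∑ i, (Complex.I * y i) * ∫ z in D.U, Complex.exp (lS h ps N y w z) *
        D.U.indicator (fun z => dzb (fun u => (ps.chi i u : ℂ)) z * 1) z * g z * conj (a z)‖ ≤
        A * (‖f‖ / N ^ K) * Q := by
      rw [hA, Finset.sum_mul, Finset.sum_mul]
      refine (norm_sum_le _ _).trans (Finset.sum_le_sum fun i _ => ?_)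
      rw [norm_mul, norm_mul, Complex.norm_I, one_mul, Complex.norm_real]
      have h3 := hC i N hN y w hy hw g a hg ha2
      rw [← hfn] at h3
      have h4 : ‖y i‖ ≤ |Λ| := (hy i).trans (le_abs_self _)
      calc ‖y i‖ * _ ≤ |Λ| * (C i / N ^ K * ‖f‖ * Real.sqrt (∫ z in D.U, ‖a z‖ ^ 2)) :=
            mul_le_mul h4 h3 (norm_nonneg _) (abs_nonneg _)
        _ ≤ |Λ| * (|C i| / N ^ K * ‖f‖ * Q) := by
            gcongr
            exact le_abs_self _
        _ = |Λ| * |C i| * (‖f‖ / N ^ K) * Q := by ring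
    have hK0 : 0 ≤ ‖f‖ / N ^ K := by positivity
    calc _ ≤ T * (N * (1 + V') * Q) + A * (‖f‖ / N ^ K) * Q :=
          (norm_add_le _ _).trans (add_le_add t1 t2)
      _ ≤ (1 + V' + A) * (N * T + ‖f‖ / N ^ K) * Q := by
          have e1 : 0 ≤ A * (N * T) * Q := by positivity
          have e2 : 0 ≤ (1 + V') * (‖f‖ / N ^ K) * Q := by positivity
          nlinarith
  -- the two special cases
  set v : ℝ := Real.sqrt (∫ z in D.U, ‖(fun _ => 1 : ℂ → ℂ) z‖ ^ 2) with hv
  have hv0 : 0 ≤ v := Real.sqrt_nonneg _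
  refine ⟨(1 + V' + A) * (1 + C₁) + (1 + V' + A) * v, by positivity, ?_⟩
  intro N hN y w hy hw hnone f g hg hfg t ht
  have hNpos : 0 < N := by linarith
  have hB0 : 0 ≤ N * ‖D.Toe (fun z => Complex.exp (lS h ps N y w z)) f‖ + ‖f‖ / N ^ K := by
    positivity
  constructor
  · intro a ha
    obtain ⟨δ', hδ', had⟩ := ha.ex
    have hm : 0 < min δ δ' := lt_min hδ hδ'
    set Q : ℝ := Real.sqrt (∫ z in D.U, ‖deriv a z‖ ^ 2) with hQ
    have hQ0 : 0 ≤ Q := Real.sqrt_nonneg _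
    have b1 : Real.sqrt (∫ z in D.U, ‖a z‖ ^ 2) ≤ (1 + C₁) * Q := by
      have := hC₁ a ha
      nlinarith
    have b2 : Real.sqrt (∫ z in D.U, ‖deriv a z‖ ^ 2) ≤ (1 + C₁) * Q := by
      rw [← hQ]
      nlinarith
    have h1 := core N hN y w hy hw hnone f g hg hfg t ht (D.Ue (min δ δ')) (D.Ue_open _)
      (D.cU_subset_Ue hm) (D.Ue_mono (min_le_left _ _)) a
      (had.mono (D.Ue_mono (min_le_right _ _))) _ b1 b2
    refine h1.trans ?_
    have e1 : 0 ≤ (1 + V' + A) * v * (N * ‖D.Toe (fun z => Complex.exp (lS h ps N y w z)) f‖ +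
        ‖f‖ / N ^ K) * Q := by positivity
    calc _ = (1 + V' + A) * (1 + C₁) * (N * ‖D.Toe (fun z =>
          Complex.exp (lS h ps N y w z)) f‖ + ‖f‖ / N ^ K) * Q := by ring
      _ ≤ (1 + V' + A) * (1 + C₁) * (N * ‖D.Toe (fun z =>
          Complex.exp (lS h ps N y w z)) f‖ + ‖f‖ / N ^ K) * Q + (1 + V' + A) * v *
          (N * ‖D.Toe (fun z => Complex.exp (lS h ps N y w z)) f‖ + ‖f‖ / N ^ K) * Q :=
          le_add_of_nonneg_right e1
      _ = _ := by ring
  · rw [← Lt_one D hτ t hg]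
    have h2 : Real.sqrt (∫ z in D.U, ‖deriv (fun _ => (1 : ℂ)) z‖ ^ 2) ≤ v := by
      simp only [deriv_const, norm_zero]
      simpa using hv0
    have h1 := core N hN y w hy hw hnone f g hg hfg t ht (D.Ue δ) hUe hcU le_rfl (fun _ => 1)
      (differentiableOn_const 1) v le_rfl h2
    refine h1.trans ?_
    have e1 : 0 ≤ (1 + V' + A) * (1 + C₁) * (N * ‖D.Toe (fun z =>
        Complex.exp (lS h ps N y w z)) f‖ + ‖f‖ / N ^ K) := by positivity
    calc _ = (1 + V' + A) * v * (N * ‖D.Toe (fun z =>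
          Complex.exp (lS h ps N y w z)) f‖ + ‖f‖ / N ^ K) := by ring
      _ ≤ (1 + V' + A) * (1 + C₁) * (N * ‖D.Toe (fun z =>
          Complex.exp (lS h ps N y w z)) f‖ + ‖f‖ / N ^ K) + (1 + V' + A) * v *
          (N * ‖D.Toe (fun z => Complex.exp (lS h ps N y w z)) f‖ + ‖f‖ / N ^ K) :=
          le_add_of_nonneg_left e1
      _ = _ := by ring

end

end Pool.Agent.KA
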