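import Pool.Agent.Helper7.KE.B5
import Pool.Agent.Helper7.KE.C0a
import Pool.Agent.Helper9.KA.D5b
import Pool.Agent.Helper9.KA.E5aux

set_option autoImplicit false

open MeasureTheory Set Filter Asymptotics Topology Metric
open scoped ComplexConjugate ENNReal

namespace Pool.Agent.KA

open Pool.Agent.Helper7.KE hiding HM PS Bv sfun FF tt lS
open Pool.Agent.EN (AJ ann ann2)

section
variable {k : ℕ} {D : AJ k} {τ δ : ℝ} {ι : Type} [Fintype ι] [DecidableEq ι]

theorem exp_lS_split (h : HM D τ δ) {ρ : ℂ → ℝ} (ps : PS D ρ ι) (N : ℝ) (y : ι → ℝ)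
    (w : Fin k → ℂ) (z : ℂ) {i : ι} (h1 : ps.chi i z = 1) :
    Complex.exp (lS h ps N y w z) =
      ∑ j, Complex.exp (Complex.I * y j) *
        ((ps.chi j z : ℂ) * Complex.exp (lS h ps N 0 w z)) := by
  have h0 : ∀ j, j ≠ i → ps.chi j z = 0 := by
    intro j hj
    have hz : z ∈ tsupport (ps.chi i) := by
      apply subset_tsupport
      rw [Function.mem_support, h1]
      exact one_ne_zero
    have hz2 : z ∉ tsupport (ps.chi j) := fun h2 =>
      Set.disjoint_left.1 (ps.disj j i hj) h2 hz
    exact image_eq_zero_of_notMem_tsupport hz2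
  rw [Finset.sum_eq_single i]
  · rw [h1]
    have e1 : (∑ j, y j * ps.chi j z : ℝ) = y i := by
      rw [Finset.sum_eq_single i]
      · rw [h1, mul_one]
      · intro j _ hj
        rw [h0 j hj, mul_zero]
      · intro hi
        exact absurd (Finset.mem_univ i) hi
    have e2 : (∑ j, (0 : ι → ℝ) j * ps.chi j z : ℝ) = 0 := by simp
    rw [lS, lS, e1, e2, Complex.ofReal_one, one_mul, ← Complex.exp_add]
    congr 1
    push_cast
    ring
  · intro j _ hj
    rw [h0 j hj]
    simp
  · intro hi
    exact absurd (Finset.mem_univ i) hi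

/-- the actual forms and the virtual forms agree up to `O(N^{-∞})` -/
theorem virtual_approx (hτ : D.Good τ) (hδ : 0 < δ) (hδτ : δ ≤ τ) (h : HM D τ δ)
    {x : Fin k → ℝ} (hx : x ≠ 0) (ps : PS D (h.rho x) ι) (Λ : ℝ) (m : ℕ)
    {K : Type} [TopologicalSpace K] [CompactSpace K] {g : K → ℂ → ℂ}
    (hg : ContinuousOn (fun p : K × ℂ => g p.1 p.2) (univ ×ˢ D.Ue δ))
    (hg' : ∀ u, DifferentiableOn ℂ (g u) (D.Ue δ)) {q : ℂ → ℂ}
    (hq : DifferentiableOn ℂ q (D.Ue δ)) :
    ∃ C : ℝ, ∀ N : ℝ, 1 ≤ N → ∀ (y φ : ι → ℝ) (w : Fin k → ℂ), (∀ i, |y i| ≤ Λ) →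
      (∀ j, ‖w j‖ ≤ Λ) →
      (∀ i, Complex.exp (Complex.I * (N * ps.c i + y i : ℝ)) = Complex.exp (Complex.I * φ i)) →
      ∀ u : K, ‖(∫ z in D.U, Complex.exp (lS h ps N y w z) * g u z * conj (q z)) -
        Bv h ps N φ w (g u) q‖ ≤ C / N ^ m := by
  have hfacts := rho_facts h hτ hδ x (fun _ => 0)
  obtain ⟨hρ, -, hvv, hdρ, -⟩ := hfacts
  -- the open set of noncritical points
  set V : Set ℂ := D.U ∩ {z | h.vv x z ≠ 0} with hVdef
  have hUUe : D.U ⊆ D.Ue δ := D.U_subset_cU.trans (D.cU_subset_Ue hδ)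
  have hVopen : IsOpen V :=
    (hvv.continuousOn.mono hUUe).isOpen_inter_preimage D.U_open isOpen_compl_singleton
  have hVU : V ⊆ D.Ue δ := inter_subset_left.trans hUUe
  -- the set where the cutoff functions are not locally one
  set W : Set ℂ := ⋃ i, interior {z | ps.chi i z = 1} with hWdef
  have hWopen : IsOpen W := isOpen_iUnion fun i => isOpen_interior
  have hLc : IsCompact (D.cU \ W) := D.cU_compact.diff hWopen
  have hLV : D.cU \ W ⊆ V := by
    rintro z ⟨hz, hzW⟩
    have hmemW : ∀ i, (∀ᶠ w in 𝓝 z, ps.chi i w = 1) → z ∈ W := fun i hi =>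
      mem_iUnion.2 ⟨i, mem_interior_iff_mem_nhds.2 hi⟩
    refine ⟨?_, ?_⟩
    · rcases (mem_cU_iff D z).1 hz with h1 | ⟨l, hl⟩
      · exact h1
      · exact absurd (hmemW _ (ps.bd_near l z hl)) hzW
    · intro h0
      obtain ⟨i, hi⟩ := ps.crit_near z hz (by rw [hdρ z (D.cU_subset_Ue hδ hz)]; exact h0)
      exact hzW (hmemW i hi)
  obtain ⟨β, hβ, hβ1⟩ := exists_cutoff hLc hVopen hLV
  have hgV : ContinuousOn (fun p : K × ℂ => g p.1 p.2) (univ ×ˢ V) :=
    hg.mono (prod_mono le_rfl hVU)
  have hg'V : ∀ u, DifferentiableOn ℂ (g u) V := fun u => (hg' u).mono hVU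
  have hqV := hq.mono hVU
  obtain ⟨C₀, hC₀⟩ := nonstat_unif hτ hδ h ps hVopen hVU (fun z hz => hz.2) (max Λ 0) m hgV hg'V
    hqV hβ
  have hβi : ∀ i, IsTest V (fun z => (ps.chi i z : ℂ) • β z) := fun i =>
    hβ.smul hVopen (Complex.ofRealCLM.contDiff.comp_contDiffOn (ps.smooth i).contDiffOn)
  choose C hC using fun i => nonstat_unif hτ hδ h ps hVopen hVU (fun z hz => hz.2) (max Λ 0) m
    hgV hg'V hqV (hβi i)
  refine ⟨C₀ + ∑ i, C i, fun N hN y φ w hy hw hφ u => ?_⟩
  have hN0 : (0 : ℝ) < N := by linarith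
  -- continuity of everything on the closed domain
  have hom : ContinuousOn (h.rhoC w) (D.Ue δ) :=
    (rho_facts h hτ hδ x w).2.1.continuousOn
  have hlS : ∀ y' : ι → ℝ, ContinuousOn (fun z => Complex.exp (lS h ps N y' w z)) D.cU := by
    intro y'
    refine Complex.continuous_exp.comp_continuousOn ?_
    refine ContinuousOn.add (ContinuousOn.add ?_ ?_) (hom.mono (D.cU_subset_Ue hδ))
    · exact continuousOn_const.mul (Complex.continuous_ofReal.comp_continuousOn
        (continuousOn_const.mul (hρ.continuousOn.mono (D.cU_subset_Ue hδ))))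
    · refine continuousOn_const.mul (Complex.continuous_ofReal.comp_continuousOn ?_)
      exact continuousOn_finsetSum _ fun i _ =>
        continuousOn_const.mul (ps.smooth i).continuous.continuousOn
  have hgu : ContinuousOn (g u) D.cU := (hg' u).continuousOn.mono (D.cU_subset_Ue hδ)
  have hqc : ContinuousOn (fun z => conj (q z)) D.cU :=
    Complex.continuous_conj.comp_continuousOn (hq.continuousOn.mono (D.cU_subset_Ue hδ))
  have hci : ∀ i, ContinuousOn (fun z => (ps.chi i z : ℂ)) D.cU := fun i =>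
    (Complex.continuous_ofReal.comp (ps.smooth i).continuous).continuousOn
  -- the virtual form
  have hB : Bv h ps N φ w (g u) q = ∑ i, ∫ z in D.U, Complex.exp (Complex.I * y i) *
      ((ps.chi i z : ℂ) * Complex.exp (lS h ps N 0 w z)) * g u z * conj (q z) := by
    rw [Bv]
    refine Finset.sum_congr rfl fun i _ => ?_
    rw [← hφ i, ← integral_const_mul]
    congr 1
    funext z
    have e1 : Complex.exp (Complex.I * (N * ps.c i + y i : ℝ)) *
        Complex.exp (Complex.I * (N * (h.rho x z - ps.c i) : ℝ)) * Complex.exp (h.rhoC w z) =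
        Complex.exp (Complex.I * y i) * Complex.exp (lS h ps N 0 w z) := by
      rw [← Complex.exp_add, ← Complex.exp_add, ← Complex.exp_add]
      congr 1
      rw [lS]
      have e2 : (∑ j, (0 : ι → ℝ) j * ps.chi j z : ℝ) = 0 := by simp
      rw [e2]
      push_cast
      ring
    calc Complex.exp (Complex.I * (N * ps.c i + y i : ℝ)) * ((ps.chi i z : ℂ) *
          Complex.exp (Complex.I * (N * (h.rho x z - ps.c i) : ℝ)) *
            Complex.exp (h.rhoC w z) * g u z * conj (q z))
        = (Complex.exp (Complex.I * (N * ps.c i + y i : ℝ)) *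
          Complex.exp (Complex.I * (N * (h.rho x z - ps.c i) : ℝ)) *
            Complex.exp (h.rhoC w z)) * (ps.chi i z : ℂ) * g u z * conj (q z) := by ring
      _ = _ := by rw [e1]; ring
  have hi0 : IntegrableOn (fun z => Complex.exp (lS h ps N y w z) * g u z * conj (q z)) D.U :=
    integrableOn_U D (((hlS y).mul hgu).mul hqc)
  have hi1 : ∀ i, IntegrableOn (fun z => Complex.exp (Complex.I * y i) *
      ((ps.chi i z : ℂ) * Complex.exp (lS h ps N 0 w z)) * g u z * conj (q z)) D.U := fun i =>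
    integrableOn_U D (((continuousOn_const.mul ((hci i).mul (hlS 0))).mul hgu).mul hqc)
  -- reduce to the compactly supported part
  have hβc : ContinuousOn β D.cU := hβ.smooth.continuous.continuousOn
  have hkey : ∀ z ∈ D.U, (Complex.exp (lS h ps N y w z) * g u z * conj (q z)) -
      (∑ i, Complex.exp (Complex.I * y i) *
        ((ps.chi i z : ℂ) * Complex.exp (lS h ps N 0 w z)) * g u z * conj (q z)) =
      (Complex.exp (lS h ps N y w z) * (β z * g u z * conj (q z))) -
      (∑ i, Complex.exp (Complex.I * y i) *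
        (Complex.exp (lS h ps N 0 w z) * ((ps.chi i z : ℂ) • β z * g u z * conj (q z)))) := by
    intro z hz
    by_cases hzW : z ∈ W
    · obtain ⟨i, hi⟩ := mem_iUnion.1 hzW
      have h1' : z ∈ {z | ps.chi i z = 1} := interior_subset hi
      have h1 : ps.chi i z = 1 := h1'
      have e3 := exp_lS_split h ps N y w z h1
      rw [e3, Finset.sum_mul, Finset.sum_mul, Finset.sum_mul]
      rw [sub_eq_zero.2 rfl]
      symm
      rw [sub_eq_zero]
      refine Finset.sum_congr rfl fun j _ => ?_
      rw [smul_eq_mul]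
      ring
    · rw [hβ1 z ⟨D.U_subset_cU hz, hzW⟩]
      congr 1
      · ring
      · refine Finset.sum_congr rfl fun j _ => ?_
        rw [smul_eq_mul]
        ring
  have hsupp : ∀ z, z ∉ D.U → β z = 0 := by
    intro z hz
    by_contra h0
    exact hz (hβ.supp (subset_tsupport _ h0)).1
  have hj0 : IntegrableOn (fun z => Complex.exp (lS h ps N y w z) *
      (β z * g u z * conj (q z))) D.U :=
    integrableOn_U D ((hlS y).mul ((hβc.mul hgu).mul hqc))
  have hj1 : ∀ i, IntegrableOn (fun z => Complex.exp (Complex.I * y i) *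
      (Complex.exp (lS h ps N 0 w z) * ((ps.chi i z : ℂ) • β z * g u z * conj (q z)))) D.U :=
    fun i => integrableOn_U D (continuousOn_const.mul ((hlS 0).mul
      ((((hci i).smul hβc).mul hgu).mul hqc)))
  have e4 : (∫ z in D.U, Complex.exp (lS h ps N y w z) * g u z * conj (q z)) -
        Bv h ps N φ w (g u) q =
      (∫ z, Complex.exp (lS h ps N y w z) * (β z * g u z * conj (q z))) -
      ∑ i, Complex.exp (Complex.I * y i) *
        ∫ z, Complex.exp (lS h ps N 0 w z) * ((ps.chi i z : ℂ) • β z * g u z * conj (q z)) := by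
    rw [hB, ← integral_finsetSum _ (fun i _ => hi1 i), ← integral_sub hi0
      (integrable_finsetSum _ fun i _ => hi1 i)]
    rw [setIntegral_congr_fun D.U_open.measurableSet hkey, integral_sub hj0
      (integrable_finsetSum _ fun i _ => hj1 i), integral_finsetSum _ (fun i _ => hj1 i)]
    congr 1
    · exact setIntegral_eq_integral_of_forall_compl_eq_zero fun z hz => by
        rw [hsupp z hz]; simp
    · refine Finset.sum_congr rfl fun i _ => ?_
      rw [integral_const_mul]
      congr 1
      exact setIntegral_eq_integral_of_forall_compl_eq_zero fun z hz => by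
        rw [hsupp z hz]; simp
  rw [e4]
  have hy' : ∀ i, |y i| ≤ max Λ 0 := fun i => (hy i).trans (le_max_left _ _)
  have hw' : ∀ j, ‖w j‖ ≤ max Λ 0 := fun j => (hw j).trans (le_max_left _ _)
  have h0' : ∀ i, |(0 : ι → ℝ) i| ≤ max Λ 0 := fun i => by simp
  have b0 := hC₀ N hN y w hy' hw' u
  have b1 := fun i => hC i N hN 0 w h0' hw' u
  calc _ ≤ C₀ / N ^ m + ∑ i, C i / N ^ m := by
        refine (norm_sub_le _ _).trans (add_le_add b0 ?_)
        refine (norm_sum_le _ _).trans (Finset.sum_le_sum fun i _ => ?_)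
        rw [norm_mul, mul_comm Complex.I, Complex.norm_exp_ofReal_mul_I, one_mul]
        exact b1 i
    _ = (C₀ + ∑ i, C i) / N ^ m := by rw [add_div, Finset.sum_div]

end

end Pool.Agent.KA
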