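import Pool.Agent.Helper9.KA.C4b
import Pool.Agent.Helper9.KA.D5a

set_option autoImplicit false

open MeasureTheory Set Filter Asymptotics Topology Metric
open scoped ComplexConjugate ENNReal

namespace Pool.Agent.KA

open Pool.Agent.Helper7.KE hiding HM PS Bv sfun FF tt lS
open Pool.Agent.EN (AJ ann ann2)

section
variable {k : ℕ} {D : AJ k} {τ δ : ℝ} {ι : Type} [Fintype ι] [DecidableEq ι]

private theorem e5d_ofReal {V : Set ℂ} {f : ℂ → ℝ} (hf : ContDiffOn ℝ (⊤ : ℕ∞) f V) :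
    ContDiffOn ℝ (⊤ : ℕ∞) (fun z => (f z : ℂ)) V :=
  Complex.ofRealCLM.contDiff.comp_contDiffOn hf

private theorem e5d_rho_smooth (h : HM D τ δ) (x : Fin k → ℝ) :
    ContDiffOn ℝ (⊤ : ℕ∞) (h.rho x) (D.Ue δ) := by
  unfold HM.rho
  exact ContDiffOn.sum fun j _ => contDiffOn_const.mul (h.smooth j)

private theorem e5d_rhoC_smooth (h : HM D τ δ) (w : Fin k → ℂ) :
    ContDiffOn ℝ (⊤ : ℕ∞) (h.rhoC w) (D.Ue δ) := by
  unfold HM.rhoC
  exact ContDiffOn.sum fun j _ => contDiffOn_const.mul (e5d_ofReal (h.smooth j))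

/-- the exponent is smooth near the closed domain -/
theorem e5d_lS_smooth (h : HM D τ δ) {x : Fin k → ℝ} (ps : PS D (h.rho x) ι) (N : ℝ) (y : ι → ℝ)
    (w : Fin k → ℂ) : ContDiffOn ℝ (⊤ : ℕ∞) (lS h ps N y w) (D.Ue δ) := by
  unfold lS
  refine (ContDiffOn.add ?_ ?_).add (e5d_rhoC_smooth h w)
  · exact contDiffOn_const.mul (e5d_ofReal (contDiffOn_const.mul (e5d_rho_smooth h x)))
  · refine contDiffOn_const.mul (e5d_ofReal ?_)
    exact ContDiffOn.sum fun i _ => contDiffOn_const.mul (ps.smooth i).contDiffOn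

private theorem e5d_bound {V : Set ℂ} (hV : IsOpen V) (hcV : D.cU ⊆ V) {F : ℂ → ℂ}
    (hF : ContDiffOn ℝ (⊤ : ℕ∞) F V) : ∃ C : ℝ, 0 ≤ C ∧ ∀ z ∈ D.cU, ‖dzb F z‖ ≤ C := by
  obtain ⟨C, hC⟩ := D.cU_compact.exists_bound_of_continuousOn
    ((dz_contDiffOn hV hF).2.continuousOn.mono hcV)
  exact ⟨max C 0, le_max_right _ _, fun z hz => (hC z hz).trans (le_max_left _ _)⟩

private theorem e5d_dzb_lS (hδ : 0 < δ) (h : HM D τ δ) {x : Fin k → ℝ} (ps : PS D (h.rho x) ι) (N : ℝ)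
    (y : ι → ℝ) (w : Fin k → ℂ) {z : ℂ} (hz : z ∈ D.cU) :
    dzb (lS h ps N y w) z = Complex.I * (N * dzb (fun u => (h.rho x u : ℂ)) z) +
      Complex.I * (∑ i, y i * dzb (fun u => (ps.chi i u : ℂ)) z) +
      ∑ j, w j * dzb (fun u => (h.om j u : ℂ)) z := by
  have hzU : z ∈ D.Ue δ := D.cU_subset_Ue hδ hz
  have hO : D.Ue δ ∈ 𝓝 z := (D.Ue_open δ).mem_nhds hzU
  have hd : ∀ {F : ℂ → ℂ}, ContDiffOn ℝ (⊤ : ℕ∞) F (D.Ue δ) → DifferentiableAt ℝ F z :=
    fun hF => (hF.contDiffAt hO).differentiableAt (by simp)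
  have d1 : DifferentiableAt ℝ (fun u => (h.rho x u : ℂ)) z := hd (e5d_ofReal (e5d_rho_smooth h x))
  have d2 : ∀ i, DifferentiableAt ℝ (fun u => (ps.chi i u : ℂ)) z := fun i =>
    hd (e5d_ofReal (ps.smooth i).contDiffOn)
  have d3 : ∀ j, DifferentiableAt ℝ (fun u => (h.om j u : ℂ)) z := fun j =>
    hd (e5d_ofReal (h.smooth j))
  have e0 : lS h ps N y w = fun u => ((Complex.I * N) • (h.rho x u : ℂ) +
      ∑ i, (Complex.I * y i) • (ps.chi i u : ℂ)) + ∑ j, (w j) • (h.om j u : ℂ) := by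
    funext u
    simp only [lS, HM.rhoC, smul_eq_mul]
    push_cast
    rw [Finset.mul_sum]
    congr 2
    · ring
    · exact Finset.sum_congr rfl fun i _ => by ring
  have hc : ∀ (c : ℂ) {F : ℂ → ℂ}, DifferentiableAt ℝ F z →
      dzb (fun u => c • F u) z = c • dzb F z := by
    intro c F hF
    have h1 := (dz_smul (f := fun _ => c) (F := F) (z := z) (differentiableAt_const c) hF).2
    rw [h1, (dz_const (c := c) (z := z)).2]
    simp
  have c1 : DifferentiableAt ℝ (fun u => (Complex.I * N) • (h.rho x u : ℂ)) z :=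
    DifferentiableAt.fun_const_smul d1 _
  have c2 : ∀ i ∈ Finset.univ, DifferentiableAt ℝ (fun u => (Complex.I * y i) • (ps.chi i u : ℂ)) z :=
    fun i _ => DifferentiableAt.fun_const_smul (d2 i) _
  have c3 : ∀ j ∈ Finset.univ, DifferentiableAt ℝ (fun u => (w j) • (h.om j u : ℂ)) z :=
    fun j _ => DifferentiableAt.fun_const_smul (d3 j) _
  rw [e0]
  have s2 : DifferentiableAt ℝ (fun u => ∑ i, (Complex.I * y i) • (ps.chi i u : ℂ)) z :=
    DifferentiableAt.fun_sum c2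
  have s3 : DifferentiableAt ℝ (fun u => ∑ j, (w j) • (h.om j u : ℂ)) z :=
    DifferentiableAt.fun_sum c3
  rw [(dz_add (F := fun u => (Complex.I * N) • (h.rho x u : ℂ) +
      ∑ i, (Complex.I * y i) • (ps.chi i u : ℂ)) (c1.fun_add s2) s3).2, (dz_add c1 s2).2, (dz_sum Finset.univ c2).2,
    (dz_sum Finset.univ c3).2, hc _ d1]
  have t2 : ∑ i, dzb (fun u => (Complex.I * y i) • (ps.chi i u : ℂ)) z =
      Complex.I * ∑ i, y i * dzb (fun u => (ps.chi i u : ℂ)) z := by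
    rw [Finset.mul_sum]
    refine Finset.sum_congr rfl fun i _ => ?_
    rw [hc _ (d2 i), smul_eq_mul]
    ring
  have t3 : ∑ j, dzb (fun u => (w j) • (h.om j u : ℂ)) z =
      ∑ j, w j * dzb (fun u => (h.om j u : ℂ)) z := by
    refine Finset.sum_congr rfl fun j _ => ?_
    rw [hc _ (d3 j), smul_eq_mul]
  rw [t2, t3, smul_eq_mul]
  ring

/-- from a lower bound for `T_S` on the Bergman space to a lower bound for `1 - T M_b` -/
theorem inverse_bound (hδ : 0 < δ) (h : HM D τ δ) {x : Fin k → ℝ} (ps : PS D (h.rho x) ι)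
    {T : D.L2 →L[ℂ] D.L2} (hT : D.IsKohn T) (Λ : ℝ) :
    ∃ C : ℝ, 0 < C ∧ ∀ N : ℝ, 1 ≤ N → ∀ (y : ι → ℝ) (w : Fin k → ℂ) (M : ℝ), (∀ i, |y i| ≤ Λ) →
      (∀ j, ‖w j‖ ≤ Λ) → 1 ≤ M →
      (∀ f : D.Berg, ‖f‖ ≤ M * ‖D.Toe (fun z => Complex.exp (lS h ps N y w z)) f‖) →
      ∀ f : D.L2, ‖f‖ ≤ C * N * M * ‖f - T (D.Mul (dzb (lS h ps N y w)) f)‖ := by
  have hO := D.Ue_open δ
  have hcO := D.cU_subset_Ue hδ
  obtain ⟨Bρ, hBρ0, hBρ⟩ := e5d_bound hO hcO (e5d_ofReal (e5d_rho_smooth h x))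
  have hχ : ∀ i, ∃ C : ℝ, 0 ≤ C ∧ ∀ z ∈ D.cU, ‖dzb (fun u => (ps.chi i u : ℂ)) z‖ ≤ C := fun i =>
    e5d_bound hO hcO (e5d_ofReal (ps.smooth i).contDiffOn)
  choose Bχ hBχ0 hBχ using hχ
  have hom : ∀ j, ∃ C : ℝ, 0 ≤ C ∧ ∀ z ∈ D.cU, ‖dzb (fun u => (h.om j u : ℂ)) z‖ ≤ C := fun j =>
    e5d_bound hO hcO (e5d_ofReal (h.smooth j))
  choose Bom hBom0 hBom using hom
  have hom' : ∀ j, ∃ C : ℝ, 0 ≤ C ∧ ∀ z ∈ D.cU, |h.om j z| ≤ C := fun j => by
    obtain ⟨C, hC⟩ := D.cU_compact.exists_bound_of_continuousOn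
      ((h.smooth j).continuousOn.mono hcO)
    exact ⟨max C 0, le_max_right _ _, fun z hz => (hC z hz).trans (le_max_left _ _)⟩
  choose Bo hBo0 hBo using hom'
  set A : ℝ := Real.exp (∑ j, |Λ| * Bo j) with hA
  have hA0 : 0 < A := Real.exp_pos _
  set C2 : ℝ := Bρ + ∑ i, |Λ| * Bχ i + ∑ j, |Λ| * Bom j with hC2
  have hC20 : 0 ≤ C2 := by
    have h1 : 0 ≤ ∑ i, |Λ| * Bχ i :=
      Finset.sum_nonneg fun i _ => mul_nonneg (abs_nonneg _) (hBχ0 i)
    have h2 : 0 ≤ ∑ j, |Λ| * Bom j :=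
      Finset.sum_nonneg fun i _ => mul_nonneg (abs_nonneg _) (hBom0 i)
    positivity
  refine ⟨A ^ 3 * ‖T‖ * C2 + A ^ 2 * ‖T‖ * C2 + 1, by positivity, ?_⟩
  intro N hN y w M hy hw hM hlow f
  set l := lS h ps N y w with hl
  have hls : ContDiffOn ℝ (⊤ : ℕ∞) l (D.Ue δ) := e5d_lS_smooth h ps N y w
  have hΛ : Λ ≤ |Λ| := le_abs_self Λ
  -- bounds
  have hre : ∀ z ∈ D.cU, |(l z).re| ≤ ∑ j, |Λ| * Bo j := by
    intro z hz
    have h1 : (l z).re = (h.rhoC w z).re := by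
      simp only [hl, lS, Complex.add_re, Complex.mul_re, Complex.I_re, Complex.I_im,
        Complex.ofReal_re, Complex.ofReal_im]
      ring
    rw [h1]
    refine (Complex.abs_re_le_norm _).trans ?_
    unfold HM.rhoC
    refine (norm_sum_le _ _).trans (Finset.sum_le_sum fun j _ => ?_)
    rw [norm_mul, Complex.norm_real, Real.norm_eq_abs]
    exact mul_le_mul ((hw j).trans hΛ) (hBo j z hz) (abs_nonneg _) (abs_nonneg _)
  have hS : ∀ z ∈ D.cU, ‖Complex.exp (l z)‖ ≤ A := by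
    intro z hz
    rw [Complex.norm_exp]
    exact Real.exp_le_exp.2 ((le_abs_self _).trans (hre z hz))
  have hSi : ∀ z ∈ D.cU, ‖Complex.exp (-(l z))‖ ≤ A := by
    intro z hz
    rw [Complex.norm_exp, Complex.neg_re]
    exact Real.exp_le_exp.2 ((neg_le_abs _).trans (hre z hz))
  have hb : ∀ z ∈ D.cU, ‖dzb l z‖ ≤ C2 * N := by
    intro z hz
    rw [hl, e5d_dzb_lS hδ h ps N y w hz]
    have e1 : ‖Complex.I * (N * dzb (fun u => (h.rho x u : ℂ)) z)‖ ≤ Bρ * N := by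
      rw [norm_mul, Complex.norm_I, one_mul, norm_mul, Complex.norm_real, Real.norm_eq_abs,
        abs_of_nonneg (by linarith), mul_comm]
      exact mul_le_mul_of_nonneg_right (hBρ z hz) (by linarith)
    have e2 : ‖Complex.I * (∑ i, y i * dzb (fun u => (ps.chi i u : ℂ)) z)‖ ≤
        (∑ i, |Λ| * Bχ i) * N := by
      rw [norm_mul, Complex.norm_I, one_mul]
      refine (norm_sum_le _ _).trans ?_
      have : ∑ i, ‖(y i : ℂ) * dzb (fun u => (ps.chi i u : ℂ)) z‖ ≤ ∑ i, |Λ| * Bχ i := by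
        refine Finset.sum_le_sum fun i _ => ?_
        rw [norm_mul, Complex.norm_real, Real.norm_eq_abs]
        exact mul_le_mul ((hy i).trans hΛ) (hBχ i z hz) (norm_nonneg _) (abs_nonneg _)
      refine this.trans (le_mul_of_one_le_right ?_ hN)
      exact Finset.sum_nonneg fun i _ => mul_nonneg (abs_nonneg _) (hBχ0 i)
    have e3 : ‖∑ j, w j * dzb (fun u => (h.om j u : ℂ)) z‖ ≤ (∑ j, |Λ| * Bom j) * N := by
      refine (norm_sum_le _ _).trans ?_
      have : ∑ j, ‖w j * dzb (fun u => (h.om j u : ℂ)) z‖ ≤ ∑ j, |Λ| * Bom j := by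
        refine Finset.sum_le_sum fun i _ => ?_
        rw [norm_mul]
        exact mul_le_mul ((hw i).trans hΛ) (hBom i z hz) (norm_nonneg _) (abs_nonneg _)
      refine this.trans (le_mul_of_one_le_right ?_ hN)
      exact Finset.sum_nonneg fun i _ => mul_nonneg (abs_nonneg _) (hBom0 i)
    refine (norm_add₃_le).trans ?_
    rw [hC2]
    linarith
  -- the functions
  set si : ℂ → ℂ := fun z => Complex.exp (-(l z)) with hsi
  have hsis : ContDiffOn ℝ (⊤ : ℕ∞) si (D.Ue δ) := hls.neg.cexp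
  have hss : ContDiffOn ℝ (⊤ : ℕ∞) (fun z => Complex.exp (l z)) (D.Ue δ) := hls.cexp
  have hbs : ContDiffOn ℝ (⊤ : ℕ∞) (dzb l) (D.Ue δ) := (dz_contDiffOn hO hls).2
  have csi : ContinuousOn si D.cU := hsis.continuousOn.mono hcO
  have cS : ContinuousOn (fun z => Complex.exp (l z)) D.cU := hss.continuousOn.mono hcO
  have cb : ContinuousOn (dzb l) D.cU := hbs.continuousOn.mono hcO
  have csib : ContinuousOn (fun z => si z * dzb l z) D.cU := csi.mul cb
  have cdsi : ContinuousOn (dzb si) D.cU := (dz_contDiffOn hO hsis).2.continuousOn.mono hcO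
  have hdsi : ∀ z ∈ D.U, dzb si z = (-1) * (si z * dzb l z) := by
    intro z hz
    have hzU : z ∈ D.Ue δ := hcO (D.U_subset_cU hz)
    have hd : DifferentiableAt ℝ l z :=
      (hls.contDiffAt (hO.mem_nhds hzU)).differentiableAt (by simp)
    have h1 := (dz_cexp (f := fun z => -(l z)) (z := z) hd.neg).2
    rw [hsi, h1, (dz_neg (F := l) (z := z)).2]
    ring
  have eM1 : D.Mul (dzb si) = (-1 : ℂ) • D.Mul (fun z => si z * dzb l z) := by
    rw [← mul_smul' D csib]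
    exact mul_congr D cdsi (continuousOn_const.mul csib) hdsi
  -- norms
  have nS : ‖D.Mul (fun z => Complex.exp (l z))‖ ≤ A :=
    D.Mul_norm_le cS (fun z hz => hS z (D.U_subset_cU hz)) hA0.le
  have nsib : ‖D.Mul (fun z => si z * dzb l z)‖ ≤ A * (C2 * N) := by
    refine D.Mul_norm_le csib (fun z hz => ?_) (by positivity)
    rw [norm_mul]
    exact mul_le_mul (hSi z (D.U_subset_cU hz)) (hb z (D.U_subset_cU hz)) (norm_nonneg _) hA0.le
  -- the argument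
  set r := f - T (D.Mul (dzb l) f) with hr
  set u := T (D.Mul (dzb l) f) with hu
  have w1 : D.WeakDbar (D.Mul si u) (D.Mul si (D.Mul (dzb l) f) + D.Mul (dzb si) u) :=
    weak_mul D hO hcO hsis (hT.weak _)
  have w2 : D.Mul si (D.Mul (dzb l) f) + D.Mul (dzb si) u = D.Mul (fun z => si z * dzb l z) r := by
    rw [mul_mul D csi cb, eM1, smul_apply, hr, map_sub, neg_smul, one_smul,
      ← sub_eq_add_neg]
  rw [w2] at w1
  set v := T (D.Mul (fun z => si z * dzb l z) r) with hv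
  have w3 : D.WeakDbar (D.Mul si u + (-1 : ℂ) • v) (D.Mul (fun z => si z * dzb l z) r +
      (-1 : ℂ) • D.Mul (fun z => si z * dzb l z) r) :=
    weak_add D w1 (weak_smul D (-1) (hT.weak _))
  have w4 : D.Mul (fun z => si z * dzb l z) r +
      (-1 : ℂ) • D.Mul (fun z => si z * dzb l z) r = 0 := by
    rw [neg_smul, one_smul, add_neg_cancel]
  rw [w4] at w3
  have hG := weyl D w3
  set G : D.Berg := ⟨_, hG⟩ with hGd
  have hGe : (G : D.L2) = D.Mul si u - v := by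
    change D.Mul si u + (-1 : ℂ) • v = D.Mul si u - v
    rw [neg_smul, one_smul, ← sub_eq_add_neg]
  have e1 : D.Mul (fun z => Complex.exp (l z)) (D.Mul si u) = u := by
    rw [mul_mul D cS csi]
    have : D.Mul (fun z => Complex.exp (l z) * si z) = D.Mul (fun _ => 1) := by
      refine mul_congr D (cS.mul csi) continuousOn_const fun z _ => ?_
      rw [hsi, ← Complex.exp_add, add_neg_cancel, Complex.exp_zero]
    rw [this, mul_one' D]
    rfl
  have e2 : D.Mul (fun z => Complex.exp (l z)) (G : D.L2) = u -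
      D.Mul (fun z => Complex.exp (l z)) v := by
    rw [hGe, map_sub, e1]
  have e3 : D.Toe (fun z => Complex.exp (l z)) G = -D.P (D.Mul (fun z => Complex.exp (l z)) v) := by
    have : D.Toe (fun z => Complex.exp (l z)) G = D.P (D.Mul (fun z => Complex.exp (l z)) (G : D.L2)) :=
      rfl
    rw [this, e2, map_sub, hu, hT.orth, zero_sub]
  have nv : ‖v‖ ≤ ‖T‖ * (A * (C2 * N) * ‖r‖) := by
    rw [hv]
    refine (T.le_opNorm _).trans (mul_le_mul_of_nonneg_left ?_ (norm_nonneg _))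
    exact (ContinuousLinearMap.le_opNorm _ _).trans (mul_le_mul_of_nonneg_right nsib (norm_nonneg _))
  have nSv : ‖D.Mul (fun z => Complex.exp (l z)) v‖ ≤ A * (‖T‖ * (A * (C2 * N) * ‖r‖)) :=
    (ContinuousLinearMap.le_opNorm _ _).trans (mul_le_mul nS nv (norm_nonneg _) hA0.le)
  have nP : ∀ g : D.L2, ‖D.P g‖ ≤ ‖g‖ := fun g => by
    have h1 : ‖D.P‖ ≤ 1 := Submodule.orthogonalProjectionOnto_norm_le D.Berg
    calc ‖D.P g‖ ≤ ‖D.P‖ * ‖g‖ := D.P.le_opNorm g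
      _ ≤ 1 * ‖g‖ := mul_le_mul_of_nonneg_right h1 (norm_nonneg _)
      _ = ‖g‖ := one_mul _
  have nT : ‖D.Toe (fun z => Complex.exp (l z)) G‖ ≤ A * (‖T‖ * (A * (C2 * N) * ‖r‖)) := by
    rw [e3, norm_neg]
    exact (nP _).trans nSv
  have nG : ‖(G : D.L2)‖ ≤ M * (A * (‖T‖ * (A * (C2 * N) * ‖r‖))) :=
    (hlow G).trans (mul_le_mul_of_nonneg_left nT (by linarith))
  have e4 : f = D.Mul (fun z => Complex.exp (l z)) (G : D.L2) +
      D.Mul (fun z => Complex.exp (l z)) v + r := by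
    rw [e2, hr]
    abel
  have n1 : ‖D.Mul (fun z => Complex.exp (l z)) (G : D.L2)‖ ≤
      A * (M * (A * (‖T‖ * (A * (C2 * N) * ‖r‖)))) :=
    (ContinuousLinearMap.le_opNorm _ _).trans (mul_le_mul nS nG (norm_nonneg _) hA0.le)
  have hr0 : 0 ≤ ‖r‖ := norm_nonneg _
  have hT0 : 0 ≤ ‖T‖ := norm_nonneg _
  calc ‖f‖ = ‖D.Mul (fun z => Complex.exp (l z)) (G : D.L2) +
      D.Mul (fun z => Complex.exp (l z)) v + r‖ := by rw [← e4]
    _ ≤ A * (M * (A * (‖T‖ * (A * (C2 * N) * ‖r‖)))) + A * (‖T‖ * (A * (C2 * N) * ‖r‖)) + ‖r‖ :=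
      (norm_add₃_le).trans (by linarith)
    _ ≤ (A ^ 3 * ‖T‖ * C2 + A ^ 2 * ‖T‖ * C2 + 1) * N * M * ‖r‖ := by
      have a1 : A * (‖T‖ * (A * (C2 * N) * ‖r‖)) ≤ A ^ 2 * ‖T‖ * C2 * N * M * ‖r‖ := by
        have : A * (‖T‖ * (A * (C2 * N) * ‖r‖)) = (A ^ 2 * ‖T‖ * C2 * N * ‖r‖) * 1 := by ring
        rw [this]
        have h2 : A ^ 2 * ‖T‖ * C2 * N * M * ‖r‖ = (A ^ 2 * ‖T‖ * C2 * N * ‖r‖) * M := by ring
        rw [h2]
        exact mul_le_mul_of_nonneg_left hM (by positivity)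
      have a2 : ‖r‖ ≤ 1 * N * M * ‖r‖ := by
        have : 1 ≤ 1 * N * M := by nlinarith
        exact le_mul_of_one_le_left hr0 this
      have a3 : A * (M * (A * (‖T‖ * (A * (C2 * N) * ‖r‖)))) = A ^ 3 * ‖T‖ * C2 * N * M * ‖r‖ := by
        ring
      rw [a3]
      nlinarith [a1, a2]

end

end Pool.Agent.KA
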