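import Pool.Agent.Helper9.KA.E5b
import Pool.Agent.Helper9.KA.E5c
import Pool.Agent.Helper9.KA.C7a

set_option autoImplicit false

open MeasureTheory Set Filter Asymptotics Topology Metric
open scoped ComplexConjugate ENNReal

namespace Pool.Agent.KA

open Pool.Agent.Helper7.KE hiding HM PS Bv sfun FF tt lS
open Pool.Agent.EN (AJ ann ann2)

section e5e
variable {k : ℕ} (D : AJ k) {τ δ : ℝ} {ι : Type} [Fintype ι] [DecidableEq ι]

theorem c9b_int_norm {g : ℂ → ℂ} (hg : D.Hol2 g) :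
    ∫ z in D.U, ‖g z‖ ≤ Real.sqrt (volume.real D.U) * Real.sqrt (∫ z in D.U, ‖g z‖ ^ 2) := by
  have h1 : MemLp (fun z => ‖g z‖) (ENNReal.ofReal 2) (volume.restrict D.U) := by
    have := hg.memLp.norm
    simpa using this
  have h2 : MemLp (fun _ : ℂ => (1 : ℝ)) (ENNReal.ofReal 2) (volume.restrict D.U) :=
    memLp_const 1
  have h := integral_mul_le_Lp_mul_Lq_of_nonneg (μ := volume.restrict D.U)
    (p := 2) (q := 2) Real.HolderConjugate.two_two (f := fun _ => (1 : ℝ)) (g := fun z => ‖g z‖)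
    (Eventually.of_forall fun _ => zero_le_one) (Eventually.of_forall fun z => norm_nonneg _) h2 h1
  simp only [one_mul, Real.one_rpow] at h
  rw [← Real.sqrt_eq_rpow, ← Real.sqrt_eq_rpow] at h
  refine h.trans (le_of_eq ?_)
  congr 1
  · congr 1
    simp [Measure.real]
  · congr 1
    refine integral_congr_ae (Eventually.of_forall fun z => ?_)
    simp

theorem c9b_int_bound {g ψ : ℂ → ℂ} (hg : D.Hol2 g) {c : ℝ} (hc : 0 ≤ c)
    (hψ : ∀ z ∈ D.U, ‖ψ z‖ ≤ c) :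
    ‖∫ z in D.U, g z * ψ z‖ ≤
      c * (Real.sqrt (volume.real D.U) * Real.sqrt (∫ z in D.U, ‖g z‖ ^ 2)) := by
  have hint : Integrable g (volume.restrict D.U) := hg.memLp.integrable (by norm_num)
  refine (norm_integral_le_of_norm_le (hint.norm.const_mul c) ?_).trans ?_
  · filter_upwards [ae_restrict_mem D.U_open.measurableSet] with z hz
    rw [norm_mul, mul_comm]
    exact mul_le_mul_of_nonneg_right (hψ z hz) (norm_nonneg _)
  · rw [integral_const_mul]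
    exact mul_le_mul_of_nonneg_left (c9b_int_norm D hg) hc


theorem c9b_dchi (hτ : D.Good τ) : ∃ C : ℝ, 0 ≤ C ∧ ∀ (i : Fin k), ∀ z ∈ D.U,
    ‖dzb (fun w => (D.chi τ (some i) w : ℂ)) z‖ ≤ C := by
  have h : ∀ i : Fin k, ∃ C : ℝ, ∀ z ∈ D.U,
      ‖dzb (fun w => (D.chi τ (some i) w : ℂ)) z‖ ≤ C := by
    intro i
    have h1 : ContDiff ℝ (⊤ : ℕ∞) (fun w => (D.chi τ (some i) w : ℂ)) :=
      Complex.ofRealCLM.contDiff.comp (chi_smooth D hτ (some i))
    have h2 := (dz_contDiffOn (Y := ℂ) isOpen_univ h1.contDiffOn).2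
    obtain ⟨C, hC⟩ := D.cU_compact.exists_bound_of_continuousOn
      (h2.continuousOn.mono (subset_univ _))
    exact ⟨C, fun z hz => hC z (D.U_subset_cU hz)⟩
  choose C hC using h
  refine ⟨∑ i, |C i|, Finset.sum_nonneg fun i _ => abs_nonneg _, fun i z hz => ?_⟩
  exact ((hC i z hz).trans (le_abs_self _)).trans
    (Finset.single_le_sum (f := fun i => |C i|) (fun i _ => abs_nonneg _) (Finset.mem_univ i))

/-- the `L²` norm -/
noncomputable def nrm2 (g : ℂ → ℂ) : ℝ := Real.sqrt (∫ z in D.U, ‖g z‖ ^ 2)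

theorem nrm2_nonneg (g : ℂ → ℂ) : 0 ≤ nrm2 D g := Real.sqrt_nonneg _

theorem e5e_comb_ae {m : ℕ} (β : Fin m → ℂ) (G : Fin m → D.L2) {G' : Fin m → ℂ → ℂ}
    (hG : ∀ b, (G b : ℂ → ℂ) =ᵐ[volume.restrict D.U] G' b) :
    ((∑ b, β b • G b : D.L2) : ℂ → ℂ) =ᵐ[volume.restrict D.U] fun z => ∑ b, β b * G' b z := by
  classical
  have key : ∀ s : Finset (Fin m), ((∑ b ∈ s, β b • G b : D.L2) : ℂ → ℂ)
      =ᵐ[volume.restrict D.U] fun z => ∑ b ∈ s, β b * G' b z := by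
    intro s
    induction s using Finset.induction_on with
    | empty =>
      simp only [Finset.sum_empty]
      exact Lp.coeFn_zero _ _ _
    | insert a s ha ih =>
      rw [Finset.sum_insert ha]
      filter_upwards [Lp.coeFn_add (β a • G a) (∑ b ∈ s, β b • G b), ih, hG a,
        Lp.coeFn_smul (β a) (G a)] with z h1 h2 h3 h4
      rw [h1, Finset.sum_insert ha, Pi.add_apply, h2, h4, Pi.smul_apply, h3, smul_eq_mul]
  exact key Finset.univ

theorem e5e_hol2_sub {m : ℕ} {f : ℂ → ℂ} (hf : D.Hol2 f) (β : Fin m → ℂ) {G : Fin m → ℂ → ℂ}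
    (hG : ∀ b, D.Hol2 (G b)) : D.Hol2 (fun z => f z - ∑ b, β b * G b z) where
  diff := hf.diff.sub (DifferentiableOn.fun_sum fun b _ => (hG b).diff.const_mul (β b))
  memLp := hf.memLp.sub (memLp_finsetSum _ fun b _ => (hG b).memLp.const_mul (β b))

theorem e5e_triangle {m : ℕ} {f : ℂ → ℂ} (hf : D.Hol2 f) (β : Fin m → ℂ) {G : Fin m → ℂ → ℂ}
    (hG : ∀ b, D.Hol2 (G b)) :
    nrm2 D f ≤ nrm2 D (fun z => f z - ∑ b, β b * G b z) + ∑ b, ‖β b‖ * nrm2 D (G b) := by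
  set F : D.L2 := hf.memLp.toLp f with hF
  have hFa : (F : ℂ → ℂ) =ᵐ[volume.restrict D.U] f := MemLp.coeFn_toLp _
  set L : Fin m → D.L2 := fun b => (hG b).memLp.toLp (G b) with hL
  have hLa : ∀ b, (L b : ℂ → ℂ) =ᵐ[volume.restrict D.U] G b := fun b => MemLp.coeFn_toLp _
  have hs := e5e_comb_ae D β L hLa
  have hr : ((F - ∑ b, β b • L b : D.L2) : ℂ → ℂ) =ᵐ[volume.restrict D.U]
      fun z => f z - ∑ b, β b * G b z := by
    filter_upwards [Lp.coeFn_sub F (∑ b, β b • L b), hs, hFa] with z h1 h2 h3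
    rw [h1, Pi.sub_apply, h2, h3]
  have e1 : ‖F‖ = nrm2 D f := norm_eq_sqrt _ hFa
  have e2 : ∀ b, ‖L b‖ = nrm2 D (G b) := fun b => norm_eq_sqrt _ (hLa b)
  have e3 : ‖(F - ∑ b, β b • L b : D.L2)‖ = nrm2 D (fun z => f z - ∑ b, β b * G b z) :=
    norm_eq_sqrt _ hr
  have h4 : ‖F‖ ≤ ‖(F - ∑ b, β b • L b : D.L2)‖ + ∑ b, ‖β b • L b‖ := by
    have h5 : F = (F - ∑ b, β b • L b) + ∑ b, β b • L b := by abel
    calc ‖F‖ = ‖(F - ∑ b, β b • L b) + ∑ b, β b • L b‖ := by rw [← h5]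
      _ ≤ ‖(F - ∑ b, β b • L b : D.L2)‖ + ‖∑ b, β b • L b‖ := norm_add_le _ _
      _ ≤ _ := by gcongr; exact norm_sum_le _ _
  rw [e1, e3] at h4
  refine h4.trans (le_of_eq ?_)
  congr 1
  refine Finset.sum_congr rfl fun b _ => ?_
  rw [norm_smul, e2]

theorem e5e_intble {g ψ : ℂ → ℂ} (hg : D.Hol2 g) (hψ : ContinuousOn ψ D.cU) :
    Integrable (fun z => g z * ψ z) (volume.restrict D.U) := by
  obtain ⟨C, hC⟩ := D.cU_compact.exists_bound_of_continuousOn hψ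
  have hint : Integrable g (volume.restrict D.U) := hg.memLp.integrable (by norm_num)
  refine hint.mul_bdd (c := C) ((hψ.mono D.U_subset_cU).aestronglyMeasurable
    D.U_open.measurableSet) ?_
  filter_upwards [ae_restrict_mem D.U_open.measurableSet] with z hz
  exact hC z (D.U_subset_cU hz)

theorem e5e_int_lin {m : ℕ} {f ψ : ℂ → ℂ} (hf : D.Hol2 f) (β : Fin m → ℂ) {G : Fin m → ℂ → ℂ}
    (hG : ∀ b, D.Hol2 (G b)) (hψ : ContinuousOn ψ D.cU) :
    ∫ z in D.U, (f z - ∑ b, β b * G b z) * ψ z =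
      (∫ z in D.U, f z * ψ z) - ∑ b, β b * ∫ z in D.U, G b z * ψ z := by
  have e1 : ∀ z, (f z - ∑ b, β b * G b z) * ψ z = f z * ψ z - ∑ b, β b * (G b z * ψ z) := by
    intro z
    rw [sub_mul, Finset.sum_mul]
    congr 1
    exact Finset.sum_congr rfl fun b _ => by ring
  simp_rw [e1]
  rw [integral_sub (e5e_intble D hf hψ)
    (integrable_finsetSum _ fun b _ => (e5e_intble D (hG b) hψ).const_mul (β b)),
    integral_finsetSum _ fun b _ => (e5e_intble D (hG b) hψ).const_mul (β b)]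
  congr 1
  exact Finset.sum_congr rfl fun b _ => integral_const_mul _ _

/-- bound for the symbol -/
theorem e5e_symbol_bound (hδ : 0 < δ) (h : HM D τ δ) {ρ : ℂ → ℝ} (ps : PS D ρ ι) (Λ : ℝ) :
    ∃ C : ℝ, 0 ≤ C ∧ ∀ (N : ℝ) (y : ι → ℝ) (w : Fin k → ℂ), (∀ j, ‖w j‖ ≤ Λ) → ∀ z ∈ D.cU,
      ‖Complex.exp (lS h ps N y w z)‖ ≤ C := by
  have h1 : ∀ j, ∃ C : ℝ, ∀ z ∈ D.cU, ‖h.om j z‖ ≤ C := fun j =>
    D.cU_compact.exists_bound_of_continuousOn
      ((h.smooth j).continuousOn.mono (D.cU_subset_Ue hδ))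
  choose C hC using h1
  refine ⟨Real.exp (∑ j, |Λ| * |C j|), (Real.exp_pos _).le, fun N y w hw z hz => ?_⟩
  rw [Complex.norm_exp]
  apply Real.exp_le_exp.2
  have e1 : (lS h ps N y w z).re = (h.rhoC w z).re := by
    simp [lS]
  rw [e1]
  refine (Complex.re_le_norm _).trans ?_
  refine (norm_sum_le _ _).trans (Finset.sum_le_sum fun j _ => ?_)
  rw [norm_mul, Complex.norm_real]
  exact mul_le_mul ((hw j).trans (le_abs_self _)) ((hC j z hz).trans (le_abs_self _))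
    (norm_nonneg _) (abs_nonneg _)

theorem e5e_symbol_cont (hδ : 0 < δ) (hτ : D.Good τ) (h : HM D τ δ) {x : Fin k → ℝ}
    (ps : PS D (h.rho x) ι) (N : ℝ) (y : ι → ℝ) (w : Fin k → ℂ) :
    ContinuousOn (fun z => Complex.exp (lS h ps N y w z)) D.cU := by
  obtain ⟨hρ, hom, -⟩ := rho_facts h hτ hδ x w
  refine Complex.continuous_exp.comp_continuousOn ?_
  refine ContinuousOn.add (ContinuousOn.add ?_ ?_) (hom.continuousOn.mono (D.cU_subset_Ue hδ))
  · exact continuousOn_const.mul (Complex.continuous_ofReal.comp_continuousOn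
      (continuousOn_const.mul (hρ.continuousOn.mono (D.cU_subset_Ue hδ))))
  · refine continuousOn_const.mul (Complex.continuous_ofReal.comp_continuousOn ?_)
    exact continuousOn_finsetSum _ fun i _ =>
      continuousOn_const.mul (ps.smooth i).continuous.continuousOn

/-- Cramer's rule -/
theorem e5e_cramer {m : ℕ} (M : Matrix (Fin m) (Fin m) ℂ) (β e : Fin m → ℂ)
    (he : ∀ l, ∑ b, β b * M b l = e l) {A ε : ℝ} (hA : ∀ i j, ‖M.adjugate i j‖ ≤ A)
    (hε : ∀ l, ‖e l‖ ≤ ε) (b : Fin m) : ‖β b‖ * ‖M.det‖ ≤ m * (ε * A) := by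
  have h1 : Matrix.vecMul (Matrix.vecMul β M) M.adjugate = M.det • β := by
    rw [Matrix.vecMul_vecMul, Matrix.mul_adjugate, Matrix.vecMul_smul, Matrix.vecMul_one]
  have h2 : Matrix.vecMul β M = e := by
    funext l
    rw [← he l]
    rfl
  rw [h2] at h1
  have h3 : ∑ l, e l * M.adjugate l b = M.det * β b := by
    have := congrFun h1 b
    rw [Pi.smul_apply, smul_eq_mul] at this
    rw [← this]
    rfl
  rw [mul_comm, ← norm_mul, ← h3]
  refine (norm_sum_le _ _).trans ?_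
  have h4 : ∀ l ∈ (Finset.univ : Finset (Fin m)), ‖e l * M.adjugate l b‖ ≤ ε * A := by
    intro l _
    rw [norm_mul]
    exact mul_le_mul (hε l) (hA l b) (norm_nonneg _) ((norm_nonneg _).trans (hε l))
  refine (Finset.sum_le_card_nsmul _ _ _ h4).trans (le_of_eq ?_)
  simp

theorem e5e_adj_bound (m : ℕ) (B : ℝ) : ∃ A : ℝ, 0 ≤ A ∧ ∀ M : Matrix (Fin m) (Fin m) ℂ,
    (∀ i j, ‖M i j‖ ≤ B) → ∀ i j, ‖M.adjugate i j‖ ≤ A := by
  set B' := max B 1 with hB'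
  refine ⟨(m.factorial : ℝ) * B' ^ m, by positivity, fun M hM i j => ?_⟩
  rw [Matrix.adjugate_apply]
  have h1 := Matrix.det_le (A := M.updateRow j (Pi.single i 1))
    (abv := NormedField.toAbsoluteValue ℂ) (x := B') (by
      intro i' j'
      show ‖M.updateRow j (Pi.single i 1) i' j'‖ ≤ B'
      by_cases h : i' = j
      · subst h
        rw [Matrix.updateRow_self]
        by_cases h' : j' = i
        · subst h'; simp [hB']
        · rw [Pi.single_eq_of_ne h', norm_zero]; exact zero_le_one.trans (le_max_right _ _)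
      · rw [Matrix.updateRow_ne h]
        exact (hM i' j').trans (le_max_left _ _))
  have h2 : (NormedField.toAbsoluteValue ℂ)
      (Matrix.det (M.updateRow j (Pi.single i 1))) =
      ‖Matrix.det (M.updateRow j (Pi.single i 1))‖ := rfl
  rw [h2] at h1
  simpa using h1

/-- continuity in the parameter gives uniform bounds -/
theorem e5e_unif {K : Set (Fin k → ℂ)} (hK : IsCompact K) (hδ : 0 < δ)
    {g : (Fin k → ℂ) → ℂ → ℂ}
    (hg : ContinuousOn (fun p : (Fin k → ℂ) × ℂ => g p.1 p.2) (K ×ˢ D.Ue δ)) :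
    ∃ C : ℝ, 0 ≤ C ∧ ∀ t ∈ K, ∀ z ∈ D.cU, ‖g t z‖ ≤ C := by
  obtain ⟨C, hC⟩ := (hK.prod D.cU_compact).exists_bound_of_continuousOn
    (hg.mono (prod_mono subset_rfl (D.cU_subset_Ue hδ)))
  exact ⟨|C|, abs_nonneg _, fun t ht z hz => (hC (t, z) ⟨ht, hz⟩).trans (le_abs_self _)⟩

theorem e5e_nrm_le {g : ℂ → ℂ} (hg : D.Hol2 g) {C : ℝ} (hC : 0 ≤ C) (h : ∀ z ∈ D.cU, ‖g z‖ ≤ C) :
    nrm2 D g ≤ Real.sqrt (volume.real D.U) * C := by
  have h1 : ∫ z in D.U, ‖g z‖ ^ 2 ≤ ∫ _z in D.U, C ^ 2 := by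
    refine setIntegral_mono_on ?_ ?_ D.U_open.measurableSet ?_
    · exact (memLp_two_iff_integrable_sq_norm hg.memLp.1).1 hg.memLp
    · exact integrable_const _
    · intro z hz
      exact pow_le_pow_left₀ (norm_nonneg _) (h z (D.U_subset_cU hz)) 2
  rw [setIntegral_const, smul_eq_mul] at h1
  refine (Real.sqrt_le_sqrt h1).trans (le_of_eq ?_)
  rw [Real.sqrt_mul measureReal_nonneg, Real.sqrt_sq hC]

/-- the functional `sfun` of a combination -/
theorem e5e_sfun_lin (hτ : D.Good τ) {m : ℕ} {f : ℂ → ℂ} (hf : D.Hol2 f) (β : Fin m → ℂ)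
    {G : Fin m → ℂ → ℂ} (hG : ∀ b, D.Hol2 (G b)) (t : Fin k → ℂ) :
    sfun D τ t (fun z => f z - ∑ b, β b * G b z) =
      sfun D τ t f - ∑ b, β b * sfun D τ t (G b) := by
  have hψ : ∀ i : Fin k, ContinuousOn (fun z => dzb (fun w => (D.chi τ (some i) w : ℂ)) z) D.cU := by
    intro i
    have h1 : ContDiff ℝ (⊤ : ℕ∞) (fun w => (D.chi τ (some i) w : ℂ)) :=
      Complex.ofRealCLM.contDiff.comp (chi_smooth D hτ (some i))
    have h2 := (dz_contDiffOn (Y := ℂ) isOpen_univ h1.contDiffOn).2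
    exact h2.continuousOn.mono (subset_univ _)
  unfold sfun
  have e1 : ∀ j, (t j - 1) * ∫ z in D.U, (f z - ∑ b, β b * G b z) *
      dzb (fun w => (D.chi τ (some j) w : ℂ)) z =
      (t j - 1) * (∫ z in D.U, f z * dzb (fun w => (D.chi τ (some j) w : ℂ)) z) -
      ∑ b, β b * ((t j - 1) * ∫ z in D.U, G b z * dzb (fun w => (D.chi τ (some j) w : ℂ)) z) := by
    intro j
    rw [e5e_int_lin D hf β hG (hψ j), mul_sub, Finset.mul_sum]
    congr 1
    exact Finset.sum_congr rfl fun b _ => by ring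
  simp_rw [e1]
  rw [Finset.sum_sub_distrib, Finset.sum_comm]
  congr 1
  exact Finset.sum_congr rfl fun b _ => by rw [Finset.mul_sum]

theorem e5e_sfun_bound (hτ : D.Good τ) {K : Set (Fin k → ℂ)} (hK : IsCompact K) :
    ∃ C : ℝ, 0 ≤ C ∧ ∀ t ∈ K, ∀ g : ℂ → ℂ, D.Hol2 g → ‖sfun D τ t g‖ ≤ C * nrm2 D g := by
  obtain ⟨C₃, hC₃, h₃⟩ := c9b_dchi D hτ
  obtain ⟨T, hT⟩ := hK.exists_bound_of_continuousOn (f := fun t : Fin k → ℂ => t) continuousOn_id
  refine ⟨∑ _j : Fin k, (|T| + 1) * (C₃ * Real.sqrt (volume.real D.U)), by positivity,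
    fun t ht g hg => ?_⟩
  unfold sfun
  rw [Finset.sum_mul]
  refine (norm_sum_le _ _).trans (Finset.sum_le_sum fun j _ => ?_)
  rw [norm_mul]
  have h1 : ‖t j - 1‖ ≤ |T| + 1 := by
    refine (norm_sub_le _ _).trans ?_
    have h2 : ‖t j‖ ≤ |T| := ((norm_le_pi_norm t j).trans (hT t ht)).trans (le_abs_self _)
    simpa using h2
  have h2 := c9b_int_bound D hg hC₃ (h₃ j)
  rw [mul_assoc (|T| + 1)]
  refine mul_le_mul h1 (h2.trans (le_of_eq ?_)) (norm_nonneg _) (by positivity)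
  unfold nrm2
  ring

end e5e

/-- the final absorption -/
theorem e5e_absorb {F T C κ : ℝ} {Kn : ℕ} (hF : 0 ≤ F) (hT : 0 ≤ T) (hκ : 0 ≤ κ)
    (hKn : κ + 1 ≤ Kn) {N : ℝ} (hN1 : 1 ≤ N) (hN : 2 * C ≤ N)
    (h : F ≤ C * N ^ κ * (N * T + F / N ^ Kn)) (hC : 0 ≤ C) : F ≤ N ^ (κ + 2) * T := by
  have hN0 : 0 < N := by linarith
  have e1 : N ^ κ * N = N ^ (κ + 1) := by rw [Real.rpow_add hN0, Real.rpow_one]
  have e2 : N ^ κ / N ^ Kn ≤ 1 / N := by
    rw [div_le_div_iff₀ (pow_pos hN0 _) hN0, one_mul, e1, ← Real.rpow_natCast]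
    exact Real.rpow_le_rpow_of_exponent_le hN1 hKn
  have e3 : C * N ^ κ * (N * T + F / N ^ Kn) = C * N ^ (κ + 1) * T + C * (N ^ κ / N ^ Kn) * F := by
    rw [← e1]; ring
  have e4 : C * (N ^ κ / N ^ Kn) * F ≤ C * (1 / N) * F := by gcongr
  have e5 : C * (1 / N) ≤ 1 / 2 := by
    rw [mul_one_div, div_le_div_iff₀ hN0 two_pos]
    linarith
  have e6 : C * (1 / N) * F ≤ 1 / 2 * F := by gcongr
  have e7 : F ≤ 2 * C * N ^ (κ + 1) * T := by linarith
  have e8 : N ^ (κ + 2) = N * N ^ (κ + 1) := by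
    rw [show κ + 2 = 1 + (κ + 1) by ring, Real.rpow_add hN0, Real.rpow_one]
  rw [e8]
  refine e7.trans ?_
  have : 0 ≤ N ^ (κ + 1) := Real.rpow_nonneg hN0.le _
  gcongr

theorem e5e_const {α : Type} [Fintype α] {P : α → ℝ → Prop}
    (hP : ∀ i C C', C ≤ C' → P i C → P i C') (h : ∀ i, ∃ C, P i C) :
    ∃ C, 0 ≤ C ∧ ∀ i, P i C := by
  choose C hC using h
  exact ⟨∑ i, |C i|, Finset.sum_nonneg fun i _ => abs_nonneg _, fun i => hP i _ _
    ((le_abs_self _).trans (Finset.single_le_sum (f := fun i => |C i|) (fun i _ => abs_nonneg _)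
      (Finset.mem_univ i))) (hC i)⟩

theorem toe_lower {n : ℕ} {D : AJ (n + 1)} {τ δ : ℝ} {ι : Type} [Fintype ι] [DecidableEq ι]
    (hτ : D.Good τ) (hδ : 0 < δ) (hδτ : δ ≤ τ) (h : HM D τ δ) {x : Fin (n + 1) → ℝ} (hx : x ≠ 0)
    (ps : PS D (h.rho x) ι) {z₀ : ℂ} (hz₀ : z₀ ∈ D.U) {K : Set (Fin (n + 1) → ℂ)}
    (hK : IsCompact K) (hK0 : ∀ t ∈ K, ∀ j, t j ≠ 0)
    {g : Fin (n + 1) → (Fin (n + 1) → ℂ) → ℂ → ℂ}
    (hg : ∀ b, ContinuousOn (fun p : (Fin (n + 1) → ℂ) × ℂ => g b p.1 p.2) (K ×ˢ D.Ue δ))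
    (hg' : ∀ b, ∀ t ∈ K, DifferentiableOn ℂ (g b t) (D.Ue δ)) {C₀ : ℝ}
    (hframe : ∀ t ∈ K, ∀ f : ℂ → ℂ, D.Hol2 f → ∀ M : ℝ, 0 ≤ M →
        D.LtBd τ z₀ t f M →
        Real.sqrt (∫ z in D.U, ‖f z - ∑ b, D.res τ b f * g b t z‖ ^ 2) ≤ C₀ * M)
    {q : Fin n → ℂ → ℂ} (hq : ∀ l, DifferentiableOn ℂ (q l) (D.Ue δ)) (Λ κ c : ℝ) (hc : 0 < c) :
    ∃ N₀ K' : ℝ, ∀ N : ℝ, N₀ ≤ N → ∀ (y φ : ι → ℝ) (w : Fin (n + 1) → ℂ), (∀ i, |y i| ≤ Λ) →
      (∀ j, ‖w j‖ ≤ Λ) →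
      Complex.exp (Complex.I * (N * ps.c (ps.bd none) + y (ps.bd none) : ℝ)) = 1 →
      (∀ i, Complex.exp (Complex.I * (N * ps.c i + y i : ℝ)) = Complex.exp (Complex.I * φ i)) →
      ∀ t ∈ K, (∀ j, t j = Complex.exp (Complex.I *
        (N * ps.c (ps.bd (some j)) + y (ps.bd (some j)) : ℝ) + w j)) →
      c * N ^ (-κ) ≤ ‖Fdet (fun b l => Bv h ps N φ w (g b t) (q l))
        (fun b => sfun D τ t (g b t))‖ →
      ∀ f : D.Berg, ‖f‖ ≤ N ^ K' * ‖D.Toe (fun z => Complex.exp (lS h ps N y w z)) f‖ := by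
  classical
  set κ' := max κ 0 with hκ'
  have hκ0 : 0 ≤ κ' := le_max_right _ _
  set Kn : ℕ := ⌈κ'⌉₊ + 1 with hKn
  have hKn' : κ' + 1 ≤ Kn := by
    rw [hKn]; push_cast
    have := Nat.le_ceil κ'
    linarith
  obtain ⟨C1, hC1, h1⟩ := toe_test_bound hτ hδ hδτ h hx ps hz₀ Λ Kn
  -- virtual approximation
  have h2 : ∃ C2 : ℝ, 0 ≤ C2 ∧ ∀ bl : Fin (n + 1) × Fin n, ∀ N : ℝ, 1 ≤ N →
      ∀ (y φ : ι → ℝ) (w : Fin (n + 1) → ℂ), (∀ i, |y i| ≤ Λ) → (∀ j, ‖w j‖ ≤ Λ) →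
      (∀ i, Complex.exp (Complex.I * (N * ps.c i + y i : ℝ)) = Complex.exp (Complex.I * φ i)) →
      ∀ t ∈ K, ‖(∫ z in D.U, Complex.exp (lS h ps N y w z) * g bl.1 t z * conj (q bl.2 z)) -
        Bv h ps N φ w (g bl.1 t) (q bl.2)‖ ≤ C2 / N ^ Kn := by
    refine e5e_const (P := fun (bl : Fin (n + 1) × Fin n) (C : ℝ) => ∀ N : ℝ, 1 ≤ N →
      ∀ (y φ : ι → ℝ) (w : Fin (n + 1) → ℂ), (∀ i, |y i| ≤ Λ) → (∀ j, ‖w j‖ ≤ Λ) →
      (∀ i, Complex.exp (Complex.I * (N * ps.c i + y i : ℝ)) = Complex.exp (Complex.I * φ i)) →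
      ∀ t ∈ K, ‖(∫ z in D.U, Complex.exp (lS h ps N y w z) * g bl.1 t z * conj (q bl.2 z)) -
        Bv h ps N φ w (g bl.1 t) (q bl.2)‖ ≤ C / N ^ Kn) ?_ ?_
    · intro bl C C' hCC hP N hN y φ w hy hw hyφ t ht
      refine (hP N hN y φ w hy hw hyφ t ht).trans ?_
      have : (0 : ℝ) < N ^ Kn := by positivity
      gcongr
    · rintro ⟨b, l⟩
      haveI : CompactSpace K := isCompact_iff_compactSpace.1 hK
      obtain ⟨C, hC⟩ := virtual_approx hτ hδ hδτ h hx ps Λ Kn (K := K)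
        (g := fun u : K => g b (u : Fin (n + 1) → ℂ)) (by
          refine (hg b).comp (f := fun p : K × ℂ => ((p.1 : Fin (n + 1) → ℂ), p.2))
            (by fun_prop) ?_
          intro p hp
          exact ⟨p.1.2, hp.2⟩) (fun u => hg' b u u.2) (hq l)
      exact ⟨C, fun N hN y φ w hy hw hyφ t ht => hC N hN y φ w hy hw hyφ ⟨t, ht⟩⟩
  obtain ⟨C2, hC2, h2⟩ := h2
  have h3 : ∃ C3 : ℝ, 0 ≤ C3 ∧ ∀ b : Fin (n + 1), ∀ f : ℂ → ℂ, D.Hol2 f →
      ‖D.res τ b f‖ ≤ C3 * nrm2 D f := by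
    refine e5e_const (P := fun b C => ∀ f : ℂ → ℂ, D.Hol2 f →
      ‖D.res τ b f‖ ≤ C * nrm2 D f) ?_ ?_
    · intro b C C' hCC hP f hf
      exact (hP f hf).trans (mul_le_mul_of_nonneg_right hCC (nrm2_nonneg D f))
    · intro b
      exact res_bound D hτ b
  obtain ⟨C3, hC3, h3⟩ := h3
  obtain ⟨S0, hS0, hS⟩ := e5e_symbol_bound D hδ h ps Λ
  have hQ : ∃ Q0 : ℝ, 0 ≤ Q0 ∧ ∀ l : Fin n, ∀ z ∈ D.cU, ‖q l z‖ ≤ Q0 :=
    e5e_const (P := fun l C => ∀ z ∈ D.cU, ‖q l z‖ ≤ C)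
      (fun l C C' hCC hP z hz => (hP z hz).trans hCC)
      (fun l => D.cU_compact.exists_bound_of_continuousOn
        ((hq l).continuousOn.mono (D.cU_subset_Ue hδ)))
  obtain ⟨Q0, hQ0, hQ⟩ := hQ
  have hG : ∃ G0 : ℝ, 0 ≤ G0 ∧ ∀ b : Fin (n + 1), ∀ t ∈ K, ∀ z ∈ D.cU, ‖g b t z‖ ≤ G0 :=
    e5e_const (P := fun b C => ∀ t ∈ K, ∀ z ∈ D.cU, ‖g b t z‖ ≤ C)
      (fun l C C' hCC hP t ht z hz => (hP t ht z hz).trans hCC)
      (fun b => by
        obtain ⟨C, -, hC⟩ := e5e_unif D hK hδ (hg b)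
        exact ⟨C, hC⟩)
  obtain ⟨G0, hG0, hG⟩ := hG
  obtain ⟨Cs, hCs, hs⟩ := e5e_sfun_bound D hτ hK
  set V := Real.sqrt (volume.real D.U) with hV
  have hV0 : 0 ≤ V := Real.sqrt_nonneg _
  obtain ⟨A, hA0, hA⟩ := e5e_adj_bound (n + 1)
    (S0 * Q0 * (V * (V * G0)) + C2 + Cs * (V * G0))
  set R0 : ℝ := |C₀| * C1 with hR0
  have hR00 : 0 ≤ R0 := by positivity
  set C4 : ℝ := V * Q0 + S0 * Q0 * (V * R0) + (n + 1) * (C3 * C2) + C1 + Cs * R0 with hC4
  have hC40 : 0 ≤ C4 := by positivity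
  set C6 : ℝ := (n + 1) * (C4 * A) / c with hC6
  have hC60 : 0 ≤ C6 := by positivity
  set C5 : ℝ := R0 + (n + 1) * (C6 * (V * G0)) with hC5
  have hC50 : 0 ≤ C5 := by positivity
  have hGhol : ∀ b, ∀ t ∈ K, D.Hol2 (g b t) := fun b t ht =>
    hol2_of_nhds D (D.Ue_open δ) (D.cU_subset_Ue hδ) (hg' b t ht)
  refine ⟨max 1 (2 * C5), κ' + 2, fun N hN y φ w hy hw hy0 hyφ t ht htw hdet f => ?_⟩
  have hN1 : 1 ≤ N := (le_max_left _ _).trans hN
  have hN2 : 2 * C5 ≤ N := (le_max_right _ _).trans hN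
  have hN0 : 0 < N := by linarith
  have hNK : (0 : ℝ) < N ^ Kn := pow_pos hN0 _
  set S : ℂ → ℂ := fun z => Complex.exp (lS h ps N y w z) with hSdef
  have hScont : ContinuousOn S D.cU := e5e_symbol_cont D hδ hτ h ps N y w
  obtain ⟨f', hf', ef⟩ := berg_rep D f.2
  set F := ‖f‖ with hF
  set T := ‖D.Toe S f‖ with hT
  have hF0 : 0 ≤ F := norm_nonneg _
  have hT0 : 0 ≤ T := norm_nonneg _
  have hFf : F = nrm2 D f' := norm_eq_sqrt _ ef
  set ε := N * T + F / N ^ Kn with hε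
  have hε0 : 0 ≤ ε := by positivity
  have hTε : T ≤ ε := by
    have e1 : T ≤ N * T := le_mul_of_one_le_left hT0 hN1
    have e2 : 0 ≤ F / N ^ Kn := by positivity
    linarith
  have hFε : F / N ^ Kn ≤ ε := by
    have e1 : 0 ≤ N * T := by positivity
    linarith
  obtain ⟨ha, hb⟩ := h1 N hN1 y w hy hw hy0 f f' hf' ef t htw
  set β : Fin (n + 1) → ℂ := fun b => D.res τ b f' with hβ
  set r : ℂ → ℂ := fun z => f' z - ∑ b, β b * g b t z with hr
  have hrhol : D.Hol2 r := e5e_hol2_sub D hf' β (fun b => hGhol b t ht)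
  have hrn : nrm2 D r ≤ R0 * ε := by
    have e1 := hframe t ht f' hf' (C1 * ε) (by positivity) ha
    refine e1.trans ?_
    have e2 : C₀ * (C1 * ε) ≤ |C₀| * (C1 * ε) :=
      mul_le_mul_of_nonneg_right (le_abs_self _) (by positivity)
    refine e2.trans (le_of_eq ?_)
    rw [hR0]; ring
  have hβb : ∀ b, ‖β b‖ ≤ C3 * F := fun b => by
    rw [hFf]; exact h3 b f' hf'
  -- the matrix
  set M : Matrix (Fin (n + 1)) (Fin (n + 1)) ℂ := Matrix.of fun b l =>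
    Fin.snoc (α := fun _ => ℂ) (fun l => Bv h ps N φ w (g b t) (q l)) (sfun D τ t (g b t)) l
    with hM
  have hMlast : ∀ b, M b (Fin.last n) = sfun D τ t (g b t) := fun b => by
    rw [hM, Matrix.of_apply, Fin.snoc_last]
  have hMcast : ∀ b (l : Fin n), M b l.castSucc = Bv h ps N φ w (g b t) (q l) := fun b l => by
    rw [hM, Matrix.of_apply, Fin.snoc_castSucc]
  -- bounds for integrals against the tests
  set ψ : Fin n → ℂ → ℂ := fun l z => S z * conj (q l z) with hψ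
  have hψc : ∀ l, ContinuousOn (ψ l) D.cU := fun l =>
    hScont.mul (Complex.continuous_conj.comp_continuousOn
      ((hq l).continuousOn.mono (D.cU_subset_Ue hδ)))
  have hψb : ∀ l, ∀ z ∈ D.U, ‖ψ l z‖ ≤ S0 * Q0 := fun l z hz => by
    rw [hψ]
    simp only [norm_mul, RCLike.norm_conj]
    exact mul_le_mul (hS N y w hw z (D.U_subset_cU hz)) (hQ l z (D.U_subset_cU hz))
      (norm_nonneg _) hS0
  have hψi : ∀ l (u : ℂ → ℂ), D.Hol2 u → ‖∫ z in D.U, u z * ψ l z‖ ≤ S0 * Q0 * (V * nrm2 D u) :=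
    fun l u hu => c9b_int_bound D hu (by positivity) (hψb l)
  have hint : ∀ l (u : ℂ → ℂ), ∫ z in D.U, Complex.exp (lS h ps N y w z) * u z * conj (q l z) =
      ∫ z in D.U, u z * ψ l z := by
    intro l u
    congr 1
    funext z
    rw [hψ, hSdef]
    ring
  have hva : ∀ b l, ‖(∫ z in D.U, g b t z * ψ l z) - M b l.castSucc‖ ≤ C2 / N ^ Kn := by
    intro b l
    rw [hMcast, ← hint]
    exact h2 (b, l) N hN1 y φ w hy hw hyφ t ht
  have hGn : ∀ b, nrm2 D (g b t) ≤ V * G0 := fun b =>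
    e5e_nrm_le D (hGhol b t ht) hG0 (hG b t ht)
  -- bound for the entries
  have hMb : ∀ b l, ‖M b l‖ ≤ S0 * Q0 * (V * (V * G0)) + C2 + Cs * (V * G0) := by
    intro b l
    refine Fin.lastCases ?_ (fun l => ?_) l
    · rw [hMlast]
      have e1 := hs t ht (g b t) (hGhol b t ht)
      have e2 : Cs * nrm2 D (g b t) ≤ Cs * (V * G0) := mul_le_mul_of_nonneg_left (hGn b) hCs
      have e3 : 0 ≤ S0 * Q0 * (V * (V * G0)) := by positivity
      linarith
    · have e1 := hva b l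
      have e2 := hψi l (g b t) (hGhol b t ht)
      have e3 : ‖M b l.castSucc‖ ≤ ‖∫ z in D.U, g b t z * ψ l z‖ +
          ‖(∫ z in D.U, g b t z * ψ l z) - M b l.castSucc‖ := by
        have e4 : M b l.castSucc = (∫ z in D.U, g b t z * ψ l z) -
          ((∫ z in D.U, g b t z * ψ l z) - M b l.castSucc) := by ring
        calc ‖M b l.castSucc‖ = ‖(∫ z in D.U, g b t z * ψ l z) -
          ((∫ z in D.U, g b t z * ψ l z) - M b l.castSucc)‖ := by rw [← e4]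
          _ ≤ _ := norm_sub_le _ _
      have e5 : S0 * Q0 * (V * nrm2 D (g b t)) ≤ S0 * Q0 * (V * (V * G0)) := by
        have := hGn b
        gcongr
      have e6 : C2 / N ^ Kn ≤ C2 := div_le_self hC2 (one_le_pow₀ hN1)
      have e7 : 0 ≤ Cs * (V * G0) := by positivity
      linarith
  -- the right sides
  set e : Fin (n + 1) → ℂ := fun l => ∑ b, β b * M b l with he
  have heb : ∀ l, ‖e l‖ ≤ C4 * ε := by
    intro l
    have p1 : 0 ≤ V * Q0 * ε := by positivity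
    have p2 : 0 ≤ S0 * Q0 * (V * R0) * ε := by positivity
    have p3 : 0 ≤ ((n : ℝ) + 1) * (C3 * C2) * ε := by positivity
    have p4 : 0 ≤ C1 * ε := by positivity
    have p5 : 0 ≤ Cs * R0 * ε := by positivity
    have hsum : C4 * ε = V * Q0 * ε + S0 * Q0 * (V * R0) * ε + ((n : ℝ) + 1) * (C3 * C2) * ε +
        C1 * ε + Cs * R0 * ε := by rw [hC4]; ring
    rw [hsum]
    refine Fin.lastCases ?_ (fun l => ?_) l
    · have e1 : e (Fin.last n) = sfun D τ t f' - sfun D τ t r := by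
        rw [hr, e5e_sfun_lin D hτ hf' β (fun b => hGhol b t ht) t, sub_sub_cancel, he]
        exact Finset.sum_congr rfl fun b _ => by rw [hMlast]
      rw [e1]
      have e2 := norm_sub_le (sfun D τ t f') (sfun D τ t r)
      have e3 := hs t ht r hrhol
      have e4 : Cs * nrm2 D r ≤ Cs * R0 * ε := by
        rw [mul_assoc]
        exact mul_le_mul_of_nonneg_left hrn hCs
      linarith
    · have e1 : e l.castSucc = (∫ z in D.U, f' z * ψ l z) - (∫ z in D.U, r z * ψ l z) -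
          ∑ b, β b * ((∫ z in D.U, g b t z * ψ l z) - M b l.castSucc) := by
        have e2 := e5e_int_lin D hf' β (fun b => hGhol b t ht) (hψc l)
        rw [hr, e2, sub_sub_cancel, he, ← Finset.sum_sub_distrib]
        exact Finset.sum_congr rfl fun b _ => by ring
      rw [e1]
      have e3 := norm_sub_le ((∫ z in D.U, f' z * ψ l z) - (∫ z in D.U, r z * ψ l z))
        (∑ b, β b * ((∫ z in D.U, g b t z * ψ l z) - M b l.castSucc))
      have e4 := norm_sub_le (∫ z in D.U, f' z * ψ l z) (∫ z in D.U, r z * ψ l z)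
      have e5 : ‖∫ z in D.U, f' z * ψ l z‖ ≤ V * Q0 * ε := by
        have hqh : D.Hol2 (q l) := hol2_of_nhds D (D.Ue_open δ) (D.cU_subset_Ue hδ) (hq l)
        have hqb : (hqh.memLp.toLp (q l) : D.L2) ∈ D.Berg :=
          berg_of_hol2 D hqh (MemLp.coeFn_toLp _)
        obtain ⟨G, hGG⟩ : ∃ G : D.Berg, (G : D.L2) = hqh.memLp.toLp (q l) := ⟨⟨_, hqb⟩, rfl⟩
        have hGa : ((G : D.L2) : ℂ → ℂ) =ᵐ[volume.restrict D.U] q l := by
          rw [hGG]; exact MemLp.coeFn_toLp _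
        have i1 := inner_Toe hScont f G ef hGa
        have i2 : ‖G‖ ≤ V * Q0 := by
          have : ‖G‖ = nrm2 D (q l) := norm_eq_sqrt _ hGa
          rw [this]
          exact e5e_nrm_le D hqh hQ0 (hQ l)
        have i3 := norm_inner_le_norm (𝕜 := ℂ) G (D.Toe S f)
        rw [i1] at i3
        have i4 : ∫ z in D.U, S z * f' z * conj (q l z) = ∫ z in D.U, f' z * ψ l z :=
          hint l f'
        rw [i4] at i3
        refine i3.trans ?_
        exact mul_le_mul i2 hTε (norm_nonneg _) (by positivity)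
      have e6 : ‖∫ z in D.U, r z * ψ l z‖ ≤ S0 * Q0 * (V * R0) * ε := by
        refine (hψi l r hrhol).trans ?_
        have : S0 * Q0 * (V * R0) * ε = S0 * Q0 * (V * (R0 * ε)) := by ring
        rw [this]
        gcongr
      have e7 : ‖∑ b, β b * ((∫ z in D.U, g b t z * ψ l z) - M b l.castSucc)‖ ≤
          ((n : ℝ) + 1) * (C3 * C2) * ε := by
        have j1 : ∀ b ∈ (Finset.univ : Finset (Fin (n + 1))),
            ‖β b * ((∫ z in D.U, g b t z * ψ l z) - M b l.castSucc)‖ ≤ C3 * C2 * ε := by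
          intro b _
          rw [norm_mul]
          have j2 : ‖β b‖ * ‖(∫ z in D.U, g b t z * ψ l z) - M b l.castSucc‖ ≤
              (C3 * F) * (C2 / N ^ Kn) :=
            mul_le_mul (hβb b) (hva b l) (norm_nonneg _) (by positivity)
          refine j2.trans ?_
          have j3 : (C3 * F) * (C2 / N ^ Kn) = C3 * C2 * (F / N ^ Kn) := by ring
          rw [j3]
          gcongr
        refine (norm_sum_le _ _).trans ((Finset.sum_le_card_nsmul _ _ _ j1).trans (le_of_eq ?_))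
        simp
        ring
      linarith
  have hcr := e5e_cramer M β e (fun l => rfl) (hA M hMb) heb
  have hdet' : c * N ^ (-κ') ≤ ‖M.det‖ := by
    refine le_trans ?_ hdet
    have : N ^ (-κ') ≤ N ^ (-κ) :=
      Real.rpow_le_rpow_of_exponent_le hN1 (neg_le_neg (le_max_left _ _))
    gcongr
  have hNκ : 0 < N ^ κ' := Real.rpow_pos_of_pos hN0 _
  have hNκ1 : 1 ≤ N ^ κ' := Real.one_le_rpow hN1 hκ0
  have hβ2 : ∀ b, ‖β b‖ ≤ C6 * (N ^ κ' * ε) := by
    intro b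
    have i1 := hcr b
    have i2 : ‖β b‖ * (c * N ^ (-κ')) ≤ ((n + 1 : ℕ) : ℝ) * (C4 * ε * A) :=
      (mul_le_mul_of_nonneg_left hdet' (norm_nonneg _)).trans i1
    rw [Real.rpow_neg hN0.le, ← div_eq_mul_inv, ← mul_div_assoc, div_le_iff₀ hNκ,
      ← le_div_iff₀ hc] at i2
    refine i2.trans (le_of_eq ?_)
    rw [hC6]
    push_cast
    ring
  refine e5e_absorb hF0 hT0 hκ0 hKn' hN1 hN2 ?_ hC50
  have htri := e5e_triangle D hf' β (fun b => hGhol b t ht)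
  rw [← hFf] at htri
  refine htri.trans ?_
  have k1 : ∑ b, ‖β b‖ * nrm2 D (g b t) ≤ (n + 1) * (C6 * (V * G0)) * (N ^ κ' * ε) := by
    have j1 : ∀ b ∈ (Finset.univ : Finset (Fin (n + 1))),
        ‖β b‖ * nrm2 D (g b t) ≤ C6 * (V * G0) * (N ^ κ' * ε) := by
      intro b _
      have j2 := mul_le_mul (hβ2 b) (hGn b) (nrm2_nonneg _ _) (by positivity)
      refine j2.trans (le_of_eq ?_)
      ring
    refine (Finset.sum_le_card_nsmul _ _ _ j1).trans (le_of_eq ?_)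
    simp
    ring
  have k2 : nrm2 D r ≤ R0 * (N ^ κ' * ε) := by
    refine hrn.trans ?_
    have : ε ≤ N ^ κ' * ε := le_mul_of_one_le_left hε0 hNκ1
    gcongr
  have k3 : C5 * N ^ κ' * ε = R0 * (N ^ κ' * ε) + (n + 1) * (C6 * (V * G0)) * (N ^ κ' * ε) := by
    rw [hC5]; ring
  show nrm2 D r + _ ≤ C5 * N ^ κ' * ε
  rw [k3]
  linarith

end Pool.Agent.KA
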