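import Pool.Agent.Helper9.KA.C4a
import Pool.Agent.Helper9.KA.C4b
import Pool.Agent.Helper9.KA.D5a
import Pool.Agent.Helper9.KA.D6

/-! Operators `1 - T M_b`, canonical solutions, gauge transformation. -/

set_option autoImplicit false

open MeasureTheory Set Filter Asymptotics Topology Metric
open scoped ComplexConjugate ENNReal

namespace Pool.Agent.KA

open Pool.Agent.Helper7.KE hiding HM PS Bv sfun FF tt lS
open Pool.Agent.EN (AJ ann ann2)

section
variable {k : ℕ} {D : AJ k} {τ δ : ℝ} {ι : Type} [Fintype ι] [DecidableEq ι]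

theorem rhoC_lin (h : HM D τ δ) (w w' : Fin k → ℂ) (c : ℂ) (z : ℂ) :
    h.rhoC (fun j => w j + c * w' j) z = h.rhoC w z + c * h.rhoC w' z := by
  unfold HM.rhoC
  rw [Finset.mul_sum, ← Finset.sum_add_distrib]
  exact Finset.sum_congr rfl fun j _ => by ring

theorem vb_lin (h : HM D τ δ) (w w' : Fin k → ℂ) (c : ℂ) (z : ℂ) :
    h.vb (fun j => w j + c * w' j) z = h.vb w z + c * h.vb w' z := by
  unfold HM.vb
  rw [Finset.mul_sum, ← Finset.sum_add_distrib]
  exact Finset.sum_congr rfl fun j _ => by ring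

theorem lSm_smooth (h : HM D τ δ) (hτ : D.Good τ) (hδ : 0 < δ) {e : Fin k → ℝ}
    (ps : PS D (h.rho e) ι) (N : ℝ) (y : ι → ℝ) (w : Fin k → ℂ) :
    ContDiffOn ℝ (⊤ : ℕ∞) (lS h ps N y w) (D.Ue δ) := by
  unfold lS
  have h1 := (rho_facts h hτ hδ e w).1
  have h2 := (rho_facts h hτ hδ e w).2.1
  refine ContDiffOn.add (ContDiffOn.add ?_ ?_) h2
  · refine contDiffOn_const.mul ?_
    exact Complex.ofRealCLM.contDiff.comp_contDiffOn (contDiffOn_const.mul h1)
  · refine contDiffOn_const.mul ?_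
    refine Complex.ofRealCLM.contDiff.comp_contDiffOn ?_
    exact ContDiffOn.sum fun i _ => contDiffOn_const.mul (ps.smooth i).contDiffOn

theorem dzb_lS (h : HM D τ δ) (hτ : D.Good τ) (hδ : 0 < δ) {e : Fin k → ℝ}
    (ps : PS D (h.rho e) ι) (N : ℝ) (y : ι → ℝ) (w : Fin k → ℂ) {z : ℂ} (hz : z ∈ D.Ue δ) :
    dzb (lS h ps N y w) z = Complex.I * N * conj (h.vv e z) +
      Complex.I * ∑ i, (y i : ℂ) * dzb (fun u => (ps.chi i u : ℂ)) z + h.vb w z := by
  obtain ⟨h1, h2, -, -, h5, h6, -⟩ := rho_facts h hτ hδ e w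
  have hn := (D.Ue_open δ).mem_nhds hz
  have d1 : DifferentiableAt ℝ (fun u => (h.rho e u : ℂ)) z :=
    Complex.ofRealCLM.differentiableAt.comp z
      ((h1.contDiffAt hn).differentiableAt (by simp))
  have d2 : DifferentiableAt ℝ (h.rhoC w) z := (h2.contDiffAt hn).differentiableAt (by simp)
  have d3 : ∀ i, DifferentiableAt ℝ (fun u => (ps.chi i u : ℂ)) z := fun i =>
    Complex.ofRealCLM.differentiableAt.comp z
      ((ps.smooth i).contDiffAt.differentiableAt (by simp))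
  have e0 : lS h ps N y w = fun u => ((Complex.I * N) • (h.rho e u : ℂ) +
      ∑ i, (Complex.I * y i) • (ps.chi i u : ℂ)) + h.rhoC w u := by
    funext u
    simp only [lS, smul_eq_mul]
    push_cast
    rw [Finset.mul_sum]
    congr 1
    congr 1
    · ring
    · exact Finset.sum_congr rfl fun i _ => by ring
  have d4 : DifferentiableAt ℝ (fun u => (Complex.I * N) • (h.rho e u : ℂ)) z :=
    (differentiableAt_const (Complex.I * N : ℂ)).fun_smul d1
  have d5 : ∀ i, DifferentiableAt ℝ (fun u => (Complex.I * y i) • (ps.chi i u : ℂ)) z := fun i =>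
    (differentiableAt_const (Complex.I * y i : ℂ)).fun_smul (d3 i)
  have d6 : DifferentiableAt ℝ (fun u => ∑ i, (Complex.I * y i) • (ps.chi i u : ℂ)) z :=
    DifferentiableAt.fun_sum fun i _ => d5 i
  rw [e0, (dz_add (d4.fun_add d6) d2).2, (dz_add d4 d6).2, (dz_sum _ fun i _ => d5 i).2,
    (dz_smul (f := fun _ => Complex.I * N) (differentiableAt_const _) d1).2, dz_const.2,
    h5 z hz, h6 z hz]
  have e7 : ∀ i, dzb (fun u => (Complex.I * (y i : ℂ)) • (ps.chi i u : ℂ)) z =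
      Complex.I * ((y i : ℂ) * dzb (fun u => (ps.chi i u : ℂ)) z) := by
    intro i
    rw [(dz_smul (f := fun _ => Complex.I * (y i : ℂ)) (differentiableAt_const _) (d3 i)).2,
      dz_const.2]
    simp only [smul_eq_mul]
    ring
  rw [Finset.sum_congr rfl fun i _ => e7 i, ← Finset.mul_sum]
  simp only [smul_eq_mul]
  ring

theorem dzb_lS_cont (h : HM D τ δ) (hτ : D.Good τ) (hδ : 0 < δ) {e : Fin k → ℝ}
    (ps : PS D (h.rho e) ι) (N : ℝ) (y : ι → ℝ) (w : Fin k → ℂ) :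
    ContinuousOn (dzb (lS h ps N y w)) D.cU :=
  ((dz_contDiffOn (D.Ue_open δ) (lSm_smooth h hτ hδ ps N y w)).2.continuousOn).mono
    (D.cU_subset_Ue hδ)

theorem vv_cont (h : HM D τ δ) (hτ : D.Good τ) (hδ : 0 < δ) (e : Fin k → ℝ) :
    ContinuousOn (h.vv e) D.cU :=
  (rho_facts h hτ hδ e 0).2.2.1.continuousOn.mono (D.cU_subset_Ue hδ)

theorem vb_cont (h : HM D τ δ) (hδ : 0 < δ) (w : Fin k → ℂ) :
    ContinuousOn (h.vb w) D.cU := by
  unfold HM.vb
  refine continuousOn_finsetSum _ fun j _ => continuousOn_const.mul ?_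
  exact Complex.continuous_conj.comp_continuousOn
    ((h.hol j).continuousOn.mono (D.cU_subset_Ue hδ))

theorem dzb_ps_cont {ρ : ℂ → ℝ} (ps : PS D ρ ι) (i : ι) :
    Continuous (dzb (fun u => (ps.chi i u : ℂ))) := by
  have h := (dz_contDiffOn (F := fun u => (ps.chi i u : ℂ)) isOpen_univ
    (Complex.ofRealCLM.contDiff.comp (ps.smooth i)).contDiffOn).2
  exact (contDiffOn_univ.1 h).continuous

/-- bound for the multiplier -/
theorem dzb_lS_bound (h : HM D τ δ) (hτ : D.Good τ) (hδ : 0 < δ) {e : Fin k → ℝ}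
    (ps : PS D (h.rho e) ι) (Λ : ℝ) :
    ∃ C : ℝ, 0 ≤ C ∧ ∀ N : ℝ, 1 ≤ N → ∀ y : ι → ℝ, (∀ i, |y i| ≤ Λ) → ∀ z ∈ D.U,
      ‖dzb (lS h ps N y 0) z‖ ≤ C * N := by
  obtain ⟨C₁, hC₁⟩ := D.cU_compact.exists_bound_of_continuousOn (vv_cont h hτ hδ e)
  have hb : ∀ i, ∃ C : ℝ, ∀ z ∈ D.cU, ‖dzb (fun u => (ps.chi i u : ℂ)) z‖ ≤ C := fun i =>
    D.cU_compact.exists_bound_of_continuousOn (dzb_ps_cont ps i).continuousOn
  choose C₂ hC₂ using hb
  refine ⟨|C₁| + ∑ i, |Λ| * |C₂ i|, by positivity, fun N hN y hy z hz => ?_⟩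
  have hzc := D.U_subset_cU hz
  rw [dzb_lS h hτ hδ ps N y 0 (D.cU_subset_Ue hδ hzc)]
  have e1 : h.vb 0 z = 0 := by simp [HM.vb]
  rw [e1, add_zero]
  have hN0 : 0 ≤ N := zero_le_one.trans hN
  have b1 : ‖Complex.I * N * conj (h.vv e z)‖ ≤ |C₁| * N := by
    rw [norm_mul, norm_mul, Complex.norm_I, one_mul, RCLike.norm_conj, Complex.norm_real,
      Real.norm_of_nonneg hN0, mul_comm]
    exact mul_le_mul_of_nonneg_right ((hC₁ z hzc).trans (le_abs_self _)) hN0
  have b2 : ‖Complex.I * ∑ i, (y i : ℂ) * dzb (fun u => (ps.chi i u : ℂ)) z‖ ≤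
      (∑ i, |Λ| * |C₂ i|) * 1 := by
    rw [norm_mul, Complex.norm_I, one_mul, mul_one]
    refine (norm_sum_le _ _).trans (Finset.sum_le_sum fun i _ => ?_)
    rw [norm_mul, Complex.norm_real, Real.norm_eq_abs]
    exact mul_le_mul ((hy i).trans (le_abs_self _)) ((hC₂ i z hzc).trans (le_abs_self _))
      (norm_nonneg _) (abs_nonneg _)
  have b3 : (∑ i, |Λ| * |C₂ i|) * 1 ≤ (∑ i, |Λ| * |C₂ i|) * N :=
    mul_le_mul_of_nonneg_left hN (by positivity)
  calc _ ≤ _ := norm_add_le _ _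
    _ ≤ |C₁| * N + (∑ i, |Λ| * |C₂ i|) * N := add_le_add b1 (b2.trans b3)
    _ = _ := by ring

/-- the canonical solution attached to `S u`, `u` holomorphic -/
theorem canon_eq (h : HM D τ δ) (hτ : D.Good τ) (hδ : 0 < δ) {e : Fin k → ℝ}
    (ps : PS D (h.rho e) ι) {T : D.L2 →L[ℂ] D.L2} (hT : D.IsKohn T) (N : ℝ) (y : ι → ℝ)
    (w : Fin k → ℂ) (u : D.Berg) :
    D.Mul (fun z => Complex.exp (lS h ps N y w z)) u -
        (D.Toe (fun z => Complex.exp (lS h ps N y w z)) u : D.L2) =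
      T (D.Mul (dzb (lS h ps N y w)) (D.Mul (fun z => Complex.exp (lS h ps N y w z)) u)) := by
  have hl := lSm_smooth h hτ hδ ps N y w
  have hS : ContDiffOn ℝ (⊤ : ℕ∞) (fun z => Complex.exp (lS h ps N y w z)) (D.Ue δ) := hl.cexp
  have hcS : ContinuousOn (fun z => Complex.exp (lS h ps N y w z)) D.cU :=
    hS.continuousOn.mono (D.cU_subset_Ue hδ)
  apply kohn_unique D hT
  · have h1 := weak_mul D (D.Ue_open δ) (D.cU_subset_Ue hδ) hS
      (weak_hol_zero D (u := (u : D.L2)) u.2)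
    have h2 := weak_smul D (-1)
      (weak_hol_zero D (u := (D.Toe (fun z => Complex.exp (lS h ps N y w z)) u : D.L2))
        (D.Toe (fun z => Complex.exp (lS h ps N y w z)) u).2)
    have h3 := weak_add D h1 h2
    rw [map_zero, zero_add, smul_zero, add_zero, neg_one_smul, ← sub_eq_add_neg] at h3
    have h4 : D.Mul (dzb (fun z => Complex.exp (lS h ps N y w z))) (u : D.L2) =
        D.Mul (dzb (lS h ps N y w)) (D.Mul (fun z => Complex.exp (lS h ps N y w z)) u) := by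
      rw [mul_mul D (dzb_lS_cont h hτ hδ ps N y w) hcS]
      have hc1 : ContinuousOn (dzb (fun z => Complex.exp (lS h ps N y w z))) D.cU :=
        ((dz_contDiffOn (D.Ue_open δ) hS).2.continuousOn).mono (D.cU_subset_Ue hδ)
      refine congrArg (fun L : D.L2 →L[ℂ] D.L2 => L (u : D.L2)) (mul_congr D hc1
        (b' := fun z => dzb (lS h ps N y w) z * Complex.exp (lS h ps N y w z))
        ((dzb_lS_cont h hτ hδ ps N y w).mul hcS) ?_)
      intro z hz
      have hzU := D.cU_subset_Ue hδ (D.U_subset_cU hz)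
      have hd : DifferentiableAt ℝ (lS h ps N y w) z :=
        (hl.contDiffAt ((D.Ue_open δ).mem_nhds hzU)).differentiableAt (by simp)
      rw [(dz_cexp hd).2, mul_comm]
    rw [h4] at h3
    exact h3
  · have h1 : (D.Toe (fun z => Complex.exp (lS h ps N y w z)) u : D.Berg) =
      D.P (D.Mul (fun z => Complex.exp (lS h ps N y w z)) u) := rfl
    rw [map_sub, h1]
    have h2 : D.P (D.P (D.Mul (fun z => Complex.exp (lS h ps N y w z)) u) : D.L2) =
        D.P (D.Mul (fun z => Complex.exp (lS h ps N y w z)) u) :=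
      Submodule.orthogonalProjectionOnto_mem_subspace_eq_self _
    rw [h2, sub_self]

/-- unimodular multipliers preserve the norm -/
theorem norm_Mul_unimod {S : ℂ → ℂ} (hS : ContinuousOn S D.cU) (h1 : ∀ z ∈ D.U, ‖S z‖ = 1)
    (u : D.L2) : ‖D.Mul S u‖ = ‖u‖ := by
  have h2 : ∀ᵐ z ∂(volume.restrict D.U), ‖(D.Mul S u : ℂ → ℂ) z‖ = ‖(u : ℂ → ℂ) z‖ := by
    filter_upwards [D.Mul_coe hS u, ae_restrict_mem D.U_open.measurableSet] with z hz hzU
    rw [hz, norm_mul, h1 z hzU, one_mul]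
  refine le_antisymm (Lp.norm_le_norm_of_ae_le ?_) (Lp.norm_le_norm_of_ae_le ?_)
  · filter_upwards [h2] with z hz using hz.le
  · filter_upwards [h2] with z hz using hz.ge

/-- Fredholm alternative for `1 - T M_b` -/
theorem isUnit_of_inj {T : D.L2 →L[ℂ] D.L2} (hT : D.IsKohn T) (B : D.L2 →L[ℂ] D.L2)
    (hinj : ∀ u : D.L2, u = T (B u) → u = 0) : IsUnit (1 - T ∘L B) := by
  have hc : IsCompactOperator (T ∘L B) := hT.compact.comp_clm B
  rcases hc.hasEigenvalue_or_mem_resolventSet (μ := (1 : ℂ)) one_ne_zero with h1 | h1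
  · exfalso
    obtain ⟨v, hv⟩ := h1.exists_hasEigenvector
    apply hv.2
    apply hinj
    have h2 := hv.apply_eq_smul
    rw [one_smul] at h2
    exact h2.symm
  · rw [spectrum.mem_resolventSet_iff, map_one] at h1
    exact h1

/-- gauge transformation of solutions -/
theorem gauge (h : HM D τ δ) (hτ : D.Good τ) (hδ : 0 < δ) (hδτ : δ ≤ τ) {x₀ : Fin k → ℝ}
    (hx₀ : ∀ l, ∃ n : ℤ, h.Rm.mulVec x₀ l = n) {b : ℂ → ℂ} (hb : ContinuousOn b D.cU) {u : D.L2}
    (hu0 : u ≠ 0) (hP : D.P u = 0) (hw : D.WeakDbar u (D.Mul b u)) :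
    ∃ u' : D.L2, u' ≠ 0 ∧ D.P u' = 0 ∧
      D.WeakDbar u' (D.Mul (fun z => b z + h.vb (fun j => (x₀ j : ℂ)) z) u') := by
  obtain ⟨f, hfd, hf0, hfn⟩ := exists_phi h hτ hδ hδτ hx₀
  have hsub := D.cU_subset_Ue hδ
  have hopen := D.Ue_open δ
  -- the conjugate of `f`
  obtain ⟨F, hF⟩ : ∃ F : ℂ → ℂ, F = fun z => conj (f z) := ⟨_, rfl⟩
  have hfR : ContDiffOn ℝ (⊤ : ℕ∞) f (D.Ue δ) := hol_contDiffOn hopen hfd
  have hFs : ContDiffOn ℝ (⊤ : ℕ∞) F (D.Ue δ) := by
    rw [hF]; exact (Complex.conjCLE : ℂ →L[ℝ] ℂ).contDiff.comp_contDiffOn hfR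
  have hFc : ContinuousOn F D.cU := hFs.continuousOn.mono hsub
  have hF0 : ∀ z ∈ D.Ue δ, F z ≠ 0 := by
    intro z hz
    rw [hF]
    simpa using hf0 z hz
  -- the derivative of `F`
  have hder : ∀ z ∈ D.Ue δ, dzb F z = h.vb (fun j => (x₀ j : ℂ)) z * F z := by
    intro z hz
    have hn := hopen.mem_nhds hz
    have hfz : DifferentiableAt ℂ f z := hfd.differentiableAt hn
    have e1 : (fun w => f w • F w) =ᶠ[𝓝 z] fun w => Complex.exp ((h.rho x₀ w : ℝ) : ℂ) := by
      filter_upwards [hn] with w hw'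
      rw [hF, smul_eq_mul]
      beta_reduce
      rw [Complex.mul_conj, Complex.normSq_eq_norm_sq, hfn w hw', Complex.ofReal_exp]
    have e2 := (dz_congr e1).2
    have hρ : DifferentiableAt ℝ (fun w => ((h.rho x₀ w : ℝ) : ℂ)) z :=
      Complex.ofRealCLM.differentiableAt.comp z
        (((rho_facts h hτ hδ x₀ 0).1.contDiffAt hn).differentiableAt (by simp))
    have hFz : DifferentiableAt ℝ F z := (hFs.contDiffAt hn).differentiableAt (by simp)
    rw [(dz_smul (hfz.restrictScalars ℝ) hFz).2, (dz_hol hfz).2, (dz_cexp hρ).2,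
      (rho_facts h hτ hδ x₀ 0).2.2.2.2.1 z hz, zero_smul, zero_add, smul_eq_mul] at e2
    have e3 : Complex.exp ((h.rho x₀ z : ℝ) : ℂ) = f z * F z := by
      rw [hF, ← Complex.ofReal_exp, ← hfn z hz]
      beta_reduce
      rw [Complex.mul_conj, Complex.normSq_eq_norm_sq]
    rw [e3] at e2
    have e4 : conj (h.vv x₀ z) = h.vb (fun j => (x₀ j : ℂ)) z := by
      simp [HM.vv, HM.vb, map_sum]
    rw [e4, mul_assoc] at e2
    have e5 := mul_left_cancel₀ (hf0 z hz) e2
    rw [e5, mul_comm]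
  have hvb : ContinuousOn (h.vb (fun j => (x₀ j : ℂ))) D.cU := vb_cont h hδ _
  refine ⟨D.Mul F u, ?_, ?_, ?_⟩
  · intro h0
    apply hu0
    have hinv : ContinuousOn (fun z => (F z)⁻¹) D.cU := hFc.inv₀ fun z hz => hF0 z (hsub hz)
    have h1 : D.Mul (fun z => (F z)⁻¹ * F z) u = 0 := by
      rw [← mul_mul D hinv hFc, h0, map_zero]
    have h2 : D.Mul (fun z => (F z)⁻¹ * F z) = D.Mul (fun _ => 1) :=
      mul_congr D (hinv.mul hFc) continuousOn_const
        (fun z hz => inv_mul_cancel₀ (hF0 z (hsub (D.U_subset_cU hz))))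
    rw [h2, mul_one'] at h1
    exact h1
  · rw [P_eq_zero_iff] at hP ⊢
    intro g hg
    have h1 := hP (fun z => f z * g z) ?_
    · rw [← h1]
      refine integral_congr_ae ?_
      filter_upwards [D.Mul_coe hFc u] with z hz
      rw [hz, hF]
      beta_reduce
      rw [map_mul]
      ring
    · refine ⟨(hfd.mono (D.U_subset_cU.trans hsub)).mul hg.diff, ?_⟩
      obtain ⟨C, hC⟩ := D.cU_compact.exists_bound_of_continuousOn (hfd.continuousOn.mono hsub)
      refine MemLp.of_le_mul (c := C) hg.memLp ?_ ?_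
      · exact (((hfd.continuousOn.mono hsub).mono D.U_subset_cU).aestronglyMeasurable
          D.U_open.measurableSet).mul hg.memLp.1
      · filter_upwards [ae_restrict_mem D.U_open.measurableSet] with z hz
        rw [norm_mul]
        exact mul_le_mul_of_nonneg_right (hC z (D.U_subset_cU hz)) (norm_nonneg _)
  · have h1 := weak_mul D hopen hsub hFs hw
    have hdc : ContinuousOn (dzb F) D.cU :=
      ((dz_contDiffOn hopen hFs).2.continuousOn).mono hsub
    have h2 : D.Mul F (D.Mul b u) + D.Mul (dzb F) u =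
        D.Mul (fun z => b z + h.vb (fun j => (x₀ j : ℂ)) z) (D.Mul F u) := by
      have c1 : ContinuousOn (fun z => b z + h.vb (fun j => (x₀ j : ℂ)) z) D.cU := hb.add hvb
      have c2 : ContinuousOn (fun z => F z * b z) D.cU := hFc.mul hb
      rw [mul_mul D hFc hb, mul_mul D c1 hFc, ← ContinuousLinearMap.add_apply,
        ← mul_add' D c2 hdc]
      refine congrArg (fun L : D.L2 →L[ℂ] D.L2 => L u) (mul_congr D (c2.add hdc)
        (c1.mul hFc) ?_)
      intro z hz
      rw [hder z (hsub (D.U_subset_cU hz))]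
      ring
    rw [h2] at h1
    exact h1

end

end Pool.Agent.KA
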