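import Pool.Agent.Helper9.KA.C9
import Pool.Agent.Helper9.KA.D7
import Pool.Agent.Helper9.KA.E9g

/-! Infinitely many nonzero solutions on circle domains. -/

set_option autoImplicit false

open MeasureTheory Set Filter Asymptotics Topology Metric
open scoped ComplexConjugate ENNReal

namespace Pool.Agent.KA

open Pool.Agent.Helper7.KE hiding HM PS Bv sfun FF tt lS
open Pool.Agent.EN (AJ ann ann2)

/-- infinitely many `μ` with a nonzero solution -/
theorem circle_main {k : ℕ} {D : AJ k} {τ δ : ℝ} (hτ : D.Good τ) (hδ : 0 < δ) (hδτ : δ ≤ τ)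
    (h : HM D τ δ) {e e' : Fin k → ℝ} (he : e ≠ 0) (R : ℝ) :
    ∃ μ : ℂ, R < ‖μ‖ ∧ ∃ u : D.L2, u ≠ 0 ∧ D.P u = 0 ∧
      D.WeakDbar u (μ • D.Mul (h.vb (fun j => e' j + Complex.I * e j)) u) := by
  classical
  obtain ⟨n, rfl⟩ : ∃ n, k = n + 1 := by
    rcases k with _ | n
    · exact absurd (Subsingleton.elim e 0) he
    · exact ⟨n, rfl⟩
  obtain ⟨z₀, hz₀⟩ := U_nonempty D
  obtain ⟨δf, hδf, -, ⟨ε, hε, hε1, C₀, g, f1, f2, f3, f4, f5, f6⟩, hline⟩ := frames D hτ hz₀
  have hle : min δ δf ≤ δ := min_le_left _ _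
  have hsub : D.Ue (min δ δf) ⊆ D.Ue δf := D.Ue_mono (min_le_right _ _)
  obtain ⟨h', -, hv', -⟩ := HM_mono D h hle
  have hδ' : 0 < min δ δf := lt_min hδ hδf
  obtain ⟨m, ⟨ps⟩⟩ := exists_PS h' hτ hδ' (hle.trans hδτ) he
  have hfr : IsFrame D τ (min δ δf) z₀ ε C₀ g :=
    { cont := fun b => (f1 b).mono (prod_mono_right hsub)
      hol := fun b t ht => (f2 b t ht).mono hsub
      holt := fun b z hz => f3 b z (hsub hz)
      vv := f4
      res := f5
      dec := f6 }
  obtain ⟨μ, hμ, u, hu, hP, hw⟩ := core (e' := e') hτ hδ' (hle.trans hδτ) h' he ps hz₀ hε hε1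
    hfr (by
      intro T hT
      obtain ⟨d, gl, l1, l2, l3, l4, l5, l6, l7⟩ := hline (fun j => e' j + Complex.I * e j) T hT
      exact ⟨d, gl,
        { hd := l1
          d0 := l2
          cont := fun b => (l3 b).mono (prod_mono_right hsub)
          hol := fun b s hs => (l4 b s hs).mono hsub
          hols := fun b z hz => l5 b z (hsub hz)
          vv := l6
          res := l7 }⟩) R
  refine ⟨μ, hμ, u, hu, hP, ?_⟩
  have e1 : h'.vb (fun j => e' j + Complex.I * e j) = h.vb (fun j => e' j + Complex.I * e j) := by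
    unfold HM.vb
    rw [hv']
  rw [← e1]
  exact hw

end Pool.Agent.KA
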