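import Pool.Agent.Helper7.KE.B1b
import Pool.Agent.Helper7.KE.C0a
import Pool.Agent.Helper7.KE.C0b
import Pool.Agent.Helper9.KA.E1
import Pool.Agent.Helper9.KA.D5a

/-! Auxiliary results for the assembly: bordered determinants, expansions of families. -/

set_option autoImplicit false

open MeasureTheory Set Filter Asymptotics Topology Metric
open scoped ComplexConjugate ENNReal

namespace Pool.Agent.KA

open Pool.Agent.Helper7.KE hiding HM PS Bv sfun FF tt lS
open Pool.Agent.EN (AJ ann ann2)

/-! ### bordered determinants -/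

theorem Fdet_mul {n : ℕ} (Q : Matrix (Fin (n + 1)) (Fin (n + 1)) ℂ) (B : Fin (n + 1) → Fin n → ℂ)
    (s : Fin (n + 1) → ℂ) :
    Fdet (fun b l => ∑ b', Q b b' * B b' l) (fun b => ∑ b', Q b b' * s b') =
      Q.det * Fdet B s := by
  unfold Fdet
  rw [← Matrix.det_mul]
  congr 1
  ext b l
  rw [Matrix.mul_apply]
  refine Fin.lastCases ?_ (fun l => ?_) l
  · simp [Matrix.of_apply]
  · simp [Matrix.of_apply]

theorem Fdet_last {n : ℕ} (c : ℂ) (B : Fin (n + 1) → Fin n → ℂ) (s : Fin (n + 1) → ℂ) :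
    Fdet B (fun b => c * s b) = c * Fdet B s := by
  unfold Fdet
  have h : (Matrix.of fun b l => Fin.snoc (α := fun _ => ℂ) (B b) (c * s b) l) =
      (Matrix.of fun b l => Fin.snoc (α := fun _ => ℂ) (B b) (s b) l) *
        Matrix.diagonal (Fin.snoc (α := fun _ => ℂ) (fun _ => 1) c) := by
    ext b l
    rw [Matrix.mul_diagonal]
    refine Fin.lastCases ?_ (fun l => ?_) l
    · simp [Matrix.of_apply, mul_comm]
    · simp [Matrix.of_apply]
  rw [h, Matrix.det_mul, Matrix.det_diagonal, Fin.prod_univ_castSucc]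
  simp [mul_comm]

/-! ### expansions of products and determinants -/

theorem exists_prod_scale {s : Finset (ℝ × ℕ)} {κ : ℝ} (hs : GoodScale κ s) (hκ : Irrational κ)
    (hκ' : 0 < κ) (m : ℕ) : ∃ s' : Finset (ℝ × ℕ), GoodScale κ s' ∧
      ∀ (A : Type) [NormedCommRing A] [NormedAlgebra ℂ A] (f : Fin m → ℝ → A),
        (∀ i, HasExp s κ (f i)) → HasExp s' κ (fun N => ∏ i, f i N) := by
  induction m with
  | zero =>
    refine ⟨{(0, 0)}, ?_, ?_⟩
    · intro p hp
      rw [Finset.mem_singleton] at hp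
      subst hp
      exact ⟨le_refl _, hκ', fun _ => rfl, 0, by simp⟩
    · intro A _ _ f _
      simp only [Finset.univ_eq_empty, Finset.prod_empty]
      exact HasExp.const (by simp) 1
  | succ m ih =>
    obtain ⟨s', h1, h2⟩ := ih
    obtain ⟨s'', h3, h4⟩ := exists_mul_scale hs h1 hκ hκ'
    refine ⟨s'', h3, ?_⟩
    intro A _ _ f hf
    simp only [Fin.prod_univ_succ]
    exact h4 A _ _ (hf 0) (h2 A _ fun i => hf i.succ)

theorem exists_det_scale {s : Finset (ℝ × ℕ)} {κ : ℝ} (hs : GoodScale κ s) (hκ : Irrational κ)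
    (hκ' : 0 < κ) (m : ℕ) : ∃ s' : Finset (ℝ × ℕ), GoodScale κ s' ∧
      ∀ (A : Type) [NormedCommRing A] [NormedAlgebra ℂ A] (M : Fin m → Fin m → ℝ → A),
        (∀ i j, HasExp s κ (M i j)) →
          HasExp s' κ (fun N => Matrix.det (Matrix.of fun i j => M i j N)) := by
  obtain ⟨s', h1, h2⟩ := exists_prod_scale hs hκ hκ' m
  refine ⟨s', h1, ?_⟩
  intro A _ _ M hM
  simp only [Matrix.det_apply']
  apply HasExp.sum
  intro σ _
  have h3 := h2 A (fun i => M (σ i) i) fun i => hM _ _
  have h4 := h3.clm ((((Equiv.Perm.sign σ : ℤ) : ℂ)) • ContinuousLinearMap.id ℂ A)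
  refine h4.congr (Filter.Eventually.of_forall fun N => ?_)
  simp only [smul_apply, ContinuousLinearMap.id_apply, Matrix.of_apply]
  rw [Algebra.smul_def]
  simp

/-! ### integrals over the domain depending on parameters -/

section params
variable {k : ℕ} (D : AJ k)

/-- integration over `U` as a functional on the continuous functions on the closed domain -/
theorem exists_intC : ∃ L : C(D.cU, ℂ) →L[ℂ] ℂ, ∀ (f : C(D.cU, ℂ)) (F : ℂ → ℂ),
    (∀ z : D.cU, F z = f z) → ∫ z in D.U, F z = L f := by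
  classical
  have hK : CompactSpace D.cU := isCompact_iff_compactSpace.1 D.cU_compact
  let ext : C(D.cU, ℂ) → ℂ → ℂ := fun f z => if hz : z ∈ D.cU then f ⟨z, hz⟩ else 0
  have hext : ∀ f, ContinuousOn (ext f) D.cU := by
    intro f
    rw [continuousOn_iff_continuous_domRestrict]
    convert f.continuous using 1
    ext z
    simp [ext]
  have hint : ∀ f, Integrable (ext f) (volume.restrict D.U) := by
    intro f
    have h1 : IntegrableOn (ext f) D.cU volume := (hext f).integrableOn_compact D.cU_compact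
    exact h1.mono_set D.U_subset_cU
  refine ⟨LinearMap.mkContinuousOfExistsBound
    { toFun := fun f => ∫ z in D.U, ext f z
      map_add' := fun f g => ?_
      map_smul' := fun c f => ?_ } ⟨(volume D.U).toReal, fun f => ?_⟩, ?_⟩
  · rw [← integral_add (hint f) (hint g)]
    refine integral_congr_ae (Filter.Eventually.of_forall fun z => ?_)
    by_cases hz : z ∈ D.cU <;> simp [ext, hz]
  · rw [RingHom.id_apply, ← integral_smul]
    refine integral_congr_ae (Filter.Eventually.of_forall fun z => ?_)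
    by_cases hz : z ∈ D.cU <;> simp [ext, hz]
  · simp only [LinearMap.coe_mk, AddHom.coe_mk]
    have h1 : ∀ᵐ z ∂(volume.restrict D.U), ‖ext f z‖ ≤ ‖f‖ := by
      refine Filter.Eventually.of_forall fun z => ?_
      by_cases hz : z ∈ D.cU
      · simp only [ext, hz, dif_pos]
        exact f.norm_coe_le_norm _
      · simp only [ext, hz, dif_neg, not_false_eq_true, norm_zero, norm_nonneg]
    have h2 := norm_integral_le_of_norm_le_const h1
    rw [mul_comm]
    refine h2.trans (le_of_eq ?_)
    simp [Measure.real]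
  · intro f F hF
    simp only [LinearMap.mkContinuousOfExistsBound_apply, LinearMap.coe_mk, AddHom.coe_mk]
    refine setIntegral_congr_fun D.U_open.measurableSet fun z hz => ?_
    have hz' := D.U_subset_cU hz
    simp only [ext, hz', dif_pos]
    exact hF ⟨z, hz'⟩

theorem hol_integral {V : Set ℂ} (hV : IsOpen V) {Φ : ℂ → ℂ → ℂ}
    (hc : ContinuousOn (fun p : ℂ × ℂ => Φ p.1 p.2) (V ×ˢ D.cU))
    (hd : ∀ z ∈ D.cU, DifferentiableOn ℂ (fun μ => Φ μ z) V) :
    DifferentiableOn ℂ (fun μ => ∫ z in D.U, Φ μ z) V := by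
  have hK : CompactSpace D.cU := isCompact_iff_compactSpace.1 D.cU_compact
  obtain ⟨L, hL⟩ := exists_intC D
  obtain ⟨F, hF, hF'⟩ := curry_hol (K := D.cU) hV (G := fun z μ => Φ μ z) (by
    have h1 : ContinuousOn (fun p : D.cU × ℂ => ((p.2, (p.1 : ℂ)) : ℂ × ℂ)) (univ ×ˢ V) := by
      fun_prop
    exact hc.comp h1 fun p hp => ⟨hp.2, p.1.2⟩) (fun z => hd z z.2)
  have h2 : DifferentiableOn ℂ (fun μ => L (F μ)) V := L.differentiable.comp_differentiableOn hF
  refine h2.congr fun μ hμ => ?_
  exact hL (F μ) _ fun z => (hF' μ hμ z).symm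

theorem cont_integral {X : Type*} [TopologicalSpace X] {S : Set X} {Φ : X → ℂ → ℂ}
    (hc : ContinuousOn (fun p : X × ℂ => Φ p.1 p.2) (S ×ˢ D.cU)) :
    ContinuousOn (fun x => ∫ z in D.U, Φ x z) S := by
  have hK : CompactSpace D.cU := isCompact_iff_compactSpace.1 D.cU_compact
  obtain ⟨L, hL⟩ := exists_intC D
  rw [continuousOn_iff_continuous_domRestrict]
  let G : C(S × D.cU, ℂ) := ⟨fun p => Φ p.1 p.2, by
    have h1 : Continuous (fun p : S × D.cU => (((p.1 : X), (p.2 : ℂ)) : X × ℂ)) := by fun_prop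
    exact hc.comp_continuous h1 fun p => ⟨p.1.2, p.2.2⟩⟩
  have h2 : Continuous (fun x : S => L (G.curry x)) := L.continuous.comp G.curry.continuous
  convert h2 using 1
  ext x
  exact hL (G.curry x) _ fun z => rfl

end params

end Pool.Agent.KA
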