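import Pool.Agent.Helper9.KA.E9a

/-! Expansions of the bordered determinants of families, with coefficients holomorphic in `μ`. -/

set_option autoImplicit false

open MeasureTheory Set Filter Asymptotics Topology Metric
open scoped ComplexConjugate ENNReal

namespace Pool.Agent.KA

open Pool.Agent.Helper7.KE hiding HM PS Bv sfun FF tt lS
open Pool.Agent.EN (AJ ann ann2)

section
variable {k : ℕ} {D : AJ k} {τ δ : ℝ} {ι : Type} [Fintype ι] [DecidableEq ι]

theorem chiC_cont (τ : ℝ) (hτ : D.Good τ) (l : Option (Fin k)) :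
    ContDiff ℝ (⊤ : ℕ∞) (fun w => (D.chi τ l w : ℂ)) :=
  Complex.ofRealCLM.contDiff.comp (chi_smooth D hτ l)

theorem dzb_chi_cont (hτ : D.Good τ) (l : Option (Fin k)) :
    Continuous (dzb (fun w => (D.chi τ l w : ℂ))) := by
  have h := (dz_contDiffOn isOpen_univ (chiC_cont τ hτ l).contDiffOn).2
  exact (contDiffOn_univ.1 h).continuous

/-- `sfun` is holomorphic in the parameter -/
theorem sfun_hol (hτ : D.Good τ) (hδ : 0 < δ) {V : Set ℂ} (hV : IsOpen V)
    {t : Fin k → ℂ → ℂ} (ht : ∀ j, DifferentiableOn ℂ (t j) V) {g : ℂ → ℂ → ℂ}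
    (hg : ContinuousOn (fun p : ℂ × ℂ => g p.1 p.2) (V ×ˢ D.Ue δ))
    (hg' : ∀ z ∈ D.Ue δ, DifferentiableOn ℂ (fun μ => g μ z) V) :
    DifferentiableOn ℂ (fun μ => sfun D τ (fun j => t j μ) (g μ)) V := by
  unfold sfun
  refine DifferentiableOn.fun_sum fun j _ => ?_
  refine ((ht j).sub_const 1).mul ?_
  refine hol_integral D hV (Φ := fun μ z => g μ z * dzb (fun w => (D.chi τ (some j) w : ℂ)) z)
    ?_ ?_
  · refine (hg.mono (prod_mono_right (D.cU_subset_Ue hδ))).mul ?_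
    exact ((dzb_chi_cont hτ (some j)).comp continuous_snd).continuousOn
  · intro z hz
    exact (hg' z (D.cU_subset_Ue hδ hz)).mul_const _

theorem sfun_cont (hτ : D.Good τ) (hδ : 0 < δ) {X : Type*} [TopologicalSpace X] {S : Set X}
    {t : Fin k → X → ℂ} (ht : ∀ j, ContinuousOn (t j) S) {g : X → ℂ → ℂ}
    (hg : ContinuousOn (fun p : X × ℂ => g p.1 p.2) (S ×ˢ D.Ue δ)) :
    ContinuousOn (fun x => sfun D τ (fun j => t j x) (g x)) S := by
  unfold sfun
  refine continuousOn_finsetSum _ fun j _ => ?_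
  refine ((ht j).sub continuousOn_const).mul ?_
  refine cont_integral D (Φ := fun x z => g x z * dzb (fun w => (D.chi τ (some j) w : ℂ)) z) ?_
  refine (hg.mono (prod_mono_right (D.cU_subset_Ue hδ))).mul ?_
  exact ((dzb_chi_cont hτ (some j)).comp continuous_snd).continuousOn

/-- `Bv` is holomorphic in the parameter -/
theorem Bv_hol (hτ : D.Good τ) (hδ : 0 < δ) (h : HM D τ δ) (x : Fin k → ℝ)
    (ps : PS D (h.rho x) ι) (N : ℝ) (φ : ι → ℝ) {V : Set ℂ} (hV : IsOpen V)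
    {w : Fin k → ℂ → ℂ} (hw : ∀ j, DifferentiableOn ℂ (w j) V) {g : ℂ → ℂ → ℂ}
    (hg : ContinuousOn (fun p : ℂ × ℂ => g p.1 p.2) (V ×ˢ D.Ue δ))
    (hg' : ∀ z ∈ D.Ue δ, DifferentiableOn ℂ (fun μ => g μ z) V) {q : ℂ → ℂ}
    (hq : DifferentiableOn ℂ q (D.Ue δ)) :
    DifferentiableOn ℂ (fun μ => Bv h ps N φ (fun j => w j μ) (g μ) q) V := by
  unfold Bv
  refine DifferentiableOn.fun_sum fun i _ => ?_
  refine DifferentiableOn.const_mul ?_ _
  have hsub := D.cU_subset_Ue hδ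
  have hρ : ContinuousOn (h.rho x) (D.Ue δ) := (rho_facts h hτ hδ x 0).1.continuousOn
  have hom : ∀ j, ContinuousOn (fun z => (h.om j z : ℂ)) (D.Ue δ) := fun j =>
    Complex.continuous_ofReal.comp_continuousOn (h.smooth j).continuousOn
  have hsnd : ContinuousOn (fun p : ℂ × ℂ => p.2) (V ×ˢ D.cU) := continuousOn_snd
  have hmaps : MapsTo (fun p : ℂ × ℂ => p.2) (V ×ˢ D.cU) (D.Ue δ) := fun p hp => hsub hp.2
  refine hol_integral D hV (Φ := fun μ z => (ps.chi i z : ℂ) *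
    Complex.exp (Complex.I * (N * (h.rho x z - ps.c i) : ℝ)) *
      Complex.exp (h.rhoC (fun j => w j μ) z) * g μ z * conj (q z)) ?_ ?_
  · refine (((ContinuousOn.mul (ContinuousOn.mul ?_ ?_) ?_).mul ?_).mul ?_)
    · exact (Complex.continuous_ofReal.comp ((ps.smooth i).continuous.comp
        continuous_snd)).continuousOn
    · refine Complex.continuous_exp.comp_continuousOn (continuousOn_const.mul ?_)
      refine Complex.continuous_ofReal.comp_continuousOn (continuousOn_const.mul ?_)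
      exact (hρ.comp hsnd hmaps).sub continuousOn_const
    · refine Complex.continuous_exp.comp_continuousOn ?_
      unfold HM.rhoC
      refine continuousOn_finsetSum _ fun j _ => ?_
      refine ContinuousOn.mul ?_ ((hom j).comp hsnd hmaps)
      exact (hw j).continuousOn.comp continuousOn_fst fun p hp => hp.1
    · exact hg.mono (prod_mono_right hsub)
    · exact Complex.continuous_conj.comp_continuousOn (hq.continuousOn.comp hsnd hmaps)
  · intro z hz
    refine DifferentiableOn.mul_const (DifferentiableOn.mul ?_ (hg' z (hsub hz))) _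
    refine DifferentiableOn.const_mul ?_ _
    refine DifferentiableOn.cexp ?_
    unfold HM.rhoC
    exact DifferentiableOn.fun_sum fun j _ => (hw j).mul_const _

end

theorem Fdet_hol {n : ℕ} {V : Set ℂ} {B : Fin (n + 1) → Fin n → ℂ → ℂ}
    {s : Fin (n + 1) → ℂ → ℂ} (hB : ∀ b l, DifferentiableOn ℂ (B b l) V)
    (hs : ∀ b, DifferentiableOn ℂ (s b) V) :
    DifferentiableOn ℂ (fun μ => Fdet (fun b l => B b l μ) (fun b => s b μ)) V := by
  unfold Fdet
  simp only [Matrix.det_apply']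
  refine DifferentiableOn.fun_sum fun σ _ => ?_
  refine DifferentiableOn.const_mul ?_ _
  refine DifferentiableOn.fun_finsetProd fun i _ => ?_
  simp only [Matrix.of_apply]
  refine Fin.lastCases ?_ (fun i => ?_) i
  · simpa using hs _
  · simpa using hB _ _

/-- expansions of families -/
theorem family_exp {n : ℕ} {D : AJ (n + 1)} {τ δ : ℝ} {ι : Type} [Fintype ι] [DecidableEq ι]
    (hτ : D.Good τ) (hδ : 0 < δ) (hδτ : δ ≤ τ) (h : HM D τ δ) {x : Fin (n + 1) → ℝ} (hx : x ≠ 0)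
    (ps : PS D (h.rho x) ι) {κ : ℝ} (hκ : 0 < κ) (hκ' : Irrational κ) :
    ∃ s : Finset (ℝ × ℕ), GoodScale κ s ∧
      ∀ (W : Type) [TopologicalSpace W] (KW : Set W) (_ : IsCompact KW) (r : ℝ) (_ : 0 ≤ r)
        (φ : ι → W → ℝ) (_ : ∀ i, ContinuousOn (φ i) KW)
        (w : Fin (n + 1) → W → ℂ → ℂ)
        (_ : ∀ j, ContinuousOn (fun p : W × ℂ => w j p.1 p.2) (KW ×ˢ closedBall 0 r))
        (_ : ∀ j, ∀ v ∈ KW, DifferentiableOn ℂ (w j v) (ball 0 r))
        (t : Fin (n + 1) → W → ℂ → ℂ)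
        (_ : ∀ j, ContinuousOn (fun p : W × ℂ => t j p.1 p.2) (KW ×ˢ closedBall 0 r))
        (_ : ∀ j, ∀ v ∈ KW, DifferentiableOn ℂ (t j v) (ball 0 r))
        (g : Fin (n + 1) → W → ℂ → ℂ → ℂ)
        (_ : ∀ b, ContinuousOn (fun p : (W × ℂ) × ℂ => g b p.1.1 p.1.2 p.2)
          ((KW ×ˢ closedBall 0 r) ×ˢ D.Ue δ))
        (_ : ∀ b, ∀ v ∈ KW, ∀ μ ∈ closedBall (0 : ℂ) r, DifferentiableOn ℂ (g b v μ) (D.Ue δ))
        (_ : ∀ b, ∀ v ∈ KW, ∀ z ∈ D.Ue δ, DifferentiableOn ℂ (fun μ => g b v μ z) (ball 0 r))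
        (q : Fin n → ℂ → ℂ) (_ : ∀ l, DifferentiableOn ℂ (q l) (D.Ue δ)),
        (∀ N, ∀ v ∈ KW, DifferentiableOn ℂ (fun μ => Fdet
            (fun b l => Bv h ps N (fun i => φ i v) (fun j => w j v μ) (g b v μ) (q l))
            (fun b => sfun D τ (fun j => t j v μ) (g b v μ))) (ball 0 r)) ∧
        ∃ c : ℝ × ℕ → W → ℂ → ℂ,
          (∀ p, ContinuousOn (fun a : W × ℂ => c p a.1 a.2) (KW ×ˢ closedBall 0 r)) ∧
          (∀ p, ∀ v ∈ KW, DifferentiableOn ℂ (c p v) (ball 0 r)) ∧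
          ∃ C N₀ : ℝ, ∀ N : ℝ, N₀ ≤ N → ∀ v ∈ KW, ∀ μ ∈ closedBall (0 : ℂ) r,
            ‖Fdet (fun b l => Bv h ps N (fun i => φ i v) (fun j => w j v μ) (g b v μ) (q l))
              (fun b => sfun D τ (fun j => t j v μ) (g b v μ)) -
                ∑ p ∈ s, (sc p N : ℂ) * c p v μ‖ ≤ C * N ^ (-κ) := by
  classical
  obtain ⟨s0, hs0, hexp⟩ := exp_param hτ hδ hδτ h hx ps hκ hκ'
  have hs1 : GoodScale κ (insert (0, 0) s0) := by
    intro p hp
    rcases Finset.mem_insert.1 hp with rfl | hp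
    · exact ⟨le_refl _, hκ, fun _ => rfl, 0, by simp⟩
    · exact hs0 p hp
  obtain ⟨s, hs, hdet⟩ := exists_det_scale hs1 hκ' hκ (n + 1)
  refine ⟨s, hs, ?_⟩
  intro W _ KW hKW r hr φ hφ w hw hw' t ht ht' g hg hg' hg'' q hq
  have hol : ∀ N, ∀ v ∈ KW, DifferentiableOn ℂ (fun μ => Fdet
      (fun b l => Bv h ps N (fun i => φ i v) (fun j => w j v μ) (g b v μ) (q l))
      (fun b => sfun D τ (fun j => t j v μ) (g b v μ))) (ball 0 r) := by
    intro N v hv
    have hgc : ∀ b, ContinuousOn (fun p : ℂ × ℂ => g b v p.1 p.2) (ball 0 r ×ˢ D.Ue δ) := by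
      intro b
      have h1 : ContinuousOn (fun p : ℂ × ℂ => (((v, p.1), p.2) : (W × ℂ) × ℂ))
          (ball 0 r ×ˢ D.Ue δ) := by fun_prop
      exact (hg b).comp h1 fun p hp => ⟨⟨hv, ball_subset_closedBall hp.1⟩, hp.2⟩
    refine Fdet_hol (fun b l => ?_) fun b => ?_
    · exact Bv_hol hτ hδ h x ps N _ isOpen_ball (fun j => hw' j v hv) (hgc b) (hg'' b v hv) (hq l)
    · exact sfun_hol hτ hδ isOpen_ball (fun j => ht' j v hv) (hgc b) (hg'' b v hv)
  refine ⟨hol, ?_⟩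
  have hKc : IsCompact (KW ×ˢ closedBall (0 : ℂ) r : Set (W × ℂ)) :=
    hKW.prod (isCompact_closedBall 0 r)
  have hK : CompactSpace (KW ×ˢ closedBall (0 : ℂ) r : Set (W × ℂ)) :=
    isCompact_iff_compactSpace.1 hKc
  let K : Type := (KW ×ˢ closedBall (0 : ℂ) r : Set (W × ℂ))
  let ph : ι → C(K, ℝ) := fun i => ⟨fun p => φ i p.1.1,
    (hφ i).comp_continuous (continuous_fst.comp continuous_subtype_val) fun p => p.2.1⟩
  let wc : Fin (n + 1) → C(K, ℂ) := fun j => ⟨fun p => w j p.1.1 p.1.2,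
    (hw j).comp_continuous continuous_subtype_val fun p => p.2⟩
  let gc : Fin (n + 1) → K → ℂ → ℂ := fun b p => g b p.1.1 p.1.2
  have hgc : ∀ b, ContinuousOn (fun p : K × ℂ => gc b p.1 p.2) (univ ×ˢ D.Ue δ) := by
    intro b
    have h1 : Continuous (fun p : K × ℂ => ((Subtype.val p.1, p.2) : (W × ℂ) × ℂ)) :=
      (continuous_subtype_val.comp continuous_fst).prodMk continuous_snd
    exact (hg b).comp h1.continuousOn fun p hp => ⟨p.1.2, hp.2⟩
  have hgd : ∀ b (u : K), DifferentiableOn ℂ (gc b u) (D.Ue δ) :=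
    fun b u => hg' b _ u.2.1 _ u.2.2
  choose F hF1 hF2 using fun b l =>
    hexp K ph wc (gc b) (q l) (hgc b) (hgd b) (hq l)
  let S : Fin (n + 1) → C(K, ℂ) := fun b => ⟨fun p => sfun D τ (fun j => t j p.1.1 p.1.2) (gc b p), by
    have h1 := sfun_cont (S := (univ : Set K)) hτ hδ (t := fun j (p : K) => t j p.1.1 p.1.2)
      (fun j => ((ht j).comp_continuous continuous_subtype_val fun p => p.2).continuousOn)
      (g := gc b) (hgc b)
    exact continuousOn_univ.1 h1⟩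
  let M : Fin (n + 1) → Fin (n + 1) → ℝ → C(K, ℂ) := fun b l N =>
    Fin.snoc (α := fun _ => C(K, ℂ)) (fun l => F b l N) (S b) l
  have hM : ∀ b l, HasExp (insert (0, 0) s0) κ (M b l) := by
    intro b l
    refine Fin.lastCases ?_ (fun l => ?_) l
    · simp only [M, Fin.snoc_last]
      exact HasExp.const (Finset.mem_insert_self _ _) _
    · simp only [M, Fin.snoc_castSucc]
      exact (hF2 b l).mono (Finset.subset_insert _ _)
  have h3 := hdet C(K, ℂ) M hM
  have heval : ∀ N (u : K), (Matrix.det (Matrix.of fun i j => M i j N)) u =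
      Fdet (fun b l => Bv h ps N (fun i => φ i u.1.1) (fun j => w j u.1.1 u.1.2)
        (g b u.1.1 u.1.2) (q l)) (fun b => sfun D τ (fun j => t j u.1.1 u.1.2)
          (g b u.1.1 u.1.2)) := by
    intro N u
    have h4 := RingHom.map_det ((ContinuousMap.evalAlgHom ℂ ℂ u : C(K, ℂ) →ₐ[ℂ] ℂ) :
      C(K, ℂ) →+* ℂ) (Matrix.of fun i j => M i j N)
    have h5 : (Matrix.det (Matrix.of fun i j => M i j N)) u =
      ((ContinuousMap.evalAlgHom ℂ ℂ u : C(K, ℂ) →ₐ[ℂ] ℂ) : C(K, ℂ) →+* ℂ)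
        (Matrix.det (Matrix.of fun i j => M i j N)) := rfl
    rw [h5, h4]
    unfold Fdet
    congr 1
    ext b l
    simp only [RingHom.mapMatrix_apply, Matrix.map_apply, Matrix.of_apply]
    refine Fin.lastCases ?_ (fun l => ?_) l
    · simp only [M, Fin.snoc_last]
      rfl
    · simp only [M, Fin.snoc_castSucc]
      exact hF1 b l N u
  obtain ⟨V, hV1, hV2⟩ := closed_hol KW r
  have hmem : ∀ N, Matrix.det (Matrix.of fun i j => M i j N) ∈ V := by
    intro N
    rw [hV2]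
    exact ⟨_, hol N, fun p _ => heval N p⟩
  obtain ⟨c, hc1, hc2⟩ := h3.mem hs V hV1 (Filter.Eventually.of_forall hmem)
  refine ⟨fun p v μ => if hp : (v, μ) ∈ (KW ×ˢ closedBall (0 : ℂ) r : Set (W × ℂ)) then
    c p ⟨(v, μ), hp⟩ else 0, ?_, ?_, ?_⟩
  · intro p
    rw [continuousOn_iff_continuous_domRestrict]
    convert (c p).continuous using 1
    ext a
    have ha : ((a : W × ℂ).1, (a : W × ℂ).2) ∈ (KW ×ˢ closedBall (0 : ℂ) r : Set (W × ℂ)) := a.2
    simp only [Set.domRestrict_apply]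
    rw [dif_pos ha]
  · intro p v hv
    obtain ⟨G, hG1, hG2⟩ := (hV2 (c p)).1 (hc1 p)
    refine (hG1 v hv).congr fun μ hμ => ?_
    have hmem : (v, μ) ∈ (KW ×ˢ closedBall (0 : ℂ) r : Set (W × ℂ)) :=
      ⟨hv, ball_subset_closedBall hμ⟩
    beta_reduce
    rw [dif_pos hmem]
    exact hG2 ⟨(v, μ), hmem⟩ hμ
  · obtain ⟨C, hC⟩ := hc2.bound
    obtain ⟨N₀, hN₀⟩ := Filter.eventually_atTop.1 (hC.and (Filter.eventually_ge_atTop (0 : ℝ)))
    refine ⟨C, N₀, ?_⟩
    intro N hN v hv μ hμ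
    obtain ⟨h6, h7⟩ := hN₀ N hN
    have hmem : (v, μ) ∈ (KW ×ˢ closedBall (0 : ℂ) r : Set (W × ℂ)) := ⟨hv, hμ⟩
    have h8 := (ContinuousMap.norm_coe_le_norm (Matrix.det (Matrix.of fun i j => M i j N) -
      ∑ p ∈ s, (sc p N : ℂ) • c p) (⟨(v, μ), hmem⟩ : K)).trans h6
    rw [Real.norm_of_nonneg (Real.rpow_nonneg h7 _)] at h8
    refine le_of_eq_of_le (congrArg norm ?_) h8
    rw [ContinuousMap.sub_apply, heval, ContinuousMap.sum_apply]
    congr 1
    refine Finset.sum_congr rfl fun p _ => ?_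
    beta_reduce
    rw [dif_pos hmem]
    rfl

end Pool.Agent.KA
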