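import Pool.Agent.Helper9.KA.E9b
import Pool.Agent.Helper9.KA.C7a
import Pool.Agent.Helper9.KA.D6
import Pool.Agent.Helper9.KA.E2a
import Pool.Agent.Helper9.KA.E2b

/-! Linearity of the virtual forms, frames, returns of the linear flow. -/

set_option autoImplicit false

open MeasureTheory Set Filter Asymptotics Topology Metric
open scoped ComplexConjugate ENNReal

namespace Pool.Agent.KA

open Pool.Agent.Helper7.KE hiding HM PS Bv sfun FF tt lS
open Pool.Agent.EN (AJ ann ann2)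

section lin
variable {k : ℕ} {D : AJ k} {τ δ : ℝ} {ι : Type} [Fintype ι] [DecidableEq ι]

theorem Bv_congr (h : HM D τ δ) {ρ : ℂ → ℝ} (ps : PS D ρ ι) (N : ℝ) (φ : ι → ℝ) (w : Fin k → ℂ)
    {g g' q q' : ℂ → ℂ} (hg : ∀ z ∈ D.U, g z = g' z) (hq : ∀ z ∈ D.U, q z = q' z) :
    Bv h ps N φ w g q = Bv h ps N φ w g' q' := by
  unfold Bv
  refine Finset.sum_congr rfl fun i _ => ?_
  congr 1
  refine setIntegral_congr_fun D.U_open.measurableSet fun z hz => ?_
  simp only [hg z hz, hq z hz]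

theorem sfun_congr (t : Fin k → ℂ) {g g' : ℂ → ℂ} (hg : ∀ z ∈ D.U, g z = g' z) :
    sfun D τ t g = sfun D τ t g' := by
  unfold sfun
  refine Finset.sum_congr rfl fun i _ => ?_
  congr 1
  refine setIntegral_congr_fun D.U_open.measurableSet fun z hz => ?_
  simp only [hg z hz]

theorem integrable_of_cont {F : ℂ → ℂ} (hF : ContinuousOn F D.cU) :
    Integrable F (volume.restrict D.U) :=
  (hF.integrableOn_compact D.cU_compact).mono_set D.U_subset_cU

theorem Bv_sum (hτ : D.Good τ) (hδ : 0 < δ) (h : HM D τ δ) (x : Fin k → ℝ)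
    (ps : PS D (h.rho x) ι) (N : ℝ) (φ : ι → ℝ) (w : Fin k → ℂ) {m : Type*} [Fintype m]
    {g : m → ℂ → ℂ} (hg : ∀ b, DifferentiableOn ℂ (g b) (D.Ue δ)) (Q : m → ℂ) {q : ℂ → ℂ}
    (hq : DifferentiableOn ℂ q (D.Ue δ)) :
    Bv h ps N φ w (fun z => ∑ b, Q b * g b z) q = ∑ b, Q b * Bv h ps N φ w (g b) q := by
  unfold Bv
  have key : ∀ i, Complex.exp (Complex.I * φ i) * ∫ z in D.U, (ps.chi i z : ℂ) *
      Complex.exp (Complex.I * (N * (h.rho x z - ps.c i) : ℝ)) *
        Complex.exp (h.rhoC w z) * (∑ b, Q b * g b z) * conj (q z) =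
      ∑ b, Q b * (Complex.exp (Complex.I * φ i) * ∫ z in D.U, (ps.chi i z : ℂ) *
      Complex.exp (Complex.I * (N * (h.rho x z - ps.c i) : ℝ)) *
        Complex.exp (h.rhoC w z) * g b z * conj (q z)) := by
    intro i
    have hsub := D.cU_subset_Ue hδ
    have hρ : ContinuousOn (h.rho x) D.cU := (rho_facts h hτ hδ x 0).1.continuousOn.mono hsub
    have hw : ContinuousOn (h.rhoC w) D.cU := (rho_facts h hτ hδ x w).2.1.continuousOn.mono hsub
    have hint : ∀ b, Integrable (fun z => Q b * ((ps.chi i z : ℂ) *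
        Complex.exp (Complex.I * (N * (h.rho x z - ps.c i) : ℝ)) *
          Complex.exp (h.rhoC w z) * g b z * conj (q z))) (volume.restrict D.U) := by
      intro b
      apply integrable_of_cont
      refine continuousOn_const.mul (((((ContinuousOn.mul ?_ ?_).mul ?_).mul ?_).mul ?_))
      · exact (Complex.continuous_ofReal.comp (ps.smooth i).continuous).continuousOn
      · refine Complex.continuous_exp.comp_continuousOn (continuousOn_const.mul ?_)
        exact Complex.continuous_ofReal.comp_continuousOn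
          (continuousOn_const.mul (hρ.sub continuousOn_const))
      · exact Complex.continuous_exp.comp_continuousOn hw
      · exact (hg b).continuousOn.mono hsub
      · exact Complex.continuous_conj.comp_continuousOn (hq.continuousOn.mono hsub)
    have e1 : ∫ z in D.U, (ps.chi i z : ℂ) *
        Complex.exp (Complex.I * (N * (h.rho x z - ps.c i) : ℝ)) *
          Complex.exp (h.rhoC w z) * (∑ b, Q b * g b z) * conj (q z) =
        ∑ b, ∫ z in D.U, Q b * ((ps.chi i z : ℂ) *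
        Complex.exp (Complex.I * (N * (h.rho x z - ps.c i) : ℝ)) *
          Complex.exp (h.rhoC w z) * g b z * conj (q z)) := by
      rw [← integral_finsetSum _ fun b _ => hint b]
      refine integral_congr_ae (Filter.Eventually.of_forall fun z => ?_)
      simp only [Finset.mul_sum, Finset.sum_mul]
      refine Finset.sum_congr rfl fun b _ => ?_
      ring
    rw [e1, Finset.mul_sum]
    refine Finset.sum_congr rfl fun b _ => ?_
    rw [integral_const_mul]
    ring
  rw [Finset.sum_congr rfl fun i _ => key i, Finset.sum_comm]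
  refine Finset.sum_congr rfl fun b _ => ?_
  rw [Finset.mul_sum]

theorem sfun_sum (hτ : D.Good τ) (hδ : 0 < δ) (t : Fin k → ℂ) {m : Type*} [Fintype m]
    {g : m → ℂ → ℂ} (hg : ∀ b, DifferentiableOn ℂ (g b) (D.Ue δ)) (Q : m → ℂ) :
    sfun D τ t (fun z => ∑ b, Q b * g b z) = ∑ b, Q b * sfun D τ t (g b) := by
  unfold sfun
  have key : ∀ j, (t j - 1) * ∫ z in D.U, (∑ b, Q b * g b z) *
      dzb (fun w => (D.chi τ (some j) w : ℂ)) z =
      ∑ b, Q b * ((t j - 1) * ∫ z in D.U, g b z *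
        dzb (fun w => (D.chi τ (some j) w : ℂ)) z) := by
    intro j
    have hsub := D.cU_subset_Ue hδ
    have hint : ∀ b, Integrable (fun z => Q b * (g b z *
        dzb (fun w => (D.chi τ (some j) w : ℂ)) z)) (volume.restrict D.U) := by
      intro b
      apply integrable_of_cont
      exact continuousOn_const.mul (((hg b).continuousOn.mono hsub).mul
        (dzb_chi_cont hτ (some j)).continuousOn)
    have e1 : ∫ z in D.U, (∑ b, Q b * g b z) * dzb (fun w => (D.chi τ (some j) w : ℂ)) z =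
        ∑ b, ∫ z in D.U, Q b * (g b z * dzb (fun w => (D.chi τ (some j) w : ℂ)) z) := by
      rw [← integral_finsetSum _ fun b _ => hint b]
      refine integral_congr_ae (Filter.Eventually.of_forall fun z => ?_)
      simp only [Finset.sum_mul]
      refine Finset.sum_congr rfl fun b _ => ?_
      ring
    rw [e1, Finset.mul_sum]
    refine Finset.sum_congr rfl fun b _ => ?_
    rw [integral_const_mul]
    ring
  rw [Finset.sum_congr rfl fun j _ => key j, Finset.sum_comm]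
  refine Finset.sum_congr rfl fun b _ => ?_
  rw [Finset.mul_sum]

end lin

/-! ### frames -/

/-- local frames of the spaces `VV_t` near `t = 1` -/
structure IsFrame {k : ℕ} (D : AJ k) (τ δ : ℝ) (z₀ : ℂ) (ε C₀ : ℝ)
    (g : Fin k → (Fin k → ℂ) → ℂ → ℂ) : Prop where
  cont : ∀ b, ContinuousOn (fun p : (Fin k → ℂ) × ℂ => g b p.1 p.2)
        ({t | ∀ j, ‖t j - 1‖ < ε} ×ˢ D.Ue δ)
  hol : ∀ b, ∀ t ∈ {t : Fin k → ℂ | ∀ j, ‖t j - 1‖ < ε}, DifferentiableOn ℂ (g b t) (D.Ue δ)
  holt : ∀ b, ∀ z ∈ D.Ue δ, DifferentiableOn ℂ (fun t => g b t z) {t | ∀ j, ‖t j - 1‖ < ε}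
  vv : ∀ b, ∀ t ∈ {t : Fin k → ℂ | ∀ j, ‖t j - 1‖ < ε}, D.VV τ z₀ t (g b t)
  res : ∀ b j, ∀ t ∈ {t : Fin k → ℂ | ∀ j, ‖t j - 1‖ < ε},
        D.res τ j (g b t) = if j = b then 1 else 0
  dec : ∀ t ∈ {t : Fin k → ℂ | ∀ j, ‖t j - 1‖ < ε}, ∀ f : ℂ → ℂ, D.Hol2 f → ∀ M : ℝ, 0 ≤ M →
        D.LtBd τ z₀ t f M →
        Real.sqrt (∫ z in D.U, ‖f z - ∑ b, D.res τ b f * g b t z‖ ^ 2) ≤ C₀ * M

/-- frames along the line `t = exp(s ω)` -/
structure IsLine {k : ℕ} (D : AJ k) (τ δ : ℝ) (z₀ : ℂ) (om : Fin k → ℂ) (T : ℝ) (d : ℂ → ℂ)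
    (g : Fin k → ℂ → ℂ → ℂ) : Prop where
  hd : DifferentiableOn ℂ d (ball 0 T)
  d0 : d 0 ≠ 0
  cont : ∀ b, ContinuousOn (fun p : ℂ × ℂ => g b p.1 p.2) (ball 0 T ×ˢ D.Ue δ)
  hol : ∀ b, ∀ s ∈ ball (0 : ℂ) T, DifferentiableOn ℂ (g b s) (D.Ue δ)
  hols : ∀ b, ∀ z ∈ D.Ue δ, DifferentiableOn ℂ (fun s => g b s z) (ball 0 T)
  vv : ∀ b, ∀ s ∈ ball (0 : ℂ) T, D.VV τ z₀ (fun j => Complex.exp (s * om j)) (g b s)
  res : ∀ b j, ∀ s ∈ ball (0 : ℂ) T, D.res τ j (g b s) = if j = b then d s else 0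

section frames
variable {k : ℕ} {D : AJ k} {τ δ : ℝ}

/-- elements of `VV_t` are combinations of the frame -/
theorem IsFrame.eq_sum {z₀ : ℂ} {ε C₀ : ℝ} {g : Fin k → (Fin k → ℂ) → ℂ → ℂ}
    (hg : IsFrame D τ δ z₀ ε C₀ g) (hτ : D.Good τ) {t : Fin k → ℂ} (ht : ∀ j, ‖t j - 1‖ < ε)
    {f : ℂ → ℂ} (hf : D.VV τ z₀ t f) :
    ∀ z ∈ D.U, f z = ∑ b, D.res τ b f * g b t z := by
  have h1 := hg.dec t ht f hf.hol 0 le_rfl (by
    intro a ha
    rw [hf.ann a ha]
    simp)
  rw [mul_zero] at h1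
  have h2 : ∫ z in D.U, ‖f z - ∑ b, D.res τ b f * g b t z‖ ^ 2 = 0 := by
    have h3 : 0 ≤ ∫ z in D.U, ‖f z - ∑ b, D.res τ b f * g b t z‖ ^ 2 :=
      integral_nonneg fun z => by positivity
    exact (Real.sqrt_eq_zero h3).1 (le_antisymm h1 (Real.sqrt_nonneg _))
  have h3 : MemLp (fun z => f z - ∑ b, D.res τ b f * g b t z) 2
      (volume.restrict D.U) := by
    refine hf.hol.memLp.sub ?_
    refine memLp_finsetSum _ fun b _ => ?_
    exact (hg.vv b t ht).hol.memLp.const_mul _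
  have h4 : Integrable (fun z => ‖f z - ∑ b, D.res τ b f * g b t z‖ ^ 2)
      (volume.restrict D.U) := h3.integrable_norm_pow (by norm_num)
  have h5 := (integral_eq_zero_iff_of_nonneg (fun z => by positivity) h4).1 h2
  have h6 : (fun z => f z) =ᵐ[volume.restrict D.U]
      fun z => ∑ b, D.res τ b f * g b t z := by
    filter_upwards [h5] with z hz
    simp only [Pi.zero_apply] at hz
    have := pow_eq_zero_iff (n := 2) (by norm_num) |>.1 hz
    exact sub_eq_zero.1 (norm_eq_zero.1 this)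
  refine hol_unique D hf.hol.diff ?_ h6
  exact DifferentiableOn.fun_sum fun b _ => ((hg.vv b t ht).hol.diff).const_mul _

end frames

end Pool.Agent.KA
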