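import Pool.Agent.Helper9.KA.E9c

/-! Returns of the linear flow: the line determinant and the local determinant. -/

set_option autoImplicit false

open MeasureTheory Set Filter Asymptotics Topology Metric
open scoped ComplexConjugate ENNReal

namespace Pool.Agent.KA

open Pool.Agent.Helper7.KE hiding HM PS Bv sfun FF tt lS
open Pool.Agent.EN (AJ ann ann2)

/-- the lattice of the recurrence -/
def Lat {k : ℕ} {ι : Type} (Rm : Matrix (Fin k) (Fin k) ℝ) :
    AddSubgroup ((Fin k → ℝ) × (ι → ℝ)) where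
  carrier := {v | (∀ l, ∃ m : ℤ, Rm.mulVec v.1 l = m) ∧ ∀ i, ∃ n : ℤ, v.2 i = 2 * Real.pi * n}
  add_mem' := by
    rintro v w ⟨h1, h2⟩ ⟨h3, h4⟩
    refine ⟨fun l => ?_, fun i => ?_⟩
    · obtain ⟨m, hm⟩ := h1 l
      obtain ⟨m', hm'⟩ := h3 l
      refine ⟨m + m', ?_⟩
      rw [Prod.fst_add, Matrix.mulVec_add, Pi.add_apply, hm, hm']
      push_cast; ring
    · obtain ⟨m, hm⟩ := h2 i
      obtain ⟨m', hm'⟩ := h4 i
      refine ⟨m + m', ?_⟩
      rw [Prod.snd_add, Pi.add_apply, hm, hm']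
      push_cast; ring
  zero_mem' := by
    refine ⟨fun l => ⟨0, ?_⟩, fun i => ⟨0, ?_⟩⟩
    · simp
    · simp
  neg_mem' := by
    rintro v ⟨h1, h2⟩
    refine ⟨fun l => ?_, fun i => ?_⟩
    · obtain ⟨m, hm⟩ := h1 l
      refine ⟨-m, ?_⟩
      rw [Prod.fst_neg, Matrix.mulVec_neg, Pi.neg_apply, hm]
      push_cast; ring
    · obtain ⟨m, hm⟩ := h2 i
      refine ⟨-m, ?_⟩
      rw [Prod.snd_neg, Pi.neg_apply, hm]
      push_cast; ring

section coef
variable {k : ℕ} {D : AJ k} {τ δ : ℝ}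

theorem coef_congr (j : Fin k) {g g' : ℂ → ℂ} (h : ∀ z ∈ D.U, g z = g' z) :
    D.res τ j g = D.res τ j g' := by
  unfold AJ.res
  congr 1
  exact setIntegral_congr_fun D.U_open.measurableSet fun z hz => by
      simp only [h z hz]

theorem coef_zero (j : Fin k) : D.res τ j (fun _ => 0) = 0 := by
  unfold AJ.res; simp

theorem coef_sum (hτ : D.Good τ) (hδ : 0 < δ) (j : Fin k) {m : Type*} (s : Finset m)
    {g : m → ℂ → ℂ} (hg : ∀ b, DifferentiableOn ℂ (g b) (D.Ue δ)) (c : m → ℂ) :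
    D.res τ j (fun z => ∑ b ∈ s, c b * g b z) = ∑ b ∈ s, c b * D.res τ j (g b) := by
  classical
  have hV := D.Ue_open δ
  have hcV := D.cU_subset_Ue hδ
  induction s using Finset.induction_on with
  | empty => simp [coef_zero]
  | insert a s ha ih =>
    rw [Finset.sum_insert ha]
    have h1 := res_linear D hτ j (g := fun z => ∑ b ∈ s, c b * g b z) (g' := g a)
      (hol2_of_nhds D hV hcV (DifferentiableOn.fun_sum fun b _ => (hg b).const_mul _))
      (hol2_of_nhds D hV hcV (hg a)) (c a)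
    rw [ih] at h1
    rw [add_comm, ← h1]
    refine coef_congr j fun z _ => ?_
    rw [Finset.sum_insert ha, add_comm]

/-- the critical value of the phase at the circle `j` is `e_j` -/
theorem ps_c_eq {ι : Type} [Fintype ι] [DecidableEq ι] (h : HM D τ δ) (hτ : D.Good τ)
    (hδ : 0 < δ) {e : Fin k → ℝ} (ps : PS D (h.rho e) ι) :
    (∀ j, ps.c (ps.bd (some j)) = e j) ∧ ps.c (ps.bd none) = 0 := by
  have hf := rho_facts h hτ hδ e 0
  constructor
  · intro j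
    have hz : D.kap (some j) 1 ∈ D.circ (some j) := ⟨1, by simp, rfl⟩
    rw [← ps.val_circ (some j) _ hz]
    exact (hf.2.2.2.2.2.2.2 j _ hz).1
  · have hz : D.kap none 1 ∈ D.circ none := ⟨1, by simp, rfl⟩
    rw [← ps.val_circ none _ hz]
    exact (hf.2.2.2.2.2.2.1 _ hz).1

end coef

/-- the line determinant -/
noncomputable def FL {n : ℕ} {D : AJ (n + 1)} {τ δ : ℝ} {ι : Type} [Fintype ι] [DecidableEq ι]
    (h : HM D τ δ) {ρ : ℂ → ℝ} (ps : PS D ρ ι) (om : Fin (n + 1) → ℂ)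
    (g : Fin (n + 1) → ℂ → ℂ → ℂ) (q : Fin n → ℂ → ℂ) (N : ℝ) (z : ℂ) : ℂ :=
  Fdet (fun b l => Bv h ps N 0 (fun j => z * om j) (g b z) (q l))
    (fun b => sfun D τ (fun j => Complex.exp (z * om j)) (g b z))

theorem returns {n : ℕ} {D : AJ (n + 1)} {τ δ : ℝ} {ι : Type} [Fintype ι] [DecidableEq ι]
    (hτ : D.Good τ) (hδ : 0 < δ) (hδτ : δ ≤ τ) (h : HM D τ δ) {e e' : Fin (n + 1) → ℝ}
    (ps : PS D (h.rho e) ι) {z₀ : ℂ} (hz₀ : z₀ ∈ D.U) {ε C₀ : ℝ}
    {g : Fin (n + 1) → (Fin (n + 1) → ℂ) → ℂ → ℂ} (hg : IsFrame D τ δ z₀ ε C₀ g)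
    {T : ℝ} {d : ℂ → ℂ} {gl : Fin (n + 1) → ℂ → ℂ → ℂ}
    (hl : IsLine D τ δ z₀ (fun j => e' j + Complex.I * e j) T d gl) {r₀ : ℝ} (hr₀ : 0 < r₀)
    {t : ℝ} {v : (Fin (n + 1) → ℝ) × (ι → ℝ)}
    (htt : ∀ μ ∈ ball (0 : ℂ) r₀, ∀ j, ‖tt ps (fun j => e' j + Complex.I * e j) v μ j - 1‖ < ε)
    (hT : |t| + r₀ ≤ T) (hv : t • (e', ps.c) - v ∈ Lat (ι := ι) h.Rm) :
    ∃ (σ : {q : Fin n → ℂ → ℂ // ∀ l, DifferentiableOn ℂ (q l) (D.Ue δ)} →
        {q : Fin n → ℂ → ℂ // ∀ l, DifferentiableOn ℂ (q l) (D.Ue δ)}) (a : ℂ → ℂ) (O : Set ℂ),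
      Function.Surjective σ ∧ IsOpen O ∧ O.Nonempty ∧ O ⊆ ball 0 r₀ ∧ ∀ μ ∈ O, a μ ≠ 0 ∧
        ∀ q N, FL h ps (fun j => e' j + Complex.I * e j) gl q.1 N (t + μ) =
          a μ * FF h ps (fun j => e' j + Complex.I * e j) g (σ q).1 (N + t) v μ := by
  classical
  set om : Fin (n + 1) → ℂ := fun j => e' j + Complex.I * e j with hom
  obtain ⟨hv1, hv2⟩ := hv
  obtain ⟨x₀, hx₀⟩ : ∃ x₀ : Fin (n + 1) → ℝ, x₀ = t • e' - v.1 := ⟨_, rfl⟩
  choose m hm using hv2
  have hx1 : ∀ j, t * e' j = v.1 j + x₀ j := by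
    intro j; rw [hx₀]; simp
  have hx2 : ∀ i, t * ps.c i = v.2 i + 2 * Real.pi * m i := by
    intro i
    have := hm i
    simp only [Prod.snd_sub, Prod.smul_snd, Pi.sub_apply, Pi.smul_apply, smul_eq_mul] at this
    linarith
  obtain ⟨f0, hf0d, hf00, hf0n⟩ := exists_phi h hτ hδ hδτ (x := x₀) (by
    intro l
    obtain ⟨m, hm⟩ := hv1 l
    refine ⟨m, ?_⟩
    rw [← hm, hx₀]
    rfl)
  -- a nowhere vanishing version
  obtain ⟨f, hf⟩ : ∃ f : ℂ → ℂ, f = fun z => if z ∈ D.Ue δ then f0 z else 1 := ⟨_, rfl⟩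
  have hfeq : ∀ z ∈ D.Ue δ, f z = f0 z := fun z hz => by rw [hf]; simp [hz]
  have hfd : DifferentiableOn ℂ f (D.Ue δ) := hf0d.congr hfeq
  have hf0 : ∀ z, f z ≠ 0 := by
    intro z
    by_cases hz : z ∈ D.Ue δ
    · rw [hfeq z hz]; exact hf00 z hz
    · rw [hf]; simp [hz]
  have hfn : ∀ z ∈ D.Ue δ, ‖f z‖ ^ 2 = Real.exp (h.rho x₀ z) := fun z hz => by
    rw [hfeq z hz]; exact hf0n z hz
  have hUe : D.U ⊆ D.Ue δ := D.U_subset_cU.trans (D.cU_subset_Ue hδ)
  have hc := (ps_c_eq h hτ hδ ps).1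
  -- the point on the line
  have hzT : ∀ μ ∈ ball (0 : ℂ) r₀, (t : ℂ) + μ ∈ ball (0 : ℂ) T := by
    intro μ hμ
    rw [mem_ball_zero_iff] at hμ ⊢
    calc ‖(t : ℂ) + μ‖ ≤ ‖(t : ℂ)‖ + ‖μ‖ := norm_add_le _ _
      _ < |t| + r₀ := by rw [Complex.norm_real]; simpa using hμ
      _ ≤ T := hT
  have hTpos : 0 < T := by linarith [abs_nonneg t]
  have htrel : ∀ μ : ℂ, ∀ j, Complex.exp (((t : ℂ) + μ) * om j) =
      tt ps om v μ j * Real.exp (x₀ j) := by
    intro μ j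
    unfold tt
    rw [Complex.ofReal_exp, ← Complex.exp_add]
    have h1 : ((t : ℂ) + μ) * om j = (Complex.I * v.2 (ps.bd (some j)) + v.1 j + μ * om j +
        (x₀ j : ℂ)) + (m (ps.bd (some j)) : ℂ) * (2 * Real.pi * Complex.I) := by
      have h2 : (t : ℂ) * e' j = v.1 j + x₀ j := by exact_mod_cast hx1 j
      have h3 : (t : ℂ) * e j = v.2 (ps.bd (some j)) + 2 * Real.pi * m (ps.bd (some j)) := by
        have := hx2 (ps.bd (some j))
        rw [hc j] at this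
        exact_mod_cast this
      have h4 : ((t : ℂ) + μ) * om j = (t : ℂ) * e' j + Complex.I * ((t : ℂ) * e j) + μ * om j := by
        simp only [hom]; ring
      rw [h4, h2, h3]
      ring
    rw [h1, Complex.exp_add, Complex.exp_int_mul_two_pi_mul_I, mul_one]
  -- the transported frames
  have hVV : ∀ μ ∈ ball (0 : ℂ) r₀, ∀ b,
      D.VV τ z₀ (tt ps om v μ) (fun z => f z * gl b (t + μ) z) ∧
      sfun D τ (tt ps om v μ) (fun z => f z * gl b (t + μ) z) =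
        (conj (f z₀))⁻¹ * sfun D τ (fun j => Complex.exp ((t + μ) * om j)) (gl b (t + μ)) := by
    intro μ hμ b
    exact VV_equiv h hτ hδ hδτ hz₀ hfd (fun z _ => hf0 z) hfn (fun j => htrel μ j)
      (hl.vv b _ (hzT μ hμ))
  obtain ⟨Q, hQ⟩ : ∃ Q : ℂ → Matrix (Fin (n + 1)) (Fin (n + 1)) ℂ,
    Q = fun μ b b' => D.res τ b' (fun z => f z * gl b (t + μ) z) := ⟨_, rfl⟩
  have hsum : ∀ μ ∈ ball (0 : ℂ) r₀, ∀ b, ∀ z ∈ D.U, f z * gl b (t + μ) z =
      ∑ b', Q μ b b' * g b' (tt ps om v μ) z := by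
    intro μ hμ b
    rw [hQ]
    exact hg.eq_sum hτ (htt μ hμ) (hVV μ hμ b).1
  -- nonvanishing of the determinant
  have hdet : ∀ μ ∈ ball (0 : ℂ) r₀, d (t + μ) ≠ 0 → (Q μ).det ≠ 0 := by
    intro μ hμ hd h0
    obtain ⟨c, hc0, hcQ⟩ := Matrix.exists_vecMul_eq_zero_iff.2 h0
    apply hc0
    have h1 : ∀ z ∈ D.U, ∑ b, c b * gl b (t + μ) z = 0 := by
      intro z hz
      have h2 : f z * ∑ b, c b * gl b (t + μ) z = 0 := by
        calc f z * ∑ b, c b * gl b (t + μ) z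
            = ∑ b, c b * (f z * gl b (t + μ) z) := by
              rw [Finset.mul_sum]
              exact Finset.sum_congr rfl fun b _ => by ring
          _ = ∑ b, c b * ∑ b', Q μ b b' * g b' (tt ps om v μ) z :=
              Finset.sum_congr rfl fun b _ => by rw [hsum μ hμ b z hz]
          _ = ∑ b', (∑ b, c b * Q μ b b') * g b' (tt ps om v μ) z := by
              simp only [Finset.mul_sum, Finset.sum_mul]
              rw [Finset.sum_comm]
              exact Finset.sum_congr rfl fun b _ => Finset.sum_congr rfl fun b' _ => by ring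
          _ = 0 := by
              refine Finset.sum_eq_zero fun b' _ => ?_
              have h3 : ∑ b, c b * Q μ b b' = 0 := congrFun hcQ b'
              rw [h3, zero_mul]
      exact (mul_eq_zero.1 h2).resolve_left (hf0 z)
    ext j
    have h2 := coef_sum hτ hδ j (Finset.univ) (g := fun b => gl b (t + μ))
      (fun b => hl.hol b _ (hzT μ hμ)) c
    rw [coef_congr (g' := fun _ => 0) j h1, coef_zero] at h2
    simp only [hl.res _ _ _ (hzT μ hμ)] at h2
    simp only [mul_ite, mul_zero, Finset.sum_ite_eq, Finset.mem_univ, if_true] at h2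
    exact (mul_eq_zero.1 h2.symm).resolve_right hd
  -- the key relation
  have hrel : ∀ μ ∈ ball (0 : ℂ) r₀, ∀ (q : Fin n → ℂ → ℂ),
      (∀ l, DifferentiableOn ℂ (q l) (D.Ue δ)) → ∀ N : ℝ,
      FL h ps om gl q N (t + μ) = (conj (f z₀) * (Q μ).det) *
        FF h ps om g (fun l z => f z * q l z) (N + t) v μ := by
    intro μ hμ q hq N
    have hcf : conj (f z₀) ≠ 0 := by
      rw [Ne, map_eq_zero]; exact hf0 z₀
    have htm : ∀ j, ‖tt ps om v μ j - 1‖ < ε := htt μ hμ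
    have hB : ∀ b l, Bv h ps N 0 (fun j => (t + μ) * om j) (gl b (t + μ)) (q l) =
        ∑ b', Q μ b b' * Bv h ps (N + t) v.2 (fun j => v.1 j + μ * om j)
          (g b' (tt ps om v μ)) (fun z => f z * q l z) := by
      intro b l
      rw [Bv_equiv h hδ (x₀ := x₀) ps hfn hx1 hx2 N μ (gl b (t + μ)) (q l)]
      rw [Bv_congr h ps (N + t) v.2 _ (hsum μ hμ b) (fun z _ => rfl)]
      exact Bv_sum hτ hδ h e ps (N + t) v.2 _ (fun b' => hg.hol b' _ htm) (Q μ b)
        (hfd.mul (hq l))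
    have hS : ∀ b, sfun D τ (fun j => Complex.exp ((t + μ) * om j)) (gl b (t + μ)) =
        ∑ b', Q μ b b' * (conj (f z₀) * sfun D τ (tt ps om v μ) (g b' (tt ps om v μ))) := by
      intro b
      have h1 := (hVV μ hμ b).2
      rw [sfun_congr _ (hsum μ hμ b), sfun_sum hτ hδ _ (fun b' => hg.hol b' _ htm) (Q μ b)] at h1
      have h2 : sfun D τ (fun j => Complex.exp ((t + μ) * om j)) (gl b (t + μ)) =
          conj (f z₀) * ∑ b', Q μ b b' * sfun D τ (tt ps om v μ) (g b' (tt ps om v μ)) := by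
        rw [h1, mul_inv_cancel_left₀ hcf]
      rw [h2, Finset.mul_sum]
      exact Finset.sum_congr rfl fun b' _ => by ring
    unfold FL FF
    have e1 : (fun b l => Bv h ps N 0 (fun j => ((t : ℂ) + μ) * om j) (gl b (t + μ)) (q l)) =
        fun b l => ∑ b', Q μ b b' * Bv h ps (N + t) v.2 (fun j => v.1 j + μ * om j)
          (g b' (tt ps om v μ)) (fun z => f z * q l z) := by
      funext b l; exact hB b l
    have e2 : (fun b => sfun D τ (fun j => Complex.exp (((t : ℂ) + μ) * om j)) (gl b (t + μ))) =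
        fun b => ∑ b', Q μ b b' *
          (conj (f z₀) * sfun D τ (tt ps om v μ) (g b' (tt ps om v μ))) := by
      funext b; exact hS b
    rw [e1, e2, Fdet_mul (Q μ) (fun b' l => Bv h ps (N + t) v.2 (fun j => v.1 j + μ * om j)
          (g b' (tt ps om v μ)) (fun z => f z * q l z)), Fdet_last]
    ring
  -- the set where `d` does not vanish
  have hdc : ContinuousOn (fun μ : ℂ => d (t + μ)) (ball 0 r₀) :=
    hl.hd.continuousOn.comp (by fun_prop) hzT
  refine ⟨fun q => ⟨fun l z => f z * q.1 l z, fun l => hfd.mul (q.2 l)⟩,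
    fun μ => conj (f z₀) * (Q μ).det, {μ ∈ ball (0 : ℂ) r₀ | d (t + μ) ≠ 0}, ?_, ?_, ?_, ?_, ?_⟩
  · intro q
    refine ⟨⟨fun l z => (f z)⁻¹ * q.1 l z, fun l => (hfd.inv fun z _ => hf0 z).mul (q.2 l)⟩, ?_⟩
    apply Subtype.ext
    funext l z
    exact mul_inv_cancel_left₀ (hf0 z) _
  · exact hdc.isOpen_inter_preimage isOpen_ball isOpen_compl_singleton
  · by_contra hemp
    rw [Set.not_nonempty_iff_eq_empty] at hemp
    have h1 : ∀ μ ∈ ball (0 : ℂ) r₀, d (t + μ) = 0 := by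
      intro μ hμ
      by_contra h2
      have : μ ∈ ({μ ∈ ball (0 : ℂ) r₀ | d (t + μ) ≠ 0} : Set ℂ) := ⟨hμ, h2⟩
      rw [hemp] at this
      exact this
    have h2 : d =ᶠ[𝓝 (t : ℂ)] 0 := by
      have h3 : ball (t : ℂ) r₀ ∈ 𝓝 (t : ℂ) := ball_mem_nhds _ hr₀
      filter_upwards [h3] with z hz
      have h4 := h1 (z - t) (by rw [mem_ball_zero_iff]; simpa [dist_eq_norm] using hz)
      simpa using h4
    have h3 := (hl.hd.analyticOnNhd isOpen_ball).eqOn_zero_of_preconnected_of_eventuallyEq_zero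
      (convex_ball (0 : ℂ) T).isPreconnected (z₀ := (t : ℂ)) (by
        have := hzT 0 (mem_ball_self hr₀)
        simpa using this) h2
    exact hl.d0 (h3 (mem_ball_self hTpos))
  · intro μ hμ; exact hμ.1
  · intro μ hμ
    refine ⟨?_, fun q N => hrel μ hμ.1 q.1 q.2 N⟩
    refine mul_ne_zero ?_ (hdet μ hμ.1 hμ.2)
    rw [Ne, map_eq_zero]; exact hf0 z₀

end Pool.Agent.KA
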