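import Pool.Agent.Helper9.KA.E9d
import Pool.Agent.Helper7.KE.E8
import Pool.Agent.Helper9.KA.E3e

/-! The lower bound for the bordered determinant, uniformly in the small returns. -/

set_option autoImplicit false

open MeasureTheory Set Filter Asymptotics Topology Metric
open scoped ComplexConjugate ENNReal

namespace Pool.Agent.KA

open Pool.Agent.Helper7.KE hiding HM PS Bv sfun FF tt lS
open Pool.Agent.EN (AJ ann ann2)

/-- the multipliers are close to `1` for small parameters -/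
theorem tt_small {k : ℕ} {D : AJ k} {ι : Type} [Fintype ι] [DecidableEq ι] {ρ : ℂ → ℝ}
    (ps : PS D ρ ι) (om : Fin k → ℂ) {ε : ℝ} (hε : 0 < ε) :
    ∃ r₀ > 0, ∀ (v : (Fin k → ℝ) × (ι → ℝ)) (μ : ℂ), ‖v‖ ≤ r₀ → ‖μ‖ ≤ r₀ →
      ∀ j, ‖tt ps om v μ j - 1‖ ≤ ε := by
  have hc : ∀ j, Continuous fun a : ((Fin k → ℝ) × (ι → ℝ)) × ℂ => tt ps om a.1 a.2 j := by
    intro j
    unfold tt
    fun_prop
  have h0 : ∀ j, tt ps om (0 : (Fin k → ℝ) × (ι → ℝ)) 0 j = 1 := by
    intro j; simp [tt]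
  have h1 : ∀ j, ∀ᶠ a : ((Fin k → ℝ) × (ι → ℝ)) × ℂ in 𝓝 0, ‖tt ps om a.1 a.2 j - 1‖ < ε := by
    intro j
    have h2 : Tendsto (fun a : ((Fin k → ℝ) × (ι → ℝ)) × ℂ => ‖tt ps om a.1 a.2 j - 1‖)
        (𝓝 0) (𝓝 0) := by
      have h3 := (((hc j).sub continuous_const).norm.tendsto
        (0 : ((Fin k → ℝ) × (ι → ℝ)) × ℂ) : Tendsto (fun a : ((Fin k → ℝ) × (ι → ℝ)) × ℂ =>
          ‖tt ps om a.1 a.2 j - 1‖) (𝓝 0) _)
      simpa [h0 j] using h3
    exact h2.eventually_lt_const hε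
  have h2 := Filter.eventually_all.2 h1
  obtain ⟨r, hr, h3⟩ := Metric.eventually_nhds_iff_ball.1 h2
  refine ⟨r / 2, by positivity, fun v μ hv hμ j => (h3 (v, μ) ?_ j).le⟩
  rw [mem_ball_zero_iff, Prod.norm_mk]
  exact max_lt (by linarith) (by linarith)

theorem lower_F {n : ℕ} {D : AJ (n + 1)} {τ δ : ℝ} {ι : Type} [Fintype ι] [DecidableEq ι]
    (hτ : D.Good τ) (hδ : 0 < δ) (hδτ : δ ≤ τ) (h : HM D τ δ) {e e' : Fin (n + 1) → ℝ}
    (he : e ≠ 0) (ps : PS D (h.rho e) ι) {z₀ : ℂ} (hz₀ : z₀ ∈ D.U) {ε C₀ : ℝ} (hε : 0 < ε)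
    (hε1 : ε < 1) {g : Fin (n + 1) → (Fin (n + 1) → ℂ) → ℂ → ℂ} (hg : IsFrame D τ δ z₀ ε C₀ g)
    (hline : ∀ T : ℝ, 0 < T → ∃ (d : ℂ → ℂ) (gl : Fin (n + 1) → ℂ → ℂ → ℂ),
      IsLine D τ δ z₀ (fun j => e' j + Complex.I * e j) T d gl) :
    ∃ (κ : ℝ) (q : Fin n → ℂ → ℂ), (∀ l, DifferentiableOn ℂ (q l) (D.Ue δ)) ∧
      ∃ r' > 0, ∃ b > 0, ∃ ε₁ > 0,
        (∀ v : (Fin (n + 1) → ℝ) × (ι → ℝ), ‖v‖ < ε₁ → ∀ μ : ℂ, ‖μ‖ ≤ r' → ∀ j,
          ‖tt ps (fun j => e' j + Complex.I * e j) v μ j - 1‖ ≤ ε / 2) ∧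
        ∃ N₀ : ℝ, ∀ N : ℝ, N₀ ≤ N → ∀ v : (Fin (n + 1) → ℝ) × (ι → ℝ),
          v ∈ closure {v : (Fin (n + 1) → ℝ) × (ι → ℝ) | ∃ t : ℝ, t • (e', ps.c) - v ∈
            Lat (ι := ι) h.Rm} → ‖v‖ < ε₁ → ∀ μ : ℂ, ‖μ‖ = r' →
          b * N ^ (-κ) ≤ ‖FF h ps (fun j => e' j + Complex.I * e j) g q N v μ‖ := by
  classical
  set om : Fin (n + 1) → ℂ := fun j => e' j + Complex.I * e j with hom
  obtain ⟨r₀, hr₀, htt⟩ := tt_small ps om (half_pos hε)
  have htt' : ∀ (v : (Fin (n + 1) → ℝ) × (ι → ℝ)) (μ : ℂ), ‖v‖ ≤ r₀ → ‖μ‖ ≤ r₀ →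
      ∀ j, ‖tt ps om v μ j - 1‖ < ε := fun v μ hv hμ j =>
    (htt v μ hv hμ j).trans_lt (by linarith)
  -- the precision
  obtain ⟨κ, hκ⟩ : ∃ κ : ℝ, κ = (2 * n : ℕ) + Real.sqrt 2 := ⟨_, rfl⟩
  have hsq : 0 < Real.sqrt 2 := by positivity
  have hκ0 : 0 < κ := by rw [hκ]; positivity
  have hκi : Irrational κ := by
    rw [hκ]; exact irrational_sqrt_two.natCast_add _
  obtain ⟨s, hs, hfam⟩ := family_exp hτ hδ hδτ h he ps hκ0 hκi
  -- the local family
  have hopen : IsOpen {t : Fin (n + 1) → ℂ | ∀ j, ‖t j - 1‖ < ε} := by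
    simp only [Set.setOf_forall]
    exact isOpen_iInter_of_finite fun j => isOpen_lt (by fun_prop) continuous_const
  have htc : Continuous fun a : ((Fin (n + 1) → ℝ) × (ι → ℝ)) × ℂ => tt ps om a.1 a.2 := by
    refine continuous_pi fun j => ?_
    unfold tt
    fun_prop
  have htd : ∀ v, Differentiable ℂ fun μ => tt ps om v μ := by
    intro v
    refine differentiable_pi.2 fun j => ?_
    unfold tt
    fun_prop
  have hloc := fun (q : {q : Fin n → ℂ → ℂ // ∀ l, DifferentiableOn ℂ (q l) (D.Ue δ)}) =>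
    hfam ((Fin (n + 1) → ℝ) × (ι → ℝ)) (closedBall 0 r₀) (isCompact_closedBall _ _) r₀ hr₀.le
      (fun i v => v.2 i) (fun i => by fun_prop)
      (fun j v μ => v.1 j + μ * om j) (fun j => by fun_prop) (fun j v _ => by fun_prop)
      (fun j v μ => tt ps om v μ j)
      (fun j => ((continuous_apply j).comp htc).continuousOn)
      (fun j v _ => (differentiable_pi.1 (htd v) j).differentiableOn)
      (fun b v μ => g b (tt ps om v μ))
      (by
        intro b
        refine (hg.cont b).comp (f := fun p : (((Fin (n + 1) → ℝ) × (ι → ℝ)) × ℂ) × ℂ =>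
          (tt ps om p.1.1 p.1.2, p.2)) ?_ ?_
        · exact ((htc.comp (continuous_fst.prodMk continuous_snd |>.comp continuous_fst)).prodMk
            continuous_snd).continuousOn
        · rintro p ⟨⟨h1, h2⟩, h3⟩
          refine ⟨fun j => htt' _ _ ?_ ?_ j, h3⟩
          · simpa using h1
          · simpa using h2)
      (by
        intro b v hv μ hμ
        exact hg.hol b _ (htt' v μ (by simpa using hv) (by simpa using hμ)))
      (by
        intro b v hv z hz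
        refine (hg.holt b z hz).comp (htd v).differentiableOn fun μ hμ => ?_
        refine htt' v μ (by simpa using hv) ?_
        have : ‖μ‖ < r₀ := by simpa using hμ
        exact this.le)
      q.1 q.2
  choose hlocd c hc hd Cc Nc hcF using hloc
  have hFF : ∀ (q : Fin n → ℂ → ℂ) N v μ, FF h ps om g q N v μ =
      Fdet (fun b l => Bv h ps N (fun i => v.2 i) (fun j => v.1 j + μ * om j)
        (g b (tt ps om v μ)) (q l))
        (fun b => sfun D τ (fun j => tt ps om v μ j) (g b (tt ps om v μ))) := fun _ _ _ _ => rfl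
  -- nondegeneracy
  obtain ⟨q₁, hq₁, c₁, hc₁, N₁, hnd⟩ := nondeg (e' := e') hτ hδ hδτ h he ps hz₀ hε hε1 hg.cont
    hg.hol hg.holt hg.vv hg.res hg.dec
  have hne : ∃ q, ∃ p ∈ s, ∃ μ ∈ ball (0 : ℂ) r₀, c q p 0 μ ≠ 0 := by
    by_contra hcon
    push Not at hcon
    have h0 : (0 : (Fin (n + 1) → ℝ) × (ι → ℝ)) ∈ closedBall
        (0 : (Fin (n + 1) → ℝ) × (ι → ℝ)) r₀ := mem_closedBall_self hr₀.le
    have hb : ∀ N, Nc ⟨q₁, hq₁⟩ ≤ N → ∀ μ ∈ ball (0 : ℂ) r₀, ‖FF h ps om g q₁ N 0 μ‖ ≤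
        Cc ⟨q₁, hq₁⟩ * N ^ (-κ) := by
      intro N hN μ hμ
      have h1 := hcF ⟨q₁, hq₁⟩ N hN 0 h0 μ (ball_subset_closedBall hμ)
      rw [Finset.sum_eq_zero (fun p hp => by rw [hcon ⟨q₁, hq₁⟩ p hp μ hμ, mul_zero]),
        sub_zero] at h1
      exact h1
    have hder : ∀ N, Nc ⟨q₁, hq₁⟩ ≤ N → ‖deriv (fun μ => FF h ps om g q₁ N 0 μ) 0‖ ≤
        Cc ⟨q₁, hq₁⟩ * N ^ (-κ) / (r₀ / 2) := by
      intro N hN
      refine Complex.norm_deriv_le_of_forall_mem_sphere_norm_le (half_pos hr₀) ?_ fun z hz => ?_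
      · have h1 := hlocd ⟨q₁, hq₁⟩ N 0 h0
        refine DifferentiableOn.diffContOnCl ?_
        rw [closure_ball _ (half_pos hr₀).ne']
        exact h1.mono (closedBall_subset_ball (by linarith))
      · refine hb N hN z ?_
        have hz' : ‖z‖ = r₀ / 2 := by simpa using hz
        rw [mem_ball_zero_iff, hz']
        linarith
    -- contradiction for large `N`
    have hlim : Tendsto (fun N : ℝ => (Cc ⟨q₁, hq₁⟩ / (r₀ / 2)) * N ^ (-Real.sqrt 2)) atTop
        (𝓝 0) := by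
      simpa using (tendsto_rpow_neg_atTop hsq).const_mul (Cc ⟨q₁, hq₁⟩ / (r₀ / 2))
    obtain ⟨N, hN1, hN2⟩ := ((hlim.eventually_lt_const hc₁).and
      (Filter.eventually_ge_atTop (max (max N₁ (Nc ⟨q₁, hq₁⟩)) 1))).exists
    have hN3 : N₁ ≤ N := ((le_max_left _ _).trans (le_max_left _ _)).trans hN2
    have hN4 : Nc ⟨q₁, hq₁⟩ ≤ N := ((le_max_right _ _).trans (le_max_left _ _)).trans hN2
    have hN5 : 0 < N := lt_of_lt_of_le one_pos ((le_max_right _ _).trans hN2)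
    have h1 := (hnd N hN3).trans (hder N hN4)
    have h2 : N ^ (-κ) = N ^ (-Real.sqrt 2) / N ^ (2 * n) := by
      rw [hκ, neg_add, add_comm, Real.rpow_add hN5, Real.rpow_neg hN5.le ((2 * n : ℕ) : ℝ),
        Real.rpow_natCast]
      rfl
    rw [h2] at h1
    have h3 : 0 < N ^ (2 * n) := by positivity
    have h4 : c₁ ≤ (Cc ⟨q₁, hq₁⟩ / (r₀ / 2)) * N ^ (-Real.sqrt 2) := by
      have h5 : Cc ⟨q₁, hq₁⟩ * (N ^ (-Real.sqrt 2) / N ^ (2 * n)) / (r₀ / 2) =
          ((Cc ⟨q₁, hq₁⟩ / (r₀ / 2)) * N ^ (-Real.sqrt 2)) / N ^ (2 * n) := by ring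
      rw [h5, div_le_div_iff_of_pos_right h3] at h1
      exact h1
    linarith
  -- the line
  obtain ⟨q, r', hr', hr'0, b, hb, ε₁, hε₁, N₀, hmain⟩ := jarg (Lat (ι := ι) h.Rm) (e', ps.c) hs
    hr₀ hr₀ le_rfl (fun (q : {q : Fin n → ℂ → ℂ // ∀ l, DifferentiableOn ℂ (q l) (D.Ue δ)})
      N v μ => FF h ps om g q.1 N v μ) c hc hd (fun q => ⟨Cc q, Nc q, hcF q⟩) hne (by
    intro T hT
    have hT0 : 0 < T := hr₀.trans hT
    obtain ⟨d, gl, hl⟩ := hline (T + 1) (by linarith)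
    have hsub : closedBall (0 : ℂ) T ⊆ ball 0 (T + 1) := closedBall_subset_ball (by linarith)
    have hfl := fun (q : {q : Fin n → ℂ → ℂ // ∀ l, DifferentiableOn ℂ (q l) (D.Ue δ)}) =>
      hfam Unit univ isCompact_univ T hT0.le (fun i v => 0) (fun i => continuousOn_const)
        (fun j v z => z * om j) (fun j => by fun_prop) (fun j v _ => by fun_prop)
        (fun j v z => Complex.exp (z * om j)) (fun j => by fun_prop) (fun j v _ => by fun_prop)
        (fun b v z => gl b z)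
        (by
          intro b
          refine (hl.cont b).comp (f := fun p : (Unit × ℂ) × ℂ => (p.1.2, p.2)) (by fun_prop) ?_
          rintro p ⟨⟨h1, h2⟩, h3⟩
          exact ⟨hsub h2, h3⟩)
        (fun b v _ z hz => hl.hol b z (hsub hz))
        (fun b v _ z hz => (hl.hols b z hz).mono (ball_subset_closedBall.trans hsub))
        q.1 q.2
    choose hfld cl hclc hcld Cl Nl hclF using hfl
    refine ⟨fun q N z => FL h ps om gl q.1 N z, fun q p z => cl q p () z, ?_, ?_, ?_, ?_⟩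
    · intro q p
      exact hcld q p () (mem_univ _)
    · intro q z hz
      refine IsBigO.of_bound (Cl q) ?_
      filter_upwards [Filter.eventually_ge_atTop (Nl q), Filter.eventually_ge_atTop 0]
        with N hN hN0
      rw [Real.norm_of_nonneg (Real.rpow_nonneg hN0 _)]
      exact hclF q N hN () (mem_univ _) z (ball_subset_closedBall hz)
    · intro z hz
      refine ⟨(Matrix.diagonal (fun _ : Fin (n + 1) => d z)).det, fun q N => ?_⟩
      have hzr : ‖z‖ ≤ r₀ := by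
        have : ‖z‖ < r₀ := by simpa using hz
        exact this.le
      have hzT : z ∈ ball (0 : ℂ) (T + 1) := by
        rw [mem_ball_zero_iff]; linarith
      have hte : tt ps om 0 z = fun j => Complex.exp (z * om j) := by
        funext j
        simp [tt]
      have htz := htt' 0 z (by simpa using hr₀.le) hzr
      have hval : ∀ b, ∀ w ∈ D.U, gl b z w =
          ∑ b', (Matrix.diagonal (fun _ : Fin (n + 1) => d z)) b b' * g b' (tt ps om 0 z) w := by
        intro b w hw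
        have h1 := hg.eq_sum hτ htz (f := gl b z) (by rw [hte]; exact hl.vv b z hzT) w hw
        rw [h1]
        refine Finset.sum_congr rfl fun b' _ => ?_
        rw [hl.res b b' z hzT, Matrix.diagonal_apply]
        by_cases hbb : b = b'
        · simp [hbb]
        · rw [if_neg hbb, if_neg (fun h => hbb h.symm)]
      beta_reduce
      unfold FL FF
      have e1 : (fun b l => Bv h ps N 0 (fun j => z * om j) (gl b z) (q.1 l)) =
          fun b l => ∑ b', (Matrix.diagonal (fun _ : Fin (n + 1) => d z)) b b' *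
            Bv h ps N 0 (fun j => ((0 : (Fin (n + 1) → ℝ) × (ι → ℝ)).1 j : ℂ) + z * om j)
              (g b' (tt ps om 0 z)) (q.1 l) := by
        funext b l
        rw [Bv_congr h ps N 0 _ (hval b) (fun z _ => rfl)]
        rw [Bv_sum hτ hδ h e ps N 0 _ (fun b' => hg.hol b' _ htz) _ (q.2 l)]
        simp
      have e2 : (fun b => sfun D τ (fun j => Complex.exp (z * om j)) (gl b z)) =
          fun b => ∑ b', (Matrix.diagonal (fun _ : Fin (n + 1) => d z)) b b' *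
            sfun D τ (tt ps om 0 z) (g b' (tt ps om 0 z)) := by
        funext b
        rw [sfun_congr _ (hval b), sfun_sum hτ hδ _ (fun b' => hg.hol b' _ htz), ← hte]
      rw [e1, e2, Fdet_mul]
      rfl
    · intro t v ht hv hlat
      exact returns hτ hδ hδτ h ps hz₀ hg hl hr₀ (fun μ hμ => htt' v μ
        (by have : ‖v‖ < r₀ := by simpa using hv
            exact this.le)
        (by have : ‖μ‖ < r₀ := by simpa using hμ
            exact this.le)) (by linarith) hlat)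
  refine ⟨κ, q.1, q.2, r', hr', b, hb, min ε₁ r₀, lt_min hε₁ hr₀, ?_, N₀, ?_⟩
  · intro v hv μ hμ j
    exact htt v μ (hv.le.trans (min_le_right _ _)) (hμ.trans hr'0.le) j
  · intro N hN v hv1 hv2 μ hμ
    exact hmain N hN v hv1 (hv2.trans_le (min_le_left _ _)) μ hμ

end Pool.Agent.KA
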