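import Pool.Agent.Helper9.KA.EV1
import Pool.Agent.Helper7.KE.C0a

set_option autoImplicit false

open MeasureTheory Set Filter Asymptotics Topology Metric
open scoped ComplexConjugate ENNReal

namespace Pool.Agent.KA

open Pool.Agent.Helper7.KE hiding HM PS Bv sfun FF tt lS
open Pool.Agent.EN (AJ ann ann2)

/-- power series with coefficients in a Banach space -/
theorem ev_pow_series {E : Type*} [NormedAddCommGroup E] [NormedSpace ℂ E] [CompleteSpace E]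
    (c : ℕ → E) {C q : ℝ} (hq : 0 ≤ q) (hc : ∀ n, ‖c n‖ ≤ C * q ^ n) :
    DifferentiableOn ℂ (fun w : ℂ => ∑' n, w ^ n • c n) {w | q * ‖w‖ < 1} ∧
      ∀ w : ℂ, q * ‖w‖ < 1 → Summable (fun n => w ^ n • c n) := by
  have hC : 0 ≤ C := by
    have := (norm_nonneg _).trans (hc 0)
    simpa using this
  have hb : ∀ (n : ℕ) (w : ℂ), ‖w ^ n • c n‖ ≤ C * (q * ‖w‖) ^ n := by
    intro n w
    rw [norm_smul, norm_pow, mul_pow]
    calc ‖w‖ ^ n * ‖c n‖ ≤ ‖w‖ ^ n * (C * q ^ n) :=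
          mul_le_mul_of_nonneg_left (hc n) (by positivity)
      _ = C * (q ^ n * ‖w‖ ^ n) := by ring
  constructor
  · intro w₀ hw₀
    have hw₀' : q * ‖w₀‖ < 1 := hw₀
    obtain ⟨r, hr1, hr2⟩ := exists_between hw₀'
    have hr0 : 0 ≤ r := (by positivity : 0 ≤ q * ‖w₀‖).trans hr1.le
    have ho : IsOpen {w : ℂ | q * ‖w‖ < r} :=
      isOpen_lt (continuous_const.mul continuous_norm) continuous_const
    have hd : DifferentiableOn ℂ (fun w : ℂ => ∑' n, w ^ n • c n) {w : ℂ | q * ‖w‖ < r} := by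
      refine Complex.differentiableOn_tsum_of_summable_norm (u := fun n => C * r ^ n)
        ((summable_geometric_of_lt_one hr0 hr2).mul_left C) (fun n => ?_) ho ?_
      · exact ((differentiable_id.pow n).smul_const (c n)).differentiableOn
      · intro n w hw
        refine (hb n w).trans (mul_le_mul_of_nonneg_left ?_ hC)
        exact pow_le_pow_left₀ (by positivity) (le_of_lt hw) n
    exact (hd.differentiableAt (ho.mem_nhds hr1)).differentiableWithinAt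
  · intro w hw
    refine Summable.of_norm_bounded ?_ (fun n => hb n w)
    exact (summable_geometric_of_lt_one (by positivity) hw).mul_left C

section abs
variable {E : Type*} [NormedAddCommGroup E] [NormedSpace ℂ E]

theorem ev_abs0 (a b : E) (c : ℂ) : ‖a + c • b‖ ≤ ‖a‖ + ‖c‖ * ‖b‖ := by
  refine (norm_add_le _ _).trans ?_
  rw [norm_smul]

theorem ev_abs1 [CompleteSpace E] {V : Set ℂ} {lam kd : ℂ → ℂ}
    (hlam : DifferentiableOn ℂ (fun z => (lam z)⁻¹) V) (hkd : DifferentiableOn ℂ kd V)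
    (c : ℕ → E) {C q : ℝ} (hq : 0 ≤ q) (hc : ∀ n, ‖c n‖ ≤ C * q ^ n)
    (h : ∀ z ∈ V, q * ‖(lam z)⁻¹‖ < 1) :
    DifferentiableOn ℂ (fun z => kd z • ((lam z)⁻¹ ^ 2 • ∑' n, ((lam z)⁻¹) ^ n • c n)) V :=
  hkd.smul ((hlam.pow 2).smul ((ev_pow_series c hq hc).1.comp hlam h))

theorem ev_abs2 [CompleteSpace E] {V : Set ℂ} {lam kd : ℂ → ℂ}
    (hlam : DifferentiableOn ℂ lam V) (hlinv : DifferentiableOn ℂ (fun z => (lam z)⁻¹) V)
    (hkd : DifferentiableOn ℂ kd V) (Λ0 : E)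
    (c : ℕ → E) {C q : ℝ} (hq : 0 ≤ q) (hc : ∀ n, ‖c n‖ ≤ C * q ^ n)
    (h : ∀ z ∈ V, q * ‖lam z‖ < 1) :
    DifferentiableOn ℂ (fun z => kd z • ((lam z)⁻¹ • Λ0 + ∑' n, (lam z) ^ n • c n)) V :=
  hkd.smul ((hlinv.smul_const Λ0).add ((ev_pow_series c hq hc).1.comp hlam h))

theorem ev_abs3 {k : ℕ} {V : Set ℂ} {T : Set (Fin k → ℂ)} {P0 PB : ℂ → E} {PJ : Fin k → ℂ → E}
    (dP0 : DifferentiableOn ℂ P0 V) (dPJ : ∀ j, DifferentiableOn ℂ (PJ j) V)
    (dPB : DifferentiableOn ℂ PB V) {s : (Fin k → ℂ) → ℂ} (ds : DifferentiableOn ℂ s T) :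
    ContinuousOn (fun p : (Fin k → ℂ) × ℂ =>
      s p.1 • (P0 p.2 + ∑ j, (p.1 j - 1) • PJ j p.2) + PB p.2) (T ×ˢ V) ∧
    (∀ t, DifferentiableOn ℂ (fun z => s t • (P0 z + ∑ j, (t j - 1) • PJ j z) + PB z) V) ∧
    ∀ z, DifferentiableOn ℂ
      (fun t : Fin k → ℂ => s t • (P0 z + ∑ j, (t j - 1) • PJ j z) + PB z) T := by
  have dtj : ∀ j : Fin k, Differentiable ℂ (fun t : Fin k → ℂ => t j - 1) := fun j =>
    (differentiable_apply j).sub_const 1
  refine ⟨?_, ?_, ?_⟩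
  · have hf : MapsTo (Prod.fst : (Fin k → ℂ) × ℂ → _) (T ×ˢ V) T := fun p hp => hp.1
    have hs : MapsTo (Prod.snd : (Fin k → ℂ) × ℂ → _) (T ×ˢ V) V := fun p hp => hp.2
    refine ContinuousOn.add (ContinuousOn.smul
      (ds.continuousOn.comp continuous_fst.continuousOn hf) (ContinuousOn.add
        (dP0.continuousOn.comp continuous_snd.continuousOn hs) ?_))
      (dPB.continuousOn.comp continuous_snd.continuousOn hs)
    refine continuousOn_finsetSum _ fun j _ => ContinuousOn.smul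
      (((dtj j).continuous.comp continuous_fst).continuousOn)
      ((dPJ j).continuousOn.comp continuous_snd.continuousOn hs)
  · intro t
    refine DifferentiableOn.add (DifferentiableOn.const_smul (DifferentiableOn.add dP0 ?_) _) dPB
    exact DifferentiableOn.fun_sum fun j _ => (dPJ j).const_smul _
  · intro z
    refine DifferentiableOn.add (DifferentiableOn.smul ds (DifferentiableOn.add
      (differentiableOn_const _) ?_)) (differentiableOn_const _)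
    exact DifferentiableOn.fun_sum fun j _ => ((dtj j).smul_const _).differentiableOn

theorem ev_abs4 {k : ℕ} {c0 cb : ℕ → (E →L[ℂ] ℂ)} {cj : Fin k → ℕ → (E →L[ℂ] ℂ)}
    {Λ0 : E →L[ℂ] ℂ} {f : E} {lcv : ℕ → ℂ} {w p kd G : ℂ} {t : Fin k → ℂ} (hp : p ≠ 0)
    (hkd : kd ≠ 0)
    (h0 : Summable fun n => w⁻¹ ^ n • c0 n) (hj : ∀ j, Summable fun n => w⁻¹ ^ n • cj j n)
    (hb : Summable fun n => w ^ n • cb n) (hΛ0 : Λ0 f = lcv 0)
    (hkey : ∀ n, p * lcv (n + 1) = c0 n f + ∑ j, (t j - 1) * cj j n f)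
    (hsum : Summable fun n => lcv n * w⁻¹ ^ (n + 1))
    (hG : G * kd = ∑' n, lcv n * w⁻¹ ^ (n + 1) + ∑' n, cb n f * w ^ n) :
    (p⁻¹ • (kd⁻¹ • (w⁻¹ ^ 2 • ∑' n, w⁻¹ ^ n • c0 n) +
      ∑ j, (t j - 1) • (kd⁻¹ • (w⁻¹ ^ 2 • ∑' n, w⁻¹ ^ n • cj j n))) +
        kd⁻¹ • (w⁻¹ • Λ0 + ∑' n, w ^ n • cb n)) f = G := by
  have hs0 := h0.hasSum.mapL (ContinuousLinearMap.apply ℂ ℂ f)
  have hsj := fun j => (hj j).hasSum.mapL (ContinuousLinearMap.apply ℂ ℂ f)
  have hsb := hb.hasSum.mapL (ContinuousLinearMap.apply ℂ ℂ f)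
  simp only [ContinuousLinearMap.apply_apply, _root_.smul_apply, smul_eq_mul] at hs0 hsj hsb
  have hcomb : HasSum (fun n => w⁻¹ ^ n * c0 n f + ∑ j, (t j - 1) * (w⁻¹ ^ n * cj j n f))
      ((∑' n, w⁻¹ ^ n • c0 n) f + ∑ j, (t j - 1) * (∑' n, w⁻¹ ^ n • cj j n) f) :=
    hs0.add (hasSum_sum fun j _ => (hsj j).mul_left (t j - 1))
  have hlc : HasSum (fun n => lcv (n + 1) * w⁻¹ ^ (n + 1 + 1))
      (p⁻¹ * w⁻¹ ^ 2 *
        ((∑' n, w⁻¹ ^ n • c0 n) f + ∑ j, (t j - 1) * (∑' n, w⁻¹ ^ n • cj j n) f)) := by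
    refine (hcomb.mul_left (p⁻¹ * w⁻¹ ^ 2)).congr_fun ?_
    intro n
    have h1 : lcv (n + 1) = p⁻¹ * (c0 n f + ∑ j, (t j - 1) * cj j n f) := by
      rw [← hkey n]; field_simp
    rw [h1]
    have h2 : ∑ j, (t j - 1) * (w⁻¹ ^ n * cj j n f) =
        w⁻¹ ^ n * ∑ j, (t j - 1) * cj j n f := by
      rw [Finset.mul_sum]
      exact Finset.sum_congr rfl fun j _ => by ring
    rw [h2]
    ring
  rw [hsum.tsum_eq_zero_add, hlc.tsum_eq, ← hΛ0] at hG
  have hb' : ∑' n, cb n f * w ^ n = (∑' n, w ^ n • cb n) f := by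
    rw [← hsb.tsum_eq]
    exact tsum_congr fun n => mul_comm _ _
  rw [hb'] at hG
  simp only [_root_.add_apply, _root_.smul_apply, smul_eq_mul, _root_.sum_apply]
  have hG' : G = kd⁻¹ * (G * kd) := by field_simp
  rw [hG', hG]
  have h3 : ∑ j, (t j - 1) * (kd⁻¹ * (w⁻¹ ^ 2 * (∑' n, w⁻¹ ^ n • cj j n) f)) =
      kd⁻¹ * w⁻¹ ^ 2 * ∑ j, (t j - 1) * (∑' n, w⁻¹ ^ n • cj j n) f := by
    rw [Finset.mul_sum]
    exact Finset.sum_congr rfl fun j _ => by ring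
  rw [h3]
  ring

end abs

section
variable {k : ℕ} (D : AJ k) {τ : ℝ}

/-- integration against a bounded continuous function is a bounded functional -/
theorem ev_Iop : ∃ V : ℝ, 0 ≤ V ∧ ∀ (h : ℂ → ℂ) (M : ℝ), ContinuousOn h D.cU → 0 ≤ M →
    (∀ z ∈ D.U, ‖h z‖ ≤ M) → ∃ Λ : D.Berg →L[ℂ] ℂ, ‖Λ‖ ≤ V * M ∧
      ∀ (f : D.Berg) (g : ℂ → ℂ), ((f : D.L2) : ℂ → ℂ) =ᵐ[volume.restrict D.U] g →
        Λ f = ∫ z in D.U, g z * h z := by
  refine ⟨(volume.restrict D.U).real univ ^ ((2 : ℝ≥0∞).toReal)⁻¹, by positivity, ?_⟩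
  intro h M hh hM0 hM
  have hc : ContinuousOn (fun z => conj (h z)) D.U :=
    Complex.continuous_conj.comp_continuousOn (hh.mono D.U_subset_cU)
  have hm : AEStronglyMeasurable (fun z => conj (h z)) (volume.restrict D.U) :=
    hc.aestronglyMeasurable D.U_open.measurableSet
  have hbd : ∀ᵐ z ∂(volume.restrict D.U), ‖conj (h z)‖ ≤ M := by
    filter_upwards [ae_restrict_mem D.U_open.measurableSet] with z hz
    rw [RCLike.norm_conj]
    exact hM z hz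
  have hmem : MemLp (fun z => conj (h z)) 2 (volume.restrict D.U) := MemLp.of_bound hm M hbd
  refine ⟨(innerSL ℂ (hmem.toLp _ : D.L2)).comp D.Berg.subtypeL, ?_, ?_⟩
  · have h1 : ‖(hmem.toLp _ : D.L2)‖ ≤
        (volume.restrict D.U).real univ ^ ((2 : ℝ≥0∞).toReal)⁻¹ * M := by
      refine Lp.norm_le_of_ae_bound hM0 ?_
      filter_upwards [MemLp.coeFn_toLp hmem, hbd] with z h1 h2
      rw [h1]
      exact h2
    refine ((innerSL ℂ (hmem.toLp _ : D.L2)).opNorm_comp_le D.Berg.subtypeL).trans ?_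
    rw [innerSL_apply_norm]
    calc ‖(hmem.toLp _ : D.L2)‖ * ‖D.Berg.subtypeL‖ ≤ ‖(hmem.toLp _ : D.L2)‖ * 1 :=
          mul_le_mul_of_nonneg_left (Submodule.norm_subtypeL_le _) (norm_nonneg _)
      _ = ‖(hmem.toLp _ : D.L2)‖ := mul_one _
      _ ≤ _ := h1
  · intro f g hg
    rw [ContinuousLinearMap.comp_apply, innerSL_apply_apply, L2.inner_def]
    refine integral_congr_ae ?_
    filter_upwards [MemLp.coeFn_toLp hmem, hg] with z h1 h2
    rw [h1]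
    simp only [Submodule.subtypeL_apply, RCLike.inner_apply, Complex.conj_conj]
    rw [h2]

/-- integrability of products -/
theorem ev_int {g h : ℂ → ℂ} (hg : D.Hol2 g) (hh : ContinuousOn h D.cU) :
    IntegrableOn (fun z => g z * h z) D.U := by
  obtain ⟨C, hC⟩ := D.cU_compact.exists_bound_of_continuousOn hh
  have h1 : Integrable g (volume.restrict D.U) := hg.memLp.integrable (by norm_num)
  refine h1.mul_bdd (c := C) ?_ ?_
  · exact (hh.mono D.U_subset_cU).aestronglyMeasurable D.U_open.measurableSet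
  · filter_upwards [ae_restrict_mem D.U_open.measurableSet] with z hz
    exact hC z (D.U_subset_cU hz)

theorem ev_cont_dzb {F : ℂ → ℂ} (hF : ContDiff ℝ (⊤ : ℕ∞) F) : Continuous (dzb F) :=
  (contDiffOn_univ.1 (dz_contDiffOn isOpen_univ (contDiffOn_univ.2 hF)).2).continuous

theorem ev_chi_smooth (hτ : D.Good τ) (l : Option (Fin k)) :
    ContDiff ℝ (⊤ : ℕ∞) (fun z => (D.chi τ l z : ℂ)) :=
  Complex.ofRealCLM.contDiff.comp (chi_smooth D hτ l)

theorem ev_conj_smooth {b : ℂ → ℂ} (hb : ContDiff ℝ (⊤ : ℕ∞) b) :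
    ContDiff ℝ (⊤ : ℕ∞) (fun z => conj (b z)) :=
  Complex.conjCLE.contDiff.comp hb

theorem ev_expand (hτ : D.Good τ) (t : Fin k → ℂ) {b : ℂ → ℂ} (hb : ContDiff ℝ (⊤ : ℕ∞) b)
    {g : ℂ → ℂ} (hg : D.Hol2 g) :
    ∫ z in D.U, g z * dzb (fun w => D.X τ t w * conj (b w)) z =
      (∫ z in D.U, g z * dzb (fun w => conj (b w)) z) +
        ∑ j, (t j - 1) * ∫ z in D.U, g z *
          dzb (fun w => (D.chi τ (some j) w : ℂ) * conj (b w)) z := by
  have hcb := ev_conj_smooth hb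
  have hpr : ∀ j, ContDiff ℝ (⊤ : ℕ∞) (fun w => (D.chi τ (some j) w : ℂ) * conj (b w)) :=
    fun j => (ev_chi_smooth D hτ (some j)).mul hcb
  have hpr2 : ∀ j, ContDiff ℝ (⊤ : ℕ∞)
      (fun w => (t j - 1) • ((D.chi τ (some j) w : ℂ) * conj (b w))) :=
    fun j => (hpr j).const_smul (t j - 1)
  have e1 : ∀ z, dzb (fun w => D.X τ t w * conj (b w)) z = dzb (fun w => conj (b w)) z +
      ∑ j, (t j - 1) * dzb (fun w => (D.chi τ (some j) w : ℂ) * conj (b w)) z := by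
    intro z
    have e2 : (fun w => D.X τ t w * conj (b w)) = fun w => conj (b w) +
        ∑ j, (t j - 1) • ((D.chi τ (some j) w : ℂ) * conj (b w)) := by
      funext w
      simp only [AJ.X, add_mul, one_mul, Finset.sum_mul, smul_eq_mul, mul_assoc]
    rw [e2]
    have hd : ∀ j, DifferentiableAt ℝ
        (fun w => (t j - 1) • ((D.chi τ (some j) w : ℂ) * conj (b w))) z :=
      fun j => ((hpr2 j).differentiable (by simp)).differentiableAt
    have hsum : DifferentiableAt ℝ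
        (fun w => ∑ j, (t j - 1) • ((D.chi τ (some j) w : ℂ) * conj (b w))) z :=
      DifferentiableAt.fun_sum fun j _ => hd j
    rw [(dz_add ((hcb.differentiable (by simp)).differentiableAt) hsum).2,
      (dz_sum Finset.univ fun j _ => hd j).2]
    congr 1
    refine Finset.sum_congr rfl fun j _ => ?_
    rw [(dz_smul (differentiableAt_const _)
      (((hpr j).differentiable (by simp)).differentiableAt)).2, dz_const.2, zero_smul, zero_add,
      smul_eq_mul]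
  simp only [e1, mul_add, Finset.mul_sum]
  have hi0 : IntegrableOn (fun z => g z * dzb (fun w => conj (b w)) z) D.U :=
    ev_int D hg (ev_cont_dzb hcb).continuousOn
  have hij : ∀ j, IntegrableOn (fun z => g z * ((t j - 1) *
      dzb (fun w => (D.chi τ (some j) w : ℂ) * conj (b w)) z)) D.U := by
    intro j
    exact ev_int D hg (continuous_const.mul (ev_cont_dzb (hpr j))).continuousOn
  rw [integral_add hi0 (integrable_finsetSum _ fun j _ => hij j),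
    integral_finsetSum _ fun j _ => hij j]
  congr 1
  refine Finset.sum_congr rfl fun j _ => ?_
  rw [← integral_const_mul]
  refine integral_congr_ae (Eventually.of_forall fun z => ?_)
  simp only
  ring

/-- a common bound for the derivatives of the cutoff functions -/
theorem ev_chi_bound (hτ : D.Good τ) : ∃ K : ℝ, 0 ≤ K ∧ ∀ l, ∀ z ∈ D.cU,
    ‖dzb (fun w => (D.chi τ l w : ℂ)) z‖ ≤ K := by
  have h : ∀ l, ∃ K : ℝ, ∀ z ∈ D.cU, ‖dzb (fun w => (D.chi τ l w : ℂ)) z‖ ≤ K := fun l =>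
    D.cU_compact.exists_bound_of_continuousOn
      (ev_cont_dzb (ev_chi_smooth D hτ l)).continuousOn
  choose K hK using h
  refine ⟨∑ l, |K l|, Finset.sum_nonneg fun _ _ => abs_nonneg _, fun l z hz => ?_⟩
  exact (hK l z hz).trans ((le_abs_self _).trans
    (Finset.single_le_sum (f := fun l => |K l|) (fun _ _ => abs_nonneg _) (Finset.mem_univ l)))

/-- geometric decay of the singular parts at an interior point -/
theorem ev_z0_bound (hτ : D.Good τ) {z₀ : ℂ} (hz₀ : z₀ ∈ D.U) : ∃ q₀ : ℝ, 0 ≤ q₀ ∧ q₀ < 1 ∧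
    ∀ l n, ‖(D.chi τ l z₀ : ℂ) * (D.lam l z₀)⁻¹ ^ (n + 1)‖ ≤ q₀ ^ n := by
  have h : ∀ l : Option (Fin k), ∃ q₀ : ℝ, 0 ≤ q₀ ∧ q₀ < 1 ∧
      ∀ n : ℕ, ‖(D.chi τ l z₀ : ℂ) * (D.lam l z₀)⁻¹ ^ (n + 1)‖ ≤ q₀ ^ n := by
    intro l
    by_cases h0 : D.chi τ l z₀ = 0
    · refine ⟨0, le_rfl, one_pos, fun n => ?_⟩
      rw [h0]
      simp only [Complex.ofReal_zero, zero_mul, norm_zero]
      positivity
    · have hmem : z₀ ∈ tsupport (D.chi τ l) := subset_tsupport _ h0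
      obtain ⟨w, hw, hwz⟩ := (chi_tsupport D hτ l).2.2 hmem
      have hw2 : w ∈ ann2 D.ρ := Pool.Agent.EN.ann2_mono (min_le_right _ _) hw
      have hlam : D.lam l z₀ = w := by rw [← hwz]; exact D.lam_kap hw2
      have h1 : 1 < ‖w‖ := (D.mem_iff l w hw2).1 (by rw [hwz]; exact hz₀)
      have hp : 0 < ‖w‖ := by linarith
      refine ⟨‖w‖⁻¹, by positivity, inv_lt_one_of_one_lt₀ h1, fun n => ?_⟩
      rw [hlam, norm_mul, norm_pow, norm_inv, Complex.norm_real,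
        Real.norm_of_nonneg (chi_mem D l z₀).1, pow_succ]
      have h2 : (‖w‖⁻¹) ≤ 1 := (inv_lt_one_of_one_lt₀ h1).le
      have h3 : 0 ≤ ‖w‖⁻¹ ^ n := by positivity
      calc D.chi τ l z₀ * (‖w‖⁻¹ ^ n * ‖w‖⁻¹) ≤ 1 * (‖w‖⁻¹ ^ n * 1) :=
            mul_le_mul (chi_mem D l z₀).2 (mul_le_mul_of_nonneg_left h2 h3) (by positivity)
              zero_le_one
        _ = ‖w‖⁻¹ ^ n := by ring
  choose q hq using h
  obtain ⟨l₀, hl₀⟩ := Finite.exists_max q
  refine ⟨q l₀, (hq l₀).1, (hq l₀).2.1, fun l n => ?_⟩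
  exact ((hq l).2.2 n).trans (pow_le_pow_left₀ (hq l).1 (hl₀ l) n)

/-- the coefficient functionals -/
theorem ev_coef (hτ : D.Good τ) {z₀ : ℂ} (hz₀ : z₀ ∈ D.U) :
    ∃ C Q : ℝ, 0 ≤ Q ∧ Q < 1 ∧ ∃ (c0 : Option (Fin k) → ℕ → (D.Berg →L[ℂ] ℂ))
      (cj : Option (Fin k) → Fin k → ℕ → (D.Berg →L[ℂ] ℂ)),
      (∀ l n, ‖c0 l n‖ ≤ C * Q ^ n) ∧ (∀ l j n, ‖cj l j n‖ ≤ C * Q ^ n) ∧
      ∀ (l : Option (Fin k)) (n : ℕ) (t : Fin k → ℂ) (f : D.Berg) (g : ℂ → ℂ),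
        ((f : D.L2) : ℂ → ℂ) =ᵐ[volume.restrict D.U] g → D.VV τ z₀ t g →
        -(Real.pi : ℂ) * l.elim 1 t * lc D τ l (n + 1) g =
          c0 l n f + ∑ j, (t j - 1) * cj l j n f := by
  obtain ⟨C, q, hC0, hq0, hq1, A, b, hAb⟩ := exists_tests D hτ
  obtain ⟨V, hV0, hI⟩ := ev_Iop D
  obtain ⟨K, hK0, hK⟩ := ev_chi_bound D hτ
  obtain ⟨q₀, hq₀0, hq₀1, hq₀⟩ := ev_z0_bound D hτ hz₀
  have hbs : ∀ l n, ContDiff ℝ (⊤ : ℕ∞) (fun z => conj (b l n z)) :=
    fun l n => ev_conj_smooth (hAb l n).2.1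
  have hbd : ∀ l n z, dzb (fun w => conj (b l n w)) z = conj (dz (b l n) z) := fun l n z =>
    (dz_conj (((hAb l n).2.1.differentiable (by simp)).differentiableAt)).2
  -- the functionals `F0`
  have h0 : ∀ (l : Option (Fin k)) (n : ℕ), ∃ Λ : D.Berg →L[ℂ] ℂ, ‖Λ‖ ≤ V * (C * q ^ n) ∧
      ∀ (f : D.Berg) (g : ℂ → ℂ), ((f : D.L2) : ℂ → ℂ) =ᵐ[volume.restrict D.U] g →
        Λ f = ∫ z in D.U, g z * dzb (fun w => conj (b l n w)) z := by
    intro l n
    refine hI _ _ (ev_cont_dzb (hbs l n)).continuousOn (by positivity) fun z _ => ?_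
    rw [hbd, RCLike.norm_conj]
    exact ((hAb l n).2.2.1 z).2
  have hj : ∀ (l : Option (Fin k)) (j : Fin k) (n : ℕ), ∃ Λ : D.Berg →L[ℂ] ℂ,
      ‖Λ‖ ≤ V * ((K + 1) * (C * q ^ n)) ∧
      ∀ (f : D.Berg) (g : ℂ → ℂ), ((f : D.L2) : ℂ → ℂ) =ᵐ[volume.restrict D.U] g →
        Λ f = ∫ z in D.U, g z *
          dzb (fun w => (D.chi τ (some j) w : ℂ) * conj (b l n w)) z := by
    intro l j n
    refine hI _ _ (ev_cont_dzb ((ev_chi_smooth D hτ (some j)).mul (hbs l n))).continuousOn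
      (by positivity) fun z hz => ?_
    have e := (dz_smul (((ev_chi_smooth D hτ (some j)).differentiable (by simp)).differentiableAt
      (x := z)) (((hbs l n).differentiable (by simp)).differentiableAt (x := z))).2
    simp only [smul_eq_mul] at e
    rw [e, hbd]
    have hcn : ‖(D.chi τ (some j) z : ℂ)‖ ≤ 1 := by
      rw [Complex.norm_real, Real.norm_of_nonneg (chi_mem D (some j) z).1]
      exact (chi_mem D (some j) z).2
    calc ‖dzb (fun w => (D.chi τ (some j) w : ℂ)) z * conj (b l n z) +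
          (D.chi τ (some j) z : ℂ) * conj (dz (b l n) z)‖
        ≤ ‖dzb (fun w => (D.chi τ (some j) w : ℂ)) z‖ * ‖b l n z‖ +
          ‖(D.chi τ (some j) z : ℂ)‖ * ‖dz (b l n) z‖ := by
          refine (norm_add_le _ _).trans ?_
          rw [norm_mul, norm_mul, RCLike.norm_conj, RCLike.norm_conj]
      _ ≤ K * (C * q ^ n) + 1 * (C * q ^ n) := by
          refine add_le_add ?_ ?_
          · exact mul_le_mul (hK _ z (D.U_subset_cU hz)) ((hAb l n).2.2.1 z).1 (norm_nonneg _) hK0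
          · exact mul_le_mul hcn ((hAb l n).2.2.1 z).2 (norm_nonneg _) zero_le_one
      _ = (K + 1) * (C * q ^ n) := by ring
  have hN : ∀ j : Fin k, ∃ Λ : D.Berg →L[ℂ] ℂ, ‖Λ‖ ≤ V * K ∧
      ∀ (f : D.Berg) (g : ℂ → ℂ), ((f : D.L2) : ℂ → ℂ) =ᵐ[volume.restrict D.U] g →
        Λ f = ∫ z in D.U, g z * dzb (fun w => (D.chi τ (some j) w : ℂ)) z := by
    intro j
    exact hI _ _ (ev_cont_dzb (ev_chi_smooth D hτ (some j))).continuousOn hK0
      fun z hz => hK _ z (D.U_subset_cU hz)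
  choose F0 hF0 using h0
  choose FJ hFJ using hj
  choose N hN using hN
  have hA : ∀ l n, ‖A l n z₀‖ ≤ (C + 1) * (max q q₀) ^ n := by
    intro l n
    rw [(hAb l n).2.2.2 z₀ (D.U_subset_cU hz₀)]
    calc ‖(D.chi τ l z₀ : ℂ) * (D.lam l z₀)⁻¹ ^ (n + 1) - b l n z₀‖
        ≤ ‖(D.chi τ l z₀ : ℂ) * (D.lam l z₀)⁻¹ ^ (n + 1)‖ + ‖b l n z₀‖ := norm_sub_le _ _
      _ ≤ q₀ ^ n + C * q ^ n := add_le_add (hq₀ l n) ((hAb l n).2.2.1 z₀).1
      _ ≤ (max q q₀) ^ n + C * (max q q₀) ^ n := by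
          refine add_le_add (pow_le_pow_left₀ hq₀0 (le_max_right _ _) n) ?_
          exact mul_le_mul_of_nonneg_left (pow_le_pow_left₀ hq0 (le_max_left _ _) n) hC0
      _ = (C + 1) * (max q q₀) ^ n := by ring
  have hqm : ∀ n : ℕ, q ^ n ≤ (max q q₀) ^ n := fun n =>
    pow_le_pow_left₀ hq0 (le_max_left _ _) n
  have hQ0 : 0 ≤ max q q₀ := hq0.trans (le_max_left _ _)
  refine ⟨V * ((K + 1) * C) + (C + 1) * (V * K), max q q₀, hQ0, max_lt hq1 hq₀1, F0,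
    fun l j n => FJ l j n + conj (A l n z₀) • N j, ?_, ?_, ?_⟩
  · intro l n
    refine (hF0 l n).1.trans ?_
    have h1 : V * (C * q ^ n) ≤ V * (C * (max q q₀) ^ n) :=
      mul_le_mul_of_nonneg_left (mul_le_mul_of_nonneg_left (hqm n) hC0) hV0
    have h2 : V * (C * (max q q₀) ^ n) ≤
        (V * ((K + 1) * C) + (C + 1) * (V * K)) * (max q q₀) ^ n := by
      have h3 : V * C ≤ V * ((K + 1) * C) + (C + 1) * (V * K) := by
        have : 0 ≤ V * (K * C) := by positivity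
        have : 0 ≤ (C + 1) * (V * K) := by positivity
        nlinarith
      calc V * (C * (max q q₀) ^ n) = (V * C) * (max q q₀) ^ n := by ring
        _ ≤ _ := mul_le_mul_of_nonneg_right h3 (by positivity)
    exact h1.trans h2
  · intro l j n
    have h3 : ‖FJ l j n + conj (A l n z₀) • N j‖ ≤ ‖FJ l j n‖ + ‖A l n z₀‖ * ‖N j‖ := by
      have := ev_abs0 (FJ l j n) (N j) (conj (A l n z₀))
      rw [RCLike.norm_conj] at this
      exact this
    refine h3.trans ?_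
    have h1 : ‖FJ l j n‖ ≤ V * ((K + 1) * (C * (max q q₀) ^ n)) :=
      (hFJ l j n).1.trans (mul_le_mul_of_nonneg_left (mul_le_mul_of_nonneg_left
        (mul_le_mul_of_nonneg_left (hqm n) hC0) (by positivity)) hV0)
    have h2 : ‖A l n z₀‖ * ‖N j‖ ≤ (C + 1) * (max q q₀) ^ n * (V * K) :=
      mul_le_mul (hA l n) (hN j).1 (ContinuousLinearMap.opNorm_nonneg _) (by positivity)
    calc ‖FJ l j n‖ + ‖A l n z₀‖ * ‖N j‖ ≤ _ := add_le_add h1 h2
      _ = (V * ((K + 1) * C) + (C + 1) * (V * K)) * (max q q₀) ^ n := by ring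
  · intro l n t f g hfg hg
    rw [key_identity D hτ hz₀ t hg l n (hAb l n).1 (hAb l n).2.1 (hAb l n).2.2.2,
      ev_expand D hτ t (hAb l n).2.1 hg.hol, (hF0 l n).2 f g hfg, sfun, Finset.mul_sum, add_assoc,
      ← Finset.sum_add_distrib]
    congr 1
    refine Finset.sum_congr rfl fun j _ => ?_
    rw [_root_.add_apply, _root_.smul_apply, (hFJ l j n).2 f g hfg,
      (hN j).2 f g hfg, smul_eq_mul]
    ring

/-- the local expansion in terms of functionals -/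
theorem ev_local (hτ : D.Good τ) (l : Option (Fin k)) :
    ∃ (C : ℝ) (Λ0 : D.Berg →L[ℂ] ℂ) (Λb : ℕ → (D.Berg →L[ℂ] ℂ)),
      (∀ n, ‖Λb n‖ ≤ C * ((1 + 2 * τ)⁻¹) ^ n) ∧
      ∀ (f : D.Berg) (g : ℂ → ℂ), D.Hol2 g →
        ((f : D.L2) : ℂ → ℂ) =ᵐ[volume.restrict D.U] g → Λ0 f = lc D τ l 0 g ∧
        ∀ z : ℂ, 1 < ‖z‖ → ‖z‖ < 1 + τ →
          Summable (fun n => lc D τ l n g * z⁻¹ ^ (n + 1)) ∧
          g (D.kap l z) * deriv (D.kap l) z =
            ∑' n, lc D τ l n g * z⁻¹ ^ (n + 1) + ∑' n, Λb n f * z ^ n := by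
  obtain ⟨C, lb, hC0, hlin, hbd, hex⟩ := local_laurent D hτ l
  have hsq : ∀ g : ℂ → ℂ, 0 ≤ Real.sqrt (∫ z in D.U, ‖g z‖ ^ 2) := fun g => Real.sqrt_nonneg _
  obtain ⟨C0, hC0'⟩ := lc_bound D hτ l 0
  obtain ⟨Λ0, -, hΛ0⟩ := berg_functional D (lc D τ l 0) C0
    (fun g g' c hg hg' => lc_linear D hτ l 0 hg hg' c)
    (by
      intro g g' _ _ h
      unfold lc
      congr 1
      refine setIntegral_congr_fun D.U_open.measurableSet fun z hz => ?_
      simp only [h z hz])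
    (fun g hg => hC0' g hg)
  have hb : ∀ n, ∃ Λ : D.Berg →L[ℂ] ℂ, ‖Λ‖ ≤ max (C * ((1 + 2 * τ)⁻¹) ^ n) 0 ∧
      ∀ (f : D.Berg) (g : ℂ → ℂ), D.Hol2 g →
        ((f : D.L2) : ℂ → ℂ) =ᵐ[volume.restrict D.U] g → Λ f = lb n g := by
    intro n
    refine berg_functional D (lb n) _ (fun g g' c hg hg' => hlin n g g' c hg hg') ?_
      (fun g hg => hbd n g hg)
    intro g g' hg hg' h
    have hsub : D.Hol2 (fun z => g z + (-1) * g' z) := by
      refine ⟨?_, ?_⟩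
      · exact hg.diff.add ((differentiableOn_const _).mul hg'.diff)
      · exact hg.memLp.add (hg'.memLp.const_mul (-1))
    have h1 := hlin n g g' (-1) hg hg'
    have h2 := hbd n _ hsub
    have h3 : ∫ z in D.U, ‖(fun z => g z + (-1) * g' z) z‖ ^ 2 = 0 := by
      have : ∫ z in D.U, ‖(fun z => g z + (-1) * g' z) z‖ ^ 2 = ∫ z in D.U, (0 : ℝ) := by
        refine setIntegral_congr_fun D.U_open.measurableSet fun z hz => ?_
        simp only [h z hz]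
        simp
      rw [this]
      simp
    rw [h3, Real.sqrt_zero, mul_zero] at h2
    have h4 : lb n (fun z => g z + (-1) * g' z) = 0 := norm_le_zero_iff.1 h2
    rw [h4] at h1
    linear_combination -h1
  choose Λb hΛb using hb
  have hτ2 : 0 ≤ (1 + 2 * τ)⁻¹ := by
    have := hτ.pos
    positivity
  refine ⟨C, Λ0, Λb, fun n => ?_, fun f g hg hfg => ⟨hΛ0 f g hg hfg, fun z h1 h2 => ?_⟩⟩
  · exact (hΛb n).1.trans (by rw [max_eq_left (by positivity)])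
  · obtain ⟨e1, e2, e3⟩ := hex g hg z h1 h2
    refine ⟨e1, ?_⟩
    rw [e3]
    congr 1
    refine tsum_congr fun n => ?_
    rw [(hΛb n).2 f g hg hfg]

/-- coordinates of points of the collar -/
theorem ev_lam {δ : ℝ} (l : Option (Fin k)) {z : ℂ} (hz : z ∈ D.col δ l) :
    D.lam l z ∈ ann2 D.ρ ∧ D.kap l (D.lam l z) = z ∧ ‖(D.lam l z)⁻¹‖ < 1 + δ ∧
      ‖D.lam l z‖ < 1 + δ ∧ D.lam l z ≠ 0 := by
  obtain ⟨w, hw, hwz⟩ := hz
  have hw2 : w ∈ ann2 D.ρ := Pool.Agent.EN.ann2_mono (min_le_right _ _) hw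
  have hlam : D.lam l z = w := by rw [← hwz]; exact D.lam_kap hw2
  have h2 : ‖w‖ < min (1 + δ) D.ρ := hw.2
  have hm : 0 < min (1 + δ) D.ρ := (norm_nonneg w).trans_lt h2
  have h1 : (min (1 + δ) D.ρ)⁻¹ < ‖w‖ := hw.1
  have hp : 0 < ‖w‖ := (inv_pos.2 hm).trans h1
  rw [hlam]
  refine ⟨hw2, hwz, ?_, h2.trans_le (min_le_left _ _), norm_pos_iff.1 hp⟩
  rw [norm_inv]
  refine lt_of_lt_of_le ?_ (min_le_left _ D.ρ)
  rw [inv_lt_comm₀ hp hm]
  exact h1

/-- evaluation functionals in the two-sided collars, correct on `VV_t` -/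
theorem exists_Ev (hτ : D.Good τ) {z₀ : ℂ} (hz₀ : z₀ ∈ D.U) :
    ∃ δ > 0, δ ≤ τ ∧ ∃ Ev : Option (Fin k) → (Fin k → ℂ) → ℂ → (D.Berg →L[ℂ] ℂ),
      (∀ l, ContinuousOn (fun p : (Fin k → ℂ) × ℂ => Ev l p.1 p.2)
        ({t | ∀ j, t j ≠ 0} ×ˢ D.col δ l)) ∧
      (∀ l t, (∀ j, t j ≠ 0) → DifferentiableOn ℂ (Ev l t) (D.col δ l)) ∧
      (∀ l, ∀ z ∈ D.col δ l, DifferentiableOn ℂ (fun t => Ev l t z) {t | ∀ j, t j ≠ 0}) ∧
      ∀ l t, (∀ j, t j ≠ 0) → ∀ (f : D.Berg) (g : ℂ → ℂ),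
        ((f : D.L2) : ℂ → ℂ) =ᵐ[volume.restrict D.U] g → D.VV τ z₀ t g →
        ∀ z ∈ D.col δ l ∩ D.U, Ev l t z f = g z := by
  obtain ⟨C, Q, hQ0, hQ1, c0, cj, hc0, hcj, hkey⟩ := ev_coef D hτ hz₀
  have hloc := fun l => ev_local D hτ l
  choose Cb Λ0 Λb hΛb hloc using hloc
  have hτ0 := hτ.pos
  set δ : ℝ := min τ ((1 - Q) / 2) with hδ
  have hδ0 : 0 < δ := lt_min hτ0 (by linarith)
  have hδτ : δ ≤ τ := min_le_left _ _
  have hδQ : δ ≤ (1 - Q) / 2 := min_le_right _ _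
  have hQδ : Q * (1 + δ) < 1 := by nlinarith
  have hbδ : (1 + 2 * τ)⁻¹ * (1 + δ) < 1 := by
    rw [inv_mul_lt_iff₀ (by linarith)]
    linarith
  have hb0 : 0 ≤ (1 + 2 * τ)⁻¹ := by positivity
  -- the three series
  have hS0 := fun l => ev_pow_series (c0 l) hQ0 (hc0 l)
  have hSj := fun l j => ev_pow_series (cj l j) hQ0 (hcj l j)
  have hSb := fun l => ev_pow_series (Λb l) hb0 (hΛb l)
  -- holomorphy of the ingredients
  have hlam : ∀ l, DifferentiableOn ℂ (D.lam l) (D.col δ l) := fun l =>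
    (lam_holo D l).mono (D.col_subset δ l)
  have hlinv : ∀ l, DifferentiableOn ℂ (fun z => (D.lam l z)⁻¹) (D.col δ l) := fun l =>
    (hlam l).inv fun z hz => (ev_lam D l hz).2.2.2.2
  have hkd : ∀ l, DifferentiableOn ℂ (fun z => (deriv (D.kap l) (D.lam l z))⁻¹)
      (D.col δ l) := by
    intro l
    refine DifferentiableOn.inv ?_ fun z hz => kap_deriv_ne D l (ev_lam D l hz).1
    exact ((D.holo l).deriv (Pool.Agent.EN.isOpen_ann2' _)).comp (hlam l)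
      fun z hz => (ev_lam D l hz).1
  have hmapinv : ∀ l, ∀ z ∈ D.col δ l, Q * ‖(D.lam l z)⁻¹‖ < 1 := by
    intro l z hz
    exact (mul_le_mul_of_nonneg_left (ev_lam D l hz).2.2.1.le hQ0).trans_lt hQδ
  have hmapb : ∀ l, ∀ z ∈ D.col δ l, (1 + 2 * τ)⁻¹ * ‖D.lam l z‖ < 1 := by
    intro l z hz
    exact (mul_le_mul_of_nonneg_left (ev_lam D l hz).2.2.2.1.le hb0).trans_lt hbδ
  set T : Set (Fin k → ℂ) := {t | ∀ j, t j ≠ 0} with hT
  have hπ : (Real.pi : ℂ) ≠ 0 := by exact_mod_cast Real.pi_ne_zero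
  have hp0 : ∀ (l : Option (Fin k)) (t : Fin k → ℂ), (∀ j, t j ≠ 0) →
      -(Real.pi : ℂ) * l.elim 1 t ≠ 0 := by
    intro l t ht
    refine mul_ne_zero (neg_ne_zero.2 hπ) ?_
    cases l with
    | none => exact one_ne_zero
    | some j => exact ht j
  have dS : ∀ l : Option (Fin k), DifferentiableOn ℂ
      (fun t : Fin k → ℂ => (-(Real.pi : ℂ) * l.elim 1 t)⁻¹) T := by
    intro l
    refine DifferentiableOn.inv ?_ (fun t ht => hp0 l t ht)
    cases l with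
    | none =>
      show DifferentiableOn ℂ (fun _ : Fin k → ℂ => -(Real.pi : ℂ) * 1) T
      exact differentiableOn_const _
    | some j =>
      show DifferentiableOn ℂ (fun t : Fin k → ℂ => -(Real.pi : ℂ) * t j) T
      exact ((differentiable_const _).mul (differentiable_apply j)).differentiableOn
  have key := fun l => ev_abs3 (k := k) (E := D.Berg →L[ℂ] ℂ) (ev_abs1 (hlinv l) (hkd l) (c0 l) hQ0 (hc0 l) (hmapinv l))
    (fun j => ev_abs1 (hlinv l) (hkd l) (cj l j) hQ0 (hcj l j) (hmapinv l))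
    (ev_abs2 (hlam l) (hlinv l) (hkd l) (Λ0 l) (Λb l) hb0 (hΛb l) (hmapb l)) (dS l)
  refine ⟨δ, hδ0, hδτ, fun l t z => (-(Real.pi : ℂ) * l.elim 1 t)⁻¹ •
    ((deriv (D.kap l) (D.lam l z))⁻¹ • ((D.lam l z)⁻¹ ^ 2 •
      ∑' n, ((D.lam l z)⁻¹) ^ n • c0 l n) +
      ∑ j, (t j - 1) • ((deriv (D.kap l) (D.lam l z))⁻¹ • ((D.lam l z)⁻¹ ^ 2 •
        ∑' n, ((D.lam l z)⁻¹) ^ n • cj l j n))) +
      (deriv (D.kap l) (D.lam l z))⁻¹ • ((D.lam l z)⁻¹ • Λ0 l +
        ∑' n, (D.lam l z) ^ n • Λb l n), fun l => (key l).1, fun l t _ => (key l).2.1 t,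
    fun l z _ => (key l).2.2 z, ?_⟩
  intro l t ht f g hfg hg z hz
  obtain ⟨hw, hkw, hn1, hn2, hne⟩ := ev_lam D l hz.1
  have h1w : 1 < ‖D.lam l z‖ := (D.mem_iff l _ hw).1 (by rw [hkw]; exact hz.2)
  obtain ⟨e0, e1⟩ := hloc l f g hg.hol hfg
  obtain ⟨hsum, e2⟩ := e1 _ h1w (hn2.trans_le (by linarith))
  rw [hkw] at e2
  exact ev_abs4 (hp0 l t ht) (kap_deriv_ne D l hw) ((hS0 l).2 _ (hmapinv l z hz.1))
    (fun j => (hSj l j).2 _ (hmapinv l z hz.1)) ((hSb l).2 _ (hmapb l z hz.1)) e0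
    (fun n => hkey l n t f g hfg hg) hsum e2

end

end Pool.Agent.KA
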