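import Pool.Agent.Helper9.KA.A5a
import Pool.Agent.Helper9.KA.CT
import Pool.Agent.Helper9.KA.C2

set_option autoImplicit false

open MeasureTheory Set Filter Asymptotics Topology Metric
open scoped ComplexConjugate ENNReal

namespace Pool.Agent.KA

open Pool.Agent.Helper7.KE hiding HM PS Bv sfun FF tt lS
open Pool.Agent.EN (AJ ann ann2)

section
variable {k : ℕ} (D : AJ k) {τ : ℝ}

namespace TS

/-- the compact annulus which carries the derivative of the cutoff function -/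
def piece (τ : ℝ) : Set ℂ := {w | 1 + τ / 3 ≤ ‖w‖ ∧ ‖w‖ ≤ 1 + 2 * τ / 3}

theorem piece_compact (τ : ℝ) : IsCompact (piece τ) := by
  refine IsCompact.of_isClosed_subset (isCompact_closedBall (0 : ℂ) (1 + 2 * τ / 3)) ?_ ?_
  · exact (isClosed_le continuous_const continuous_norm).inter
      (isClosed_le continuous_norm continuous_const)
  · intro w hw
    simpa using hw.2

variable {D} in
theorem piece_sub (hτ : D.Good τ) : piece τ ⊆ ann D.ρ := by
  intro w hw
  have h1 := hw.1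
  have h2 := hw.2
  have h3 := hτ.pos
  have h4 := hτ.lt_rho
  exact ⟨by linarith, by linarith⟩

theorem O_open (l : Option (Fin k)) : IsOpen (D.kap l '' ann D.ρ) :=
  D.isOpen_kap (EN.isOpen_ann' _) EN.ann_subset_ann2

theorem O_sub (l : Option (Fin k)) : D.kap l '' ann D.ρ ⊆ D.U := by
  rintro _ ⟨w, hw, rfl⟩
  exact (D.mem_iff l w (EN.ann_subset_ann2 hw)).2 hw.1

theorem O_sub2 (l : Option (Fin k)) : D.kap l '' ann D.ρ ⊆ D.kap l '' ann2 D.ρ :=
  image_mono EN.ann_subset_ann2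

/-- the singular part -/
noncomputable def sing (l : Option (Fin k)) (n : ℕ) (z : ℂ) : ℂ := (D.lam l z)⁻¹ ^ (n + 1)

theorem lam_ne {l : Option (Fin k)} {z : ℂ} (hz : z ∈ D.kap l '' ann2 D.ρ) : D.lam l z ≠ 0 := by
  obtain ⟨w, hw, rfl⟩ := hz
  rw [D.lam_kap hw]
  have h1 := hw.1
  have h2 : 0 < D.ρ⁻¹ := inv_pos.2 (by linarith [D.one_lt])
  exact norm_pos_iff.1 (h2.trans h1)

theorem two_open (l : Option (Fin k)) : IsOpen (D.kap l '' ann2 D.ρ) :=
  D.isOpen_kap (EN.isOpen_ann2' _) subset_rfl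

theorem sing_hasDerivAt (l : Option (Fin k)) (n : ℕ) {z : ℂ} (hz : z ∈ D.kap l '' ann2 D.ρ) :
    HasDerivAt (sing D l n)
      (-((n + 1 : ℕ) : ℂ) * (D.lam l z)⁻¹ ^ (n + 2) * deriv (D.lam l) z) z := by
  have h1 : HasDerivAt (D.lam l) (deriv (D.lam l) z) z :=
    ((lam_holo D l).differentiableAt ((two_open D l).mem_nhds hz)).hasDerivAt
  have h2 := (h1.fun_inv (lam_ne D hz)).fun_pow (n + 1)
  refine h2.congr_deriv ?_
  have h3 := lam_ne D hz
  simp only [Nat.add_sub_cancel]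
  rw [pow_add (D.lam l z)⁻¹ n 2]
  field_simp

theorem sing_diffOn (l : Option (Fin k)) (n : ℕ) :
    DifferentiableOn ℂ (sing D l n) (D.kap l '' ann2 D.ρ) := fun _ hz =>
  (sing_hasDerivAt D l n hz).differentiableAt.differentiableWithinAt

/-- the complexified cutoff function -/
noncomputable def cc (τ : ℝ) (l : Option (Fin k)) (z : ℂ) : ℂ := (D.chi τ l z : ℂ)

variable {D} in
theorem cc_test (hτ : D.Good τ) (l : Option (Fin k)) : IsTest univ (cc D τ l) where
  smooth := Complex.ofRealCLM.contDiff.comp (chi_smooth D hτ l)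
  compact := by
    have h := (chi_tsupport D hτ l).1
    exact h.comp_left (g := fun x : ℝ => (x : ℂ)) Complex.ofReal_zero
  supp := subset_univ _

variable {D} in
theorem cc_tsupport (hτ : D.Good τ) (l : Option (Fin k)) : tsupport (cc D τ l) ⊆
    D.kap l '' {z | 1 - 2 * τ / 3 ≤ ‖z‖ ∧ ‖z‖ ≤ 1 + 2 * τ / 3} := by
  refine Subset.trans ?_ (chi_tsupport D hτ l).2.1
  exact closure_mono fun z hz h0 => hz (by
    have h1 : D.chi τ l z = 0 := h0
    show (D.chi τ l z : ℂ) = 0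
    rw [h1, Complex.ofReal_zero])

variable {D} in
theorem cc_tsupport2 (_hτ : D.Good τ) (l : Option (Fin k)) :
    tsupport (cc D τ l) ⊆ tsupport (D.chi τ l) := by
  exact closure_mono fun z hz h0 => hz (by
    have h1 : D.chi τ l z = 0 := h0
    show (D.chi τ l z : ℂ) = 0
    rw [h1, Complex.ofReal_zero])

variable {D} in
theorem big_sub (hτ : D.Good τ) :
    {z : ℂ | 1 - 2 * τ / 3 ≤ ‖z‖ ∧ ‖z‖ ≤ 1 + 2 * τ / 3} ⊆ ann2 D.ρ := by
  intro w hw
  have h1 := hw.1
  have h2 := hw.2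
  have h3 := hτ.pos
  have h4 := hτ.lt_rho
  have h5 := hτ.lt_half
  refine ⟨?_, by linarith⟩
  refine lt_of_lt_of_le ?_ h1
  have h6 : 0 < D.ρ := by linarith
  rw [inv_lt_iff_one_lt_mul₀ h6]
  nlinarith

variable {D} in
/-- the cutoff function is constant one near points of the narrow collar -/
theorem cc_one_near (hτ : D.Good τ) (l : Option (Fin k)) {w : ℂ} (hw : w ∈ ann2 D.ρ)
    (h1 : 1 - τ / 3 < ‖w‖) (h2 : ‖w‖ < 1 + τ / 3) : ∀ᶠ z in 𝓝 (D.kap l w), D.chi τ l z = 1 := by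
  have ho : IsOpen (D.kap l '' (ann2 D.ρ ∩ {w | 1 - τ / 3 < ‖w‖ ∧ ‖w‖ < 1 + τ / 3})) := by
    refine D.isOpen_kap ((EN.isOpen_ann2' _).inter ?_) inter_subset_left
    exact (isOpen_lt continuous_const continuous_norm).inter
      (isOpen_lt continuous_norm continuous_const)
  filter_upwards [ho.mem_nhds ⟨w, ⟨hw, h1, h2⟩, rfl⟩]
  rintro _ ⟨u, ⟨hu, hu1, hu2⟩, rfl⟩
  exact chi_one D hτ l hu hu1.le hu2.le

variable {D} in
theorem dcc_zero (hτ : D.Good τ) (l : Option (Fin k)) {z : ℂ} (hz : z ∈ D.U)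
    (hE : z ∉ D.kap l '' piece τ) : dzb (cc D τ l) z = 0 := by
  by_cases hs : z ∈ tsupport (cc D τ l)
  · obtain ⟨w, hw, rfl⟩ := cc_tsupport hτ l hs
    have hw2 := big_sub hτ hw
    have hw1 : 1 < ‖w‖ := (D.mem_iff l w hw2).1 hz
    have hw3 : ‖w‖ < 1 + τ / 3 := by
      by_contra hc
      exact hE ⟨w, ⟨not_lt.1 hc, hw.2⟩, rfl⟩
    have h3 := hτ.pos
    have h4 : cc D τ l =ᶠ[𝓝 (D.kap l w)] fun _ => 1 := by
      filter_upwards [cc_one_near hτ l hw2 (by linarith) hw3] with z hz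
      show (D.chi τ l z : ℂ) = 1
      rw [hz, Complex.ofReal_one]
    exact (dz_congr h4).2.trans dz_const.2
  · exact (dz_of_notMem hs).2

/-- the right hand side of the dbar equation -/
noncomputable def bet (τ : ℝ) (l : Option (Fin k)) (n : ℕ) : ℂ → ℂ :=
  D.U.indicator fun z => dzb (cc D τ l) z • sing D l n z

variable {D} in
theorem bet_zero (hτ : D.Good τ) (l : Option (Fin k)) (n : ℕ) {z : ℂ}
    (hE : z ∉ D.kap l '' piece τ) : bet D τ l n z = 0 := by
  by_cases hz : z ∈ D.U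
  · rw [bet, indicator_of_mem hz, dcc_zero hτ l hz hE, zero_smul]
  · rw [bet, indicator_of_notMem hz]

variable {D} in
theorem E_compact (hτ : D.Good τ) (l : Option (Fin k)) : IsCompact (D.kap l '' piece τ) :=
  (piece_compact τ).image_of_continuousOn
    ((D.holo l).continuousOn.mono ((piece_sub hτ).trans EN.ann_subset_ann2))

variable {D} in
theorem E_sub (hτ : D.Good τ) (l : Option (Fin k)) : D.kap l '' piece τ ⊆ D.kap l '' ann D.ρ :=
  image_mono (piece_sub hτ)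

variable {D} in
theorem bet_near (l : Option (Fin k)) (n : ℕ) {z : ℂ} (hz : z ∈ D.kap l '' ann D.ρ) :
    bet D τ l n =ᶠ[𝓝 z] fun z => dzb (cc D τ l) z • sing D l n z := by
  filter_upwards [(O_open D l).mem_nhds hz] with w hw
  rw [bet, indicator_of_mem (O_sub D l hw)]

variable {D} in
theorem bet_smooth (hτ : D.Good τ) (l : Option (Fin k)) (n : ℕ) :
    ContDiff ℝ (⊤ : ℕ∞) (bet D τ l n) := by
  rw [contDiff_iff_contDiffAt]
  intro z
  by_cases hz : z ∈ D.kap l '' piece τ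
  · have hz2 := E_sub hτ l hz
    refine ContDiffAt.congr_of_eventuallyEq ?_ (bet_near l n hz2)
    refine (cc_test hτ l).dzb.smooth.contDiffAt.smul ?_
    exact (hol_contDiffOn (two_open D l) (sing_diffOn D l n)).contDiffAt
      ((two_open D l).mem_nhds (O_sub2 D l hz2))
  · have : bet D τ l n =ᶠ[𝓝 z] fun _ => 0 := by
      filter_upwards [(E_compact hτ l).isClosed.isOpen_compl.mem_nhds hz] with w hw
      exact bet_zero hτ l n hw
    exact contDiffAt_const.congr_of_eventuallyEq this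

variable {D} in
theorem bet_tsupport (hτ : D.Good τ) (l : Option (Fin k)) (n : ℕ) :
    tsupport (bet D τ l n) ⊆ D.kap l '' piece τ :=
  closure_minimal (fun z hz => by
    by_contra hc
    exact hz (bet_zero hτ l n hc)) (E_compact hτ l).isClosed

theorem test_bound {F : ℂ → ℂ} (hF : IsTest univ F) : ∃ C : ℝ, 0 ≤ C ∧ ∀ z, ‖F z‖ ≤ C := by
  obtain ⟨C, hC⟩ := hF.compact.exists_bound_of_continuous hF.smooth.continuous
  exact ⟨C, (norm_nonneg _).trans (hC 0), hC⟩

/-- the ratio -/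
noncomputable def qq (τ : ℝ) : ℝ := Real.sqrt (1 + τ / 3)⁻¹

theorem qq_prop (hτ : 0 < τ) : 0 < qq τ ∧ qq τ < 1 ∧ qq τ ^ 2 = (1 + τ / 3)⁻¹ := by
  have h1 : 0 < (1 + τ / 3)⁻¹ := by positivity
  refine ⟨Real.sqrt_pos.2 h1, ?_, Real.sq_sqrt h1.le⟩
  rw [qq, Real.sqrt_lt' one_pos, one_pow]
  exact inv_lt_one_of_one_lt₀ (by linarith)

theorem lin_pow {q : ℝ} (h0 : 0 < q) (h1 : q < 1) (n : ℕ) :
    ((n + 1 : ℕ) : ℝ) * q ^ n ≤ (1 - q)⁻¹ := by
  have h2 : ((n + 1 : ℕ) : ℝ) * q ^ n = ∑ i ∈ Finset.range (n + 1), q ^ n := by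
    rw [Finset.sum_const, Finset.card_range, nsmul_eq_mul]
  rw [h2]
  calc ∑ i ∈ Finset.range (n + 1), q ^ n ≤ ∑ i ∈ Finset.range (n + 1), q ^ i := by
        refine Finset.sum_le_sum fun i hi => ?_
        exact pow_le_pow_of_le_one h0.le h1.le (Nat.lt_succ_iff.1 (Finset.mem_range.1 hi))
    _ ≤ ∑' i, q ^ i := (summable_geometric_of_lt_one h0.le h1).sum_le_tsum _
        (fun _ _ => by positivity)
    _ = (1 - q)⁻¹ := tsum_geometric_of_lt_one h0.le h1

variable {D} in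
theorem lam_bound (hτ : D.Good τ) {l : Option (Fin k)} {z : ℂ} (hz : z ∈ D.kap l '' piece τ) :
    ‖(D.lam l z)⁻¹‖ ≤ qq τ ^ 2 := by
  obtain ⟨w, hw, rfl⟩ := hz
  rw [D.lam_kap (EN.ann_subset_ann2 (piece_sub hτ hw)), (qq_prop hτ.pos).2.2, norm_inv]
  have h1 := hτ.pos
  exact inv_anti₀ (by positivity) hw.1

variable {D} in
/-- bounds for `bet` -/
theorem bet_bound (hτ : D.Good τ) (l : Option (Fin k)) : ∃ C : ℝ, 0 ≤ C ∧ ∀ n z,
    ‖bet D τ l n z‖ ≤ C * qq τ ^ n ∧ ‖dz (bet D τ l n) z‖ ≤ C * qq τ ^ n := by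
  obtain ⟨C1, hC1, h1⟩ := test_bound (cc_test hτ l).dzb
  obtain ⟨C2, hC2, h2⟩ := test_bound (cc_test hτ l).dzb.dz
  obtain ⟨C3, h3⟩ := (E_compact hτ l).exists_bound_of_continuousOn
    (((lam_holo D l).deriv (two_open D l)).continuousOn.mono ((E_sub hτ l).trans (O_sub2 D l)))
  obtain ⟨q0, q1, q2⟩ := qq_prop hτ.pos
  set q := qq τ with hq
  have hq1 : 0 < (1 - q)⁻¹ := inv_pos.2 (by linarith)
  refine ⟨C1 + C2 + C1 * |C3| * (1 - q)⁻¹, by positivity, fun n z => ?_⟩
  have hqn : 0 ≤ q ^ n := by positivity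
  by_cases hz : z ∈ D.kap l '' piece τ
  · have hz2 := E_sub hτ l hz
    have hz3 := O_sub2 D l hz2
    have hl := lam_bound hτ hz
    have hs : ‖sing D l n z‖ ≤ q ^ n := by
      rw [sing, norm_pow]
      calc ‖(D.lam l z)⁻¹‖ ^ (n + 1) ≤ (q ^ 2) ^ (n + 1) :=
            pow_le_pow_left₀ (norm_nonneg _) hl _
        _ = q ^ (2 * (n + 1)) := by rw [← pow_mul]
        _ ≤ q ^ n := pow_le_pow_of_le_one q0.le q1.le (by omega)
    constructor
    · rw [(bet_near l n hz2).eq_of_nhds, norm_smul]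
      calc ‖dzb (cc D τ l) z‖ * ‖sing D l n z‖ ≤ C1 * q ^ n :=
            mul_le_mul (h1 z) hs (norm_nonneg _) hC1
        _ ≤ _ := by
          refine mul_le_mul_of_nonneg_right ?_ hqn
          have : 0 ≤ C1 * |C3| * (1 - q)⁻¹ := by positivity
          linarith
    · rw [(dz_congr (bet_near l n hz2)).1]
      have hd := sing_hasDerivAt D l n hz3
      rw [(dz_smul ((cc_test hτ l).dzb.smooth.differentiable (by simp)).differentiableAt
        (hd.differentiableAt.restrictScalars ℝ)).1, (dz_hol hd.differentiableAt).1, hd.deriv]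
      refine (norm_add_le _ _).trans ?_
      rw [norm_smul, norm_smul]
      have e1 : ‖dz (dzb (cc D τ l)) z‖ * ‖sing D l n z‖ ≤ C2 * q ^ n :=
        mul_le_mul (h2 z) hs (norm_nonneg _) hC2
      have e2 : ‖-((n + 1 : ℕ) : ℂ) * (D.lam l z)⁻¹ ^ (n + 2) * deriv (D.lam l) z‖ ≤
          (|C3| * (1 - q)⁻¹) * q ^ n := by
        rw [norm_mul, norm_mul, norm_neg, norm_pow, Complex.norm_natCast]
        have e3 : ‖(D.lam l z)⁻¹‖ ^ (n + 2) ≤ q ^ n * q ^ n := by
          calc ‖(D.lam l z)⁻¹‖ ^ (n + 2) ≤ (q ^ 2) ^ (n + 2) :=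
                pow_le_pow_left₀ (norm_nonneg _) hl _
            _ = q ^ (2 * (n + 2)) := by rw [← pow_mul]
            _ ≤ q ^ (n + n) := pow_le_pow_of_le_one q0.le q1.le (by omega)
            _ = q ^ n * q ^ n := pow_add _ _ _
        have e4 : ‖deriv (D.lam l) z‖ ≤ |C3| := (h3 z hz).trans (le_abs_self _)
        have e5 := lin_pow q0 q1 n
        calc ((n + 1 : ℕ) : ℝ) * ‖(D.lam l z)⁻¹‖ ^ (n + 2) * ‖deriv (D.lam l) z‖
            ≤ ((n + 1 : ℕ) : ℝ) * (q ^ n * q ^ n) * |C3| := by gcongr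
          _ = (((n + 1 : ℕ) : ℝ) * q ^ n) * (q ^ n * |C3|) := by ring
          _ ≤ (1 - q)⁻¹ * (q ^ n * |C3|) := by gcongr
          _ = _ := by ring
      have e6 : ‖dzb (cc D τ l) z‖ *
          ‖-((n + 1 : ℕ) : ℂ) * (D.lam l z)⁻¹ ^ (n + 2) * deriv (D.lam l) z‖ ≤
          C1 * ((|C3| * (1 - q)⁻¹) * q ^ n) := mul_le_mul (h1 z) e2 (norm_nonneg _) hC1
      have e7 : 0 ≤ C1 * q ^ n := by positivity
      calc _ ≤ C2 * q ^ n + C1 * ((|C3| * (1 - q)⁻¹) * q ^ n) := add_le_add e1 e6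
        _ ≤ C1 * q ^ n + (C2 * q ^ n + C1 * ((|C3| * (1 - q)⁻¹) * q ^ n)) := by linarith
        _ = _ := by ring
  · have hz' : z ∉ tsupport (bet D τ l n) := fun h => hz (bet_tsupport hτ l n h)
    rw [bet_zero hτ l n hz, (dz_of_notMem hz').1, norm_zero]
    exact ⟨by positivity, by positivity⟩

open Classical in
/-- the singular function, extended across the curves -/
noncomputable def sg (τ : ℝ) (l : Option (Fin k)) (n : ℕ) (z : ℂ) : ℂ :=
  if z ∈ D.U then cc D τ l z • sing D l n z else if z ∈ D.col τ l then sing D l n z else 0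

variable {D} in
theorem col_eq (hτ : D.Good τ) (l : Option (Fin k)) : D.col τ l = D.kap l '' ann2 (1 + τ) := by
  have h1 := hτ.lt_rho
  have h2 := hτ.pos
  rw [AJ.col, min_eq_left (by linarith)]

variable {D} in
/-- the extended singular function solves the dbar equation near the closed domain -/
theorem sg_dzb (hτ : D.Good τ) (l : Option (Fin k)) (n : ℕ) {z : ℂ} (hz : z ∈ D.Ue τ) :
    DifferentiableAt ℝ (sg D τ l n) z ∧ dzb (sg D τ l n) z = bet D τ l n z := by
  have h3 := hτ.pos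
  have h4 := hτ.lt_rho
  by_cases hU : z ∈ D.U
  · have e1 : sg D τ l n =ᶠ[𝓝 z] fun z => cc D τ l z • sing D l n z := by
      filter_upwards [D.isOpen.mem_nhds hU] with w hw
      rw [sg, if_pos hw]
    by_cases hk : z ∈ D.kap l '' ann2 D.ρ
    · have hd := (sing_hasDerivAt D l n hk).differentiableAt
      have hc : DifferentiableAt ℝ (cc D τ l) z :=
        ((cc_test hτ l).smooth.differentiable (by simp)).differentiableAt
      refine ⟨(hc.smul (hd.restrictScalars ℝ)).congr_of_eventuallyEq e1, ?_⟩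
      rw [(dz_congr e1).2, (dz_smul hc (hd.restrictScalars ℝ)).2, (dz_hol hd).2, smul_zero,
        add_zero, bet, indicator_of_mem hU]
    · have hns : z ∉ tsupport (cc D τ l) := fun h =>
        hk (image_mono (big_sub hτ) (cc_tsupport hτ l h))
      have e2 : sg D τ l n =ᶠ[𝓝 z] fun _ => 0 := by
        filter_upwards [e1, notMem_tsupport_iff_eventuallyEq.1 hns] with w h1 h2
        rw [h1, h2]
        simp
      refine ⟨(differentiableAt_const _).congr_of_eventuallyEq e2, ?_⟩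
      rw [(dz_congr e2).2, dz_const.2, bet, indicator_of_mem hU, (dz_of_notMem hns).2, zero_smul]
  · have hb : bet D τ l n z = 0 := by rw [bet, indicator_of_notMem hU]
    obtain ⟨l', hl'⟩ : ∃ l', z ∈ D.col τ l' := by
      rcases hz with h | h
      · exact absurd h hU
      · exact mem_iUnion.1 h
    by_cases hll : l' = l
    · subst hll
      rw [col_eq hτ] at hl'
      obtain ⟨w, hw, rfl⟩ := hl'
      have hsub : ann2 (1 + τ) ⊆ ann2 D.ρ := EN.ann2_mono (by linarith)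
      have hw1 : ¬ 1 < ‖w‖ := fun h => hU ((D.mem_iff l' w (hsub hw)).2 h)
      have ho : IsOpen (D.kap l' '' (ann2 (1 + τ) ∩ {w | ‖w‖ < 1 + τ / 3})) := by
        refine D.isOpen_kap ((EN.isOpen_ann2' _).inter ?_) (inter_subset_left.trans hsub)
        exact isOpen_lt continuous_norm continuous_const
      have e1 : sg D τ l' n =ᶠ[𝓝 (D.kap l' w)] sing D l' n := by
        filter_upwards [ho.mem_nhds ⟨w, ⟨hw, by
          show ‖w‖ < 1 + τ / 3
          linarith [not_lt.1 hw1]⟩, rfl⟩]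
        rintro _ ⟨u, ⟨hu, hu2⟩, rfl⟩
        by_cases huU : D.kap l' u ∈ D.U
        · have hu1 : 1 < ‖u‖ := (D.mem_iff l' u (hsub hu)).1 huU
          have hu3 : ‖u‖ < 1 + τ / 3 := hu2
          have : D.chi τ l' (D.kap l' u) = 1 :=
            chi_one D hτ l' (hsub hu) (by linarith) hu3.le
          rw [sg, if_pos huU, cc, this]
          simp
        · rw [sg, if_neg huU, if_pos]
          rw [col_eq hτ]
          exact ⟨u, hu, rfl⟩
      have hd := (sing_hasDerivAt D l' n ⟨w, hsub hw, rfl⟩).differentiableAt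
      refine ⟨(hd.restrictScalars ℝ).congr_of_eventuallyEq e1, ?_⟩
      rw [(dz_congr e1).2, (dz_hol hd).2, hb]
    · have e1 : sg D τ l n =ᶠ[𝓝 z] fun _ => 0 := by
        filter_upwards [(D.col_open τ l').mem_nhds hl'] with w hw
        have hdis : Disjoint (D.col τ l') (D.col τ l) := col_disj D hll
        have hwl : w ∉ D.col τ l := fun h => disjoint_left.1 hdis hw h
        by_cases hwU : w ∈ D.U
        · have hns : w ∉ tsupport (cc D τ l) := fun h =>
            hwl ((chi_tsupport D hτ l).2.2 (cc_tsupport2 hτ l h))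
          rw [sg, if_pos hwU, image_eq_zero_of_notMem_tsupport hns, zero_smul]
        · rw [sg, if_neg hwU, if_neg hwl]
      refine ⟨(differentiableAt_const _).congr_of_eventuallyEq e1, ?_⟩
      rw [(dz_congr e1).2, dz_const.2, hb]

variable {D} in
theorem sg_cU (hτ : D.Good τ) (l : Option (Fin k)) (n : ℕ) {z : ℂ} (hz : z ∈ D.cU) :
    sg D τ l n z = (D.chi τ l z : ℂ) * (D.lam l z)⁻¹ ^ (n + 1) := by
  rcases (mem_cU_iff D z).1 hz with h | ⟨l', h⟩
  · rw [sg, if_pos h]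
    rfl
  · have hU := circ_not_mem D h
    rw [sg, if_neg hU]
    by_cases hll : l' = l
    · subst hll
      rw [if_pos (D.circ_subset_col hτ.pos l' h), (chi_near D hτ.pos l' h).self_of_nhds,
        Complex.ofReal_one, one_mul]
      rfl
    · have hdis : Disjoint (D.col τ l') (D.col τ l) := col_disj D hll
      rw [if_neg (fun h2 => disjoint_left.1 hdis (D.circ_subset_col hτ.pos l' h) h2),
        (chi_zero_near D hτ hll h).self_of_nhds, Complex.ofReal_zero, zero_mul]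

variable {D} in
theorem exists_tests_l (hτ : D.Good τ) (l : Option (Fin k)) : ∃ C : ℝ, 0 ≤ C ∧
    ∀ n : ℕ, ∃ A b : ℂ → ℂ,
      DifferentiableOn ℂ A (D.Ue τ) ∧ ContDiff ℝ (⊤ : ℕ∞) b ∧
      (∀ z, ‖b z‖ ≤ C * qq τ ^ n ∧ ‖dz b z‖ ≤ C * qq τ ^ n) ∧
      ∀ z ∈ D.cU, A z = (D.chi τ l z : ℂ) * (D.lam l z)⁻¹ ^ (n + 1) - b z := by
  obtain ⟨C1, hC1, h1⟩ := bet_bound hτ l
  obtain ⟨R, hR⟩ := (E_compact hτ l).isBounded.subset_closedBall (0 : ℂ)
  obtain ⟨C2, hC2, h2⟩ := cauchy_smooth R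
  refine ⟨C2 * C1, mul_nonneg hC2 hC1, fun n => ?_⟩
  obtain ⟨b, hb1, hb2, hb3, hb4⟩ := h2 (bet D τ l n) (bet_smooth hτ l n)
    ((bet_tsupport hτ l n).trans hR)
  refine ⟨fun z => sg D τ l n z - b z, b, ?_, hb1, ?_, ?_⟩
  · intro z hz
    obtain ⟨e1, e2⟩ := sg_dzb hτ l n hz
    have e3 : DifferentiableAt ℝ b z := (hb1.differentiable (by simp)).differentiableAt
    refine (Weyl.differentiableAt_of_dzb (e1.sub e3).hasFDerivAt ?_).differentiableWithinAt
    have e4 : dzb (fun z => sg D τ l n z + -b z) z = 0 := by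
      have e7 : DifferentiableAt ℝ (fun w => -b w) z := e3.neg
      rw [(dz_add (G := fun w => -b w) e1 e7).2, dz_neg.2, e2, hb2, add_neg_cancel]
    have e5 : dzb (fun z => sg D τ l n z + -b z) z = (2⁻¹ : ℂ) *
        (fderiv ℝ (sg D τ l n - b) z 1 + Complex.I * fderiv ℝ (sg D τ l n - b) z Complex.I) := by
      have e6 : (fun z => sg D τ l n z + -b z) = sg D τ l n - b := by
        funext z
        simp [sub_eq_add_neg]
      rw [e6]
      rfl
    rw [e5] at e4
    have := (mul_eq_zero.1 e4).resolve_left (by norm_num)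
    exact this
  · intro z
    rw [mul_assoc]
    exact ⟨hb3 _ (fun z => (h1 n z).1) z, hb4 _ (fun z => (h1 n z).2) z⟩
  · intro z hz
    show sg D τ l n z - b z = _
    rw [sg_cU hτ l n hz]

end TS

open TS in
/-- test functions with a prescribed singular part `λ^{-(n+1)}` beyond the curve `l` -/
theorem exists_tests (hτ : D.Good τ) : ∃ C q : ℝ, 0 ≤ C ∧ 0 ≤ q ∧ q < 1 ∧
    ∃ A b : Option (Fin k) → ℕ → ℂ → ℂ, ∀ l n,
      DifferentiableOn ℂ (A l n) (D.Ue τ) ∧ ContDiff ℝ (⊤ : ℕ∞) (b l n) ∧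
      (∀ z, ‖b l n z‖ ≤ C * q ^ n ∧ ‖dz (b l n) z‖ ≤ C * q ^ n) ∧
      ∀ z ∈ D.cU, A l n z = (D.chi τ l z : ℂ) * (D.lam l z)⁻¹ ^ (n + 1) - b l n z := by
  choose C hC A b h1 h2 h3 h4 using fun l => exists_tests_l hτ l
  obtain ⟨q0, q1, -⟩ := qq_prop hτ.pos
  refine ⟨∑ l, C l, qq τ, Finset.sum_nonneg fun l _ => hC l, q0.le, q1, A, b, fun l n =>
    ⟨h1 l n, h2 l n, fun z => ?_, h4 l n⟩⟩
  have hle : C l * qq τ ^ n ≤ (∑ l, C l) * qq τ ^ n :=
    mul_le_mul_of_nonneg_right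
      (Finset.single_le_sum (fun l _ => hC l) (Finset.mem_univ l)) (by positivity)
  exact ⟨(h3 l n z).1.trans hle, (h3 l n z).2.trans hle⟩

end

end Pool.Agent.KA
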