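import Pool.Agent.Helper9.KA.LL
import Pool.Agent.Helper9.KA.TS
import Pool.Agent.Helper9.KA.C7a
import Pool.Agent.Helper7.KE.C0a

set_option autoImplicit false

open MeasureTheory Set Filter Asymptotics Topology Metric
open scoped ComplexConjugate ENNReal

namespace Pool.Agent.KA

open Pool.Agent.Helper7.KE hiding HM PS Bv sfun FF tt lS
open Pool.Agent.EN (AJ ann ann2)

section
variable {k : ℕ} (D : AJ k) {τ : ℝ}

theorem ev1_norm_eq {f : D.L2} {g : ℂ → ℂ} (h : f =ᵐ[volume.restrict D.U] g) :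
    ‖f‖ = Real.sqrt (∫ z in D.U, ‖g z‖ ^ 2) := by
  have h1 : ‖f‖ ^ 2 = ∫ z in D.U, ‖g z‖ ^ 2 := by
    have h2 : inner ℂ f f = ((∫ z in D.U, ‖g z‖ ^ 2 : ℝ) : ℂ) := by
      rw [L2.inner_def, ← integral_complex_ofReal]
      refine integral_congr_ae ?_
      filter_upwards [h] with z hz
      rw [hz]
      simp
    rw [@norm_sq_eq_re_inner ℂ]
    rw [h2]; simp
  rw [← h1, Real.sqrt_sq (norm_nonneg _)]

/-- bounded linear functionals of the holomorphic representative -/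
theorem berg_functional (L : (ℂ → ℂ) → ℂ) (C : ℝ)
    (hadd : ∀ g g' c, D.Hol2 g → D.Hol2 g' → L (fun z => g z + c * g' z) = L g + c * L g')
    (hcongr : ∀ g g', D.Hol2 g → D.Hol2 g' → (∀ z ∈ D.U, g z = g' z) → L g = L g')
    (hb : ∀ g, D.Hol2 g → ‖L g‖ ≤ C * Real.sqrt (∫ z in D.U, ‖g z‖ ^ 2)) :
    ∃ Λ : D.Berg →L[ℂ] ℂ, ‖Λ‖ ≤ max C 0 ∧ ∀ (f : D.Berg) (g : ℂ → ℂ), D.Hol2 g →
      ((f : D.L2) : ℂ → ℂ) =ᵐ[volume.restrict D.U] g → Λ f = L g := by
  have hrep : ∀ f : D.Berg, D.Hol2 (fun z => evL D z (f : D.L2)) ∧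
      ((f : D.L2) : ℂ → ℂ) =ᵐ[volume.restrict D.U] fun z => evL D z (f : D.L2) := by
    intro f
    obtain ⟨h1, h2⟩ := berg_main D f.2
    exact ⟨⟨h1, (memLp_congr_ae h2).1 (Lp.memLp _)⟩, h2⟩
  have h0 : D.Hol2 (fun _ : ℂ => (0 : ℂ)) :=
    ⟨differentiableOn_const 0, MemLp.zero'⟩
  have hL0 : L (fun _ => 0) = 0 := by
    have h := hadd (fun _ => 0) (fun _ => 0) (-1) h0 h0
    have e : (fun _ : ℂ => (0 : ℂ) + (-1) * 0) = fun _ => 0 := by funext z; ring
    rw [e] at h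
    rw [h]; ring
  let M : D.Berg →ₗ[ℂ] ℂ :=
    { toFun := fun f => L (fun z => evL D z (f : D.L2))
      map_add' := by
        intro f f'
        have h := hadd _ _ 1 (hrep f).1 (hrep f').1
        rw [one_mul] at h
        rw [← h]
        congr 1
        funext z
        simp
      map_smul' := by
        intro c f
        have h := hadd _ _ c h0 (hrep f).1
        rw [hL0, zero_add] at h
        rw [RingHom.id_apply, smul_eq_mul, ← h]
        congr 1
        funext z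
        simp }
  refine ⟨M.mkContinuous (max C 0) fun f => ?_, ?_, fun f g hg hfg => ?_⟩
  · refine (hb _ (hrep f).1).trans ?_
    rw [← ev1_norm_eq D (hrep f).2]
    exact mul_le_mul_of_nonneg_right (le_max_left _ _) (norm_nonneg _)
  · exact M.mkContinuous_norm_le (le_max_right _ _) _
  · show L _ = L g
    refine hcongr _ _ (hrep f).1 hg fun z hz => ?_
    exact hol_unique D (hrep f).1.diff hg.diff ((hrep f).2.symm.trans hfg) z hz

theorem ev1_chi_mul (hτ : D.Good τ) (l : Option (Fin k)) {F : ℂ → ℂ}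
    (hF : ContDiffOn ℝ (⊤ : ℕ∞) F (D.kap l '' ann2 D.ρ)) :
    ContDiff ℝ (⊤ : ℕ∞) (fun w => (D.chi τ l w : ℂ) * F w) := by
  rw [contDiff_iff_contDiffAt]
  intro z
  by_cases hz : z ∈ tsupport (D.chi τ l)
  · have h1 : z ∈ D.kap l '' ann2 D.ρ := by
      have h2 := (chi_tsupport D hτ l).2.2 hz
      exact D.col_subset τ l h2
    have h2 : IsOpen (D.kap l '' ann2 D.ρ) := D.isOpen_kap (Pool.Agent.EN.isOpen_ann2' _) subset_rfl
    refine ContDiffAt.mul ?_ (hF.contDiffAt (h2.mem_nhds h1))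
    exact (Complex.ofRealCLM.contDiff.comp (chi_smooth D hτ l)).contDiffAt
  · have h1 : D.chi τ l =ᶠ[𝓝 z] fun _ => 0 := notMem_tsupport_iff_eventuallyEq.1 hz
    have h2 : (fun w => (D.chi τ l w : ℂ) * F w) =ᶠ[𝓝 z] fun _ => 0 := by
      filter_upwards [h1] with w hw
      rw [hw]; simp
    exact contDiffAt_const.congr_of_eventuallyEq h2

theorem ev1_lam_mem (l : Option (Fin k)) {z : ℂ} (hz : z ∈ D.kap l '' ann2 D.ρ) :
    D.lam l z ∈ ann2 D.ρ := by
  obtain ⟨u, hu, rfl⟩ := hz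
  rw [D.lam_kap hu]; exact hu

theorem ev1_lam_ne (l : Option (Fin k)) {z : ℂ} (hz : z ∈ D.kap l '' ann2 D.ρ) :
    D.lam l z ≠ 0 := by
  have h := (ev1_lam_mem D l hz).1
  have h2 : (0 : ℝ) < D.ρ⁻¹ := inv_pos.2 (zero_lt_one.trans D.one_lt)
  exact norm_pos_iff.1 (h2.trans h)

theorem ev1_int (g φ : ℂ → ℂ) (hg : D.Hol2 g) (hφ : ContinuousOn φ D.cU) :
    Integrable (fun z => g z * φ z) (volume.restrict D.U) := by
  obtain ⟨C, hC⟩ := D.cU_compact.exists_bound_of_continuousOn hφ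
  have h1 : AEStronglyMeasurable φ (volume.restrict D.U) :=
    (hφ.mono D.U_subset_cU).aestronglyMeasurable D.U_open.measurableSet
  have h2 : Integrable g (volume.restrict D.U) := hg.memLp.integrable (by norm_num)
  refine Integrable.mono (h2.norm.const_mul C) (hg.memLp.1.mul h1) ?_
  filter_upwards [ae_restrict_mem D.U_open.measurableSet] with z hz
  have h3 := hC z (D.U_subset_cU hz)
  have h4 : 0 ≤ C := (norm_nonneg _).trans h3
  rw [norm_mul, norm_mul, norm_norm, Real.norm_of_nonneg h4, mul_comm]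
  exact mul_le_mul_of_nonneg_right h3 (norm_nonneg _)

theorem ev1_dzb_cont {F : ℂ → ℂ} (hF : ContDiff ℝ (⊤ : ℕ∞) F) : Continuous (dzb F) :=
  (contDiffOn_univ.1 (dz_contDiffOn isOpen_univ (contDiffOn_univ.2 hF)).2).continuous

/-- the key identity: coefficients of elements of `VV_t` by smoothing functionals
(`t_none = 1`) -/
theorem key_identity (hτ : D.Good τ) {z₀ : ℂ} (hz₀ : z₀ ∈ D.U) (t : Fin k → ℂ)
    {g : ℂ → ℂ} (hg : D.VV τ z₀ t g) (l : Option (Fin k)) (n : ℕ) {A b : ℂ → ℂ}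
    (hA : DifferentiableOn ℂ A (D.Ue τ)) (hb : ContDiff ℝ (⊤ : ℕ∞) b)
    (hAb : ∀ z ∈ D.cU, A z = (D.chi τ l z : ℂ) * (D.lam l z)⁻¹ ^ (n + 1) - b z) :
    -(Real.pi : ℂ) * l.elim 1 t * lc D τ l (n + 1) g =
      (∫ z in D.U, g z * dzb (fun w => D.X τ t w * conj (b w)) z) +
        conj (A z₀) * sfun D τ t g := by
  have hgh := hg.hol
  -- step 1: `L_t g (A) = conj (A z₀) sfun`
  have s1 : D.Lt τ t g A = conj (A z₀) * sfun D τ t g := by
    have h1 : DifferentiableOn ℂ (fun z => A z + (-(A z₀)) * 1) (D.Ue τ) :=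
      hA.add (differentiableOn_const _)
    have h2 := VV_ann D t hg hτ.pos h1 (by ring)
    rw [Lt_linear D hτ t hgh (D.Ue_open τ) (D.cU_subset_Ue hτ.pos) hA
      (differentiableOn_const (c := (1 : ℂ)) (s := D.Ue τ)) (-(A z₀)), Lt_one D hτ t hgh,
      map_neg] at h2
    linear_combination h2
  -- smoothness
  have hX : ContDiff ℝ (⊤ : ℕ∞) (D.X τ t) := by
    unfold AJ.X
    refine contDiff_const.add (ContDiff.sum fun j _ => contDiff_const.mul ?_)
    exact Complex.ofRealCLM.contDiff.comp (chi_smooth D hτ (some j))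
  have hΩ : IsOpen (D.kap l '' ann2 D.ρ) :=
    D.isOpen_kap (Pool.Agent.EN.isOpen_ann2' _) subset_rfl
  have hlam : ContDiffOn ℝ (⊤ : ℕ∞) (D.lam l) (D.kap l '' ann2 D.ρ) :=
    hol_contDiffOn hΩ (lam_holo D l)
  have hinv : DifferentiableOn ℂ (fun z => (D.lam l z)⁻¹ ^ (n + 1)) (D.kap l '' ann2 D.ρ) :=
    ((lam_holo D l).fun_inv fun z hz => ev1_lam_ne D l hz).fun_pow _
  have hpow : DifferentiableOn ℂ (fun z => D.lam l z ^ (n + 1)) (D.kap l '' ann2 D.ρ) :=
    (lam_holo D l).fun_pow _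
  have hc1 : ContDiff ℝ (⊤ : ℕ∞)
      (fun w => (D.chi τ l w : ℂ) * (D.lam l w)⁻¹ ^ (n + 1)) :=
    ev1_chi_mul D hτ l (hol_contDiffOn hΩ hinv)
  have hc2 : ContDiff ℝ (⊤ : ℕ∞)
      (fun w => (D.chi τ l w : ℂ) * D.lam l w ^ (n + 1)) :=
    ev1_chi_mul D hτ l (hol_contDiffOn hΩ hpow)
  have hcc : ∀ {F : ℂ → ℂ}, ContDiff ℝ (⊤ : ℕ∞) F →
      ContDiff ℝ (⊤ : ℕ∞) (fun w => conj (F w)) := fun hF =>
    Complex.conjCLE.contDiff.comp hF
  have hP : ContDiff ℝ (⊤ : ℕ∞)
      (fun w => D.X τ t w * conj ((D.chi τ l w : ℂ) * (D.lam l w)⁻¹ ^ (n + 1))) :=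
    hX.mul (hcc hc1)
  have hQ : ContDiff ℝ (⊤ : ℕ∞) (fun w => D.X τ t w * conj (b w)) := hX.mul (hcc hb)
  have hR : ContDiff ℝ (⊤ : ℕ∞)
      (fun w => l.elim 1 t * ((D.chi τ l w : ℂ) * D.lam l w ^ (n + 1))) :=
    contDiff_const.mul hc2
  have hd : ∀ {F : ℂ → ℂ}, ContDiff ℝ (⊤ : ℕ∞) F → ∀ z, DifferentiableAt ℝ F z :=
    fun hF z => (hF.differentiable (by simp)).differentiableAt
  -- step 2: split `L_t g (A)`
  have s2 : D.Lt τ t g A =
      (∫ z in D.U, g z * dzb (fun w => D.X τ t w *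
        conj ((D.chi τ l w : ℂ) * (D.lam l w)⁻¹ ^ (n + 1))) z) -
      ∫ z in D.U, g z * dzb (fun w => D.X τ t w * conj (b w)) z := by
    unfold AJ.Lt
    rw [← integral_sub (ev1_int D g _ hgh (ev1_dzb_cont hP).continuousOn)
      (ev1_int D g _ hgh (ev1_dzb_cont hQ).continuousOn)]
    refine setIntegral_congr_fun D.U_open.measurableSet fun z hz => ?_
    rw [← mul_sub]
    congr 1
    have h1 : (fun w => D.X τ t w * conj (A w)) =ᶠ[𝓝 z] fun w =>
        D.X τ t w * conj ((D.chi τ l w : ℂ) * (D.lam l w)⁻¹ ^ (n + 1)) +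
          -(D.X τ t w * conj (b w)) := by
      filter_upwards [D.U_open.mem_nhds hz] with w hw
      rw [hAb w (D.U_subset_cU hw), map_sub]
      ring
    rw [(dz_congr h1).2, (dz_add (hd hP z) (hd hQ z).fun_neg).2, dz_neg.2]
    ring
  -- step 3: orthogonality
  have s3 : ∫ z in D.U, g z * dzb (fun w => D.X τ t w *
        conj ((D.chi τ l w : ℂ) * (D.lam l w)⁻¹ ^ (n + 1)) +
          -(l.elim 1 t * ((D.chi τ l w : ℂ) * D.lam l w ^ (n + 1)))) z = 0 := by
    refine orth_zero D isOpen_univ (subset_univ _) ?_ ?_ hgh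
    · exact ((hP.add hR.neg).of_le (by simp)).contDiffOn
    · intro l' z hz
      by_cases hl : l' = l
      · subst hl
        have h1 : D.chi τ l' z = 1 := (chi_near D hτ.pos l' hz).self_of_nhds
        have h2 : D.X τ t z = l'.elim 1 t := by
          cases l' with
          | none => exact ((X_circ D hτ t).1 z hz).self_of_nhds
          | some j => exact ((X_circ D hτ t).2 j z hz).self_of_nhds
        have h3 : conj (D.lam l' z)⁻¹ = D.lam l' z := by
          obtain ⟨u, hu, rfl⟩ := hz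
          have hu1 : ‖u‖ = 1 := by simpa using hu
          have hu2 : u ∈ ann2 D.ρ := Pool.Agent.EN.sphere_subset_ann2 D.one_lt hu
          rw [D.lam_kap hu2]
          rw [Complex.inv_eq_conj hu1]
          simp
        rw [h1, h2]
        simp only [Complex.ofReal_one, one_mul, map_pow]
        rw [h3]
        ring
      · have h1 : D.chi τ l z = 0 := (chi_zero_near D hτ hl hz).self_of_nhds
        rw [h1]; simp
  -- step 4
  have s4 : (∫ z in D.U, g z * dzb (fun w => D.X τ t w *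
        conj ((D.chi τ l w : ℂ) * (D.lam l w)⁻¹ ^ (n + 1))) z) =
      l.elim 1 t * ∫ z in D.U, g z * (D.lam l z ^ (n + 1) *
        dzb (fun w => (D.chi τ l w : ℂ)) z) := by
    rw [← integral_const_mul, ← sub_eq_zero]
    have hχ : ContDiff ℝ (⊤ : ℕ∞) (fun w => (D.chi τ l w : ℂ)) :=
      Complex.ofRealCLM.contDiff.comp (chi_smooth D hτ l)
    have e1 : ∀ z ∈ D.U, dzb (fun w => (D.chi τ l w : ℂ) * D.lam l w ^ (n + 1)) z =
        D.lam l z ^ (n + 1) * dzb (fun w => (D.chi τ l w : ℂ)) z := by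
      intro z _
      by_cases hz : z ∈ tsupport (D.chi τ l)
      · have h1 : z ∈ D.kap l '' ann2 D.ρ := D.col_subset τ l ((chi_tsupport D hτ l).2.2 hz)
        have h2 : DifferentiableAt ℂ (fun z => D.lam l z ^ (n + 1)) z :=
          hpow.differentiableAt (hΩ.mem_nhds h1)
        have h3 := (dz_smul (hd hχ z) (h2.restrictScalars ℝ)).2
        simp only [smul_eq_mul] at h3
        rw [h3, (dz_hol h2).2]
        ring
      · have h1 : D.chi τ l =ᶠ[𝓝 z] fun _ => 0 := notMem_tsupport_iff_eventuallyEq.1 hz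
        have h2 : (fun w => (D.chi τ l w : ℂ) * D.lam l w ^ (n + 1)) =ᶠ[𝓝 z] fun _ => 0 := by
          filter_upwards [h1] with w hw
          rw [hw]; simp
        have h3 : (fun w => (D.chi τ l w : ℂ)) =ᶠ[𝓝 z] fun _ => 0 := by
          filter_upwards [h1] with w hw
          rw [hw]; simp
        rw [(dz_congr h2).2, (dz_congr h3).2, dz_const.2, mul_zero]
    have e2 : ∀ z ∈ D.U, g z * dzb (fun w => D.X τ t w *
        conj ((D.chi τ l w : ℂ) * (D.lam l w)⁻¹ ^ (n + 1)) +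
          -(l.elim 1 t * ((D.chi τ l w : ℂ) * D.lam l w ^ (n + 1)))) z =
        g z * dzb (fun w => D.X τ t w *
          conj ((D.chi τ l w : ℂ) * (D.lam l w)⁻¹ ^ (n + 1))) z -
        l.elim 1 t * (g z * (D.lam l z ^ (n + 1) * dzb (fun w => (D.chi τ l w : ℂ)) z)) := by
      intro z hz
      have h3 := (dz_smul (f := fun _ => l.elim 1 t) (differentiableAt_const _) (hd hc2 z)).2
      simp only [smul_eq_mul] at h3
      rw [(dz_add (hd hP z) (hd hR z).fun_neg).2, dz_neg.2, h3, e1 z hz, dz_const.2]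
      ring
    have e3 : Integrable (fun z => g z * dzb (fun w => D.X τ t w *
        conj ((D.chi τ l w : ℂ) * (D.lam l w)⁻¹ ^ (n + 1))) z) (volume.restrict D.U) :=
      ev1_int D g _ hgh (ev1_dzb_cont hP).continuousOn
    have e4 : Integrable (fun z => l.elim 1 t * (g z * (D.lam l z ^ (n + 1) *
        dzb (fun w => (D.chi τ l w : ℂ)) z))) (volume.restrict D.U) := by
      refine Integrable.const_mul ?_ _
      refine (ev1_int D g _ hgh (ev1_dzb_cont hc2).continuousOn).congr ?_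
      filter_upwards [ae_restrict_mem D.U_open.measurableSet] with z hz
      rw [e1 z hz]
    rw [← integral_sub e3 e4, ← s3]
    exact (setIntegral_congr_fun D.U_open.measurableSet e2).symm
  have s5 : -(Real.pi : ℂ) * l.elim 1 t * lc D τ l (n + 1) g =
      l.elim 1 t * ∫ z in D.U, g z * (D.lam l z ^ (n + 1) *
        dzb (fun w => (D.chi τ l w : ℂ)) z) := by
    unfold lc
    have hpi : (Real.pi : ℂ) ≠ 0 := by exact_mod_cast Real.pi_ne_zero
    field_simp
  rw [s5, ← s4]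
  linear_combination s1 - s2
end

end Pool.Agent.KA
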