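import Pool.Agent.Helper7.KE.F3

/-!
# Conformal transfer of solutions, without bounds on the derivative
-/

set_option autoImplicit false

open MeasureTheory Set Filter Asymptotics Topology Metric
open scoped ComplexConjugate ENNReal

namespace Pool.Agent.KA

open Pool.Agent.Helper7.KE hiding HM PS Bv sfun FF tt lS

theorem transfer' {U Ω : Set ℂ} (hU : IsOpen U) (hUc : IsPreconnected U)
    (hUb : Bornology.IsBounded U) {ψ : ℂ → ℂ}
    (hψ : DifferentiableOn ℂ ψ U) (hinj : InjOn ψ U) (himg : ψ '' U = Ω)
    {h : ℂ → ℂ} {μ : ℂ} {u : ℂ → ℂ}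
    (hu : IsSol U (fun z => h (ψ z) * deriv ψ z) μ u) : ∃ u' : ℂ → ℂ, IsSol Ω h μ u' := by
  subst himg
  have hne : ∀ z ∈ U, deriv ψ z ≠ 0 := fun z hz => transfer_deriv_ne hU hψ hinj hz
  have hdψ : DifferentiableOn ℂ (deriv ψ) U := hψ.deriv hU
  have hUm := hU.measurableSet
  have hUfin : volume U ≠ ⊤ := hUb.measure_lt_top.ne
  have : IsFiniteMeasure (volume.restrict U) :=
    ⟨by rw [Measure.restrict_apply_univ]; exact hUfin.lt_top⟩
  have hΩ := transfer_image_open hU hψ hinj
  set χ := Function.invFunOn ψ U with hχ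
  have hχψ : ∀ z ∈ U, χ (ψ z) = z := fun z hz => transfer_inv_apply hinj hz
  have hmul : ∀ c : ℂ, ((‖c‖ ^ 2 : ℝ) : ℂ) = c * conj c := by
    intro c
    rw [Complex.mul_conj, Complex.normSq_eq_norm_sq]
  let u' : ℂ → ℂ := fun w => u (χ w) / deriv ψ (χ w)
  have hu' : ∀ z ∈ U, u' (ψ z) = u z / deriv ψ z := by
    intro z hz
    simp only [u', hχψ z hz]
  have hmeas : AEStronglyMeasurable u' (volume.restrict (ψ '' U)) := by
    let Un : ℕ → Set ℂ := fun n => U ∩ {z | ‖deriv ψ z‖ < n}
    have hUn : ∀ n, IsOpen (Un n) := fun n =>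
      (hdψ.continuousOn.norm).isOpen_inter_preimage hU (isOpen_Iio (a := (n : ℝ)))
    have hUU : ∀ n, Un n ⊆ U := fun n => inter_subset_left
    have hcov : ψ '' U = ⋃ n, ψ '' (Un n) := by
      rw [← image_iUnion]
      congr 1
      ext z
      constructor
      · intro hz
        obtain ⟨n, hn⟩ := exists_nat_gt ‖deriv ψ z‖
        exact mem_iUnion.2 ⟨n, hz, hn⟩
      · intro hz
        obtain ⟨n, hn⟩ := mem_iUnion.1 hz
        exact hn.1
    rw [hcov, aestronglyMeasurable_iUnion_iff]
    intro n
    have hint : IntegrableOn u' (ψ '' (Un n)) := by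
      rw [transfer_integrable (hUn n) (hψ.mono (hUU n)) (hinj.mono (hUU n))]
      have h0 : IntegrableOn u U volume := hu.memLp.integrable (by norm_num)
      have h1 : IntegrableOn u (Un n) := h0.mono_set (hUU n)
      have h2 : IntegrableOn (fun z => conj (deriv ψ z) * u z) (Un n) := by
        refine Integrable.bdd_mul (c := n) h1 ?_ ?_
        · have : ContinuousOn (fun z => conj (deriv ψ z)) (Un n) :=
            (Complex.continuous_conj.comp_continuousOn hdψ.continuousOn).mono (hUU n)
          exact this.aestronglyMeasurable (hUn n).measurableSet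
        · filter_upwards [ae_restrict_mem (hUn n).measurableSet] with z hz
          rw [RCLike.norm_conj]
          exact (show ‖deriv ψ z‖ < n from hz.2).le
      refine h2.congr_fun (fun z hz => ?_) (hUn n).measurableSet
      have h3 := hne z (hUU n hz)
      simp only [hu' z (hUU n hz), Complex.real_smul, hmul]
      field_simp
    exact hint.1
  have hsq : IntegrableOn (fun w => ‖u' w‖ ^ 2) (ψ '' U) := by
    rw [transfer_integrable hU hψ hinj]
    have h1 : IntegrableOn (fun z => ‖u z‖ ^ 2) U :=
      (memLp_two_iff_integrable_sq_norm hu.memLp.1).1 hu.memLp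
    refine h1.congr_fun (fun z hz => ?_) hUm
    have h3 := norm_ne_zero_iff.2 (hne z hz)
    simp only [hu' z hz, smul_eq_mul, norm_div]
    field_simp
  refine ⟨u', ?_, ?_, ?_, ?_⟩
  · exact (memLp_two_iff_integrable_sq_norm hmeas).2 hsq
  · intro h0
    apply hu.ne
    have h1 : ∫ w in ψ '' U, ‖u' w‖ ^ 2 = 0 := by
      rw [← integral_zero ℂ ℝ (μ := volume.restrict (ψ '' U))]
      refine integral_congr_ae ?_
      filter_upwards [h0] with w hw
      simp [hw]
    rw [transfer_integral hU hψ hinj] at h1
    have h2 : ∫ z in U, ‖u z‖ ^ 2 = 0 := by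
      rw [← h1]
      refine setIntegral_congr_fun hUm fun z hz => ?_
      have h3 := norm_ne_zero_iff.2 (hne z hz)
      simp only [hu' z hz, smul_eq_mul, norm_div]
      field_simp
    rw [integral_eq_zero_iff_of_nonneg (fun z => sq_nonneg _)
      ((memLp_two_iff_integrable_sq_norm hu.memLp.1).1 hu.memLp)] at h2
    filter_upwards [h2] with z hz
    simpa using hz
  · intro φ hφ
    -- the pulled back test function
    have hK : IsCompact (χ '' tsupport φ) := by
      refine hφ.compact.isCompact.image_of_continuousOn fun w hw => ?_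
      obtain ⟨z, hz, rfl⟩ := hφ.supp hw
      have := transfer_inv_tendsto hU hψ hinj hz
      refine ContinuousAt.continuousWithinAt ?_
      rwa [ContinuousAt, hχψ z hz]
    have hKU : χ '' tsupport φ ⊆ U := by
      rintro _ ⟨w, hw, rfl⟩
      obtain ⟨z, hz, rfl⟩ := hφ.supp hw
      rw [hχψ z hz]
      exact hz
    classical
    let φ' : ℂ → ℂ := U.indicator fun z => φ (ψ z)
    have hφ'U : ∀ z ∈ U, φ' z = φ (ψ z) := fun z hz => indicator_of_mem hz _
    have hev : ∀ z ∈ U, φ' =ᶠ[𝓝 z] fun z => φ (ψ z) := by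
      intro z hz
      filter_upwards [hU.mem_nhds hz] with y hy
      exact hφ'U y hy
    have hsupp : tsupport φ' ⊆ χ '' tsupport φ := by
      refine closure_minimal (fun z hz => ?_) hK.isClosed
      have hzU : z ∈ U := by
        by_contra hzU
        exact hz (indicator_of_notMem hzU _)
      rw [Function.mem_support, hφ'U z hzU] at hz
      exact ⟨ψ z, subset_tsupport _ hz, hχψ z hzU⟩
    have hφ' : IsTest U φ' := by
      refine ⟨?_, hK.of_isClosed_subset isClosed_closure hsupp, hsupp.trans hKU⟩
      rw [contDiff_iff_contDiffAt]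
      intro z
      by_cases hz : z ∈ U
      · refine ContDiffAt.congr_of_eventuallyEq ?_ (hev z hz)
        exact hφ.smooth.contDiffAt.comp z ((hol_contDiffOn hU hψ).contDiffAt (hU.mem_nhds hz))
      · have hz' : z ∉ tsupport φ' := fun h => hz (hKU (hsupp h))
        exact contDiffAt_const.congr_of_eventuallyEq (notMem_tsupport_iff_eventuallyEq.1 hz')
    have hw := hu.weak φ' hφ'
    rw [transfer_integral hU hψ hinj, transfer_integral hU hψ hinj]
    have e1 : ∫ z in U, ‖deriv ψ z‖ ^ 2 • (u' (ψ z) * dzb φ (ψ z)) =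
        ∫ z in U, u z * dzb φ' z := by
      refine setIntegral_congr_fun hUm fun z hz => ?_
      have h3 := hne z hz
      simp only [(dz_congr (hev z hz)).2]
      rw [transfer_dzb ((hψ z hz).differentiableAt (hU.mem_nhds hz))
        (hφ.smooth.differentiable (by simp)).differentiableAt]
      simp only [hu' z hz, Complex.real_smul, hmul]
      field_simp
    have e2 : ∫ z in U, ‖deriv ψ z‖ ^ 2 • (μ * conj (h (ψ z)) * u' (ψ z) * φ (ψ z)) =
        ∫ z in U, μ * conj (h (ψ z) * deriv ψ z) * u z * φ' z := by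
      refine setIntegral_congr_fun hUm fun z hz => ?_
      have h3 := hne z hz
      simp only [hφ'U z hz, hu' z hz, Complex.real_smul, hmul, map_mul]
      field_simp
    rw [e1, e2]
    exact hw
  · intro g hg hg2
    rw [transfer_integral hU hψ hinj]
    have hG : DifferentiableOn ℂ (fun z => g (ψ z) * deriv ψ z) U :=
      (hg.comp hψ (mapsTo_image ψ U)).mul hdψ
    have hG2 : MemLp (fun z => g (ψ z) * deriv ψ z) 2 (volume.restrict U) := by
      rw [memLp_two_iff_integrable_sq_norm (hG.continuousOn.aestronglyMeasurable hUm)]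
      have h1 : IntegrableOn (fun w => ‖g w‖ ^ 2) (ψ '' U) :=
        (memLp_two_iff_integrable_sq_norm hg2.1).1 hg2
      rw [transfer_integrable hU hψ hinj] at h1
      refine h1.congr_fun (fun z hz => ?_) hUm
      simp only [smul_eq_mul, norm_mul]
      ring
    rw [← hu.orth _ hG hG2]
    refine setIntegral_congr_fun hUm fun z hz => ?_
    have h3 := hne z hz
    simp only [hu' z hz, Complex.real_smul, hmul, map_mul]
    field_simp

end Pool.Agent.KA
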