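import Pool.Agent.Helper9.KA.E9
import Pool.Agent.Helper9.KA.F3
import Pool.Agent.Helper9.KA.D4
import Pool.Agent.Helper9.KA.C5c
import Pool.Agent.Helper9.KA.C7a
import Pool.Agent.Helper7.KE.F0
import Pool.Agent.Helper9.Ends.Final
import Pool.Agent.Helper10.Ends.InnerDiam

/-!
# From the harmonic potential to general `h`, and to general smooth domains
-/

set_option autoImplicit false

open MeasureTheory Set Filter Asymptotics Topology Metric
open scoped ComplexConjugate ENNReal

namespace Pool.Agent.KA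

open Pool.Agent.Helper7.KE hiding HM PS Bv sfun FF tt lS
open Pool.Agent.EN (AJ ann ann2)

private theorem f2_memLp {k : ℕ} (D : AJ k) {f : ℂ → ℂ} (hf : ContinuousOn f D.U) {C : ℝ}
    (hC : ∀ z ∈ D.U, ‖f z‖ ≤ C) {g : ℂ → ℂ} (hg : MemLp g 2 (volume.restrict D.U)) :
    MemLp (fun z => f z * g z) 2 (volume.restrict D.U) := by
  refine MemLp.of_le_mul (c := C) hg
    ((hf.aestronglyMeasurable D.U_open.measurableSet).mul hg.1) ?_
  filter_upwards [ae_restrict_mem D.U_open.measurableSet] with z hz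
  rw [norm_mul]
  exact mul_le_mul_of_nonneg_right (hC z hz) (norm_nonneg _)

/-- solutions for `h = Σ x_j v_j + F'` with `F` bounded -/
theorem sol_of_decomp {k : ℕ} {D : AJ k} {τ δ : ℝ} (hτ : D.Good τ) (hδ : 0 < δ) (hδτ : δ ≤ τ)
    (H : HM D τ δ) {h : ℂ → ℂ} (hh : DifferentiableOn ℂ h D.U) {x : Fin k → ℂ} (hx0 : x ≠ 0)
    {F : ℂ → ℂ} (hF : ∀ z ∈ D.U, HasDerivAt F (h z - ∑ j, x j * H.v j z) z)
    (hFb : ∃ B : ℝ, ∀ z ∈ D.U, ‖F z‖ ≤ B) (R : ℝ) :
    ∃ μ : ℂ, R < ‖μ‖ ∧ ∃ u : ℂ → ℂ, IsSol D.U h μ u := by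
  obtain ⟨B, hB⟩ := hFb
  have hvc : ∀ j, ContinuousOn (H.v j) D.cU := fun j =>
    (H.hol j).continuousOn.mono (D.cU_subset_Ue hδ)
  -- rotation
  obtain ⟨c, hc1, hcne, hce⟩ : ∃ c : ℂ, ‖c‖ = 1 ∧ c ≠ 0 ∧
      (fun j => (c * conj (x j)).im) ≠ 0 := by
    by_cases hre : (fun j => ((1 : ℂ) * conj (x j)).im) = 0
    · refine ⟨Complex.I, by simp, Complex.I_ne_zero, fun h0 => hx0 ?_⟩
      funext j
      have h1 := congrFun hre j
      have h2 := congrFun h0 j
      simp only [one_mul, Complex.conj_im, Pi.zero_apply, neg_eq_zero] at h1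
      simp only [Complex.mul_im, Complex.I_re, Complex.I_im, Complex.conj_re, Complex.conj_im,
        zero_mul, one_mul, zero_add, Pi.zero_apply] at h2
      exact Complex.ext h2 h1
    · exact ⟨1, by simp, one_ne_zero, hre⟩
  obtain ⟨μ', hμ', u₀, hu0, hP, hW⟩ := circle_main hτ hδ hδτ H
    (e := fun j => (c * conj (x j)).im) (e' := fun j => (c * conj (x j)).re) hce R
  have hcx : ∀ j, (((c * conj (x j)).re : ℝ) : ℂ) + Complex.I * ((c * conj (x j)).im : ℝ) =
      c * conj (x j) := fun j => by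
    rw [mul_comm Complex.I]
    exact Complex.re_add_im _
  simp only [hcx] at hW
  set W : ℂ → ℂ := H.vb (fun j => c * conj (x j)) with hWdef
  have hWval : ∀ z, W z = c * conj (∑ j, x j * H.v j z) := by
    intro z
    rw [hWdef, HM.vb, map_sum, Finset.mul_sum]
    refine Finset.sum_congr rfl fun j _ => ?_
    rw [map_mul]
    ring
  have hWc : ContinuousOn W D.cU := by
    have : W = fun z => c * conj (∑ j, x j * H.v j z) := funext hWval
    rw [this]
    refine continuousOn_const.mul (Complex.continuous_conj.comp_continuousOn ?_)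
    exact continuousOn_finsetSum _ fun j _ => continuousOn_const.mul (hvc j)
  set μ : ℂ := μ' * c with hμ
  set G : ℂ → ℂ := fun z => Complex.exp (μ * conj (F z)) with hG
  have hFd : DifferentiableOn ℂ F D.U := fun z hz =>
    (hF z hz).differentiableAt.differentiableWithinAt
  have hFs : ContDiffOn ℝ (⊤ : ℕ∞) F D.U := hol_contDiffOn D.U_open hFd
  have hFcs : ContDiffOn ℝ (⊤ : ℕ∞) (fun z => μ * conj (F z)) D.U :=
    contDiffOn_const.mul ((Complex.conjCLE : ℂ →L[ℝ] ℂ).contDiff.comp_contDiffOn hFs)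
  have hGs : ContDiffOn ℝ (⊤ : ℕ∞) G D.U := hFcs.cexp
  have hGb : ∀ z ∈ D.U, ‖G z‖ ≤ Real.exp (‖μ‖ * B) := by
    intro z hz
    rw [hG, Complex.norm_exp]
    apply Real.exp_le_exp.2
    refine (Complex.re_le_norm _).trans ?_
    rw [norm_mul, Complex.norm_conj]
    exact mul_le_mul_of_nonneg_left (hB z hz) (norm_nonneg _)
  have hGz : ∀ z ∈ D.U, dzb G z = G z * (μ * conj (h z - ∑ j, x j * H.v j z)) := by
    intro z hz
    have hmem := D.U_open.mem_nhds hz
    have hd : DifferentiableAt ℝ (fun z => μ * conj (F z)) z :=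
      (hFcs.contDiffAt hmem).differentiableAt (by simp)
    have hcd : DifferentiableAt ℝ (fun z => conj (F z)) z :=
      (((Complex.conjCLE : ℂ →L[ℝ] ℂ).contDiff.comp_contDiffOn hFs).contDiffAt
        hmem).differentiableAt (by simp)
    rw [hG, (dz_cexp hd).2]
    congr 1
    have h1 := (dz_smul (f := fun _ => μ) (F := fun w => conj (F w)) (z := z)
      (differentiableAt_const _) hcd).2
    simp only [smul_eq_mul] at h1
    rw [h1, dz_const.2, zero_mul, zero_add, (dz_conj_hol (hF z hz).differentiableAt).2,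
      (hF z hz).deriv]
  have hu0L : MemLp (u₀ : ℂ → ℂ) 2 (volume.restrict D.U) := Lp.memLp u₀
  refine ⟨μ, ?_, fun z => G z * u₀ z, ?_, ?_, ?_, ?_⟩
  · rw [hμ, norm_mul, hc1, mul_one]
    exact hμ'
  · exact f2_memLp D hGs.continuousOn hGb hu0L
  · intro h0
    apply hu0
    rw [Lp.eq_zero_iff_ae_eq_zero]
    filter_upwards [h0] with z hz
    rcases mul_eq_zero.1 hz with h | h
    · exact absurd h (Complex.exp_ne_zero _)
    · exact h
  · intro φ hφ
    have hGφ : IsTest D.U (fun z => G z • φ z) := IsTest.smul D.U_open hGs hφ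
    have h1 := hW _ hGφ
    have hMul := D.Mul_coe hWc u₀
    have hsm := Lp.coeFn_smul μ' (D.Mul W u₀)
    have h2 : ∫ z in D.U, (μ' • D.Mul W u₀ : D.L2) z * (G z • φ z) =
        ∫ z in D.U, μ * conj (∑ j, x j * H.v j z) * (G z * u₀ z) * φ z := by
      apply integral_congr_ae
      filter_upwards [hMul, hsm] with z h3 h4
      rw [h4, Pi.smul_apply, h3, hWval, smul_eq_mul, smul_eq_mul, hμ]
      ring
    rw [h2] at h1
    have hφc : Continuous φ := hφ.smooth.continuous
    have hdφ : Continuous (dzb φ) := hφ.dzb.smooth.continuous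
    have hGd : ∀ z ∈ D.U, dzb (fun z => G z • φ z) z =
        G z * dzb φ z + G z * (μ * conj (h z - ∑ j, x j * H.v j z)) * φ z := by
      intro z hz
      have hmem := D.U_open.mem_nhds hz
      rw [(dz_smul ((hGs.contDiffAt hmem).differentiableAt (by simp))
        (hφ.smooth.differentiable (by simp) z)).2, hGz z hz, smul_eq_mul, smul_eq_mul]
      ring
    have h3 : ∫ z in D.U, u₀ z * dzb (fun z => G z • φ z) z =
        ∫ z in D.U, (G z * u₀ z * dzb φ z +
          μ * conj (h z - ∑ j, x j * H.v j z) * (G z * u₀ z) * φ z) := by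
      refine setIntegral_congr_fun D.U_open.measurableSet fun z hz => ?_
      rw [hGd z hz]
      ring
    -- integrability
    have hGu : MemLp (fun z => G z * u₀ z) 2 (volume.restrict D.U) :=
      f2_memLp D hGs.continuousOn hGb hu0L
    have hcint : ∀ q : ℂ → ℂ, ContinuousOn q D.U → (∃ K : ℝ, ∀ z ∈ D.U, ‖q z‖ ≤ K) →
        Integrable (fun z => q z * (G z * u₀ z)) (volume.restrict D.U) := by
      rintro q hq ⟨K, hK⟩
      exact (f2_memLp D hq hK hGu).integrable (by norm_num)
    have hφb : ∀ q : ℂ → ℂ, ContinuousOn q D.U → ∃ K : ℝ, ∀ z ∈ D.U, ‖q z * φ z‖ ≤ K := by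
      intro q hq
      obtain ⟨K, hK⟩ := hφ.compact.isCompact.exists_bound_of_continuousOn
        ((hq.mono hφ.supp).mul hφc.continuousOn)
      refine ⟨max K 0, fun z hz => ?_⟩
      by_cases hzs : z ∈ tsupport φ
      · exact (hK z hzs).trans (le_max_left _ _)
      · rw [image_eq_zero_of_notMem_tsupport hzs, mul_zero, norm_zero]
        exact le_max_right _ _
    have hdφb : ∃ K : ℝ, ∀ z ∈ D.U, ‖dzb φ z‖ ≤ K := by
      obtain ⟨K, hK⟩ := D.cU_compact.exists_bound_of_continuousOn hdφ.continuousOn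
      exact ⟨K, fun z hz => hK z (D.U_subset_cU hz)⟩
    have hsc : ContinuousOn (fun z => ∑ j, x j * H.v j z) D.U :=
      continuousOn_finsetSum _ fun j _ =>
        continuousOn_const.mul ((hvc j).mono D.U_subset_cU)
    have i1 : Integrable (fun z => G z * u₀ z * dzb φ z) (volume.restrict D.U) := by
      refine (hcint _ hdφ.continuousOn hdφb).congr (Eventually.of_forall fun z => ?_)
      show dzb φ z * (G z * u₀ z) = G z * u₀ z * dzb φ z
      ring
    have i2 : Integrable (fun z => μ * conj (h z - ∑ j, x j * H.v j z) * (G z * u₀ z) * φ z)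
        (volume.restrict D.U) := by
      have hq : ContinuousOn (fun z => μ * conj (h z - ∑ j, x j * H.v j z)) D.U :=
        continuousOn_const.mul (Complex.continuous_conj.comp_continuousOn
          (hh.continuousOn.sub hsc))
      refine (hcint (fun z => μ * conj (h z - ∑ j, x j * H.v j z) * φ z)
        (hq.mul hφc.continuousOn) (hφb _ hq)).congr (Eventually.of_forall fun z => ?_)
      show μ * conj (h z - ∑ j, x j * H.v j z) * φ z * (G z * u₀ z) = _
      ring
    have i3 : Integrable (fun z => μ * conj (∑ j, x j * H.v j z) * (G z * u₀ z) * φ z)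
        (volume.restrict D.U) := by
      have hq : ContinuousOn (fun z => μ * conj (∑ j, x j * H.v j z)) D.U :=
        continuousOn_const.mul (Complex.continuous_conj.comp_continuousOn hsc)
      refine (hcint (fun z => μ * conj (∑ j, x j * H.v j z) * φ z)
        (hq.mul hφc.continuousOn) (hφb _ hq)).congr (Eventually.of_forall fun z => ?_)
      show μ * conj (∑ j, x j * H.v j z) * φ z * (G z * u₀ z) = _
      ring
    rw [h3, integral_add i1 i2] at h1
    have h4 : ∫ z in D.U, G z * u₀ z * dzb φ z =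
        -(∫ z in D.U, μ * conj (h z - ∑ j, x j * H.v j z) * (G z * u₀ z) * φ z) -
          ∫ z in D.U, μ * conj (∑ j, x j * H.v j z) * (G z * u₀ z) * φ z := by
      linear_combination h1
    have i2' : Integrable (fun z => -(μ * conj (h z - ∑ j, x j * H.v j z) * (G z * u₀ z) * φ z))
        (volume.restrict D.U) := i2.neg
    rw [h4, ← integral_neg, ← integral_neg, ← integral_sub i2' i3]
    congr 1
    funext z
    rw [map_sub]
    ring
  · intro g hg hgL
    -- orthogonality
    have hφg : D.Hol2 (fun z => Complex.exp (conj μ * F z) * g z) := by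
      refine ⟨((hFd.const_mul _).cexp).mul hg, ?_⟩
      refine f2_memLp D ((hFd.const_mul _).cexp.continuousOn) (C := Real.exp (‖μ‖ * B)) ?_ hgL
      intro z hz
      rw [Complex.norm_exp]
      apply Real.exp_le_exp.2
      refine (Complex.re_le_norm _).trans ?_
      rw [norm_mul, Complex.norm_conj]
      exact mul_le_mul_of_nonneg_left (hB z hz) (norm_nonneg _)
    have h1 := (P_eq_zero_iff D u₀).1 hP _ hφg
    rw [← h1]
    congr 1
    funext z
    rw [map_mul, ← Complex.exp_conj, map_mul, Complex.conj_conj, hG]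
    ring



end Pool.Agent.KA
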