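import Pool.Agent.Helper9.KA.F2

/-!
# General domains with `C²` boundary
-/

set_option autoImplicit false

open MeasureTheory Set Filter Asymptotics Topology Metric
open scoped ComplexConjugate ENNReal

namespace Pool.Agent.KA

open Pool.Agent.Helper7.KE hiding HM PS Bv sfun FF tt lS
open Pool.Agent.EN (AJ ann ann2 C2Domain exists_AJ inner_diam)

/-- a primitive of a function with bounded values on a `C²` domain is bounded -/
theorem bounded_primitive {Ω : Set ℂ} (hΩ : C2Domain Ω) {G g : ℂ → ℂ}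
    (hG : ∀ z ∈ Ω, HasDerivAt G (g z) z) {B : ℝ} (hB : ∀ z ∈ Ω, ‖g z‖ ≤ B) :
    ∃ C : ℝ, ∀ z ∈ Ω, ‖G z‖ ≤ C := by
  obtain ⟨C₀, hC₀⟩ := inner_diam hΩ
  obtain ⟨w, hw⟩ := hΩ.connected.nonempty
  have hB0 : 0 ≤ B := (norm_nonneg _).trans (hB w hw)
  have hb1 : 0 < B + 1 := by linarith
  have hd : ∀ z ∈ Ω, HasDerivAt (fun z => ((B + 1 : ℝ) : ℂ)⁻¹ * G z)
      (((B + 1 : ℝ) : ℂ)⁻¹ * g z) z := fun z hz => (hG z hz).const_mul _
  have h1 := hC₀ (fun z => ((B + 1 : ℝ) : ℂ)⁻¹ * G z)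
    (fun z hz => (hd z hz).differentiableAt.differentiableWithinAt) (fun z hz => by
      rw [(hd z hz).deriv, norm_mul, norm_inv, Complex.norm_real, Real.norm_of_nonneg hb1.le]
      rw [inv_mul_le_iff₀ hb1, mul_one]
      linarith [hB z hz])
  refine ⟨‖G w‖ + (B + 1) * C₀, fun z hz => ?_⟩
  have h2 := h1 z hz w hw
  rw [← mul_sub, norm_mul, norm_inv, Complex.norm_real, Real.norm_of_nonneg hb1.le,
    inv_mul_le_iff₀ hb1] at h2
  have h3 : ‖G z‖ ≤ ‖G w‖ + ‖G z - G w‖ := by
    have := norm_add_le (G w) (G z - G w)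
    rwa [add_sub_cancel] at this
  linarith

/-- products of continuous functions with the derivatives of the cutoff functions are
integrable -/
theorem res_integrable {k : ℕ} (D : AJ k) {τ : ℝ} (hτ : D.Good τ) (l : Option (Fin k))
    {g : ℂ → ℂ} (hg : ContinuousOn g D.U) :
    IntegrableOn (fun z => g z * dzb (fun w => (D.chi τ l w : ℂ)) z) D.U := by
  have hX : ContDiff ℝ (⊤ : ℕ∞) (fun w => (D.chi τ l w : ℂ)) :=
    Complex.ofRealCLM.contDiff.comp (chi_smooth D hτ l)
  have hXd : ContDiff ℝ (⊤ : ℕ∞) (dzb (fun w => (D.chi τ l w : ℂ))) :=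
    contDiffOn_univ.1 (dz_contDiffOn isOpen_univ (contDiffOn_univ.2 hX)).2
  have hT : IsTest D.U (D.U.indicator (dzb (fun w => (D.chi τ l w : ℂ)))) := by
    refine isTest_indicator D isOpen_univ (subset_univ _) hXd.contDiffOn ?_
    intro l' z hz
    by_cases hll : l' = l
    · subst hll
      filter_upwards [(chi_near D hτ.pos l' hz).eventually_nhds] with w hw
      have h1 : (fun w => (D.chi τ l' w : ℂ)) =ᶠ[𝓝 w] fun _ => 1 := by
        filter_upwards [hw] with y hy
        rw [hy, Complex.ofReal_one]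
      rw [(dz_congr h1).2, dz_const.2]
    · filter_upwards [(chi_zero_near D hτ hll hz).eventually_nhds] with w hw
      have h1 : (fun w => (D.chi τ l w : ℂ)) =ᶠ[𝓝 w] fun _ => 0 := by
        filter_upwards [hw] with y hy
        rw [hy, Complex.ofReal_zero]
      rw [(dz_congr h1).2, dz_const.2]
  set F := D.U.indicator (dzb (fun w => (D.chi τ l w : ℂ))) with hF
  have hc : Continuous (fun z => g z * F z) := by
    rw [continuous_iff_continuousAt]
    intro z
    by_cases hz : z ∈ D.U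
    · exact ((hg.continuousAt (D.U_open.mem_nhds hz))).mul hT.smooth.continuous.continuousAt
    · have h0 : z ∉ tsupport F := fun h => hz (hT.supp h)
      have h1 : (fun z => g z * F z) =ᶠ[𝓝 z] fun _ => 0 := by
        filter_upwards [notMem_tsupport_iff_eventuallyEq.1 h0] with y hy
        rw [hy]; simp
      exact (continuousAt_const).congr h1.symm
  have hcs : HasCompactSupport (fun z => g z * F z) := hT.compact.mul_left
  refine ((hc.integrable_of_hasCompactSupport hcs).integrableOn (s := D.U)).congr_fun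
    (fun z hz => ?_) D.U_open.measurableSet
  simp only [hF, indicator_of_mem hz]

theorem res_sub_sum {k : ℕ} (D : AJ k) {τ : ℝ} (hτ : D.Good τ) (l : Fin k) {f : ℂ → ℂ}
    (hf : ContinuousOn f D.U) {v : Fin k → ℂ → ℂ} (hv : ∀ j, ContinuousOn (v j) D.U)
    (x : Fin k → ℂ) :
    D.res τ l (fun z => f z - ∑ j, x j * v j z) = D.res τ l f - ∑ j, x j * D.res τ l (v j) := by
  have i1 := res_integrable D hτ (some l) hf
  have i2 := fun j => res_integrable D hτ (some l) (hv j)
  set X := dzb (fun w => (D.chi τ (some l) w : ℂ)) with hX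
  have e1 : ∫ z in D.U, (f z - ∑ j, x j * v j z) * X z =
      (∫ z in D.U, f z * X z) - ∑ j, x j * ∫ z in D.U, v j z * X z := by
    have e2 : (fun z => (f z - ∑ j, x j * v j z) * X z) =
        fun z => f z * X z - ∑ j, x j * (v j z * X z) := by
      funext z
      rw [sub_mul, Finset.sum_mul]
      congr 1
      exact Finset.sum_congr rfl fun j _ => by ring
    rw [e2, integral_sub i1 (integrable_finsetSum _ fun j _ => (i2 j).const_mul _),
      integral_finsetSum _ fun j _ => (i2 j).const_mul _]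
    congr 1
    exact Finset.sum_congr rfl fun j _ => integral_const_mul (x j) _
  simp only [AJ.res]
  rw [← hX, e1, mul_sub, Finset.mul_sum]
  congr 1
  exact Finset.sum_congr rfl fun j _ => by ring

/-- the main theorem, for domains with `C²` boundary -/
theorem domain_main {Ω : Set ℂ} (hΩ : C2Domain Ω) {h : ℂ → ℂ} (hh : DifferentiableOn ℂ h Ω)
    (hb : ∃ C : ℝ, ∀ z ∈ Ω, ‖h z‖ ≤ C)
    (hn : ¬ ∃ F : ℂ → ℂ, ∀ z ∈ Ω, HasDerivAt F (h z) z) (R : ℝ) :
    ∃ μ : ℂ, R < ‖μ‖ ∧ ∃ u : ℂ → ℂ, IsSol Ω h μ u := by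
  obtain ⟨k, D, ψ, φ, hψ, hψm, hφ, hφm, h1, h2, C, hC⟩ := exists_AJ hΩ
  obtain ⟨τ, hτ⟩ := exists_good D
  obtain ⟨δ, hδ, hδτ, ⟨H⟩⟩ := exists_HM D hτ
  obtain ⟨Ch, hCh⟩ := hb
  have hUo := D.U_open
  have hinj : InjOn ψ D.U := fun z hz w hw e => by rw [← h1 z hz, ← h1 w hw, e]
  have himg : ψ '' D.U = Ω := by
    apply Subset.antisymm
    · rintro _ ⟨z, hz, rfl⟩; exact hψm hz
    · intro w hw; exact ⟨φ w, hφm hw, h2 w hw⟩
  have hvc : ∀ j, ContinuousOn (H.v j) D.cU := fun j =>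
    (H.hol j).continuousOn.mono (D.cU_subset_Ue hδ)
  have hvb : ∀ j, ∃ C' : ℝ, ∀ z ∈ D.U, ‖H.v j z‖ ≤ C' := fun j => by
    obtain ⟨C', hC'⟩ := D.cU_compact.exists_bound_of_continuousOn (hvc j)
    exact ⟨C', fun z hz => hC' z (D.U_subset_cU hz)⟩
  choose C' hC' using hvb
  set f : ℂ → ℂ := fun z => h (ψ z) * deriv ψ z with hf
  have hfd : DifferentiableOn ℂ f D.U := (hh.comp hψ hψm).mul (hψ.deriv hUo)
  -- the coefficients
  set M : Matrix (Fin k) (Fin k) ℂ := H.Rm.map (algebraMap ℝ ℂ) with hM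
  have hdet : IsUnit M.det := by
    have : M.det = algebraMap ℝ ℂ H.Rm.det := by
      rw [hM, ← RingHom.mapMatrix_apply, ← RingHom.map_det]
    rw [this, isUnit_iff_ne_zero]
    exact fun h0 => H.det_ne (by simpa using h0)
  set b : Fin k → ℂ := fun l => D.res τ l f with hbdef
  set x : Fin k → ℂ := M⁻¹.mulVec b with hxdef
  have hx : M.mulVec x = b := by
    rw [hxdef, Matrix.mulVec_mulVec, Matrix.mul_nonsing_inv _ hdet, Matrix.one_mulVec]
  have hzero : ∀ l, D.res τ l (fun z => f z - ∑ j, x j * H.v j z) = 0 := by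
    intro l
    rw [res_sub_sum D hτ l hfd.continuousOn (fun j => (hvc j).mono D.U_subset_cU)]
    have h3 : ∑ j, (H.Rm l j : ℂ) * x j = D.res τ l f := by
      have := congrFun hx l
      simpa [Matrix.mulVec, dotProduct, hM, hbdef] using this
    rw [← h3, sub_eq_zero]
    refine Finset.sum_congr rfl fun j _ => ?_
    rw [H.res l j]
    ring
  obtain ⟨G, hG⟩ := exists_primitive_U D hτ (v := fun z => f z - ∑ j, x j * H.v j z)
    (hfd.sub (DifferentiableOn.fun_sum fun j _ =>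
      ((H.hol j).mono (D.U_subset_Ue δ)).const_mul _)) hzero
  have hφd : ∀ w ∈ Ω, HasDerivAt φ (deriv φ w) w := fun w hw =>
    (hφ.differentiableAt (hΩ.isOpen.mem_nhds hw)).hasDerivAt
  have hψφ : ∀ w ∈ Ω, deriv ψ (φ w) * deriv φ w = 1 := by
    intro w hw
    have e1 : HasDerivAt (fun w => ψ (φ w)) (deriv ψ (φ w) * deriv φ w) w :=
      ((hψ.differentiableAt (hUo.mem_nhds (hφm hw))).hasDerivAt).comp w (hφd w hw)
    have e2 : HasDerivAt (fun w => ψ (φ w)) 1 w := by
      refine (hasDerivAt_id w).congr_of_eventuallyEq ?_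
      filter_upwards [hΩ.isOpen.mem_nhds hw] with y hy
      exact h2 y hy
    exact e1.unique e2
  have hGφ : ∀ w ∈ Ω, HasDerivAt (fun w => G (φ w))
      (h w - (∑ j, x j * H.v j (φ w)) * deriv φ w) w := by
    intro w hw
    have e1 := (hG (φ w) (hφm hw)).comp w (hφd w hw)
    refine e1.congr_deriv ?_
    rw [sub_mul]
    congr 1
    rw [hf]
    simp only
    rw [h2 w hw, mul_assoc, hψφ w hw, mul_one]
  have hx0 : x ≠ 0 := by
    intro h0
    apply hn
    refine ⟨fun w => G (φ w), fun w hw => ?_⟩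
    have := hGφ w hw
    simpa [h0] using this
  obtain ⟨B, hB⟩ := bounded_primitive hΩ (B := Ch + (∑ j, ‖x j‖ * C' j) * C) hGφ (fun w hw => by
    refine (norm_sub_le _ _).trans (add_le_add (hCh w hw) ?_)
    rw [norm_mul]
    have e1 : ‖∑ j, x j * H.v j (φ w)‖ ≤ ∑ j, ‖x j‖ * C' j := by
      refine (norm_sum_le _ _).trans (Finset.sum_le_sum fun j _ => ?_)
      rw [norm_mul]
      exact mul_le_mul_of_nonneg_left (hC' j _ (hφm hw)) (norm_nonneg _)
    exact mul_le_mul e1 (hC w hw) (norm_nonneg _) ((norm_nonneg _).trans e1))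
  obtain ⟨μ, hμ, u, hu⟩ := sol_of_decomp hτ hδ hδτ H hfd hx0 hG
    ⟨B, fun z hz => by have := hB (ψ z) (hψm hz); rwa [h1 z hz] at this⟩ R
  obtain ⟨u', hu'⟩ := transfer' hUo (U_preconnected D) D.bounded hψ hinj himg hu
  exact ⟨μ, hμ, u', hu'⟩

end Pool.Agent.KA
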