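import Pool.Agent.Helper9.KA.A6
import Pool.Agent.Helper9.KA.C1
import Pool.Agent.Helper7.KE.C5b

set_option autoImplicit false

open MeasureTheory Set Filter Asymptotics Topology Metric
open scoped ComplexConjugate ENNReal

namespace Pool.Agent.KA

open Pool.Agent.Helper7.KE hiding HM PS Bv sfun FF tt lS
open Pool.Agent.EN (AJ ann ann2)

section
variable {k : ℕ} (D : AJ k) {τ : ℝ}

/-- the coefficient of `λ^{-n-1}` of `(g ∘ κ) κ'` in the collar `l` -/
noncomputable def lc (τ : ℝ) (l : Option (Fin k)) (n : ℕ) (g : ℂ → ℂ) : ℂ :=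
  -(1 / (Real.pi : ℂ)) *
    ∫ z in D.U, g z * (D.lam l z ^ n * dzb (fun w => (D.chi τ l w : ℂ)) z)

/-- Cauchy-Schwarz for bounded kernels, with a uniform constant -/
theorem ll_cs {m : ℕ} (A : CD m) : ∃ C : ℝ, 0 ≤ C ∧ ∀ (w : ℂ → ℂ) (M : ℝ), 0 ≤ M →
    (∀ z ∈ A.U, ‖w z‖ ≤ M) → ∀ g : ℂ → ℂ, A.Hol2 g →
      ‖∫ z in A.U, g z * w z‖ ≤ C * M * Real.sqrt (∫ z in A.U, ‖g z‖ ^ 2) := by
  refine ⟨(∫ _ in A.U, (1 : ℝ)) ^ (1 / (2 : ℝ)), by positivity, fun w M hM0 hM g hg => ?_⟩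
  have hint : Integrable (fun z => ‖g z‖ * M) (volume.restrict A.U) :=
    ((hg.memLp.integrable one_le_two).norm).mul_const M
  have h1 : ‖∫ z in A.U, g z * w z‖ ≤ ∫ z in A.U, ‖g z‖ * M := by
    refine norm_integral_le_of_norm_le hint ?_
    filter_upwards [ae_restrict_mem A.U_open.measurableSet] with z hz
    rw [norm_mul]
    exact mul_le_mul_of_nonneg_left (hM z hz) (norm_nonneg _)
  have h2 := integral_mul_le_Lp_mul_Lq_of_nonneg (μ := volume.restrict A.U)
    Real.HolderConjugate.two_two (f := fun z => ‖g z‖) (g := fun _ => (1 : ℝ))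
    (Eventually.of_forall fun z => norm_nonneg _) (Eventually.of_forall fun z => zero_le_one)
    (by
      rw [show ENNReal.ofReal 2 = 2 by norm_num]
      exact hg.memLp.norm)
    (memLp_const 1)
  rw [integral_mul_const] at h1
  simp only [mul_one, Real.one_rpow] at h2
  refine h1.trans ((mul_le_mul_of_nonneg_right h2 hM0).trans (le_of_eq ?_))
  rw [Real.sqrt_eq_rpow]
  simp only [Real.rpow_two]
  ring

/-- the derivative of the cutoff function at the outer circle -/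
theorem ll_none {m : ℕ} (A : CD m) (hτ : A.Good τ) : ∃ B : ℝ, 0 ≤ B ∧ ∀ z ∈ A.U,
    ‖dzb (fun w => (A.chi τ none w : ℂ)) z‖ ≤ B ∧
      (‖z‖ < A.R - 2 * τ / 3 → dzb (fun w => (A.chi τ none w : ℂ)) z = 0) := by
  have h1 : ContDiff ℝ (⊤ : ℕ∞) (fun w => (A.chi τ none w : ℂ)) :=
    Complex.ofRealCLM.contDiff.comp (Pool.Agent.Helper7.KE.chi_smooth A hτ.pos hτ.lt_R none)
  have h2 : Continuous (dzb (fun w => (A.chi τ none w : ℂ))) := by
    have := (dz_contDiffOn isOpen_univ h1.contDiffOn).2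
    exact (contDiffOn_univ.1 this).continuous
  obtain ⟨B, hB⟩ := A.cU_compact.exists_bound_of_continuousOn h2.continuousOn
  refine ⟨max B 0, le_max_right _ _, fun z hz => ⟨(hB z (A.U_subset_cU hz)).trans
    (le_max_left _ _), fun hlt => ?_⟩⟩
  have h3 : z ∉ tsupport (A.chi τ none) := by
    intro h
    rcases m with _ | m
    · -- no holes: the support statement is obtained directly
      have : {w : ℂ | A.R - 2 * τ / 3 ≤ ‖w‖} = {w : ℂ | A.R - 2 * τ / 3 ≤ ‖w‖} := rfl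
      have hcl : IsClosed {w : ℂ | A.R - 2 * τ / 3 ≤ ‖w‖} :=
        isClosed_le continuous_const continuous_norm
      have hsub : tsupport (A.chi τ none) ⊆ {w : ℂ | A.R - 2 * τ / 3 ≤ ‖w‖} := by
        refine closure_minimal (fun w hw => ?_) hcl
        by_contra hcon
        apply hw
        simp only [mem_ofPred_eq, not_le] at hcon
        show Real.smoothTransition (2 - 3 * (A.R - ‖w‖) / τ) = 0
        apply Real.smoothTransition.zero_of_nonpos
        have : 2 ≤ 3 * (A.R - ‖w‖) / τ := by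
          rw [le_div_iff₀ hτ.pos]; linarith
        linarith
      have := hsub h
      simp only [mem_ofPred_eq] at this
      linarith
    · have := (Pool.Agent.Helper7.KE.chi_tsupport A hτ.pos 0).2 h
      simp only [mem_ofPred_eq] at this
      linarith
  have h4 : (fun w => (A.chi τ none w : ℂ)) =ᶠ[𝓝 z] fun _ => 0 := by
    filter_upwards [notMem_tsupport_iff_eventuallyEq.1 h3] with w hw
    rw [hw]; simp
  rw [(dz_congr h4).2, dz_const.2]

theorem ll_ann (hτ : D.Good τ) : (AN τ hτ.pos).U ⊆ ann2 D.ρ := by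
  rw [AN_U]
  refine Pool.Agent.EN.ann_subset_ann2.trans (Pool.Agent.EN.ann2_mono hτ.lt_rho.le)

/-- the coefficients in the chart -/
theorem lc_eq_coef (hτ : D.Good τ) (l : Option (Fin k)) (n : ℕ) (g : ℂ → ℂ) :
    lc D τ l n g = (AN τ hτ.pos).coef τ (some 0) n
      (fun z => g (D.kap l z) * deriv (D.kap l) z) := by
  have hτ0 := hτ.pos
  have hsupp : ∀ z ∈ D.U, z ∉ D.kap l '' ann (1 + 3 * τ) →
      dzb (fun w => (D.chi τ l w : ℂ)) z = 0 := by
    intro z hz hz2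
    have h3 : z ∉ tsupport (D.chi τ l) := by
      intro h
      obtain ⟨u, hu, rfl⟩ := (chi_tsupport D hτ l).2.2 h
      apply hz2
      have hu2 : u ∈ ann2 D.ρ := Pool.Agent.EN.ann2_mono (min_le_right _ _) hu
      refine ⟨u, ⟨(D.mem_iff l u hu2).1 hz, ?_⟩, rfl⟩
      have := hu.2.trans_le (min_le_left _ _)
      linarith
    have h4 : (fun w => (D.chi τ l w : ℂ)) =ᶠ[𝓝 z] fun _ => 0 := by
      filter_upwards [notMem_tsupport_iff_eventuallyEq.1 h3] with w hw
      rw [hw]; simp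
    rw [(dz_congr h4).2, dz_const.2]
  have hA := integral_collar D hτ l
    (F := fun z => g z * (D.lam l z ^ n * dzb (fun w => (D.chi τ l w : ℂ)) z))
    (fun z hz hz2 => by rw [hsupp z hz hz2, mul_zero, mul_zero])
  unfold lc
  rw [hA]
  show _ = -(1 / (Real.pi * ((AN τ hτ.pos).r 0 : ℝ)) : ℂ) *
      ∫ z in (AN τ hτ.pos).U, (g (D.kap l z) * deriv (D.kap l) z) *
        ((z - (AN τ hτ.pos).a 0) / (AN τ hτ.pos).r 0) ^ n *
          dzb (fun w => ((AN τ hτ.pos).chi τ (some 0) w : ℂ)) z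
  have hr : (AN τ hτ.pos).r 0 = 1 := rfl
  have ha : (AN τ hτ.pos).a 0 = 0 := rfl
  rw [hr, ha, Complex.ofReal_one, mul_one]
  congr 1
  refine setIntegral_congr_fun (AN τ hτ.pos).U_open.measurableSet fun z hz => ?_
  have hz2 : z ∈ ann2 D.ρ := ll_ann D hτ hz
  have hz3 : z ∈ ann (1 + 3 * τ) := by rw [AN_U] at hz; exact hz
  have hκ : DifferentiableAt ℂ (D.kap l) z :=
    (D.holo l).differentiableAt ((Pool.Agent.EN.isOpen_ann2' _).mem_nhds hz2)
  have hχ : DifferentiableAt ℝ (fun w => (D.chi τ l w : ℂ)) (D.kap l z) := by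
    have h1 : ContDiff ℝ (⊤ : ℕ∞) (fun w => (D.chi τ l w : ℂ)) :=
      Complex.ofRealCLM.contDiff.comp (chi_smooth D hτ l)
    exact (h1.differentiable (by simp)).differentiableAt
  have h5 : (fun w => ((AN τ hτ.pos).chi τ (some 0) w : ℂ)) =ᶠ[𝓝 z]
      fun w => (D.chi τ l (D.kap l w) : ℂ) := by
    filter_upwards [(Pool.Agent.EN.isOpen_ann' _).mem_nhds hz3] with w hw
    have hw2 : w ∈ ann2 D.ρ := ll_ann D hτ (by rw [AN_U]; exact hw)
    rw [AN_chi D hτ l hw2 hw.1.le]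
  have h6 := (dz_comp_hol hκ hχ).2
  rw [(dz_congr h5).2, h6, D.lam_kap hz2]
  have h7 : ((‖deriv (D.kap l) z‖ ^ 2 : ℝ) : ℂ) =
      deriv (D.kap l) z * conj (deriv (D.kap l) z) := by
    rw [Complex.mul_conj, Complex.normSq_eq_norm_sq]
  rw [h7, smul_eq_mul, smul_eq_mul, sub_zero, div_one]
  ring

/-- local Laurent expansion in a collar -/
theorem local_laurent (hτ : D.Good τ) (l : Option (Fin k)) :
    ∃ (C : ℝ) (lb : ℕ → (ℂ → ℂ) → ℂ), 0 ≤ C ∧
      (∀ n g g' c, D.Hol2 g → D.Hol2 g' →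
        lb n (fun z => g z + c * g' z) = lb n g + c * lb n g') ∧
      (∀ n g, D.Hol2 g →
        ‖lb n g‖ ≤ C * ((1 + 2 * τ)⁻¹) ^ n * Real.sqrt (∫ z in D.U, ‖g z‖ ^ 2)) ∧
      ∀ g, D.Hol2 g → ∀ z : ℂ, 1 < ‖z‖ → ‖z‖ < 1 + τ →
        Summable (fun n => lc D τ l n g * z⁻¹ ^ (n + 1)) ∧ Summable (fun n => lb n g * z ^ n) ∧
        g (D.kap l z) * deriv (D.kap l) z =
          ∑' n, lc D τ l n g * z⁻¹ ^ (n + 1) + ∑' n, lb n g * z ^ n := by
  have hτ0 := hτ.pos
  have hA := AN_good D hτ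
  obtain ⟨C0, hC0, hcs⟩ := ll_cs (AN τ hτ.pos)
  obtain ⟨B, hB0, hB⟩ := ll_none (AN τ hτ.pos) hA
  have hR : (AN τ hτ.pos).R = 1 + 3 * τ := rfl
  have hR0 : (0 : ℝ) < 1 + 3 * τ := by linarith
  set s : ℝ := 1 + 3 * τ - 2 * τ / 3 with hs
  have hs0 : 0 < s := by rw [hs]; linarith
  have hpi := Real.pi_pos
  refine ⟨1 / Real.pi * (C0 * (B * s⁻¹)), fun n g => (AN τ hτ.pos).coef τ none n
      (fun z => g (D.kap l z) * deriv (D.kap l) z) / ((1 + 3 * τ : ℝ) : ℂ) ^ n, by positivity,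
    fun n g g' c hg hg' => ?_, fun n g hg => ?_, fun g hg z hz1 hz2 => ?_⟩
  · have h := coef_linear (AN τ hτ.pos) none n hA (hol2_pull D hτ l hg).1.diff
      (hol2_pull D hτ l hg').1.diff c
    have e : (fun z => (g (D.kap l z) + c * g' (D.kap l z)) * deriv (D.kap l) z) =
        fun z => g (D.kap l z) * deriv (D.kap l) z + c * (g' (D.kap l z) * deriv (D.kap l) z) := by
      ext z; ring
    beta_reduce
    rw [e, h]
    ring
  · obtain ⟨hG, hGn⟩ := hol2_pull D hτ l hg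
    set G : ℂ → ℂ := fun z => g (D.kap l z) * deriv (D.kap l) z with hGdef
    have hc : (AN τ hτ.pos).coef τ none n G = (1 / (Real.pi * (1 + 3 * τ : ℝ)) : ℂ) *
        ∫ z in (AN τ hτ.pos).U, G z * ((((1 + 3 * τ : ℝ) : ℂ) / z) ^ (n + 1) *
          dzb (fun w => ((AN τ hτ.pos).chi τ none w : ℂ)) z) := by
      simp only [← mul_assoc]
      rfl
    have hw : ∀ z ∈ (AN τ hτ.pos).U, ‖(((1 + 3 * τ : ℝ) : ℂ) / z) ^ (n + 1) *
        dzb (fun w => ((AN τ hτ.pos).chi τ none w : ℂ)) z‖ ≤ ((1 + 3 * τ) / s) ^ (n + 1) * B := by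
      intro z hz
      rcases lt_or_ge ‖z‖ s with h | h
      · rw [(hB z hz).2 (by rw [hR]; exact h), mul_zero, norm_zero]
        positivity
      · rw [norm_mul, norm_pow, norm_div, Complex.norm_real, Real.norm_of_nonneg hR0.le]
        refine mul_le_mul ?_ (hB z hz).1 (norm_nonneg _) (by positivity)
        refine pow_le_pow_left₀ (by positivity) ?_ _
        exact div_le_div_of_nonneg_left hR0.le hs0 h
    have h1 := hcs _ _ (by positivity) hw G hG
    have h2 : Real.sqrt (∫ z in (AN τ hτ.pos).U, ‖G z‖ ^ 2) ≤ Real.sqrt (∫ z in D.U, ‖g z‖ ^ 2) :=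
      Real.sqrt_le_sqrt hGn
    show ‖(AN τ hτ.pos).coef τ none n G / ((1 + 3 * τ : ℝ) : ℂ) ^ n‖ ≤ _
    rw [hc, norm_div, norm_mul, norm_pow, Complex.norm_real, Real.norm_of_nonneg hR0.le]
    have h3 : ‖(1 / (Real.pi * (1 + 3 * τ : ℝ)) : ℂ)‖ = 1 / (Real.pi * (1 + 3 * τ)) := by
      rw [norm_div, norm_one, norm_mul, Complex.norm_real, Complex.norm_real,
        Real.norm_of_nonneg hpi.le, Real.norm_of_nonneg hR0.le]
    rw [h3, div_le_iff₀ (by positivity)]
    have h4 : (s⁻¹) ^ n ≤ ((1 + 2 * τ)⁻¹) ^ n := by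
      refine pow_le_pow_left₀ (by positivity) ?_ _
      refine inv_anti₀ (by linarith) ?_
      rw [hs]; linarith
    set S : ℝ := Real.sqrt (∫ z in D.U, ‖g z‖ ^ 2) with hS
    have hS0 : 0 ≤ S := Real.sqrt_nonneg _
    calc 1 / (Real.pi * (1 + 3 * τ)) * ‖∫ z in (AN τ hτ.pos).U, G z *
          ((((1 + 3 * τ : ℝ) : ℂ) / z) ^ (n + 1) *
          dzb (fun w => ((AN τ hτ.pos).chi τ none w : ℂ)) z)‖
        ≤ 1 / (Real.pi * (1 + 3 * τ)) * (C0 * (((1 + 3 * τ) / s) ^ (n + 1) * B) * S) := by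
          refine mul_le_mul_of_nonneg_left (h1.trans ?_) (by positivity)
          exact mul_le_mul_of_nonneg_left h2 (by positivity)
      _ = 1 / Real.pi * (C0 * (B * s⁻¹)) * (s⁻¹) ^ n * S * (1 + 3 * τ) ^ n := by
          rw [div_pow, pow_succ, pow_succ, inv_pow]
          field_simp
      _ ≤ 1 / Real.pi * (C0 * (B * s⁻¹)) * ((1 + 2 * τ)⁻¹) ^ n * S * (1 + 3 * τ) ^ n := by
          gcongr
  · obtain ⟨hG, hGn⟩ := hol2_pull D hτ l hg
    have hzU : z ∈ (AN τ hτ.pos).U := by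
      rw [AN_U]
      exact ⟨hz1, by linarith⟩
    have hz0 : z ≠ 0 := by
      rintro rfl
      rw [norm_zero] at hz1
      linarith
    have hsum := laurent (AN τ hτ.pos) hA hG.diff hzU
    have hsf := hsum.summable.prod_factor
    have e1 : ∀ n, (AN τ hτ.pos).coef τ (some 0) n
        (fun z => g (D.kap l z) * deriv (D.kap l) z) * (AN τ hτ.pos).E (some 0) n z =
        lc D τ l n g * z⁻¹ ^ (n + 1) := by
      intro n
      rw [← lc_eq_coef D hτ l n g]
      congr 1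
      show (((AN τ hτ.pos).r 0 : ℂ) / (z - (AN τ hτ.pos).a 0)) ^ (n + 1) = _
      have hr : (AN τ hτ.pos).r 0 = 1 := rfl
      have ha : (AN τ hτ.pos).a 0 = 0 := rfl
      rw [hr, ha, sub_zero, Complex.ofReal_one, one_div]
    have e2 : ∀ n, (AN τ hτ.pos).coef τ none n
        (fun z => g (D.kap l z) * deriv (D.kap l) z) * (AN τ hτ.pos).E none n z =
        (AN τ hτ.pos).coef τ none n
        (fun z => g (D.kap l z) * deriv (D.kap l) z) / ((1 + 3 * τ : ℝ) : ℂ) ^ n * z ^ n := by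
      intro n
      show _ * (z / ((1 + 3 * τ : ℝ) : ℂ)) ^ n = _
      rw [div_pow]
      ring
    have s1 := hsf (some 0)
    have s2 := hsf none
    simp only [e1] at s1
    simp only [e2] at s2
    refine ⟨s1, s2, ?_⟩
    have h5 : HasSum (fun b : Option (Fin 1) => ∑' n, (AN τ hτ.pos).coef τ b n
        (fun z => g (D.kap l z) * deriv (D.kap l) z) * (AN τ hτ.pos).E b n z)
        (g (D.kap l z) * deriv (D.kap l) z) :=
      hsum.prod_fiberwise fun b => (hsf b).hasSum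
    have h6 := h5.unique (hasSum_fintype _)
    rw [h6, Fintype.sum_option, Fin.sum_univ_one]
    simp only [e1, e2]
    ring

/-- the coefficients are bounded functionals, linear in `g` -/
theorem lc_bound (hτ : D.Good τ) (l : Option (Fin k)) (n : ℕ) : ∃ C : ℝ, ∀ g : ℂ → ℂ,
    D.Hol2 g → ‖lc D τ l n g‖ ≤ C * Real.sqrt (∫ z in D.U, ‖g z‖ ^ 2) := by
  obtain ⟨C, hC⟩ := coef_bound (AN τ hτ.pos) (AN_good D hτ) (some 0) n
  refine ⟨max C 0, fun g hg => ?_⟩
  rw [lc_eq_coef D hτ l n g]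
  obtain ⟨hG, hGn⟩ := hol2_pull D hτ l hg
  refine (hC _ hG).trans ?_
  exact mul_le_mul (le_max_left _ _) (Real.sqrt_le_sqrt hGn) (Real.sqrt_nonneg _)
    (le_max_right _ _)

theorem lc_linear (hτ : D.Good τ) (l : Option (Fin k)) (n : ℕ) {g g' : ℂ → ℂ} (hg : D.Hol2 g)
    (hg' : D.Hol2 g') (c : ℂ) :
    lc D τ l n (fun z => g z + c * g' z) = lc D τ l n g + c * lc D τ l n g' := by
  rw [lc_eq_coef D hτ, lc_eq_coef D hτ, lc_eq_coef D hτ]
  have h := coef_linear (AN τ hτ.pos) (some 0) n (AN_good D hτ) (hol2_pull D hτ l hg).1.diff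
      (hol2_pull D hτ l hg').1.diff c
  have e : (fun z => (g (D.kap l z) + c * g' (D.kap l z)) * deriv (D.kap l) z) =
      fun z => g (D.kap l z) * deriv (D.kap l) z + c * (g' (D.kap l z) * deriv (D.kap l) z) := by
    ext z; ring
  rw [e, h]

theorem lc_zero (j : Fin k) (g : ℂ → ℂ) : lc D τ (some j) 0 g = D.res τ j g := by
  simp only [lc, AJ.res, pow_zero, one_mul]

end

end Pool.Agent.KA
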