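import Pool.Agent.Helper9.KA.VS
import Pool.Agent.Helper9.KA.D4
import Pool.Agent.Helper9.KA.ToeAux
import Pool.Agent.Helper7.KF.NearInv

set_option autoImplicit false

open MeasureTheory Set Filter Asymptotics Topology Metric
open scoped ComplexConjugate ENNReal

namespace Pool.Agent.KA

open Pool.Agent.Helper7.KE hiding HM PS Bv sfun FF tt lS
open Pool.Agent.EN (AJ ann ann2)

/-- dual frames, linear algebra -/
theorem NF_dual {H : Type*} [NormedAddCommGroup H] [NormedSpace ℂ H] {k : ℕ} (Λ : Fin k → H →L[ℂ] ℂ)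
    (f : Fin k → H) (M : Matrix (Fin k) (Fin k) ℂ) (hM : ∀ j b, M j b = Λ j (f b))
    (hdet : M.det ≠ 0) :
    (∀ j b, Λ j (∑ b', M⁻¹ b' b • f b') = if j = b then 1 else 0) ∧
      ∀ c : Fin k → ℂ, ∑ b, Λ b (∑ j, c j • f j) • (∑ b', M⁻¹ b' b • f b') = ∑ j, c j • f j := by
  have hu : IsUnit M.det := isUnit_iff_ne_zero.2 hdet
  have h1 : M * M⁻¹ = 1 := Matrix.mul_nonsing_inv M hu
  have h2 : M⁻¹ * M = 1 := Matrix.nonsing_inv_mul M hu
  constructor
  · intro j b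
    have h3 : (M * M⁻¹) j b = (1 : Matrix (Fin k) (Fin k) ℂ) j b := by rw [h1]
    rw [Matrix.mul_apply, Matrix.one_apply] at h3
    rw [map_sum, ← h3]
    refine Finset.sum_congr rfl fun b' _ => ?_
    rw [map_smul, hM, smul_eq_mul, mul_comm]
  · intro c
    have h3 : ∀ b, Λ b (∑ j, c j • f j) = ∑ j, c j * M b j := by
      intro b
      rw [map_sum]
      refine Finset.sum_congr rfl fun j _ => ?_
      rw [map_smul, hM, smul_eq_mul]
    have h4 : ∀ b' : Fin k, ∑ b, (∑ j, c j * M b j) * M⁻¹ b' b = c b' := by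
      intro b'
      calc ∑ b, (∑ j, c j * M b j) * M⁻¹ b' b
          = ∑ b, ∑ j, c j * (M⁻¹ b' b * M b j) := by
            refine Finset.sum_congr rfl fun b _ => ?_
            rw [Finset.sum_mul]
            refine Finset.sum_congr rfl fun j _ => ?_
            ring
        _ = ∑ j, c j * (M⁻¹ * M) b' j := by
            rw [Finset.sum_comm]
            refine Finset.sum_congr rfl fun j _ => ?_
            rw [Matrix.mul_apply, Finset.mul_sum]
        _ = c b' := by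
            rw [h2]
            simp [Matrix.one_apply]
    calc ∑ b, Λ b (∑ j, c j • f j) • (∑ b', M⁻¹ b' b • f b')
        = ∑ b, ∑ b', ((∑ j, c j * M b j) * M⁻¹ b' b) • f b' := by
          refine Finset.sum_congr rfl fun b _ => ?_
          rw [h3, Finset.smul_sum]
          refine Finset.sum_congr rfl fun b' _ => ?_
          rw [smul_smul]
      _ = ∑ b', (∑ b, (∑ j, c j * M b j) * M⁻¹ b' b) • f b' := by
          rw [Finset.sum_comm]
          refine Finset.sum_congr rfl fun b' _ => ?_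
          rw [Finset.sum_smul]
      _ = ∑ j, c j • f j := by
          refine Finset.sum_congr rfl fun b' _ => ?_
          rw [h4]

theorem NF_isOpen {k : ℕ} (ε : ℝ) : IsOpen {t : Fin k → ℂ | ∀ j, ‖t j - 1‖ < ε} := by
  have h : {t : Fin k → ℂ | ∀ j, ‖t j - 1‖ < ε} = ⋂ j, {t : Fin k → ℂ | ‖t j - 1‖ < ε} := by
    ext t; simp
  rw [h]
  exact isOpen_iInter_of_finite fun j => isOpen_lt (by fun_prop) continuous_const

theorem NF_prod {E ι : Type*} [NormedAddCommGroup E] [NormedSpace ℂ E] {S : Set E} (u : Finset ι)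
    {f : ι → E → ℂ} (hf : ∀ i, DifferentiableOn ℂ (f i) S) :
    DifferentiableOn ℂ (fun x => ∏ i ∈ u, f i x) S := by
  classical
  induction u using Finset.induction_on with
  | empty => simp
  | insert a s ha ih =>
    simp only [Finset.prod_insert ha]
    exact (hf a).mul ih

section
variable {k : ℕ} (D : AJ k) {τ : ℝ}

/-- representatives of linear combinations -/
theorem NF_repr {G : Fin k → ℂ → ℂ} {f : Fin k → D.Berg} (c : Fin k → ℂ)
    (hG : ∀ b, ((f b : D.L2) : ℂ → ℂ) =ᵐ[volume.restrict D.U] G b) :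
    (((∑ b, c b • f b : D.Berg) : D.L2) : ℂ → ℂ) =ᵐ[volume.restrict D.U]
      fun z => ∑ b, c b * G b z := by
  have h1 : ∀ s : Finset (Fin k), (((∑ b ∈ s, c b • f b : D.Berg) : D.L2) : ℂ → ℂ)
      =ᵐ[volume.restrict D.U] fun z => ∑ b ∈ s, c b * G b z := by
    intro s
    induction s using Finset.induction_on with
    | empty =>
      simp only [Finset.sum_empty, Submodule.coe_zero]
      exact Lp.coeFn_zero _ _ _
    | insert a s ha ih =>
      rw [Finset.sum_insert ha, Submodule.coe_add, Submodule.coe_smul]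
      refine (Lp.coeFn_add _ _).trans ?_
      filter_upwards [Lp.coeFn_smul (c a) (f a : D.L2), ih, hG a] with z h1 h2 h3
      rw [Pi.add_apply, h1, h2, Pi.smul_apply, h3, Finset.sum_insert ha, smul_eq_mul]
  exact h1 Finset.univ

theorem NF_hol2 {g : ℂ → ℂ} (f : D.L2) (hg : DifferentiableOn ℂ g D.U)
    (hf : (f : ℂ → ℂ) =ᵐ[volume.restrict D.U] g) : D.Hol2 g :=
  ⟨hg, (memLp_congr_ae hf).1 (Lp.memLp f)⟩

/-- frames near `t = 1` -/
theorem near_frames (hτ : D.Good τ) {z₀ : ℂ} (hz₀ : z₀ ∈ D.U) :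
    ∃ δ > 0, δ ≤ τ ∧ ∃ ε > 0, ε < 1 ∧ ∃ C : ℝ, ∃ g : Fin k → (Fin k → ℂ) → ℂ → ℂ,
      (∀ b, ContinuousOn (fun p : (Fin k → ℂ) × ℂ => g b p.1 p.2)
        ({t | ∀ j, ‖t j - 1‖ < ε} ×ˢ D.Ue δ)) ∧
      (∀ b, ∀ t ∈ {t : Fin k → ℂ | ∀ j, ‖t j - 1‖ < ε}, DifferentiableOn ℂ (g b t) (D.Ue δ)) ∧
      (∀ b, ∀ z ∈ D.Ue δ, DifferentiableOn ℂ (fun t => g b t z) {t | ∀ j, ‖t j - 1‖ < ε}) ∧
      (∀ b, ∀ t ∈ {t : Fin k → ℂ | ∀ j, ‖t j - 1‖ < ε}, D.VV τ z₀ t (g b t)) ∧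
      (∀ b j, ∀ t ∈ {t : Fin k → ℂ | ∀ j, ‖t j - 1‖ < ε},
        D.res τ j (g b t) = if j = b then 1 else 0) ∧
      (∀ t ∈ {t : Fin k → ℂ | ∀ j, ‖t j - 1‖ < ε}, ∀ f : ℂ → ℂ, D.Hol2 f → ∀ M : ℝ, 0 ≤ M →
        D.LtBd τ z₀ t f M →
        Real.sqrt (∫ z in D.U, ‖f z - ∑ b, D.res τ b f * g b t z‖ ^ 2) ≤ C * M) := by
  classical
  obtain ⟨δ₁, hδ₁, hδ₁τ, ⟨h⟩⟩ := exists_HM D hτ
  obtain ⟨δ, hδ, hδτ, hext⟩ := ext_family D hτ hz₀
  obtain ⟨-, u, hu1, hu2, hu3⟩ := orth_findim D hτ hδ₁ hδ₁τ h hz₀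
  choose Λ hΛ using fun j => res_functional D hτ j
  obtain ⟨Tau, hT1, hT2, hT3, hT4⟩ := exists_Tau D hτ hz₀
  obtain ⟨ε₀, hε₀, hε₀1, R, hR1, hR2⟩ := Pool.Agent.Helper7.KF.near_inv hT1 hT2
  have hO : IsOpen {t : Fin k → ℂ | ∀ j, ‖t j - 1‖ < ε₀} := NF_isOpen ε₀
  have h1O : (fun _ => (1 : ℂ)) ∈ {t : Fin k → ℂ | ∀ j, ‖t j - 1‖ < ε₀} := by
    intro j; simpa using hε₀
  -- the frame as elements of the Bergman space
  set f : Fin k → (Fin k → ℂ) → D.Berg := fun b t => R t (u b) with hf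
  have hfd : ∀ b, DifferentiableOn ℂ (f b) {t : Fin k → ℂ | ∀ j, ‖t j - 1‖ < ε₀} := by
    intro b
    exact hR1.clm_apply (differentiableOn_const _)
  have hTf : ∀ b, ∀ t ∈ {t : Fin k → ℂ | ∀ j, ‖t j - 1‖ < ε₀}, Tau t (f b t) = u b := by
    intro b t ht
    have h1 := (hR2 t ht).1
    have h2 : (Tau t * R t) (u b) = u b := by rw [h1]; rfl
    exact h2
  have hVVf : ∀ b, ∀ t ∈ {t : Fin k → ℂ | ∀ j, ‖t j - 1‖ < ε₀}, ∃ g : ℂ → ℂ,
      ((f b t : D.L2) : ℂ → ℂ) =ᵐ[volume.restrict D.U] g ∧ D.VV τ z₀ t g := by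
    intro b t ht
    obtain ⟨g, hg1, hg2⟩ := berg_rep D (f b t).2
    refine ⟨g, hg2, ?_⟩
    refine ((VV_iff_Tau D (hT4 t) (f b t) hg1 hg2).1).2 ?_
    rw [hTf b t ht]
    exact hu1 b
  have hne : ∀ t ∈ {t : Fin k → ℂ | ∀ j, ‖t j - 1‖ < ε₀}, ∀ j, t j ≠ 0 := by
    intro t ht j h0
    have := ht j
    rw [h0, zero_sub, norm_neg, norm_one] at this
    linarith
  choose G hG1 hG2 hG3 hG4 hG5 using fun b =>
    hext (Fin k → ℂ) {t : Fin k → ℂ | ∀ j, ‖t j - 1‖ < ε₀} id (f b) hO differentiableOn_id hne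
      (hfd b) (hVVf b)
  -- the matrix of residues
  set Mt : (Fin k → ℂ) → Matrix (Fin k) (Fin k) ℂ := fun t => Matrix.of fun j b => Λ j (f b t)
    with hMt
  have hMtd : ∀ j b, DifferentiableOn ℂ (fun t => Mt t j b)
      {t : Fin k → ℂ | ∀ j, ‖t j - 1‖ < ε₀} := by
    intro j b
    exact (Λ j).differentiable.comp_differentiableOn (hfd b)
  have hR1' : R (fun _ => 1) = 1 := by
    have h1 := (hR2 _ h1O).1
    rwa [hT2, one_mul] at h1
  have hM1 : Mt (fun _ => 1) = h.Rm.map (fun x : ℝ => (x : ℂ)) := by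
    ext j b
    have h1 : f b (fun _ => 1) = u b := by
      simp only [hf, hR1']; rfl
    have h2 : Mt (fun _ => 1) j b = Λ j (f b (fun _ => 1)) := rfl
    rw [h2, h1, Matrix.map_apply, ← h.res j b]
    refine hΛ j (u b) (h.v b) ?_ (hu2 b)
    exact NF_hol2 D (u b : D.L2) ((h.hol b).mono (D.U_subset_Ue _)) (hu2 b)
  have hdet1 : (Mt (fun _ => 1)).det ≠ 0 := by
    rw [hM1]
    have h1 : (h.Rm.map (fun x : ℝ => (x : ℂ))).det = ((h.Rm.det : ℝ) : ℂ) := by
      have := (RingHom.map_det Complex.ofRealHom h.Rm)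
      rw [Complex.ofRealHom_eq_coe] at this
      rw [this]
      rfl
    rw [h1]
    exact_mod_cast h.det_ne
  have hMc : ContinuousOn Mt {t : Fin k → ℂ | ∀ j, ‖t j - 1‖ < ε₀} := by
    refine continuousOn_pi.2 fun j => continuousOn_pi.2 fun b => (hMtd j b).continuousOn
  have hMc1 : ContinuousAt Mt (fun _ => 1) := hMc.continuousAt (hO.mem_nhds h1O)
  have hdetc : ContinuousAt (fun t => (Mt t).det) (fun _ => 1) :=
    (Continuous.matrix_det continuous_id).continuousAt.comp hMc1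
  have hadjc : ContinuousAt (fun t => (Mt t).adjugate) (fun _ => 1) :=
    (Continuous.matrix_adjugate continuous_id).continuousAt.comp hMc1
  have hinvf : ∀ t, (Mt t)⁻¹ = ((Mt t).det)⁻¹ • (Mt t).adjugate := by
    intro t
    rw [Matrix.inv_def, Ring.inverse_eq_inv']
  have hinvc : ContinuousAt (fun t => (Mt t)⁻¹) (fun _ => 1) := by
    have h1 : (fun t => (Mt t)⁻¹) = fun t => ((Mt t).det)⁻¹ • (Mt t).adjugate := by
      funext t; exact hinvf t
    rw [h1]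
    exact (hdetc.inv₀ hdet1).smul hadjc
  have hev : ∀ᶠ t in 𝓝 (fun _ => (1 : ℂ) : Fin k → ℂ), (Mt t).det ≠ 0 ∧
      ∀ b' b, ‖(Mt t)⁻¹ b' b‖ < ‖(Mt (fun _ => 1))⁻¹ b' b‖ + 1 := by
    refine (hdetc.eventually_ne hdet1).and ?_
    refine eventually_all.2 fun b' => eventually_all.2 fun b => ?_
    have h1 : ContinuousAt (fun t => ‖(Mt t)⁻¹ b' b‖) (fun _ => 1) := by
      have h2 : ContinuousAt (fun t => (Mt t)⁻¹ b' b) (fun _ => 1) :=
        (continuousAt_pi.1 ((continuousAt_pi.1 hinvc) b')) b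
      exact h2.norm
    exact h1.eventually_lt continuousAt_const (by simp)
  obtain ⟨ε₁, hε₁, hball⟩ := Metric.eventually_nhds_iff.1 hev
  obtain ⟨ε, hε, hεε₀, hεε₁⟩ : ∃ ε > 0, ε ≤ ε₀ ∧ ε < ε₁ :=
    ⟨min ε₀ (ε₁ / 2), lt_min hε₀ (by positivity), min_le_left _ _,
      (min_le_right _ _).trans_lt (by linarith)⟩
  have hsub : {t : Fin k → ℂ | ∀ j, ‖t j - 1‖ < ε} ⊆ {t : Fin k → ℂ | ∀ j, ‖t j - 1‖ < ε₀} :=
    fun t ht j => (ht j).trans_le hεε₀
  have hgood : ∀ t ∈ {t : Fin k → ℂ | ∀ j, ‖t j - 1‖ < ε}, (Mt t).det ≠ 0 ∧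
      ∀ b' b, ‖(Mt t)⁻¹ b' b‖ < ‖(Mt (fun _ => 1))⁻¹ b' b‖ + 1 := by
    intro t ht
    refine hball ?_
    refine lt_of_le_of_lt ((dist_pi_le_iff hε.le).2 fun j => ?_) hεε₁
    rw [dist_eq_norm]; exact (ht j).le
  have hinvd : ∀ b' b, DifferentiableOn ℂ (fun t => (Mt t)⁻¹ b' b)
      {t : Fin k → ℂ | ∀ j, ‖t j - 1‖ < ε} := by
    intro b' b
    have hM' : ∀ j b, DifferentiableOn ℂ (fun t => Mt t j b)
      {t : Fin k → ℂ | ∀ j, ‖t j - 1‖ < ε} := fun j b => (hMtd j b).mono hsub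
    have hd : DifferentiableOn ℂ (fun t => (Mt t).det) {t : Fin k → ℂ | ∀ j, ‖t j - 1‖ < ε} := by
      have h1 : (fun t => (Mt t).det) = fun t => ∑ σ : Equiv.Perm (Fin k),
          ((Equiv.Perm.sign σ : ℤ) : ℂ) * ∏ i, Mt t (σ i) i := by
        funext t; rw [Matrix.det_apply']
      rw [h1]
      refine DifferentiableOn.fun_sum fun σ _ => ?_
      refine (differentiableOn_const _).mul ?_
      exact NF_prod _ fun i => hM' _ _
    have ha : DifferentiableOn ℂ (fun t => (Mt t).adjugate b' b)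
        {t : Fin k → ℂ | ∀ j, ‖t j - 1‖ < ε} := by
      have h1 : (fun t => (Mt t).adjugate b' b) = fun t => ∑ σ : Equiv.Perm (Fin k),
          ((Equiv.Perm.sign σ : ℤ) : ℂ) *
            ∏ i, ((Mt t).updateRow b (Pi.single b' 1)) (σ i) i := by
        funext t; rw [Matrix.adjugate_apply, Matrix.det_apply']
      rw [h1]
      refine DifferentiableOn.fun_sum fun σ _ => ?_
      refine (differentiableOn_const _).mul ?_
      refine NF_prod _ fun i => ?_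
      by_cases hi : σ i = b
      · have h2 : (fun t => ((Mt t).updateRow b (Pi.single b' 1)) (σ i) i) =
            fun _ => (Pi.single b' 1 : Fin k → ℂ) i := by
          funext t; rw [hi, Matrix.updateRow_self]
        rw [h2]
        exact differentiableOn_const _
      · have h2 : (fun t => ((Mt t).updateRow b (Pi.single b' 1)) (σ i) i) =
            fun t => Mt t (σ i) i := by
          funext t; rw [Matrix.updateRow_ne hi]
        rw [h2]
        exact hM' _ _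
    have h1 : (fun t => (Mt t)⁻¹ b' b) = fun t => ((Mt t).det)⁻¹ * (Mt t).adjugate b' b := by
      funext t; rw [hinvf]; rfl
    rw [h1]
    exact (hd.inv fun t ht => (hgood t ht).1).mul ha
  -- the dual frame
  set γ : Fin k → (Fin k → ℂ) → D.Berg := fun b t => ∑ b', (Mt t)⁻¹ b' b • f b' t with hγ
  set g : Fin k → (Fin k → ℂ) → ℂ → ℂ := fun b t z => ∑ b', (Mt t)⁻¹ b' b * G b' t z with hg
  have hγg : ∀ b, ∀ t ∈ {t : Fin k → ℂ | ∀ j, ‖t j - 1‖ < ε},
      ((γ b t : D.L2) : ℂ → ℂ) =ᵐ[volume.restrict D.U] g b t := by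
    intro b t ht
    exact NF_repr D (fun b' => (Mt t)⁻¹ b' b) fun b' => hG4 b' t (hsub ht)
  have hgz : ∀ b, ∀ t ∈ {t : Fin k → ℂ | ∀ j, ‖t j - 1‖ < ε},
      DifferentiableOn ℂ (g b t) (D.Ue δ) := by
    intro b t ht
    refine DifferentiableOn.fun_sum fun b' _ => ?_
    exact (differentiableOn_const _).mul (hG2 b' t (hsub ht))
  have hgH : ∀ b, ∀ t ∈ {t : Fin k → ℂ | ∀ j, ‖t j - 1‖ < ε}, D.Hol2 (g b t) := by
    intro b t ht
    exact NF_hol2 D (γ b t : D.L2) ((hgz b t ht).mono (D.U_subset_Ue _)) (hγg b t ht)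
  have hTγ : ∀ b, ∀ t ∈ {t : Fin k → ℂ | ∀ j, ‖t j - 1‖ < ε},
      Tau t (γ b t) ∈ (X0 D z₀)ᗮ := by
    intro b t ht
    have h1 : Tau t (γ b t) = ∑ b', (Mt t)⁻¹ b' b • u b' := by
      simp only [hγ, map_sum, map_smul]
      refine Finset.sum_congr rfl fun b' _ => ?_
      rw [hTf b' t (hsub ht)]
    rw [h1]
    exact Submodule.sum_mem _ fun b' _ => Submodule.smul_mem _ _ (hu1 b')
  have hdual := fun t (ht : t ∈ {t : Fin k → ℂ | ∀ j, ‖t j - 1‖ < ε}) =>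
    NF_dual Λ (fun b => f b t) (Mt t) (fun j b => rfl) (hgood t ht).1
  -- the constant
  set K : ℝ := ∑ b', ∑ b, (‖(Mt (fun _ => 1))⁻¹ b' b‖ + 1) * (2 * ‖u b'‖) with hK
  set C : ℝ := 2 + ∑ b, ‖Λ b‖ * 2 * (∑ b', (‖(Mt (fun _ => 1))⁻¹ b' b‖ + 1) * (2 * ‖u b'‖))
    with hC
  refine ⟨δ, hδ, hδτ, ε, hε, hεε₀.trans_lt hε₀1, C, g, ?_, hgz, ?_, ?_, ?_, ?_⟩
  · intro b
    refine continuousOn_finsetSum _ fun b' _ => ?_
    refine ContinuousOn.mul ?_ ((hG1 b').mono (prod_mono hsub subset_rfl))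
    exact (hinvd b' b).continuousOn.comp continuousOn_fst fun p hp => hp.1
  · intro b z hz
    refine DifferentiableOn.fun_sum fun b' _ => ?_
    exact (hinvd b' b).mul ((hG3 b' z hz).mono hsub)
  · intro b t ht
    exact ((VV_iff_Tau D (hT4 t) (γ b t) (hgH b t ht) (hγg b t ht)).1).2 (hTγ b t ht)
  · intro b j t ht
    rw [← hΛ j (γ b t) (g b t) (hgH b t ht) (hγg b t ht)]
    exact (hdual t ht).1 j b
  · intro t ht F hF M hM0 hbd
    set Fc : D.L2 := hF.memLp.toLp F with hFc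
    have hFc1 : (Fc : ℂ → ℂ) =ᵐ[volume.restrict D.U] F := hF.memLp.coeFn_toLp
    obtain ⟨φ, hφ⟩ : ∃ φ : D.Berg, (φ : D.L2) = Fc := ⟨⟨Fc, berg_of_hol2 D hF hFc1⟩, rfl⟩
    have hφF : ((φ : D.L2) : ℂ → ℂ) =ᵐ[volume.restrict D.U] F := by rw [hφ]; exact hFc1
    have hw := (VV_iff_Tau D (hT4 t) φ hF hφF).2 M hM0 hbd
    set w : D.Berg := ((X0 D z₀).orthogonalProjectionOnto (Tau t φ) : D.Berg) with hwdef
    have hwn : ‖w‖ ≤ M := hw
    have hworth : Tau t φ - w ∈ (X0 D z₀)ᗮ := by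
      rw [hwdef]
      exact Submodule.sub_starProjection_mem_orthogonal (K := X0 D z₀) (Tau t φ)
    obtain ⟨c, hc⟩ := hu3 _ hworth
    have hRT : R t (Tau t φ) = φ := by
      have h1 := (hR2 t (hsub ht)).2.1
      have h2 : (R t * Tau t) φ = φ := by rw [h1]; rfl
      exact h2
    have hφ2 : φ = R t w + ∑ j, c j • f j t := by
      have h1 : Tau t φ = w + ∑ j, c j • u j := by rw [← hc]; abel
      rw [← hRT, h1, map_add, map_sum]
      congr 1
      refine Finset.sum_congr rfl fun j _ => ?_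
      rw [map_smul]
    have hkey : φ - ∑ b, Λ b φ • γ b t = R t w - ∑ b, Λ b (R t w) • γ b t := by
      have h1 := (hdual t ht).2 c
      have h2 : ∑ b, Λ b φ • γ b t = ∑ b, Λ b (R t w) • γ b t + ∑ j, c j • f j t := by
        rw [← h1, ← Finset.sum_add_distrib]
        refine Finset.sum_congr rfl fun b _ => ?_
        rw [← add_smul, ← map_add, ← hφ2]
      rw [h2]
      nth_rewrite 1 [hφ2]
      abel
    have hnorm : Real.sqrt (∫ z in D.U, ‖F z - ∑ b, D.res τ b F * g b t z‖ ^ 2) =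
        ‖φ - ∑ b, Λ b φ • γ b t‖ := by
      have h1 : (((φ - ∑ b, Λ b φ • γ b t : D.Berg) : D.L2) : ℂ → ℂ)
          =ᵐ[volume.restrict D.U] fun z => F z - ∑ b, D.res τ b F * g b t z := by
        rw [Submodule.coe_sub]
        refine (Lp.coeFn_sub _ _).trans ?_
        filter_upwards [hφF, NF_repr D (fun b => Λ b φ) fun b => hγg b t ht] with z h1 h2
        rw [Pi.sub_apply, h1, h2]
        congr 1
        refine Finset.sum_congr rfl fun b _ => ?_
        rw [hΛ b φ F hF hφF]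
      rw [← L2_norm D _ h1]
      rfl
    rw [hnorm, hkey]
    have hRw : ‖R t w‖ ≤ 2 * M := by
      calc ‖R t w‖ ≤ ‖R t‖ * ‖w‖ := (R t).le_opNorm w
        _ ≤ 2 * M := mul_le_mul (hR2 t (hsub ht)).2.2 hwn (norm_nonneg _) (by norm_num)
    have hγn : ∀ b, ‖γ b t‖ ≤ ∑ b', (‖(Mt (fun _ => 1))⁻¹ b' b‖ + 1) * (2 * ‖u b'‖) := by
      intro b
      refine (norm_sum_le _ _).trans (Finset.sum_le_sum fun b' _ => ?_)
      rw [norm_smul]
      refine mul_le_mul ((hgood t ht).2 b' b).le ?_ (norm_nonneg _) (by positivity)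
      calc ‖f b' t‖ ≤ ‖R t‖ * ‖u b'‖ := (R t).le_opNorm _
        _ ≤ 2 * ‖u b'‖ := by
          exact mul_le_mul_of_nonneg_right (hR2 t (hsub ht)).2.2 (norm_nonneg _)
    calc ‖R t w - ∑ b, Λ b (R t w) • γ b t‖
        ≤ ‖R t w‖ + ∑ b, ‖Λ b (R t w) • γ b t‖ :=
          (norm_sub_le _ _).trans (add_le_add_right (norm_sum_le _ _) _)
      _ ≤ 2 * M + ∑ b, ‖Λ b‖ * 2 *
          (∑ b', (‖(Mt (fun _ => 1))⁻¹ b' b‖ + 1) * (2 * ‖u b'‖)) * M := by
          refine add_le_add hRw (Finset.sum_le_sum fun b _ => ?_)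
          rw [norm_smul]
          calc ‖Λ b (R t w)‖ * ‖γ b t‖ ≤ (‖Λ b‖ * (2 * M)) *
                (∑ b', (‖(Mt (fun _ => 1))⁻¹ b' b‖ + 1) * (2 * ‖u b'‖)) := by
                refine mul_le_mul ?_ (hγn b) (norm_nonneg _) (by positivity)
                exact ((Λ b).le_opNorm _).trans (mul_le_mul_of_nonneg_left hRw (norm_nonneg (Λ b)))
            _ = _ := by ring
      _ = C * M := by
          rw [hC, add_mul, Finset.sum_mul]

end

end Pool.Agent.KA
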