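import Pool.Agent.Helper9.KA.PO
import Pool.Agent.Helper9.KA.C7a
import Pool.Agent.Helper9.KA.ToeAux

set_option autoImplicit false

open MeasureTheory Set Filter Asymptotics Topology Metric
open scoped ComplexConjugate ENNReal

namespace Pool.Agent.KA

open Pool.Agent.Helper7.KE hiding HM PS Bv sfun FF tt lS
open Pool.Agent.EN (AJ ann ann2)

/-- adjoints -/
theorem exists_adj {X Y : Type*} [NormedAddCommGroup X] [InnerProductSpace ℂ X] [CompleteSpace X]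
    [NormedAddCommGroup Y] [InnerProductSpace ℂ Y] [CompleteSpace Y] (A : X →L[ℂ] Y) :
    ∃ A' : Y →L[ℂ] X, ∀ x y, inner ℂ x (A' y) = inner ℂ (A x) y :=
  ⟨ContinuousLinearMap.adjoint A, fun x y => ContinuousLinearMap.adjoint_inner_right A x y⟩

/-- the affine family of operators -/
theorem exists_affine {k : ℕ} {H : Type*} [NormedAddCommGroup H] [InnerProductSpace ℂ H]
    (X : Submodule ℂ H) (B : Fin k → (H →L[ℂ] X)) : ∃ Tau : (Fin k → ℂ) → (H →L[ℂ] H),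
      Differentiable ℂ Tau ∧ Tau (fun _ => 1) = 1 ∧ (∀ t f, Tau t f - f ∈ X) ∧
        ∀ t f x, inner ℂ x (Tau t f) =
          inner ℂ x f + ∑ j, (t j - 1) * inner ℂ x ((B j f : X) : H) := by
  refine ⟨fun t => 1 + ∑ j, (t j - 1) • (X.subtypeL ∘L B j), ?_, ?_, ?_, ?_⟩
  · refine (differentiable_const _).add (Differentiable.fun_sum fun j _ => ?_)
    have h1 : Differentiable ℂ fun t : Fin k → ℂ => t j - 1 :=
      (differentiable_apply j).sub_const 1
    exact h1.smul_const _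
  · simp
  · intro t f
    have h1 : (1 + ∑ j, (t j - 1) • (X.subtypeL ∘L B j) : H →L[ℂ] H) f - f =
        ∑ j, (t j - 1) • ((B j f : X) : H) := by
      simp
    rw [h1]
    exact Submodule.sum_mem _ fun j _ => Submodule.smul_mem _ _ (B j f).2
  · intro t f x
    have h1 : (1 + ∑ j, (t j - 1) • (X.subtypeL ∘L B j) : H →L[ℂ] H) f =
        f + ∑ j, (t j - 1) • ((B j f : X) : H) := by
      simp
    rw [h1, inner_add_right, inner_sum]
    simp only [inner_smul_right]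

section
variable {k : ℕ} (D : AJ k) {τ : ℝ}

theorem tf_diffAt {z₀ : ℂ} {a : ℂ → ℂ} (ha : D.TF z₀ a) :
    ∀ z ∈ D.U, DifferentiableAt ℂ a z := by
  obtain ⟨⟨δ, hδ, h⟩, -⟩ := ha
  intro z hz
  exact h.differentiableAt ((D.Ue_open δ).mem_nhds (D.U_subset_Ue δ hz))

theorem tf_hol2 {z₀ : ℂ} {a : ℂ → ℂ} (ha : D.TF z₀ a) : D.Hol2 a ∧ D.Hol2 (deriv a) := by
  obtain ⟨⟨δ, hδ, h⟩, -⟩ := ha
  exact ⟨hol2_of_nhds D (D.Ue_open δ) (D.cU_subset_Ue hδ) h,
    hol2_of_nhds D (D.Ue_open δ) (D.cU_subset_Ue hδ) (h.deriv (D.Ue_open δ))⟩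

theorem tf_lin {z₀ : ℂ} {a b : ℂ → ℂ} (ha : D.TF z₀ a) (hb : D.TF z₀ b) (c : ℂ) :
    D.TF z₀ (fun z => a z + c * b z) ∧
      ∀ z ∈ D.U, deriv (fun z => a z + c * b z) z = deriv a z + c * deriv b z := by
  refine ⟨⟨?_, by rw [ha.zero, hb.zero]; ring⟩, fun z hz => ?_⟩
  · obtain ⟨δ, hδ, h⟩ := ha.ex
    obtain ⟨δ', hδ', h'⟩ := hb.ex
    refine ⟨min δ δ', lt_min hδ hδ', ?_⟩
    exact (h.mono (D.Ue_mono (min_le_left _ _))).add
      ((h'.mono (D.Ue_mono (min_le_right _ _))).const_mul c)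
  · exact ((tf_diffAt D ha z hz).hasDerivAt.add
      ((tf_diffAt D hb z hz).hasDerivAt.const_mul c)).deriv

theorem tf_zero (z₀ : ℂ) : D.TF z₀ (fun _ => 0) :=
  ⟨⟨1, one_pos, differentiableOn_const 0⟩, rfl⟩

/-- the derivative determines the test function -/
theorem tf_unique {z₀ : ℂ} (hz₀ : z₀ ∈ D.U) {a b : ℂ → ℂ} (ha : D.TF z₀ a) (hb : D.TF z₀ b)
    (h : deriv a =ᵐ[volume.restrict D.U] deriv b) : ∀ z ∈ D.U, a z = b z := by
  have h1 := hol_unique D (tf_hol2 D ha).2.diff (tf_hol2 D hb).2.diff h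
  have h2 := (tf_lin D ha hb (-1)).1
  have h3 : EqOn (deriv fun z => a z + -1 * b z) 0 D.U := by
    intro z hz
    rw [(tf_lin D ha hb (-1)).2 z hz, h1 z hz]
    simp
  have h4 : DifferentiableOn ℂ (fun z => a z + -1 * b z) D.U := fun z hz =>
    (tf_diffAt D h2 z hz).differentiableWithinAt
  intro z hz
  have h5 := D.U_open.is_const_of_deriv_eq_zero D.connected.isPreconnected h4 h3 hz hz₀
  simp only [ha.zero, hb.zero] at h5
  have h6 : a z - b z = 0 := by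
    rw [sub_eq_add_neg, ← neg_one_mul, h5]; ring
  exact sub_eq_zero.1 h6

/-- the derivatives of test functions -/
noncomputable def X0pre (z₀ : ℂ) : Submodule ℂ D.Berg where
  carrier := {f | ∃ a, D.TF z₀ a ∧ ((f : D.L2) : ℂ → ℂ) =ᵐ[volume.restrict D.U] deriv a}
  add_mem' := by
    rintro f g ⟨a, ha, hfa⟩ ⟨b, hb, hgb⟩
    refine ⟨_, (tf_lin D ha hb 1).1, ?_⟩
    have h1 : (((f + g : D.Berg) : D.L2) : ℂ → ℂ) =ᵐ[volume.restrict D.U]
        ((f : D.L2) : ℂ → ℂ) + ((g : D.L2) : ℂ → ℂ) := Lp.coeFn_add _ _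
    filter_upwards [h1, hfa, hgb, ae_restrict_mem D.U_open.measurableSet] with z h1 h2 h3 h4
    rw [h1, Pi.add_apply, h2, h3, (tf_lin D ha hb 1).2 z h4, one_mul]
  zero_mem' := by
    refine ⟨_, tf_zero D z₀, ?_⟩
    have h1 : (((0 : D.Berg) : D.L2) : ℂ → ℂ) =ᵐ[volume.restrict D.U] 0 := Lp.coeFn_zero _ _ _
    filter_upwards [h1] with z h1
    rw [h1]
    simp
  smul_mem' := by
    rintro c f ⟨a, ha, hfa⟩
    refine ⟨_, (tf_lin D (tf_zero D z₀) ha c).1, ?_⟩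
    have h1 : (((c • f : D.Berg) : D.L2) : ℂ → ℂ) =ᵐ[volume.restrict D.U]
        c • ((f : D.L2) : ℂ → ℂ) := Lp.coeFn_smul _ _
    filter_upwards [h1, hfa, ae_restrict_mem D.U_open.measurableSet] with z h1 h2 h4
    rw [h1, Pi.smul_apply, h2, (tf_lin D (tf_zero D z₀) ha c).2 z h4, smul_eq_mul]
    simp

/-- the closed span of the derivatives of test functions -/
noncomputable def X0 (z₀ : ℂ) : Submodule ℂ D.Berg := (X0pre D z₀).topologicalClosure

instance (z₀ : ℂ) : CompleteSpace (X0 D z₀) :=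
  (Submodule.isClosed_topologicalClosure _).completeSpace_coe

/-- the primitive, as a linear map on the dense subspace -/
theorem exists_J0 {z₀ : ℂ} (hz₀ : z₀ ∈ D.U) : ∃ J : X0pre D z₀ →ₗ[ℂ] D.Berg,
    ∀ a, D.TF z₀ a → ∀ x : X0pre D z₀,
      (((x : D.Berg) : D.L2) : ℂ → ℂ) =ᵐ[volume.restrict D.U] deriv a →
      ((J x : D.L2) : ℂ → ℂ) =ᵐ[volume.restrict D.U] a := by
  classical
  have hex : ∀ x : X0pre D z₀, ∃ a, D.TF z₀ a ∧
      (((x : D.Berg) : D.L2) : ℂ → ℂ) =ᵐ[volume.restrict D.U] deriv a := fun x => x.2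
  choose p hp1 hp2 using hex
  let j : X0pre D z₀ → D.Berg := fun x =>
    ⟨(tf_hol2 D (hp1 x)).1.memLp.toLp _,
      berg_of_hol2 D (tf_hol2 D (hp1 x)).1 (tf_hol2 D (hp1 x)).1.memLp.coeFn_toLp⟩
  have hj : ∀ x, ((j x : D.L2) : ℂ → ℂ) =ᵐ[volume.restrict D.U] p x := fun x =>
    (tf_hol2 D (hp1 x)).1.memLp.coeFn_toLp
  have key : ∀ a, D.TF z₀ a → ∀ x : X0pre D z₀,
      (((x : D.Berg) : D.L2) : ℂ → ℂ) =ᵐ[volume.restrict D.U] deriv a →
      ((j x : D.L2) : ℂ → ℂ) =ᵐ[volume.restrict D.U] a := by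
    intro a ha x hx
    have h1 := tf_unique D hz₀ (hp1 x) ha ((hp2 x).symm.trans hx)
    filter_upwards [hj x, ae_restrict_mem D.U_open.measurableSet] with z h2 h3
    rw [h2, h1 z h3]
  refine ⟨⟨⟨j, ?_⟩, ?_⟩, key⟩
  · intro x y
    apply Subtype.ext
    apply Lp.ext
    have h1 : (((j x + j y : D.Berg) : D.L2) : ℂ → ℂ) =ᵐ[volume.restrict D.U]
        ((j x : D.L2) : ℂ → ℂ) + ((j y : D.L2) : ℂ → ℂ) := Lp.coeFn_add _ _
    have h2 := (tf_lin D (hp1 x) (hp1 y) 1)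
    have h3 : ((((x + y : X0pre D z₀) : D.Berg) : D.L2) : ℂ → ℂ) =ᵐ[volume.restrict D.U]
        (((x : D.Berg) : D.L2) : ℂ → ℂ) + (((y : D.Berg) : D.L2) : ℂ → ℂ) := Lp.coeFn_add _ _
    have h4 : ((((x + y : X0pre D z₀) : D.Berg) : D.L2) : ℂ → ℂ) =ᵐ[volume.restrict D.U]
        deriv fun z => p x z + 1 * p y z := by
      filter_upwards [h3, hp2 x, hp2 y, ae_restrict_mem D.U_open.measurableSet] with z a1 a2 a3 a4
      rw [a1, Pi.add_apply, a2, a3, h2.2 z a4, one_mul]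
    filter_upwards [h1, key _ h2.1 (x + y) h4, hj x, hj y] with z a1 a2 a3 a4
    rw [a1, a2, Pi.add_apply, a3, a4, one_mul]
  · intro c x
    apply Subtype.ext
    apply Lp.ext
    have h1 : (((c • j x : D.Berg) : D.L2) : ℂ → ℂ) =ᵐ[volume.restrict D.U]
        c • ((j x : D.L2) : ℂ → ℂ) := Lp.coeFn_smul _ _
    have h2 := (tf_lin D (tf_zero D z₀) (hp1 x) c)
    have h3 : ((((c • x : X0pre D z₀) : D.Berg) : D.L2) : ℂ → ℂ) =ᵐ[volume.restrict D.U]
        c • (((x : D.Berg) : D.L2) : ℂ → ℂ) := Lp.coeFn_smul _ _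
    have h4 : ((((c • x : X0pre D z₀) : D.Berg) : D.L2) : ℂ → ℂ) =ᵐ[volume.restrict D.U]
        deriv fun z => (fun _ => 0) z + c * p x z := by
      filter_upwards [h3, hp2 x, ae_restrict_mem D.U_open.measurableSet] with z a1 a2 a4
      rw [a1, Pi.smul_apply, a2, h2.2 z a4, smul_eq_mul]
      simp
    simp only [RingHom.id_apply]
    filter_upwards [h1, key _ h2.1 (c • x) h4, hj x] with z a1 a2 a3
    rw [a1]
    change (j (c • x) : D.L2) z = _
    rw [a2, Pi.smul_apply, a3, smul_eq_mul, zero_add]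

/-- the primitive, as a bounded operator -/
theorem exists_J {z₀ : ℂ} (hz₀ : z₀ ∈ D.U) : ∃ J : X0 D z₀ →L[ℂ] D.Berg,
    ∀ a, D.TF z₀ a → ∀ x : X0 D z₀,
      (((x : D.Berg) : D.L2) : ℂ → ℂ) =ᵐ[volume.restrict D.U] deriv a →
      ((J x : D.L2) : ℂ → ℂ) =ᵐ[volume.restrict D.U] a := by
  obtain ⟨J0, hJ0⟩ := exists_J0 D hz₀
  obtain ⟨C, hC0, hC⟩ := poincare D hz₀
  let e : X0pre D z₀ →ₗ[ℂ] X0 D z₀ := Submodule.inclusion (Submodule.le_topologicalClosure _)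
  have hdense : DenseRange e := by
    intro x
    have hx : (x : D.Berg) ∈ closure (X0pre D z₀ : Set D.Berg) := x.2
    rw [Metric.mem_closure_iff] at hx ⊢
    intro ε hε
    obtain ⟨b, hb, hd⟩ := hx ε hε
    exact ⟨e ⟨b, hb⟩, ⟨_, rfl⟩, hd⟩
  have hnorm : ∀ x, ‖J0 x‖ ≤ C * ‖e x‖ := by
    intro x
    obtain ⟨a, ha, hxa⟩ := x.2
    have h1 : ‖J0 x‖ = Real.sqrt (∫ z in D.U, ‖a z‖ ^ 2) := L2_norm D (J0 x : D.L2) (hJ0 a ha x hxa)
    have h2 : ‖e x‖ = Real.sqrt (∫ z in D.U, ‖deriv a z‖ ^ 2) :=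
      L2_norm D ((x : D.Berg) : D.L2) hxa
    rw [h1, h2]
    exact hC a ha
  refine ⟨J0.extendOfNorm e, fun a ha x hx => ?_⟩
  have hx' : (x : D.Berg) ∈ X0pre D z₀ := ⟨a, ha, hx⟩
  have h1 : x = e ⟨(x : D.Berg), hx'⟩ := rfl
  rw [h1, LinearMap.extendOfNorm_eq hdense ⟨C, hnorm⟩]
  exact hJ0 a ha ⟨(x : D.Berg), hx'⟩ hx

theorem mem_X0 {z₀ : ℂ} {a : ℂ → ℂ} (ha : D.TF z₀ a) {x : D.Berg}
    (hx : ((x : D.L2) : ℂ → ℂ) =ᵐ[volume.restrict D.U] deriv a) : x ∈ X0 D z₀ :=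
  Submodule.le_topologicalClosure _ ⟨a, ha, hx⟩

theorem dzb_mul_conj {S a : ℂ → ℂ} {z : ℂ} (hS : DifferentiableAt ℝ S z)
    (ha : DifferentiableAt ℂ a z) :
    dzb (fun w => S w * conj (a w)) z = dzb S z * conj (a z) + S z * conj (deriv a z) := by
  have h1 : DifferentiableAt ℝ (fun w => conj (a w)) z :=
    Complex.conjCLE.differentiableAt.comp z (ha.restrictScalars ℝ)
  have h := (dz_smul (Y := ℂ) hS h1).2
  simp only [smul_eq_mul] at h
  rw [h, (dz_conj_hol ha).2]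

theorem ta_integrable {z₀ : ℂ} {V : Set ℂ} (hV : IsOpen V) (hcV : D.cU ⊆ V)
    {S : ℂ → ℂ} (hS : ContDiffOn ℝ (⊤ : ℕ∞) S V) {g : ℂ → ℂ} (hg : D.Hol2 g) {a : ℂ → ℂ}
    (ha : D.TF z₀ a) :
    IntegrableOn (fun z => g z * dzb (fun w => S w * conj (a w)) z) D.U := by
  obtain ⟨δ, hδ, h⟩ := ha.ex
  have h1 : ContDiffOn ℝ (⊤ : ℕ∞) (fun w => conj (a w)) (D.Ue δ) :=
    Complex.conjCLE.contDiff.comp_contDiffOn (hol_contDiffOn (D.Ue_open δ) h)
  have h2 : ContDiffOn ℝ (⊤ : ℕ∞) (fun w => S w * conj (a w)) (V ∩ D.Ue δ) :=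
    (hS.mono inter_subset_left).mul (h1.mono inter_subset_right)
  have h3 : ContinuousOn (dzb fun w => S w * conj (a w)) D.cU :=
    (dz_contDiffOn (hV.inter (D.Ue_open δ)) h2).2.continuousOn.mono
      (subset_inter hcV (D.cU_subset_Ue hδ))
  obtain ⟨C, hC⟩ := D.cU_compact.exists_bound_of_continuousOn h3
  have hgi : IntegrableOn g D.U := hg.memLp.integrable (by norm_num)
  refine hgi.mul_bdd ((h3.mono D.U_subset_cU).aestronglyMeasurable
    D.U_open.measurableSet) (c := C) ?_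
  filter_upwards [ae_restrict_mem D.U_open.measurableSet] with z hz
  exact hC z (D.U_subset_cU hz)

/-- the operators representing the forms `∫ g ∂_z̄ (S ā)` -/
theorem exists_BS {z₀ : ℂ} (hz₀ : z₀ ∈ D.U) {V : Set ℂ} (hV : IsOpen V) (hcV : D.cU ⊆ V)
    {S : ℂ → ℂ} (hS : ContDiffOn ℝ (⊤ : ℕ∞) S V) : ∃ B : D.Berg →L[ℂ] X0 D z₀,
      ∀ (f : D.Berg) (g : ℂ → ℂ), ((f : D.L2) : ℂ → ℂ) =ᵐ[volume.restrict D.U] g →
        ∀ a, D.TF z₀ a → ∀ x : X0 D z₀,
        (((x : D.Berg) : D.L2) : ℂ → ℂ) =ᵐ[volume.restrict D.U] deriv a →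
        inner ℂ x (B f) = ∫ z in D.U, g z * dzb (fun w => S w * conj (a w)) z := by
  obtain ⟨J, hJ⟩ := exists_J D hz₀
  have hc1 : ContinuousOn (fun z => conj (dzb S z)) D.cU :=
    Complex.continuous_conj.comp_continuousOn ((dz_contDiffOn hV hS).2.continuousOn.mono hcV)
  have hc2 : ContinuousOn (fun z => conj (S z)) D.cU :=
    Complex.continuous_conj.comp_continuousOn (hS.continuousOn.mono hcV)
  let A : X0 D z₀ →L[ℂ] D.L2 := D.Mul (fun z => conj (dzb S z)) ∘L D.Berg.subtypeL ∘L J +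
    D.Mul (fun z => conj (S z)) ∘L D.Berg.subtypeL ∘L (X0 D z₀).subtypeL
  obtain ⟨A', hA'⟩ := exists_adj (X := X0 D z₀) (Y := D.L2) A
  refine ⟨A' ∘L D.Berg.subtypeL, ?_⟩
  intro f g hfg a ha x hx
  have h1 : inner ℂ x ((A' ∘L D.Berg.subtypeL) f) = inner ℂ (A x) (f : D.L2) :=
    hA' x (f : D.L2)
  rw [h1]
  have h2 : (A x : ℂ → ℂ) =ᵐ[volume.restrict D.U]
      fun z => conj (dzb S z) * a z + conj (S z) * deriv a z := by
    have e1 : A x = D.Mul (fun z => conj (dzb S z)) (J x : D.L2) +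
      D.Mul (fun z => conj (S z)) ((x : D.Berg) : D.L2) := rfl
    rw [e1]
    filter_upwards [Lp.coeFn_add (D.Mul (fun z => conj (dzb S z)) (J x : D.L2))
      (D.Mul (fun z => conj (S z)) ((x : D.Berg) : D.L2)), D.Mul_coe hc1 (J x : D.L2),
      D.Mul_coe hc2 ((x : D.Berg) : D.L2), hJ a ha x hx, hx] with z a1 a2 a3 a4 a5
    rw [a1, Pi.add_apply, a2, a3, a4, a5]
  rw [L2_inner D (A x) (f : D.L2) h2 hfg]
  refine setIntegral_congr_fun D.U_open.measurableSet fun z hz => ?_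
  have h3 : DifferentiableAt ℝ S z :=
    (hS.contDiffAt (hV.mem_nhds (hcV (D.U_subset_cU hz)))).differentiableAt (by simp)
  simp only [dzb_mul_conj h3 (tf_diffAt D ha z hz), map_add, map_mul, Complex.conj_conj]

/-- the operators `Tau_t`: `⟨a', Tau_t g⟩ = L_t g (a)`, `Tau_t g - g ∈ X0` -/
theorem exists_Tau (hτ : D.Good τ) {z₀ : ℂ} (hz₀ : z₀ ∈ D.U) :
    ∃ Tau : (Fin k → ℂ) → (D.Berg →L[ℂ] D.Berg),
      Differentiable ℂ Tau ∧ Tau (fun _ => 1) = 1 ∧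
      (∀ t f, Tau t f - f ∈ X0 D z₀) ∧
      ∀ (t : Fin k → ℂ) (f : D.Berg) (g : ℂ → ℂ), D.Hol2 g →
        ((f : D.L2) : ℂ → ℂ) =ᵐ[volume.restrict D.U] g → ∀ a, D.TF z₀ a → ∀ a' : D.Berg,
        ((a' : D.L2) : ℂ → ℂ) =ᵐ[volume.restrict D.U] deriv a →
        inner ℂ a' (Tau t f) = D.Lt τ t g a := by
  have hχ : ∀ l, ContDiff ℝ (⊤ : ℕ∞) (fun w => (D.chi τ l w : ℂ)) := fun l =>
    Complex.ofRealCLM.contDiff.comp (chi_smooth D hτ l)
  choose B hB using fun j : Fin k =>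
    exists_BS D hz₀ isOpen_univ (subset_univ _) (hχ (some j)).contDiffOn
  obtain ⟨Tau, hT1, hT2, hT3, hT4⟩ := exists_affine (H := D.Berg) (X0 D z₀) B
  refine ⟨Tau, hT1, hT2, hT3, ?_⟩
  · intro t f g hg hfg a ha a' ha'
    have hmem : a' ∈ X0 D z₀ := mem_X0 D ha ha'
    have h2 : ∀ j, inner ℂ a' ((B j f : X0 D z₀) : D.Berg) =
        ∫ z in D.U, g z * dzb (fun w => (D.chi τ (some j) w : ℂ) * conj (a w)) z := by
      intro j
      rw [← hB j f g hfg a ha ⟨a', hmem⟩ ha']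
      rfl
    have h3 : inner ℂ a' f = ∫ z in D.U, g z * conj (deriv a z) :=
      L2_inner D (a' : D.L2) (f : D.L2) ha' hfg
    rw [hT4, h3]
    simp only [h2]
    have hint : ∀ j, IntegrableOn (fun z => (t j - 1) *
        (g z * dzb (fun w => (D.chi τ (some j) w : ℂ) * conj (a w)) z)) D.U := fun j =>
      (ta_integrable D isOpen_univ (subset_univ _) (hχ (some j)).contDiffOn hg ha).const_mul _
    have hint0 : IntegrableOn (fun z => g z * conj (deriv a z)) D.U := by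
      exact MemLp.integrable_mul hg.memLp (memLp_conj D (tf_hol2 D ha).2.memLp)
    simp only [← integral_const_mul]
    rw [← integral_finsetSum _ fun j _ => hint j, ← integral_add hint0
      (integrable_finsetSum _ fun j _ => hint j), AJ.Lt]
    refine setIntegral_congr_fun D.U_open.measurableSet fun z hz => ?_
    have h5 : ∀ l, DifferentiableAt ℝ (fun w => (D.chi τ l w : ℂ)) z := fun l =>
      (hχ l).contDiffAt.differentiableAt (by simp)
    have ha1 := tf_diffAt D ha z hz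
    have h6 : dzb (fun w => D.X τ t w) z =
        ∑ j, (t j - 1) * dzb (fun w => (D.chi τ (some j) w : ℂ)) z := by
      have e1 : ∀ j, DifferentiableAt ℝ (fun w => (t j - 1) * (D.chi τ (some j) w : ℂ)) z :=
        fun j => (h5 (some j)).const_mul _
      have e2 := (dz_add (F := fun _ => (1 : ℂ)) (G := fun w => ∑ j, (t j - 1) *
        (D.chi τ (some j) w : ℂ)) (z := z) (differentiableAt_const _)
        (DifferentiableAt.fun_sum fun j _ => e1 j)).2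
      have e3 : (fun w => D.X τ t w) = fun w => (1 : ℂ) + ∑ j, (t j - 1) *
        (D.chi τ (some j) w : ℂ) := rfl
      rw [e3, e2, dz_const.2, zero_add, (dz_sum Finset.univ fun j _ => e1 j).2]
      refine Finset.sum_congr rfl fun j _ => ?_
      have e4 := (dz_smul (Y := ℂ) (f := fun _ => t j - 1)
        (F := fun w => (D.chi τ (some j) w : ℂ)) (z := z)
        (differentiableAt_const _) (h5 (some j))).2
      simp only [smul_eq_mul] at e4
      rw [e4, dz_const.2, zero_mul, zero_add]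
    have hX : DifferentiableAt ℝ (fun w => D.X τ t w) z := by
      have e3 : (fun w => D.X τ t w) = fun w => (1 : ℂ) + ∑ j, (t j - 1) *
        (D.chi τ (some j) w : ℂ) := rfl
      rw [e3]
      exact (differentiableAt_const _).add
        (DifferentiableAt.fun_sum fun j _ => (h5 (some j)).const_mul _)
    have h7 := dzb_mul_conj hX ha1
    simp only [h7, h6, fun j => dzb_mul_conj (h5 (some j)) ha1]
    simp only [AJ.X, add_mul, one_mul, mul_add, Finset.sum_mul, Finset.mul_sum,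
      Finset.sum_add_distrib]
    have h8 : ∑ j, g z * ((t j - 1) * dzb (fun w => (D.chi τ (some j) w : ℂ)) z * conj (a z)) =
        ∑ j, (t j - 1) * (g z * (dzb (fun w => (D.chi τ (some j) w : ℂ)) z * conj (a z))) :=
      Finset.sum_congr rfl fun j _ => by ring
    have h9 : ∑ j, g z * ((t j - 1) * (D.chi τ (some j) z : ℂ) * conj (deriv a z)) =
        ∑ j, (t j - 1) * (g z * ((D.chi τ (some j) z : ℂ) * conj (deriv a z))) :=
      Finset.sum_congr rfl fun j _ => by ring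
    rw [h8, h9]
    ring

/-- `VV_t` in terms of `Tau_t` -/
theorem VV_iff_Tau {z₀ : ℂ} {t : Fin k → ℂ} {S : D.Berg →L[ℂ] D.Berg}
    (hS : ∀ (f : D.Berg) (g : ℂ → ℂ), D.Hol2 g →
        ((f : D.L2) : ℂ → ℂ) =ᵐ[volume.restrict D.U] g → ∀ a, D.TF z₀ a → ∀ a' : D.Berg,
        ((a' : D.L2) : ℂ → ℂ) =ᵐ[volume.restrict D.U] deriv a →
        inner ℂ a' (S f) = D.Lt τ t g a) (f : D.Berg) {g : ℂ → ℂ} (hg : D.Hol2 g)
    (hfg : ((f : D.L2) : ℂ → ℂ) =ᵐ[volume.restrict D.U] g) :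
    (D.VV τ z₀ t g ↔ S f ∈ (X0 D z₀)ᗮ) ∧
      ∀ M : ℝ, 0 ≤ M → D.LtBd τ z₀ t g M → ‖(X0 D z₀).orthogonalProjectionOnto (S f)‖ ≤ M := by
  have hex : ∀ a, D.TF z₀ a → ∃ a' : D.Berg,
      ((a' : D.L2) : ℂ → ℂ) =ᵐ[volume.restrict D.U] deriv a := fun a ha =>
    ⟨⟨(tf_hol2 D ha).2.memLp.toLp _,
      berg_of_hol2 D (tf_hol2 D ha).2 (tf_hol2 D ha).2.memLp.coeFn_toLp⟩,
      (tf_hol2 D ha).2.memLp.coeFn_toLp⟩
  constructor
  · constructor
    · intro h
      have h1 : ∀ x ∈ X0pre D z₀, inner ℂ x (S f) = 0 := by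
        rintro x ⟨a, ha, hx⟩
        rw [hS f g hg hfg a ha x hx]
        exact h.ann a ha
      rw [Submodule.mem_orthogonal]
      intro x hx
      have hcl : IsClosed {x : D.Berg | inner ℂ x (S f) = 0} :=
        isClosed_eq ((continuous_id (X := D.Berg)).inner (𝕜 := ℂ) continuous_const) continuous_const
      have h2 : closure (X0pre D z₀ : Set D.Berg) ⊆ {x : D.Berg | inner ℂ x (S f) = 0} :=
        closure_minimal h1 hcl
      exact h2 hx
    · intro h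
      refine ⟨hg, fun a ha => ?_⟩
      obtain ⟨a', ha'⟩ := hex a ha
      rw [← hS f g hg hfg a ha a' ha']
      exact (Submodule.mem_orthogonal _ _).1 h a' (mem_X0 D ha ha')
  · intro M hM h
    have h1 : ∀ x ∈ X0pre D z₀, ‖inner ℂ x (S f)‖ ≤ M * ‖x‖ := by
      rintro x ⟨a, ha, hx⟩
      rw [hS f g hg hfg a ha x hx]
      have e1 : ‖x‖ = Real.sqrt (∫ z in D.U, ‖deriv a z‖ ^ 2) := L2_norm D (x : D.L2) hx
      rw [e1]
      exact h a ha
    have hcl : IsClosed {x : D.Berg | ‖inner ℂ x (S f)‖ ≤ M * ‖x‖} :=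
      isClosed_le ((continuous_id (X := D.Berg)).inner (𝕜 := ℂ) continuous_const).norm
        (continuous_const.mul continuous_norm)
    have h2 : closure (X0pre D z₀ : Set D.Berg) ⊆ {x : D.Berg | ‖inner ℂ x (S f)‖ ≤ M * ‖x‖} :=
      closure_minimal h1 hcl
    set p := (X0 D z₀).orthogonalProjectionOnto (S f) with hp
    have h3 : ‖inner ℂ (p : D.Berg) (S f)‖ ≤ M * ‖(p : D.Berg)‖ := h2 p.2
    have h4 : inner ℂ (p : D.Berg) (S f) = inner ℂ p p := by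
      rw [hp, ← Submodule.inner_orthogonalProjectionOnto_eq_of_mem_left]
    rw [h4] at h3
    have h5 : ‖(inner ℂ p p : ℂ)‖ = ‖p‖ * ‖p‖ := by
      rw [inner_self_eq_norm_sq_to_K]
      simp [pow_two]
    rw [h5] at h3
    have h6 : ‖(p : D.Berg)‖ = ‖p‖ := rfl
    rw [h6] at h3
    by_cases h0 : ‖p‖ = 0
    · rw [h0]; exact hM
    · exact le_of_mul_le_mul_right h3 (lt_of_le_of_ne (norm_nonneg _) (Ne.symm h0))

end

end Pool.Agent.KA
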