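import Pool.Agent.Helper9.KA.D5b
import Pool.Agent.Helper9.KA.C5c
import Pool.Agent.Helper9.KA.EX
import Pool.Agent.Helper9.KA.TA

set_option autoImplicit false

open MeasureTheory Set Filter Asymptotics Topology Metric
open scoped ComplexConjugate ENNReal

namespace Pool.Agent.KA

open Pool.Agent.Helper7.KE hiding HM PS Bv sfun FF tt lS
open Pool.Agent.EN (AJ ann ann2)

section
variable {k : ℕ} (D : AJ k) {τ δ : ℝ}

/-- `L_1 g (a) = ∫ g conj(a')` -/
theorem VS_Lt_one {g a : ℂ → ℂ} (ha : DifferentiableOn ℂ a D.U) :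
    D.Lt τ (fun _ => 1) g a = ∫ z in D.U, g z * conj (deriv a z) := by
  unfold AJ.Lt
  apply setIntegral_congr_fun D.U_open.measurableSet
  intro z hz
  have h1 : (fun w => D.X τ (fun _ => 1) w * conj (a w)) = fun w => conj (a w) := by
    funext w
    simp [AJ.X]
  simp only
  rw [h1, (dz_conj_hol (ha.differentiableAt (D.U_open.mem_nhds hz))).2]

theorem VS_TF_diff {z₀ : ℂ} {a : ℂ → ℂ} (ha : D.TF z₀ a) : DifferentiableOn ℂ a D.U := by
  obtain ⟨δ', hδ', h⟩ := ha.ex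
  exact h.mono (D.U_subset_Ue δ')

theorem VS_v_mem (hδ : 0 < δ) (h : HM D τ δ) {z₀ : ℂ} (j : Fin k) :
    D.VV τ z₀ (fun _ => 1) (h.v j) where
  hol := hol2_of_nhds D (D.Ue_open δ) (D.cU_subset_Ue hδ) (h.hol j)
  ann := by
    intro a ha
    rw [VS_Lt_one D (VS_TF_diff D ha)]
    obtain ⟨δ', hδ', hd⟩ := ha.ex
    exact h.orth j a ⟨D.Ue δ', D.Ue_open δ', D.cU_subset_Ue hδ', hd⟩

theorem VS_hol2_sum {g : ℂ → ℂ} (hg : D.Hol2 g) {v : Fin k → ℂ → ℂ} (hv : ∀ j, D.Hol2 (v j))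
    (c : Fin k → ℂ) (s : Finset (Fin k)) :
    D.Hol2 (fun z => g z + ∑ j ∈ s, c j * v j z) := by
  classical
  induction s using Finset.induction_on with
  | empty => simpa using hg
  | insert i s hi ih =>
    have e : (fun z => g z + ∑ j ∈ insert i s, c j * v j z) =
        fun z => (g z + ∑ j ∈ s, c j * v j z) + c i * v i z := by
      funext z
      rw [Finset.sum_insert hi]; ring
    rw [e]
    exact ⟨ih.diff.add ((hv i).diff.const_mul (c i)), ih.memLp.add ((hv i).memLp.const_mul (c i))⟩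

theorem VS_res_sum (hτ : D.Good τ) (i : Fin k) {g : ℂ → ℂ} (hg : D.Hol2 g)
    {v : Fin k → ℂ → ℂ} (hv : ∀ j, D.Hol2 (v j)) (c : Fin k → ℂ) (s : Finset (Fin k)) :
    D.res τ i (fun z => g z + ∑ j ∈ s, c j * v j z) =
      D.res τ i g + ∑ j ∈ s, c j * D.res τ i (v j) := by
  classical
  induction s using Finset.induction_on with
  | empty => simp
  | insert l s hl ih =>
    have e : (fun z => g z + ∑ j ∈ insert l s, c j * v j z) =
        fun z => (g z + ∑ j ∈ s, c j * v j z) + c l * v l z := by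
      funext z
      rw [Finset.sum_insert hl]; ring
    rw [e, res_linear D hτ i (VS_hol2_sum D hg hv c s) (hv l) (c l), ih, Finset.sum_insert hl]
    ring

theorem VS_Lt_sum {g : ℂ → ℂ} (hg : D.Hol2 g) {v : Fin k → ℂ → ℂ} (hv : ∀ j, D.Hol2 (v j))
    (hτ : D.Good τ) (t : Fin k → ℂ) {V : Set ℂ} (hV : IsOpen V) (hcV : D.cU ⊆ V) {a : ℂ → ℂ}
    (ha : DifferentiableOn ℂ a V) (c : Fin k → ℂ) (s : Finset (Fin k)) :
    D.Lt τ t (fun z => g z + ∑ j ∈ s, c j * v j z) a =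
      D.Lt τ t g a + ∑ j ∈ s, c j * D.Lt τ t (v j) a := by
  classical
  induction s using Finset.induction_on with
  | empty => simp
  | insert l s hl ih =>
    have e : (fun z => g z + ∑ j ∈ insert l s, c j * v j z) =
        fun z => (g z + ∑ j ∈ s, c j * v j z) + c l * v l z := by
      funext z
      rw [Finset.sum_insert hl]; ring
    rw [e, Lt_linear_left D hτ t (VS_hol2_sum D hg hv c s) (hv l) hV hcV ha (c l), ih,
      Finset.sum_insert hl]
    ring

/-- the space `VV_1` is spanned by the `v_j` -/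
theorem VV_one_span (hτ : D.Good τ) (hδ : 0 < δ) (hδτ : δ ≤ τ) (h : HM D τ δ) {z₀ : ℂ}
    (hz₀ : z₀ ∈ D.U) :
    (∀ j, D.VV τ z₀ (fun _ => 1) (h.v j)) ∧
      ∀ g : ℂ → ℂ, D.VV τ z₀ (fun _ => 1) g →
        ∃ c : Fin k → ℂ, ∀ z ∈ D.U, g z = ∑ j, c j * h.v j z := by
  refine ⟨fun j => VS_v_mem D hδ h j, fun g hg => ?_⟩
  obtain ⟨δ₁, hδ₁, hδ₁τ, hext⟩ := VV_ext D hτ hz₀
  obtain ⟨G, hG, hGg⟩ := hext (fun _ => 1) (fun _ => one_ne_zero) g hg
  have hvH : ∀ j, D.Hol2 (h.v j) := fun j => (VS_v_mem (z₀ := z₀) D hδ h j).hol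
  -- the coefficients
  set R : Matrix (Fin k) (Fin k) ℂ := h.Rm.map (fun x : ℝ => (x : ℂ)) with hR
  have hRdet : R.det ≠ 0 := by
    have : R.det = ((h.Rm.det : ℝ) : ℂ) := by
      rw [hR]
      exact (RingHom.map_det Complex.ofRealHom h.Rm).symm
    rw [this]
    exact_mod_cast h.det_ne
  set b : Fin k → ℂ := fun i => D.res τ i g with hb
  set c : Fin k → ℂ := R⁻¹.mulVec b with hc
  have hRc : R.mulVec c = b := by
    rw [hc, Matrix.mulVec_mulVec, Matrix.mul_nonsing_inv _ (isUnit_iff_ne_zero.2 hRdet),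
      Matrix.one_mulVec]
  set δ₂ := min δ δ₁ with hδ₂
  have hδ₂0 : 0 < δ₂ := lt_min hδ hδ₁
  have hδ₂τ : δ₂ ≤ τ := (min_le_left _ _).trans hδτ
  set w : ℂ → ℂ := fun z => G z + ∑ j, (-c j) * h.v j z with hw
  have hGH : D.Hol2 G := hol2_of_nhds D (D.Ue_open δ₁) (D.cU_subset_Ue hδ₁) hG
  have hwd : DifferentiableOn ℂ w (D.Ue δ₂) := by
    refine (hG.mono (D.Ue_mono (min_le_right _ _))).add ?_
    refine DifferentiableOn.fun_sum fun j _ => ?_
    exact ((h.hol j).mono (D.Ue_mono (min_le_left _ _))).const_mul _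
  have hwres : ∀ i, D.res τ i w = 0 := by
    intro i
    rw [hw, VS_res_sum D hτ i hGH hvH]
    have e1 : D.res τ i G = b i := by
      rw [hb]
      unfold AJ.res
      congr 1
      apply setIntegral_congr_fun D.U_open.measurableSet
      intro z hz
      simp only
      rw [hGg z hz]
    have e2 : ∑ j, c j * D.res τ i (h.v j) = b i := by
      have := congrFun hRc i
      rw [← this]
      simp only [Matrix.mulVec, dotProduct, hR, Matrix.map_apply]
      refine Finset.sum_congr rfl fun j _ => ?_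
      rw [h.res i j, mul_comm]
    rw [e1]
    simp only [neg_mul, Finset.sum_neg_distrib]
    rw [e2]
    ring
  obtain ⟨F, hF⟩ := exists_primitive D hτ hδ₂0 hδ₂τ hwd hwres
  set a : ℂ → ℂ := fun z => F z - F z₀ with ha
  have hFd : DifferentiableOn ℂ F (D.Ue δ₂) := fun z hz =>
    (hF z hz).differentiableAt.differentiableWithinAt
  have had : DifferentiableOn ℂ a (D.Ue δ₂) := hFd.sub_const _
  have haTF : D.TF z₀ a := ⟨⟨δ₂, hδ₂0, had⟩, sub_self _⟩
  have hda : ∀ z ∈ D.U, deriv a z = w z := by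
    intro z hz
    rw [ha]
    have := (hF z (D.U_subset_Ue δ₂ hz)).sub_const (F z₀)
    exact this.deriv
  have hLG : D.Lt τ (fun _ => 1) G a = 0 := by
    have e1 : D.Lt τ (fun _ => 1) G a = D.Lt τ (fun _ => 1) g a := by
      unfold AJ.Lt
      apply setIntegral_congr_fun D.U_open.measurableSet
      intro z hz
      simp only
      rw [hGg z hz]
    rw [e1]
    exact hg.ann a haTF
  have hLw : D.Lt τ (fun _ => 1) w a = 0 := by
    rw [hw, VS_Lt_sum D hGH hvH hτ _ (D.Ue_open δ₂) (D.cU_subset_Ue hδ₂0) had, hLG]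
    have : ∀ j, D.Lt τ (fun _ => 1) (h.v j) a = 0 := fun j => (VS_v_mem D hδ h j).ann a haTF
    simp [this]
  rw [VS_Lt_one D (VS_TF_diff D haTF)] at hLw
  have hLw2 : ∫ z in D.U, ((‖w z‖ ^ 2 : ℝ) : ℂ) = 0 := by
    rw [← hLw]
    apply setIntegral_congr_fun D.U_open.measurableSet
    intro z hz
    simp only
    rw [hda z hz, Complex.mul_conj, Complex.normSq_eq_norm_sq]
  rw [integral_complex_ofReal] at hLw2
  have hLw3 : ∫ z in D.U, ‖w z‖ ^ 2 = 0 := by exact_mod_cast hLw2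
  have hwH : D.Hol2 w := by
    rw [hw]; exact VS_hol2_sum D hGH hvH _ _
  have hint : Integrable (fun z => ‖w z‖ ^ 2) (volume.restrict D.U) :=
    (memLp_two_iff_integrable_sq_norm hwH.memLp.1).1 hwH.memLp
  have hw0 : (fun z => ‖w z‖ ^ 2) =ᵐ[volume.restrict D.U] 0 :=
    (integral_eq_zero_iff_of_nonneg (fun z => by positivity) hint).1 hLw3
  have hw1 : w =ᵐ[volume.restrict D.U] fun _ => 0 := by
    filter_upwards [hw0] with z hz
    have : ‖w z‖ ^ 2 = 0 := hz
    exact norm_eq_zero.1 (by simpa using this)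
  have hw2 := hol_unique D hwH.diff (differentiableOn_const 0) hw1
  refine ⟨c, fun z hz => ?_⟩
  have h1 : G z + ∑ j, (-c j) * h.v j z = 0 := hw2 z hz
  simp only [neg_mul, Finset.sum_neg_distrib] at h1
  rw [← hGg z hz]
  linear_combination h1

theorem VS_inner {f a' : D.Berg} {g d : ℂ → ℂ}
    (hf : ((f : D.L2) : ℂ → ℂ) =ᵐ[volume.restrict D.U] g)
    (ha : ((a' : D.L2) : ℂ → ℂ) =ᵐ[volume.restrict D.U] d) :
    inner ℂ a' f = ∫ z in D.U, g z * conj (d z) := by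
  rw [Submodule.coe_inner, L2.inner_def]
  apply integral_congr_ae
  filter_upwards [hf, ha] with z h1 h2
  rw [RCLike.inner_apply, h1, h2]

/-- `VV_1` as the orthogonal complement of the derivatives -/
theorem orth_findim (hτ : D.Good τ) (hδ : 0 < δ) (hδτ : δ ≤ τ) (h : HM D τ δ) {z₀ : ℂ}
    (hz₀ : z₀ ∈ D.U) :
    FiniteDimensional ℂ (X0 D z₀)ᗮ ∧
      ∃ u : Fin k → D.Berg, (∀ j, u j ∈ (X0 D z₀)ᗮ) ∧
        (∀ j, ((u j : D.L2) : ℂ → ℂ) =ᵐ[volume.restrict D.U] h.v j) ∧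
        ∀ f ∈ (X0 D z₀)ᗮ, ∃ c : Fin k → ℂ, f = ∑ j, c j • u j := by
  have hS : ∀ (f : D.Berg) (g : ℂ → ℂ), D.Hol2 g →
        ((f : D.L2) : ℂ → ℂ) =ᵐ[volume.restrict D.U] g → ∀ a, D.TF z₀ a → ∀ a' : D.Berg,
        ((a' : D.L2) : ℂ → ℂ) =ᵐ[volume.restrict D.U] deriv a →
        inner ℂ a' ((1 : D.Berg →L[ℂ] D.Berg) f) = D.Lt τ (fun _ => 1) g a := by
    intro f g _ hfg a ha a' ha'
    rw [VS_Lt_one D (VS_TF_diff D ha)]
    exact VS_inner D hfg ha'
  have hiff : ∀ (f : D.Berg) {g : ℂ → ℂ}, D.Hol2 g →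
      ((f : D.L2) : ℂ → ℂ) =ᵐ[volume.restrict D.U] g →
      (D.VV τ z₀ (fun _ => 1) g ↔ f ∈ (X0 D z₀)ᗮ) := fun f g hg hfg =>
    (VV_iff_Tau D hS f hg hfg).1
  have hvH : ∀ j, D.Hol2 (h.v j) := fun j => (VS_v_mem (z₀ := z₀) D hδ h j).hol
  have hmem : ∀ j, (hvH j).memLp.toLp (h.v j) ∈ D.Berg := fun j =>
    berg_of_hol2 D (hvH j) (hvH j).memLp.coeFn_toLp
  set u : Fin k → D.Berg := fun j => ⟨(hvH j).memLp.toLp (h.v j), hmem j⟩ with hu
  have hue : ∀ j, ((u j : D.L2) : ℂ → ℂ) =ᵐ[volume.restrict D.U] h.v j := fun j =>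
    (hvH j).memLp.coeFn_toLp
  have huX : ∀ j, u j ∈ (X0 D z₀)ᗮ := fun j =>
    (hiff (u j) (hvH j) (hue j)).1 (VS_v_mem D hδ h j)
  have hspan : ∀ f ∈ (X0 D z₀)ᗮ, ∃ c : Fin k → ℂ, f = ∑ j, c j • u j := by
    intro f hf
    obtain ⟨g, hg, hfg⟩ := berg_rep D f.2
    have hVV := (hiff f hg hfg).2 hf
    obtain ⟨c, hc⟩ := (VV_one_span D hτ hδ hδτ h hz₀).2 g hVV
    refine ⟨c, ?_⟩
    apply Subtype.ext
    apply Lp.ext
    have hsum : ∀ s : Finset (Fin k), (((∑ j ∈ s, c j • u j : D.Berg) : D.L2) : ℂ → ℂ)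
        =ᵐ[volume.restrict D.U] fun z => ∑ j ∈ s, c j * h.v j z := by
      classical
      intro s
      induction s using Finset.induction_on with
      | empty =>
        simp only [Finset.sum_empty]
        exact Lp.coeFn_zero _ _ _
      | insert i s hi ih =>
        rw [Finset.sum_insert hi]
        have e1 : (((c i • u i + ∑ j ∈ s, c j • u j : D.Berg) : D.L2) : ℂ → ℂ)
            =ᵐ[volume.restrict D.U]
            ((c i • (u i : D.L2) : D.L2) : ℂ → ℂ) + ((∑ j ∈ s, c j • u j : D.Berg) : D.L2) :=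
          Lp.coeFn_add _ _
        filter_upwards [e1, ih, Lp.coeFn_smul (c i) (u i : D.L2), hue i] with z h1 h2 h3 h4
        rw [h1, Pi.add_apply, h2, h3, Pi.smul_apply, h4, Finset.sum_insert hi, smul_eq_mul]
    filter_upwards [hfg, hsum Finset.univ, ae_restrict_mem D.U_open.measurableSet]
      with z h1 h2 hz
    rw [h1, h2]
    exact hc z hz
  refine ⟨?_, u, huX, hue, hspan⟩
  have hle : (X0 D z₀)ᗮ ≤ Submodule.span ℂ (Set.range u) := by
    intro f hf
    obtain ⟨c, rfl⟩ := hspan f hf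
    exact Submodule.sum_mem _ fun j _ =>
      Submodule.smul_mem _ _ (Submodule.subset_span ⟨j, rfl⟩)
  have : FiniteDimensional ℂ (Submodule.span ℂ (Set.range u)) :=
    FiniteDimensional.span_of_finite ℂ (Set.finite_range u)
  exact Submodule.finiteDimensional_of_le hle

/-- the residue as a functional on the Bergman space -/
theorem res_functional (hτ : D.Good τ) (j : Fin k) : ∃ Λ : D.Berg →L[ℂ] ℂ,
    ∀ (f : D.Berg) (g : ℂ → ℂ), D.Hol2 g →
      ((f : D.L2) : ℂ → ℂ) =ᵐ[volume.restrict D.U] g → Λ f = D.res τ j g := by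
  set ψ : ℂ → ℂ := fun z => conj (dzb (fun w => (D.chi τ (some j) w : ℂ)) z) with hψ
  have hψc : Continuous ψ := Complex.continuous_conj.comp (D5b_dzb_chi_cont hτ (some j))
  have hψm : MemLp ψ 2 (volume.restrict D.U) := by
    obtain ⟨C, hC⟩ := D.cU_compact.exists_bound_of_continuousOn hψc.continuousOn
    refine MemLp.of_bound hψc.aestronglyMeasurable C ?_
    filter_upwards [ae_restrict_mem D.U_open.measurableSet] with z hz
    exact hC z (D.U_subset_cU hz)
  refine ⟨(-(1 / (Real.pi : ℂ))) • ((innerSL ℂ (hψm.toLp ψ)).comp D.Berg.subtypeL),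
    fun f g _ hfg => ?_⟩
  show -(1 / (Real.pi : ℂ)) • inner ℂ (hψm.toLp ψ) (f : D.L2) = _
  rw [L2.inner_def]
  unfold AJ.res
  rw [smul_eq_mul]
  congr 1
  apply integral_congr_ae
  filter_upwards [hfg, hψm.coeFn_toLp] with z h1 h2
  rw [RCLike.inner_apply, h1, h2, hψ]
  simp only [Complex.conj_conj]

end

end Pool.Agent.KA
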